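import Mathlib

/-! Star-shaped CMC discs (S14043), file M1: joins several modules to save build time. -/

set_option autoImplicit false

noncomputable section

section S_Defs

/-!
# Star-shaped CMC discs spanning a circle (MP_d93d9b_gt, frozen statement S14043): definitions

Paper proof: /team-store/H99_d93d9b.md . Everything lives in V2 (parameters) and V3 (space).
-/


open scoped RealInnerProductSpace Topology
open Metric Filter Set


namespace Pool.Agent.H99.SC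

/-- parameter plane -/
abbrev V2 := EuclideanSpace ℝ (Fin 2)
/-- space -/
abbrev V3 := EuclideanSpace ℝ (Fin 3)

def e0 : V2 := EuclideanSpace.single 0 1
def e1 : V2 := EuclideanSpace.single 1 1
/-- the vertical unit vector -/
def E3 : V3 := !₂[0, 0, 1]

/-- cross product -/
def cr (a b : V3) : V3 :=
  !₂[a 1 * b 2 - a 2 * b 1, a 2 * b 0 - a 0 * b 2, a 0 * b 1 - a 1 * b 0]

/-- second derivative as a bilinear expression -/
def D2 {E F : Type*} [NormedAddCommGroup E] [NormedSpace ℝ E] [NormedAddCommGroup F]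
    [NormedSpace ℝ F] (f : E → F) (x a b : E) : F := fderiv ℝ (fderiv ℝ f) x a b

/-- trace of a bilinear form on V3 -/
def tr3 (Q : V3 →L[ℝ] V3 →L[ℝ] ℝ) : ℝ :=
  Q (EuclideanSpace.single 0 1) (EuclideanSpace.single 0 1)
    + Q (EuclideanSpace.single 1 1) (EuclideanSpace.single 1 1)
    + Q (EuclideanSpace.single 2 1) (EuclideanSpace.single 2 1)

/-- second order operator with coefficients A, B, C in the plane -/
def Ell (A B C : V2 → ℝ) (w : V2 → ℝ) (x : V2) : ℝ :=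
  A x * D2 w x e0 e0 + 2 * B x * D2 w x e0 e1 + C x * D2 w x e1 e1

/-- `|X_v|^2` -/
def cA (X : V2 → V3) (u : V2) : ℝ := ⟪fderiv ℝ X u e1, fderiv ℝ X u e1⟫
/-- `- X_u . X_v` -/
def cB (X : V2 → V3) (u : V2) : ℝ := -⟪fderiv ℝ X u e0, fderiv ℝ X u e1⟫
/-- `|X_u|^2` -/
def cC (X : V2 → V3) (u : V2) : ℝ := ⟪fderiv ℝ X u e0, fderiv ℝ X u e0⟫

/-- `|X_v|^2 w_uu - 2 (X_u . X_v) w_uv + |X_u|^2 w_vv`, for real or vector valued `w` -/
def Lop (X : V2 → V3) {F : Type*} [NormedAddCommGroup F] [NormedSpace ℝ F]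
    (w : V2 → F) (u : V2) : F :=
  cA X u • D2 w u e0 e0 + (2 * cB X u) • D2 w u e0 e1 + cC X u • D2 w u e1 e1

/-- `X_u x X_v` -/
def nn (X : V2 → V3) (u : V2) : V3 := cr (fderiv ℝ X u e0) (fderiv ℝ X u e1)
/-- unit normal -/
def NN (X : V2 → V3) (u : V2) : V3 := ‖nn X u‖⁻¹ • nn X u

/-- a C^2 embedded disc of constant mean curvature `H > 0` spanning the unit circle of the
horizontal plane -/
structure Surf where
  X : V2 → V3
  H : ℝ
  smooth : ContDiff ℝ 2 X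
  imm : ∀ u : V2, ‖u‖ ≤ 1 → nn X u ≠ 0
  inj : ∀ u v : V2, ‖u‖ ≤ 1 → ‖v‖ ≤ 1 → X u = X v → u = v
  Hpos : 0 < H
  bd : ∀ y : V3, (∃ u : V2, ‖u‖ = 1 ∧ X u = y) ↔ (y 2 = 0 ∧ y 0 ^ 2 + y 1 ^ 2 = 1)
  cmc : ∀ u : V2, ‖u‖ < 1 → ⟪Lop X X u, nn X u⟫ = 2 * H * ‖nn X u‖ ^ 3

/-- the surface, as a set -/
def Surf.Sig (S : Surf) : Set V3 := {y | ∃ u : V2, ‖u‖ ≤ 1 ∧ S.X u = y}

/-- unit normal of a surface -/
def Surf.N (S : Surf) (u : V2) : V3 := NN S.X u

/-- the closed unit disc in the horizontal plane -/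
def Disc : Set V3 := {y | y 2 = 0 ∧ y 0 ^ 2 + y 1 ^ 2 ≤ 1}

/-- reflection in the plane `<n,y> = t` (for a unit vector `n`) -/
def refl (n : V3) (t : ℝ) (y : V3) : V3 := y - (2 * (⟪n, y⟫ - t)) • n

/-- its linear part -/
def rl (n : V3) (v : V3) : V3 := v - (2 * ⟪n, v⟫) • n

/-- a bounded domain bounded by the surface and the disc, the normal pointing inwards and the
domain lying below the disc -/
structure PreDom (S : Surf) where
  W : Set V3
  isOpen : IsOpen W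
  bdd : Bornology.IsBounded W
  fr : frontier W ⊆ S.Sig ∪ Disc
  disj : ∀ u : V2, ‖u‖ < 1 → S.X u ∉ Disc
  inS : ∀ u : V2, ‖u‖ < 1 → ∃ ε : ℝ, 0 < ε ∧ ∀ s : ℝ, 0 < s → s < ε →
    S.X u + s • S.N u ∈ W ∧ S.X u - s • S.N u ∉ closure W
  inD : ∀ d : V3, d 2 = 0 → d 0 ^ 2 + d 1 ^ 2 < 1 → ∃ ε : ℝ, 0 < ε ∧ ∀ s : ℝ, 0 < s → s < ε →
    d - s • E3 ∈ W ∧ d + s • E3 ∉ closure W

/-- a domain whose angle with the disc along the circle is not zero -/
structure Dom (S : Surf) extends PreDom S where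
  nE : ∀ u : V2, ‖u‖ = 1 → S.N u ≠ E3

/-- the reflected part of the surface lies in the closed domain -/
def SS {S : Surf} (D : Dom S) (n : V3) (t : ℝ) : Prop :=
  ∀ u : V2, ‖u‖ ≤ 1 → t ≤ ⟪n, S.X u⟫ → refl n t (S.X u) ∈ closure D.W

/-- horizontal unit vector of angle `φ` -/
def nh (φ : ℝ) : V3 := !₂[Real.cos φ, Real.sin φ, 0]

/-- point of the parameter circle -/
def cu (ψ : ℝ) : V2 := !₂[Real.cos ψ, Real.sin ψ]

/-- rotation by a right angle in the parameter plane -/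
def rot (u : V2) : V2 := !₂[-(u 1), u 0]

/-- tangent vector of the circle at `p` -/
def TT (p : V3) : V3 := !₂[-(p 1), p 0, 0]

/-- radial component of the normal at a boundary point -/
def Surf.Nr (S : Surf) (u : V2) : ℝ := ⟪S.N u, S.X u⟫

/-- outward conormal at a boundary point (once the orientation lemma is known) -/
def Surf.nu (S : Surf) (u : V2) : V3 := (S.N u 2) • S.X u - (S.Nr u) • E3

/-- `cot (θ/2)` -/
def Surf.kk (S : Surf) (u : V2) : ℝ := -(S.Nr u) / (1 - S.N u 2)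

/-- local inverse of `(u,s) ↦ X u + s e`; all estimates are stated on the sets `U ε` below -/
structure Box (X : V2 → V3) (u₀ : V2) (e : V3) where
  b : V3 → V2
  f : V3 → ℝ
  r : ℝ
  hr : 0 < r
  pos : ∀ u : V2, ‖u - u₀‖ < r → 0 < ⟪nn X u, e⟫
  left : ∀ (u : V2) (s : ℝ), ‖u - u₀‖ < r → |s| < r →
    b (X u + s • e) = u ∧ f (X u + s • e) = s
  isOpen : ∀ ε : ℝ, 0 < ε → ε ≤ r →
    IsOpen {y : V3 | ∃ (u : V2) (s : ℝ), ‖u - u₀‖ < ε ∧ |s| < ε ∧ X u + s • e = y}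
  sb : ∀ (u : V2) (s : ℝ), ‖u - u₀‖ < r → |s| < r → ContDiffAt ℝ 2 b (X u + s • e)
  sf : ∀ (u : V2) (s : ℝ), ‖u - u₀‖ < r → |s| < r → ContDiffAt ℝ 2 f (X u + s • e)

/-- the box neighbourhood of size `ε` -/
def Box.U {X : V2 → V3} {u₀ : V2} {e : V3} (_B : Box X u₀ e) (ε : ℝ) : Set V3 :=
  {y | ∃ (u : V2) (s : ℝ), ‖u - u₀‖ < ε ∧ |s| < ε ∧ X u + s • e = y}

/-- gradient of the defining function of a box -/
def Box.g {X : V2 → V3} {u₀ : V2} {e : V3} (B : Box X u₀ e) (y : V3) : V3 :=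
  (⟪nn X (B.b y), e⟫)⁻¹ • nn X (B.b y)

/-- weak star centre below the horizontal plane -/
def WStar {S : Surf} (D : Dom S) (z : V3) : Prop :=
  z 2 < 0 ∧ ∀ y ∈ closure D.W, ∀ s : ℝ, 0 ≤ s → s ≤ 1 → z + s • (y - z) ∈ closure D.W

/-- the ray condition of the problem -/
def StarAt (S : Surf) (q : V3) : Prop :=
  ∀ v : V3, v ≠ 0 → ∀ s t : ℝ, 0 ≤ s → 0 ≤ t → q + s • v ∈ S.Sig → q + t • v ∈ S.Sig → s = t

/-! ### elementary facts -/

theorem ip (a b : V3) : ⟪a, b⟫ = a 0 * b 0 + a 1 * b 1 + a 2 * b 2 := by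
  simp [PiLp.inner_apply, Fin.sum_univ_three, mul_comm]

theorem ip2 (a b : V2) : ⟪a, b⟫ = a 0 * b 0 + a 1 * b 1 := by
  simp [PiLp.inner_apply, Fin.sum_univ_two, mul_comm]

theorem nsq (a : V3) : ‖a‖ ^ 2 = a 0 ^ 2 + a 1 ^ 2 + a 2 ^ 2 := by
  rw [← real_inner_self_eq_norm_sq, ip]; ring

theorem nsq2 (a : V2) : ‖a‖ ^ 2 = a 0 ^ 2 + a 1 ^ 2 := by
  rw [← real_inner_self_eq_norm_sq, ip2]; ring

theorem ext3 (a b : V3) (h0 : a 0 = b 0) (h1 : a 1 = b 1) (h2 : a 2 = b 2) : a = b := by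
  ext i; fin_cases i <;> assumption

theorem ext2 (a b : V2) (h0 : a 0 = b 0) (h1 : a 1 = b 1) : a = b := by
  ext i; fin_cases i <;> assumption

@[simp] theorem cr_0 (a b : V3) : (cr a b) 0 = a 1 * b 2 - a 2 * b 1 := by simp [cr]
@[simp] theorem cr_1 (a b : V3) : (cr a b) 1 = a 2 * b 0 - a 0 * b 2 := by simp [cr]
@[simp] theorem cr_2 (a b : V3) : (cr a b) 2 = a 0 * b 1 - a 1 * b 0 := by simp [cr]
@[simp] theorem E3_0 : E3 0 = 0 := by simp [E3]
@[simp] theorem E3_1 : E3 1 = 0 := by simp [E3]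
@[simp] theorem E3_2 : E3 2 = 1 := by simp [E3]
@[simp] theorem e0_0 : e0 0 = 1 := by simp [e0]
@[simp] theorem e0_1 : e0 1 = 0 := by simp [e0]
@[simp] theorem e1_0 : e1 0 = 0 := by simp [e1]
@[simp] theorem e1_1 : e1 1 = 1 := by simp [e1]
@[simp] theorem nh_0 (φ : ℝ) : (nh φ) 0 = Real.cos φ := by simp [nh]
@[simp] theorem nh_1 (φ : ℝ) : (nh φ) 1 = Real.sin φ := by simp [nh]
@[simp] theorem nh_2 (φ : ℝ) : (nh φ) 2 = 0 := by simp [nh]
@[simp] theorem cu_0 (φ : ℝ) : (cu φ) 0 = Real.cos φ := by simp [cu]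
@[simp] theorem cu_1 (φ : ℝ) : (cu φ) 1 = Real.sin φ := by simp [cu]
@[simp] theorem rot_0 (u : V2) : (rot u) 0 = -(u 1) := by simp [rot]
@[simp] theorem rot_1 (u : V2) : (rot u) 1 = u 0 := by simp [rot]
@[simp] theorem TT_0 (p : V3) : (TT p) 0 = -(p 1) := by simp [TT]
@[simp] theorem TT_1 (p : V3) : (TT p) 1 = p 0 := by simp [TT]
@[simp] theorem TT_2 (p : V3) : (TT p) 2 = 0 := by simp [TT]

theorem V2_decomp (u : V2) : u = u 0 • e0 + u 1 • e1 := by
  apply ext2 <;> simp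

end Pool.Agent.H99.SC

end S_Defs

section S_LA

/-! # LA: linear algebra in V3 -/


open scoped RealInnerProductSpace Topology
open Metric Filter Set


namespace Pool.Agent.H99.SC

theorem cr_inner_left (a b : V3) : ⟪cr a b, a⟫ = 0 := by simp only [ip, cr_0, cr_1, cr_2]; ring
theorem cr_inner_right (a b : V3) : ⟪cr a b, b⟫ = 0 := by simp only [ip, cr_0, cr_1, cr_2]; ring
theorem cr_lag (a b c d : V3) : ⟪cr a b, cr c d⟫ = ⟪a, c⟫ * ⟪b, d⟫ - ⟪a, d⟫ * ⟪b, c⟫ := by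
  simp only [ip, cr_0, cr_1, cr_2]; ring
theorem cr_norm_sq (a b : V3) : ‖cr a b‖ ^ 2 = ‖a‖ ^ 2 * ‖b‖ ^ 2 - ⟪a, b⟫ ^ 2 := by
  simp only [nsq, ip, cr_0, cr_1, cr_2]; ring
theorem cr_self (a : V3) : cr a a = 0 := by
  apply ext3 <;> simp <;> ring
theorem cr_swap (a b : V3) : cr b a = -cr a b := by
  apply ext3 <;> simp <;> ring
theorem cr_add_left (a b c : V3) : cr (a + b) c = cr a c + cr b c := by
  apply ext3 <;> simp <;> ring
theorem cr_add_right (a b c : V3) : cr a (b + c) = cr a b + cr a c := by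
  apply ext3 <;> simp <;> ring
theorem cr_sub_left (a b c : V3) : cr (a - b) c = cr a c - cr b c := by
  apply ext3 <;> simp <;> ring
theorem cr_sub_right (a b c : V3) : cr a (b - c) = cr a b - cr a c := by
  apply ext3 <;> simp <;> ring
theorem cr_smul_left (t : ℝ) (a b : V3) : cr (t • a) b = t • cr a b := by
  apply ext3 <;> simp <;> ring
theorem cr_smul_right (t : ℝ) (a b : V3) : cr a (t • b) = t • cr a b := by
  apply ext3 <;> simp <;> ring
theorem cr_neg_left (a b : V3) : cr (-a) b = -cr a b := by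
  apply ext3 <;> simp <;> ring
theorem cr_neg_right (a b : V3) : cr a (-b) = -cr a b := by
  apply ext3 <;> simp <;> ring
theorem cr_cr (a b c : V3) : cr a (cr b c) = ⟪a, c⟫ • b - ⟪a, b⟫ • c := by
  apply ext3 <;> simp [ip] <;> ring
theorem cr_triple (a b c : V3) : ⟪cr a b, c⟫ = ⟪a, cr b c⟫ := by
  simp only [ip, cr_0, cr_1, cr_2]; ring

/-- decomposition of a vector along `a`, `b`, `a x b` -/
theorem decomp (a b v : V3) : (‖cr a b‖ ^ 2) • v = ⟪v, cr a b⟫ • cr a b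
    + (‖b‖ ^ 2 * ⟪v, a⟫ - ⟪a, b⟫ * ⟪v, b⟫) • a + (‖a‖ ^ 2 * ⟪v, b⟫ - ⟪a, b⟫ * ⟪v, a⟫) • b := by
  apply ext3 <;> simp [nsq, ip] <;> ring

theorem V3_decomp (u : V3) : u = u 0 • (EuclideanSpace.single 0 1 : V3)
    + u 1 • (EuclideanSpace.single 1 1 : V3) + u 2 • (EuclideanSpace.single 2 1 : V3) := by
  apply ext3 <;> simp

/-- trace identity -/
theorem tr_identity (Q : V3 →L[ℝ] V3 →L[ℝ] ℝ) (hQ : ∀ x y : V3, Q x y = Q y x) (a b : V3) :
    ‖b‖ ^ 2 * Q a a - 2 * ⟪a, b⟫ * Q a b + ‖a‖ ^ 2 * Q b b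
      = ‖cr a b‖ ^ 2 * tr3 Q - Q (cr a b) (cr a b) := by
  set E0 : V3 := EuclideanSpace.single 0 1 with hE0
  set E1 : V3 := EuclideanSpace.single 1 1 with hE1
  set E2 : V3 := EuclideanSpace.single 2 1 with hE2
  have key : ∀ x y : V3, Q x y = x 0 * (y 0 * Q E0 E0 + y 1 * Q E0 E1 + y 2 * Q E0 E2)
      + x 1 * (y 0 * Q E1 E0 + y 1 * Q E1 E1 + y 2 * Q E1 E2)
      + x 2 * (y 0 * Q E2 E0 + y 1 * Q E2 E1 + y 2 * Q E2 E2) := by
    intro x y
    conv_lhs => rw [V3_decomp x, V3_decomp y]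
    simp only [map_add, map_smul, add_apply, smul_apply, smul_eq_mul]
    simp only [← hE0, ← hE1, ← hE2]
    ring
  have h10 : Q E1 E0 = Q E0 E1 := hQ _ _
  have h20 : Q E2 E0 = Q E0 E2 := hQ _ _
  have h21 : Q E2 E1 = Q E1 E2 := hQ _ _
  rw [key a a, key a b, key b b, key (cr a b) (cr a b)]
  unfold tr3
  rw [← hE0, ← hE1, ← hE2, h10, h20, h21]
  simp only [nsq, ip, cr_0, cr_1, cr_2]
  ring

theorem inner_refl (n : V3) (hn : ‖n‖ = 1) (t : ℝ) (y : V3) : ⟪n, refl n t y⟫ = 2 * t - ⟪n, y⟫ := by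
  have : ⟪n, n⟫ = 1 := by rw [real_inner_self_eq_norm_sq, hn]; norm_num
  unfold refl
  rw [inner_sub_right, inner_smul_right, this]; ring

theorem refl_refl (n : V3) (hn : ‖n‖ = 1) (t : ℝ) (y : V3) : refl n t (refl n t y) = y := by
  have := inner_refl n hn t y
  unfold refl at *
  rw [this]
  rw [sub_sub, ← add_smul]
  have : (2 * (⟪n, y⟫ - t) + 2 * (2 * t - ⟪n, y⟫ - t)) = 0 := by ring
  rw [this]; simp

theorem refl_sub (n : V3) (t : ℝ) (x y : V3) : refl n t x - refl n t y = rl n (x - y) := by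
  unfold refl rl
  rw [inner_sub_right]
  module

theorem refl_add (n : V3) (t : ℝ) (x v : V3) : refl n t (x + v) = refl n t x + rl n v := by
  unfold refl rl
  rw [inner_add_right]
  module

theorem rl_inner (n : V3) (hn : ‖n‖ = 1) (a b : V3) : ⟪rl n a, rl n b⟫ = ⟪a, b⟫ := by
  have h : ⟪n, n⟫ = 1 := by rw [real_inner_self_eq_norm_sq, hn]; norm_num
  unfold rl
  simp only [inner_sub_left, inner_sub_right, inner_smul_left, inner_smul_right, h,
    real_inner_comm n a, RCLike.conj_to_real]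
  ring

theorem rl_norm (n : V3) (hn : ‖n‖ = 1) (a : V3) : ‖rl n a‖ = ‖a‖ := by
  have := rl_inner n hn a a
  rw [real_inner_self_eq_norm_sq, real_inner_self_eq_norm_sq] at this
  exact (sq_eq_sq₀ (norm_nonneg _) (norm_nonneg _)).1 this

theorem rl_rl (n : V3) (hn : ‖n‖ = 1) (v : V3) : rl n (rl n v) = v := by
  have h : ⟪n, n⟫ = 1 := by rw [real_inner_self_eq_norm_sq, hn]; norm_num
  unfold rl
  rw [inner_sub_right, inner_smul_right, h]
  module

theorem rl_add (n a b : V3) : rl n (a + b) = rl n a + rl n b := by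
  unfold rl; rw [inner_add_right]; module
theorem rl_smul (n : V3) (c : ℝ) (a : V3) : rl n (c • a) = c • rl n a := by
  unfold rl; rw [inner_smul_right]; module
theorem rl_neg (n a : V3) : rl n (-a) = -rl n a := by
  unfold rl; rw [inner_neg_right]; module

theorem rl_cr (n : V3) (hn : ‖n‖ = 1) (a b : V3) : cr (rl n a) (rl n b) = -rl n (cr a b) := by
  have h : n 0 ^ 2 + n 1 ^ 2 + n 2 ^ 2 = 1 := by rw [← nsq, hn]; norm_num
  unfold rl
  apply ext3
  · simp [ip]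
    linear_combination (-2 * (a 1 * b 2 - a 2 * b 1)) * h
  · simp [ip]
    linear_combination (-2 * (a 2 * b 0 - a 0 * b 2)) * h
  · simp [ip]
    linear_combination (-2 * (a 0 * b 1 - a 1 * b 0)) * h

/-- the linear part of the reflection as a continuous linear map -/
def rlL (n : V3) : V3 →L[ℝ] V3 :=
  ContinuousLinearMap.id ℝ V3 - (2 : ℝ) • ((innerSL ℝ n).smulRight n)

theorem rlL_apply (n v : V3) : rlL n v = rl n v := by
  unfold rlL rl
  simp [smul_smul]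

/-- a unit vector orthogonal to `a` and `b` is a unit normal -/
theorem unit_normal {a b m : V3} (h : cr a b ≠ 0) (hm : ‖m‖ = 1) (ha : ⟪m, a⟫ = 0)
    (hb : ⟪m, b⟫ = 0) : m = ‖cr a b‖⁻¹ • cr a b ∨ m = -(‖cr a b‖⁻¹ • cr a b) := by
  have hd := decomp a b m
  rw [ha, hb] at hd
  simp only [mul_zero, sub_zero, zero_smul, add_zero] at hd
  have hpos : 0 < ‖cr a b‖ := norm_pos_iff.2 h
  set c := ‖cr a b‖ with hc
  have hm2 : m = (c⁻¹ ^ 2 * ⟪m, cr a b⟫) • cr a b := by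
    have h1 : (c ^ 2)⁻¹ • ((c ^ 2) • m) = m := by
      rw [smul_smul, inv_mul_cancel₀ (by positivity), one_smul]
    rw [hd, smul_smul] at h1
    rw [inv_pow]
    exact h1.symm
  have hn : |c⁻¹ ^ 2 * ⟪m, cr a b⟫| * c = 1 := by
    have := congrArg norm hm2
    rw [hm, norm_smul, Real.norm_eq_abs, ← hc] at this
    exact this.symm
  rcases abs_cases (c⁻¹ ^ 2 * ⟪m, cr a b⟫) with ⟨h1, _⟩ | ⟨h1, _⟩
  · left
    rw [h1] at hn
    have : c⁻¹ ^ 2 * ⟪m, cr a b⟫ = c⁻¹ := by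
      field_simp at hn ⊢
      linarith
    rw [← this]; exact hm2
  · right
    rw [h1] at hn
    have : c⁻¹ ^ 2 * ⟪m, cr a b⟫ = -c⁻¹ := by
      field_simp at hn ⊢
      linarith
    rw [← neg_smul, ← this]; exact hm2

end Pool.Agent.H99.SC

end S_LA

section S_CAL

/-!
# CAL: second derivatives

All statements are elementary calculus.  `D2 f x a b = fderiv (fderiv f) x a b`.
* `D2_symm`: `ContDiffAt.isSymmSndFDerivAt` (or `second_derivative_symmetric`).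
* `D2_comp`: near `u` the derivative of `f o Y` is `x ↦ (fderiv f (Y x)).comp (fderiv Y x)`;
  differentiate (`HasFDerivAt.clm_comp`).
* `D2_nonneg_of_isLocalMin`: restrict to the line `s ↦ w (x + s a)`; its second derivative at 0 is
  `D2 w x a a`, the first is 0.  If it were negative, `isLocalMax_of_deriv_deriv_neg` gives a local
  maximum, so the restriction is locally constant and the second derivative is 0.
* `Ell_nonneg`: Q e0 e0 = p, Q e0 e1 = q, Q e1 e1 = s with p, s >= 0 and q^2 <= p s (from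
  Q (x,y) (x,y) >= 0 for all x, y), and A p + C s >= 2 sqrt(A C p s) >= 2 |B q|.
-/


open scoped RealInnerProductSpace Topology
open Metric Filter Set


namespace Pool.Agent.H99.SC

section gen
variable {E F : Type*} [NormedAddCommGroup E] [NormedSpace ℝ E] [NormedAddCommGroup F]
  [NormedSpace ℝ F]

theorem D2_symm {f : E → F} {x : E} (hf : ContDiffAt ℝ 2 f x) (a b : E) :
    D2 f x a b = D2 f x b a := by
  have h := hf.isSymmSndFDerivAt (by simp)
  exact h a b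

theorem D2_add {f : E → F} {x : E} (a a' b : E) : D2 f x (a + a') b = D2 f x a b + D2 f x a' b := by
  simp [D2]

theorem D2_add' {f : E → F} {x : E} (a b b' : E) : D2 f x a (b + b') = D2 f x a b + D2 f x a b' := by
  simp [D2]

theorem D2_smul {f : E → F} {x : E} (c : ℝ) (a b : E) : D2 f x (c • a) b = c • D2 f x a b := by
  simp [D2]

theorem D2_smul' {f : E → F} {x : E} (c : ℝ) (a b : E) : D2 f x a (c • b) = c • D2 f x a b := by
  simp [D2]

/-- the first derivative is continuously differentiable -/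
theorem contDiffAt_fderiv {f : E → F} {x : E} (hf : ContDiffAt ℝ 2 f x) :
    ContDiffAt ℝ 1 (fderiv ℝ f) x :=
  hf.fderiv_right (by norm_num)

theorem CAL_diffAt_nhds {f : E → F} {x : E} (hf : ContDiffAt ℝ 2 f x) :
    ∀ᶠ y in 𝓝 x, DifferentiableAt ℝ f y := by
  have h := hf.eventually (by simp)
  filter_upwards [h] with y hy
  exact hy.differentiableAt (by norm_num)

theorem CAL_diff_fderiv {f : E → F} {x : E} (hf : ContDiffAt ℝ 2 f x) :
    DifferentiableAt ℝ (fderiv ℝ f) x :=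
  (contDiffAt_fderiv hf).differentiableAt (by norm_num)

/-- second derivatives of a linear combination of real functions -/
theorem D2_sub_smul {w v : E → ℝ} {x : E} (hw : ContDiffAt ℝ 2 w x) (hv : ContDiffAt ℝ 2 v x)
    (c : ℝ) (a b : E) : D2 (fun y => w y - c * v y) x a b = D2 w x a b - c * D2 v x a b := by
  have h1 : (fderiv ℝ fun y => w y - c * v y) =ᶠ[𝓝 x]
      fun y => fderiv ℝ w y - c • fderiv ℝ v y := by
    filter_upwards [CAL_diffAt_nhds hw, CAL_diffAt_nhds hv] with y hy1 hy2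
    rw [fderiv_fun_sub hy1 (hy2.const_mul c), fderiv_const_mul hy2]
  have h2 : HasFDerivAt (fun y => fderiv ℝ w y - c • fderiv ℝ v y)
      (fderiv ℝ (fderiv ℝ w) x - c • fderiv ℝ (fderiv ℝ v) x) x :=
    (CAL_diff_fderiv hw).hasFDerivAt.sub ((CAL_diff_fderiv hv).hasFDerivAt.const_smul c)
  unfold D2
  rw [h1.fderiv_eq, h2.fderiv]
  simp

/-- second derivative along a line -/
theorem deriv_deriv_line {w : E → ℝ} {x : E} (hw : ContDiffAt ℝ 2 w x) (a : E) :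
    deriv (deriv fun s : ℝ => w (x + s • a)) 0 = D2 w x a a := by
  have hl : ∀ s : ℝ, HasDerivAt (fun s : ℝ => x + s • a) a s := by
    intro s
    simpa using ((hasDerivAt_id s).smul_const a).const_add x
  have hc : Tendsto (fun s : ℝ => x + s • a) (𝓝 0) (𝓝 x) := by
    have := (hl 0).continuousAt.tendsto
    simpa using this
  have h1 : (deriv fun s : ℝ => w (x + s • a)) =ᶠ[𝓝 0] fun s => fderiv ℝ w (x + s • a) a := by
    filter_upwards [hc.eventually (CAL_diffAt_nhds hw)] with s hs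
    exact (hs.hasFDerivAt.comp_hasDerivAt s (hl s)).deriv
  rw [h1.deriv_eq]
  have h2 : HasFDerivAt (fderiv ℝ w) (fderiv ℝ (fderiv ℝ w) x) (x + (0 : ℝ) • a) := by
    simpa using (CAL_diff_fderiv hw).hasFDerivAt
  have h3 : HasDerivAt (fun s : ℝ => fderiv ℝ w (x + s • a)) (fderiv ℝ (fderiv ℝ w) x a) 0 :=
    h2.comp_hasDerivAt (0 : ℝ) (hl 0)
  have h4 := h3.clm_apply (hasDerivAt_const (0 : ℝ) a)
  unfold D2
  simpa using h4.deriv

theorem D2_nonneg_of_isLocalMin {w : E → ℝ} {x : E} (hw : ContDiffAt ℝ 2 w x)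
    (h : IsLocalMin w x) (a : E) : 0 ≤ D2 w x a a := by
  by_contra hneg
  push Not at hneg
  set φ : ℝ → ℝ := fun s => w (x + s • a) with hφ
  have hcont : ContinuousAt (fun s : ℝ => x + s • a) 0 := by fun_prop
  have h0 : x + (0 : ℝ) • a = x := by simp
  have hmin : IsLocalMin φ 0 := by
    have : Tendsto (fun s : ℝ => x + s • a) (𝓝 0) (𝓝 x) := by
      have := hcont.tendsto
      simpa using this
    have h2 := this.eventually h
    filter_upwards [h2] with s hs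
    simpa [hφ] using hs
  have hd0 : deriv φ 0 = 0 := hmin.deriv_eq_zero
  have hdd : deriv (deriv φ) 0 < 0 := by
    rw [hφ, deriv_deriv_line hw a]; exact hneg
  have hcφ : ContinuousAt φ 0 := by
    have : ContinuousAt w (x + (0 : ℝ) • a) := by rw [h0]; exact hw.continuousAt
    exact ContinuousAt.comp (f := fun s : ℝ => x + s • a) this hcont
  have hmax : IsLocalMax φ 0 := isLocalMax_of_deriv_deriv_neg hdd hd0 hcφ
  have hconst : φ =ᶠ[𝓝 0] fun _ => φ 0 := by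
    filter_upwards [hmin, hmax] with s h1 h2
    exact le_antisymm h2 h1
  have h1 : deriv φ =ᶠ[𝓝 0] fun _ => (0 : ℝ) := by
    have := hconst.deriv
    filter_upwards [this] with s hs
    simpa using hs
  have h2 : deriv (deriv φ) 0 = 0 := by
    rw [h1.deriv_eq]; simp
  linarith

end gen

theorem D2_comp {f : V3 → ℝ} {Y : V2 → V3} {u : V2} (hf : ContDiffAt ℝ 2 f (Y u))
    (hY : ContDiffAt ℝ 2 Y u) (a b : V2) :
    D2 (fun x => f (Y x)) u a b
      = D2 f (Y u) (fderiv ℝ Y u a) (fderiv ℝ Y u b) + fderiv ℝ f (Y u) (D2 Y u a b) := by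
  have hYd : DifferentiableAt ℝ Y u := hY.differentiableAt (by norm_num)
  have h1 : (fderiv ℝ fun x => f (Y x)) =ᶠ[𝓝 u]
      fun x => (fderiv ℝ f (Y x)).comp (fderiv ℝ Y x) := by
    filter_upwards [hY.continuousAt.tendsto.eventually (CAL_diffAt_nhds hf),
      CAL_diffAt_nhds hY] with x hx1 hx2
    exact (hx1.hasFDerivAt.comp x hx2.hasFDerivAt).fderiv
  have h2 : HasFDerivAt (fun x => fderiv ℝ f (Y x))
      ((fderiv ℝ (fderiv ℝ f) (Y u)).comp (fderiv ℝ Y u)) u :=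
    (CAL_diff_fderiv hf).hasFDerivAt.comp u hYd.hasFDerivAt
  have h3 : HasFDerivAt (fderiv ℝ Y) (fderiv ℝ (fderiv ℝ Y) u) u :=
    (CAL_diff_fderiv hY).hasFDerivAt
  have h4 := h2.clm_comp h3
  unfold D2
  rw [h1.fderiv_eq, h4.fderiv]
  simp [add_comm]

/-- the reflection is smooth -/
theorem contDiff_refl (n : V3) (t : ℝ) : ContDiff ℝ ⊤ (refl n t) := by
  unfold refl
  have h : ContDiff ℝ ⊤ fun y : V3 => ⟪n, y⟫ := contDiff_const.inner ℝ contDiff_id
  exact contDiff_id.sub ((contDiff_const.mul (h.sub contDiff_const)).smul contDiff_const)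

/-- the linear part of the reflection as a continuous linear map -/
theorem CAL_rl_clm (n : V3) : ∃ R : V3 →L[ℝ] V3, ∀ v, R v = rl n v := by
  refine ⟨ContinuousLinearMap.id ℝ V3 - ((2 : ℝ) • innerSL ℝ n).smulRight n, ?_⟩
  intro v
  simp [rl, innerSL_apply_apply]

theorem CAL_refl_eq (n : V3) (t : ℝ) (y : V3) : refl n t y = rl n y + (2 * t) • n := by
  unfold refl rl
  rw [show 2 * (⟪n, y⟫ - t) = 2 * ⟪n, y⟫ - 2 * t by ring, sub_smul]
  abel

theorem fderiv_refl_comp (n : V3) (t : ℝ) {X : V2 → V3} {u : V2} (hX : DifferentiableAt ℝ X u)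
    (a : V2) : fderiv ℝ (fun x => refl n t (X x)) u a = rl n (fderiv ℝ X u a) := by
  obtain ⟨R, hR⟩ := CAL_rl_clm n
  have h1 : (fun x => refl n t (X x)) = fun x => R (X x) + (2 * t) • n := by
    funext x; rw [CAL_refl_eq, hR]
  rw [h1, fderiv_add_const]
  have h2 : HasFDerivAt (fun x => R (X x)) (R.comp (fderiv ℝ X u)) u :=
    R.hasFDerivAt.comp u hX.hasFDerivAt
  rw [h2.fderiv]
  simp [hR]

theorem D2_refl_comp (n : V3) (t : ℝ) {X : V2 → V3} {u : V2} (hX : ContDiffAt ℝ 2 X u)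
    (a b : V2) : D2 (fun x => refl n t (X x)) u a b = rl n (D2 X u a b) := by
  obtain ⟨R, hR⟩ := CAL_rl_clm n
  have h1 : (fderiv ℝ fun x => refl n t (X x)) =ᶠ[𝓝 u] fun x => R.comp (fderiv ℝ X x) := by
    filter_upwards [CAL_diffAt_nhds hX] with x hx
    ext1 c
    rw [fderiv_refl_comp n t hx c]
    simp [hR]
  have h2 : HasFDerivAt (fun x => R.comp (fderiv ℝ X x))
      (((ContinuousLinearMap.compL ℝ V2 V3 V3) R).comp (fderiv ℝ (fderiv ℝ X) u)) u :=
    ((ContinuousLinearMap.compL ℝ V2 V3 V3) R).hasFDerivAt.comp u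
      (CAL_diff_fderiv hX).hasFDerivAt
  unfold D2
  rw [h1.fderiv_eq, h2.fderiv]
  simp [hR]

/-- positive definite coefficients against a positive semidefinite form -/
theorem psd {A B C p q s : ℝ} (hA : 0 < A) (hABC : B ^ 2 < A * C)
    (hQ : ∀ x y : ℝ, 0 ≤ x ^ 2 * p + 2 * x * y * q + y ^ 2 * s) :
    0 ≤ A * p + 2 * B * q + C * s := by
  have h1 : A * (A * p + 2 * B * q + C * s)
      = (A ^ 2 * p + 2 * A * B * q + B ^ 2 * s) + (A * C - B ^ 2) * s := by ring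
  have h2 := hQ A B
  have h3 := hQ 0 1
  have h4 : 0 ≤ s := by linarith
  have h5 : 0 ≤ (A * C - B ^ 2) * s := mul_nonneg (by linarith) h4
  have h6 : 0 ≤ A * (A * p + 2 * B * q + C * s) := by
    rw [h1]; nlinarith [h2]
  by_contra hcon
  push Not at hcon
  nlinarith

theorem Ell_nonneg_of_isLocalMin {A B C : V2 → ℝ} {w : V2 → ℝ} {x : V2} (hA : 0 < A x)
    (hABC : B x ^ 2 < A x * C x) (hw : ContDiffAt ℝ 2 w x) (h : IsLocalMin w x) :
    0 ≤ Ell A B C w x := by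
  unfold Ell
  apply psd hA hABC
  intro a b
  have h1 := D2_nonneg_of_isLocalMin hw h (a • e0 + b • e1)
  have h2 : D2 w x (a • e0 + b • e1) (a • e0 + b • e1)
      = a ^ 2 * D2 w x e0 e0 + 2 * a * b * D2 w x e0 e1 + b ^ 2 * D2 w x e1 e1 := by
    rw [D2_add, D2_add', D2_add', D2_smul, D2_smul, D2_smul, D2_smul, D2_smul', D2_smul',
      D2_smul', D2_smul', D2_symm hw e1 e0]
    simp only [smul_eq_mul]
    ring
  rwa [h2] at h1

theorem Lop_eq_Ell (X : V2 → V3) (w : V2 → ℝ) (u : V2) :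
    Lop X w u = Ell (cA X) (cB X) (cC X) w u := by
  simp [Lop, Ell]

theorem cACB (X : V2 → V3) (u : V2) : cA X u * cC X u - cB X u ^ 2 = ‖nn X u‖ ^ 2 := by
  unfold nn cA cB cC
  rw [cr_norm_sq, real_inner_self_eq_norm_sq, real_inner_self_eq_norm_sq]
  ring

theorem cA_pos {X : V2 → V3} {u : V2} (h : nn X u ≠ 0) : 0 < cA X u := by
  unfold cA
  rw [real_inner_self_eq_norm_sq]
  have : fderiv ℝ X u e1 ≠ 0 := by
    intro h0
    apply h
    unfold nn
    rw [h0]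
    apply ext3 <;> simp
  positivity

theorem cC_pos {X : V2 → V3} {u : V2} (h : nn X u ≠ 0) : 0 < cC X u := by
  unfold cC
  rw [real_inner_self_eq_norm_sq]
  have : fderiv ℝ X u e0 ≠ 0 := by
    intro h0
    apply h
    unfold nn
    rw [h0]
    apply ext3 <;> simp
  positivity

theorem cB_sq_lt {X : V2 → V3} {u : V2} (h : nn X u ≠ 0) : cB X u ^ 2 < cA X u * cC X u := by
  have h1 := cACB X u
  have h2 : 0 < ‖nn X u‖ ^ 2 := by positivity
  linarith

theorem Lop_nonneg_of_isLocalMin {X : V2 → V3} {w : V2 → ℝ} {u : V2} (hn : nn X u ≠ 0)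
    (hw : ContDiffAt ℝ 2 w u) (h : IsLocalMin w u) : 0 ≤ Lop X w u := by
  rw [Lop_eq_Ell]
  exact Ell_nonneg_of_isLocalMin (cA_pos hn) (cB_sq_lt hn) hw h

theorem CAL_contDiff_fd {X : V2 → V3} (hX : ContDiff ℝ 2 X) (a : V2) :
    ContDiff ℝ 1 fun u => fderiv ℝ X u a :=
  (hX.fderiv_right (m := 1) (by norm_num)).clm_apply contDiff_const

theorem contDiff_cA {X : V2 → V3} (hX : ContDiff ℝ 2 X) : ContDiff ℝ 1 (cA X) :=
  (CAL_contDiff_fd hX e1).inner ℝ (CAL_contDiff_fd hX e1)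
theorem contDiff_cB {X : V2 → V3} (hX : ContDiff ℝ 2 X) : ContDiff ℝ 1 (cB X) :=
  ((CAL_contDiff_fd hX e0).inner ℝ (CAL_contDiff_fd hX e1)).neg
theorem contDiff_cC {X : V2 → V3} (hX : ContDiff ℝ 2 X) : ContDiff ℝ 1 (cC X) :=
  (CAL_contDiff_fd hX e0).inner ℝ (CAL_contDiff_fd hX e0)
theorem contDiff_nn {X : V2 → V3} (hX : ContDiff ℝ 2 X) : ContDiff ℝ 1 (nn X) := by
  have hc : ∀ (a : V2) (i : Fin 3), ContDiff ℝ 1 fun u => (fderiv ℝ X u a) i := by
    intro a i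
    exact (contDiff_euclidean.1 (CAL_contDiff_fd hX a)) i
  rw [contDiff_euclidean]
  intro i
  fin_cases i
  · exact ((hc e0 1).mul (hc e1 2)).sub ((hc e0 2).mul (hc e1 1))
  · exact ((hc e0 2).mul (hc e1 0)).sub ((hc e0 0).mul (hc e1 2))
  · exact ((hc e0 0).mul (hc e1 1)).sub ((hc e0 1).mul (hc e1 0))
theorem contDiffAt_NN {X : V2 → V3} (hX : ContDiff ℝ 2 X) {u : V2} (h : nn X u ≠ 0) :
    ContDiffAt ℝ 1 (NN X) u := by
  have h1 : ContDiffAt ℝ 1 (nn X) u := (contDiff_nn hX).contDiffAt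
  exact ((h1.norm ℝ h).inv (norm_ne_zero_iff.2 h)).smul h1
/-- `u ↦ D2 X u a b` is continuous -/
theorem continuous_D2 {X : V2 → V3} (hX : ContDiff ℝ 2 X) (a b : V2) :
    Continuous fun u => D2 X u a b := by
  have h1 : ContDiff ℝ 1 (fderiv ℝ X) := hX.fderiv_right (m := 1) (by norm_num)
  have h2 : Continuous (fderiv ℝ (fderiv ℝ X)) := h1.continuous_fderiv (by norm_num)
  unfold D2
  exact (h2.clm_apply continuous_const).clm_apply continuous_const

end Pool.Agent.H99.SC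

end S_CAL

section S_SF

/-!
# SF: first facts about surfaces

* `nn` is orthogonal to the two coordinate derivatives, hence to every `fderiv X u a`
  (`V2_decomp`, `cr_inner_left`, `cr_inner_right`).
* `cmcN`: divide `cmc` by the norm.
* `tangent`: `decomp` with `a = X_u`, `b = X_v`: if `v` is orthogonal to `nn` then
  `|nn|^2 v = (..) X_u + (..) X_v`.
* `fderiv_inj`: if `x X_u + y X_v = 0` then `cr` with `X_v` (resp. `X_u`) gives `x nn = 0`
  (`y nn = 0`).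
* `emb`: the closed disc minus the open ball is compact and `X` does not take the value `X u₀`
  there.
* `isCompact_Sig`, `isCompact_Disc`.
* `cmcN'` (closed disc) by continuity.
-/


open scoped RealInnerProductSpace Topology
open Metric Filter Set


namespace Pool.Agent.H99.SC

namespace Surf
variable (S : Surf)

theorem inner_nn_fderiv (u a : V2) : ⟪nn S.X u, fderiv ℝ S.X u a⟫ = 0 := by
  rw [V2_decomp a, map_add, map_smul, map_smul, inner_add_right, real_inner_smul_right,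
    real_inner_smul_right]
  unfold nn
  rw [cr_inner_left, cr_inner_right]
  ring

theorem N_norm {u : V2} (hu : ‖u‖ ≤ 1) : ‖S.N u‖ = 1 := by
  have h := norm_pos_iff.2 (S.imm u hu)
  unfold Surf.N NN
  rw [norm_smul, norm_inv, norm_norm, inv_mul_cancel₀ h.ne']

theorem N_orth (u a : V2) : ⟪S.N u, fderiv ℝ S.X u a⟫ = 0 := by
  unfold Surf.N NN
  rw [real_inner_smul_left, S.inner_nn_fderiv, mul_zero]

theorem nn_eq {u : V2} (hu : ‖u‖ ≤ 1) : nn S.X u = ‖nn S.X u‖ • S.N u := by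
  have h := norm_pos_iff.2 (S.imm u hu)
  unfold Surf.N NN
  rw [smul_smul, mul_inv_cancel₀ h.ne', one_smul]

theorem nn_pos {u : V2} (hu : ‖u‖ ≤ 1) : 0 < ‖nn S.X u‖ := norm_pos_iff.2 (S.imm u hu)

theorem SF_cmc {u : V2} (hu : ‖u‖ ≤ 1)
    (h : ⟪Lop S.X S.X u, nn S.X u⟫ = 2 * S.H * ‖nn S.X u‖ ^ 3) :
    ⟪Lop S.X S.X u, S.N u⟫ = 2 * S.H * ‖nn S.X u‖ ^ 2 := by
  have h0 := S.nn_pos hu
  unfold Surf.N NN
  rw [real_inner_smul_right, h]
  field_simp

theorem SF_Lop_cont : Continuous (Lop S.X S.X) := by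
  unfold Lop
  have h1 := (contDiff_cA S.smooth).continuous
  have h2 := (contDiff_cB S.smooth).continuous
  have h3 := (contDiff_cC S.smooth).continuous
  exact ((h1.smul (continuous_D2 S.smooth e0 e0)).add
    ((continuous_const.mul h2).smul (continuous_D2 S.smooth e0 e1))).add
    (h3.smul (continuous_D2 S.smooth e1 e1))

/-- mean curvature equation with the unit normal -/
theorem cmcN {u : V2} (hu : ‖u‖ < 1) : ⟪Lop S.X S.X u, S.N u⟫ = 2 * S.H * ‖nn S.X u‖ ^ 2 := by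
  exact S.SF_cmc hu.le (S.cmc u hu)

/-- the same on the closed disc -/
theorem cmcN' {u : V2} (hu : ‖u‖ ≤ 1) : ⟪Lop S.X S.X u, S.N u⟫ = 2 * S.H * ‖nn S.X u‖ ^ 2 := by
  apply S.SF_cmc hu
  have hcl : IsClosed {u : V2 | ⟪Lop S.X S.X u, nn S.X u⟫ = 2 * S.H * ‖nn S.X u‖ ^ 3} := by
    apply isClosed_eq
    · exact S.SF_Lop_cont.inner (contDiff_nn S.smooth).continuous
    · exact continuous_const.mul ((contDiff_nn S.smooth).continuous.norm.pow 3)
  have hb : ball (0 : V2) 1 ⊆ {u : V2 | ⟪Lop S.X S.X u, nn S.X u⟫ = 2 * S.H * ‖nn S.X u‖ ^ 3} :=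
    fun x hx => S.cmc x (by simpa using hx)
  have hc := closure_minimal hb hcl
  rw [closure_ball (0 : V2) one_ne_zero] at hc
  exact hc (by simpa using hu)

theorem tangent {u : V2} (hu : ‖u‖ ≤ 1) {v : V3} (hv : ⟪v, S.N u⟫ = 0) :
    ∃ a : V2, fderiv ℝ S.X u a = v := by
  have h0 := S.nn_pos hu
  have hd := decomp (fderiv ℝ S.X u e0) (fderiv ℝ S.X u e1) v
  have hn : cr (fderiv ℝ S.X u e0) (fderiv ℝ S.X u e1) = nn S.X u := rfl
  rw [hn] at hd
  have hv' : ⟪v, nn S.X u⟫ = 0 := by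
    rw [S.nn_eq hu, real_inner_smul_right, hv, mul_zero]
  rw [hv', zero_smul, zero_add, ← map_smul, ← map_smul, ← map_add] at hd
  refine ⟨(‖nn S.X u‖ ^ 2)⁻¹ • ((‖fderiv ℝ S.X u e1‖ ^ 2 * ⟪v, fderiv ℝ S.X u e0⟫
    - ⟪fderiv ℝ S.X u e0, fderiv ℝ S.X u e1⟫ * ⟪v, fderiv ℝ S.X u e1⟫) • e0
    + (‖fderiv ℝ S.X u e0‖ ^ 2 * ⟪v, fderiv ℝ S.X u e1⟫
    - ⟪fderiv ℝ S.X u e0, fderiv ℝ S.X u e1⟫ * ⟪v, fderiv ℝ S.X u e0⟫) • e1), ?_⟩
  rw [map_smul, ← hd, smul_smul, inv_mul_cancel₀ (by positivity), one_smul]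

theorem fderiv_inj {u : V2} (hu : ‖u‖ ≤ 1) {a : V2} (ha : fderiv ℝ S.X u a = 0) : a = 0 := by
  have hn : cr (fderiv ℝ S.X u e0) (fderiv ℝ S.X u e1) = nn S.X u := rfl
  have h1 : a 0 • fderiv ℝ S.X u e0 + a 1 • fderiv ℝ S.X u e1 = 0 := by
    rw [← map_smul, ← map_smul, ← map_add, ← V2_decomp a]
    exact ha
  have h2 : a 0 = 0 := by
    have h3 := congrArg (fun w => cr w (fderiv ℝ S.X u e1)) h1
    simp only [cr_add_left, cr_smul_left, cr_self, smul_zero, add_zero, hn] at h3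
    have h4 : cr (0 : V3) (fderiv ℝ S.X u e1) = 0 := by
      apply ext3 <;> simp
    rw [h4] at h3
    rcases smul_eq_zero.mp h3 with h5 | h5
    · exact h5
    · exact absurd h5 (S.imm u hu)
  have h6 : a 1 = 0 := by
    have h3 := congrArg (fun w => cr (fderiv ℝ S.X u e0) w) h1
    simp only [cr_add_right, cr_smul_right, cr_self, smul_zero, zero_add, hn] at h3
    have h4 : cr (fderiv ℝ S.X u e0) (0 : V3) = 0 := by
      apply ext3 <;> simp
    rw [h4] at h3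
    rcases smul_eq_zero.mp h3 with h5 | h5
    · exact h5
    · exact absurd h5 (S.imm u hu)
  apply ext2
  · simpa using h2
  · simpa using h6

theorem N_cont {u : V2} (hu : ‖u‖ ≤ 1) : ContinuousAt S.N u :=
  (contDiffAt_NN S.smooth (S.imm u hu)).continuousAt

/-- a unit vector orthogonal to the tangent plane is `± N` -/
theorem unit_eq {u : V2} (hu : ‖u‖ ≤ 1) {m : V3} (hm : ‖m‖ = 1)
    (h : ∀ a : V2, ⟪m, fderiv ℝ S.X u a⟫ = 0) : m = S.N u ∨ m = -S.N u := by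
  exact unit_normal (S.imm u hu) hm (h e0) (h e1)

theorem emb {u₀ : V2} (hu : ‖u₀‖ ≤ 1) {ρ : ℝ} (hρ : 0 < ρ) :
    ∃ δ : ℝ, 0 < δ ∧ ∀ v : V2, ‖v‖ ≤ 1 → ‖S.X v - S.X u₀‖ < δ → ‖v - u₀‖ < ρ := by
  have hK : IsCompact (closedBall (0 : V2) 1 \ ball u₀ ρ) :=
    (isCompact_closedBall _ _).diff isOpen_ball
  have hK2 : IsClosed (S.X '' (closedBall (0 : V2) 1 \ ball u₀ ρ)) :=
    (hK.image S.smooth.continuous).isClosed
  have hx : S.X u₀ ∈ (S.X '' (closedBall (0 : V2) 1 \ ball u₀ ρ))ᶜ := by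
    rintro ⟨v, hv, hv2⟩
    have h1 : ‖v‖ ≤ 1 := by simpa using hv.1
    have h2 := S.inj v u₀ h1 hu hv2
    apply hv.2
    rw [h2]
    exact mem_ball_self hρ
  obtain ⟨δ, hδ, hδ2⟩ := Metric.isOpen_iff.mp hK2.isOpen_compl _ hx
  refine ⟨δ, hδ, fun v hv hv2 => ?_⟩
  by_contra hcon
  have h3 : S.X v ∈ ball (S.X u₀) δ := by
    rw [mem_ball, dist_eq_norm]
    exact hv2
  apply hδ2 h3
  refine ⟨v, ⟨by simpa using hv, ?_⟩, rfl⟩
  rw [mem_ball, dist_eq_norm]
  exact hcon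

/-- sequential form of `emb` -/
theorem emb_seq {u₀ : V2} (hu : ‖u₀‖ ≤ 1) {v : ℕ → V2} (hv : ∀ k, ‖v k‖ ≤ 1)
    (h : Tendsto (fun k => S.X (v k)) atTop (𝓝 (S.X u₀))) : Tendsto v atTop (𝓝 u₀) := by
  rw [Metric.tendsto_atTop]
  intro ρ hρ
  obtain ⟨δ, hδ, hδ2⟩ := S.emb hu hρ
  obtain ⟨K, hK⟩ := Metric.tendsto_atTop.mp h δ hδ
  refine ⟨K, fun k hk => ?_⟩
  rw [dist_eq_norm]
  apply hδ2 (v k) (hv k)
  rw [← dist_eq_norm]
  exact hK k hk

theorem isCompact_Sig : IsCompact S.Sig := by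
  have h : S.Sig = S.X '' closedBall (0 : V2) 1 := by
    ext y
    constructor
    · rintro ⟨u, hu, h⟩
      exact ⟨u, by simpa using hu, h⟩
    · rintro ⟨u, hu, h⟩
      exact ⟨u, by simpa using hu, h⟩
  rw [h]
  exact (isCompact_closedBall _ _).image S.smooth.continuous

theorem mem_Sig {u : V2} (hu : ‖u‖ ≤ 1) : S.X u ∈ S.Sig := ⟨u, hu, rfl⟩

/-- image of the parameter circle -/
theorem bd1 {u : V2} (hu : ‖u‖ = 1) : (S.X u) 2 = 0 ∧ (S.X u) 0 ^ 2 + (S.X u) 1 ^ 2 = 1 :=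
  (S.bd _).1 ⟨u, hu, rfl⟩

/-- `X u` in the disc boundary forces `u` to be on the parameter circle -/
theorem bd2 {u : V2} (hu : ‖u‖ ≤ 1) (h2 : (S.X u) 2 = 0)
    (h : (S.X u) 0 ^ 2 + (S.X u) 1 ^ 2 = 1) : ‖u‖ = 1 := by
  obtain ⟨v, hv, hvu⟩ := (S.bd _).2 ⟨h2, h⟩
  rw [← S.inj v u hv.le hu hvu]; exact hv

end Surf

theorem isCompact_Disc : IsCompact Disc := by
  apply Metric.isCompact_of_isClosed_isBounded
  · have h : Disc = {y : V3 | y 2 = 0} ∩ {y : V3 | y 0 ^ 2 + y 1 ^ 2 ≤ 1} := rfl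
    rw [h]
    apply IsClosed.inter
    · exact isClosed_eq (by fun_prop) (by fun_prop)
    · exact isClosed_le (by fun_prop) (by fun_prop)
  · apply (isBounded_closedBall (x := (0 : V3)) (r := 1)).subset
    rintro y ⟨h2, h1⟩
    rw [mem_closedBall, dist_zero_right]
    have h3 := nsq y
    rw [h2] at h3
    nlinarith [norm_nonneg y]

theorem SF_angle {x y : ℝ} (h : x ^ 2 + y ^ 2 = 1) :
    ∃ ψ : ℝ, Real.cos ψ = x ∧ Real.sin ψ = y := by
  have h1 : ‖(⟨x, y⟩ : ℂ)‖ = 1 := by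
    rw [Complex.norm_eq_sqrt_sq_add_sq]
    simp [h]
  have h2 : (⟨x, y⟩ : ℂ) ≠ 0 := by
    intro h3
    rw [h3] at h1
    simp at h1
  refine ⟨Complex.arg ⟨x, y⟩, ?_, ?_⟩
  · rw [Complex.cos_arg h2, h1, div_one]
  · rw [Complex.sin_arg, h1, div_one]

/-- parameters of the circle -/
theorem norm_cu (ψ : ℝ) : ‖cu ψ‖ = 1 := by
  have h : ‖cu ψ‖ ^ 2 = 1 := by
    rw [nsq2]; simp
  nlinarith [norm_nonneg (cu ψ)]

theorem exists_cu {u : V2} (hu : ‖u‖ = 1) : ∃ ψ : ℝ, cu ψ = u := by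
  have h1 : u 0 ^ 2 + u 1 ^ 2 = 1 := by
    rw [← nsq2, hu]
    norm_num
  obtain ⟨ψ, h2, h3⟩ := SF_angle h1
  refine ⟨ψ, ext2 _ _ ?_ ?_⟩
  · rw [cu_0, h2]
  · rw [cu_1, h3]

theorem norm_nh (φ : ℝ) : ‖nh φ‖ = 1 := by
  have h : ‖nh φ‖ ^ 2 = 1 := by
    rw [nsq]; simp
  nlinarith [norm_nonneg (nh φ)]

theorem exists_nh {e : V3} (he : ‖e‖ = 1) (h2 : e 2 = 0) : ∃ φ : ℝ, nh φ = e := by
  have h1 : e 0 ^ 2 + e 1 ^ 2 = 1 := by
    have h := nsq e
    rw [he, h2] at h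
    linarith
  obtain ⟨ψ, h4, h3⟩ := SF_angle h1
  refine ⟨ψ, ext3 _ _ ?_ ?_ ?_⟩
  · rw [nh_0, h4]
  · rw [nh_1, h3]
  · rw [nh_2, h2]

end Pool.Agent.H99.SC

end S_SF

section S_PLN

/-!
# PLN: height functions

`w x = ⟪c, X x⟫`: `D2 w u a b = ⟪c, D2 X u a b⟫`, so `Lop X w u = ⟪c, Z⟫`, `Z = Lop X X u`.  Take the inner
product of `decomp (X_u) (X_v) c` with `Z`:
`‖nn‖^2 ⟪c,Z⟫ = ⟪c,nn⟫⟪nn,Z⟫ + (‖X_v‖^2 Dw e0 - ⟪X_u,X_v⟫ Dw e1) ⟪X_u,Z⟫ + (‖X_u‖^2 Dw e1 - ⟪X_u,X_v⟫ Dw e0) ⟪X_v,Z⟫`.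
Divide by `‖nn‖^2`; on the compact closed disc `X_u, X_v, Z` and `1/‖nn‖` are bounded.
-/


open scoped RealInnerProductSpace Topology
open Metric Filter Set


namespace Pool.Agent.H99.SC

theorem contDiff_height {X : V2 → V3} (hX : ContDiff ℝ 2 X) (c : V3) :
    ContDiff ℝ 2 (fun x => ⟪c, X x⟫) := contDiff_const.inner ℝ hX

theorem fderiv_height {X : V2 → V3} (hX : ContDiff ℝ 2 X) (c : V3) (u a : V2) :
    fderiv ℝ (fun x => ⟪c, X x⟫) u a = ⟪c, fderiv ℝ X u a⟫ := by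
  rw [fderiv_inner_apply ℝ (differentiableAt_const c) ((hX.differentiable (by norm_num)) u)]
  simp

theorem PLN_D2 {X : V2 → V3} (hX : ContDiff ℝ 2 X) (c : V3) (u a b : V2) :
    D2 (fun x => ⟪c, X x⟫) u a b = ⟪c, D2 X u a b⟫ := by
  unfold D2
  have h1 : fderiv ℝ (fun x => ⟪c, X x⟫) = fun x => (innerSL ℝ c).comp (fderiv ℝ X x) := by
    funext x
    ext a
    rw [fderiv_height hX]
    rfl
  have h2 : HasFDerivAt (fderiv ℝ X) (fderiv ℝ (fderiv ℝ X) u) u := by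
    have : ContDiff ℝ 1 (fderiv ℝ X) := hX.fderiv_right (by norm_num)
    exact ((this.differentiable (by norm_num)) u).hasFDerivAt
  have h3 := ((ContinuousLinearMap.compL ℝ V2 V3 ℝ (innerSL ℝ c)).hasFDerivAt
    (x := fderiv ℝ X u)).comp u h2
  have h4 : HasFDerivAt (fun x => (innerSL ℝ c).comp (fderiv ℝ X x))
    ((ContinuousLinearMap.compL ℝ V2 V3 ℝ (innerSL ℝ c)).comp (fderiv ℝ (fderiv ℝ X) u)) u := h3
  rw [h1, h4.fderiv]
  rfl

theorem lop_height {X : V2 → V3} (hX : ContDiff ℝ 2 X) (c : V3) (u : V2) :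
    Lop X (fun x => ⟪c, X x⟫) u = ⟪c, Lop X X u⟫ := by
  unfold Lop
  rw [PLN_D2 hX, PLN_D2 hX, PLN_D2 hX]
  simp only [inner_add_right, inner_smul_right, smul_eq_mul]

theorem PLN_cont_deriv {X : V2 → V3} (hX : ContDiff ℝ 2 X) (a : V2) :
    Continuous fun u => fderiv ℝ X u a :=
  (hX.continuous_fderiv (by norm_num)).clm_apply continuous_const

theorem PLN_cont_Lop {X : V2 → V3} (hX : ContDiff ℝ 2 X) : Continuous fun u => Lop X X u := by
  unfold Lop
  have h1 := (contDiff_cA hX).continuous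
  have h2 := (contDiff_cB hX).continuous
  have h3 := (contDiff_cC hX).continuous
  have h4 := continuous_D2 hX
  exact ((h1.smul (h4 e0 e0)).add ((continuous_const.mul h2).smul (h4 e0 e1))).add
    (h3.smul (h4 e1 e1))

theorem pln {X : V2 → V3} (hX : ContDiff ℝ 2 X) (himm : ∀ u : V2, ‖u‖ ≤ 1 → nn X u ≠ 0)
    (c : V3) : ∃ K : ℝ, ∀ u : V2, ‖u‖ ≤ 1 →
      |Lop X (fun x => ⟪c, X x⟫) u - ⟪c, nn X u⟫ * ⟪nn X u, Lop X X u⟫ / ‖nn X u‖ ^ 2|
        ≤ K * ‖fderiv ℝ (fun x => ⟪c, X x⟫) u‖ := by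
  have c0 := PLN_cont_deriv hX e0
  have c1 := PLN_cont_deriv hX e1
  have cZ := PLN_cont_Lop hX
  have cn := (contDiff_nn hX).continuous
  set k : V2 → ℝ := fun u =>
    ((‖fderiv ℝ X u e1‖ ^ 2 + |⟪fderiv ℝ X u e0, fderiv ℝ X u e1⟫|) *
      |⟪fderiv ℝ X u e0, Lop X X u⟫| +
    (‖fderiv ℝ X u e0‖ ^ 2 + |⟪fderiv ℝ X u e0, fderiv ℝ X u e1⟫|) *
      |⟪fderiv ℝ X u e1, Lop X X u⟫|) / ‖nn X u‖ ^ 2 with hk
  have hkc : ContinuousOn k (closedBall 0 1) := by
    apply ContinuousOn.div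
    · apply Continuous.continuousOn
      exact (((c1.norm.pow 2).add (c0.inner c1).abs).mul (c0.inner cZ).abs).add
        (((c0.norm.pow 2).add (c0.inner c1).abs).mul (c1.inner cZ).abs)
    · exact (cn.norm.pow 2).continuousOn
    · intro u hu
      have := himm u (mem_closedBall_zero_iff.1 hu)
      positivity
  obtain ⟨K, hK⟩ := (isCompact_closedBall (0 : V2) 1).exists_bound_of_continuousOn hkc
  refine ⟨K, fun u hu => ?_⟩
  have hKu := hK u (mem_closedBall_zero_iff.2 hu)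
  rw [Real.norm_eq_abs] at hKu
  have hKu' := (le_abs_self _).trans hKu
  have hn := himm u hu
  have hn2 : 0 < ‖nn X u‖ ^ 2 := by positivity
  set w' := fderiv ℝ (fun x => ⟪c, X x⟫) u with hw'
  have hd := congrArg (fun v : V3 => ⟪v, Lop X X u⟫) (decomp (fderiv ℝ X u e0)
    (fderiv ℝ X u e1) c)
  simp only [inner_add_left, inner_smul_left, RCLike.conj_to_real] at hd
  have hnn : cr (fderiv ℝ X u e0) (fderiv ℝ X u e1) = nn X u := rfl
  rw [hnn, ← fderiv_height hX c u e0, ← fderiv_height hX c u e1, ← hw'] at hd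
  have he0 : ‖e0‖ = 1 := by simp [e0]
  have he1 : ‖e1‖ = 1 := by simp [e1]
  have hb0 : |w' e0| ≤ ‖w'‖ := by
    have := w'.le_opNorm e0
    rwa [he0, mul_one, Real.norm_eq_abs] at this
  have hb1 : |w' e1| ≤ ‖w'‖ := by
    have := w'.le_opNorm e1
    rwa [he1, mul_one, Real.norm_eq_abs] at this
  rw [lop_height hX]
  have hE : ⟪c, Lop X X u⟫ - ⟪c, nn X u⟫ * ⟪nn X u, Lop X X u⟫ / ‖nn X u‖ ^ 2 =
      ((‖fderiv ℝ X u e1‖ ^ 2 * w' e0 - ⟪fderiv ℝ X u e0, fderiv ℝ X u e1⟫ * w' e1) *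
        ⟪fderiv ℝ X u e0, Lop X X u⟫ +
      (‖fderiv ℝ X u e0‖ ^ 2 * w' e1 - ⟪fderiv ℝ X u e0, fderiv ℝ X u e1⟫ * w' e0) *
        ⟪fderiv ℝ X u e1, Lop X X u⟫) / ‖nn X u‖ ^ 2 := by
    rw [eq_div_iff hn2.ne', sub_mul, div_mul_cancel₀ _ hn2.ne']
    linarith
  rw [hE, abs_div, abs_of_pos hn2, div_le_iff₀ hn2]
  have hk2 : k u * ‖nn X u‖ ^ 2 = (‖fderiv ℝ X u e1‖ ^ 2 +
      |⟪fderiv ℝ X u e0, fderiv ℝ X u e1⟫|) * |⟪fderiv ℝ X u e0, Lop X X u⟫| +
    (‖fderiv ℝ X u e0‖ ^ 2 + |⟪fderiv ℝ X u e0, fderiv ℝ X u e1⟫|) *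
      |⟪fderiv ℝ X u e1, Lop X X u⟫| := by
    rw [hk]
    exact div_mul_cancel₀ _ hn2.ne'
  have hw0 : 0 ≤ ‖w'‖ := norm_nonneg _
  generalize ⟪fderiv ℝ X u e0, Lop X X u⟫ = A at *
  generalize ⟪fderiv ℝ X u e1, Lop X X u⟫ = B at *
  generalize ⟪fderiv ℝ X u e0, fderiv ℝ X u e1⟫ = C at *
  have hp : 0 ≤ ‖fderiv ℝ X u e1‖ ^ 2 := sq_nonneg _
  have hq : 0 ≤ ‖fderiv ℝ X u e0‖ ^ 2 := sq_nonneg _
  generalize ‖fderiv ℝ X u e1‖ ^ 2 = P at *
  generalize ‖fderiv ℝ X u e0‖ ^ 2 = Q at *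
  have h1 : |P * w' e0 - C * w' e1| ≤ (P + |C|) * ‖w'‖ := by
    calc |P * w' e0 - C * w' e1| ≤ |P * w' e0| + |C * w' e1| := abs_sub _ _
      _ = P * |w' e0| + |C| * |w' e1| := by rw [abs_mul, abs_mul, abs_of_nonneg hp]
      _ ≤ P * ‖w'‖ + |C| * ‖w'‖ := add_le_add (mul_le_mul_of_nonneg_left hb0 hp)
          (mul_le_mul_of_nonneg_left hb1 (abs_nonneg _))
      _ = _ := by ring
  have h2 : |Q * w' e1 - C * w' e0| ≤ (Q + |C|) * ‖w'‖ := by
    calc |Q * w' e1 - C * w' e0| ≤ |Q * w' e1| + |C * w' e0| := abs_sub _ _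
      _ = Q * |w' e1| + |C| * |w' e0| := by rw [abs_mul, abs_mul, abs_of_nonneg hq]
      _ ≤ Q * ‖w'‖ + |C| * ‖w'‖ := add_le_add (mul_le_mul_of_nonneg_left hb1 hq)
          (mul_le_mul_of_nonneg_left hb0 (abs_nonneg _))
      _ = _ := by ring
  calc |(P * w' e0 - C * w' e1) * A + (Q * w' e1 - C * w' e0) * B|
      ≤ |(P * w' e0 - C * w' e1) * A| + |(Q * w' e1 - C * w' e0) * B| := abs_add_le _ _
    _ = |P * w' e0 - C * w' e1| * |A| + |Q * w' e1 - C * w' e0| * |B| := by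
        rw [abs_mul, abs_mul]
    _ ≤ (P + |C|) * ‖w'‖ * |A| + (Q + |C|) * ‖w'‖ * |B| :=
        add_le_add (mul_le_mul_of_nonneg_right h1 (abs_nonneg _))
          (mul_le_mul_of_nonneg_right h2 (abs_nonneg _))
    _ = (k u * ‖nn X u‖ ^ 2) * ‖w'‖ := by rw [hk2]; ring
    _ ≤ K * ‖w'‖ * ‖nn X u‖ ^ 2 := by
        have := mul_le_mul_of_nonneg_right hKu' (mul_nonneg hn2.le hw0)
        nlinarith

end Pool.Agent.H99.SC

end S_PLN

section S_WMP

/-!
# WMP: weak maximum principle on the closed unit disc (used for `H = 0`)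

`w` C^2 (everywhere), `w = 0` on the unit circle, `|Ell A B C w| ≤ K |Dw|` in the open disc, with
`A, B, C` continuous and positive definite on the closed disc.  Then `w = 0` on the closed disc.
Proof.  It is enough to show `w >= 0` (apply to `-w`).  By compactness `A >= l > 0` on the closed disc.
Let `v x = exp (a (x 0))`, `Ell v = A a^2 v`, `|Dv| = a v`; for `a > |K|/l`: `Ell v > |K| |Dv|`.
Suppose `w x1 < 0`.  Choose `e > 0` so small that `w - e v` is smaller at `x1` than on the unit circle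
(`w = 0` there: `-e v >= -e exp a`).  The minimum of `w - e v` over the closed disc is attained at an
interior point `x2`: `Dw = e Dv`, `0 <= Ell (w - e v) x2`, so `Ell w x2 >= e Ell v > e |K||Dv| =
|K| |Dw|`: contradiction.
-/


open scoped RealInnerProductSpace Topology
open Metric Filter Set


namespace Pool.Agent.H99.SC

private def WMP_v (a : ℝ) : V2 → ℝ := fun x => Real.exp (a * x 0)

private theorem WMP_hasF (a : ℝ) (x : V2) :
    HasFDerivAt (WMP_v a) ((a * Real.exp (a * x 0)) • (EuclideanSpace.proj 0 : V2 →L[ℝ] ℝ)) x := by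
  have h1 : HasFDerivAt (fun x : V2 => a * x 0) (a • (EuclideanSpace.proj 0 : V2 →L[ℝ] ℝ)) x := by
    have h2 := (EuclideanSpace.proj (0 : Fin 2) : V2 →L[ℝ] ℝ).hasFDerivAt (x := x)
    exact h2.const_mul a
  have h3 := h1.exp
  have h4 : (a * Real.exp (a * x 0)) • (EuclideanSpace.proj 0 : V2 →L[ℝ] ℝ) =
      Real.exp (a * x 0) • (a • (EuclideanSpace.proj 0 : V2 →L[ℝ] ℝ)) := by
    rw [smul_smul, mul_comm]
  rw [h4]
  exact h3

private theorem WMP_smooth (a : ℝ) : ContDiff ℝ 2 (WMP_v a) := by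
  have h2 : ContDiff ℝ 2 (fun x : V2 => x 0) :=
    (EuclideanSpace.proj (0 : Fin 2) : V2 →L[ℝ] ℝ).contDiff
  exact Real.contDiff_exp.comp (contDiff_const.mul h2)

private theorem WMP_fd (a : ℝ) : fderiv ℝ (WMP_v a) =
    fun x => (a * Real.exp (a * x 0)) • (EuclideanSpace.proj 0 : V2 →L[ℝ] ℝ) := by
  funext x
  exact (WMP_hasF a x).fderiv

private theorem WMP_D2 (a : ℝ) (x h k : V2) :
    D2 (WMP_v a) x h k = a ^ 2 * Real.exp (a * x 0) * h 0 * k 0 := by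
  unfold D2
  rw [WMP_fd]
  have h1 : HasFDerivAt (fun x : V2 => a * Real.exp (a * x 0))
      (a • ((a * Real.exp (a * x 0)) • (EuclideanSpace.proj 0 : V2 →L[ℝ] ℝ))) x :=
    (WMP_hasF a x).const_mul a
  have h2 := h1.smul_const (EuclideanSpace.proj 0 : V2 →L[ℝ] ℝ)
  rw [h2.fderiv]
  simp only [ContinuousLinearMap.smulRight_apply, smul_apply, smul_eq_mul]
  change a * (a * Real.exp (a * x 0) * h 0) * k 0 = _
  ring

private theorem WMP_norm {a : ℝ} (ha : 0 ≤ a) (x : V2) :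
    ‖fderiv ℝ (WMP_v a) x‖ ≤ a * Real.exp (a * x 0) := by
  rw [WMP_fd]
  simp only
  rw [norm_smul, Real.norm_eq_abs, abs_of_nonneg (by positivity)]
  refine mul_le_of_le_one_right (by positivity) ?_
  refine ContinuousLinearMap.opNorm_le_bound _ zero_le_one fun y => ?_
  rw [one_mul]
  exact PiLp.norm_apply_le y 0

private theorem WMP_Ell (A B C : V2 → ℝ) (a : ℝ) (x : V2) :
    Ell A B C (WMP_v a) x = A x * (a ^ 2 * Real.exp (a * x 0)) := by
  unfold Ell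
  rw [WMP_D2, WMP_D2, WMP_D2]
  simp

private theorem WMP_nonneg {A B C w : V2 → ℝ} {K : ℝ} (hw : ContDiff ℝ 2 w)
    (hA : Continuous A)
    (hAp : ∀ x : V2, ‖x‖ ≤ 1 → 0 < A x)
    (hABC : ∀ x : V2, ‖x‖ ≤ 1 → B x ^ 2 < A x * C x)
    (h0 : ∀ x : V2, ‖x‖ = 1 → w x = 0)
    (hdi : ∀ x : V2, ‖x‖ < 1 → Ell A B C w x ≤ K * ‖fderiv ℝ w x‖) :
    ∀ x : V2, ‖x‖ ≤ 1 → 0 ≤ w x := by
  intro x₁ hx₁
  by_contra hneg
  push Not at hneg
  have hcomp : IsCompact (closedBall (0 : V2) 1) := isCompact_closedBall 0 1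
  have hne : (closedBall (0 : V2) 1).Nonempty := ⟨0, mem_closedBall_self zero_le_one⟩
  have hmem : ∀ x : V2, x ∈ closedBall (0 : V2) 1 ↔ ‖x‖ ≤ 1 := fun x => by
    rw [mem_closedBall_zero_iff]
  obtain ⟨xm, hxm, hmin⟩ := hcomp.exists_isMinOn hne hA.continuousOn
  set l := A xm with hl
  have hlpos : 0 < l := hAp xm ((hmem xm).1 hxm)
  have hAl : ∀ x : V2, ‖x‖ ≤ 1 → l ≤ A x := fun x hx => hmin ((hmem x).2 hx)
  set a : ℝ := |K| / l + 1 with ha
  have hapos : 0 < a := by positivity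
  have haK : |K| < l * a := by
    rw [ha, mul_add, mul_one, mul_div_cancel₀ _ hlpos.ne']
    linarith
  set e : ℝ := -w x₁ / Real.exp a with he
  have hexp : 0 < Real.exp a := Real.exp_pos a
  have hepos : 0 < e := div_pos (by linarith) hexp
  have hee : e * Real.exp a = -w x₁ := by rw [he, div_mul_cancel₀ _ hexp.ne']
  set u : V2 → ℝ := fun y => w y - e * WMP_v a y with hu
  have huc : ContDiff ℝ 2 u := hw.sub (contDiff_const.mul (WMP_smooth a))
  obtain ⟨x₂, hx₂, hmin₂⟩ := hcomp.exists_isMinOn hne huc.continuous.continuousOn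
  have hx₂' : ‖x₂‖ ≤ 1 := (hmem x₂).1 hx₂
  have hvpos : ∀ x, 0 < WMP_v a x := fun x => Real.exp_pos _
  have hu21 : u x₂ ≤ u x₁ := hmin₂ ((hmem x₁).2 hx₁)
  have hu1 : u x₁ < w x₁ := by
    have := mul_pos hepos (hvpos x₁)
    simp only [hu]
    linarith
  rcases hx₂'.lt_or_eq with h1 | h1
  · have hloc : IsLocalMin u x₂ := by
      refine hmin₂.isLocalMin ?_
      exact closedBall_mem_nhds_of_mem (by rw [mem_ball_zero_iff]; exact h1)
    have hd0 := hloc.fderiv_eq_zero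
    have hwd : DifferentiableAt ℝ w x₂ := (hw.differentiable (by norm_num)) x₂
    have hvd : HasFDerivAt (fun y => e * WMP_v a y) (e • fderiv ℝ (WMP_v a) x₂) x₂ :=
      (((WMP_smooth a).differentiable (by norm_num)) x₂).hasFDerivAt.const_mul e
    have hd1 : fderiv ℝ u x₂ = fderiv ℝ w x₂ - e • fderiv ℝ (WMP_v a) x₂ :=
      (hwd.hasFDerivAt.sub hvd).fderiv
    rw [hd0] at hd1
    have hd2 : fderiv ℝ w x₂ = e • fderiv ℝ (WMP_v a) x₂ := (sub_eq_zero.1 hd1.symm)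
    have hE := Ell_nonneg_of_isLocalMin (hAp x₂ hx₂') (hABC x₂ hx₂') huc.contDiffAt hloc
    have hE2 : Ell A B C u x₂ = Ell A B C w x₂ - e * Ell A B C (WMP_v a) x₂ := by
      unfold Ell
      simp only [hu]
      rw [D2_sub_smul hw.contDiffAt (WMP_smooth a).contDiffAt,
        D2_sub_smul hw.contDiffAt (WMP_smooth a).contDiffAt,
        D2_sub_smul hw.contDiffAt (WMP_smooth a).contDiffAt]
      ring
    rw [hE2, WMP_Ell] at hE
    have h2 := hdi x₂ h1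
    have h3 : ‖fderiv ℝ w x₂‖ ≤ e * (a * Real.exp (a * x₂ 0)) := by
      rw [hd2, norm_smul, Real.norm_eq_abs, abs_of_pos hepos]
      exact mul_le_mul_of_nonneg_left (WMP_norm hapos.le x₂) hepos.le
    have h4 : K * ‖fderiv ℝ w x₂‖ ≤ |K| * (e * (a * Real.exp (a * x₂ 0))) := by
      refine (mul_le_mul_of_nonneg_right (le_abs_self K) (norm_nonneg _)).trans ?_
      exact mul_le_mul_of_nonneg_left h3 (abs_nonneg K)
    have h5 : 0 < e * (a * Real.exp (a * x₂ 0)) := by positivity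
    have h6 := hAl x₂ hx₂'
    have h7 : |K| * (e * (a * Real.exp (a * x₂ 0))) <
        l * a * (e * (a * Real.exp (a * x₂ 0))) := mul_lt_mul_of_pos_right haK h5
    have h8 : l * a * (e * (a * Real.exp (a * x₂ 0))) ≤
        A x₂ * a * (e * (a * Real.exp (a * x₂ 0))) := by
      refine mul_le_mul_of_nonneg_right ?_ h5.le
      exact mul_le_mul_of_nonneg_right h6 hapos.le
    have h9 : e * (A x₂ * (a ^ 2 * Real.exp (a * x₂ 0))) =
        A x₂ * a * (e * (a * Real.exp (a * x₂ 0))) := by ring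
    rw [h9] at hE
    linarith
  · have h2 : x₂ 0 ≤ 1 := by
      have := PiLp.norm_apply_le x₂ 0
      rw [h1, Real.norm_eq_abs] at this
      exact (le_abs_self _).trans this
    have h3 : WMP_v a x₂ ≤ Real.exp a := by
      refine Real.exp_le_exp.2 ?_
      nlinarith
    have h4 : e * WMP_v a x₂ ≤ e * Real.exp a := mul_le_mul_of_nonneg_left h3 hepos.le
    have h5 : u x₂ = -(e * WMP_v a x₂) := by
      simp only [hu]
      rw [h0 x₂ h1]; ring
    linarith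

theorem wmp {A B C w : V2 → ℝ} {K : ℝ} (hw : ContDiff ℝ 2 w)
    (hA : Continuous A) (hB : Continuous B) (hC : Continuous C)
    (hAp : ∀ x : V2, ‖x‖ ≤ 1 → 0 < A x)
    (hABC : ∀ x : V2, ‖x‖ ≤ 1 → B x ^ 2 < A x * C x)
    (h0 : ∀ x : V2, ‖x‖ = 1 → w x = 0)
    (hdi : ∀ x : V2, ‖x‖ < 1 → |Ell A B C w x| ≤ K * ‖fderiv ℝ w x‖) :
    ∀ x : V2, ‖x‖ ≤ 1 → w x = 0 := by
  intro x hx
  have h1 : 0 ≤ w x := WMP_nonneg hw hA hAp hABC h0
    (fun y hy => (le_abs_self _).trans (hdi y hy)) x hx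
  have hneg1 : fderiv ℝ (fun y => -w y) = fun y => -fderiv ℝ w y := by
    funext y
    exact fderiv_fun_neg
  have hneg2 : ∀ y a b, D2 (fun y => -w y) y a b = -D2 w y a b := by
    intro y a b
    unfold D2
    rw [hneg1, fderiv_fun_neg]
    simp
  have h2 : 0 ≤ -w x := WMP_nonneg (w := fun y => -w y) (K := K) hw.neg hA hAp hABC
    (fun y hy => by rw [h0 y hy, neg_zero])
    (fun y hy => by
      have h3 : Ell A B C (fun y => -w y) y = -Ell A B C w y := by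
        unfold Ell
        rw [hneg2, hneg2, hneg2]; ring
      rw [h3, hneg1, norm_neg]
      exact (neg_le_abs _).trans (hdi y hy)) x hx
  linarith

end Pool.Agent.H99.SC

end S_WMP

section S_CONE

/-!
# CONE: the solid cone over the disc and reflections in tilted planes (pure algebra)

`z = zc e a h = (-a e, -h)`, `e` a horizontal unit vector, `a ≥ 0`, `h > 0`, `T > 0`,
`n = nT e T = (e + T E3)/sqrt(1+T^2)` (`cos = 1/sqrt(1+T^2)`, `sin = T/sqrt(1+T^2)`).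
`InCone z y` : `y` is in the open solid cone over the unit disc with apex `z`.

For `d ∈ Disc`, `s = 2 (t - ⟪n,d⟫)`, `y = refl n t d = d + s n`; `d' = (d 0, d 1)`, `d₁ = ⟪e,d⟫`, `|d'| ≤ 1`,
`y' = d' + s cos e`, `y 2 = s sin`, `m = h cos - a sin`:
`h y' + (y 2) z' = h d' + s m e`, and `(h + y 2)^2 - |h y' + (y 2) z'|^2
  = h^2 (1 - |d'|^2) + 2 h s sin + s^2 sin^2 - 2 h s m d₁ - s^2 m^2`.
`cone1` (part 1): `t > cos`, `h < (1+a) T`, `a T ≤ h`: `s > 0` and `0 ≤ m < sin` and `d₁ ≤ 1`, so this is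
`≥ 2 h s (sin - m) + s^2 (sin^2 - m^2) > 0`.
`cone2` (part 2): `t = tT h a T`: `t = kappa sin` with `kappa = 1/(h - a T)`, `m = cos/kappa`;
`d₁ cos = t - s/2`.  The sum equals `h^2 (1 - |d'|^2) + s^2 sin cos (T + (h T + a)(h - a T))`.
`cone2'`: `d` on the circle and `⟪n,d⟫ > t`: `s < 0`, same identity, and `h + y 2 > 0`:
`y 2 = s sin = 2 T (kappa T - d₁)/(1+T^2) ≥ -2 T (1 - kappa T)/(1+T^2)`, `kappa ≥ 1/h`, and
`2 T (h - T) < h^2 (1 + T^2)` because `h^2 + h^2T^2 - 2 T h + 2 T^2 = (h-T)^2 + T^2 + h^2 T^2 > 0`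
(if `kappa T ≥ 1` it is trivial: `d₁ ≤ 1`, `s ≥ 0`).
`hinge_id` (6.1): for `c` on the circle and `N = x c + y E3`:
`⟪n,N⟫ = -(sin/h) ⟪z - c, N⟫ + (1 - a T/h) (⟪n,c⟫ - t) ⟪c,N⟫`.
`hinge_vec`: for `c` on the circle with `⟪n,c⟫ = t`: `n = (sin/h) (c - z) + (1 - a T/h) ⟪n, TT c⟫ TT c`.
-/


open scoped RealInnerProductSpace Topology
open Metric Filter Set


namespace Pool.Agent.H99.SC

def zc (e : V3) (a h : ℝ) : V3 := !₂[-(a * e 0), -(a * e 1), -h]

@[simp] theorem zc_0 (e : V3) (a h : ℝ) : (zc e a h) 0 = -(a * e 0) := by simp [zc]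
@[simp] theorem zc_1 (e : V3) (a h : ℝ) : (zc e a h) 1 = -(a * e 1) := by simp [zc]
@[simp] theorem zc_2 (e : V3) (a h : ℝ) : (zc e a h) 2 = -h := by simp [zc]

/-- the open solid cone over the unit disc with apex `z` -/
def InCone (z y : V3) : Prop :=
  0 < y 2 - z 2 ∧
    (-(z 2) * y 0 + y 2 * z 0) ^ 2 + (-(z 2) * y 1 + y 2 * z 1) ^ 2 < (y 2 - z 2) ^ 2

/-- unit normal of elevation `arctan T` -/
def nT (e : V3) (T : ℝ) : V3 := (Real.sqrt (1 + T ^ 2))⁻¹ • (e + T • E3)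

/-- position of the plane in part 2 -/
def tT (h a T : ℝ) : ℝ := T / ((h - a * T) * Real.sqrt (1 + T ^ 2))

/-- the cosine -/
def CONE_c (T : ℝ) : ℝ := (Real.sqrt (1 + T ^ 2))⁻¹

theorem CONE_c_pos (T : ℝ) : 0 < CONE_c T := by
  unfold CONE_c
  have : 0 < 1 + T ^ 2 := by positivity
  positivity

theorem CONE_c_sq (T : ℝ) : CONE_c T ^ 2 * (1 + T ^ 2) = 1 := by
  unfold CONE_c
  have h : 0 < 1 + T ^ 2 := by positivity
  rw [inv_pow, Real.sq_sqrt h.le, inv_mul_cancel₀ h.ne']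

theorem CONE_e {e : V3} (he : ‖e‖ = 1) (he2 : e 2 = 0) : e 0 ^ 2 + e 1 ^ 2 = 1 := by
  have := nsq e
  rw [he, he2] at this
  linarith

theorem CONE_n0 (e : V3) (T : ℝ) : (nT e T) 0 = CONE_c T * e 0 := by
  simp [nT, CONE_c]
theorem CONE_n1 (e : V3) (T : ℝ) : (nT e T) 1 = CONE_c T * e 1 := by
  simp [nT, CONE_c]
theorem CONE_n2 {e : V3} (he2 : e 2 = 0) (T : ℝ) : (nT e T) 2 = CONE_c T * T := by
  simp [nT, CONE_c, he2]

theorem CONE_tT {h a T : ℝ} (h2 : a * T < h) : tT h a T * (h - a * T) = T * CONE_c T := by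
  unfold tT CONE_c
  have h1 : h - a * T ≠ 0 := by linarith
  have h3 : Real.sqrt (1 + T ^ 2) ≠ 0 := by
    have : 0 < 1 + T ^ 2 := by positivity
    positivity
  generalize h - a * T = k at h1
  field_simp

/-- part 1, real numbers -/
theorem CONE_one {h s c T m p q : ℝ} (hh : 0 < h) (hs : 0 < s) (hm0 : 0 ≤ m)
    (hm1 : m < c * T) (hmp : m * p ≤ m) (hq : q ≤ 1) :
    h ^ 2 * q + 2 * h * s * m * p + s ^ 2 * m ^ 2 < (s * c * T + h) ^ 2 := by
  have h1 : 0 < 2 * (h * s * (c * T - m)) := by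
    have : 0 < c * T - m := by linarith
    positivity
  have h2 : 0 ≤ 2 * (h * s * (m - m * p)) := by
    have : 0 ≤ m - m * p := by linarith
    positivity
  have h3 : 0 < s ^ 2 * (c * T - m) * (c * T + m) := by
    have : 0 < c * T - m := by linarith
    have h4 : 0 < c * T + m := by linarith
    positivity
  have h5 : 0 ≤ h ^ 2 * (1 - q) := by
    have : 0 ≤ 1 - q := by linarith
    positivity
  have h6 : (s * c * T + h) ^ 2 = h ^ 2 * q + 2 * h * s * m * p + s ^ 2 * m ^ 2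
      + 2 * (h * s * (c * T - m)) + 2 * (h * s * (m - m * p))
      + s ^ 2 * (c * T - m) * (c * T + m) + h ^ 2 * (1 - q) := by ring
  linarith

theorem CONE_p {e : V3} (he : e 0 ^ 2 + e 1 ^ 2 = 1) {d : V3} (hd : d 0 ^ 2 + d 1 ^ 2 ≤ 1) :
    e 0 * d 0 + e 1 * d 1 ≤ 1 := by
  nlinarith [sq_nonneg (e 0 - d 0), sq_nonneg (e 1 - d 1)]

theorem CONE_in {e : V3} (he2 : e 2 = 0) (T : ℝ) {d : V3} (hd : d 2 = 0) :
    ⟪nT e T, d⟫ = CONE_c T * (e 0 * d 0 + e 1 * d 1) := by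
  rw [ip, CONE_n0, CONE_n1, CONE_n2 he2, hd]; ring

/-- the coordinates of a reflected point and the cone condition -/
theorem CONE_key {e : V3} (he : e 0 ^ 2 + e 1 ^ 2 = 1) (he2 : e 2 = 0) {a h T t : ℝ}
    {d : V3} (hd2 : d 2 = 0) :
    (refl (nT e T) t d) 2 = 2 * (t - CONE_c T * (e 0 * d 0 + e 1 * d 1)) * CONE_c T * T ∧
    ((-((zc e a h) 2) * (refl (nT e T) t d) 0 + (refl (nT e T) t d) 2 * (zc e a h) 0) ^ 2
      + (-((zc e a h) 2) * (refl (nT e T) t d) 1 + (refl (nT e T) t d) 2 * (zc e a h) 1) ^ 2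
      = h ^ 2 * (d 0 ^ 2 + d 1 ^ 2)
        + 2 * h * (2 * (t - CONE_c T * (e 0 * d 0 + e 1 * d 1))) * (CONE_c T * (h - a * T))
          * (e 0 * d 0 + e 1 * d 1)
        + (2 * (t - CONE_c T * (e 0 * d 0 + e 1 * d 1))) ^ 2 * (CONE_c T * (h - a * T)) ^ 2) := by
  have hin := CONE_in he2 T hd2
  have r2 : (refl (nT e T) t d) 2
      = 2 * (t - CONE_c T * (e 0 * d 0 + e 1 * d 1)) * CONE_c T * T := by
    unfold refl
    rw [hin]
    simp only [PiLp.sub_apply, PiLp.smul_apply, smul_eq_mul, CONE_n2 he2, hd2]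
    ring
  have r0 : (refl (nT e T) t d) 0
      = d 0 + 2 * (t - CONE_c T * (e 0 * d 0 + e 1 * d 1)) * (CONE_c T * e 0) := by
    unfold refl
    rw [hin]
    simp only [PiLp.sub_apply, PiLp.smul_apply, smul_eq_mul, CONE_n0]
    ring
  have r1 : (refl (nT e T) t d) 1
      = d 1 + 2 * (t - CONE_c T * (e 0 * d 0 + e 1 * d 1)) * (CONE_c T * e 1) := by
    unfold refl
    rw [hin]
    simp only [PiLp.sub_apply, PiLp.smul_apply, smul_eq_mul, CONE_n1]
    ring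
  refine ⟨r2, ?_⟩
  rw [r2, r1, r0, zc_0, zc_1, zc_2]
  linear_combination ((2 * (t - CONE_c T * (e 0 * d 0 + e 1 * d 1))) ^ 2
    * (CONE_c T * (h - a * T)) ^ 2) * he

theorem nT_norm {e : V3} (he : ‖e‖ = 1) (he2 : e 2 = 0) (T : ℝ) : ‖nT e T‖ = 1 := by
  have h : ‖nT e T‖ ^ 2 = 1 := by
    rw [nsq, CONE_n0, CONE_n1, CONE_n2 he2]
    linear_combination CONE_c_sq T + CONE_c T ^ 2 * CONE_e he he2
  have h0 := norm_nonneg (nT e T)
  nlinarith

theorem nT_cont (e : V3) : Continuous (nT e) := by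
  have h1 : Continuous (fun T : ℝ => (Real.sqrt (1 + T ^ 2))⁻¹) := by
    apply Continuous.inv₀
    · fun_prop
    · intro T
      have : 0 < 1 + T ^ 2 := by positivity
      positivity
  have h2 : Continuous (fun T : ℝ => e + T • E3) := by fun_prop
  exact h1.smul h2

theorem cone1 {e : V3} (he : ‖e‖ = 1) (he2 : e 2 = 0) {a h T t : ℝ} (ha : 0 ≤ a) (hh : 0 < h)
    (hT : 0 < T) (hT1 : h < (1 + a) * T) (hT2 : a * T ≤ h) (ht : (Real.sqrt (1 + T ^ 2))⁻¹ < t)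
    {d : V3} (hd : d ∈ Disc) :
    ⟪nT e T, d⟫ < t ∧ 0 < (refl (nT e T) t d) 2 ∧ InCone (zc e a h) (refl (nT e T) t d) := by
  obtain ⟨hd2, hd1⟩ := hd
  have he' := CONE_e he he2
  have hp := CONE_p he' hd1
  have hc := CONE_c_pos T
  have ht' : CONE_c T < t := ht
  obtain ⟨k2, k⟩ := CONE_key (a := a) (h := h) (T := T) (t := t) he' he2 hd2
  rw [CONE_in he2 T hd2]
  set p := e 0 * d 0 + e 1 * d 1 with hpd
  set c := CONE_c T with hcd
  have hcp : c * p ≤ c := by nlinarith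
  have hs : 0 < 2 * (t - c * p) := by linarith
  have hy : 0 < (refl (nT e T) t d) 2 := by rw [k2]; positivity
  refine ⟨by linarith, hy, ?_, ?_⟩
  · rw [zc_2]; linarith
  · rw [k, zc_2, k2]
    have hm0 : 0 ≤ c * (h - a * T) := mul_nonneg hc.le (by linarith)
    have hm1 : c * (h - a * T) < c * T := by
      apply mul_lt_mul_of_pos_left _ hc
      linarith
    have hmp : c * (h - a * T) * p ≤ c * (h - a * T) := by
      have := mul_le_mul_of_nonneg_left hp hm0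
      linarith
    have := CONE_one hh hs hm0 hm1 hmp hd1
    rw [sub_neg_eq_add]
    exact this

/-- the main identity of part 2 -/
theorem CONE_two {a h T t c p q s : ℝ} (hc : c ^ 2 * (1 + T ^ 2) = 1)
    (ht : t * (h - a * T) = T * c) (hs : s = 2 * (t - c * p)) :
    (s * c * T + h) ^ 2 - (h ^ 2 * q + 2 * h * s * (c * (h - a * T)) * p
      + s ^ 2 * (c * (h - a * T)) ^ 2)
      = h ^ 2 * (1 - q) + s ^ 2 * c ^ 2 * T * (T + (h * T + a) * (h - a * T)) := by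
  have hp : c * p = t - s / 2 := by linarith
  have h1 : (c * (h - a * T)) * p = T * c - (h - a * T) * s / 2 := by
    calc (c * (h - a * T)) * p = (h - a * T) * (c * p) := by ring
      _ = (h - a * T) * (t - s / 2) := by rw [hp]
      _ = t * (h - a * T) - (h - a * T) * s / 2 := by ring
      _ = _ := by rw [ht]
  linear_combination (-(2 * h * s)) * h1 - s ^ 2 * h * (h - a * T) * hc

theorem cone2 {e : V3} (he : ‖e‖ = 1) (he2 : e 2 = 0) {a h T : ℝ} (ha : 0 ≤ a) (hh : 0 < h)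
    (hT : 0 < T) (hT2 : a * T < h) {d : V3} (hd : d ∈ Disc) (hl : ⟪nT e T, d⟫ < tT h a T) :
    0 < (refl (nT e T) (tT h a T) d) 2 ∧ InCone (zc e a h) (refl (nT e T) (tT h a T) d) := by
  obtain ⟨hd2, hd1⟩ := hd
  have he' := CONE_e he he2
  have hc := CONE_c_pos T
  obtain ⟨k2, k⟩ := CONE_key (a := a) (h := h) (T := T) (t := tT h a T) he' he2 hd2
  rw [CONE_in he2 T hd2] at hl
  have hw := CONE_two (a := a) (h := h) (T := T) (t := tT h a T) (c := CONE_c T)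
    (p := e 0 * d 0 + e 1 * d 1) (q := d 0 ^ 2 + d 1 ^ 2) (CONE_c_sq T) (CONE_tT hT2) rfl
  set p := e 0 * d 0 + e 1 * d 1 with hpd
  set c := CONE_c T with hcd
  have hs : 0 < 2 * (tT h a T - c * p) := by linarith
  have hy : 0 < (refl (nT e T) (tT h a T) d) 2 := by rw [k2]; positivity
  refine ⟨hy, ?_, ?_⟩
  · rw [zc_2]; linarith
  · rw [k, zc_2, k2]
    set s := 2 * (tT h a T - c * p) with hsd
    have h5 : 0 ≤ h ^ 2 * (1 - (d 0 ^ 2 + d 1 ^ 2)) := by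
      have : 0 ≤ 1 - (d 0 ^ 2 + d 1 ^ 2) := by linarith
      positivity
    have h6 : 0 < s ^ 2 * c ^ 2 * T * (T + (h * T + a) * (h - a * T)) := by
      have : 0 < h - a * T := by linarith
      positivity
    rw [sub_neg_eq_add]
    linarith

theorem cone2' {e : V3} (he : ‖e‖ = 1) (he2 : e 2 = 0) {a h T : ℝ} (ha : 0 ≤ a) (hh : 0 < h)
    (hT : 0 < T) (hT2 : a * T < h) {d : V3} (hd2 : d 2 = 0) (hd : d 0 ^ 2 + d 1 ^ 2 = 1)
    (hl : tT h a T < ⟪nT e T, d⟫) :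
    (refl (nT e T) (tT h a T) d) 2 < 0 ∧ InCone (zc e a h) (refl (nT e T) (tT h a T) d) := by
  have he' := CONE_e he he2
  have hp := CONE_p he' hd.le
  have hc := CONE_c_pos T
  have hcs := CONE_c_sq T
  have htt := CONE_tT hT2
  obtain ⟨k2, k⟩ := CONE_key (a := a) (h := h) (T := T) (t := tT h a T) he' he2 hd2
  rw [CONE_in he2 T hd2] at hl
  have hw := CONE_two (a := a) (h := h) (T := T) (t := tT h a T) (c := CONE_c T)
    (p := e 0 * d 0 + e 1 * d 1) (q := d 0 ^ 2 + d 1 ^ 2) (CONE_c_sq T) (CONE_tT hT2) rfl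
  set p := e 0 * d 0 + e 1 * d 1 with hpd
  set c := CONE_c T with hcd
  set t := tT h a T with htd
  have hs : 2 * (t - c * p) < 0 := by linarith
  have hk : 0 < h - a * T := by linarith
  have ht0 : 0 < t := by
    have : 0 < T * c := by positivity
    rw [← htt] at this
    exact (mul_pos_iff_of_pos_right hk).1 this
  have hy : (refl (nT e T) t d) 2 < 0 := by
    rw [k2]
    have : 0 < c * T := by positivity
    have h1 := mul_neg_of_neg_of_pos hs this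
    rw [mul_assoc]
    exact h1
  have haT : 0 ≤ a * T := by positivity
  have hth : T * c ≤ t * h := by
    have : 0 ≤ t * (a * T) := by positivity
    rw [← htt]
    linarith
  -- h + y 2 > 0
  have hpos : 0 < 2 * (t - c * p) * c * T + h := by
    have hcp : c * p ≤ c := by
      have := mul_le_mul_of_nonneg_left hp hc.le
      linarith
    have hcT : 0 < c * T := by positivity
    have h1 : 0 ≤ 2 * (c - c * p) * (c * T) := by
      have : 0 ≤ c - c * p := by linarith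
      positivity
    have h2 : 0 < h * (2 * (t - c) * (c * T) + h) := by
      have h3 : 0 ≤ 2 * ((t * h - T * c) * (c * T)) := by
        have : 0 ≤ t * h - T * c := by linarith
        positivity
      have h4 : 0 < c ^ 2 * ((h - T) ^ 2 + T ^ 2 + h ^ 2 * T ^ 2) := by positivity
      have h5 : h * (2 * (t - c) * (c * T) + h)
          = 2 * ((t * h - T * c) * (c * T)) + c ^ 2 * ((h - T) ^ 2 + T ^ 2 + h ^ 2 * T ^ 2) := by
        linear_combination (-(h ^ 2)) * hcs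
      linarith
    have h6 := (mul_pos_iff_of_pos_left hh).1 h2
    have h7 : 2 * (t - c * p) * c * T + h
        = (2 * (t - c) * (c * T) + h) + 2 * (c - c * p) * (c * T) := by ring
    linarith
  refine ⟨hy, ?_, ?_⟩
  · rw [zc_2, k2]; linarith
  · rw [k, zc_2, k2]
    have h5 : 0 ≤ h ^ 2 * (1 - (d 0 ^ 2 + d 1 ^ 2)) := by
      have : 0 ≤ 1 - (d 0 ^ 2 + d 1 ^ 2) := by linarith
      positivity
    have h6 : 0 < (2 * (t - c * p)) ^ 2 * c ^ 2 * T * (T + (h * T + a) * (h - a * T)) := by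
      have : 0 < (2 * (t - c * p)) ^ 2 := by
        have h7 : 2 * (t - c * p) ≠ 0 := hs.ne
        positivity
      positivity
    rw [sub_neg_eq_add]
    linarith

theorem hinge_id {e : V3} (he : ‖e‖ = 1) (he2 : e 2 = 0) {a h T : ℝ} (hh : 0 < h)
    (hT2 : a * T < h) {c : V3} (hc2 : c 2 = 0) (hc : c 0 ^ 2 + c 1 ^ 2 = 1) (x y : ℝ) :
    ⟪nT e T, x • c + y • E3⟫
      = -(T / Real.sqrt (1 + T ^ 2) / h) * ⟪zc e a h - c, x • c + y • E3⟫
        + (1 - a * T / h) * (⟪nT e T, c⟫ - tT h a T) * ⟪c, x • c + y • E3⟫ := by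
  have htt := CONE_tT hT2
  have h1 : T / Real.sqrt (1 + T ^ 2) = T * CONE_c T := by
    unfold CONE_c; rw [div_eq_mul_inv]
  rw [h1]
  simp only [ip, CONE_n0, CONE_n1, CONE_n2 he2, hc2, PiLp.add_apply, PiLp.smul_apply,
    PiLp.sub_apply, smul_eq_mul, E3_0, E3_1, E3_2, zc_0, zc_1, zc_2]
  have hh' : h ≠ 0 := hh.ne'
  have h2 : (1 - a * T / h) = (h - a * T) / h := by field_simp
  rw [h2]
  have h3 : ∀ X Y : ℝ, h * X = h * Y → X = Y := fun X Y hXY => mul_left_cancel₀ hh' hXY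
  apply h3
  have h4 : h * (-(T * CONE_c T / h) * ((-(a * e 0) - c 0) * (x * c 0 + y * 0)
      + (-(a * e 1) - c 1) * (x * c 1 + y * 0) + (-h - 0) * (x * 0 + y * 1))
      + (h - a * T) / h * (CONE_c T * e 0 * c 0 + CONE_c T * e 1 * c 1 + CONE_c T * T * 0
        - tT h a T) * (c 0 * (x * c 0 + y * 0) + c 1 * (x * c 1 + y * 0) + 0 * (x * 0 + y * 1)))
      = -(T * CONE_c T) * ((-(a * e 0) - c 0) * (x * c 0 + y * 0)
      + (-(a * e 1) - c 1) * (x * c 1 + y * 0) + (-h - 0) * (x * 0 + y * 1))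
      + (h - a * T) * (CONE_c T * e 0 * c 0 + CONE_c T * e 1 * c 1 + CONE_c T * T * 0
        - tT h a T) * (c 0 * (x * c 0 + y * 0) + c 1 * (x * c 1 + y * 0)
          + 0 * (x * 0 + y * 1)) := by
    field_simp
  rw [h4]
  linear_combination (x * (c 0 ^ 2 + c 1 ^ 2)) * htt
    + (-(x * (h - a * T) * CONE_c T * (e 0 * c 0 + e 1 * c 1))) * hc

theorem hinge_vec {e : V3} (he : ‖e‖ = 1) (he2 : e 2 = 0) {a h T : ℝ} (hh : 0 < h)
    (hT2 : a * T < h) {c : V3} (hc2 : c 2 = 0) (hc : c 0 ^ 2 + c 1 ^ 2 = 1)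
    (hl : ⟪nT e T, c⟫ = tT h a T) :
    nT e T = (T / Real.sqrt (1 + T ^ 2) / h) • (c - zc e a h)
      + ((1 - a * T / h) * ⟪nT e T, TT c⟫) • TT c := by
  have htt := CONE_tT hT2
  have h1 : T / Real.sqrt (1 + T ^ 2) = T * CONE_c T := by
    unfold CONE_c; rw [div_eq_mul_inv]
  have hh' : h ≠ 0 := hh.ne'
  rw [CONE_in he2 T hc2] at hl
  rw [← hl] at htt
  rw [h1]
  apply ext3
  · simp only [ip, CONE_n0, CONE_n1, CONE_n2 he2, hc2, PiLp.add_apply, PiLp.smul_apply,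
      PiLp.sub_apply, smul_eq_mul, zc_0, zc_1, zc_2, TT_0, TT_1, TT_2]
    field_simp
    linear_combination (c 0) * htt - (CONE_c T * (h - T * a) * e 0) * hc
  · simp only [ip, CONE_n0, CONE_n1, CONE_n2 he2, hc2, PiLp.add_apply, PiLp.smul_apply,
      PiLp.sub_apply, smul_eq_mul, zc_0, zc_1, zc_2, TT_0, TT_1, TT_2]
    field_simp
    linear_combination (c 1) * htt - (CONE_c T * (h - T * a) * e 1) * hc
  · simp only [ip, CONE_n0, CONE_n1, CONE_n2 he2, hc2, PiLp.add_apply, PiLp.smul_apply,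
      PiLp.sub_apply, smul_eq_mul, zc_0, zc_1, zc_2, TT_0, TT_1, TT_2]
    field_simp
    ring

end Pool.Agent.H99.SC

end S_CONE

section S_GRN

/-!
# GRN: integral of a closed 1-form over the unit circle

`ω` C^1 at the points of the closed unit disc, `fderiv ω u a b` symmetric for `‖u‖ < 1`.  Then the
integral of `ω` along the unit circle is 0.
Proof.  `exists_forall_hasFDerivAt_of_fderiv_symmetric` (Mathlib,
MeasureTheory/Integral/CurveIntegral/Poincare.lean) on `ball 0 1`: `φ` with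
`HasFDerivAt φ (ω u) u` for `‖u‖ < 1`.  For `0 < r < 1`: `ψ ↦ φ (r • cu ψ)` has derivative
`ω (r • cu ψ) (r • rot (cu ψ))`, so by the fundamental theorem `∫ ω (r cu ψ) (r rot (cu ψ)) = φ(r cu 2π) -
φ(r cu 0) = 0`.  Let `r → 1`: the integrand is continuous in `(r, ψ)`, with `r` replaced by its projection
to `[0,1]`.
-/


open scoped RealInnerProductSpace Topology
open Metric Filter Set


namespace Pool.Agent.H99.SC

theorem GRN_cu_eq (ψ : ℝ) : cu ψ = Real.cos ψ • e0 + Real.sin ψ • e1 := by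
  apply ext2 <;> simp

theorem hasDerivAt_cu (ψ : ℝ) : HasDerivAt cu (rot (cu ψ)) ψ := by
  have h1 : HasDerivAt (fun x : ℝ => Real.cos x • e0 + Real.sin x • e1)
      ((-Real.sin ψ) • e0 + Real.cos ψ • e1) ψ :=
    ((Real.hasDerivAt_cos ψ).smul_const e0).add ((Real.hasDerivAt_sin ψ).smul_const e1)
  have h2 : (fun x : ℝ => Real.cos x • e0 + Real.sin x • e1) = cu := by
    funext x
    exact (GRN_cu_eq x).symm
  have h3 : (-Real.sin ψ) • e0 + Real.cos ψ • e1 = rot (cu ψ) := by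
    apply ext2 <;> simp
  rw [h2, h3] at h1
  exact h1

theorem GRN_cont_cu : Continuous cu :=
  continuous_iff_continuousAt.2 fun ψ => (hasDerivAt_cu ψ).continuousAt

theorem GRN_cont_rot : Continuous (fun ψ : ℝ => rot (cu ψ)) := by
  have h : (fun ψ : ℝ => rot (cu ψ)) = fun ψ : ℝ => (-Real.sin ψ) • e0 + Real.cos ψ • e1 := by
    funext ψ
    apply ext2 <;> simp
  rw [h]
  fun_prop

theorem GRN_norm_cu (ψ : ℝ) : ‖cu ψ‖ = 1 := by
  have h : ‖cu ψ‖ ^ 2 = 1 := by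
    rw [nsq2]; simp
  nlinarith [norm_nonneg (cu ψ)]

theorem GRN_radius {ω : V2 → V2 →L[ℝ] ℝ} (h1 : ∀ u : V2, ‖u‖ ≤ 1 → ContDiffAt ℝ 1 ω u)
    (hs : ∀ u : V2, ‖u‖ < 1 → ∀ a b : V2, fderiv ℝ ω u a b = fderiv ℝ ω u b a) {r : ℝ}
    (h0 : 0 ≤ r) (hr : r < 1) :
    ∫ ψ in (0 : ℝ)..(2 * Real.pi), ω (r • cu ψ) (r • rot (cu ψ)) = 0 := by
  obtain ⟨φ, hφ⟩ := (convex_ball (0 : V2) 1).exists_forall_hasFDerivAt_of_fderiv_symmetric
    (ω := ω) isOpen_ball
    (fun u hu => ((h1 u (mem_ball_zero_iff.1 hu).le).differentiableAt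
      (by norm_num)).differentiableWithinAt)
    (fun u hu a b => hs u (mem_ball_zero_iff.1 hu) a b)
  have hn : ∀ ψ : ℝ, ‖r • cu ψ‖ < 1 := by
    intro ψ
    rw [norm_smul, GRN_norm_cu, mul_one, Real.norm_eq_abs, abs_of_nonneg h0]
    exact hr
  have hd : ∀ ψ : ℝ, HasDerivAt (fun ψ => φ (r • cu ψ)) (ω (r • cu ψ) (r • rot (cu ψ))) ψ :=
    fun ψ => (hφ _ (mem_ball_zero_iff.2 (hn ψ))).comp_hasDerivAt ψ ((hasDerivAt_cu ψ).const_smul r)
  have hcr : Continuous (fun ψ : ℝ => r • cu ψ) := GRN_cont_cu.const_smul r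
  have hcw : Continuous (fun ψ : ℝ => ω (r • cu ψ)) := by
    rw [continuous_iff_continuousAt]
    intro ψ
    exact ContinuousAt.comp (f := fun ψ : ℝ => r • cu ψ) (h1 _ (hn ψ).le).continuousAt
      hcr.continuousAt
  have hc : Continuous (fun ψ : ℝ => ω (r • cu ψ) (r • rot (cu ψ))) :=
    hcw.clm_apply (GRN_cont_rot.const_smul r)
  rw [intervalIntegral.integral_eq_sub_of_hasDerivAt (fun ψ _ => hd ψ)
    (hc.intervalIntegrable _ _)]
  have h2 : cu (2 * Real.pi) = cu 0 := by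
    apply ext2 <;> simp
  rw [h2, sub_self]

theorem closed_circle {ω : V2 → V2 →L[ℝ] ℝ} (h1 : ∀ u : V2, ‖u‖ ≤ 1 → ContDiffAt ℝ 1 ω u)
    (hs : ∀ u : V2, ‖u‖ < 1 → ∀ a b : V2, fderiv ℝ ω u a b = fderiv ℝ ω u b a) :
    ∫ ψ in (0 : ℝ)..(2 * Real.pi), ω (cu ψ) (rot (cu ψ)) = 0 := by
  set c : ℝ → ℝ := fun r => max 0 (min r 1) with hc
  have hcc : Continuous c := by fun_prop
  have hc0 : ∀ r, 0 ≤ c r := fun r => le_max_left _ _
  have hc1 : ∀ r, c r ≤ 1 := fun r => max_le zero_le_one (min_le_right _ _)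
  set G : ℝ → ℝ := fun r => ∫ ψ in (0 : ℝ)..(2 * Real.pi), ω (c r • cu ψ) (c r • rot (cu ψ)) with hG
  have hcr : Continuous (fun q : ℝ × ℝ => c q.1 • cu q.2) :=
    (hcc.comp continuous_fst).smul (GRN_cont_cu.comp continuous_snd)
  have hcr' : Continuous (fun q : ℝ × ℝ => c q.1 • rot (cu q.2)) :=
    (hcc.comp continuous_fst).smul (GRN_cont_rot.comp continuous_snd)
  have hn : ∀ q : ℝ × ℝ, ‖c q.1 • cu q.2‖ ≤ 1 := by
    intro q
    rw [norm_smul, GRN_norm_cu, mul_one, Real.norm_eq_abs, abs_of_nonneg (hc0 _)]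
    exact hc1 _
  have hcw : Continuous (fun q : ℝ × ℝ => ω (c q.1 • cu q.2)) := by
    rw [continuous_iff_continuousAt]
    intro q
    exact ContinuousAt.comp (f := fun q : ℝ × ℝ => c q.1 • cu q.2) (h1 _ (hn q)).continuousAt
      hcr.continuousAt
  have hcF : Continuous (fun q : ℝ × ℝ => ω (c q.1 • cu q.2) (c q.1 • rot (cu q.2))) :=
    hcw.clm_apply hcr'
  have hGc : Continuous G := by
    apply intervalIntegral.continuous_parametric_intervalIntegral_of_continuous'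
    exact hcF
  have hG0 : ∀ r : ℝ, r < 1 → G r = 0 := by
    intro r hr
    rw [hG]
    apply GRN_radius h1 hs (hc0 r)
    rw [hc]
    exact max_lt one_pos (lt_of_le_of_lt (min_le_left _ _) hr)
  have hG1 : G 1 = 0 := by
    have h2 : Tendsto G (𝓝[<] 1) (𝓝 (G 1)) := hGc.continuousAt.tendsto.mono_left nhdsWithin_le_nhds
    have h3 : Tendsto G (𝓝[<] 1) (𝓝 0) := by
      apply tendsto_const_nhds.congr'
      filter_upwards [self_mem_nhdsWithin] with r (hr : r < 1)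
      exact (hG0 r hr).symm
    exact tendsto_nhds_unique h2 h3
  rw [hG] at hG1
  simpa [hc] using hG1

end Pool.Agent.H99.SC

end S_GRN

section S_RAD

/-!
# RAD: sign of a function vanishing on the unit circle

`rad`: `F : ℝ → V2 → ℝ` (a parameter `φ` near `φ₀`), `F φ` differentiable near `u₀` for `φ` near `φ₀`,
the derivative jointly continuous at `(φ₀, u₀)`, `F φ u = 0` for `‖u‖ = 1`, and
`D (F φ₀) u₀ u₀ < 0`.  Then near `(φ₀, u₀)`: `F > 0` inside and `F < 0` outside the unit circle.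
Proof: `û = u/‖u‖`; on the segment from `û` to `u` the derivative of `F φ` in the direction `û` is
`< 0` (joint continuity, `û` close to `u₀`); mean value theorem for `s ↦ F φ (s û)` between `‖u‖` and 1.

`rad1`: the case without parameter.
`radP`: same for a function on the horizontal plane vanishing on the unit circle
(`y ↦ y/|y|`, derivative in the direction `p` negative).
-/


open scoped RealInnerProductSpace Topology
open Metric Filter Set


namespace Pool.Agent.H99.SC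

theorem rad {F : ℝ → V2 → ℝ} {φ₀ : ℝ} {u₀ : V2} (hu₀ : ‖u₀‖ = 1)
    (hd : ∀ᶠ q : ℝ × V2 in 𝓝 (φ₀, u₀), DifferentiableAt ℝ (F q.1) q.2)
    (hc : ContinuousAt (fun q : ℝ × V2 => fderiv ℝ (F q.1) q.2) (φ₀, u₀))
    (h0 : ∀ᶠ q : ℝ × V2 in 𝓝 (φ₀, u₀), ‖q.2‖ = 1 → F q.1 q.2 = 0)
    (hr : fderiv ℝ (F φ₀) u₀ u₀ < 0) :
    ∀ᶠ q : ℝ × V2 in 𝓝 (φ₀, u₀), (‖q.2‖ < 1 → 0 < F q.1 q.2) ∧ (1 < ‖q.2‖ → F q.1 q.2 < 0) := by
  have hc2 : ContinuousAt (fun p : (ℝ × V2) × V2 => fderiv ℝ (F p.1.1) p.1.2 p.2)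
      ((φ₀, u₀), u₀) := by
    have h1 : ContinuousAt (fun p : (ℝ × V2) × V2 => fderiv ℝ (F p.1.1) p.1.2)
        ((φ₀, u₀), u₀) := ContinuousAt.comp (g := fun q : ℝ × V2 => fderiv ℝ (F q.1) q.2)
          (f := fun p : (ℝ × V2) × V2 => p.1) hc continuousAt_fst
    exact h1.clm_apply continuousAt_snd
  have hev : ∀ᶠ p : (ℝ × V2) × V2 in 𝓝 ((φ₀, u₀), u₀), fderiv ℝ (F p.1.1) p.1.2 p.2 < 0 :=
    hc2.eventually (gt_mem_nhds hr)
  obtain ⟨δ1, hδ1, h1⟩ := Metric.eventually_nhds_iff.1 hev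
  obtain ⟨δ2, hδ2, h2⟩ := Metric.eventually_nhds_iff.1 (hd.and h0)
  set δ : ℝ := min (min δ1 δ2) 1 with hδ
  have hδ0 : 0 < δ := by positivity
  have hδa : δ ≤ δ1 := (min_le_left _ _).trans (min_le_left _ _)
  have hδb : δ ≤ δ2 := (min_le_left _ _).trans (min_le_right _ _)
  have hδc : δ ≤ 1 := min_le_right _ _
  have hneg : ∀ φ : ℝ, ∀ v w : V2, |φ - φ₀| < δ → ‖v - u₀‖ < δ → ‖w - u₀‖ < δ →
      fderiv ℝ (F φ) v w < 0 := by
    intro φ v w ha hb hc
    refine h1 (y := ((φ, v), w)) ?_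
    rw [Prod.dist_eq, Prod.dist_eq, Real.dist_eq, dist_eq_norm, dist_eq_norm]
    exact max_lt (max_lt (ha.trans_le hδa) (hb.trans_le hδa)) (hc.trans_le hδa)
  have hdiff : ∀ φ : ℝ, ∀ v : V2, |φ - φ₀| < δ → ‖v - u₀‖ < δ →
      DifferentiableAt ℝ (F φ) v ∧ (‖v‖ = 1 → F φ v = 0) := by
    intro φ v ha hb
    refine h2 (y := (φ, v)) ?_
    rw [Prod.dist_eq, Real.dist_eq, dist_eq_norm]
    exact max_lt (ha.trans_le hδb) (hb.trans_le hδb)
  have hmain : ∀ φ : ℝ, ∀ u : V2, |φ - φ₀| < δ / 4 → ‖u - u₀‖ < δ / 4 →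
      (‖u‖ < 1 → 0 < F φ u) ∧ (1 < ‖u‖ → F φ u < 0) := by
    intro φ u hφ hu
    have hun : |‖u‖ - 1| < δ / 4 := by
      rw [← hu₀]
      exact (abs_norm_sub_norm_le _ _).trans_lt hu
    have hun' := abs_lt.1 hun
    have hupos : 0 < ‖u‖ := by linarith
    set v : V2 := ‖u‖⁻¹ • u with hv
    have huv : ‖u‖ • v = u := by
      rw [hv, smul_smul, mul_inv_cancel₀ hupos.ne', one_smul]
    have hvn : ‖v‖ = 1 := by
      rw [hv, norm_smul, norm_inv, norm_norm, inv_mul_cancel₀ hupos.ne']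
    have hvu : ‖v - u₀‖ < δ / 2 := by
      have e : v - u₀ = (1 - ‖u‖) • v + (u - u₀) := by
        rw [sub_smul, one_smul, huv]
        abel
      rw [e]
      refine (norm_add_le _ _).trans_lt ?_
      rw [norm_smul, hvn, mul_one, Real.norm_eq_abs, abs_sub_comm]
      linarith
    have hsv : ∀ s ∈ Icc (1 - δ / 4) (1 + δ / 4), ‖s • v - u₀‖ < δ := by
      intro s hs
      have e : s • v - u₀ = (s - 1) • v + (v - u₀) := by
        rw [sub_smul, one_smul]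
        abel
      rw [e]
      refine (norm_add_le _ _).trans_lt ?_
      rw [norm_smul, hvn, mul_one, Real.norm_eq_abs]
      have : |s - 1| ≤ δ / 4 := abs_le.2 ⟨by linarith [hs.1], by linarith [hs.2]⟩
      linarith
    have hφ' : |φ - φ₀| < δ := by linarith
    have hder : ∀ s ∈ Icc (1 - δ / 4) (1 + δ / 4),
        HasDerivAt (fun s : ℝ => F φ (s • v)) (fderiv ℝ (F φ) (s • v) v) s := by
      intro s hs
      have hline : HasDerivAt (fun s : ℝ => s • v) v s := by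
        simpa using (hasDerivAt_id s).smul_const v
      exact (hdiff φ _ hφ' (hsv s hs)).1.hasFDerivAt.comp_hasDerivAt s hline
    have hanti : StrictAntiOn (fun s : ℝ => F φ (s • v)) (Icc (1 - δ / 4) (1 + δ / 4)) := by
      refine strictAntiOn_of_deriv_neg (convex_Icc _ _)
        (fun s hs => (hder s hs).continuousAt.continuousWithinAt) fun s hs => ?_
      rw [interior_Icc] at hs
      have hs' : s ∈ Icc (1 - δ / 4) (1 + δ / 4) := ⟨hs.1.le, hs.2.le⟩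
      rw [(hder s hs').deriv]
      exact hneg φ _ _ hφ' (hsv s hs') (by linarith)
    have hone : (1 : ℝ) ∈ Icc (1 - δ / 4) (1 + δ / 4) := ⟨by linarith, by linarith⟩
    have hnmem : ‖u‖ ∈ Icc (1 - δ / 4) (1 + δ / 4) := ⟨by linarith, by linarith⟩
    have hF1 : F φ ((1 : ℝ) • v) = 0 := by
      rw [one_smul]
      exact (hdiff φ v hφ' (by linarith)).2 hvn
    constructor
    · intro h
      have := hanti hnmem hone h
      simp only [huv] at this
      rw [hF1] at this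
      exact this
    · intro h
      have := hanti hone hnmem h
      simp only [huv] at this
      rw [hF1] at this
      exact this
  rw [Metric.eventually_nhds_iff]
  refine ⟨δ / 4, by positivity, fun {q} hq => ?_⟩
  rw [Prod.dist_eq, Real.dist_eq, dist_eq_norm] at hq
  exact hmain q.1 q.2 (lt_of_le_of_lt (le_max_left _ _) hq) (lt_of_le_of_lt (le_max_right _ _) hq)

theorem rad1 {F : V2 → ℝ} {u₀ : V2} (hu₀ : ‖u₀‖ = 1) (hF : ContDiffAt ℝ 1 F u₀)
    (h0 : ∀ᶠ u in 𝓝 u₀, ‖u‖ = 1 → F u = 0) (hr : fderiv ℝ F u₀ u₀ < 0) :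
    ∀ᶠ u in 𝓝 u₀, (‖u‖ < 1 → 0 < F u) ∧ (1 < ‖u‖ → F u < 0) := by
  have hsnd : Tendsto (fun q : ℝ × V2 => q.2) (𝓝 ((0 : ℝ), u₀)) (𝓝 u₀) := continuousAt_snd
  have h1 : ∀ᶠ u in 𝓝 u₀, DifferentiableAt ℝ F u := by
    filter_upwards [hF.eventually (by simp)] with u hu
    exact hu.differentiableAt (by norm_num)
  have h2 : ContinuousAt (fderiv ℝ F) u₀ :=
    (hF.fderiv_right (m := 0) (by norm_num)).continuousAt
  have key := rad (F := fun _ => F) (φ₀ := 0) hu₀ (hsnd.eventually h1)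
    (ContinuousAt.comp (g := fderiv ℝ F) (f := fun q : ℝ × V2 => q.2) h2 continuousAt_snd)
    (hsnd.eventually h0) hr
  have hin : Tendsto (fun u : V2 => ((0 : ℝ), u)) (𝓝 u₀) (𝓝 ((0 : ℝ), u₀)) :=
    Continuous.tendsto (by fun_prop) _
  exact hin.eventually key

/-- the inclusion of the horizontal plane -/
def RAD_L : V2 →L[ℝ] V3 :=
  (EuclideanSpace.proj (0 : Fin 2)).smulRight (EuclideanSpace.single 0 1 : V3) +
    (EuclideanSpace.proj (1 : Fin 2)).smulRight (EuclideanSpace.single 1 1 : V3)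

theorem RAD_L_0 (u : V2) : (RAD_L u) 0 = u 0 := by simp [RAD_L]
theorem RAD_L_1 (u : V2) : (RAD_L u) 1 = u 1 := by simp [RAD_L]
theorem RAD_L_2 (u : V2) : (RAD_L u) 2 = 0 := by simp [RAD_L]

theorem radP {f : V3 → ℝ} {p : V3} (h2 : p 2 = 0) (h1 : p 0 ^ 2 + p 1 ^ 2 = 1)
    (hf : ContDiffAt ℝ 1 f p)
    (h0 : ∀ᶠ y in 𝓝 p, y 2 = 0 → y 0 ^ 2 + y 1 ^ 2 = 1 → f y = 0) (hr : fderiv ℝ f p p < 0) :
    ∀ᶠ y in 𝓝 p, y 2 = 0 → (y 0 ^ 2 + y 1 ^ 2 < 1 → 0 < f y) ∧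
      (1 < y 0 ^ 2 + y 1 ^ 2 → f y < 0) := by
  set P : V3 → V2 := fun y => !₂[y 0, y 1] with hP
  have hP0 : ∀ y, P y 0 = y 0 := fun y => by simp [hP]
  have hP1 : ∀ y, P y 1 = y 1 := fun y => by simp [hP]
  have hPc : Continuous P := by
    simp only [hP]
    fun_prop
  have hLP : ∀ y : V3, y 2 = 0 → RAD_L (P y) = y := by
    intro y hy
    apply ext3
    · rw [RAD_L_0, hP0]
    · rw [RAD_L_1, hP1]
    · rw [RAD_L_2, hy]
  have hnorm : ∀ y : V3, ‖P y‖ ^ 2 = y 0 ^ 2 + y 1 ^ 2 := fun y => by rw [nsq2, hP0, hP1]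
  have hLp : RAD_L (P p) = p := hLP p h2
  have hu₀ : ‖P p‖ = 1 := by
    have := hnorm p
    rw [h1] at this
    nlinarith [norm_nonneg (P p)]
  have hf' : ContDiffAt ℝ 1 f (RAD_L (P p)) := by rwa [hLp]
  have hF : ContDiffAt ℝ 1 (fun u => f (RAD_L u)) (P p) :=
    hf'.comp (P p) RAD_L.contDiff.contDiffAt
  have hLc : Tendsto RAD_L (𝓝 (P p)) (𝓝 p) := by
    have := RAD_L.continuous.tendsto (P p)
    rwa [hLp] at this
  have hder : fderiv ℝ (fun u => f (RAD_L u)) (P p) (P p) = fderiv ℝ f p p := by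
    have e1 : HasFDerivAt (fun u => f (RAD_L u)) ((fderiv ℝ f (RAD_L (P p))).comp RAD_L) (P p) :=
      (hf'.differentiableAt (by norm_num)).hasFDerivAt.comp (P p) RAD_L.hasFDerivAt
    rw [e1.fderiv, ContinuousLinearMap.comp_apply, hLp]
  have key := rad1 (F := fun u => f (RAD_L u)) hu₀ hF (by
    filter_upwards [hLc.eventually h0] with u hu hu1
    refine hu (RAD_L_2 u) ?_
    rw [RAD_L_0, RAD_L_1, ← nsq2, hu1]
    norm_num) (by rw [hder]; exact hr)
  have hPt : Tendsto P (𝓝 p) (𝓝 (P p)) := hPc.tendsto p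
  filter_upwards [hPt.eventually key] with y hy hy2
  have e := hLP y hy2
  simp only [e] at hy
  have hn := hnorm y
  constructor
  · intro h
    refine hy.1 ?_
    rw [← hn] at h
    nlinarith [norm_nonneg (P y)]
  · intro h
    refine hy.2 ?_
    rw [← hn] at h
    nlinarith [norm_nonneg (P y)]

end Pool.Agent.H99.SC

end S_RAD

section S_PAR

/-!
# PAR: functions with a parameter

`par`: `Φ : ℝ × V2 → ℝ` C^2 at `(φ₀,u₀)`.  Near `(φ₀,u₀)`: `u ↦ Φ (φ,u)` is C^2, its derivative is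
`(fderiv Φ (φ,u)).comp (inr ℝ ℝ V2)`, which is C^1 in `(φ,u)`, and its second derivative is
`a ↦ (fderiv (fderiv Φ) (φ,u) (0,a)).comp (inr ..)`, continuous in `(φ,u)`.
(`ContDiffAt.eventually`, `HasFDerivAt.comp` with `u ↦ (φ,u)` whose derivative is `inr`; for the second derivative:
for fixed `φ` the derivative is equal near `u` to `u' ↦ L (fderiv Φ (φ,u'))`, `L = precomposition with inr`,
`ContinuousLinearMap.compL ..flip`.)
`rad_par`: `rad` of file RAD for `F φ u = Φ (φ,u)`.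
-/


open scoped RealInnerProductSpace Topology
open Metric Filter Set


namespace Pool.Agent.H99.SC

/-- precomposition with the inclusion of the second factor -/
def PAR_L : ((ℝ × V2) →L[ℝ] ℝ) →L[ℝ] (V2 →L[ℝ] ℝ) :=
  (ContinuousLinearMap.compL ℝ V2 (ℝ × V2) ℝ).flip (ContinuousLinearMap.inr ℝ ℝ V2)

theorem PAR_L_apply (A : (ℝ × V2) →L[ℝ] ℝ) :
    PAR_L A = A.comp (ContinuousLinearMap.inr ℝ ℝ V2) := rfl

theorem PAR_fd {Φ : ℝ × V2 → ℝ} {q : ℝ × V2} (h : DifferentiableAt ℝ Φ q) :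
    fderiv ℝ (fun u => Φ (q.1, u)) q.2 = PAR_L (fderiv ℝ Φ q) := by
  have h1 : HasFDerivAt (fun u : V2 => (q.1, u)) (ContinuousLinearMap.inr ℝ ℝ V2) q.2 :=
    hasFDerivAt_prodMk_right q.1 q.2
  have h2 : HasFDerivAt Φ (fderiv ℝ Φ q) (q.1, q.2) := h.hasFDerivAt
  have h3 : HasFDerivAt (fun u => Φ (q.1, u))
      ((fderiv ℝ Φ q).comp (ContinuousLinearMap.inr ℝ ℝ V2)) q.2 :=
    HasFDerivAt.comp (g := Φ) (f := fun u : V2 => (q.1, u)) q.2 h2 h1
  rw [h3.fderiv, PAR_L_apply]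

theorem par {Φ : ℝ × V2 → ℝ} {φ₀ : ℝ} {u₀ : V2} (h : ContDiffAt ℝ 2 Φ (φ₀, u₀)) :
    (∀ᶠ q : ℝ × V2 in 𝓝 (φ₀, u₀), ContDiffAt ℝ 2 (fun u => Φ (q.1, u)) q.2) ∧
    ContinuousAt (fun q : ℝ × V2 => fderiv ℝ (fun u => Φ (q.1, u)) q.2) (φ₀, u₀) ∧
    ContinuousAt (fun q : ℝ × V2 => fderiv ℝ (fderiv ℝ (fun u => Φ (q.1, u))) q.2) (φ₀, u₀) := by
  have hev : ∀ᶠ q : ℝ × V2 in 𝓝 (φ₀, u₀), ContDiffAt ℝ 2 Φ q := h.eventually (by simp)
  have hC1 : ContDiffAt ℝ 1 (fderiv ℝ Φ) (φ₀, u₀) := contDiffAt_fderiv h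
  refine ⟨?_, ?_, ?_⟩
  · filter_upwards [hev] with q hq
    have h1 : ContDiffAt ℝ 2 (fun u : V2 => (q.1, u)) q.2 := by fun_prop
    exact ContDiffAt.comp (g := Φ) (f := fun u : V2 => (q.1, u)) q.2 hq h1
  · have h1 : ContinuousAt (fun q : ℝ × V2 => PAR_L (fderiv ℝ Φ q)) (φ₀, u₀) :=
      PAR_L.continuous.continuousAt.comp hC1.continuousAt
    refine h1.congr ?_
    filter_upwards [hev] with q hq
    exact (PAR_fd (hq.differentiableAt (by norm_num))).symm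
  · have h2 : ContinuousAt (fderiv ℝ (fderiv ℝ Φ)) (φ₀, u₀) :=
      hC1.continuousAt_fderiv one_ne_zero
    have h1 : ContinuousAt (fun q : ℝ × V2 =>
        PAR_L.comp ((fderiv ℝ (fderiv ℝ Φ) q).comp (ContinuousLinearMap.inr ℝ ℝ V2)))
        (φ₀, u₀) :=
      continuousAt_const.clm_comp (h2.clm_comp continuousAt_const)
    refine h1.congr ?_
    filter_upwards [hev.eventually_nhds] with q hq
    have h3 : (fderiv ℝ fun u => Φ (q.1, u)) =ᶠ[𝓝 q.2] fun u => PAR_L (fderiv ℝ Φ (q.1, u)) := by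
      have hc : ContinuousAt (fun u : V2 => (q.1, u)) q.2 := by fun_prop
      have h4 : ∀ᶠ u in 𝓝 q.2, ContDiffAt ℝ 2 Φ (q.1, u) := hc.eventually hq
      filter_upwards [h4] with u hu
      exact PAR_fd (q := (q.1, u)) (hu.differentiableAt (by norm_num))
    have hq0 : ContDiffAt ℝ 2 Φ q := hq.self_of_nhds
    have h5 : HasFDerivAt (fderiv ℝ Φ) (fderiv ℝ (fderiv ℝ Φ) q) (q.1, q.2) :=
      ((contDiffAt_fderiv hq0).differentiableAt one_ne_zero).hasFDerivAt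
    have h6 : HasFDerivAt (fun u : V2 => (q.1, u)) (ContinuousLinearMap.inr ℝ ℝ V2) q.2 :=
      hasFDerivAt_prodMk_right q.1 q.2
    have h7 : HasFDerivAt (fun u => fderiv ℝ Φ (q.1, u))
        ((fderiv ℝ (fderiv ℝ Φ) q).comp (ContinuousLinearMap.inr ℝ ℝ V2)) q.2 :=
      HasFDerivAt.comp (g := fderiv ℝ Φ) (f := fun u : V2 => (q.1, u)) q.2 h5 h6
    have h8 : HasFDerivAt (fun u => PAR_L (fderiv ℝ Φ (q.1, u)))
        (PAR_L.comp ((fderiv ℝ (fderiv ℝ Φ) q).comp (ContinuousLinearMap.inr ℝ ℝ V2))) q.2 :=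
      PAR_L.hasFDerivAt.comp q.2 h7
    rw [h3.fderiv_eq, h8.fderiv]

theorem rad_par {Φ : ℝ × V2 → ℝ} {φ₀ : ℝ} {u₀ : V2} (hu₀ : ‖u₀‖ = 1)
    (h : ContDiffAt ℝ 2 Φ (φ₀, u₀)) (h0 : ∀ᶠ q : ℝ × V2 in 𝓝 (φ₀, u₀), ‖q.2‖ = 1 → Φ q = 0)
    (hr : fderiv ℝ (fun u => Φ (φ₀, u)) u₀ u₀ < 0) :
    ∀ᶠ q : ℝ × V2 in 𝓝 (φ₀, u₀), ‖q.2‖ < 1 → 0 < Φ q := by
  obtain ⟨h1, h2, -⟩ := par h
  have h3 := rad (F := fun φ u => Φ (φ, u)) hu₀
    (h1.mono fun q hq => hq.differentiableAt (by norm_num)) h2 h0 hr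
  filter_upwards [h3] with q hq
  exact hq.1

end Pool.Agent.H99.SC

end S_PAR
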