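import Mathlib
import Pool.Agent.H99.SCM.M1

/-! Star-shaped CMC discs (S14043), file M2: joins several modules to save build time. -/

set_option autoImplicit false

noncomputable section

section S_HOPF

/-!
# HOPF: the boundary point lemma in the plane

`w` is C^2 near `x₀`, positive in the ball `B = ball (x₀ + R ν) R` (so `x₀` is on its boundary),
`w x₀ = 0`, and `Ell A B C w ≤ K |Dw|` in `B` near `x₀`, coefficients continuous and positive
definite at `x₀`.  Then the derivative in the direction `ν` is positive.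

Proof.  Replace `R` by a small `R' ≤ R/2` (`ball (x₀ + R' ν) R' ⊆ ball (x₀ + R ν) R` and its
closure meets the sphere of the big ball only at `x₀`), so that on `closedBall c R'`, `c = x₀ + R' ν`:
`w` is C^2, the coefficients satisfy `A x^2 + 2 B x y + C y^2 >= l (x^2 + y^2)`, `|A|,|B|,|C| <= L`
(constants from continuity), the inequality holds in the open ball, and `w > 0` on
`closedBall c R' \ {x₀}`.  Let `v x = exp (-a |x-c|^2) - exp (-a R'^2)`.
`fderiv v x h = -2 a <x-c,h> exp(..)`,  `D2 v x h k = (4 a^2 <x-c,h><x-c,k> - 2 a <h,k>) exp(..)`, so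
`Ell v >= exp(..) (4 a^2 l |x-c|^2 - 4 a L)` and `K |Dv| <= exp(..) 2 a |K| |x-c|`: for `a` large
`Ell v > K |Dv|` and also `Ell v > |K| |Dv|` on `R'/2 <= |x-c| <= R'`.  On `|x-c| = R'/2` we have `w >= m > 0`; choose `e > 0` with
`e v <= m` there.  Let `x1` be a minimum of `w - e v` on the compact annulus.  If the minimum is
negative then `x1` is in the open annulus (`w - e v >= 0` on both boundary circles), so
`Dw = e Dv` at `x1` and `Ell (w - e v) x1 >= 0` (`Ell_nonneg_of_isLocalMin`), i.e.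
`Ell w x1 >= e Ell v x1 > e |K| |Dv| >= K |Dw|` at `x1`: contradiction.  So `w >= e v` on the annulus
and, moving from `x₀` in the direction `ν`,
`Dw(x₀) ν >= e Dv(x₀) ν = 2 a e R' exp (-a R'^2) > 0`.
(One may assume `K >= 0` by replacing `K` by `|K|`.)
-/


open scoped RealInnerProductSpace Topology
open Metric Filter Set


namespace Pool.Agent.H99.SC

/-- the barrier -/
private def HOPF_v (a b : ℝ) (c x : V2) : ℝ := Real.exp (-a * ‖x - c‖ ^ 2) - b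

private theorem HOPF_exp (a : ℝ) (c x : V2) :
    HasFDerivAt (fun x : V2 => Real.exp (-a * ‖x - c‖ ^ 2))
      (Real.exp (-a * ‖x - c‖ ^ 2) • ((-2 * a) • innerSL ℝ (x - c))) x := by
  have h1 : HasFDerivAt (fun x : V2 => ‖x - c‖ ^ 2) (2 • innerSL ℝ (x - c)) x := by
    have h2 := (hasStrictFDerivAt_norm_sq (x - c)).hasFDerivAt
    have h3 : HasFDerivAt (fun x : V2 => x - c) (ContinuousLinearMap.id ℝ V2) x :=
      (hasFDerivAt_id x).sub_const c
    have h4 := h2.comp x h3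
    rw [ContinuousLinearMap.comp_id] at h4
    exact h4
  have h2 := (h1.const_mul (-a)).exp
  have h3 : Real.exp (-a * ‖x - c‖ ^ 2) • ((-2 * a) • innerSL ℝ (x - c)) =
      Real.exp (-a * ‖x - c‖ ^ 2) • (-a • (2 • innerSL ℝ (x - c))) := by
    ext h
    simp
    ring
  rw [h3]
  exact h2

private theorem HOPF_v_fderiv (a b : ℝ) (c x : V2) :
    HasFDerivAt (HOPF_v a b c) (Real.exp (-a * ‖x - c‖ ^ 2) • ((-2 * a) • innerSL ℝ (x - c))) x :=
  (HOPF_exp a c x).sub_const b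

private theorem HOPF_v_cd (a b : ℝ) (c : V2) : ContDiff ℝ 2 (HOPF_v a b c) := by
  unfold HOPF_v
  exact ((contDiff_const.mul ((contDiff_id.sub contDiff_const).norm_sq ℝ)).exp).sub contDiff_const

private theorem HOPF_v_D2 (a b : ℝ) (c x h k : V2) :
    D2 (HOPF_v a b c) x h k = Real.exp (-a * ‖x - c‖ ^ 2) *
      (4 * a ^ 2 * ⟪x - c, h⟫ * ⟪x - c, k⟫ - 2 * a * ⟪h, k⟫) := by
  have h1 : fderiv ℝ (HOPF_v a b c) =
      fun x => Real.exp (-a * ‖x - c‖ ^ 2) • ((-2 * a) • innerSL ℝ (x - c)) := by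
    funext x
    exact (HOPF_v_fderiv a b c x).fderiv
  have h2 : HasFDerivAt (fun x : V2 => (-2 * a) • innerSL ℝ (x - c))
      ((-2 * a) • (innerSL ℝ : V2 →L[ℝ] V2 →L[ℝ] ℝ)) x := by
    have h3 : HasFDerivAt (fun x : V2 => x - c) (ContinuousLinearMap.id ℝ V2) x :=
      (hasFDerivAt_id x).sub_const c
    have h4 := ((innerSL ℝ : V2 →L[ℝ] V2 →L[ℝ] ℝ).hasFDerivAt (x := x - c)).comp x h3
    rw [ContinuousLinearMap.comp_id] at h4
    exact h4.const_smul (-2 * a)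
  have h3 : HasFDerivAt (fun x : V2 =>
      Real.exp (-a * ‖x - c‖ ^ 2) • ((-2 * a) • innerSL ℝ (x - c))) _ x :=
    (HOPF_exp a c x).smul h2
  unfold D2
  rw [h1]
  rw [h3.fderiv]
  show Real.exp (-a * ‖x - c‖ ^ 2) * ((-2 * a) * ⟪h, k⟫) +
    (Real.exp (-a * ‖x - c‖ ^ 2) * ((-2 * a) * ⟪x - c, h⟫)) * ((-2 * a) * ⟪x - c, k⟫) = _
  ring

private theorem HOPF_in0 (y : V2) : ⟪y, e0⟫ = y 0 := by rw [ip2]; simp
private theorem HOPF_in1 (y : V2) : ⟪y, e1⟫ = y 1 := by rw [ip2]; simp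

private theorem HOPF_Ell (A B C : V2 → ℝ) (a b : ℝ) (c x : V2) :
    Ell A B C (HOPF_v a b c) x = Real.exp (-a * ‖x - c‖ ^ 2) *
      (4 * a ^ 2 * (A x * (x - c) 0 ^ 2 + 2 * B x * (x - c) 0 * (x - c) 1 + C x * (x - c) 1 ^ 2) -
        2 * a * (A x + C x)) := by
  unfold Ell
  rw [HOPF_v_D2, HOPF_v_D2, HOPF_v_D2, HOPF_in0, HOPF_in1, HOPF_in0, HOPF_in1, HOPF_in1]
  rw [e0_0, e0_1, e1_1]
  ring

private theorem HOPF_norm (a b : ℝ) (ha : 0 < a) (c x : V2) :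
    ‖fderiv ℝ (HOPF_v a b c) x‖ = Real.exp (-a * ‖x - c‖ ^ 2) * (2 * a * ‖x - c‖) := by
  rw [(HOPF_v_fderiv a b c x).fderiv, norm_smul, norm_smul, innerSL_apply_norm, Real.norm_eq_abs,
    Real.norm_eq_abs, abs_of_pos (Real.exp_pos _), abs_mul, abs_of_pos ha]
  norm_num

/-- `Ell v > |K| |Dv|` -/
private theorem HOPF_bar {A B C : V2 → ℝ} {a b l L K r : ℝ} {c x : V2} (ha : 0 < a) (hl : 0 < l)
    (hr : 0 < r)
    (hq : ∀ s t : ℝ, l * (s ^ 2 + t ^ 2) ≤ A x * s ^ 2 + 2 * B x * s * t + C x * t ^ 2)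
    (hL : A x + C x ≤ L) (haL : L + |K| * r < a * (l * r ^ 2 / 2)) (hx1 : r / 2 ≤ ‖x - c‖)
    (hx2 : ‖x - c‖ ≤ r) :
    |K| * ‖fderiv ℝ (HOPF_v a b c) x‖ < Ell A B C (HOPF_v a b c) x := by
  rw [HOPF_Ell, HOPF_norm a b ha]
  have hE := Real.exp_pos (-a * ‖x - c‖ ^ 2)
  have h1 := hq ((x - c) 0) ((x - c) 1)
  rw [← nsq2] at h1
  have h2 : (r / 2) ^ 2 ≤ ‖x - c‖ ^ 2 := by gcongr
  have h3 : |K| * ‖x - c‖ ≤ |K| * r := by gcongr
  have h4 : l * (r / 2) ^ 2 ≤ l * ‖x - c‖ ^ 2 := by gcongr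
  have h5 : |K| * (2 * a * ‖x - c‖) < 4 * a ^ 2 * (A x * (x - c) 0 ^ 2 +
      2 * B x * (x - c) 0 * (x - c) 1 + C x * (x - c) 1 ^ 2) - 2 * a * (A x + C x) := by
    have h6 : a * (l * (r / 2) ^ 2) ≤ a * (A x * (x - c) 0 ^ 2 +
      2 * B x * (x - c) 0 * (x - c) 1 + C x * (x - c) 1 ^ 2) := by
      gcongr
      linarith
    nlinarith
  calc |K| * (Real.exp (-a * ‖x - c‖ ^ 2) * (2 * a * ‖x - c‖))
      = Real.exp (-a * ‖x - c‖ ^ 2) * (|K| * (2 * a * ‖x - c‖)) := by ring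
    _ < _ := by gcongr

private theorem HOPF_def {p q s l : ℝ} (h1 : l < p) (h2 : q ^ 2 < (p - l) * (s - l)) (x y : ℝ) :
    l * (x ^ 2 + y ^ 2) ≤ p * x ^ 2 + 2 * q * x * y + s * y ^ 2 := by
  have h3 : (p - l) * ((p - l) * x ^ 2 + 2 * q * x * y + (s - l) * y ^ 2) =
      ((p - l) * x + q * y) ^ 2 + ((p - l) * (s - l) - q ^ 2) * y ^ 2 := by ring
  have h4 : 0 ≤ (p - l) * ((p - l) * x ^ 2 + 2 * q * x * y + (s - l) * y ^ 2) := by
    rw [h3]
    exact add_nonneg (sq_nonneg _) (mul_nonneg (by linarith) (sq_nonneg _))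
  have h5 : 0 ≤ (p - l) * x ^ 2 + 2 * q * x * y + (s - l) * y ^ 2 :=
    nonneg_of_mul_nonneg_right h4 (by linarith)
  linarith

private theorem HOPF_def2 {p q s l : ℝ} (hl : 0 < l) (h1 : l < p)
    (h2 : q ^ 2 < (p - l) * (s - l)) : q ^ 2 < p * s := by
  have h3 : 0 < s - l := by
    by_contra hcon
    push Not at hcon
    nlinarith [sq_nonneg q]
  nlinarith

private theorem HOPF_key {A B C w : V2 → ℝ} {K l L r a m : ℝ} {c : V2} (hr : 0 < r) (hl : 0 < l)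
    (ha : 0 < a) (hm : 0 < m) (haL : L + |K| * r < a * (l * r ^ 2 / 2))
    (h : ∀ x, ‖x - c‖ ≤ r → ContDiffAt ℝ 2 w x ∧ l < A x ∧ B x ^ 2 < (A x - l) * (C x - l) ∧
      A x + C x < L ∧ (‖x - c‖ < r → Ell A B C w x ≤ K * ‖fderiv ℝ w x‖))
    (hwT : ∀ x, ‖x - c‖ ≤ r → 0 ≤ w x) (hzmin : ∀ x, ‖x - c‖ ≤ r / 2 → m ≤ w x) :
    ∀ x, r / 2 ≤ ‖x - c‖ → ‖x - c‖ ≤ r →
      m * HOPF_v a (Real.exp (-a * r ^ 2)) c x ≤ w x := by
  set b : ℝ := Real.exp (-a * r ^ 2) with hb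
  have hbp : 0 < b := Real.exp_pos _
  have hv1 : ∀ x, HOPF_v a b c x ≤ 1 := by
    intro x
    unfold HOPF_v
    have : Real.exp (-a * ‖x - c‖ ^ 2) ≤ 1 := by
      rw [Real.exp_le_one_iff]
      have := mul_nonneg ha.le (sq_nonneg ‖x - c‖)
      linarith
    linarith
  have hcw : ContinuousOn w (closedBall c r) := by
    intro x hx
    rw [mem_closedBall, dist_eq_norm] at hx
    exact (h x hx).1.continuousAt.continuousWithinAt
  by_contra hcon
  push Not at hcon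
  obtain ⟨x2, hx21, hx22, hx2⟩ := hcon
  have hT : IsCompact (closedBall c r ∩ {x | r / 2 ≤ ‖x - c‖}) :=
    (isCompact_closedBall c r).inter_right (isClosed_le continuous_const (by fun_prop))
  have hgc : ContinuousOn (fun x => w x - m * HOPF_v a b c x)
      (closedBall c r ∩ {x | r / 2 ≤ ‖x - c‖}) :=
    (hcw.mono inter_subset_left).sub
      (((HOPF_v_cd a b c).continuous.const_mul m).continuousOn)
  obtain ⟨x1, hx1, hmin⟩ := hT.exists_isMinOn ⟨x2, by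
    rw [mem_closedBall, dist_eq_norm]; exact hx22, hx21⟩ hgc
  have hx1r : ‖x1 - c‖ ≤ r := by
    have := hx1.1
    rwa [mem_closedBall, dist_eq_norm] at this
  have hx1l : r / 2 ≤ ‖x1 - c‖ := hx1.2
  have hneg : w x1 - m * HOPF_v a b c x1 < 0 := by
    have h1 : w x1 - m * HOPF_v a b c x1 ≤ w x2 - m * HOPF_v a b c x2 :=
      isMinOn_iff.1 hmin x2 ⟨by rw [mem_closedBall, dist_eq_norm]; exact hx22, hx21⟩
    linarith
  have hlt : ‖x1 - c‖ < r := by
    refine lt_of_le_of_ne hx1r fun h => ?_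
    have h1 : HOPF_v a b c x1 = 0 := by
      unfold HOPF_v
      rw [h, hb, sub_self]
    rw [h1, mul_zero, sub_zero] at hneg
    linarith [hwT x1 hx1r]
  have hgt : r / 2 < ‖x1 - c‖ := by
    refine lt_of_le_of_ne hx1l fun h => ?_
    have h1 : m ≤ w x1 := hzmin x1 h.symm.le
    have h2 : m * HOPF_v a b c x1 ≤ m * 1 := by
      have := hv1 x1
      gcongr
    linarith
  have hloc : IsLocalMin (fun x => w x - m * HOPF_v a b c x) x1 := by
    have h1 : closedBall c r ∩ {x | r / 2 ≤ ‖x - c‖} ∈ 𝓝 x1 := by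
      have h2 : IsOpen (ball c r ∩ {x : V2 | r / 2 < ‖x - c‖}) :=
        isOpen_ball.inter (isOpen_lt continuous_const (by fun_prop))
      refine Filter.mem_of_superset (h2.mem_nhds ⟨by rw [mem_ball, dist_eq_norm]; exact hlt, hgt⟩) ?_
      intro y hy
      exact ⟨ball_subset_closedBall hy.1, show r / 2 ≤ ‖y - c‖ from le_of_lt hy.2⟩
    exact hmin.isLocalMin h1
  obtain ⟨hcd1, hA1, hd1, hL1, hdi1⟩ := h x1 hx1r
  have hvcd : ContDiffAt ℝ 2 (HOPF_v a b c) x1 := (HOPF_v_cd a b c).contDiffAt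
  have hgcd : ContDiffAt ℝ 2 (fun x => w x - m * HOPF_v a b c x) x1 :=
    hcd1.sub (contDiffAt_const.mul hvcd)
  have hE0 : 0 ≤ Ell A B C (fun x => w x - m * HOPF_v a b c x) x1 :=
    Ell_nonneg_of_isLocalMin (by linarith) (HOPF_def2 hl hA1 hd1) hgcd hloc
  have hE1 : Ell A B C (fun x => w x - m * HOPF_v a b c x) x1 =
      Ell A B C w x1 - m * Ell A B C (HOPF_v a b c) x1 := by
    unfold Ell
    rw [D2_sub_smul hcd1 hvcd, D2_sub_smul hcd1 hvcd, D2_sub_smul hcd1 hvcd]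
    ring
  have hD : fderiv ℝ w x1 = m • fderiv ℝ (HOPF_v a b c) x1 := by
    have h1 := hloc.fderiv_eq_zero
    have hwd : DifferentiableAt ℝ w x1 := hcd1.differentiableAt (by norm_num)
    have hvd : DifferentiableAt ℝ (HOPF_v a b c) x1 := (HOPF_v_fderiv a b c x1).differentiableAt
    have h2 : fderiv ℝ (fun x => w x - m * HOPF_v a b c x) x1 =
        fderiv ℝ w x1 - m • fderiv ℝ (HOPF_v a b c) x1 :=
      (hwd.hasFDerivAt.sub (hvd.hasFDerivAt.const_mul m)).fderiv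
    rw [h2] at h1
    exact sub_eq_zero.1 h1
  have hbar := HOPF_bar (A := A) (B := B) (C := C) (b := b) (K := K) ha hl hr
    (HOPF_def hA1 hd1) hL1.le haL hx1l hx1r
  have h5 := hdi1 hlt
  rw [hD, norm_smul, Real.norm_eq_abs, abs_of_pos hm] at h5
  have h6 : K * (m * ‖fderiv ℝ (HOPF_v a b c) x1‖) ≤
      m * (|K| * ‖fderiv ℝ (HOPF_v a b c) x1‖) := by
    have h7 : K * (m * ‖fderiv ℝ (HOPF_v a b c) x1‖) ≤
        |K| * (m * ‖fderiv ℝ (HOPF_v a b c) x1‖) := by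
      gcongr
      exact le_abs_self K
    linarith
  have h8 := mul_lt_mul_of_pos_left hbar hm
  rw [hE1] at hE0
  linarith

private theorem HOPF_end {w : V2 → ℝ} {x₀ ν c : V2} {a r m : ℝ} (hr : 0 < r) (ha : 0 < a)
    (hm : 0 < m) (hν : ‖ν‖ = 1) (hc : c = x₀ + r • ν) (h0 : w x₀ = 0)
    (hw : DifferentiableAt ℝ w x₀)
    (hkey : ∀ x, r / 2 ≤ ‖x - c‖ → ‖x - c‖ ≤ r →
      m * HOPF_v a (Real.exp (-a * r ^ 2)) c x ≤ w x) : 0 < fderiv ℝ w x₀ ν := by
  set b : ℝ := Real.exp (-a * r ^ 2) with hb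
  have hbp : 0 < b := Real.exp_pos _
  have hc0 : ‖x₀ - c‖ = r := by
    rw [hc, sub_add_cancel_left, norm_neg, norm_smul, hν, Real.norm_eq_abs, abs_of_pos hr, mul_one]
  have hline : HasDerivAt (fun s : ℝ => x₀ + s • ν) ν 0 := by
    simpa using ((hasDerivAt_id (0 : ℝ)).smul_const ν).const_add x₀
  have hwd : HasDerivAt (fun s : ℝ => w (x₀ + s • ν)) (fderiv ℝ w x₀ ν) 0 := by
    have h1 : HasFDerivAt w (fderiv ℝ w x₀) (x₀ + (0 : ℝ) • ν) := by
      rw [zero_smul, add_zero]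
      exact hw.hasFDerivAt
    exact h1.comp_hasDerivAt 0 hline
  have hvd : HasDerivAt (fun s : ℝ => HOPF_v a b c (x₀ + s • ν)) (b * (2 * a * r)) 0 := by
    have h1 : HasFDerivAt (HOPF_v a b c)
        (Real.exp (-a * ‖x₀ - c‖ ^ 2) • ((-2 * a) • innerSL ℝ (x₀ - c))) (x₀ + (0 : ℝ) • ν) := by
      rw [zero_smul, add_zero]
      exact HOPF_v_fderiv a b c x₀
    have h3 := h1.comp_hasDerivAt 0 hline
    have h4 : (Real.exp (-a * ‖x₀ - c‖ ^ 2) • ((-2 * a) • innerSL ℝ (x₀ - c))) ν =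
        b * (2 * a * r) := by
      have h5 : x₀ - c = (-r) • ν := by rw [hc, sub_add_cancel_left, neg_smul]
      rw [hc0, h5]
      show Real.exp (-a * r ^ 2) * ((-2 * a) * ⟪(-r) • ν, ν⟫) = b * (2 * a * r)
      rw [real_inner_smul_left, real_inner_self_eq_norm_sq, hν, ← hb]
      ring
    rw [h4] at h3
    exact h3
  have hdd := hwd.sub (hvd.const_mul m)
  have hnn : 0 ≤ fderiv ℝ w x₀ ν - m * (b * (2 * a * r)) := by
    rw [hasDerivAt_iff_tendsto_slope] at hdd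
    have h1 := hdd.mono_left (nhdsWithin_mono 0 (show Ioi (0 : ℝ) ⊆ {0}ᶜ from fun x hx => ne_of_gt hx))
    refine ge_of_tendsto h1 ?_
    have h2 : ∀ᶠ s : ℝ in 𝓝[>] 0, s ∈ Ioo 0 (r / 2) := Ioo_mem_nhdsGT (by positivity)
    filter_upwards [h2] with s hs
    rw [slope_def_field]
    simp only [Pi.sub_apply]
    have h3 : HOPF_v a b c (x₀ + (0 : ℝ) • ν) = 0 := by
      unfold HOPF_v
      rw [zero_smul, add_zero, hc0, hb, sub_self]
    have h4 : m * HOPF_v a b c (x₀ + s • ν) ≤ w (x₀ + s • ν) := by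
      have h5 : x₀ + s • ν - c = (s - r) • ν := by rw [hc, sub_smul]; abel
      have h6 : ‖x₀ + s • ν - c‖ = r - s := by
        rw [h5, norm_smul, hν, mul_one, Real.norm_eq_abs, abs_of_neg (by linarith [hs.2])]
        ring
      refine hkey _ ?_ ?_
      · rw [h6]; linarith [hs.2]
      · rw [h6]; linarith [hs.1]
    rw [h3, zero_smul, add_zero, h0]
    refine div_nonneg ?_ (by linarith [hs.1])
    linarith
  have : 0 < m * (b * (2 * a * r)) := by positivity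
  linarith

private theorem HOPF_big {x₀ ν x : V2} {r R : ℝ} (hr : 0 < r) (hrR : r ≤ R / 2) (hν : ‖ν‖ = 1)
    (hx : ‖x - (x₀ + r • ν)‖ ≤ r) (hne : x ≠ x₀) : x ∈ ball (x₀ + R • ν) R := by
  have h1 : ‖x - (x₀ + r • ν)‖ ^ 2 ≤ r ^ 2 := by gcongr
  have h2 : x - (x₀ + r • ν) = (x - x₀) - r • ν := by abel
  have h3 : x - (x₀ + R • ν) = (x - x₀) - R • ν := by abel
  have h4 : 0 < ‖x - x₀‖ ^ 2 := by
    have : 0 < ‖x - x₀‖ := norm_pos_iff.2 (sub_ne_zero.2 hne)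
    positivity
  rw [h2, norm_sub_sq_real, inner_smul_right, norm_smul, hν, Real.norm_eq_abs, mul_one,
    sq_abs] at h1
  rw [mem_ball, dist_eq_norm, h3]
  refine lt_of_pow_lt_pow_left₀ 2 (by linarith) ?_
  rw [norm_sub_sq_real, inner_smul_right, norm_smul, hν, Real.norm_eq_abs, mul_one, sq_abs]
  have h5 : 0 < ⟪x - x₀, ν⟫ := by
    have : 0 < r * (2 * ⟪x - x₀, ν⟫) := by linarith
    have := (mul_pos_iff_of_pos_left hr).1 this
    linarith
  have h6 : 0 < (R - r) * ⟪x - x₀, ν⟫ := mul_pos (by linarith) h5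
  linarith

theorem hopf {A B C w : V2 → ℝ} {x₀ ν : V2} {K R : ℝ} (hR : 0 < R) (hν : ‖ν‖ = 1)
    (hw : ContDiffAt ℝ 2 w x₀) (h0 : w x₀ = 0)
    (hA : ContinuousAt A x₀) (hB : ContinuousAt B x₀) (hC : ContinuousAt C x₀)
    (hAp : 0 < A x₀) (hABC : B x₀ ^ 2 < A x₀ * C x₀)
    (hpos : ∀ x ∈ ball (x₀ + R • ν) R, 0 < w x)
    (hdi : ∀ᶠ x in 𝓝 x₀, x ∈ ball (x₀ + R • ν) R → Ell A B C w x ≤ K * ‖fderiv ℝ w x‖) :
    0 < fderiv ℝ w x₀ ν := by
  -- constants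
  have hCp : 0 < C x₀ := by
    by_contra hcon
    push Not at hcon
    nlinarith [sq_nonneg (B x₀), mul_nonneg hAp.le (neg_nonneg.2 hcon)]
  obtain ⟨l, hlp, hAl, hdl⟩ : ∃ l : ℝ, 0 < l ∧ l < A x₀ ∧
      B x₀ ^ 2 < (A x₀ - l) * (C x₀ - l) := by
    have h1 : 0 < A x₀ * C x₀ - B x₀ ^ 2 := by linarith
    refine ⟨(A x₀ * C x₀ - B x₀ ^ 2) / (2 * (A x₀ + C x₀)), by positivity, ?_, ?_⟩
    · rw [div_lt_iff₀ (by positivity)]
      nlinarith [sq_nonneg (B x₀), mul_pos hAp hCp, mul_pos hAp hAp]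
    · set l : ℝ := (A x₀ * C x₀ - B x₀ ^ 2) / (2 * (A x₀ + C x₀)) with hl
      have hl2 : l * (2 * (A x₀ + C x₀)) = A x₀ * C x₀ - B x₀ ^ 2 := by
        rw [hl]
        field_simp
      have h2 : (A x₀ - l) * (C x₀ - l) = A x₀ * C x₀ - l * (2 * (A x₀ + C x₀)) / 2 + l ^ 2 := by
        ring
      rw [h2, hl2]
      have := sq_nonneg l
      linarith
  have hcd : ∀ᶠ x in 𝓝 x₀, ContDiffAt ℝ 2 w x := hw.eventually (by simp)
  have hAl' : ∀ᶠ x in 𝓝 x₀, l < A x := hA.eventually (lt_mem_nhds hAl)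
  have hdl' : ∀ᶠ x in 𝓝 x₀, B x ^ 2 < (A x - l) * (C x - l) := by
    have h1 : ContinuousAt (fun x => B x ^ 2) x₀ := hB.pow 2
    have h2 : ContinuousAt (fun x => (A x - l) * (C x - l)) x₀ :=
      (hA.sub continuousAt_const).mul (hC.sub continuousAt_const)
    exact h1.eventually_lt h2 hdl
  have hLe : ∀ᶠ x in 𝓝 x₀, A x + C x < A x₀ + C x₀ + 1 :=
    (hA.add hC).eventually (gt_mem_nhds (by simp))
  obtain ⟨ρ, hρ, hball⟩ := Metric.eventually_nhds_iff_ball.1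
    (hcd.and (hAl'.and (hdl'.and (hLe.and hdi))))
  obtain ⟨r, hrp, hrR, hrρ⟩ : ∃ r : ℝ, 0 < r ∧ r ≤ R / 2 ∧ r ≤ ρ / 4 :=
    ⟨min (R / 2) (ρ / 4), lt_min (by linarith) (by linarith), min_le_left _ _, min_le_right _ _⟩
  obtain ⟨c, hc⟩ : ∃ c, c = x₀ + r • ν := ⟨_, rfl⟩
  have hc0 : ‖x₀ - c‖ = r := by
    rw [hc, sub_add_cancel_left, norm_neg, norm_smul, hν, Real.norm_eq_abs, abs_of_pos hrp, mul_one]
  have hin : ∀ x, ‖x - c‖ ≤ r → x ∈ ball x₀ ρ := by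
    intro x hx
    rw [mem_ball, dist_eq_norm]
    have h1 : x - x₀ = (x - c) - (x₀ - c) := by abel
    rw [h1]
    have := norm_sub_le (x - c) (x₀ - c)
    linarith
  have hbig : ∀ x, ‖x - c‖ ≤ r → x ≠ x₀ → x ∈ ball (x₀ + R • ν) R := by
    intro x hx hne
    rw [hc] at hx
    exact HOPF_big hrp hrR hν hx hne
  have hwT : ∀ x, ‖x - c‖ ≤ r → 0 ≤ w x := by
    intro x hx
    by_cases hne : x = x₀
    · rw [hne, h0]
    · exact (hpos x (hbig x hx hne)).le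
  have hcw : ContinuousOn w (closedBall c (r / 2)) := by
    intro x hx
    rw [mem_closedBall, dist_eq_norm] at hx
    exact (hball x (hin x (by linarith))).1.continuousAt.continuousWithinAt
  obtain ⟨z, hz, hzmin⟩ := (isCompact_closedBall c (r / 2)).exists_isMinOn
    ⟨c, mem_closedBall_self (by positivity)⟩ hcw
  have hzpos : 0 < w z := by
    rw [mem_closedBall, dist_eq_norm] at hz
    refine hpos z (hbig z (by linarith) ?_)
    rintro rfl
    linarith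
  have hLp : 0 < A x₀ + C x₀ + 1 := by linarith
  obtain ⟨a, haL⟩ : ∃ a : ℝ, A x₀ + C x₀ + 1 + |K| * r < a * (l * r ^ 2 / 2) := by
    refine ⟨(A x₀ + C x₀ + 1 + |K| * r + 1) / (l * r ^ 2 / 2), ?_⟩
    rw [div_mul_cancel₀ _ (by positivity)]
    linarith
  have ha : 0 < a := by
    have h1 : 0 < l * r ^ 2 / 2 := by positivity
    have h2 : 0 ≤ |K| * r := by positivity
    exact (mul_pos_iff_of_pos_right h1).1 (by linarith)
  refine HOPF_end hrp ha hzpos hν hc h0 (hw.differentiableAt (by norm_num)) ?_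
  refine HOPF_key (A := A) (B := B) (C := C) hrp hlp ha hzpos haL ?_ hwT ?_
  · intro x hx
    obtain ⟨h1, h2, h3, h4, h5⟩ := hball x (hin x hx)
    refine ⟨h1, h2, h3, h4, fun hlt => h5 (hbig x hx ?_)⟩
    rintro rfl
    linarith
  · intro x hx
    exact isMinOn_iff.1 hzmin x (by rw [mem_closedBall, dist_eq_norm]; exact hx)

end Pool.Agent.H99.SC

end S_HOPF

section S_SMP

/-!
# SMP: strong maximum principle and touching

`smp`: `w` C^2 near `x₀`, `w >= 0` near `x₀`, `w x₀ = 0`, inequality near `x₀`: then `w = 0` near `x₀`.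
Proof.  Let `ρ` be such that everything holds on `ball x₀ ρ` (use `Filter.Eventually.eventually_nhds`-
style shrinking: C^2, `w >= 0`, inequality, continuity of the coefficients and positive definiteness
at every point of the ball).  Suppose `w y > 0` with `|y - x₀| < ρ/2`.  Let `Z = {w = 0} n closedBall
x₀ (3ρ/4)`, compact, contains `x₀`; `d = dist(y, Z) <= |y-x₀| < ρ/2`, `d > 0`, attained at `z`.
`ball y d` is inside `closedBall x₀ ρ` interior, `w > 0` on it, `|z - x₀| < ρ`.  `hopf` at `z` with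
`ν = (y - z)/|y - z|`, `R = d` gives `Dw(z) ν > 0`, but `z` is a local minimum, `Dw(z) = 0`.

`touch`: boundary version: if `w >= 0` on `Ω`, `ball (x₀ + R ν) R ⊆ Ω`, `w x₀ = 0` and
`Dw(x₀) ν = 0` (or `≤ 0`), then every neighbourhood of `x₀` contains zeros of `w` in the ball
`ball (x₀ + R' ν) R'` for every `R' ≤ R`.
Proof: otherwise `w > 0` on a smaller tangent ball and `hopf` applies.

`iball`: interior ball property of `{η > 0}`: for `|v|` small `η (x₀ + v) >= Dη(x₀) v - M |v|^2`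
(C^2 Taylor; or: `Dη` is Lipschitz near `x₀`), with `ν` = normalised gradient, `Dη(x₀) v = g <ν,v>`, `g = Dη(x₀) ν > 0`; for
`x₀ + v` in `ball (x₀ + R ν) R`: `|v|^2 < 2 R <ν,v>`, so `η >= (g/(2R) - M)|v|^2 > 0` if `R < g/(2M)`.
-/


open scoped RealInnerProductSpace Topology
open Metric Filter Set


namespace Pool.Agent.H99.SC

theorem smp {A B C w : V2 → ℝ} {x₀ : V2} {K : ℝ}
    (hw : ContDiffAt ℝ 2 w x₀) (h0 : w x₀ = 0) (hnn : ∀ᶠ x in 𝓝 x₀, 0 ≤ w x)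
    (hA : ∀ᶠ x in 𝓝 x₀, ContinuousAt A x) (hB : ∀ᶠ x in 𝓝 x₀, ContinuousAt B x)
    (hC : ∀ᶠ x in 𝓝 x₀, ContinuousAt C x)
    (hAp : 0 < A x₀) (hABC : B x₀ ^ 2 < A x₀ * C x₀)
    (hdi : ∀ᶠ x in 𝓝 x₀, Ell A B C w x ≤ K * ‖fderiv ℝ w x‖) :
    ∀ᶠ x in 𝓝 x₀, w x = 0 := by
  have hA0 : ContinuousAt A x₀ := hA.self_of_nhds
  have hB0 : ContinuousAt B x₀ := hB.self_of_nhds
  have hC0 : ContinuousAt C x₀ := hC.self_of_nhds
  have e1 : ∀ᶠ x in 𝓝 x₀, 0 < A x := hA0.eventually (lt_mem_nhds hAp)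
  have e2 : ∀ᶠ x in 𝓝 x₀, B x ^ 2 < A x * C x := by
    have h1 : ContinuousAt (fun x => A x * C x - B x ^ 2) x₀ := (hA0.mul hC0).sub (hB0.pow 2)
    have h2 : 0 < (fun x => A x * C x - B x ^ 2) x₀ := sub_pos.2 hABC
    filter_upwards [h1.eventually (lt_mem_nhds h2)] with x hx
    exact sub_pos.1 hx
  have e3 : ∀ᶠ x in 𝓝 x₀, ContDiffAt ℝ 2 w x := hw.eventually (by simp)
  have hall := ((((((e3.and hnn).and hA).and hB).and hC).and e1).and e2).and
    (eventually_eventually_nhds.2 hdi)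
  obtain ⟨ρ, hρ, hball⟩ := Metric.eventually_nhds_iff_ball.1 hall
  rw [Metric.eventually_nhds_iff_ball]
  refine ⟨ρ / 4, by positivity, fun y hy => ?_⟩
  by_contra hwy
  rw [mem_ball] at hy
  set Z : Set V2 := closedBall x₀ (ρ / 2) ∩ {z | w z = 0} with hZ
  have hcont : ContinuousOn w (closedBall x₀ (ρ / 2)) := by
    intro z hz
    have : z ∈ ball x₀ ρ := by
      rw [mem_closedBall] at hz; rw [mem_ball]; linarith
    exact (hball z this).1.1.1.1.1.1.1.continuousAt.continuousWithinAt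
  have hZc : IsCompact Z := by
    have h1 : IsClosed Z := hcont.preimage_isClosed_of_isClosed isClosed_closedBall
      (isClosed_singleton (x := (0 : ℝ)))
    exact (isCompact_closedBall x₀ (ρ / 2)).of_isClosed_subset h1 inter_subset_left
  have hx₀Z : x₀ ∈ Z := ⟨mem_closedBall_self (by positivity), h0⟩
  obtain ⟨z, hzZ, hzd⟩ := hZc.exists_infDist_eq_dist ⟨x₀, hx₀Z⟩ y
  have hzb : dist z x₀ ≤ ρ / 2 := hzZ.1
  have hwz : w z = 0 := hzZ.2
  set d := dist y z with hd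
  have hdpos : 0 < d := by
    rw [hd, dist_pos]
    intro h
    exact hwy (h ▸ hwz)
  have hdle : d ≤ dist y x₀ := by
    rw [← hzd]; exact infDist_le_dist_of_mem hx₀Z
  have hposb : ∀ x ∈ ball y d, 0 < w x := by
    intro x hx
    rw [mem_ball] at hx
    have h1 : dist x x₀ < ρ / 2 := by
      have := dist_triangle x y x₀
      linarith
    have h2 : x ∈ ball x₀ ρ := by rw [mem_ball]; linarith
    have h3 : 0 ≤ w x := (hball x h2).1.1.1.1.1.1.2
    rcases h3.eq_or_lt with h4 | h4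
    · exfalso
      have h5 : x ∈ Z := ⟨by rw [mem_closedBall]; exact h1.le, h4.symm⟩
      have h6 := infDist_le_dist_of_mem (x := y) h5
      rw [hzd, dist_comm y x] at h6
      linarith
    · exact h4
  have hzball : z ∈ ball x₀ ρ := by rw [mem_ball]; linarith
  have hPz := hball z hzball
  have hνn : ‖(d⁻¹ • (y - z) : V2)‖ = 1 := by
    rw [norm_smul, norm_inv, Real.norm_eq_abs, abs_of_pos hdpos, ← dist_eq_norm, ← hd,
      inv_mul_cancel₀ hdpos.ne']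
  have hcen : z + d • (d⁻¹ • (y - z)) = y := by
    rw [smul_smul, mul_inv_cancel₀ hdpos.ne', one_smul, add_sub_cancel]
  have hh := hopf (A := A) (B := B) (C := C) (w := w) (x₀ := z) (ν := d⁻¹ • (y - z)) (K := K)
    hdpos hνn hPz.1.1.1.1.1.1.1 hwz hPz.1.1.1.1.1.2 hPz.1.1.1.1.2 hPz.1.1.1.2 hPz.1.1.2 hPz.1.2
    (by rw [hcen]; exact hposb) (hPz.2.mono fun x hx _ => hx)
  have hmin : IsLocalMin w z := by
    have h1 : ∀ᶠ x in 𝓝 z, x ∈ ball x₀ ρ := isOpen_ball.mem_nhds hzball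
    filter_upwards [h1] with x hx
    rw [hwz]
    exact (hball x hx).1.1.1.1.1.1.2
  rw [hmin.fderiv_eq_zero] at hh
  exact lt_irrefl _ hh

private theorem SMP_ball_sub {x₀ ν : V2} {R R' : ℝ} (hν : ‖ν‖ = 1) (h : R' ≤ R) :
    ball (x₀ + R' • ν) R' ⊆ ball (x₀ + R • ν) R := by
  refine ball_subset_ball' ?_
  rw [dist_add_left, dist_eq_norm, ← sub_smul, norm_smul, hν, Real.norm_eq_abs,
    abs_of_nonpos (by linarith)]
  linarith

private theorem SMP_ball_sub' {x₀ ν : V2} {R' r : ℝ} (hν : ‖ν‖ = 1) (hR' : 0 ≤ R')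
    (h : 2 * R' ≤ r) : ball (x₀ + R' • ν) R' ⊆ ball x₀ r := by
  refine ball_subset_ball' ?_
  rw [dist_eq_norm, add_sub_cancel_left, norm_smul, hν, Real.norm_eq_abs, abs_of_nonneg hR']
  linarith

theorem touch {A B C w : V2 → ℝ} {Ω : Set V2} {x₀ ν : V2} {K R : ℝ} (hR : 0 < R)
    (hν : ‖ν‖ = 1) (hΩ : ball (x₀ + R • ν) R ⊆ Ω)
    (hw : ContDiffAt ℝ 2 w x₀) (h0 : w x₀ = 0) (hnn : ∀ᶠ x in 𝓝 x₀, x ∈ Ω → 0 ≤ w x)
    (hA : ContinuousAt A x₀) (hB : ContinuousAt B x₀) (hC : ContinuousAt C x₀)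
    (hAp : 0 < A x₀) (hABC : B x₀ ^ 2 < A x₀ * C x₀)
    (hdi : ∀ᶠ x in 𝓝 x₀, x ∈ Ω → Ell A B C w x ≤ K * ‖fderiv ℝ w x‖)
    (hD : fderiv ℝ w x₀ ν ≤ 0) (ε : ℝ) (hε : 0 < ε) :
    ∃ x : V2, ‖x - x₀‖ < ε ∧ x ∈ Ω ∧ w x = 0 := by
  by_contra hcon
  push Not at hcon
  obtain ⟨ρ, hρ, hball⟩ := Metric.eventually_nhds_iff_ball.1 hnn
  set R' := min R (min ε ρ / 2) with hR'
  have hR'pos : 0 < R' := lt_min hR (by positivity)
  have hR'R : R' ≤ R := min_le_left _ _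
  have h2 : 2 * R' ≤ min ε ρ := by
    have := min_le_right R (min ε ρ / 2)
    rw [← hR'] at this
    linarith
  have hs1 : ball (x₀ + R' • ν) R' ⊆ Ω := (SMP_ball_sub hν hR'R).trans hΩ
  have hs2 : ball (x₀ + R' • ν) R' ⊆ ball x₀ (min ε ρ) := SMP_ball_sub' hν hR'pos.le h2
  have hh := hopf (A := A) (B := B) (C := C) (w := w) (x₀ := x₀) (ν := ν) (K := K)
    hR'pos hν hw h0 hA hB hC hAp hABC (by
      intro x hx
      have h3 := hs2 hx
      rw [mem_ball] at h3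
      have h4 : x ∈ ball x₀ ρ := by
        rw [mem_ball]; exact h3.trans_le (min_le_right _ _)
      have h5 : ‖x - x₀‖ < ε := by
        rw [← dist_eq_norm]; exact h3.trans_le (min_le_left _ _)
      exact lt_of_le_of_ne (hball x h4 (hs1 hx)) (Ne.symm (hcon x h5 (hs1 hx))))
    (hdi.mono fun x hx hxb => hx (hs1 hxb))
  linarith

theorem iball {η : V2 → ℝ} {x₀ : V2} (hη : ContDiffAt ℝ 2 η x₀) (h0 : η x₀ = 0)
    (hD : fderiv ℝ η x₀ ≠ 0) :
    ∃ (ν : V2) (R : ℝ), 0 < R ∧ ‖ν‖ = 1 ∧ 0 < fderiv ℝ η x₀ ν ∧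
      (∀ v : V2, fderiv ℝ η x₀ v = fderiv ℝ η x₀ ν * ⟪ν, v⟫) ∧
      ball (x₀ + R • ν) R ⊆ {x | 0 < η x} := by
  set L := fderiv ℝ η x₀ with hL
  set g : V2 := (InnerProductSpace.toDual ℝ V2).symm L with hg
  have hLg : ∀ v, L v = ⟪g, v⟫ := fun v => by
    rw [hg, InnerProductSpace.toDual_symm_apply]
  have hg0 : g ≠ 0 := by
    intro h
    apply hD
    ext v
    rw [hLg v, h, inner_zero_left]; rfl
  have hgn : 0 < ‖g‖ := norm_pos_iff.2 hg0
  set ν : V2 := ‖g‖⁻¹ • g with hν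
  have hνn : ‖ν‖ = 1 := by
    rw [hν, norm_smul, norm_inv, norm_norm, inv_mul_cancel₀ hgn.ne']
  have hLν : L ν = ‖g‖ := by
    rw [hLg, hν, inner_smul_right, real_inner_self_eq_norm_sq]
    field_simp
  have hLv : ∀ v, L v = ‖g‖ * ⟪ν, v⟫ := by
    intro v
    rw [hLg, hν, real_inner_smul_left, ← mul_assoc, mul_inv_cancel₀ hgn.ne', one_mul]
  -- second order estimate
  obtain ⟨M, r, hr, hT⟩ : ∃ M r : ℝ, 0 < r ∧ ∀ v : V2, ‖v‖ < r →
      L v - M * ‖v‖ ^ 2 ≤ η (x₀ + v) := by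
    have h1 : ContDiffAt ℝ 1 (fderiv ℝ η) x₀ := hη.fderiv_right (by norm_num)
    obtain ⟨M, t, ht, hlip⟩ := h1.exists_lipschitzOnWith
    have h2 : ∀ᶠ x in 𝓝 x₀, DifferentiableAt ℝ η x :=
      (hη.eventually (by simp)).mono fun x hx => hx.differentiableAt (by norm_num)
    obtain ⟨r, hr, hball⟩ := Metric.eventually_nhds_iff_ball.1 (h2.and ht)
    refine ⟨M, r, hr, fun v hv => ?_⟩
    have hmv := (convex_closedBall x₀ ‖v‖).norm_image_sub_le_of_norm_hasFDerivWithin_le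
      (f := fun x => η x - L x) (f' := fun x => fderiv ℝ η x - L) (C := M * ‖v‖)
      (x := x₀) (y := x₀ + v) (by
        intro x hx
        have hx' : x ∈ ball x₀ r := by
          rw [mem_closedBall] at hx; rw [mem_ball]; linarith
        exact ((hball x hx').1.hasFDerivAt.sub L.hasFDerivAt).hasFDerivWithinAt) (by
        intro x hx
        have hx' : x ∈ ball x₀ r := by
          rw [mem_closedBall] at hx; rw [mem_ball]; linarith
        have h3 := hlip.dist_le_mul x (hball x hx').2 x₀ (hball x₀ (mem_ball_self hr)).2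
        rw [dist_eq_norm] at h3
        refine h3.trans ?_
        exact mul_le_mul_of_nonneg_left hx (NNReal.coe_nonneg M))
      (mem_closedBall_self (norm_nonneg _)) (by
        rw [mem_closedBall, dist_eq_norm, add_sub_cancel_left])
    rw [add_sub_cancel_left, Real.norm_eq_abs, abs_le] at hmv
    have h4 := hmv.1
    rw [h0, map_add] at h4
    nlinarith
  refine ⟨ν, min (r / 2) (‖g‖ / (2 * (|M| + 1))), ?_, hνn, ?_, ?_, ?_⟩
  · exact lt_min (by positivity) (by positivity)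
  · rw [hLν]; exact hgn
  · intro v
    rw [hLν]; exact hLv v
  · set R := min (r / 2) (‖g‖ / (2 * (|M| + 1))) with hR
    have hRpos : 0 < R := lt_min (by positivity) (by positivity)
    have hRr : 2 * R ≤ r := by
      have := min_le_left (r / 2) (‖g‖ / (2 * (|M| + 1)))
      rw [← hR] at this
      linarith
    have hRg : 2 * R * (|M| + 1) ≤ ‖g‖ := by
      have := min_le_right (r / 2) (‖g‖ / (2 * (|M| + 1)))
      rw [← hR, le_div_iff₀ (by positivity)] at this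
      linarith
    intro x hx
    have hx1 : x ∈ ball x₀ r := SMP_ball_sub' hνn hRpos.le hRr hx
    set v := x - x₀ with hv
    have hxv : x = x₀ + v := by rw [hv, add_sub_cancel]
    have hvr : ‖v‖ < r := by rw [hv, ← dist_eq_norm]; exact hx1
    have h5 : ‖v - R • ν‖ < R := by
      rw [mem_ball, dist_eq_norm] at hx
      rw [hv, sub_sub]; exact hx
    have h6 : ‖v‖ ^ 2 < 2 * R * ⟪ν, v⟫ := by
      have h7 := norm_sub_sq_real v (R • ν)
      rw [inner_smul_right, norm_smul, hνn, real_inner_comm, Real.norm_eq_abs, mul_one,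
        sq_abs] at h7
      have h8 : ‖v - R • ν‖ ^ 2 < R ^ 2 := by
        exact pow_lt_pow_left₀ h5 (norm_nonneg _) two_ne_zero
      nlinarith
    have h9 := hT v hvr
    rw [← hxv, hLv v] at h9
    have h10 : 0 < ⟪ν, v⟫ := by
      have : 0 ≤ ‖v‖ ^ 2 := by positivity
      by_contra hc
      push Not at hc
      nlinarith
    have h11 : M * ‖v‖ ^ 2 ≤ |M| * ‖v‖ ^ 2 :=
      mul_le_mul_of_nonneg_right (le_abs_self M) (by positivity)
    have h12 : (|M| + 1) * ‖v‖ ^ 2 < (|M| + 1) * (2 * R * ⟪ν, v⟫) :=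
      mul_lt_mul_of_pos_left h6 (by positivity)
    have h13 : 2 * R * (|M| + 1) * ⟪ν, v⟫ ≤ ‖g‖ * ⟪ν, v⟫ :=
      mul_le_mul_of_nonneg_right hRg h10.le
    have h14 : 0 ≤ ‖v‖ ^ 2 := by positivity
    change 0 < η x
    nlinarith

end Pool.Agent.H99.SC

end S_SMP

section S_CNA

/-!
# CNA: the side estimate

`side`.  `η` C^2 near `x₀`, `η x₀ = 0`, `Dη(x₀) ≠ 0`; `w` C^2 near `x₀`, `w = 0` on
`{η = 0}` near `x₀`, `w > 0` on `{η > 0}` near `x₀`, inequality on `{η > 0}` near `x₀`.  Then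
`w >= c η` on `{η >= 0}` near `x₀` for some `c > 0`.
Proof.  Interior ball (`iball`) and `hopf`: `Dw(x₀) ν > 0`.  Let `c = Dw(x₀) ν / (2 Dη(x₀) ν)` and
`φ = w - c η`: `Dφ(x₀) ν > 0`, so `Dφ(x) ν > 0` near `x₀`, and `Dη(x) ν > 0` near `x₀`.  Let `x` be near
`x₀` with `η x >= 0`.  Along `s ↦ x - s ν` the function `η` decreases at rate >= some `g' > 0` and `η x`
is small, so there is a small `s >= 0` with `η (x - s ν) = 0`, where `φ = 0`; `φ` is increasing along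
`ν`, so `φ x >= 0`.
-/


open scoped RealInnerProductSpace Topology
open Metric Filter Set


namespace Pool.Agent.H99.SC

private theorem CNA_ball_sub {x₀ ν : V2} {R R' : ℝ} (hν : ‖ν‖ = 1) (h : R' ≤ R) :
    ball (x₀ + R' • ν) R' ⊆ ball (x₀ + R • ν) R := by
  intro x hx
  rw [mem_ball, dist_eq_norm] at hx ⊢
  have e : x - (x₀ + R • ν) = (x - (x₀ + R' • ν)) - (R - R') • ν := by module
  rw [e]
  refine (norm_sub_le _ _).trans_lt ?_
  rw [norm_smul, hν, Real.norm_eq_abs, abs_of_nonneg (by linarith)]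
  linarith

private theorem CNA_mono {F : V2 → ℝ} {x ν : V2} {m s₁ : ℝ} (hs : 0 ≤ s₁)
    (hd : ∀ s ∈ Icc (0 : ℝ) s₁, DifferentiableAt ℝ F (x - s • ν))
    (hm : ∀ s ∈ Icc (0 : ℝ) s₁, m ≤ fderiv ℝ F (x - s • ν) ν) :
    F (x - s₁ • ν) ≤ F x - m * s₁ := by
  have hder : ∀ s ∈ Icc (0 : ℝ) s₁, HasDerivAt (fun s : ℝ => F (x - s • ν) + m * s)
      (-(fderiv ℝ F (x - s • ν) ν) + m) s := by
    intro s hs
    have h1 : HasDerivAt (fun s : ℝ => x - s • ν) (-ν) s := by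
      have := ((hasDerivAt_id s).smul_const ν).const_sub x
      simpa using this
    have h2 := (hd s hs).hasFDerivAt.comp_hasDerivAt s h1
    have h3 : HasDerivAt (fun s : ℝ => m * s) m s := by
      simpa using (hasDerivAt_id s).const_mul m
    have h4 := h2.add h3
    rw [map_neg] at h4
    exact h4
  have hanti : AntitoneOn (fun s : ℝ => F (x - s • ν) + m * s) (Icc 0 s₁) := by
    apply antitoneOn_of_deriv_nonpos (convex_Icc 0 s₁)
    · intro s hs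
      exact (hder s hs).continuousAt.continuousWithinAt
    · intro s hs
      exact (hder s (interior_subset hs)).differentiableAt.differentiableWithinAt
    · intro s hs
      rw [(hder s (interior_subset hs)).deriv]
      have := hm s (interior_subset hs)
      linarith
  have h := hanti (left_mem_Icc.2 hs) (right_mem_Icc.2 hs) hs
  simp only [zero_smul, sub_zero, mul_zero, add_zero] at h
  linarith

theorem side {A B C w η : V2 → ℝ} {x₀ : V2} {K : ℝ}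
    (hη : ContDiffAt ℝ 2 η x₀) (hη0 : η x₀ = 0) (hηD : fderiv ℝ η x₀ ≠ 0)
    (hw : ContDiffAt ℝ 2 w x₀) (hw0 : ∀ᶠ x in 𝓝 x₀, η x = 0 → w x = 0)
    (hwp : ∀ᶠ x in 𝓝 x₀, 0 < η x → 0 < w x)
    (hA : ContinuousAt A x₀) (hB : ContinuousAt B x₀) (hC : ContinuousAt C x₀)
    (hAp : 0 < A x₀) (hABC : B x₀ ^ 2 < A x₀ * C x₀)
    (hdi : ∀ᶠ x in 𝓝 x₀, 0 < η x → Ell A B C w x ≤ K * ‖fderiv ℝ w x‖) :
    ∃ c : ℝ, 0 < c ∧ ∀ᶠ x in 𝓝 x₀, 0 ≤ η x → c * η x ≤ w x := by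
  obtain ⟨ν, R, hR, hν, hην, -, hball⟩ := iball hη hη0 hηD
  -- Hopf
  have hwν : 0 < fderiv ℝ w x₀ ν := by
    obtain ⟨ρ, hρ, hρb⟩ := Metric.eventually_nhds_iff_ball.1 hwp
    have hR' : 0 < min R (ρ / 2) := lt_min hR (by positivity)
    have hsub := CNA_ball_sub (x₀ := x₀) hν (min_le_left R (ρ / 2))
    refine hopf hR' hν hw (hw0.self_of_nhds hη0) hA hB hC hAp hABC ?_ ?_ (K := K)
    · intro x hx
      refine hρb x ?_ (hball (hsub hx))
      rw [mem_ball, dist_eq_norm] at hx ⊢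
      have e : x - x₀ = (x - (x₀ + min R (ρ / 2) • ν)) + min R (ρ / 2) • ν := by module
      rw [e]
      refine (norm_add_le _ _).trans_lt ?_
      rw [norm_smul, hν, Real.norm_eq_abs, abs_of_pos hR']
      have := min_le_right R (ρ / 2)
      linarith
    · filter_upwards [hdi] with x hx hxb
      exact hx (hball (hsub hxb))
  set a := fderiv ℝ w x₀ ν with ha
  set g := fderiv ℝ η x₀ ν with hg
  set c := a / (2 * g) with hc
  have hcpos : 0 < c := by positivity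
  refine ⟨c, hcpos, ?_⟩
  have hcw : ContinuousAt (fun x => fderiv ℝ w x ν) x₀ :=
    ((contDiffAt_fderiv hw).continuousAt).clm_apply continuousAt_const
  have hcη : ContinuousAt (fun x => fderiv ℝ η x ν) x₀ :=
    ((contDiffAt_fderiv hη).continuousAt).clm_apply continuousAt_const
  have hcg : c * g = a / 2 := by
    rw [hc]; field_simp
  have e1 : ∀ᶠ x in 𝓝 x₀, 0 < fderiv ℝ w x ν - c * fderiv ℝ η x ν := by
    have h1 : ContinuousAt (fun x => fderiv ℝ w x ν - c * fderiv ℝ η x ν) x₀ :=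
      hcw.sub (continuousAt_const.mul hcη)
    refine h1.eventually (lt_mem_nhds ?_)
    change 0 < a - c * g
    rw [hcg]; linarith
  have e2 : ∀ᶠ x in 𝓝 x₀, g / 2 < fderiv ℝ η x ν := by
    refine hcη.eventually (lt_mem_nhds ?_)
    change g / 2 < g
    linarith
  have e3 : ∀ᶠ x in 𝓝 x₀, DifferentiableAt ℝ w x :=
    (hw.eventually (by simp)).mono fun x hx => hx.differentiableAt (by norm_num)
  have e4 : ∀ᶠ x in 𝓝 x₀, DifferentiableAt ℝ η x :=
    (hη.eventually (by simp)).mono fun x hx => hx.differentiableAt (by norm_num)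
  obtain ⟨ρ, hρ, hall⟩ := Metric.eventually_nhds_iff_ball.1 (e1.and (e2.and (e3.and (e4.and hw0))))
  have e5 : ∀ᶠ x in 𝓝 x₀, η x < g / 2 * (ρ / 2) := by
    refine hη.continuousAt.eventually (gt_mem_nhds ?_)
    rw [hη0]; positivity
  filter_upwards [e5, ball_mem_nhds x₀ (show 0 < ρ / 2 by positivity)] with x hx5 hxb hx0
  rw [mem_ball, dist_eq_norm] at hxb
  have hin : ∀ s : ℝ, 0 ≤ s → s < ρ / 2 → x - s • ν ∈ ball x₀ ρ := by
    intro s hs0 hs
    rw [mem_ball, dist_eq_norm]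
    have e : x - s • ν - x₀ = (x - x₀) - s • ν := by module
    rw [e]
    refine (norm_sub_le _ _).trans_lt ?_
    rw [norm_smul, hν, Real.norm_eq_abs, abs_of_nonneg hs0]
    linarith
  set s₁ := η x / (g / 2) with hs₁
  have hs₁0 : 0 ≤ s₁ := by positivity
  have hs₁ρ : s₁ < ρ / 2 := by
    rw [hs₁, div_lt_iff₀ (by positivity)]
    linarith
  have hlow : η (x - s₁ • ν) ≤ 0 := by
    have h1 := CNA_mono (F := η) (x := x) (ν := ν) (m := g / 2) hs₁0
      (fun s hs => (hall _ (hin s hs.1 (hs.2.trans_lt hs₁ρ))).2.2.2.1)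
      (fun s hs => (hall _ (hin s hs.1 (hs.2.trans_lt hs₁ρ))).2.1.le)
    have h2 : g / 2 * s₁ = η x := by
      rw [hs₁]; field_simp
    linarith
  have hcont : ContinuousOn (fun s : ℝ => η (x - s • ν)) (Icc 0 s₁) := by
    intro s hs
    have h1 : ContinuousAt η (x - s • ν) :=
      (hall _ (hin s hs.1 (hs.2.trans_lt hs₁ρ))).2.2.2.1.continuousAt
    have h2 : ContinuousAt (fun s : ℝ => x - s • ν) s := by fun_prop
    exact (ContinuousAt.comp (f := fun s : ℝ => x - s • ν) h1 h2).continuousWithinAt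
  obtain ⟨s, hs, hs0⟩ := intermediate_value_Icc' hs₁0 hcont
    (show (0 : ℝ) ∈ Icc (η (x - s₁ • ν)) (η (x - (0 : ℝ) • ν)) from
      ⟨hlow, by simpa using hx0⟩)
  have hsρ : ∀ t ∈ Icc (0 : ℝ) s, x - t • ν ∈ ball x₀ ρ := fun t ht =>
    hin t ht.1 ((ht.2.trans hs.2).trans_lt hs₁ρ)
  have h1 := CNA_mono (F := fun x => w x - c * η x) (x := x) (ν := ν) (m := 0) hs.1
    (fun t ht => ((hall _ (hsρ t ht)).2.2.1).sub (((hall _ (hsρ t ht)).2.2.2.1).const_mul c))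
    (fun t ht => by
      have h2 := (hall _ (hsρ t ht)).2.2.1
      have h3 := (hall _ (hsρ t ht)).2.2.2.1
      have h4 : fderiv ℝ (fun x => w x - c * η x) (x - t • ν)
          = fderiv ℝ w (x - t • ν) - c • fderiv ℝ η (x - t • ν) :=
        (h2.hasFDerivAt.sub (h3.hasFDerivAt.const_mul c)).fderiv
      rw [h4]
      simp only [sub_apply, smul_apply, smul_eq_mul]
      exact (hall _ (hsρ t ht)).1.le)
  have h5 := (hall _ (hsρ s (right_mem_Icc.2 hs.1))).2.2.2.2 hs0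
  simp only at h1 hs0
  rw [h5, hs0] at h1
  linarith

end Pool.Agent.H99.SC

end S_CNA

section S_CNB

/-!
# CNB: the barrier of the corner lemma

`ξ, η` C^2 near `x₀`, both 0 at `x₀`; vectors `p, q` with `Dξ p > 0 = Dη p`,
`Dη q > 0 = Dξ q` at `x₀`; coefficients differentiable at `x₀`, positive definite at `x₀`, with
`A ξ_0 η_0 + B (ξ_0 η_1 + ξ_1 η_0) + C ξ_1 η_1 = 0` at `x₀` (`ξ_0 = Dξ(x₀) e0` etc.).

`lin`: near `x₀`: `|x - x₀| <= M (|ξ x| + |η x|)`  (`v ↦ (Dξ v, Dη v)` is injective on V2, so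
`|Dξ v| + |Dη v| >= c |v|`, and `ξ x = Dξ (x-x₀) + o(|x-x₀|)`).
`barrier`: `v = (ξ + a ξ^2)(η + a η^2)` satisfies `Ell v > K |Dv|` on `{ξ > 0, η > 0}` near `x₀` for a
suitable `a > 0`.
Proof.  `β = A ξ_0 η_0 + B (..) + C ξ_1 η_1` (with `ξ_i = Dξ(x) e_i`) vanishes at `x₀`, `A, B, C` are
differentiable at `x₀` and `Dξ, Dη` are C^1, so `|β x| <= M1 |x - x₀| <= M' (ξ + η)` where `ξ, η >= 0`.
`Ell v = (1+2aξ)(η+aη^2) Ell ξ + 2a(η+aη^2)[A ξ_0^2+2B ξ_0 ξ_1+C ξ_1^2] + 2(1+2aξ)(1+2aη) β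
 + (ξ+aξ^2)(1+2aη) Ell η + 2a(ξ+aξ^2)[A η_0^2+2B η_0 η_1+C η_1^2]`.  The brackets are `>= l > 0` near `x₀`
(`Dξ, Dη ≠ 0`, positive definite), `Ell ξ, Ell η` are bounded near `x₀` (`D2 ξ` continuous, coefficients
bounded).  If `aξ, aη <= 1` (true near `x₀`, the neighbourhood depending on `a`) then
`Ell v >= (2 a l - C1)(ξ + η)` and `|K| |Dv| <= C1 (ξ + η)` (`Dv = (1+2aξ)(η+aη^2) Dξ + (1+2aη)(ξ+aξ^2) Dη`)
with `C1` independent of `a`.  Take `a > C1 / l`.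
(The formula for `Ell v` comes from `D2 (fun x => P x * Q x) x b c = D2 P x b c * Q x + DP b * DQ c +
DP c * DQ b + P x * D2 Q x b c` with `P = ξ + a ξ^2`, `DP = (1+2aξ) Dξ`,
`D2 P b c = (1+2aξ) D2 ξ b c + 2 a Dξ b * Dξ c`.)
-/


open scoped RealInnerProductSpace Topology
open Metric Filter Set


namespace Pool.Agent.H99.SC

theorem D2_mul {P Q : V2 → ℝ} {x : V2} (hP : ContDiffAt ℝ 2 P x) (hQ : ContDiffAt ℝ 2 Q x)
    (b c : V2) : D2 (fun y => P y * Q y) x b c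
      = D2 P x b c * Q x + fderiv ℝ P x b * fderiv ℝ Q x c + fderiv ℝ P x c * fderiv ℝ Q x b
        + P x * D2 Q x b c := by
  have eP : ∀ᶠ y in 𝓝 x, DifferentiableAt ℝ P y :=
    (hP.eventually (by simp)).mono fun y hy => hy.differentiableAt (by norm_num)
  have eQ : ∀ᶠ y in 𝓝 x, DifferentiableAt ℝ Q y :=
    (hQ.eventually (by simp)).mono fun y hy => hy.differentiableAt (by norm_num)
  have h1 : fderiv ℝ (fun y => P y * Q y) =ᶠ[𝓝 x]
      fun y => P y • fderiv ℝ Q y + Q y • fderiv ℝ P y := by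
    filter_upwards [eP, eQ] with y h1 h2
    exact fderiv_fun_mul h1 h2
  have dP : HasFDerivAt P (fderiv ℝ P x) x := (hP.differentiableAt (by norm_num)).hasFDerivAt
  have dQ : HasFDerivAt Q (fderiv ℝ Q x) x := (hQ.differentiableAt (by norm_num)).hasFDerivAt
  have dP' : HasFDerivAt (fderiv ℝ P) (fderiv ℝ (fderiv ℝ P) x) x :=
    ((contDiffAt_fderiv hP).differentiableAt (by norm_num)).hasFDerivAt
  have dQ' : HasFDerivAt (fderiv ℝ Q) (fderiv ℝ (fderiv ℝ Q) x) x :=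
    ((contDiffAt_fderiv hQ).differentiableAt (by norm_num)).hasFDerivAt
  have h2 := ((dP.smul dQ').add (dQ.smul dP')).fderiv
  unfold D2
  rw [h1.fderiv_eq]
  change fderiv ℝ (fun y => P y • fderiv ℝ Q y + Q y • fderiv ℝ P y) x b c = _
  have h3 : fderiv ℝ (fun y => P y • fderiv ℝ Q y + Q y • fderiv ℝ P y) x = _ := h2
  rw [h3]
  simp only [_root_.add_apply, _root_.smul_apply,
    ContinuousLinearMap.smulRight_apply, smul_eq_mul]
  ring

theorem CNB_sq {ξ : V2 → ℝ} {x : V2} (hξ : ContDiffAt ℝ 2 ξ x) (a : ℝ) :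
    ContDiffAt ℝ 2 (fun y => ξ y + a * ξ y ^ 2) x ∧
      fderiv ℝ (fun y => ξ y + a * ξ y ^ 2) x = (1 + 2 * a * ξ x) • fderiv ℝ ξ x ∧
      ∀ b c : V2, D2 (fun y => ξ y + a * ξ y ^ 2) x b c =
        (1 + 2 * a * ξ x) * D2 ξ x b c + 2 * a * (fderiv ℝ ξ x b * fderiv ℝ ξ x c) := by
  have hd : ∀ y, DifferentiableAt ℝ ξ y →
      fderiv ℝ (fun y => ξ y + a * ξ y ^ 2) y = (1 + 2 * a * ξ y) • fderiv ℝ ξ y := by
    intro y hy
    have h := (hy.hasFDerivAt.add ((hy.hasFDerivAt.pow 2).const_mul a)).fderiv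
    have h' : fderiv ℝ (fun y => ξ y + a * ξ y ^ 2) y = _ := h
    rw [h']
    ext v
    simp
    ring
  have eξ : ∀ᶠ y in 𝓝 x, DifferentiableAt ℝ ξ y :=
    (hξ.eventually (by simp)).mono fun y hy => hy.differentiableAt (by norm_num)
  have dx : HasFDerivAt ξ (fderiv ℝ ξ x) x := (hξ.differentiableAt (by norm_num)).hasFDerivAt
  have dx' : HasFDerivAt (fderiv ℝ ξ) (fderiv ℝ (fderiv ℝ ξ) x) x :=
    ((contDiffAt_fderiv hξ).differentiableAt (by norm_num)).hasFDerivAt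
  refine ⟨hξ.add (contDiffAt_const.mul (hξ.pow 2)), hd x dx.differentiableAt, fun b c => ?_⟩
  have h1 : fderiv ℝ (fun y => ξ y + a * ξ y ^ 2) =ᶠ[𝓝 x]
      fun y => (1 + 2 * a * ξ y) • fderiv ℝ ξ y := eξ.mono hd
  have h2 := (((dx.const_mul (2 * a)).const_add 1).smul dx').fderiv
  have h3 : fderiv ℝ (fun y => (1 + 2 * a * ξ y) • fderiv ℝ ξ y) x = _ := h2
  unfold D2
  rw [h1.fderiv_eq, h3]
  simp only [_root_.add_apply, _root_.smul_apply,
    ContinuousLinearMap.smulRight_apply, smul_eq_mul]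
  ring

theorem lin {ξ η : V2 → ℝ} {x₀ p q : V2}
    (hξ : ContDiffAt ℝ 1 ξ x₀) (hη : ContDiffAt ℝ 1 η x₀) (hξ0 : ξ x₀ = 0) (hη0 : η x₀ = 0)
    (hξp : 0 < fderiv ℝ ξ x₀ p) (hξq : fderiv ℝ ξ x₀ q = 0)
    (hηp : fderiv ℝ η x₀ p = 0) (hηq : 0 < fderiv ℝ η x₀ q) :
    ∃ M : ℝ, 0 < M ∧ ∀ᶠ x in 𝓝 x₀, ‖x - x₀‖ ≤ M * (|ξ x| + |η x|) := by
  set T : V2 →L[ℝ] ℝ × ℝ := (fderiv ℝ ξ x₀).prod (fderiv ℝ η x₀) with hT
  have hsurj : Function.Surjective (T : V2 →ₗ[ℝ] ℝ × ℝ) := by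
    rintro ⟨s, t⟩
    refine ⟨(s / fderiv ℝ ξ x₀ p) • p + (t / fderiv ℝ η x₀ q) • q, ?_⟩
    have h1 := hξp.ne'
    have h2 := hηq.ne'
    ext
    · simp [hT, hξq]
      field_simp
    · simp [hT, hηp]
      field_simp
  have hinj : Function.Injective (T : V2 →ₗ[ℝ] ℝ × ℝ) := by
    rw [LinearMap.injective_iff_surjective_of_finrank_eq_finrank (by simp)]
    exact hsurj
  obtain ⟨K, hK, hKT⟩ := LinearMap.exists_antilipschitzWith (T : V2 →ₗ[ℝ] ℝ × ℝ)
    (LinearMap.ker_eq_bot.2 hinj)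
  have hKr : (0:ℝ) < K := hK
  have hle : ∀ v : V2, ‖v‖ ≤ K * (|fderiv ℝ ξ x₀ v| + |fderiv ℝ η x₀ v|) := by
    intro v
    have h1 := hKT.le_mul_dist v 0
    rw [dist_zero_right, map_zero, dist_zero_right] at h1
    refine h1.trans (mul_le_mul_of_nonneg_left ?_ hKr.le)
    have h2 : (T : V2 →ₗ[ℝ] ℝ × ℝ) v = (fderiv ℝ ξ x₀ v, fderiv ℝ η x₀ v) := rfl
    rw [h2, Prod.norm_def]
    simp only [Real.norm_eq_abs]
    exact max_le (by linarith [abs_nonneg (fderiv ℝ η x₀ v)])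
      (by linarith [abs_nonneg (fderiv ℝ ξ x₀ v)])
  have hε : (0:ℝ) < 1 / (4 * K) := by positivity
  have d1 := (hξ.differentiableAt (by norm_num)).hasFDerivAt.isLittleO.def hε
  have d2 := (hη.differentiableAt (by norm_num)).hasFDerivAt.isLittleO.def hε
  refine ⟨2 * K, by positivity, ?_⟩
  filter_upwards [d1, d2] with x h1 h2
  rw [hξ0, sub_zero, Real.norm_eq_abs] at h1
  rw [hη0, sub_zero, Real.norm_eq_abs] at h2
  have h3 := hle (x - x₀)
  have h4 : |fderiv ℝ ξ x₀ (x - x₀)| ≤ |ξ x| + 1 / (4 * K) * ‖x - x₀‖ := by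
    have := abs_sub_abs_le_abs_sub (fderiv ℝ ξ x₀ (x - x₀)) (ξ x)
    rw [abs_sub_comm] at this
    linarith
  have h5 : |fderiv ℝ η x₀ (x - x₀)| ≤ |η x| + 1 / (4 * K) * ‖x - x₀‖ := by
    have := abs_sub_abs_le_abs_sub (fderiv ℝ η x₀ (x - x₀)) (η x)
    rw [abs_sub_comm] at this
    linarith
  have h6 : K * (|fderiv ℝ ξ x₀ (x - x₀)| + |fderiv ℝ η x₀ (x - x₀)|) ≤
      K * (|ξ x| + |η x| + 1 / (2 * K) * ‖x - x₀‖) := by
    apply mul_le_mul_of_nonneg_left _ hKr.le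
    have : 1 / (4 * (K:ℝ)) * ‖x - x₀‖ + 1 / (4 * K) * ‖x - x₀‖ = 1 / (2 * K) * ‖x - x₀‖ := by
      field_simp
      ring
    linarith
  have h7 : K * (|ξ x| + |η x| + 1 / (2 * K) * ‖x - x₀‖) =
      K * (|ξ x| + |η x|) + ‖x - x₀‖ / 2 := by
    field_simp
  linarith

/-- positivity of the quadratic form of positive definite coefficients -/
theorem CNB_pos {A B C s t : ℝ} (hA : 0 < A) (hABC : B ^ 2 < A * C) (h : s ≠ 0 ∨ t ≠ 0) :
    0 < A * s ^ 2 + 2 * B * (s * t) + C * t ^ 2 := by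
  have h1 : A * (A * s ^ 2 + 2 * B * (s * t) + C * t ^ 2) =
      (A * s + B * t) ^ 2 + (A * C - B ^ 2) * t ^ 2 := by ring
  have h2 : 0 < A * (A * s ^ 2 + 2 * B * (s * t) + C * t ^ 2) := by
    rw [h1]
    by_cases ht : t = 0
    · have hs : s ≠ 0 := by
        rcases h with h | h
        · exact h
        · exact absurd ht h
      subst ht
      have : 0 < (A * s) ^ 2 := by positivity
      nlinarith
    · have h3 : 0 < (A * C - B ^ 2) * t ^ 2 := mul_pos (by linarith) (by positivity)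
      have h4 := sq_nonneg (A * s + B * t)
      linarith
  exact (mul_pos_iff_of_pos_left hA).1 h2

/-- the form near the point, and a bound for `Ell` and the derivative -/
theorem CNB_local {A B C ξ : V2 → ℝ} {x₀ p : V2} (hξ : ContDiffAt ℝ 2 ξ x₀)
    (hξp : 0 < fderiv ℝ ξ x₀ p)
    (hA : ContinuousAt A x₀) (hB : ContinuousAt B x₀) (hC : ContinuousAt C x₀)
    (hAp : 0 < A x₀) (hABC : B x₀ ^ 2 < A x₀ * C x₀) :
    ∃ l C0 : ℝ, 0 < l ∧ 0 < C0 ∧ ∀ᶠ x in 𝓝 x₀,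
      l ≤ A x * fderiv ℝ ξ x e0 ^ 2 + 2 * B x * (fderiv ℝ ξ x e0 * fderiv ℝ ξ x e1)
        + C x * fderiv ℝ ξ x e1 ^ 2 ∧ |Ell A B C ξ x| ≤ C0 ∧ ‖fderiv ℝ ξ x‖ ≤ C0 := by
  have c1 : ContinuousAt (fderiv ℝ ξ) x₀ := (contDiffAt_fderiv hξ).continuousAt
  have c2 : ContinuousAt (fderiv ℝ (fderiv ℝ ξ)) x₀ :=
    ((contDiffAt_fderiv hξ).fderiv_right (m := 0) (by norm_num)).continuousAt
  have c3 : ∀ v : V2, ContinuousAt (fun x => fderiv ℝ ξ x v) x₀ := fun v =>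
    c1.clm_apply continuousAt_const
  have c4 : ∀ v w : V2, ContinuousAt (fun x => D2 ξ x v w) x₀ := fun v w =>
    (c2.clm_apply continuousAt_const).clm_apply continuousAt_const
  have cF : ContinuousAt (fun x => A x * fderiv ℝ ξ x e0 ^ 2
      + 2 * B x * (fderiv ℝ ξ x e0 * fderiv ℝ ξ x e1) + C x * fderiv ℝ ξ x e1 ^ 2) x₀ :=
    ((hA.mul ((c3 e0).pow 2)).add ((hB.const_mul 2).mul ((c3 e0).mul (c3 e1)))).add
      (hC.mul ((c3 e1).pow 2))
  have cE : ContinuousAt (fun x => Ell A B C ξ x) x₀ := by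
    unfold Ell
    exact ((hA.mul (c4 e0 e0)).add ((hB.const_mul 2).mul (c4 e0 e1))).add (hC.mul (c4 e1 e1))
  have hpos := CNB_pos (s := fderiv ℝ ξ x₀ e0) (t := fderiv ℝ ξ x₀ e1) hAp hABC (by
    by_contra hcon
    push Not at hcon
    have h1 : fderiv ℝ ξ x₀ p = 0 := by
      rw [V2_decomp p, map_add, map_smul, map_smul, hcon.1, hcon.2]
      simp
    linarith)
  set l0 := A x₀ * fderiv ℝ ξ x₀ e0 ^ 2 + 2 * B x₀ * (fderiv ℝ ξ x₀ e0 * fderiv ℝ ξ x₀ e1)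
    + C x₀ * fderiv ℝ ξ x₀ e1 ^ 2 with hl0
  refine ⟨l0 / 2, |Ell A B C ξ x₀| + ‖fderiv ℝ ξ x₀‖ + 1, by linarith, by positivity, ?_⟩
  have h1 := cF.eventually (lt_mem_nhds (show l0 / 2 < l0 by linarith))
  have h2 := cE.abs.eventually (gt_mem_nhds
    (show |Ell A B C ξ x₀| < |Ell A B C ξ x₀| + 1 by linarith))
  have h3 := c1.norm.eventually (gt_mem_nhds
    (show ‖fderiv ℝ ξ x₀‖ < ‖fderiv ℝ ξ x₀‖ + 1 by linarith))
  filter_upwards [h1, h2, h3] with x h1 h2 h3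
  refine ⟨h1.le, ?_, ?_⟩
  · have := norm_nonneg (fderiv ℝ ξ x₀)
    linarith
  · have := abs_nonneg (Ell A B C ξ x₀)
    linarith

/-- the mixed form is Lipschitz -/
theorem CNB_beta {A B C ξ η : V2 → ℝ} {x₀ : V2}
    (hξ : ContDiffAt ℝ 2 ξ x₀) (hη : ContDiffAt ℝ 2 η x₀)
    (hA : DifferentiableAt ℝ A x₀) (hB : DifferentiableAt ℝ B x₀) (hC : DifferentiableAt ℝ C x₀)
    (horth : A x₀ * (fderiv ℝ ξ x₀ e0 * fderiv ℝ η x₀ e0)
      + B x₀ * (fderiv ℝ ξ x₀ e0 * fderiv ℝ η x₀ e1 + fderiv ℝ ξ x₀ e1 * fderiv ℝ η x₀ e0)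
      + C x₀ * (fderiv ℝ ξ x₀ e1 * fderiv ℝ η x₀ e1) = 0) :
    ∃ M : ℝ, 0 < M ∧ ∀ᶠ x in 𝓝 x₀, |A x * (fderiv ℝ ξ x e0 * fderiv ℝ η x e0)
      + B x * (fderiv ℝ ξ x e0 * fderiv ℝ η x e1 + fderiv ℝ ξ x e1 * fderiv ℝ η x e0)
      + C x * (fderiv ℝ ξ x e1 * fderiv ℝ η x e1)| ≤ M * ‖x - x₀‖ := by
  have d1 : DifferentiableAt ℝ (fderiv ℝ ξ) x₀ :=
    (contDiffAt_fderiv hξ).differentiableAt (by norm_num)
  have d2 : DifferentiableAt ℝ (fderiv ℝ η) x₀ :=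
    (contDiffAt_fderiv hη).differentiableAt (by norm_num)
  have d3 : ∀ v : V2, DifferentiableAt ℝ (fun x => fderiv ℝ ξ x v) x₀ := fun v =>
    d1.clm_apply (differentiableAt_const v)
  have d4 : ∀ v : V2, DifferentiableAt ℝ (fun x => fderiv ℝ η x v) x₀ := fun v =>
    d2.clm_apply (differentiableAt_const v)
  have dβ : DifferentiableAt ℝ (fun x => A x * (fderiv ℝ ξ x e0 * fderiv ℝ η x e0)
      + B x * (fderiv ℝ ξ x e0 * fderiv ℝ η x e1 + fderiv ℝ ξ x e1 * fderiv ℝ η x e0)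
      + C x * (fderiv ℝ ξ x e1 * fderiv ℝ η x e1)) x₀ :=
    ((hA.mul ((d3 e0).mul (d4 e0))).add (hB.mul (((d3 e0).mul (d4 e1)).add
      ((d3 e1).mul (d4 e0))))).add (hC.mul ((d3 e1).mul (d4 e1)))
  obtain ⟨c, hc, h⟩ := dβ.isBigO_sub.exists_pos
  refine ⟨c, hc, h.bound.mono fun x hx => ?_⟩
  rw [horth, sub_zero, Real.norm_eq_abs] at hx
  exact hx

theorem CNB_PQ {a X : ℝ} (ha : 0 < a) (hX : 0 < X) (h : a * X < 1) :
    X ≤ X + a * X ^ 2 ∧ X + a * X ^ 2 ≤ 2 * X := by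
  have h1 : a * X ^ 2 = (a * X) * X := by ring
  have h2 : 0 < (a * X) * X := mul_pos (mul_pos ha hX) hX
  have h3 : (a * X) * X ≤ 1 * X := mul_le_mul_of_nonneg_right h.le hX.le
  constructor
  · rw [h1]; linarith
  · rw [h1]; linarith

/-- the arithmetic of the barrier -/
theorem CNB_arith {a l C0 M2 K X Y P Q F1 F2 E1 E2 β nD : ℝ} (ha : 0 < a) (hC0 : 0 < C0)
    (hM2 : 0 < M2) (hal : 2 * a * l = 3 * C0 + 18 * M2 + 6 * (|K| * C0) + 1)
    (hX : 0 < X) (hY : 0 < Y) (hX1 : a * X < 1) (hY1 : a * Y < 1)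
    (hP : X ≤ P) (hQ : Y ≤ Q) (hβ : |β| ≤ M2 * (X + Y)) (hE1 : -C0 ≤ E1) (hE2 : -C0 ≤ E2)
    (hF1 : l ≤ F1) (hF2 : l ≤ F2) (hn : 0 ≤ nD) (hnD : nD ≤ 6 * C0 * (X + Y)) :
    K * nD < Q * ((1 + 2 * a * X) * E1 + 2 * a * F1)
        + 2 * ((1 + 2 * a * X) * (1 + 2 * a * Y)) * β
        + P * ((1 + 2 * a * Y) * E2 + 2 * a * F2) := by
  have aX : 0 < a * X := mul_pos ha hX
  have aY : 0 < a * Y := mul_pos ha hY
  have b1 : 2 * a * l - 3 * C0 ≤ (1 + 2 * a * X) * E1 + 2 * a * F1 := by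
    have t1 : (1 + 2 * a * X) * (-C0) ≤ (1 + 2 * a * X) * E1 :=
      mul_le_mul_of_nonneg_left hE1 (by linarith)
    have t2 : (2 * a) * l ≤ (2 * a) * F1 := mul_le_mul_of_nonneg_left hF1 (by linarith)
    have t3 : (1 + 2 * a * X) * C0 ≤ 3 * C0 := mul_le_mul_of_nonneg_right (by linarith) hC0.le
    linarith
  have b2 : 2 * a * l - 3 * C0 ≤ (1 + 2 * a * Y) * E2 + 2 * a * F2 := by
    have t1 : (1 + 2 * a * Y) * (-C0) ≤ (1 + 2 * a * Y) * E2 :=
      mul_le_mul_of_nonneg_left hE2 (by linarith)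
    have t2 : (2 * a) * l ≤ (2 * a) * F2 := mul_le_mul_of_nonneg_left hF2 (by linarith)
    have t3 : (1 + 2 * a * Y) * C0 ≤ 3 * C0 := mul_le_mul_of_nonneg_right (by linarith) hC0.le
    linarith
  have hK : 0 ≤ |K| * C0 := mul_nonneg (abs_nonneg _) hC0.le
  obtain ⟨G, hG⟩ : ∃ G : ℝ, G = 2 * a * l - 3 * C0 := ⟨_, rfl⟩
  rw [← hG] at b1 b2
  have hGpos : 0 < G := by rw [hG, hal]; linarith
  have c1 : Y * G ≤ Q * ((1 + 2 * a * X) * E1 + 2 * a * F1) :=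
    mul_le_mul hQ b1 hGpos.le (by linarith)
  have c2 : X * G ≤ P * ((1 + 2 * a * Y) * E2 + 2 * a * F2) :=
    mul_le_mul hP b2 hGpos.le (by linarith)
  have c3 : -(18 * (M2 * (X + Y))) ≤ 2 * ((1 + 2 * a * X) * (1 + 2 * a * Y)) * β := by
    have t0 : 0 < 2 * ((1 + 2 * a * X) * (1 + 2 * a * Y)) :=
      mul_pos two_pos (mul_pos (by linarith) (by linarith))
    have t1 : |2 * ((1 + 2 * a * X) * (1 + 2 * a * Y)) * β| ≤ 18 * (M2 * (X + Y)) := by
      rw [abs_mul, abs_of_pos t0]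
      have t2 : (1 + 2 * a * X) * (1 + 2 * a * Y) ≤ 3 * 3 :=
        mul_le_mul (by linarith) (by linarith) (by linarith) (by norm_num)
      exact mul_le_mul (by linarith) hβ (abs_nonneg _) (by norm_num)
    exact (abs_le.1 t1).1
  have c4 : K * nD ≤ |K| * (6 * C0 * (X + Y)) :=
    (mul_le_mul_of_nonneg_right (le_abs_self K) hn).trans
      (mul_le_mul_of_nonneg_left hnD (abs_nonneg K))
  have c5 : |K| * (6 * C0 * (X + Y)) = (X + Y) * (6 * (|K| * C0)) := by ring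
  have c6 : G - 18 * M2 = 6 * (|K| * C0) + 1 := by rw [hG, hal]; ring
  have c7 : (X + Y) * (G - 18 * M2) = Y * G + -(18 * (M2 * (X + Y))) + X * G := by ring
  have c8 : (X + Y) * (G - 18 * M2) = (X + Y) * (6 * (|K| * C0)) + (X + Y) := by
    rw [c6]; ring
  linarith

/-- the formula for `Ell` of the barrier -/
theorem CNB_ell {A B C ξ η : V2 → ℝ} {x : V2} (h5 : ContDiffAt ℝ 2 ξ x) (h6 : ContDiffAt ℝ 2 η x)
    (a : ℝ) : Ell A B C (fun y => (ξ y + a * ξ y ^ 2) * (η y + a * η y ^ 2)) x =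
      (η x + a * η x ^ 2) * ((1 + 2 * a * ξ x) * Ell A B C ξ x
          + 2 * a * (A x * fderiv ℝ ξ x e0 ^ 2 + 2 * B x * (fderiv ℝ ξ x e0 * fderiv ℝ ξ x e1)
        + C x * fderiv ℝ ξ x e1 ^ 2))
        + 2 * ((1 + 2 * a * ξ x) * (1 + 2 * a * η x)) * (A x * (fderiv ℝ ξ x e0 * fderiv ℝ η x e0)
      + B x * (fderiv ℝ ξ x e0 * fderiv ℝ η x e1 + fderiv ℝ ξ x e1 * fderiv ℝ η x e0)
      + C x * (fderiv ℝ ξ x e1 * fderiv ℝ η x e1))
        + (ξ x + a * ξ x ^ 2) * ((1 + 2 * a * η x) * Ell A B C η x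
          + 2 * a * (A x * fderiv ℝ η x e0 ^ 2 + 2 * B x * (fderiv ℝ η x e0 * fderiv ℝ η x e1)
        + C x * fderiv ℝ η x e1 ^ 2)) := by
  obtain ⟨sP, fP, dP⟩ := CNB_sq h5 a
  obtain ⟨sQ, fQ, dQ⟩ := CNB_sq h6 a
  have t1 : ∀ b c : V2, D2 (fun y => (ξ y + a * ξ y ^ 2) * (η y + a * η y ^ 2)) x b c =
      ((1 + 2 * a * ξ x) * D2 ξ x b c + 2 * a * (fderiv ℝ ξ x b * fderiv ℝ ξ x c))
          * (η x + a * η x ^ 2)
      + ((1 + 2 * a * ξ x) * fderiv ℝ ξ x b) * ((1 + 2 * a * η x) * fderiv ℝ η x c)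
      + ((1 + 2 * a * ξ x) * fderiv ℝ ξ x c) * ((1 + 2 * a * η x) * fderiv ℝ η x b)
      + (ξ x + a * ξ x ^ 2) * ((1 + 2 * a * η x) * D2 η x b c
          + 2 * a * (fderiv ℝ η x b * fderiv ℝ η x c)) := by
    intro b c
    rw [D2_mul sP sQ, dP, dQ, fP, fQ]
    rfl
  unfold Ell
  rw [t1, t1, t1]
  ring

/-- bound of the derivative of the barrier -/
theorem CNB_nD {ξ η : V2 → ℝ} {x : V2} (h5 : ContDiffAt ℝ 2 ξ x) (h6 : ContDiffAt ℝ 2 η x)
    {a C0 : ℝ} (ha : 0 < a) (hC0 : 0 < C0) (hx : 0 < ξ x) (hy : 0 < η x) (h3 : a * ξ x < 1)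
    (h4 : a * η x < 1) (n5 : ‖fderiv ℝ ξ x‖ ≤ C0) (n6 : ‖fderiv ℝ η x‖ ≤ C0) :
    ‖fderiv ℝ (fun y => (ξ y + a * ξ y ^ 2) * (η y + a * η y ^ 2)) x‖
      ≤ 6 * C0 * (ξ x + η x) := by
  obtain ⟨sP, fP, dP⟩ := CNB_sq h5 a
  obtain ⟨sQ, fQ, dQ⟩ := CNB_sq h6 a
  have aX : 0 < a * ξ x := mul_pos ha hx
  have aY : 0 < a * η x := mul_pos ha hy
  obtain ⟨P1, P2⟩ := CNB_PQ ha hx h3
  obtain ⟨Q1, Q2⟩ := CNB_PQ ha hy h4
  rw [fderiv_fun_mul (sP.differentiableAt (by norm_num)) (sQ.differentiableAt (by norm_num)),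
    fP, fQ]
  refine (norm_add_le _ _).trans ?_
  rw [norm_smul, norm_smul, norm_smul, norm_smul, Real.norm_eq_abs, Real.norm_eq_abs,
    Real.norm_eq_abs, Real.norm_eq_abs]
  have n1 : |1 + 2 * a * η x| ≤ 3 := by rw [abs_of_pos (by linarith)]; linarith
  have n2 : |1 + 2 * a * ξ x| ≤ 3 := by rw [abs_of_pos (by linarith)]; linarith
  have n3 : |ξ x + a * ξ x ^ 2| ≤ 2 * ξ x := by
    rw [abs_of_pos (by linarith)]
    exact P2
  have n4 : |η x + a * η x ^ 2| ≤ 2 * η x := by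
    rw [abs_of_pos (by linarith)]
    exact Q2
  have m1 : |ξ x + a * ξ x ^ 2| * (|1 + 2 * a * η x| * ‖fderiv ℝ η x‖) ≤ (2 * ξ x) * (3 * C0) :=
    mul_le_mul n3 (mul_le_mul n1 n6 (norm_nonneg _) (by norm_num))
      (mul_nonneg (abs_nonneg _) (norm_nonneg _)) (by linarith)
  have m2 : |η x + a * η x ^ 2| * (|1 + 2 * a * ξ x| * ‖fderiv ℝ ξ x‖) ≤ (2 * η x) * (3 * C0) :=
    mul_le_mul n4 (mul_le_mul n2 n5 (norm_nonneg _) (by norm_num))
      (mul_nonneg (abs_nonneg _) (norm_nonneg _)) (by linarith)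
  linarith

theorem barrier {A B C ξ η : V2 → ℝ} {x₀ p q : V2} (K : ℝ)
    (hξ : ContDiffAt ℝ 2 ξ x₀) (hη : ContDiffAt ℝ 2 η x₀) (hξ0 : ξ x₀ = 0) (hη0 : η x₀ = 0)
    (hξp : 0 < fderiv ℝ ξ x₀ p) (hξq : fderiv ℝ ξ x₀ q = 0)
    (hηp : fderiv ℝ η x₀ p = 0) (hηq : 0 < fderiv ℝ η x₀ q)
    (hA : DifferentiableAt ℝ A x₀) (hB : DifferentiableAt ℝ B x₀) (hC : DifferentiableAt ℝ C x₀)
    (hAp : 0 < A x₀) (hABC : B x₀ ^ 2 < A x₀ * C x₀)
    (horth : A x₀ * (fderiv ℝ ξ x₀ e0 * fderiv ℝ η x₀ e0)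
      + B x₀ * (fderiv ℝ ξ x₀ e0 * fderiv ℝ η x₀ e1 + fderiv ℝ ξ x₀ e1 * fderiv ℝ η x₀ e0)
      + C x₀ * (fderiv ℝ ξ x₀ e1 * fderiv ℝ η x₀ e1) = 0) :
    ∃ a : ℝ, 0 < a ∧ ∀ᶠ x in 𝓝 x₀, 0 < ξ x → 0 < η x →
      K * ‖fderiv ℝ (fun y => (ξ y + a * ξ y ^ 2) * (η y + a * η y ^ 2)) x‖
        < Ell A B C (fun y => (ξ y + a * ξ y ^ 2) * (η y + a * η y ^ 2)) x := by
  obtain ⟨M, hM, eM⟩ := lin (hξ.of_le (by norm_num)) (hη.of_le (by norm_num)) hξ0 hη0
    hξp hξq hηp hηq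
  obtain ⟨M1, hM1, eβ⟩ := CNB_beta hξ hη hA hB hC horth
  obtain ⟨l1, C1, hl1, hC1, ev1⟩ := CNB_local (p := p) hξ hξp hA.continuousAt hB.continuousAt
    hC.continuousAt hAp hABC
  obtain ⟨l2, C2, hl2, hC2, ev2⟩ := CNB_local (p := q) hη hηq hA.continuousAt hB.continuousAt
    hC.continuousAt hAp hABC
  set l := min l1 l2 with hl
  set C0 := max C1 C2 with hC0
  have hlpos : 0 < l := lt_min hl1 hl2
  have hC0pos : 0 < C0 := lt_max_of_lt_left hC1
  set a := (3 * C0 + 18 * (M1 * M) + 6 * (|K| * C0) + 1) / (2 * l) with ha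
  have hapos : 0 < a := by positivity
  have hal : 2 * a * l = 3 * C0 + 18 * (M1 * M) + 6 * (|K| * C0) + 1 := by
    rw [ha]
    field_simp
  refine ⟨a, hapos, ?_⟩
  have ev3 : ∀ᶠ x in 𝓝 x₀, a * ξ x < 1 := by
    have h : ContinuousAt (fun x => a * ξ x) x₀ := hξ.continuousAt.const_mul a
    refine h.eventually (gt_mem_nhds ?_)
    simp only [hξ0]; simp
  have ev4 : ∀ᶠ x in 𝓝 x₀, a * η x < 1 := by
    have h : ContinuousAt (fun x => a * η x) x₀ := hη.continuousAt.const_mul a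
    refine h.eventually (gt_mem_nhds ?_)
    simp only [hη0]; simp
  have ev5 := hξ.eventually (by simp)
  have ev6 := hη.eventually (by simp)
  filter_upwards [eM, eβ, ev1, ev2, ev3, ev4, ev5, ev6] with x hMx hβ h1 h2 h3 h4 h5 h6 hx hy
  obtain ⟨g1, g2, g3⟩ := h1
  obtain ⟨k1, k2, k3⟩ := h2
  rw [abs_of_pos hx, abs_of_pos hy] at hMx
  rw [CNB_ell h5 h6]
  refine CNB_arith hapos hC0pos (mul_pos hM1 hM) hal hx hy h3 h4 (CNB_PQ hapos hx h3).1
    (CNB_PQ hapos hy h4).1 ?_ ?_ ?_ ((min_le_left _ _).trans g1) ((min_le_right _ _).trans k1)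
    (norm_nonneg _) (CNB_nD h5 h6 hapos hC0pos hx hy h3 h4 (g3.trans (le_max_left _ _))
      (k3.trans (le_max_right _ _)))
  · calc _ ≤ M1 * ‖x - x₀‖ := hβ
      _ ≤ M1 * (M * (ξ x + η x)) := mul_le_mul_of_nonneg_left hMx hM1.le
      _ = M1 * M * (ξ x + η x) := by ring
  · have := (abs_le.1 g2).1
    have := le_max_left C1 C2
    linarith
  · have := (abs_le.1 k2).1
    have := le_max_right C1 C2
    linarith

end Pool.Agent.H99.SC

end S_CNB

section S_CNC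

/-!
# CNC: the corner lemma (Serrin), for C^2 functions in the plane

`corner`.  `ξ, η` C^2 near `x₀`, both 0 at `x₀`; vectors `p, q` with `Dξ p > 0 = Dη p`,
`Dη q > 0 = Dξ q` at `x₀`; coefficients differentiable at `x₀`, positive definite at `x₀`, orthogonality
`horth`.  `w` C^2 near `x₀`, near `x₀`: `w > 0` on `{ξ > 0, η > 0}`, `w = 0` where `ξ = 0` or `η = 0`;
inequality on `{ξ > 0, η > 0}`; `Dw(x₀) = 0`, `D2 w x₀ p p = 0 = D2 w x₀ q q`.  Then `0 < D2 w x₀ p q`.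
Proof.  Let `v = (ξ + a ξ^2)(η + a η^2)` from `barrier` with `|K|`: `Ell v > |K| |Dv|` on
`{ξ > 0, η > 0}` in `ball x₀ ρ` (`ρ` small, everything needed holds there, also positive definiteness and
`aξ, aη <= 1`).  Let `R_r = {x in closedBall x₀ (ρ/2) : 0 <= ξ <= r, 0 <= η <= r}`, compact, contained
in `ball x₀ (ρ/2)` for small `r` (`lin`: `|x-x₀| <= 2 M r`).
 * On `{x in R_r : ξ = r}`: `w >= c η` for some `c > 0`: compactness; near a point with `η = 0` this is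
   `side` (there `ξ = r > 0`, so all hypotheses hold near this point); near a point with `η > 0`, `w > 0`.
   (Write: every point of this compact set has a neighbourhood and a `c > 0` such that `w >= c η` on it
   intersected with the set; finite subcover, `IsCompact.induction_on`.)  Since `v <= 4 r η` there,
   `w >= e v` for small `e > 0`.  Same on `{η = r}`.
 * On `{ξ = 0}` and `{η = 0}` (in `R_r`) both `w` and `v` vanish.
 * If `w - e v` has a negative minimum over `R_r`, it is at a point with `0 < ξ < r`, `0 < η < r`, in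
   `ball x₀ (ρ/2)`, hence a local minimum: `Dw = e Dv`, `0 <= Ell (w - e v)` there
   (`Ell_nonneg_of_isLocalMin`), so `Ell w >= e Ell v > e |K| |Dv| >= K |Dw|`: contradiction with `hdi`.
So `w >= e v` on `R_r`.  For `d = p + q` and small `s > 0`, `x₀ + s d` is in `R_r` (`Dξ d = Dξ p > 0`,
`Dη d = Dη q > 0`), so with `φ = w - e v`: `φ (x₀ + s d) >= 0` for small `s > 0`, `φ x₀ = 0`,
`Dφ x₀ = 0`, hence `D2 φ x₀ d d >= 0`, i.e.
`D2 w x₀ d d >= e D2 v x₀ d d = 2 e (Dξ d) (Dη d) = 2 e (Dξ p)(Dη q) > 0`.  By `hpp`, `hqq` and symmetry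
`D2 w x₀ d d = 2 D2 w x₀ p q`.
-/


open scoped RealInnerProductSpace Topology
open Metric Filter Set


namespace Pool.Agent.H99.SC

theorem CNC_line {ξ : V2 → ℝ} {x₀ d : V2} (h : DifferentiableAt ℝ ξ x₀) :
    HasDerivAt (fun s : ℝ => ξ (x₀ + s • d)) (fderiv ℝ ξ x₀ d) 0 := by
  have h1 : HasDerivAt (fun s : ℝ => x₀ + s • d) d 0 := by
    simpa using ((hasDerivAt_id (0 : ℝ)).smul_const d).const_add x₀
  have h3 : HasFDerivAt ξ (fderiv ℝ ξ x₀) (x₀ + (0 : ℝ) • d) := by simpa using h.hasFDerivAt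
  exact h3.comp_hasDerivAt 0 h1

theorem CNC_pos {ξ : V2 → ℝ} {x₀ d : V2} (h : DifferentiableAt ℝ ξ x₀) (h0 : ξ x₀ = 0)
    (hd : 0 < fderiv ℝ ξ x₀ d) : ∀ᶠ s : ℝ in 𝓝[>] 0, 0 < ξ (x₀ + s • d) := by
  have h2 := CNC_line (d := d) h
  have h4 := eventually_nhdsWithin_sign_eq_of_deriv_pos
    (f := fun s : ℝ => ξ (x₀ + s • d)) (x₀ := 0) (by rw [h2.deriv]; exact hd)
    (by simpa using h0)
  filter_upwards [h4.filter_mono nhdsWithin_le_nhds, self_mem_nhdsWithin] with s hs hs0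
  rw [sub_zero, sign_pos (show (0 : ℝ) < s from hs0)] at hs
  exact sign_eq_one_iff.1 hs

theorem CNC_second {φ : V2 → ℝ} {x₀ d : V2} (h : ContDiffAt ℝ 2 φ x₀) (h0 : φ x₀ = 0)
    (h1 : fderiv ℝ φ x₀ = 0) (hp : ∀ᶠ s : ℝ in 𝓝[>] 0, 0 ≤ φ (x₀ + s • d)) :
    0 ≤ D2 φ x₀ d d := by
  by_contra hneg
  push Not at hneg
  rw [← deriv_deriv_line h d] at hneg
  set g : ℝ → ℝ := fun s => φ (x₀ + s • d) with hg
  have hgd : HasDerivAt g 0 0 := by
    have := CNC_line (d := d) (h.differentiableAt (by simp))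
    rw [h1] at this
    simpa using this
  have h4 := eventually_nhdsWithin_sign_eq_of_deriv_neg (f := deriv g) (x₀ := 0) hneg hgd.deriv
  have h6 : ∀ᶠ s : ℝ in 𝓝[>] 0, deriv g s < 0 := by
    filter_upwards [h4.filter_mono nhdsWithin_le_nhds, self_mem_nhdsWithin] with s hs hs0
    rw [zero_sub, Left.sign_neg, sign_pos (show (0 : ℝ) < s from hs0)] at hs
    exact sign_eq_neg_one_iff.1 hs
  obtain ⟨δ, hδ, hd⟩ := (mem_nhdsGT_iff_exists_Ioo_subset).1 (h6.and hp)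
  have hδ0 : (0 : ℝ) < δ := hδ
  have hs : (0 : ℝ) < δ / 2 := by positivity
  have hm : δ / 2 ∈ Ioo 0 δ := ⟨hs, by linarith⟩
  obtain ⟨c, hc, hc'⟩ := exists_deriv_eq_slope g hs (by
    intro t ht
    rcases eq_or_lt_of_le ht.1 with h7 | h7
    · rw [← h7]; exact hgd.continuousAt.continuousWithinAt
    · have : deriv g t < 0 := (hd ⟨h7, by linarith [ht.2]⟩).1
      exact (differentiableAt_of_deriv_ne_zero this.ne).continuousAt.continuousWithinAt)
    (by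
      intro t ht
      have : deriv g t < 0 := (hd ⟨ht.1, by linarith [ht.2]⟩).1
      exact (differentiableAt_of_deriv_ne_zero this.ne).differentiableWithinAt)
  have h8 : deriv g c < 0 := (hd ⟨hc.1, by linarith [hc.2]⟩).1
  have h9 : 0 ≤ g (δ / 2) := (hd hm).2
  have h10 : g 0 = 0 := by simp [hg, h0]
  rw [hc', h10, sub_zero, sub_zero] at h8
  have : 0 ≤ g (δ / 2) / (δ / 2) := by positivity
  linarith

theorem CNC_edge {A B C w η : V2 → ℝ} {S : Set V2} {K : ℝ} (hS : IsCompact S)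
    (h : ∀ x ∈ S, ContDiffAt ℝ 2 η x ∧ fderiv ℝ η x ≠ 0 ∧ ContDiffAt ℝ 2 w x ∧
      ContinuousAt A x ∧ ContinuousAt B x ∧ ContinuousAt C x ∧ 0 < A x ∧ B x ^ 2 < A x * C x)
    (hη : ∀ x ∈ S, 0 ≤ η x) (h0 : ∀ x ∈ S, ∀ᶠ z in 𝓝 x, η z = 0 → w z = 0)
    (hp : ∀ x ∈ S, ∀ᶠ z in 𝓝 x, 0 < η z → 0 < w z)
    (hdi : ∀ x ∈ S, ∀ᶠ z in 𝓝 x, 0 < η z → Ell A B C w z ≤ K * ‖fderiv ℝ w z‖) :
    ∃ c : ℝ, 0 < c ∧ ∀ x ∈ S, c * η x ≤ w x := by
  have key : ∃ c : ℝ, 0 < c ∧ ∀ x ∈ S, 0 ≤ η x → c * η x ≤ w x := by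
    refine hS.induction_on (p := fun T => ∃ c : ℝ, 0 < c ∧ ∀ x ∈ T, 0 ≤ η x → c * η x ≤ w x)
      ⟨1, one_pos, fun x hx => absurd hx (notMem_empty x)⟩ ?_ ?_ ?_
    · rintro s t hst ⟨c, hc, hct⟩
      exact ⟨c, hc, fun x hx => hct x (hst hx)⟩
    · rintro s t ⟨c, hc, hcs⟩ ⟨c', hc', hct⟩
      refine ⟨min c c', lt_min hc hc', ?_⟩
      rintro x (hx | hx) hx0
      · exact (mul_le_mul_of_nonneg_right (min_le_left _ _) hx0).trans (hcs x hx hx0)
      · exact (mul_le_mul_of_nonneg_right (min_le_right _ _) hx0).trans (hct x hx hx0)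
    · intro x hx
      obtain ⟨a1, a2, a3, a4, a5, a6, a7, a8⟩ := h x hx
      have hev : ∃ c : ℝ, 0 < c ∧ ∀ᶠ z in 𝓝 x, 0 ≤ η z → c * η z ≤ w z := by
        rcases eq_or_lt_of_le (hη x hx) with h1 | h1
        · exact side a1 h1.symm a2 a3 (h0 x hx) (hp x hx) a4 a5 a6 a7 a8 (hdi x hx)
        · have hw : 0 < w x := (hp x hx).self_of_nhds h1
          have c1 : ∀ᶠ z in 𝓝 x, w x / 2 < w z :=
            a3.continuousAt.eventually_const_lt (by linarith)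
          have c2 : ∀ᶠ z in 𝓝 x, η z < η x + 1 :=
            a1.continuousAt.eventually_lt_const (by linarith)
          refine ⟨w x / 2 / (η x + 1), by positivity, ?_⟩
          filter_upwards [c1, c2] with z hz1 hz2 hz3
          calc w x / 2 / (η x + 1) * η z ≤ w x / 2 / (η x + 1) * (η x + 1) := by
                apply mul_le_mul_of_nonneg_left hz2.le (by positivity)
            _ = w x / 2 := by field_simp
            _ ≤ w z := hz1.le
      obtain ⟨c, hc, hev⟩ := hev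
      exact ⟨{z | 0 ≤ η z → c * η z ≤ w z}, mem_nhdsWithin_of_mem_nhds hev, c, hc,
        fun z hz => hz⟩
  obtain ⟨c, hc, hk⟩ := key
  exact ⟨c, hc, fun x hx => hk x hx (hη x hx)⟩

set_option maxHeartbeats 4000000 in
theorem corner {A B C w ξ η : V2 → ℝ} {x₀ p q : V2} {K : ℝ}
    (hξ : ContDiffAt ℝ 2 ξ x₀) (hη : ContDiffAt ℝ 2 η x₀) (hξ0 : ξ x₀ = 0) (hη0 : η x₀ = 0)
    (hξp : 0 < fderiv ℝ ξ x₀ p) (hξq : fderiv ℝ ξ x₀ q = 0)
    (hηp : fderiv ℝ η x₀ p = 0) (hηq : 0 < fderiv ℝ η x₀ q)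
    (hA : ∀ᶠ x in 𝓝 x₀, ContinuousAt A x) (hB : ∀ᶠ x in 𝓝 x₀, ContinuousAt B x)
    (hC : ∀ᶠ x in 𝓝 x₀, ContinuousAt C x)
    (hA' : DifferentiableAt ℝ A x₀) (hB' : DifferentiableAt ℝ B x₀)
    (hC' : DifferentiableAt ℝ C x₀)
    (hAp : 0 < A x₀) (hABC : B x₀ ^ 2 < A x₀ * C x₀)
    (horth : A x₀ * (fderiv ℝ ξ x₀ e0 * fderiv ℝ η x₀ e0)
      + B x₀ * (fderiv ℝ ξ x₀ e0 * fderiv ℝ η x₀ e1 + fderiv ℝ ξ x₀ e1 * fderiv ℝ η x₀ e0)
      + C x₀ * (fderiv ℝ ξ x₀ e1 * fderiv ℝ η x₀ e1) = 0)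
    (hw : ContDiffAt ℝ 2 w x₀) (hwD : fderiv ℝ w x₀ = 0)
    (hwp : ∀ᶠ x in 𝓝 x₀, 0 < ξ x → 0 < η x → 0 < w x)
    (hwξ : ∀ᶠ x in 𝓝 x₀, ξ x = 0 → w x = 0) (hwη : ∀ᶠ x in 𝓝 x₀, η x = 0 → w x = 0)
    (hdi : ∀ᶠ x in 𝓝 x₀, 0 < ξ x → 0 < η x → Ell A B C w x ≤ K * ‖fderiv ℝ w x‖)
    (hpp : D2 w x₀ p p = 0) (hqq : D2 w x₀ q q = 0) :
    0 < D2 w x₀ p q := by
  obtain ⟨a, ha, hbar⟩ := barrier |K| hξ hη hξ0 hη0 hξp hξq hηp hηq hA' hB' hC' hAp hABC horth
  obtain ⟨M, hM, hlin⟩ := lin (hξ.of_le (by norm_num)) (hη.of_le (by norm_num)) hξ0 hη0 hξp hξq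
    hηp hηq
  set v : V2 → ℝ := fun y => (ξ y + a * ξ y ^ 2) * (η y + a * η y ^ 2) with hv
  have hDξ : fderiv ℝ ξ x₀ ≠ 0 := by
    intro h; rw [h] at hξp; simp at hξp
  have hDη : fderiv ℝ η x₀ ≠ 0 := by
    intro h; rw [h] at hηq; simp at hηq
  have e1 : ∀ᶠ x in 𝓝 x₀, ContDiffAt ℝ 2 ξ x := hξ.eventually (by simp)
  have e2 : ∀ᶠ x in 𝓝 x₀, ContDiffAt ℝ 2 η x := hη.eventually (by simp)
  have e3 : ∀ᶠ x in 𝓝 x₀, ContDiffAt ℝ 2 w x := hw.eventually (by simp)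
  have e4 : ∀ᶠ x in 𝓝 x₀, fderiv ℝ ξ x ≠ 0 :=
    (contDiffAt_fderiv hξ).continuousAt.eventually_ne hDξ
  have e5 : ∀ᶠ x in 𝓝 x₀, fderiv ℝ η x ≠ 0 :=
    (contDiffAt_fderiv hη).continuousAt.eventually_ne hDη
  have e6 : ∀ᶠ x in 𝓝 x₀, 0 < A x := hA'.continuousAt.eventually_const_lt hAp
  have e7 : ∀ᶠ x in 𝓝 x₀, B x ^ 2 < A x * C x :=
    (hB'.continuousAt.pow 2).eventually_lt (hA'.continuousAt.mul hC'.continuousAt) hABC
  have e8 : ∀ᶠ x in 𝓝 x₀, a * ξ x < 1 :=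
    (hξ.continuousAt.const_mul a).eventually_lt_const (by simp [hξ0])
  have e9 : ∀ᶠ x in 𝓝 x₀, a * η x < 1 :=
    (hη.continuousAt.const_mul a).eventually_lt_const (by simp [hη0])
  obtain ⟨ρ, hρ, hball⟩ := Metric.eventually_nhds_iff_ball.1
    (((((((e1.and e2).and (e3.and e4)).and ((e5.and e6).and (e7.and e8))).and
    ((e9.and hbar).and (hlin.and hA))).and ((hB.and hC).and (hwp.and hwξ))).and (hwη.and hdi)))
  have hb : ∀ x ∈ ball x₀ ρ, ContDiffAt ℝ 2 ξ x ∧ ContDiffAt ℝ 2 η x ∧ ContDiffAt ℝ 2 w x ∧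
      fderiv ℝ ξ x ≠ 0 ∧ fderiv ℝ η x ≠ 0 ∧ 0 < A x ∧ B x ^ 2 < A x * C x ∧ a * ξ x < 1 ∧
      a * η x < 1 := by
    intro x hx
    obtain ⟨⟨⟨⟨⟨⟨h1, h2⟩, h3, h4⟩, ⟨h5, h6⟩, h7, h8⟩, ⟨h9, h10⟩, h11, h12⟩, ⟨h13, h14⟩, h15, h16⟩,
      h17, h18⟩ := hball x hx
    exact ⟨h1, h2, h3, h4, h5, h6, h7, h8, h9⟩
  have hb' : ∀ x ∈ ball x₀ ρ, (0 < ξ x → 0 < η x → |K| * ‖fderiv ℝ v x‖ < Ell A B C v x) ∧
      (‖x - x₀‖ ≤ M * (|ξ x| + |η x|)) ∧ ContinuousAt A x ∧ ContinuousAt B x ∧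
      ContinuousAt C x ∧ (0 < ξ x → 0 < η x → 0 < w x) ∧ (ξ x = 0 → w x = 0) ∧
      (η x = 0 → w x = 0) ∧
      (0 < ξ x → 0 < η x → Ell A B C w x ≤ K * ‖fderiv ℝ w x‖) := by
    intro x hx
    obtain ⟨⟨⟨⟨⟨⟨h1, h2⟩, h3, h4⟩, ⟨h5, h6⟩, h7, h8⟩, ⟨h9, h10⟩, h11, h12⟩, ⟨h13, h14⟩, h15, h16⟩,
      h17, h18⟩ := hball x hx
    exact ⟨h10, h11, h12, h13, h14, h15, h16, h17, h18⟩
  clear hball e1 e2 e3 e4 e5 e6 e7 e8 e9
  have hnear : ∀ x ∈ ball x₀ ρ, ∀ᶠ z in 𝓝 x, z ∈ ball x₀ ρ := fun x hx => isOpen_ball.mem_nhds hx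
  -- the rectangle
  set r : ℝ := ρ / (8 * M) with hr
  have hr0 : 0 < r := by positivity
  have hMr : 2 * M * r < ρ / 2 := by
    have : 2 * M * r = ρ / 4 := by rw [hr]; field_simp; norm_num
    rw [this]; linarith
  have hsub : closedBall x₀ (ρ / 2) ⊆ ball x₀ ρ := closedBall_subset_ball (by linarith)
  set R : Set V2 := closedBall x₀ (ρ / 2) ∩ ξ ⁻¹' Icc 0 r ∩ (closedBall x₀ (ρ / 2) ∩ η ⁻¹' Icc 0 r)
    with hR
  have hRmem : ∀ x, x ∈ R ↔ x ∈ closedBall x₀ (ρ / 2) ∧ (0 ≤ ξ x ∧ ξ x ≤ r) ∧ (0 ≤ η x ∧ η x ≤ r) := by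
    intro x
    simp only [hR, mem_inter_iff, mem_preimage, mem_Icc]
    tauto
  have hcξ : ContinuousOn ξ (closedBall x₀ (ρ / 2)) := fun x hx =>
    (hb x (hsub hx)).1.continuousAt.continuousWithinAt
  have hcη : ContinuousOn η (closedBall x₀ (ρ / 2)) := fun x hx =>
    (hb x (hsub hx)).2.1.continuousAt.continuousWithinAt
  have hcw : ContinuousOn w (closedBall x₀ (ρ / 2)) := fun x hx =>
    (hb x (hsub hx)).2.2.1.continuousAt.continuousWithinAt
  have hRcl : IsClosed R :=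
    (hcξ.preimage_isClosed_of_isClosed isClosed_closedBall isClosed_Icc).inter
      (hcη.preimage_isClosed_of_isClosed isClosed_closedBall isClosed_Icc)
  have hRsub : R ⊆ closedBall x₀ (ρ / 2) := fun x hx => ((hRmem x).1 hx).1
  have hRc : IsCompact R := (isCompact_closedBall x₀ (ρ / 2)).of_isClosed_subset hRcl hRsub
  have hRρ : R ⊆ ball x₀ ρ := hRsub.trans hsub
  have hRball : ∀ x ∈ R, x ∈ ball x₀ (ρ / 2) := by
    intro x hx
    obtain ⟨h1, h2, h3⟩ := (hRmem x).1 hx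
    have h4 := (hb' x (hRρ hx)).2.1
    rw [abs_of_nonneg h2.1, abs_of_nonneg h3.1] at h4
    rw [mem_ball, dist_eq_norm]
    have : M * (ξ x + η x) ≤ 2 * M * r := by nlinarith [h2.2, h3.2]
    linarith
  have hS : ∀ g : V2 → ℝ, ContinuousOn g (closedBall x₀ (ρ / 2)) → IsCompact (R ∩ g ⁻¹' {r}) := by
    intro g hg
    refine hRc.of_isClosed_subset ?_ inter_subset_left
    exact (hg.mono hRsub).preimage_isClosed_of_isClosed hRcl isClosed_singleton
  -- the two edges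
  obtain ⟨c1, hc1, hedge1⟩ := CNC_edge (A := A) (B := B) (C := C) (w := w) (η := η) (K := K)
    (hS ξ hcξ)
    (fun x hx => by
      obtain ⟨h1, h2, h3, h4, h5, h6, h7, h8, h9⟩ := hb x (hRρ hx.1)
      obtain ⟨i1, i2, i3, i4, i5, i6, i7, i8, i9⟩ := hb' x (hRρ hx.1)
      exact ⟨h2, h5, h3, i3, i4, i5, h6, h7⟩)
    (fun x hx => ((hRmem x).1 hx.1).2.2.1)
    (fun x hx => by
      filter_upwards [hnear x (hRρ hx.1)] with z hz
      exact (hb' z hz).2.2.2.2.2.2.2.1)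
    (fun x hx => by
      have hx2 : ξ x = r := hx.2
      have : ∀ᶠ z in 𝓝 x, 0 < ξ z :=
        (hb x (hRρ hx.1)).1.continuousAt.eventually_const_lt (by rw [hx2]; exact hr0)
      filter_upwards [hnear x (hRρ hx.1), this] with z hz hz1 hz2
      exact (hb' z hz).2.2.2.2.2.1 hz1 hz2)
    (fun x hx => by
      have hx2 : ξ x = r := hx.2
      have : ∀ᶠ z in 𝓝 x, 0 < ξ z :=
        (hb x (hRρ hx.1)).1.continuousAt.eventually_const_lt (by rw [hx2]; exact hr0)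
      filter_upwards [hnear x (hRρ hx.1), this] with z hz hz1 hz2
      exact (hb' z hz).2.2.2.2.2.2.2.2 hz1 hz2)
  obtain ⟨c2, hc2, hedge2⟩ := CNC_edge (A := A) (B := B) (C := C) (w := w) (η := ξ) (K := K)
    (hS η hcη)
    (fun x hx => by
      obtain ⟨h1, h2, h3, h4, h5, h6, h7, h8, h9⟩ := hb x (hRρ hx.1)
      obtain ⟨i1, i2, i3, i4, i5, i6, i7, i8, i9⟩ := hb' x (hRρ hx.1)
      exact ⟨h1, h4, h3, i3, i4, i5, h6, h7⟩)
    (fun x hx => ((hRmem x).1 hx.1).2.1.1)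
    (fun x hx => by
      filter_upwards [hnear x (hRρ hx.1)] with z hz
      exact (hb' z hz).2.2.2.2.2.2.1)
    (fun x hx => by
      have hx2 : η x = r := hx.2
      have : ∀ᶠ z in 𝓝 x, 0 < η z :=
        (hb x (hRρ hx.1)).2.1.continuousAt.eventually_const_lt (by rw [hx2]; exact hr0)
      filter_upwards [hnear x (hRρ hx.1), this] with z hz hz1 hz2
      exact (hb' z hz).2.2.2.2.2.1 hz2 hz1)
    (fun x hx => by
      have hx2 : η x = r := hx.2
      have : ∀ᶠ z in 𝓝 x, 0 < η z :=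
        (hb x (hRρ hx.1)).2.1.continuousAt.eventually_const_lt (by rw [hx2]; exact hr0)
      filter_upwards [hnear x (hRρ hx.1), this] with z hz hz1 hz2
      exact (hb' z hz).2.2.2.2.2.2.2.2 hz2 hz1)
  set e : ℝ := min c1 c2 / (4 * r) with he
  have he0 : 0 < e := by positivity
  have hvC : ∀ x ∈ ball x₀ ρ, ContDiffAt ℝ 2 v x := by
    intro x hx
    have h1 := (hb x hx).1
    have h2 := (hb x hx).2.1
    exact (h1.add (contDiffAt_const.mul (h1.pow 2))).mul (h2.add (contDiffAt_const.mul (h2.pow 2)))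
  have hφC : ∀ x ∈ ball x₀ ρ, ContDiffAt ℝ 2 (fun y => w y - e * v y) x := fun x hx =>
    (hb x hx).2.2.1.sub (contDiffAt_const.mul (hvC x hx))
  have hvle : ∀ x ∈ R, v x ≤ 4 * ξ x * η x := by
    intro x hx
    obtain ⟨h1, h2, h3⟩ := (hRmem x).1 hx
    obtain ⟨-, -, -, -, -, -, -, h8, h9⟩ := hb x (hRρ hx)
    have k1 : ξ x + a * ξ x ^ 2 ≤ 2 * ξ x := by nlinarith [h2.1]
    have k2 : η x + a * η x ^ 2 ≤ 2 * η x := by nlinarith [h3.1]
    have k3 : 0 ≤ η x + a * η x ^ 2 := by have := h3.1; positivity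
    calc v x = (ξ x + a * ξ x ^ 2) * (η x + a * η x ^ 2) := rfl
      _ ≤ (2 * ξ x) * (2 * η x) := mul_le_mul k1 k2 k3 (by linarith [h2.1])
      _ = _ := by ring
  -- comparison on the rectangle
  have hcomp : ∀ x ∈ R, 0 ≤ w x - e * v x := by
    by_contra hcon
    push Not at hcon
    obtain ⟨y, hy, hyneg⟩ := hcon
    have hφc : ContinuousOn (fun y => w y - e * v y) R := fun x hx =>
      (hφC x (hRρ hx)).continuousAt.continuousWithinAt
    obtain ⟨z, hz, hzmin⟩ := hRc.exists_isMinOn ⟨y, hy⟩ hφc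
    have hzneg : w z - e * v z < 0 := lt_of_le_of_lt (hzmin hy) hyneg
    obtain ⟨g1, g2, g3⟩ := (hRmem z).1 hz
    obtain ⟨i1, i2, i3, i4, i5, i6, i7, i8, i9⟩ := hb' z (hRρ hz)
    have n1 : ξ z ≠ 0 := by
      intro h
      have : v z = 0 := by simp [hv, h]
      rw [i7 h, this] at hzneg
      simp at hzneg
    have n2 : η z ≠ 0 := by
      intro h
      have : v z = 0 := by simp [hv, h]
      rw [i8 h, this] at hzneg
      simp at hzneg
    have n3 : ξ z ≠ r := by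
      intro h
      have k1 := hedge1 z ⟨hz, h⟩
      have k2 := hvle z hz
      rw [h] at k2
      have k3 : e * v z ≤ e * (4 * r * η z) := mul_le_mul_of_nonneg_left k2 he0.le
      have k4 : e * (4 * r * η z) = min c1 c2 * η z := by rw [he]; field_simp
      have k5 : min c1 c2 * η z ≤ c1 * η z := mul_le_mul_of_nonneg_right (min_le_left _ _) g3.1
      linarith
    have n4 : η z ≠ r := by
      intro h
      have k1 := hedge2 z ⟨hz, h⟩
      have k2 := hvle z hz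
      rw [h] at k2
      have k3 : e * v z ≤ e * (4 * ξ z * r) := mul_le_mul_of_nonneg_left k2 he0.le
      have k4 : e * (4 * ξ z * r) = min c1 c2 * ξ z := by rw [he]; field_simp
      have k5 : min c1 c2 * ξ z ≤ c2 * ξ z := mul_le_mul_of_nonneg_right (min_le_right _ _) g2.1
      linarith
    have p1 : 0 < ξ z := lt_of_le_of_ne g2.1 (Ne.symm n1)
    have p2 : 0 < η z := lt_of_le_of_ne g3.1 (Ne.symm n2)
    have p3 : ξ z < r := lt_of_le_of_ne g2.2 n3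
    have p4 : η z < r := lt_of_le_of_ne g3.2 n4
    obtain ⟨h1, h2, h3, h4, h5, h6, h7, h8, h9⟩ := hb z (hRρ hz)
    have hRn : ∀ᶠ x in 𝓝 z, x ∈ R := by
      filter_upwards [isOpen_ball.mem_nhds (hRball z hz), h1.continuousAt.eventually_const_lt p1,
        h1.continuousAt.eventually_lt_const p3, h2.continuousAt.eventually_const_lt p2,
        h2.continuousAt.eventually_lt_const p4] with x x1 x2 x3 x4 x5
      exact (hRmem x).2 ⟨ball_subset_closedBall x1, ⟨x2.le, x3.le⟩, x4.le, x5.le⟩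
    have hloc : IsLocalMin (fun y => w y - e * v y) z := by
      filter_upwards [hRn] with x hx
      exact hzmin hx
    have q1 := Ell_nonneg_of_isLocalMin h6 h7 (hφC z (hRρ hz)) hloc
    have q2 : Ell A B C (fun y => w y - e * v y) z = Ell A B C w z - e * Ell A B C v z := by
      simp only [Ell, D2_sub_smul h3 (hvC z (hRρ hz)) e]
      ring
    have q3 : fderiv ℝ w z = e • fderiv ℝ v z := by
      have t1 := hloc.fderiv_eq_zero
      have t2 : fderiv ℝ (fun y => w y - e * v y) z = fderiv ℝ w z - e • fderiv ℝ v z := by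
        have d1 := (h3.differentiableAt (by simp)).hasFDerivAt
        have d2 := ((hvC z (hRρ hz)).differentiableAt (by simp)).hasFDerivAt
        exact (d1.sub (d2.const_mul e)).fderiv
      rw [t2] at t1
      exact sub_eq_zero.1 t1
    have q4 : ‖fderiv ℝ w z‖ = e * ‖fderiv ℝ v z‖ := by
      rw [q3, norm_smul, Real.norm_eq_abs, abs_of_pos he0]
    have q5 := i1 p1 p2
    have q6 := i9 p1 p2
    rw [q4] at q6
    have q7 : K * (e * ‖fderiv ℝ v z‖) ≤ |K| * (e * ‖fderiv ℝ v z‖) :=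
      mul_le_mul_of_nonneg_right (le_abs_self K) (by positivity)
    have q8 : e * (|K| * ‖fderiv ℝ v z‖) < e * Ell A B C v z := mul_lt_mul_of_pos_left q5 he0
    rw [q2] at q1
    have q9 : |K| * (e * ‖fderiv ℝ v z‖) = e * (|K| * ‖fderiv ℝ v z‖) := by ring
    linarith
  -- second derivative along `p + q`
  set d : V2 := p + q with hd
  have hξd : 0 < fderiv ℝ ξ x₀ d := by rw [hd, map_add, hξq, add_zero]; exact hξp
  have hηd : 0 < fderiv ℝ η x₀ d := by rw [hd, map_add, hηp, zero_add]; exact hηq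
  have hx₀ : x₀ ∈ ball x₀ ρ := mem_ball_self hρ
  have hline : Tendsto (fun s : ℝ => x₀ + s • d) (𝓝 0) (𝓝 x₀) := by
    have h1 : ContinuousAt (fun s : ℝ => x₀ + s • d) 0 := by fun_prop
    simpa [ContinuousAt] using h1
  have hin : ∀ᶠ s : ℝ in 𝓝[>] 0, x₀ + s • d ∈ R := by
    have t1 := CNC_pos (hξ.differentiableAt (by simp)) hξ0 hξd
    have t2 := CNC_pos (hη.differentiableAt (by simp)) hη0 hηd
    have t3 : ∀ᶠ s : ℝ in 𝓝 0, x₀ + s • d ∈ ball x₀ (ρ / 2) :=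
      hline.eventually (ball_mem_nhds x₀ (by positivity))
    have t4 : ∀ᶠ s : ℝ in 𝓝 0, ξ (x₀ + s • d) < r := by
      have : ∀ᶠ x in 𝓝 x₀, ξ x < r := hξ.continuousAt.eventually_lt_const (by rw [hξ0]; exact hr0)
      exact hline.eventually this
    have t5 : ∀ᶠ s : ℝ in 𝓝 0, η (x₀ + s • d) < r := by
      have : ∀ᶠ x in 𝓝 x₀, η x < r := hη.continuousAt.eventually_lt_const (by rw [hη0]; exact hr0)
      exact hline.eventually this
    filter_upwards [t1, t2, t3.filter_mono nhdsWithin_le_nhds, t4.filter_mono nhdsWithin_le_nhds,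
      t5.filter_mono nhdsWithin_le_nhds] with s s1 s2 s3 s4 s5
    exact (hRmem _).2 ⟨ball_subset_closedBall s3, ⟨s1.le, s4.le⟩, s2.le, s5.le⟩
  have hw0 : w x₀ = 0 := (hb' x₀ hx₀).2.2.2.2.2.2.1 hξ0
  have hv0 : v x₀ = 0 := by simp [hv, hξ0]
  set P : V2 → ℝ := fun y => ξ y + a * ξ y ^ 2 with hP
  set Q : V2 → ℝ := fun y => η y + a * η y ^ 2 with hQ
  have hPC : ContDiffAt ℝ 2 P x₀ := hξ.add (contDiffAt_const.mul (hξ.pow 2))
  have hQC : ContDiffAt ℝ 2 Q x₀ := hη.add (contDiffAt_const.mul (hη.pow 2))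
  have hP0 : P x₀ = 0 := by simp [hP, hξ0]
  have hQ0 : Q x₀ = 0 := by simp [hQ, hη0]
  have hgen : ∀ f : V2 → ℝ, ContDiffAt ℝ 2 f x₀ → f x₀ = 0 →
      fderiv ℝ (fun y => f y + a * f y ^ 2) x₀ = fderiv ℝ f x₀ := by
    intro f hf hf0
    have d1 := (hf.differentiableAt (by simp)).hasFDerivAt
    have d2 := d1.add ((d1.pow 2).const_mul a)
    have d3 := d2.fderiv
    refine d3.trans ?_
    ext u
    simp [hf0]
  have hDP : fderiv ℝ P x₀ = fderiv ℝ ξ x₀ := hgen ξ hξ hξ0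
  have hDQ : fderiv ℝ Q x₀ = fderiv ℝ η x₀ := hgen η hη hη0
  have hvPQ : v = fun y => P y * Q y := rfl
  have hDv : fderiv ℝ v x₀ = 0 := by
    have d1 := (hPC.differentiableAt (by simp)).hasFDerivAt
    have d2 := (hQC.differentiableAt (by simp)).hasFDerivAt
    have d3 := (d1.mul d2).fderiv
    rw [hvPQ]
    refine d3.trans ?_
    rw [hP0, hQ0]
    simp
  have hD2v : D2 v x₀ d d = 2 * (fderiv ℝ ξ x₀ d * fderiv ℝ η x₀ d) := by
    rw [hvPQ, D2_mul hPC hQC, hP0, hQ0, hDP, hDQ]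
    ring
  have hDφ : fderiv ℝ (fun y => w y - e * v y) x₀ = 0 := by
    have d1 := (hw.differentiableAt (by simp)).hasFDerivAt
    have d2 := ((hvC x₀ hx₀).differentiableAt (by simp)).hasFDerivAt
    have d3 := (d1.sub (d2.const_mul e)).fderiv
    refine d3.trans ?_
    rw [hwD, hDv]
    simp
  have hfin := CNC_second (d := d) (hφC x₀ hx₀) (by rw [hw0, hv0]; simp) hDφ (by
    filter_upwards [hin] with s hs
    exact hcomp _ hs)
  rw [D2_sub_smul hw (hvC x₀ hx₀) e, hD2v] at hfin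
  have hexp : D2 w x₀ d d = 2 * D2 w x₀ p q := by
    rw [hd, D2_add, D2_add', D2_add', hpp, hqq, D2_symm hw q p]
    ring
  rw [hexp] at hfin
  have : 0 < e * (2 * (fderiv ℝ ξ x₀ d * fderiv ℝ η x₀ d)) := by positivity
  linarith

end Pool.Agent.H99.SC

end S_CNC

section S_CND

/-!
# CND: second derivative along a zero curve

`η` C^1 at `x₀`, `η x₀ = 0`, `Dη(x₀) ≠ 0`; `w` C^2 at `x₀`, `Dw(x₀) = 0`, `w = 0` on `{η = 0}` near `x₀`,
`Dη(x₀) p = 0`.  Then `D2 w x₀ p p = 0`.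
Proof.  Let `Dη(x₀) q = 1`.  Fix `δ > 0`.  For small `s > 0` the function `τ ↦ η (x₀ + s p + τ q)` is
`τ + o(s)` for `|τ| ≤ δ s`, so it changes sign on `[-δ s, δ s]`: a zero `τ`, `|τ| ≤ δ s`.  There `w = 0`.
Taylor: `w (x₀ + v) = (1/2) D2 w x₀ v v + o(|v|^2)`.  So `|D2 w x₀ (s p + τ q) (s p + τ q)| ≤ δ s^2` for small
`s`; divide by `s^2`: `|D2 w x₀ p p| ≤ C δ` with `C` independent of `δ ≤ 1`.
(Alternatively apply the implicit function theorem to get a C^1 curve `c` in `{η = 0}` with velocity `p`;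
then `0 = w (c s) = (1/2) D2 w x₀ (c s - x₀) (c s - x₀) + o(s^2)`.)
-/


open scoped RealInnerProductSpace Topology
open Metric Filter Set


namespace Pool.Agent.H99.SC

theorem taylor2 {w : V2 → ℝ} {x₀ : V2} (hw : ContDiffAt ℝ 2 w x₀) (h0 : w x₀ = 0)
    (hD : fderiv ℝ w x₀ = 0) {ε : ℝ} (hε : 0 < ε) :
    ∃ δ : ℝ, 0 < δ ∧ ∀ v : V2, ‖v‖ < δ → |w (x₀ + v) - (1 / 2) * D2 w x₀ v v| ≤ ε * ‖v‖ ^ 2 := by
  set Q : V2 →L[ℝ] V2 →L[ℝ] ℝ := fderiv ℝ (fderiv ℝ w) x₀ with hQ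
  have hQd : HasFDerivAt (fderiv ℝ w) Q x₀ :=
    ((contDiffAt_fderiv hw).differentiableAt (by norm_num)).hasFDerivAt
  have h1 : ∀ᶠ x in 𝓝 x₀, ‖fderiv ℝ w x - fderiv ℝ w x₀ - Q (x - x₀)‖ ≤ ε * ‖x - x₀‖ :=
    hQd.isLittleO.bound hε
  have h2 : ∀ᶠ x in 𝓝 x₀, DifferentiableAt ℝ w x := by
    filter_upwards [hw.eventually (by simp)] with x hx
    exact hx.differentiableAt (by norm_num)
  obtain ⟨δ, hδ, hball⟩ := Metric.eventually_nhds_iff_ball.1 (h1.and h2)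
  refine ⟨δ, hδ, fun v hv => ?_⟩
  have hmem : ∀ s ∈ Icc (0 : ℝ) 1, x₀ + s • v ∈ ball x₀ δ := by
    intro s hs
    rw [mem_ball, dist_eq_norm, add_sub_cancel_left, norm_smul, Real.norm_of_nonneg hs.1]
    exact lt_of_le_of_lt (mul_le_of_le_one_left (norm_nonneg _) hs.2) hv
  have hder : ∀ s ∈ Icc (0 : ℝ) 1, HasDerivWithinAt
      (fun s : ℝ => w (x₀ + s • v) - (1 / 2) * s ^ 2 * Q v v)
      (fderiv ℝ w (x₀ + s • v) v - s * Q v v) (Icc 0 1) s := by
    intro s hs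
    have hline : HasDerivAt (fun s : ℝ => x₀ + s • v) v s := by
      simpa using ((hasDerivAt_id s).smul_const v).const_add x₀
    have e1 : HasDerivAt (fun s : ℝ => w (x₀ + s • v)) (fderiv ℝ w (x₀ + s • v) v) s :=
      (hball _ (hmem s hs)).2.hasFDerivAt.comp_hasDerivAt s hline
    have e2 : HasDerivAt (fun s : ℝ => (1 / 2) * s ^ 2 * Q v v) (s * Q v v) s := by
      have := ((hasDerivAt_pow 2 s).const_mul (1 / 2 : ℝ)).mul_const (Q v v)
      refine this.congr_deriv ?_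
      push_cast
      ring
    exact (e1.sub e2).hasDerivWithinAt
  have key := norm_image_sub_le_of_norm_deriv_le_segment_01' (C := ε * ‖v‖ ^ 2) hder (by
    intro s hs
    have hs' : s ∈ Icc (0 : ℝ) 1 := ⟨hs.1, hs.2.le⟩
    have e3 := (hball _ (hmem s hs')).1
    rw [hD, sub_zero, add_sub_cancel_left, map_smul] at e3
    have e4 : fderiv ℝ w (x₀ + s • v) v - s * Q v v =
        (fderiv ℝ w (x₀ + s • v) - s • Q v) v := by
      simp
    rw [e4]
    refine (ContinuousLinearMap.le_opNorm _ _).trans ?_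
    have e5 : ‖s • v‖ ≤ ‖v‖ := by
      rw [norm_smul, Real.norm_of_nonneg hs.1]
      exact mul_le_of_le_one_left (norm_nonneg _) hs'.2
    calc ‖fderiv ℝ w (x₀ + s • v) - s • Q v‖ * ‖v‖ ≤ (ε * ‖s • v‖) * ‖v‖ :=
          mul_le_mul_of_nonneg_right e3 (norm_nonneg _)
      _ ≤ (ε * ‖v‖) * ‖v‖ := by gcongr
      _ = ε * ‖v‖ ^ 2 := by ring)
  rw [Real.norm_eq_abs] at key
  have e6 : w (x₀ + (1 : ℝ) • v) - 1 / 2 * 1 ^ 2 * Q v v -
      (w (x₀ + (0 : ℝ) • v) - 1 / 2 * 0 ^ 2 * Q v v) = w (x₀ + v) - (1 / 2) * D2 w x₀ v v := by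
    rw [one_smul, zero_smul, add_zero, h0]
    unfold D2
    ring
  rw [e6] at key
  exact key

theorem CND_zero {η : V2 → ℝ} {x₀ p q : V2} (hη : ContDiffAt ℝ 1 η x₀) (hη0 : η x₀ = 0)
    (hp : fderiv ℝ η x₀ p = 0) (hq : fderiv ℝ η x₀ q = 1) {δ : ℝ} (hδ : 0 < δ) (hδ1 : δ ≤ 1) :
    ∃ ρ > (0 : ℝ), ∀ s : ℝ, 0 < s → s * (‖p‖ + ‖q‖) < ρ →
      ∃ τ : ℝ, |τ| ≤ δ * s ∧ η (x₀ + (s • p + τ • q)) = 0 := by
  have hC : 0 < ‖p‖ + ‖q‖ + 1 := by positivity
  have h1 : ∀ᶠ x in 𝓝 x₀, ‖η x - η x₀ - fderiv ℝ η x₀ (x - x₀)‖ ≤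
      (δ / (2 * (‖p‖ + ‖q‖ + 1))) * ‖x - x₀‖ :=
    (hη.differentiableAt (by norm_num)).hasFDerivAt.isLittleO.bound (by positivity)
  have h2 : ∀ᶠ x in 𝓝 x₀, ContinuousAt η x := by
    filter_upwards [hη.eventually (by simp)] with x hx
    exact hx.continuousAt
  obtain ⟨ρ, hρ, hball⟩ := Metric.eventually_nhds_iff_ball.1 (h1.and h2)
  refine ⟨ρ, hρ, fun s hs hsρ => ?_⟩
  have hn : ∀ τ : ℝ, |τ| ≤ δ * s → ‖s • p + τ • q‖ ≤ s * (‖p‖ + ‖q‖) := by
    intro τ hτ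
    refine (norm_add_le _ _).trans ?_
    rw [norm_smul, norm_smul, Real.norm_of_nonneg hs.le, Real.norm_eq_abs]
    have : |τ| ≤ s := hτ.trans (mul_le_of_le_one_left hs.le hδ1)
    have := mul_le_mul_of_nonneg_right this (norm_nonneg q)
    linarith
  have hmem : ∀ τ : ℝ, |τ| ≤ δ * s → x₀ + (s • p + τ • q) ∈ ball x₀ ρ := by
    intro τ hτ
    rw [mem_ball, dist_eq_norm, add_sub_cancel_left]
    exact lt_of_le_of_lt (hn τ hτ) hsρ
  have hlin : ∀ τ : ℝ, |τ| ≤ δ * s → |η (x₀ + (s • p + τ • q)) - τ| ≤ δ * s / 2 := by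
    intro τ hτ
    have e := (hball _ (hmem τ hτ)).1
    rw [hη0, sub_zero, add_sub_cancel_left, map_add, map_smul, map_smul, hp, hq, smul_zero,
      zero_add, smul_eq_mul, mul_one, Real.norm_eq_abs] at e
    refine e.trans ?_
    calc δ / (2 * (‖p‖ + ‖q‖ + 1)) * ‖s • p + τ • q‖
        ≤ δ / (2 * (‖p‖ + ‖q‖ + 1)) * (s * (‖p‖ + ‖q‖ + 1)) := by
          refine mul_le_mul_of_nonneg_left ((hn τ hτ).trans ?_) (by positivity)
          exact mul_le_mul_of_nonneg_left (by linarith) hs.le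
      _ = δ * s / 2 := by field_simp
  have hδs : 0 < δ * s := by positivity
  have hcont : ContinuousOn (fun τ : ℝ => η (x₀ + (s • p + τ • q))) (Icc (-(δ * s)) (δ * s)) := by
    intro τ hτ
    have hc : ContinuousAt (fun τ : ℝ => x₀ + (s • p + τ • q)) τ :=
      Continuous.continuousAt (by fun_prop)
    exact (ContinuousAt.comp (g := η) (f := fun τ : ℝ => x₀ + (s • p + τ • q))
      (hball _ (hmem τ (abs_le.2 hτ))).2 hc).continuousWithinAt
  have hr := abs_le.1 (hlin (δ * s) (by rw [abs_of_pos hδs]))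
  have hl := abs_le.1 (hlin (-(δ * s)) (by rw [abs_neg, abs_of_pos hδs]))
  obtain ⟨τ, hτ, hz⟩ := intermediate_value_Icc (by linarith) hcont
    (show (0 : ℝ) ∈ Icc (η (x₀ + (s • p + (-(δ * s)) • q))) (η (x₀ + (s • p + (δ * s) • q))) from
      ⟨by linarith [hl.2], by linarith [hr.1]⟩)
  exact ⟨τ, abs_le.2 hτ, hz⟩

theorem D2_zero {w η : V2 → ℝ} {x₀ p : V2} (hη : ContDiffAt ℝ 1 η x₀) (hη0 : η x₀ = 0)
    (hηD : fderiv ℝ η x₀ ≠ 0) (hw : ContDiffAt ℝ 2 w x₀) (hwD : fderiv ℝ w x₀ = 0)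
    (hw0 : ∀ᶠ x in 𝓝 x₀, η x = 0 → w x = 0) (hp : fderiv ℝ η x₀ p = 0) :
    D2 w x₀ p p = 0 := by
  obtain ⟨q', hq'⟩ : ∃ q', fderiv ℝ η x₀ q' ≠ 0 := by
    by_contra hcon
    push Not at hcon
    exact hηD (ContinuousLinearMap.ext fun v => by simpa using hcon v)
  obtain ⟨q, hq⟩ : ∃ q, fderiv ℝ η x₀ q = 1 :=
    ⟨(fderiv ℝ η x₀ q')⁻¹ • q', by rw [map_smul, smul_eq_mul, inv_mul_cancel₀ hq']⟩
  have hwx : w x₀ = 0 := hw0.self_of_nhds hη0
  set a : ℝ := D2 w x₀ p p with ha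
  set b : ℝ := D2 w x₀ p q + D2 w x₀ q p with hb
  set c : ℝ := D2 w x₀ q q with hc
  have hexp : ∀ s τ : ℝ, D2 w x₀ (s • p + τ • q) (s • p + τ • q) =
      s ^ 2 * a + s * τ * b + τ ^ 2 * c := by
    intro s τ
    rw [D2_add, D2_add', D2_add', D2_smul, D2_smul, D2_smul, D2_smul, D2_smul', D2_smul',
      D2_smul', D2_smul']
    simp only [smul_eq_mul]
    rw [ha, hb, hc]
    ring
  have key : ∀ δ : ℝ, 0 < δ → δ ≤ 1 → |a| ≤ δ * (2 * (‖p‖ + ‖q‖) ^ 2 + |b| + |c|) := by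
    intro δ hδ hδ1
    obtain ⟨ρ1, hρ1, h1⟩ := CND_zero hη hη0 hp hq hδ hδ1
    obtain ⟨ρ2, hρ2, h2⟩ := taylor2 hw hwx hwD hδ
    obtain ⟨ρ3, hρ3, h3⟩ := Metric.eventually_nhds_iff_ball.1 hw0
    set ρ : ℝ := min ρ1 (min ρ2 ρ3) with hρ
    have hρ0 : 0 < ρ := by positivity
    set s : ℝ := ρ / (2 * (‖p‖ + ‖q‖ + 1)) with hs
    have hs0 : 0 < s := by positivity
    have hsρ : s * (‖p‖ + ‖q‖) < ρ := by
      have : s * (2 * (‖p‖ + ‖q‖ + 1)) = ρ := by
        rw [hs]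
        field_simp
      nlinarith [norm_nonneg p, norm_nonneg q]
    obtain ⟨τ, hτ, hz⟩ := h1 s hs0 (hsρ.trans_le (min_le_left _ _))
    have hn : ‖s • p + τ • q‖ ≤ s * (‖p‖ + ‖q‖) := by
      refine (norm_add_le _ _).trans ?_
      rw [norm_smul, norm_smul, Real.norm_of_nonneg hs0.le, Real.norm_eq_abs]
      have : |τ| ≤ s := hτ.trans (mul_le_of_le_one_left hs0.le hδ1)
      have := mul_le_mul_of_nonneg_right this (norm_nonneg q)
      linarith
    have hn2 : ‖s • p + τ • q‖ < ρ := lt_of_le_of_lt hn hsρ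
    have e1 := h2 _ (hn2.trans_le ((min_le_right _ _).trans (min_le_left _ _)))
    have e2 : w (x₀ + (s • p + τ • q)) = 0 := by
      refine h3 _ ?_ hz
      rw [mem_ball, dist_eq_norm, add_sub_cancel_left]
      exact hn2.trans_le ((min_le_right _ _).trans (min_le_right _ _))
    rw [e2, hexp, zero_sub, abs_neg] at e1
    have e3 : ‖s • p + τ • q‖ ^ 2 ≤ s ^ 2 * (‖p‖ + ‖q‖) ^ 2 := by
      rw [← mul_pow]
      exact pow_le_pow_left₀ (norm_nonneg _) hn 2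
    have e4 : |1 / 2 * (s ^ 2 * a + s * τ * b + τ ^ 2 * c)| ≤
        δ * (s ^ 2 * (‖p‖ + ‖q‖) ^ 2) := e1.trans (mul_le_mul_of_nonneg_left e3 hδ.le)
    have e5 : |s ^ 2 * a + s * τ * b + τ ^ 2 * c| ≤ 2 * (δ * (s ^ 2 * (‖p‖ + ‖q‖) ^ 2)) := by
      rw [abs_mul, abs_of_pos (by norm_num : (0 : ℝ) < 1 / 2)] at e4
      linarith
    have e6 : |s * τ * b| ≤ s ^ 2 * (δ * |b|) := by
      rw [abs_mul, abs_mul, abs_of_pos hs0]
      have := mul_le_mul_of_nonneg_right (mul_le_mul_of_nonneg_left hτ hs0.le) (abs_nonneg b)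
      linarith
    have e7 : |τ ^ 2 * c| ≤ s ^ 2 * (δ * |c|) := by
      rw [abs_mul, abs_pow]
      have h8 : |τ| ^ 2 ≤ (δ * s) ^ 2 := pow_le_pow_left₀ (abs_nonneg _) hτ 2
      have h9 : (δ * s) ^ 2 ≤ δ * s ^ 2 := by
        rw [mul_pow]
        refine mul_le_mul_of_nonneg_right ?_ (by positivity)
        nlinarith
      have := mul_le_mul_of_nonneg_right (h8.trans h9) (abs_nonneg c)
      linarith
    have e8 : s ^ 2 * |a| ≤ s ^ 2 * (δ * (2 * (‖p‖ + ‖q‖) ^ 2 + |b| + |c|)) := by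
      have e9 : |s ^ 2 * a| = s ^ 2 * |a| := by rw [abs_mul, abs_of_pos (by positivity : 0 < s ^ 2)]
      rw [← e9]
      have e10 : s ^ 2 * a = (s ^ 2 * a + s * τ * b + τ ^ 2 * c) - s * τ * b - τ ^ 2 * c := by ring
      have e11 := abs_sub (s ^ 2 * a + s * τ * b + τ ^ 2 * c - s * τ * b) (τ ^ 2 * c)
      have e12 := abs_sub (s ^ 2 * a + s * τ * b + τ ^ 2 * c) (s * τ * b)
      rw [← e10] at e11
      linarith
    exact le_of_mul_le_mul_left e8 (by positivity)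
  by_contra hne
  have hapos : 0 < |a| := abs_pos.2 hne
  set M : ℝ := 2 * (‖p‖ + ‖q‖) ^ 2 + |b| + |c| with hM
  have hM0 : 0 ≤ M := by positivity
  have h1 := key (min 1 (|a| / (2 * (M + 1)))) (by positivity) (min_le_left _ _)
  have h2 : min 1 (|a| / (2 * (M + 1))) * M ≤ (|a| / (2 * (M + 1))) * M :=
    mul_le_mul_of_nonneg_right (min_le_right _ _) hM0
  have h3 : (|a| / (2 * (M + 1))) * M < |a| := by
    rw [div_mul_eq_mul_div, div_lt_iff₀ (by positivity)]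
    nlinarith
  linarith

end Pool.Agent.H99.SC

end S_CND

section S_WHA

/-!
# WHA: the analytic core of the weak hinge (pure calculus, no surface)

`taylor_symm`: `f` C^2 at `p`: `|f (m+v) - f (m-v) - 2 Df(m) v| ≤ ω |v|^2` for `m` near `p`, `v` small
(one variable `φ(s) = f (m + s v) - f (m - s v) - 2 s Df(m) v`: `φ 0 = 0`, `φ' 0 = 0`,
`|φ''(s)| = |D2 f(m+sv) v v - D2 f (m-sv) v v| ≤ ω |v|^2`; twice the mean value inequality).

`wh_core`.  Write `Q = D2 f p`, `F x = fderiv f x`.  `p` on the unit circle, `f = 0` on the unit circle near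
`p`; `F p p ≠ 0`; `F p n = 0`, `0 < n 2`; `ν = (F p E3) p - (F p p) E3`; the functional
`L v = Q v n - ς F p p ⟪v,n⟫` has `L (TT p) = 0 < L ν`.  Note `F p (TT p) = 0` (differentiate `f = 0` along
the circle), `F p v = 0` means: `v` in the span of `TT p` and `ν`, because `p, TT p, E3` is an orthonormal basis
and `F p ν = 0`.  Sequences `nk → n`, `Yk → p`, `sk → 0`, `sk > 0`, `ςk → ς`.
(2) By `taylor_symm` with `m = Yk`, `v = sk nk` and h1, h2: `2 sk F(Yk) nk ≥ - ω sk^2 |nk|^2`, so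
  (i) `F(Yk) nk ≥ - ω sk |nk|^2 / 2` for every `ω > 0` and large `k`.
(4) `c_k = (Yk 0, Yk 1, 0)/sqrt(..)` (a point of the circle, `→ p`), `y_k = Yk - c_k`, in the span of
  `c_k` and `E3`, so `⟪y_k, TT c_k⟫ = 0` and `⟪y_k, TT p⟫ = o(|y_k|)`.  `(y_k) 2 = Yk 2`, so by h3
  `|y_k| ≥ |Yk 2| ≥ sk (nk) 2`, `sk ≤ C |y_k|`, `y_k ≠ 0`.
  `f (Yk) = f(Yk + sk nk) + o(sk) = o(sk)`: mean value, `F p n = 0` and continuity of `F`.  `f (c_k) = 0`
  for large `k`.  So `F p y_k = f Yk - f c_k + o(|y_k|) = o(|y_k|)`.  Hence `y_k/|y_k|` approaches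
  the line of `ν`; and by h3 its third coordinate has the sign of `F p p`, while `ν 2 = - F p p`: so
  `y_k/|y_k| + ν/|ν| → 0`.
  (To avoid subsequences: `y_k/|y_k| - ⟪y_k/|y_k|, ν/|ν|⟫ ν/|ν| → 0` and `⟪y_k/|y_k|, ν/|ν|⟫ < 0` eventually
  (its square tends to 1 and its sign is given by the third coordinate), so it tends to -1.
  Or use compactness of the unit sphere: enough to derive False along a subsequence.)
(5) `F(Yk) nk = F(c_k) nk + Q y_k n + o(|y_k|) ≤ ςk ⟪nk, c_k - Yk⟫ F(c_k) c_k + Q y_k n + o(|y_k|)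
  = L y_k + o(|y_k|)`, and `L y_k = - |y_k| (L ν / |ν|) + o(|y_k|)`.  So `F(Yk) nk ≤ - c |y_k|` with
  `c > 0` fixed, for large `k`; with (i) and `sk ≤ C |y_k|`: `ω C |n|^2 ≥ c`-type inequality, false for `ω` small.
-/


open scoped RealInnerProductSpace Topology
open Metric Filter Set


namespace Pool.Agent.H99.SC

theorem taylor_symm {f : V3 → ℝ} {p : V3} (hf : ContDiffAt ℝ 2 f p) {ω : ℝ} (hω : 0 < ω) :
    ∃ δ : ℝ, 0 < δ ∧ ∀ m v : V3, ‖m - p‖ < δ → ‖v‖ < δ →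
      |f (m + v) - f (m - v) - 2 * fderiv ℝ f m v| ≤ ω * ‖v‖ ^ 2 := by
  have hFs : HasStrictFDerivAt (fderiv ℝ f) (fderiv ℝ (fderiv ℝ f) p) p :=
    (contDiffAt_fderiv hf).hasStrictFDerivAt (by norm_num)
  have h1 := (Asymptotics.isLittleO_iff.mp hFs.isLittleO) (show (0 : ℝ) < ω / 2 by positivity)
  obtain ⟨δ₁, hδ₁, h2⟩ := Metric.eventually_nhds_iff.mp h1
  have hd : ∀ᶠ y in 𝓝 p, DifferentiableAt ℝ f y := by
    have := hf.eventually (by simp)
    filter_upwards [this] with y hy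
    exact hy.differentiableAt (by norm_num)
  obtain ⟨δ₂, hδ₂, h3⟩ := Metric.eventually_nhds_iff.mp hd
  refine ⟨min δ₁ δ₂ / 2, by positivity, fun m v hm hv => ?_⟩
  have hmv : ∀ s : ℝ, |s| ≤ 1 → ‖m + s • v - p‖ < min δ₁ δ₂ := by
    intro s hs
    have e1 : m + s • v - p = (m - p) + s • v := by abel
    have e2 : ‖s • v‖ ≤ ‖v‖ := by
      rw [norm_smul, Real.norm_eq_abs]
      nlinarith [norm_nonneg v]
    calc ‖m + s • v - p‖ ≤ ‖m - p‖ + ‖s • v‖ := by rw [e1]; exact norm_add_le _ _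
      _ < min δ₁ δ₂ / 2 + min δ₁ δ₂ / 2 := by linarith
      _ = min δ₁ δ₂ := by ring
  have hdiff : ∀ s : ℝ, |s| ≤ 1 → DifferentiableAt ℝ f (m + s • v) := by
    intro s hs
    apply h3
    rw [dist_eq_norm]
    exact lt_of_lt_of_le (hmv s hs) (min_le_right _ _)
  have hball : ∀ s : ℝ, |s| ≤ 1 →
      ‖fderiv ℝ f (m + s • v) - fderiv ℝ f m - fderiv ℝ (fderiv ℝ f) p (s • v)‖ ≤
        ω / 2 * ‖s • v‖ := by
    intro s hs
    have e1 : dist ((m + s • v, m) : V3 × V3) (p, p) < δ₁ := by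
      rw [Prod.dist_eq, max_lt_iff]
      constructor
      · simp only
        rw [dist_eq_norm]
        exact lt_of_lt_of_le (hmv s hs) (min_le_left _ _)
      · simp only
        have := hmv 0 (by simp)
        rw [zero_smul, add_zero] at this
        rw [dist_eq_norm]
        exact lt_of_lt_of_le this (min_le_left _ _)
    have e2 := h2 e1
    simp only [add_sub_cancel_left] at e2
    exact e2
  set φ : ℝ → ℝ := fun s => f (m + s • v) - f (m - s • v) - 2 * (s * fderiv ℝ f m v) with hφ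
  have hder : ∀ s ∈ Icc (0 : ℝ) 1, HasDerivWithinAt φ
      (fderiv ℝ f (m + s • v) v + fderiv ℝ f (m - s • v) v - 2 * fderiv ℝ f m v) (Icc 0 1) s := by
    intro s hs
    apply HasDerivAt.hasDerivWithinAt
    have hs1 : |s| ≤ 1 := by rw [abs_of_nonneg hs.1]; exact hs.2
    have hs2 : |-s| ≤ 1 := by rw [abs_neg]; exact hs1
    have hl1 : HasDerivAt (fun s : ℝ => m + s • v) v s := by
      simpa using ((hasDerivAt_id s).smul_const v).const_add m
    have hl2 : HasDerivAt (fun s : ℝ => m - s • v) (-v) s := by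
      simpa using ((hasDerivAt_id s).smul_const v).const_sub m
    have g1 : HasDerivAt (fun s : ℝ => f (m + s • v)) (fderiv ℝ f (m + s • v) v) s :=
      (hdiff s hs1).hasFDerivAt.comp_hasDerivAt s hl1
    have hd2 : DifferentiableAt ℝ f (m - s • v) := by
      have := hdiff (-s) hs2
      rwa [neg_smul, ← sub_eq_add_neg] at this
    have g2 : HasDerivAt (fun s : ℝ => f (m - s • v)) (fderiv ℝ f (m - s • v) (-v)) s :=
      hd2.hasFDerivAt.comp_hasDerivAt s hl2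
    have g3 : HasDerivAt (fun s : ℝ => 2 * (s * fderiv ℝ f m v)) (2 * (1 * fderiv ℝ f m v)) s :=
      ((hasDerivAt_id s).mul_const _).const_mul 2
    have g4 : HasDerivAt φ (fderiv ℝ f (m + s • v) v - fderiv ℝ f (m - s • v) (-v)
        - 2 * (1 * fderiv ℝ f m v)) s := (g1.sub g2).sub g3
    refine g4.congr_deriv ?_
    rw [map_neg]
    ring
  have hbd : ∀ s ∈ Ico (0 : ℝ) 1,
      ‖fderiv ℝ f (m + s • v) v + fderiv ℝ f (m - s • v) v - 2 * fderiv ℝ f m v‖ ≤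
        ω * ‖v‖ ^ 2 := by
    intro s hs
    have hs1 : |s| ≤ 1 := by rw [abs_of_nonneg hs.1]; exact hs.2.le
    have hs2 : |-s| ≤ 1 := by rw [abs_neg]; exact hs1
    have k1 := hball s hs1
    have k2 := hball (-s) hs2
    rw [neg_smul, ← sub_eq_add_neg, map_neg, norm_neg] at k2
    set A := fderiv ℝ f (m + s • v) - fderiv ℝ f m - fderiv ℝ (fderiv ℝ f) p (s • v) with hA
    set B := fderiv ℝ f (m - s • v) - fderiv ℝ f m - -(fderiv ℝ (fderiv ℝ f) p) (s • v) with hB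
    have e1 : fderiv ℝ f (m + s • v) v + fderiv ℝ f (m - s • v) v - 2 * fderiv ℝ f m v =
        (A + B) v := by
      rw [hA, hB]
      simp only [add_apply, sub_apply, neg_apply]
      ring
    rw [e1]
    have e2 : ‖s • v‖ ≤ ‖v‖ := by
      rw [norm_smul, Real.norm_eq_abs]
      nlinarith [norm_nonneg v]
    have e3 : ‖A + B‖ ≤ ω * ‖v‖ := by
      refine (norm_add_le _ _).trans ?_
      nlinarith [norm_nonneg v]
    calc ‖(A + B) v‖ ≤ ‖A + B‖ * ‖v‖ := (A + B).le_opNorm v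
      _ ≤ (ω * ‖v‖) * ‖v‖ := mul_le_mul_of_nonneg_right e3 (norm_nonneg _)
      _ = ω * ‖v‖ ^ 2 := by ring
  have hfin := norm_image_sub_le_of_norm_deriv_le_segment_01' hder hbd
  have e0 : φ 0 = 0 := by simp [hφ]
  have e1 : φ 1 = f (m + v) - f (m - v) - 2 * fderiv ℝ f m v := by simp [hφ]
  rw [e0, e1, sub_zero, Real.norm_eq_abs] at hfin
  exact hfin

theorem WHA_apply {G : ℕ → V3 →L[ℝ] ℝ} {A : V3 →L[ℝ] ℝ} {x : ℕ → V3} {y : V3}
    (hG : Tendsto G atTop (𝓝 A)) (hx : Tendsto x atTop (𝓝 y)) :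
    Tendsto (fun k => G k (x k)) atTop (𝓝 (A y)) :=
  ((continuous_fst.clm_apply continuous_snd :
    Continuous fun q : (V3 →L[ℝ] ℝ) × V3 => q.1 q.2).tendsto (A, y)).comp (hG.prodMk_nhds hx)

/-- the elementary convergence `α/β → -b/a` -/
theorem WHA_ratio {α β : ℕ → ℝ} {a b : ℝ} (ha : a ≠ 0) (hβ : ∀ᶠ k in atTop, β k ≠ 0)
    (hA : ∀ c : ℝ, 0 < c → ∀ᶠ k in atTop, |a * α k + b * β k| ≤ c * (|α k| + |β k|)) :
    Tendsto (fun k => α k / β k) atTop (𝓝 (-b / a)) := by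
  have ha' : 0 < |a| := abs_pos.mpr ha
  set C : ℝ := (2 * |b| + |a|) / |a| with hC
  have hC0 : 0 ≤ C := by positivity
  have hbd : ∀ᶠ k in atTop, |α k| ≤ C * |β k| := by
    filter_upwards [hA (|a| / 2) (by positivity)] with k hk
    have h1 : |a| * |α k| ≤ |a * α k + b * β k| + |b| * |β k| := by
      rw [← abs_mul, ← abs_mul]
      have : a * α k = (a * α k + b * β k) - b * β k := by ring
      calc |a * α k| = |(a * α k + b * β k) - b * β k| := by rw [← this]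
        _ ≤ |a * α k + b * β k| + |b * β k| := abs_sub _ _
    have h2 : |a| * |α k| ≤ (2 * |b| + |a|) * |β k| := by nlinarith
    rw [hC, div_mul_eq_mul_div, le_div_iff₀ ha']
    linarith
  rw [Metric.tendsto_nhds]
  intro ε hε
  filter_upwards [hbd, hβ, hA (ε * |a| / (2 * (C + 1))) (by positivity)] with k h1 h2 h3
  have hβ' : 0 < |β k| := abs_pos.mpr h2
  rw [Real.dist_eq]
  have e1 : α k / β k - -b / a = (a * α k + b * β k) / (a * β k) := by
    field_simp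
    ring
  rw [e1, abs_div, abs_mul, div_lt_iff₀ (by positivity)]
  calc |a * α k + b * β k| ≤ ε * |a| / (2 * (C + 1)) * (|α k| + |β k|) := h3
    _ ≤ ε * |a| / (2 * (C + 1)) * ((C + 1) * |β k|) := by
      apply mul_le_mul_of_nonneg_left _ (by positivity)
      linarith
    _ = ε * (|a| * |β k|) / 2 := by
      field_simp
    _ < ε * (|a| * |β k|) := by
      have : 0 < ε * (|a| * |β k|) := by positivity
      linarith

theorem wh_core {f : V3 → ℝ} {p n : V3} {ς : ℝ} (hf : ContDiffAt ℝ 2 f p) (hp2 : p 2 = 0)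
    (hp : p 0 ^ 2 + p 1 ^ 2 = 1)
    (hfc : ∀ᶠ y in 𝓝 p, y 2 = 0 → y 0 ^ 2 + y 1 ^ 2 = 1 → f y = 0)
    (hr : fderiv ℝ f p p ≠ 0) (hn : fderiv ℝ f p n = 0) (hn2 : 0 < n 2)
    (hL0 : D2 f p (TT p) n - ς * fderiv ℝ f p p * ⟪TT p, n⟫ = 0)
    (hL1 : 0 < D2 f p ((fderiv ℝ f p E3) • p - (fderiv ℝ f p p) • E3) n
      - ς * fderiv ℝ f p p * ⟪(fderiv ℝ f p E3) • p - (fderiv ℝ f p p) • E3, n⟫)
    {nk Yk : ℕ → V3} {sk ςk : ℕ → ℝ} (hnk : Tendsto nk atTop (𝓝 n))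
    (hYk : Tendsto Yk atTop (𝓝 p)) (hsk : Tendsto sk atTop (𝓝 0)) (hςk : Tendsto ςk atTop (𝓝 ς))
    (hs0 : ∀ k, 0 < sk k) (h1 : ∀ k, f (Yk k + sk k • nk k) = 0)
    (h2 : ∀ k, f (Yk k - sk k • nk k) ≤ 0)
    (h3 : ∀ k, (0 < fderiv ℝ f p p → sk k * (nk k) 2 ≤ (Yk k) 2) ∧
      (fderiv ℝ f p p < 0 → (Yk k) 2 ≤ -(sk k * (nk k) 2)))
    {δ : ℝ} (hδ : 0 < δ)
    (h4 : ∀ (k : ℕ) (c : V3), ‖c - p‖ < δ → c 2 = 0 → c 0 ^ 2 + c 1 ^ 2 = 1 →
      fderiv ℝ f c (nk k) ≤ ςk k * ⟪nk k, c - Yk k⟫ * fderiv ℝ f c c) : False := by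
  have hfs : HasStrictFDerivAt f (fderiv ℝ f p) p := hf.hasStrictFDerivAt (by norm_num)
  have hFs : HasStrictFDerivAt (fderiv ℝ f) (fderiv ℝ (fderiv ℝ f) p) p :=
    (contDiffAt_fderiv hf).hasStrictFDerivAt (by norm_num)
  have hFc : ContinuousAt (fderiv ℝ f) p := hFs.continuousAt
  set F : V3 → V3 →L[ℝ] ℝ := fderiv ℝ f with hF
  set a : ℝ := F p p with ha
  set b : ℝ := F p E3 with hb
  have ha' : 0 < |a| := abs_pos.mpr hr
  -- coordinates
  have c0 : Tendsto (fun k => (Yk k) 0) atTop (𝓝 (p 0)) :=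
    ((by fun_prop : Continuous fun y : V3 => y 0).tendsto p).comp hYk
  have c1 : Tendsto (fun k => (Yk k) 1) atTop (𝓝 (p 1)) :=
    ((by fun_prop : Continuous fun y : V3 => y 1).tendsto p).comp hYk
  have c2 : Tendsto (fun k => (Yk k) 2) atTop (𝓝 0) := by
    have := ((by fun_prop : Continuous fun y : V3 => y 2).tendsto p).comp hYk
    rw [hp2] at this
    exact this
  have d2 : Tendsto (fun k => (nk k) 2) atTop (𝓝 (n 2)) :=
    ((by fun_prop : Continuous fun y : V3 => y 2).tendsto n).comp hnk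
  set r : ℕ → ℝ := fun k => √((Yk k) 0 ^ 2 + (Yk k) 1 ^ 2) with hrdef
  have hr1 : Tendsto r atTop (𝓝 1) := by
    have := ((c0.pow 2).add (c1.pow 2)).sqrt
    rw [hp, Real.sqrt_one] at this
    exact this
  have hrpos : ∀ᶠ k in atTop, 0 < r k := hr1.eventually_const_lt one_pos
  set c : ℕ → V3 := fun k => (r k)⁻¹ • (Yk k - ((Yk k) 2) • E3) with hc
  have hcp : Tendsto c atTop (𝓝 p) := by
    have := (hr1.inv₀ one_ne_zero).smul (hYk.sub (c2.smul_const E3))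
    simpa using this
  have hcc : ∀ᶠ k in atTop, (c k) 2 = 0 ∧ (c k) 0 ^ 2 + (c k) 1 ^ 2 = 1 ∧
      Yk k - c k = (r k - 1) • c k + ((Yk k) 2) • E3 := by
    filter_upwards [hrpos] with k hk
    refine ⟨by simp [hc], ?_, ?_⟩
    · have e1 : (c k) 0 = (r k)⁻¹ * (Yk k) 0 := by simp [hc]
      have e2 : (c k) 1 = (r k)⁻¹ * (Yk k) 1 := by simp [hc]
      have e3 : r k ^ 2 = (Yk k) 0 ^ 2 + (Yk k) 1 ^ 2 := Real.sq_sqrt (by positivity)
      rw [e1, e2]
      field_simp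
      linarith
    · have e1 : (r k) • c k = Yk k - ((Yk k) 2) • E3 := by
        simp only [hc]
        rw [smul_smul, mul_inv_cancel₀ hk.ne', one_smul]
      rw [sub_smul, e1, one_smul]
      abel
  clear_value c
  set α : ℕ → ℝ := fun k => r k - 1 with hα
  set β : ℕ → ℝ := fun k => (Yk k) 2 with hβ
  have hn2k : ∀ᶠ k in atTop, n 2 / 2 < (nk k) 2 := d2.eventually_const_lt (by linarith)
  -- sign and size of β
  have hβs : ∀ᶠ k in atTop, |a| * (sk k * (n 2 / 2)) ≤ a * β k ∧ sk k * (n 2 / 2) ≤ |β k| := by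
    filter_upwards [hn2k] with k hk
    have hs := hs0 k
    have e1 : sk k * (n 2 / 2) ≤ sk k * (nk k) 2 := mul_le_mul_of_nonneg_left hk.le hs.le
    have e0 : 0 < sk k * (n 2 / 2) := by positivity
    rcases lt_or_gt_of_ne hr with h | h
    · have e2 := (h3 k).2 h
      have e3 : β k ≤ -(sk k * (n 2 / 2)) := by simp only [hβ]; linarith
      constructor
      · rw [abs_of_neg h]
        nlinarith
      · rw [abs_of_neg (by linarith)]
        linarith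
    · have e2 := (h3 k).1 h
      have e3 : sk k * (n 2 / 2) ≤ β k := by simp only [hβ]; linarith
      constructor
      · rw [abs_of_pos h]
        nlinarith
      · rw [abs_of_pos (by linarith)]
        exact e3
  have hβ0 : ∀ᶠ k in atTop, β k ≠ 0 := by
    filter_upwards [hβs] with k hk
    have e0 : 0 < sk k * (n 2 / 2) := by
      have := hs0 k
      positivity
    exact abs_pos.mp (lt_of_lt_of_le e0 hk.2)
  -- boundedness of nk
  have hnb : ∀ᶠ k in atTop, ‖nk k‖ ≤ ‖n‖ + 1 := by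
    have := hnk.norm
    exact (this.eventually_lt_const (by linarith : ‖n‖ < ‖n‖ + 1)).mono fun k hk => hk.le
  have hYs : Tendsto (fun k => Yk k + sk k • nk k) atTop (𝓝 p) := by
    have := hYk.add (hsk.smul hnk)
    simpa using this
  -- f(Yk) = o(β)
  have hfY : ∀ ε : ℝ, 0 < ε → ∀ᶠ k in atTop, |f (Yk k)| ≤ ε * |β k| := by
    intro ε hε
    set ε' : ℝ := ε * (n 2 / 2) / (2 * (‖n‖ + 2)) with hε'
    have hn0 := norm_nonneg n
    have hε'0 : 0 < ε' := by positivity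
    have g1 := (Asymptotics.isLittleO_iff.mp (hfs.isLittleO.comp_tendsto
      (nhds_prod_eq (x := p) (y := p) ▸ hYs.prodMk hYk))) hε'0
    have g2 : Tendsto (fun k => |F p (nk k)|) atTop (𝓝 0) := by
      have := ((F p).continuous.tendsto n).comp hnk
      rw [hn] at this
      have := this.abs
      rwa [abs_zero] at this
    filter_upwards [g1, g2.eventually_lt_const hε'0, hβs, hnb] with k k1 k2 k3 k4
    simp only [Function.comp, add_sub_cancel_left, h1 k, Real.norm_eq_abs] at k1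
    have hs := hs0 k
    rw [norm_smul, Real.norm_eq_abs, abs_of_pos hs, map_smul, smul_eq_mul] at k1
    have k5 : |f (Yk k)| ≤ ε' * (sk k * (‖n‖ + 2)) := by
      have e1 : f (Yk k) = -(0 - f (Yk k) - sk k * F p (nk k)) - sk k * F p (nk k) := by ring
      have e2 : |sk k * F p (nk k)| ≤ sk k * ε' := by
        rw [abs_mul, abs_of_pos hs]
        exact mul_le_mul_of_nonneg_left k2.le hs.le
      have e3 : ε' * (sk k * ‖nk k‖) ≤ ε' * (sk k * (‖n‖ + 1)) := by gcongr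
      calc |f (Yk k)| = |-(0 - f (Yk k) - sk k * F p (nk k)) - sk k * F p (nk k)| := by
            rw [← e1]
        _ ≤ |-(0 - f (Yk k) - sk k * F p (nk k))| + |sk k * F p (nk k)| := abs_sub _ _
        _ ≤ ε' * (sk k * (‖n‖ + 1)) + sk k * ε' := by
          rw [abs_neg]
          linarith
        _ = ε' * (sk k * (‖n‖ + 2)) := by ring
    have k6 : ε' * (sk k * (‖n‖ + 2)) = (ε / 2) * (sk k * (n 2 / 2)) := by
      rw [hε']
      field_simp
    rw [k6] at k5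
    have k7 : (ε / 2) * (sk k * (n 2 / 2)) ≤ (ε / 2) * |β k| :=
      mul_le_mul_of_nonneg_left k3.2 (by positivity)
    have k8 : 0 ≤ ε * |β k| := by positivity
    linarith
  have hpn : ‖p‖ = 1 := by
    have h := nsq p
    rw [hp2] at h
    have : ‖p‖ ^ 2 = 1 := by rw [h]; linarith
    nlinarith [norm_nonneg p]
  have hcb : ∀ᶠ k in atTop, ‖c k‖ ≤ 2 := by
    have := hcp.norm
    rw [hpn] at this
    exact (this.eventually_lt_const (by norm_num : (1 : ℝ) < 2)).mono fun k hk => hk.le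
  have hE3n : ‖E3‖ = 1 := by
    have h := nsq E3
    simp only [E3_0, E3_1, E3_2] at h
    nlinarith [norm_nonneg E3]
  have hyb : ∀ᶠ k in atTop, ‖Yk k - c k‖ ≤ 2 * (|α k| + |β k|) := by
    filter_upwards [hcc, hcb] with k hk hk2
    rw [hk.2.2]
    refine (norm_add_le _ _).trans ?_
    rw [norm_smul, norm_smul, hE3n, Real.norm_eq_abs, Real.norm_eq_abs]
    have : |r k - 1| * ‖c k‖ ≤ |r k - 1| * 2 := mul_le_mul_of_nonneg_left hk2 (abs_nonneg _)
    have h0 := abs_nonneg ((Yk k) 2)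
    simp only [hα, hβ]
    linarith
  have hpair : Tendsto (fun k => (Yk k, c k)) atTop (𝓝 (p, p)) := by
    rw [nhds_prod_eq]
    exact hYk.prodMk hcp
  have hfcc : ∀ᶠ k in atTop, f (c k) = 0 := by
    filter_upwards [hcp.eventually hfc, hcc] with k k1 k2
    exact k1 k2.1 k2.2.1
  have hq : Tendsto (fun k => α k / β k) atTop (𝓝 (-b / a)) := by
    refine WHA_ratio hr hβ0 fun ε hε => ?_
    have g1 := (Asymptotics.isLittleO_iff.mp (hfs.isLittleO.comp_tendsto hpair))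
      (show (0 : ℝ) < ε / 6 by positivity)
    have g2 : Tendsto (fun k => |F p (c k) - a|) atTop (𝓝 0) := by
      have := (((F p).continuous.tendsto p).comp hcp).sub_const a
      rw [← ha, sub_self] at this
      have := this.abs
      rwa [abs_zero] at this
    filter_upwards [g1, g2.eventually_lt_const (show (0 : ℝ) < ε / 3 by positivity),
      hfY (ε / 3) (by positivity), hfcc, hcc, hyb] with k k1 k2 k3 k4 k5 k6
    simp only [Function.comp, k4, Real.norm_eq_abs] at k1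
    have e1 : F p (Yk k - c k) = α k * F p (c k) + β k * b := by
      rw [k5.2.2, map_add, map_smul, map_smul]
      rfl
    have e2 : a * α k + b * β k = -(f (Yk k) - 0 - F p (Yk k - c k)) + f (Yk k)
        - α k * (F p (c k) - a) := by
      rw [e1]
      ring
    have e3 : |α k * (F p (c k) - a)| ≤ |α k| * (ε / 3) := by
      rw [abs_mul]
      exact mul_le_mul_of_nonneg_left k2.le (abs_nonneg _)
    have e4 : |f (Yk k) - 0 - F p (Yk k - c k)| ≤ ε / 6 * (2 * (|α k| + |β k|)) :=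
      k1.trans (mul_le_mul_of_nonneg_left k6 (by positivity))
    rw [e2]
    calc |-(f (Yk k) - 0 - F p (Yk k - c k)) + f (Yk k) - α k * (F p (c k) - a)|
        ≤ |-(f (Yk k) - 0 - F p (Yk k - c k)) + f (Yk k)| + |α k * (F p (c k) - a)| := abs_sub _ _
      _ ≤ |-(f (Yk k) - 0 - F p (Yk k - c k))| + |f (Yk k)| + |α k * (F p (c k) - a)| := by
          gcongr
          exact abs_add_le _ _
      _ ≤ ε / 6 * (2 * (|α k| + |β k|)) + ε / 3 * |β k| + |α k| * (ε / 3) := by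
          rw [abs_neg]
          gcongr
      _ ≤ ε * (|α k| + |β k|) := by
          have := abs_nonneg (α k)
          have := abs_nonneg (β k)
          nlinarith
  set w : ℕ → V3 := fun k => (α k / β k) • c k + E3 with hw
  have hwl : Tendsto w atTop (𝓝 ((-b / a) • p + E3)) := (hq.smul hcp).add_const E3
  have hyw : ∀ᶠ k in atTop, Yk k - c k = β k • w k := by
    filter_upwards [hcc, hβ0] with k k1 k2
    rw [k1.2.2]
    simp only [hw, smul_add, smul_smul]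
    rw [mul_div_cancel₀ _ k2]
  -- the derivative of F
  have hG : Tendsto (fun k => (β k)⁻¹ • (F (Yk k) - F (c k))) atTop
      (𝓝 (fderiv ℝ F p ((-b / a) • p + E3))) := by
    have g1 := hFs.isLittleO.comp_tendsto hpair
    have g2 : (fun k => (Yk k - c k)) =O[atTop] β := by
      obtain ⟨C, hC⟩ := hwl.norm.isBoundedUnder_le.eventually_le
      refine Asymptotics.IsBigO.of_bound C ?_
      filter_upwards [hyw, hC] with k k1 k2
      rw [k1, norm_smul, mul_comm]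
      exact mul_le_mul_of_nonneg_right k2 (norm_nonneg _)
    have g3 : (fun k => F (Yk k) - F (c k) - fderiv ℝ F p (Yk k - c k)) =o[atTop] β :=
      g1.trans_isBigO g2
    have g4 : Tendsto (fun k => (β k)⁻¹ • (F (Yk k) - F (c k) - fderiv ℝ F p (Yk k - c k))) atTop
        (𝓝 0) := by
      rw [tendsto_zero_iff_norm_tendsto_zero]
      have g5 := g3.norm_left.norm_right.tendsto_div_nhds_zero
      refine g5.congr fun k => ?_
      rw [norm_smul, norm_inv, div_eq_inv_mul]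
    have g6 : Tendsto (fun k => fderiv ℝ F p (w k)) atTop
        (𝓝 (fderiv ℝ F p ((-b / a) • p + E3))) := ((fderiv ℝ F p).continuous.tendsto _).comp hwl
    have g7 := g4.add g6
    rw [zero_add] at g7
    refine g7.congr' ?_
    filter_upwards [hyw, hβ0] with k k1 k2
    rw [k1, map_smul, smul_sub, smul_smul, inv_mul_cancel₀ k2, one_smul]
    abel
  set G : ℕ → V3 →L[ℝ] ℝ := fun k => (β k)⁻¹ • (F (Yk k) - F (c k)) with hGdef
  set ww : V3 := (-b / a) • p + E3 with hww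
  have hM : Tendsto (fun k => (G k (nk k) - ςk k * ⟪nk k, w k⟫ * F (c k) (c k)) / a) atTop
      (𝓝 ((fderiv ℝ F p ww n - ς * ⟪n, ww⟫ * a) / a)) := by
    apply Tendsto.div_const
    apply Tendsto.sub
    · exact WHA_apply hG hnk
    · exact (hςk.mul (hnk.inner hwl)).mul (WHA_apply (hFc.tendsto.comp hcp) hcp)
  set Lν : ℝ := D2 f p (b • p - a • E3) n - ς * a * ⟪b • p - a • E3, n⟫ with hLν
  have hlim : (fderiv ℝ F p ww n - ς * ⟪n, ww⟫ * a) / a = -(Lν / a ^ 2) := by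
    have e1 : b • p - a • E3 = (-a) • ww := by
      rw [hww, smul_add, smul_smul]
      have : -a * (-b / a) = b := by field_simp
      rw [this, neg_smul]
      abel
    have e2 : Lν = -a * (fderiv ℝ F p ww n) - ς * a * (-a * ⟪n, ww⟫) := by
      rw [hLν, e1, real_inner_smul_left, real_inner_comm]
      simp only [D2, map_smul, smul_apply, smul_eq_mul]
      rfl
    rw [e2]
    field_simp
    ring
  rw [hlim] at hM
  have hLpos : 0 < Lν := hL1
  have ha2 : 0 < a ^ 2 := by positivity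
  set κ : ℝ := Lν / (2 * a ^ 2) with hκ
  have hκ0 : 0 < κ := by positivity
  have hMk : ∀ᶠ k in atTop,
      (G k (nk k) - ςk k * ⟪nk k, w k⟫ * F (c k) (c k)) / a < -κ := by
    apply hM.eventually_lt_const
    rw [hκ]
    have : Lν / (2 * a ^ 2) = (Lν / a ^ 2) / 2 := by
      field_simp
    rw [this]
    have : 0 < Lν / a ^ 2 := by positivity
    linarith
  have hn0 := norm_nonneg n
  set ω : ℝ := |a| * n 2 * κ / (2 * (‖n‖ + 1) ^ 2) with hω
  have hω0 : 0 < ω := by positivity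
  obtain ⟨δ₁, hδ₁, htay⟩ := taylor_symm hf hω0
  have hsn : Tendsto (fun k => sk k • nk k) atTop (𝓝 0) := by
    have := hsk.smul hnk
    rwa [zero_smul] at this
  have hev1 : ∀ᶠ k in atTop, ‖Yk k - p‖ < δ₁ := by
    have := Metric.tendsto_nhds.mp hYk δ₁ hδ₁
    filter_upwards [this] with k hk
    rwa [dist_eq_norm] at hk
  have hev2 : ∀ᶠ k in atTop, ‖sk k • nk k‖ < δ₁ := by
    have := Metric.tendsto_nhds.mp hsn δ₁ hδ₁
    filter_upwards [this] with k hk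
    rwa [dist_zero_right] at hk
  have hev3 : ∀ᶠ k in atTop, ‖c k - p‖ < δ := by
    have := Metric.tendsto_nhds.mp hcp δ hδ
    filter_upwards [this] with k hk
    rwa [dist_eq_norm] at hk
  obtain ⟨k, k1, k2, k3, k4, k5, k6, k7, k8, k9⟩ := (hMk.and (hev1.and (hev2.and (hev3.and
    (hcc.and (hβs.and (hβ0.and (hyw.and hnb)))))))).exists
  have hs := hs0 k
  have t1 := htay (Yk k) (sk k • nk k) k2 k3
  rw [h1 k, norm_smul, Real.norm_eq_abs, abs_of_pos hs] at t1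
  have t2 := h2 k
  have t3 : F (Yk k) (sk k • nk k) = sk k * F (Yk k) (nk k) := by
    rw [map_smul, smul_eq_mul]
  have t1' := (abs_le.mp t1).2
  -- lower bound
  have low : -(ω * (sk k * (‖n‖ + 1) ^ 2)) / 2 ≤ F (Yk k) (nk k) := by
    have e1 : 0 - f (Yk k - sk k • nk k) - 2 * F (Yk k) (sk k • nk k) ≤
      ω * (sk k * ‖nk k‖) ^ 2 := t1'
    rw [t3] at e1
    have e2 : ‖nk k‖ ^ 2 ≤ (‖n‖ + 1) ^ 2 := pow_le_pow_left₀ (norm_nonneg _) k9 2
    have e3 : sk k * (-(ω * (sk k * (‖n‖ + 1) ^ 2))) ≤ sk k * (2 * F (Yk k) (nk k)) := by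
      have e4 : ω * (sk k * ‖nk k‖) ^ 2 ≤ ω * (sk k ^ 2 * (‖n‖ + 1) ^ 2) := by
        rw [mul_pow]
        gcongr
      nlinarith
    have e5 := le_of_mul_le_mul_left e3 hs
    linarith
  -- upper bound
  have up : F (Yk k) (nk k) ≤ -(κ * (a * β k)) := by
    have u1 := h4 k (c k) k4 k5.1 k5.2.1
    have u2 : F (Yk k) (nk k) = F (c k) (nk k) + β k * G k (nk k) := by
      simp only [hGdef, smul_apply, sub_apply, smul_eq_mul]
      rw [← mul_assoc, mul_inv_cancel₀ k7, one_mul]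
      ring
    have u3 : c k - Yk k = -(β k • w k) := by rw [← k8]; abel
    rw [u3, inner_neg_right, real_inner_smul_right] at u1
    have u4 : F (Yk k) (nk k) ≤
        β k * (G k (nk k) - ςk k * ⟪nk k, w k⟫ * F (c k) (c k)) := by
      rw [u2]
      linarith
    have u5 : β k * (G k (nk k) - ςk k * ⟪nk k, w k⟫ * F (c k) (c k)) =
        (a * β k) * ((G k (nk k) - ςk k * ⟪nk k, w k⟫ * F (c k) (c k)) / a) := by
      field_simp
    have u6 : 0 < a * β k := lt_of_lt_of_le (by positivity) k6.1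
    rw [u5] at u4
    have u7 := mul_le_mul_of_nonneg_left k1.le u6.le
    linarith
  have fin1 : κ * (|a| * (sk k * (n 2 / 2))) ≤ κ * (a * β k) :=
    mul_le_mul_of_nonneg_left k6.1 hκ0.le
  have fin2 : κ * (|a| * (sk k * (n 2 / 2))) ≤ ω * (sk k * (‖n‖ + 1) ^ 2) / 2 := by linarith
  have fin3 : ω * (sk k * (‖n‖ + 1) ^ 2) / 2 = κ * (|a| * (sk k * (n 2 / 2))) / 2 := by
    rw [hω]
    field_simp
  rw [fin3] at fin2
  have fin4 : 0 < κ * (|a| * (sk k * (n 2 / 2))) := by positivity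
  linarith

end Pool.Agent.H99.SC

end S_WHA
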