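import Mathlib
import Pool.Agent.H99.SCM.M1

/-! Star-shaped CMC discs (S14043), file M3: joins several modules to save build time. -/

set_option autoImplicit false

noncomputable section

section S_BOX

/-!
# BOX: the local inverse of `(u,s) ↦ X u + s e`

`Φ (u,s) = X u + s e` is C^2; its derivative at `(u₀,0)` is `(a,s) ↦ fderiv X u₀ a + s e`, injective
because `⟪nn X u₀, e⟫ ≠ 0` (take the inner product with `nn`: `s = 0`, then `fderiv X u₀ a = 0` and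
`nn X u₀ ≠ 0` gives `a = 0`), hence bijective (dimension 3 = 2 + 1).  Inverse function theorem
(`ContDiffAt.toOpenPartialHomeomorph` or `HasStrictFDerivAt.toOpenPartialHomeomorph`, and
`ContDiffAt.to_localInverse`/`OpenPartialHomeomorph.contDiffAt_symm`): an `OpenPartialHomeomorph`
`P` with `P = Φ`; on a neighbourhood of `(u₀,0)` in the source everything is C^2 with invertible
derivative.  Take `r` with `ball u₀ r ×ˢ Ioo (-r) r` inside that neighbourhood (norm on `V2 × ℝ` is the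
sup norm) and with `0 < ⟪nn X u, e⟫` on `ball u₀ r` (continuity of `nn`), `b = fst ∘ P.symm`,
`f = snd ∘ P.symm`.  `isOpen`: image of an open subset of the source under `P`.

`small`, `mem_nhds`, `U_mono` are the facts used later.
-/


open scoped RealInnerProductSpace Topology
open Metric Filter Set


namespace Pool.Agent.H99.SC

/-- the box map -/
def BOX_Phi (X : V2 → V3) (e : V3) (p : V2 × ℝ) : V3 := X p.1 + p.2 • e

theorem BOX_contDiff {X : V2 → V3} (hX : ContDiff ℝ 2 X) (e : V3) :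
    ContDiff ℝ 2 (BOX_Phi X e) :=
  (hX.comp contDiff_fst).add (contDiff_snd.smul contDiff_const)

/-- the derivative of the box map -/
def BOX_D (X : V2 → V3) (e : V3) (u : V2) : V2 × ℝ →L[ℝ] V3 :=
  (fderiv ℝ X u).comp (ContinuousLinearMap.fst ℝ V2 ℝ)
    + (ContinuousLinearMap.snd ℝ V2 ℝ).smulRight e

theorem BOX_D_apply (X : V2 → V3) (e : V3) (u : V2) (p : V2 × ℝ) :
    BOX_D X e u p = fderiv ℝ X u p.1 + p.2 • e := by
  simp [BOX_D]

theorem BOX_hasFDerivAt {X : V2 → V3} (hX : ContDiff ℝ 2 X) (e : V3) (p : V2 × ℝ) :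
    HasFDerivAt (BOX_Phi X e) (BOX_D X e p.1) p := by
  have h1 : HasFDerivAt X (fderiv ℝ X p.1) p.1 :=
    (hX.differentiable (by norm_num)).differentiableAt.hasFDerivAt
  have h2 : HasFDerivAt (fun q : V2 × ℝ => X q.1)
      ((fderiv ℝ X p.1).comp (ContinuousLinearMap.fst ℝ V2 ℝ)) p :=
    h1.comp p hasFDerivAt_fst
  have h3 : HasFDerivAt (fun q : V2 × ℝ => q.2 • e)
      ((ContinuousLinearMap.snd ℝ V2 ℝ).smulRight e) p :=
    (hasFDerivAt_snd (p := p)).smul_const e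
  exact h2.add h3

theorem BOX_inj {X : V2 → V3} {e : V3} {u : V2} (h : 0 < ⟪nn X u, e⟫) :
    Function.Injective (BOX_D X e u) := by
  rw [injective_iff_map_eq_zero]
  rintro ⟨a, s⟩ hp
  rw [BOX_D_apply] at hp
  simp only at hp
  have hlin : fderiv ℝ X u a = a 0 • fderiv ℝ X u e0 + a 1 • fderiv ℝ X u e1 := by
    conv_lhs => rw [V2_decomp a]
    rw [map_add, map_smul, map_smul]
  have horth : ⟪nn X u, fderiv ℝ X u a⟫ = 0 := by
    rw [hlin, inner_add_right, inner_smul_right, inner_smul_right]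
    unfold nn
    rw [cr_inner_left, cr_inner_right]
    ring
  have hs : s = 0 := by
    have h1 : ⟪nn X u, fderiv ℝ X u a + s • e⟫ = 0 := by rw [hp, inner_zero_right]
    rw [inner_add_right, horth, inner_smul_right, zero_add] at h1
    exact (mul_eq_zero.1 h1).resolve_right h.ne'
  rw [hs, zero_smul, add_zero] at hp
  have hnn : nn X u ≠ 0 := by
    intro h0
    rw [h0, inner_zero_left] at h
    exact lt_irrefl _ h
  have h0 : a 0 = 0 := by
    have h1 : cr (fderiv ℝ X u a) (fderiv ℝ X u e1) = a 0 • nn X u := by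
      rw [hlin, cr_add_left, cr_smul_left, cr_smul_left, cr_self]
      simp [nn]
    rw [hp] at h1
    have h2 : cr (0 : V3) (fderiv ℝ X u e1) = 0 := by
      apply ext3 <;> simp
    rw [h2] at h1
    exact (smul_eq_zero.1 h1.symm).resolve_right hnn
  have h1 : a 1 = 0 := by
    have h1 : cr (fderiv ℝ X u e0) (fderiv ℝ X u a) = a 1 • nn X u := by
      rw [hlin, cr_add_right, cr_smul_right, cr_smul_right, cr_self]
      simp [nn]
    rw [hp] at h1
    have h2 : cr (fderiv ℝ X u e0) (0 : V3) = 0 := by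
      apply ext3 <;> simp
    rw [h2] at h1
    exact (smul_eq_zero.1 h1.symm).resolve_right hnn
  have ha : a = 0 := ext2 a 0 (by simpa using h0) (by simpa using h1)
  rw [ha, hs]
  rfl

/-- the derivative as an equivalence -/
theorem BOX_equiv {X : V2 → V3} {e : V3} {u : V2} (h : 0 < ⟪nn X u, e⟫) :
    ∃ L : (V2 × ℝ) ≃L[ℝ] V3, (L : V2 × ℝ →L[ℝ] V3) = BOX_D X e u := by
  have hd : Module.finrank ℝ (V2 × ℝ) = Module.finrank ℝ V3 := by
    rw [Module.finrank_prod]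
    simp
  have hsurj : Function.Surjective (BOX_D X e u) :=
    (LinearMap.injective_iff_surjective_of_finrank_eq_finrank
      (f := (BOX_D X e u : V2 × ℝ →ₗ[ℝ] V3)) hd).1 (BOX_inj h)
  refine ⟨ContinuousLinearEquiv.ofBijective (BOX_D X e u)
    (LinearMap.ker_eq_bot.2 (BOX_inj h)) (LinearMap.range_eq_top.2 hsurj), ?_⟩
  exact ContinuousLinearEquiv.coe_ofBijective _ _ _

theorem BOX_mem {X : V2 → V3} {e : V3} {ρ : ℝ} (S : Set (V2 × ℝ)) {u₀ : V2}
    (hS : ball (u₀, (0 : ℝ)) ρ ⊆ S) {u : V2} {s : ℝ} (hu : ‖u - u₀‖ < ρ) (hs : |s| < ρ) :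
    (u, s) ∈ S := by
  apply hS
  rw [mem_ball, Prod.dist_eq, max_lt_iff]
  exact ⟨by rw [dist_eq_norm]; exact hu, by simpa using hs⟩

theorem exists_box {X : V2 → V3} (hX : ContDiff ℝ 2 X) {u₀ : V2} {e : V3}
    (h : 0 < ⟪nn X u₀, e⟫) : Nonempty (Box X u₀ e) := by
  obtain ⟨L, hL⟩ := BOX_equiv h
  have hC := BOX_contDiff hX e
  have hd0 : HasFDerivAt (BOX_Phi X e) (L : V2 × ℝ →L[ℝ] V3) (u₀, (0 : ℝ)) := by
    rw [hL]
    exact BOX_hasFDerivAt hX e (u₀, (0 : ℝ))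
  have h2 : (2 : WithTop ℕ∞) ≠ 0 := by norm_num
  have hCa : ContDiffAt ℝ 2 (BOX_Phi X e) (u₀, (0 : ℝ)) := hC.contDiffAt
  set P : OpenPartialHomeomorph (V2 × ℝ) V3 :=
    hCa.toOpenPartialHomeomorph (BOX_Phi X e) hd0 h2 with hP
  have hPc : (P : V2 × ℝ → V3) = BOX_Phi X e := rfl
  have hmem : (u₀, (0 : ℝ)) ∈ P.source := hCa.mem_toOpenPartialHomeomorph_source hd0 h2
  have hcn : Continuous (fun p : V2 × ℝ => ⟪nn X p.1, e⟫) :=
    ((contDiff_nn hX).continuous.comp continuous_fst).inner continuous_const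
  have hO : IsOpen (P.source ∩ {p : V2 × ℝ | 0 < ⟪nn X p.1, e⟫}) :=
    P.open_source.inter (isOpen_lt continuous_const hcn)
  obtain ⟨r, hr, hball⟩ := Metric.isOpen_iff.1 hO (u₀, (0 : ℝ)) ⟨hmem, h⟩
  have hin : ∀ (u : V2) (s : ℝ), ‖u - u₀‖ < r → |s| < r →
      (u, s) ∈ P.source ∩ {p : V2 × ℝ | 0 < ⟪nn X p.1, e⟫} := fun u s hu hs =>
    BOX_mem (X := X) (e := e) _ hball hu hs
  have hsm : ∀ (u : V2) (s : ℝ), ‖u - u₀‖ < r → |s| < r →
      ContDiffAt ℝ 2 P.symm (X u + s • e) := by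
    intro u s hu hs
    obtain ⟨h3, h4⟩ := hin u s hu hs
    obtain ⟨L', hL'⟩ := BOX_equiv (X := X) (e := e) (u := u) h4
    have hy : X u + s • e = P (u, s) := rfl
    have hsy : P.symm (X u + s • e) = (u, s) := by
      rw [hy]; exact P.left_inv h3
    refine P.contDiffAt_symm (f₀' := L') (by rw [hy]; exact P.map_source h3) ?_ ?_
    · rw [hsy, hL']
      exact BOX_hasFDerivAt hX e (u, s)
    · rw [hsy]
      exact hC.contDiffAt
  exact ⟨{
    b := fun y => (P.symm y).1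
    f := fun y => (P.symm y).2
    r := r
    hr := hr
    pos := fun u hu => (hin u 0 hu (by simpa using hr)).2
    left := by
      intro u s hu hs
      have hsy : P.symm (X u + s • e) = (u, s) := P.left_inv (hin u s hu hs).1
      rw [hsy]
      exact ⟨rfl, rfl⟩
    isOpen := by
      intro ε hε hεr
      have h5 : {y : V3 | ∃ (u : V2) (s : ℝ), ‖u - u₀‖ < ε ∧ |s| < ε ∧ X u + s • e = y}
          = P '' (ball (u₀, (0 : ℝ)) ε) := by
        ext y
        simp only [mem_setOf_eq, mem_image]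
        constructor
        · rintro ⟨u, s, hu, hs, rfl⟩
          exact ⟨(u, s), BOX_mem (X := X) (e := e) _ subset_rfl hu hs, rfl⟩
        · rintro ⟨⟨u, s⟩, hp, rfl⟩
          rw [mem_ball, Prod.dist_eq, max_lt_iff] at hp
          refine ⟨u, s, ?_, ?_, rfl⟩
          · rw [← dist_eq_norm]; exact hp.1
          · simpa using hp.2
      rw [h5]
      refine P.isOpen_image_of_subset_source isOpen_ball fun p hp => ?_
      exact (hball (ball_subset_ball hεr hp)).1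
    sb := fun u s hu hs => contDiff_fst.contDiffAt.comp _ (hsm u s hu hs)
    sf := fun u s hu hs => contDiff_snd.contDiffAt.comp _ (hsm u s hu hs) }⟩

namespace Box
variable {X : V2 → V3} {u₀ : V2} {e : V3} (B : Box X u₀ e)

theorem U_open {ε : ℝ} (h : 0 < ε) (h' : ε ≤ B.r) : IsOpen (B.U ε) := B.isOpen ε h h'

theorem U_mono {ε δ : ℝ} (h : ε ≤ δ) : B.U ε ⊆ B.U δ := by
  rintro y ⟨u, s, h1, h2, h3⟩
  exact ⟨u, s, h1.trans_le h, h2.trans_le h, h3⟩

theorem mem_U {ε : ℝ} (h : 0 < ε) : X u₀ ∈ B.U ε := ⟨u₀, 0, by simpa using h, by simpa using h, by simp⟩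

theorem U_nhds {ε : ℝ} (h : 0 < ε) (h' : ε ≤ B.r) : B.U ε ∈ 𝓝 (X u₀) :=
  (B.U_open h h').mem_nhds (B.mem_U h)

/-- coordinates of a point of the box neighbourhood -/
theorem coord {ε : ℝ} (h' : ε ≤ B.r) {y : V3} (hy : y ∈ B.U ε) :
    ‖B.b y - u₀‖ < ε ∧ |B.f y| < ε ∧ X (B.b y) + B.f y • e = y := by
  obtain ⟨u, s, h1, h2, h3⟩ := hy
  obtain ⟨h4, h5⟩ := B.left u s (h1.trans_le h') (h2.trans_le h')
  rw [← h3, h4, h5]
  exact ⟨h1, h2, rfl⟩

theorem mk_mem {ε : ℝ} {u : V2} {s : ℝ} (h1 : ‖u - u₀‖ < ε) (h2 : |s| < ε) :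
    X u + s • e ∈ B.U ε := ⟨u, s, h1, h2, rfl⟩

theorem b_X {u : V2} (h : ‖u - u₀‖ < B.r) : B.b (X u) = u := by
  have := (B.left u 0 h (by simpa using B.hr)).1
  simpa using this

theorem f_X {u : V2} (h : ‖u - u₀‖ < B.r) : B.f (X u) = 0 := by
  have := (B.left u 0 h (by simpa using B.hr)).2
  simpa using this

theorem smooth_b {y : V3} (hy : y ∈ B.U B.r) : ContDiffAt ℝ 2 B.b y := by
  obtain ⟨u, s, h1, h2, h3⟩ := hy
  rw [← h3]; exact B.sb u s h1 h2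

theorem smooth_f {y : V3} (hy : y ∈ B.U B.r) : ContDiffAt ℝ 2 B.f y := by
  obtain ⟨u, s, h1, h2, h3⟩ := hy
  rw [← h3]; exact B.sf u s h1 h2

/-- box neighbourhoods are arbitrarily small -/
theorem small (hX : Continuous X) {V : Set V3} (hV : V ∈ 𝓝 (X u₀)) :
    ∃ ε : ℝ, 0 < ε ∧ ε ≤ B.r ∧ B.U ε ⊆ V := by
  have hc : Continuous (fun p : V2 × ℝ => X p.1 + p.2 • e) :=
    (hX.comp continuous_fst).add (continuous_snd.smul continuous_const)
  have h1 : (fun p : V2 × ℝ => X p.1 + p.2 • e) ⁻¹' V ∈ 𝓝 (u₀, (0 : ℝ)) := by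
    apply hc.continuousAt
    simpa using hV
  obtain ⟨ε, hε, hball⟩ := Metric.mem_nhds_iff.1 h1
  refine ⟨min ε B.r, lt_min hε B.hr, min_le_right _ _, ?_⟩
  rintro y ⟨u, s, hu, hs, rfl⟩
  exact BOX_mem (X := X) (e := e) _ hball (hu.trans_le (min_le_left _ _))
    (hs.trans_le (min_le_left _ _))

/-- the upper half of a box neighbourhood is preconnected -/
theorem preconn_pos (hX : Continuous X) {ε : ℝ} (h : 0 < ε) (h' : ε ≤ B.r) :
    IsPreconnected {y | y ∈ B.U ε ∧ 0 < B.f y} := by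
  have hc : Continuous (fun p : V2 × ℝ => X p.1 + p.2 • e) :=
    (hX.comp continuous_fst).add (continuous_snd.smul continuous_const)
  have h1 : {y | y ∈ B.U ε ∧ 0 < B.f y}
      = (fun p : V2 × ℝ => X p.1 + p.2 • e) '' (ball u₀ ε ×ˢ Ioo 0 ε) := by
    ext y
    constructor
    · rintro ⟨⟨u, s, hu, hs, rfl⟩, h3⟩
      rw [(B.left u s (hu.trans_le h') (hs.trans_le h')).2] at h3
      refine ⟨(u, s), ⟨?_, h3, (le_abs_self s).trans_lt hs⟩, rfl⟩
      rw [mem_ball, dist_eq_norm]; exact hu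
    · rintro ⟨⟨u, s⟩, ⟨h2, h3, h4⟩, rfl⟩
      simp only [mem_ball, dist_eq_norm] at h2 h3 h4
      have hs : |s| < ε := by rw [abs_of_pos h3]; exact h4
      refine ⟨⟨u, s, h2, hs, rfl⟩, ?_⟩
      simp only
      rw [(B.left u s (h2.trans_le h') (hs.trans_le h')).2]
      exact h3
  rw [h1]
  exact (((convex_ball u₀ ε).prod (convex_Ioo 0 ε)).isPreconnected).image _ hc.continuousOn

/-- the lower half of a box neighbourhood is preconnected -/
theorem preconn_neg (hX : Continuous X) {ε : ℝ} (h : 0 < ε) (h' : ε ≤ B.r) :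
    IsPreconnected {y | y ∈ B.U ε ∧ B.f y < 0} := by
  have hc : Continuous (fun p : V2 × ℝ => X p.1 + p.2 • e) :=
    (hX.comp continuous_fst).add (continuous_snd.smul continuous_const)
  have h1 : {y | y ∈ B.U ε ∧ B.f y < 0}
      = (fun p : V2 × ℝ => X p.1 + p.2 • e) '' (ball u₀ ε ×ˢ Ioo (-ε) 0) := by
    ext y
    constructor
    · rintro ⟨⟨u, s, hu, hs, rfl⟩, h3⟩
      rw [(B.left u s (hu.trans_le h') (hs.trans_le h')).2] at h3
      refine ⟨(u, s), ⟨?_, ?_, h3⟩, rfl⟩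
      · rw [mem_ball, dist_eq_norm]; exact hu
      · exact (abs_lt.1 hs).1
    · rintro ⟨⟨u, s⟩, ⟨h2, h3, h4⟩, rfl⟩
      simp only [mem_ball, dist_eq_norm] at h2 h3 h4
      have hs : |s| < ε := by rw [abs_of_neg h4]; linarith
      refine ⟨⟨u, s, h2, hs, rfl⟩, ?_⟩
      simp only
      rw [(B.left u s (h2.trans_le h') (hs.trans_le h')).2]
      exact h4
  rw [h1]
  exact (((convex_ball u₀ ε).prod (convex_Ioo (-ε) 0)).isPreconnected).image _ hc.continuousOn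

end Box

end Pool.Agent.H99.SC

end S_BOX

section S_FP

/-!
# FP: first and second derivatives of the defining function of a box

`fd`: differentiate `f (X u + s e) = s`: `Df(y)(fderiv X (b y) a) = 0` and `Df(y) e = 1` at
`y = X (b y) + f y e`.  The functional `v ↦ ⟪g y, v⟫` has the same values; the vectors
`fderiv X (b y) a` and `e` span V3 (`decomp`: `|nn|^2 v = ⟪v,nn⟫ nn + ..`, and `e` has a nonzero component
along `nn`).
`db`: `Db(y)(fderiv X (b y) a + s e) = a`.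
`pdef`: differentiate `f (X u + s e) = s` twice in `u` (apply `D2_comp` to `Y u = X u + s e` with the
constant `s = f y`): `0 = D2 f y (X_a) (X_b) + Df(y) (D2 X u a b)`.  Take the combination defining
`Lop`: by `tr_identity` (with `a = X_u`, `b = X_v`)
`‖nn‖^2 tr3 Q - Q nn nn = - Df(y)(Lop X X u) = - ⟪nn, Lop X X u⟫ / ⟪nn,e⟫ = -2 H ‖nn‖^3 / ⟪nn,e⟫`
with `Q = D2 f y` and `u = b y`; divide by `‖nn‖^2` and note `‖g y‖ = ‖nn‖ / ⟪nn,e⟫`.
-/


open scoped RealInnerProductSpace Topology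
open Metric Filter Set


namespace Pool.Agent.H99.SC

namespace Box
variable {X : V2 → V3} {u₀ : V2} {e : V3} (B : Box X u₀ e)

theorem pos' {y : V3} (hy : y ∈ B.U B.r) : 0 < ⟪nn X (B.b y), e⟫ :=
  B.pos _ (B.coord le_rfl hy).1

theorem nn_ne {y : V3} (hy : y ∈ B.U B.r) : nn X (B.b y) ≠ 0 := by
  intro h
  have := B.pos' hy
  rw [h, inner_zero_left] at this
  exact lt_irrefl _ this

/-- near `b y` the box coordinates of `X x + f y • e` are `(x, f y)` -/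
theorem FP_near {y : V3} (hy : y ∈ B.U B.r) :
    ∀ᶠ x in 𝓝 (B.b y), B.b (X x + B.f y • e) = x ∧ B.f (X x + B.f y • e) = B.f y := by
  obtain ⟨h1, h2, _⟩ := B.coord le_rfl hy
  have h3 : ∀ᶠ x in 𝓝 (B.b y), x ∈ ball u₀ B.r :=
    isOpen_ball.mem_nhds (mem_ball_iff_norm.2 h1)
  filter_upwards [h3] with x hx
  exact B.left x (B.f y) (mem_ball_iff_norm.1 hx) h2

theorem FP_near' {y : V3} (hy : y ∈ B.U B.r) :
    ∀ᶠ t in 𝓝 (B.f y), B.b (X (B.b y) + t • e) = B.b y ∧ B.f (X (B.b y) + t • e) = t := by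
  obtain ⟨h1, h2, _⟩ := B.coord le_rfl hy
  have h3 : ∀ᶠ t in 𝓝 (B.f y), |t| < B.r := continuous_abs.continuousAt.eventually_lt_const h2
  filter_upwards [h3] with t ht
  exact B.left (B.b y) t h1 ht

theorem FP_Y (hX : ContDiff ℝ 2 X) (y : V3) (x : V2) :
    HasFDerivAt (fun x => X x + B.f y • e) (fderiv ℝ X x) x :=
  (((hX.differentiable (by norm_num)) x).hasFDerivAt).add_const _

theorem FP_line (y : V3) : HasFDerivAt (fun t : ℝ => X (B.b y) + t • e)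
    ((ContinuousLinearMap.id ℝ ℝ).smulRight e) (B.f y) :=
  ((hasFDerivAt_id (𝕜 := ℝ) (B.f y)).smul_const e).const_add _

theorem FP_f_tan (hX : ContDiff ℝ 2 X) {y : V3} (hy : y ∈ B.U B.r) (a : V2) :
    fderiv ℝ B.f y (fderiv ℝ X (B.b y) a) = 0 := by
  have hc := (B.coord le_rfl hy).2.2
  have hf : HasFDerivAt B.f (fderiv ℝ B.f y) (X (B.b y) + B.f y • e) := by
    rw [hc]
    exact ((B.smooth_f hy).differentiableAt (by norm_num)).hasFDerivAt
  have h1 := hf.comp (B.b y) (B.FP_Y hX y (B.b y))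
  have h2 : HasFDerivAt (fun _ : V2 => B.f y) (0 : V2 →L[ℝ] ℝ) (B.b y) := hasFDerivAt_const _ _
  have h3 : HasFDerivAt (B.f ∘ fun x => X x + B.f y • e) (0 : V2 →L[ℝ] ℝ) (B.b y) :=
    h2.congr_of_eventuallyEq ((B.FP_near hy).mono fun x hx => hx.2)
  have h4 := h1.unique h3
  exact congrArg (fun L : V2 →L[ℝ] ℝ => L a) h4

theorem FP_f_e {y : V3} (hy : y ∈ B.U B.r) : fderiv ℝ B.f y e = 1 := by
  have hc := (B.coord le_rfl hy).2.2
  have hf : HasFDerivAt B.f (fderiv ℝ B.f y) (X (B.b y) + B.f y • e) := by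
    rw [hc]
    exact ((B.smooth_f hy).differentiableAt (by norm_num)).hasFDerivAt
  have h1 := hf.comp (B.f y) (B.FP_line y)
  have h2 : HasFDerivAt (fun t : ℝ => t) (ContinuousLinearMap.id ℝ ℝ) (B.f y) := hasFDerivAt_id _
  have h3 : HasFDerivAt (B.f ∘ fun t : ℝ => X (B.b y) + t • e) (ContinuousLinearMap.id ℝ ℝ)
      (B.f y) := h2.congr_of_eventuallyEq ((B.FP_near' hy).mono fun x hx => hx.2)
  have h4 := h1.unique h3
  have h5 := congrArg (fun L : ℝ →L[ℝ] ℝ => L 1) h4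
  simpa using h5

theorem FP_b_tan (hX : ContDiff ℝ 2 X) {y : V3} (hy : y ∈ B.U B.r) (a : V2) :
    fderiv ℝ B.b y (fderiv ℝ X (B.b y) a) = a := by
  have hc := (B.coord le_rfl hy).2.2
  have hf : HasFDerivAt B.b (fderiv ℝ B.b y) (X (B.b y) + B.f y • e) := by
    rw [hc]
    exact ((B.smooth_b hy).differentiableAt (by norm_num)).hasFDerivAt
  have h1 := hf.comp (B.b y) (B.FP_Y hX y (B.b y))
  have h2 : HasFDerivAt (fun x : V2 => x) (ContinuousLinearMap.id ℝ V2) (B.b y) := hasFDerivAt_id _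
  have h3 : HasFDerivAt (B.b ∘ fun x => X x + B.f y • e) (ContinuousLinearMap.id ℝ V2) (B.b y) :=
    h2.congr_of_eventuallyEq ((B.FP_near hy).mono fun x hx => hx.1)
  have h4 := h1.unique h3
  exact congrArg (fun L : V2 →L[ℝ] V2 => L a) h4

theorem FP_b_e {y : V3} (hy : y ∈ B.U B.r) : fderiv ℝ B.b y e = 0 := by
  have hc := (B.coord le_rfl hy).2.2
  have hf : HasFDerivAt B.b (fderiv ℝ B.b y) (X (B.b y) + B.f y • e) := by
    rw [hc]
    exact ((B.smooth_b hy).differentiableAt (by norm_num)).hasFDerivAt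
  have h1 := hf.comp (B.f y) (B.FP_line y)
  have h2 : HasFDerivAt (fun _ : ℝ => B.b y) (0 : ℝ →L[ℝ] V2) (B.f y) := hasFDerivAt_const _ _
  have h3 : HasFDerivAt (B.b ∘ fun t : ℝ => X (B.b y) + t • e) (0 : ℝ →L[ℝ] V2)
      (B.f y) := h2.congr_of_eventuallyEq ((B.FP_near' hy).mono fun x hx => hx.1)
  have h4 := h1.unique h3
  have h5 := congrArg (fun L : ℝ →L[ℝ] V2 => L 1) h4
  simpa using h5

/-- the gradient of `f` -/
theorem fd (hX : ContDiff ℝ 2 X) {y : V3} (hy : y ∈ B.U B.r) (v : V3) :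
    fderiv ℝ B.f y v = ⟪B.g y, v⟫ := by
  have hp := B.pos' hy
  have hn : 0 < ‖nn X (B.b y)‖ := norm_pos_iff.2 (B.nn_ne hy)
  have t0 := B.FP_f_tan hX hy e0
  have t1 := B.FP_f_tan hX hy e1
  have te := B.FP_f_e hy
  have d1 := congrArg (fderiv ℝ B.f y) (decomp (fderiv ℝ X (B.b y) e0) (fderiv ℝ X (B.b y) e1) v)
  have d2 := congrArg (fderiv ℝ B.f y) (decomp (fderiv ℝ X (B.b y) e0) (fderiv ℝ X (B.b y) e1) e)
  have hnn : cr (fderiv ℝ X (B.b y) e0) (fderiv ℝ X (B.b y) e1) = nn X (B.b y) := rfl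
  rw [hnn] at d1 d2
  simp only [map_add, map_smul, smul_eq_mul, t0, t1, te, mul_zero, add_zero, mul_one] at d1 d2
  unfold Box.g
  rw [real_inner_smul_left, real_inner_comm v]
  rw [real_inner_comm] at hp
  rw [real_inner_comm e]
  have hp' := hp.ne'
  have hn' : ‖nn X (B.b y)‖ ^ 2 ≠ 0 := by positivity
  rw [inv_mul_eq_div, eq_div_iff hp']
  refine mul_left_cancel₀ hn' ?_
  linear_combination ⟪e, nn X (B.b y)⟫ * d1 - ⟪v, nn X (B.b y)⟫ * d2

/-- the derivative of `b` -/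
theorem db (hX : ContDiff ℝ 2 X) {y : V3} (hy : y ∈ B.U B.r) (a : V2) (s : ℝ) :
    fderiv ℝ B.b y (fderiv ℝ X (B.b y) a + s • e) = a := by
  rw [map_add, map_smul, B.FP_b_tan hX hy, B.FP_b_e hy, smul_zero, add_zero]

theorem FP_norm_g {y : V3} (hy : y ∈ B.U B.r) :
    ‖B.g y‖ = ⟪nn X (B.b y), e⟫⁻¹ * ‖nn X (B.b y)‖ := by
  have hp := B.pos' hy
  unfold Box.g
  rw [norm_smul, Real.norm_eq_abs, abs_of_pos (inv_pos.2 hp)]

/-- the gradient is a positive multiple of the unit normal -/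
theorem g_eq {y : V3} (hy : y ∈ B.U B.r) : B.g y = ‖B.g y‖ • NN X (B.b y) := by
  have hn : 0 < ‖nn X (B.b y)‖ := norm_pos_iff.2 (B.nn_ne hy)
  rw [B.FP_norm_g hy]
  unfold Box.g NN
  rw [smul_smul, mul_assoc, mul_inv_cancel₀ hn.ne', mul_one]

theorem g_pos {y : V3} (hy : y ∈ B.U B.r) : 0 < ‖B.g y‖ := by
  have hn : 0 < ‖nn X (B.b y)‖ := norm_pos_iff.2 (B.nn_ne hy)
  rw [B.FP_norm_g hy]
  exact mul_pos (inv_pos.2 (B.pos' hy)) hn

theorem g_cont (hX : ContDiff ℝ 2 X) {y : V3} (hy : y ∈ B.U B.r) : ContinuousAt B.g y := by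
  have hb : ContinuousAt B.b y := (B.smooth_b hy).continuousAt
  have hn : ContinuousAt (fun y => nn X (B.b y)) y :=
    ContinuousAt.comp (g := nn X) (f := B.b) (contDiff_nn hX).continuous.continuousAt hb
  unfold Box.g
  exact ((hn.inner continuousAt_const).inv₀ (B.pos' hy).ne').smul hn

end Box

/-- the level sets of `f` have mean curvature `H` -/
theorem pdef (S : Surf) {u₀ : V2} {e : V3} (B : Box S.X u₀ e) {y : V3} (hy : y ∈ B.U B.r)
    (hb : ‖B.b y‖ < 1) :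
    tr3 (fderiv ℝ (fderiv ℝ B.f) y) - D2 B.f y (S.N (B.b y)) (S.N (B.b y))
      = -2 * S.H * ‖B.g y‖ := by
  have hX := S.smooth
  have hp := B.pos' hy
  have hn : 0 < ‖nn S.X (B.b y)‖ := norm_pos_iff.2 (B.nn_ne hy)
  have hc := (B.coord le_rfl hy).2.2
  have hf := B.smooth_f hy
  set u := B.b y with hu
  set Y : V2 → V3 := fun x => S.X x + B.f y • e with hY
  have hYu : Y u = y := hc
  have hYs : ContDiffAt ℝ 2 Y u := (hX.contDiffAt).add contDiffAt_const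
  have hDY : ∀ x, fderiv ℝ Y x = fderiv ℝ S.X x := fun x => (B.FP_Y hX y x).fderiv
  have hDY' : fderiv ℝ Y = fderiv ℝ S.X := funext hDY
  have key : ∀ a b : V2, D2 B.f y (fderiv ℝ S.X u a) (fderiv ℝ S.X u b) =
      -⟪B.g y, D2 S.X u a b⟫ := by
    intro a b
    have h1 := D2_comp (f := B.f) (Y := Y) (u := u) (by rw [hYu]; exact hf) hYs a b
    have h2 : D2 (fun x => B.f (Y x)) u a b = 0 := by
      have h3 : (fun x => B.f (Y x)) =ᶠ[𝓝 u] fun _ => B.f y :=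
        (B.FP_near hy).mono fun x hx => hx.2
      have h4 := h3.fderiv (𝕜 := ℝ)
      unfold D2
      rw [h4.fderiv_eq]
      simp
    rw [h2, hYu, hDY] at h1
    have h5 : D2 Y u a b = D2 S.X u a b := by
      unfold D2
      rw [hDY']
    rw [h5, B.fd hX hy] at h1
    linarith
  set Q := fderiv ℝ (fderiv ℝ B.f) y with hQ
  have hQs : ∀ a b : V3, Q a b = Q b a := fun a b => D2_symm hf a b
  have hkey : ∀ a b : V2, Q (fderiv ℝ S.X u a) (fderiv ℝ S.X u b) = -⟪B.g y, D2 S.X u a b⟫ := key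
  have h1 := tr_identity Q hQs (fderiv ℝ S.X u e0) (fderiv ℝ S.X u e1)
  rw [hkey, hkey, hkey] at h1
  have hnn : cr (fderiv ℝ S.X u e0) (fderiv ℝ S.X u e1) = nn S.X u := rfl
  rw [hnn] at h1
  have h2 := S.cmc u hb
  have h3 : ⟪B.g y, Lop S.X S.X u⟫ = ⟪nn S.X u, e⟫⁻¹ * (2 * S.H * ‖nn S.X u‖ ^ 3) := by
    rw [← h2]
    change ⟪(⟪nn S.X u, e⟫)⁻¹ • nn S.X u, Lop S.X S.X u⟫ = _
    rw [real_inner_smul_left, real_inner_comm (Lop S.X S.X u)]
  have h4 : ⟪B.g y, Lop S.X S.X u⟫ = ‖fderiv ℝ S.X u e1‖ ^ 2 * ⟪B.g y, D2 S.X u e0 e0⟫ -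
      2 * ⟪fderiv ℝ S.X u e0, fderiv ℝ S.X u e1⟫ * ⟪B.g y, D2 S.X u e0 e1⟫ +
      ‖fderiv ℝ S.X u e0‖ ^ 2 * ⟪B.g y, D2 S.X u e1 e1⟫ := by
    unfold Lop cA cB cC
    rw [inner_add_right, inner_add_right, real_inner_smul_right, real_inner_smul_right,
      real_inner_smul_right, real_inner_self_eq_norm_sq, real_inner_self_eq_norm_sq]
    ring
  have h5 : Q (nn S.X u) (nn S.X u) = ‖nn S.X u‖ ^ 2 * D2 B.f y (S.N u) (S.N u) := by
    have h6 : nn S.X u = ‖nn S.X u‖ • S.N u := by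
      change nn S.X u = ‖nn S.X u‖ • (‖nn S.X u‖⁻¹ • nn S.X u)
      rw [smul_smul, mul_inv_cancel₀ hn.ne', one_smul]
    conv_lhs => rw [h6]
    rw [map_smul, map_smul, smul_apply, smul_eq_mul, smul_eq_mul]
    unfold D2
    ring
  have h7 : ‖nn S.X u‖ ^ 2 * (tr3 Q - D2 B.f y (S.N u) (S.N u)) =
      ‖nn S.X u‖ ^ 2 * (-2 * S.H * ‖B.g y‖) := by
    have h8 := B.FP_norm_g hy
    rw [← hu] at h8
    rw [h8]
    rw [h5] at h1
    rw [h3] at h4
    linear_combination -h1 + h4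
  exact mul_left_cancel₀ (by positivity) h7

end Pool.Agent.H99.SC

end S_FP

section S_DI

/-!
# DI: the differential inequality for a reflected sheet

`S` a surface, `B` a box, `w u = B.f (refl n t (S.X u))`.
`lopw`: exact formula.  With `y = refl n t (X u)`, `Q = D2 B.f y`, `g = B.g y`:
`Lop X w u = ‖nn X u‖^2 (tr3 Q - Q NY NY) + ⟪g, rl n Z⟫`, `NY = rl n (N u)`, `Z = Lop X X u`
(`D2_comp`, `D2_refl_comp`, `fderiv_refl_comp`, `tr_identity` with `a = rl n X_u`, `b = rl n X_v`,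
`rl_cr`, `rl_inner`).

`di`.  Let `G = g - ⟪g,NY⟫ NY`.  By `decomp`, `‖nn‖^2 G = (..) rl X_u + (..) rl X_v` with coefficients
`‖X_v‖^2 Dw e0 - ⟪X_u,X_v⟫ Dw e1` etc., since `⟪g, rl n X_a⟫ = Dw a` : so `‖G‖ <= C |Dw|` near `u₁`.
`⟪g, rl n Z⟫ = ⟪g,NY⟫ ⟪NY, rl n Z⟫ + ⟪G, rl n Z⟫ = ⟪g,NY⟫ 2 H ‖nn‖^2 + ⟪G, rl n Z⟫` (`cmcN`).
With `pdef`: `Lop X w u = ‖nn‖^2 (Q Nf Nf - Q NY NY + 2 H (⟪g,NY⟫ - ‖g‖)) + ⟪G, rl n Z⟫`,
`Nf = N (b y) = g/‖g‖`.  Near `u₁`: `⟪Nf,NY⟫ > 0`, `‖Nf - NY‖^2 = 2 - 2 ⟪Nf,NY⟫ <= 2 (1 - ⟪Nf,NY⟫^2)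
= 2 ‖G‖^2/‖g‖^2`, `|Q Nf Nf - Q NY NY| <= 2 ‖Q‖ ‖Nf - NY‖`, `0 <= ‖g‖ - ⟪g,NY⟫ <= ‖g‖ ‖Nf - NY‖^2`
and `‖Nf - NY‖ ≤ 2`.  All norms are bounded near `u₁` (continuity), `1/‖nn‖` and `1/‖g‖` too.

`lop_neg`: if `rl n (N u) = - N (b y)` then `Lop X w u < 0` (and `G = 0`): formula above with
`NY = -Nf`: `Lop = ‖nn‖^2 (-2 H ‖g‖ - 2 H ‖g‖)`.
-/


open scoped RealInnerProductSpace Topology
open Metric Filter Set


namespace Pool.Agent.H99.SC

theorem DI_contDiff_refl (S : Surf) (n : V3) (t : ℝ) :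
    ContDiff ℝ 2 (fun x => refl n t (S.X x)) :=
  ((contDiff_refl n t).of_le le_top).comp S.smooth

theorem contDiffAt_w (S : Surf) {u₀ : V2} {e : V3} (B : Box S.X u₀ e) (n : V3) (t : ℝ) {u : V2}
    (hU : refl n t (S.X u) ∈ B.U B.r) :
    ContDiffAt ℝ 2 (fun x => B.f (refl n t (S.X x))) u :=
  (B.smooth_f hU).comp u (DI_contDiff_refl S n t).contDiffAt

theorem fderiv_w (S : Surf) {u₀ : V2} {e : V3} (B : Box S.X u₀ e) (n : V3) (t : ℝ) {u : V2}
    (hU : refl n t (S.X u) ∈ B.U B.r) (a : V2) :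
    fderiv ℝ (fun x => B.f (refl n t (S.X x))) u a
      = ⟪B.g (refl n t (S.X u)), rl n (fderiv ℝ S.X u a)⟫ := by
  have h1 : DifferentiableAt ℝ B.f (refl n t (S.X u)) :=
    (B.smooth_f hU).differentiableAt (by norm_num)
  have h2 : DifferentiableAt ℝ (fun x => refl n t (S.X x)) u :=
    (DI_contDiff_refl S n t).contDiffAt.differentiableAt (by norm_num)
  have h3 : DifferentiableAt ℝ S.X u := S.smooth.contDiffAt.differentiableAt (by norm_num)
  have h4 := fderiv_comp (𝕜 := ℝ) (g := B.f) (f := fun x => refl n t (S.X x)) u h1 h2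
  have h5 : fderiv ℝ (fun x => B.f (refl n t (S.X x))) u
      = (fderiv ℝ B.f (refl n t (S.X u))).comp (fderiv ℝ (fun x => refl n t (S.X x)) u) := h4
  rw [h5, ContinuousLinearMap.comp_apply, fderiv_refl_comp n t h3, B.fd S.smooth hU]

theorem DI_inner_zero (S : Surf) {u₀ : V2} {e : V3} (B : Box S.X u₀ e) {n : V3} (hn : ‖n‖ = 1)
    (t : ℝ) {u : V2} (hU : refl n t (S.X u) ∈ B.U B.r) (a : V2) :
    fderiv ℝ (fun x => B.f (refl n t (S.X x))) u a
      = ‖B.g (refl n t (S.X u))‖ *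
        ⟪rl n (S.N (B.b (refl n t (S.X u)))), fderiv ℝ S.X u a⟫ := by
  rw [fderiv_w S B n t hU a]
  conv_lhs => rw [B.g_eq hU]
  rw [inner_smul_left]
  congr 1
  have h := rl_inner n hn (rl n (NN S.X (B.b (refl n t (S.X u))))) (fderiv ℝ S.X u a)
  rw [rl_rl n hn] at h
  exact h

/-- if the derivative of `w` vanishes the normals agree up to sign -/
theorem normal_pm (S : Surf) {u₀ : V2} {e : V3} (B : Box S.X u₀ e) {n : V3} (hn : ‖n‖ = 1)
    (t : ℝ) {u : V2} (hu : ‖u‖ ≤ 1) (hU : refl n t (S.X u) ∈ B.U B.r)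
    (hb : ‖B.b (refl n t (S.X u))‖ ≤ 1)
    (hD : fderiv ℝ (fun x => B.f (refl n t (S.X x))) u = 0) :
    rl n (S.N u) = S.N (B.b (refl n t (S.X u))) ∨
      rl n (S.N u) = -S.N (B.b (refl n t (S.X u))) := by
  have h1 : ∀ a : V2, ⟪rl n (S.N (B.b (refl n t (S.X u)))), fderiv ℝ S.X u a⟫ = 0 := by
    intro a
    have h2 := DI_inner_zero S B hn t hU a
    rw [hD] at h2
    have h3 := B.g_pos hU
    simp only [zero_apply] at h2
    rcases mul_eq_zero.1 h2.symm with h4 | h4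
    · exact absurd h4 h3.ne'
    · exact h4
  have h2 : ‖rl n (S.N (B.b (refl n t (S.X u))))‖ = 1 := by
    rw [rl_norm n hn, S.N_norm hb]
  rcases S.unit_eq hu h2 h1 with h3 | h3
  · left
    rw [← h3, rl_rl n hn]
  · right
    have h4 : S.N u = -rl n (S.N (B.b (refl n t (S.X u)))) := by rw [h3, neg_neg]
    rw [h4, rl_neg, rl_rl n hn]

/-- conversely equality of normals makes the derivative vanish -/
theorem fderiv_w_zero (S : Surf) {u₀ : V2} {e : V3} (B : Box S.X u₀ e) {n : V3} (hn : ‖n‖ = 1)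
    (t : ℝ) {u : V2} (hU : refl n t (S.X u) ∈ B.U B.r)
    (hN : rl n (S.N u) = S.N (B.b (refl n t (S.X u)))) :
    fderiv ℝ (fun x => B.f (refl n t (S.X x))) u = 0 := by
  apply ContinuousLinearMap.ext
  intro a
  rw [DI_inner_zero S B hn t hU a, ← hN, rl_rl n hn, S.N_orth]
  simp

/-- exact formula -/
theorem DI_lopw (S : Surf) {u₀ : V2} {e : V3} (B : Box S.X u₀ e) {n : V3} (hn : ‖n‖ = 1) (t : ℝ)
    {u : V2} (hu : ‖u‖ ≤ 1) (hU : refl n t (S.X u) ∈ B.U B.r) :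
    Lop S.X (fun x => B.f (refl n t (S.X x))) u
      = ‖nn S.X u‖ ^ 2 * (tr3 (fderiv ℝ (fderiv ℝ B.f) (refl n t (S.X u)))
          - D2 B.f (refl n t (S.X u)) (rl n (S.N u)) (rl n (S.N u)))
        + ⟪B.g (refl n t (S.X u)), rl n (Lop S.X S.X u)⟫ := by
  have h3 : DifferentiableAt ℝ S.X u := S.smooth.contDiffAt.differentiableAt (by norm_num)
  have hD : ∀ a b : V2, D2 (fun x => B.f (refl n t (S.X x))) u a b
      = D2 B.f (refl n t (S.X u)) (rl n (fderiv ℝ S.X u a)) (rl n (fderiv ℝ S.X u b))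
        + ⟪B.g (refl n t (S.X u)), rl n (D2 S.X u a b)⟫ := by
    intro a b
    have h1 := D2_comp (f := B.f) (Y := fun x => refl n t (S.X x)) (u := u) (B.smooth_f hU)
      (DI_contDiff_refl S n t).contDiffAt a b
    rw [h1, fderiv_refl_comp n t h3, fderiv_refl_comp n t h3,
      D2_refl_comp n t S.smooth.contDiffAt, B.fd S.smooth hU]
  have hQ : ∀ x y : V3, (fderiv ℝ (fderiv ℝ B.f) (refl n t (S.X u))) x y
      = (fderiv ℝ (fderiv ℝ B.f) (refl n t (S.X u))) y x := fun x y => D2_symm (B.smooth_f hU) x y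
  have ht := tr_identity (fderiv ℝ (fderiv ℝ B.f) (refl n t (S.X u))) hQ
    (rl n (fderiv ℝ S.X u e0)) (rl n (fderiv ℝ S.X u e1))
  have hcr : cr (rl n (fderiv ℝ S.X u e0)) (rl n (fderiv ℝ S.X u e1))
      = (-‖nn S.X u‖) • rl n (S.N u) := by
    rw [rl_cr n hn]
    have : cr (fderiv ℝ S.X u e0) (fderiv ℝ S.X u e1) = ‖nn S.X u‖ • S.N u := S.nn_eq hu
    rw [this, rl_smul, neg_smul]
  rw [hcr, rl_norm n hn, rl_norm n hn, rl_inner n hn, norm_smul, rl_norm n hn, S.N_norm hu,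
    mul_one, Real.norm_eq_abs, abs_neg, abs_of_nonneg (norm_nonneg _)] at ht
  simp only [map_smul, smul_apply, smul_eq_mul] at ht
  unfold Lop
  rw [hD, hD, hD]
  simp only [rl_add, rl_smul, inner_add_right, inner_smul_right, smul_eq_mul]
  unfold cA cB cC D2
  rw [real_inner_self_eq_norm_sq, real_inner_self_eq_norm_sq]
  linear_combination ht

/-- the tangential part of the gradient -/
theorem DI_G (S : Surf) {u₀ : V2} {e : V3} (B : Box S.X u₀ e) {n : V3} (hn : ‖n‖ = 1) (t : ℝ)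
    {u : V2} (hu : ‖u‖ ≤ 1) (hU : refl n t (S.X u) ∈ B.U B.r) :
    ‖nn S.X u‖ ^ 2 * ‖B.g (refl n t (S.X u))
        - ⟪B.g (refl n t (S.X u)), rl n (S.N u)⟫ • rl n (S.N u)‖
      ≤ 2 * ‖fderiv ℝ S.X u e0‖ * ‖fderiv ℝ S.X u e1‖
          * (‖fderiv ℝ S.X u e0‖ + ‖fderiv ℝ S.X u e1‖)
        * ‖fderiv ℝ (fun x => B.f (refl n t (S.X x))) u‖ := by
  set g := B.g (refl n t (S.X u)) with hg
  set w := fun x => B.f (refl n t (S.X x)) with hw
  have hd := decomp (rl n (fderiv ℝ S.X u e0)) (rl n (fderiv ℝ S.X u e1)) g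
  have hcr : cr (rl n (fderiv ℝ S.X u e0)) (rl n (fderiv ℝ S.X u e1))
      = (-‖nn S.X u‖) • rl n (S.N u) := by
    rw [rl_cr n hn]
    have : cr (fderiv ℝ S.X u e0) (fderiv ℝ S.X u e1) = ‖nn S.X u‖ • S.N u := S.nn_eq hu
    rw [this, rl_smul, neg_smul]
  have h0 : ⟪g, rl n (fderiv ℝ S.X u e0)⟫ = fderiv ℝ w u e0 := (fderiv_w S B n t hU e0).symm
  have h1 : ⟪g, rl n (fderiv ℝ S.X u e1)⟫ = fderiv ℝ w u e1 := (fderiv_w S B n t hU e1).symm
  rw [hcr, h0, h1, rl_norm n hn, rl_norm n hn, rl_inner n hn, norm_smul, rl_norm n hn,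
    S.N_norm hu, mul_one, Real.norm_eq_abs, abs_neg, abs_of_nonneg (norm_nonneg _)] at hd
  set α := ‖fderiv ℝ S.X u e0‖ with hα
  set β := ‖fderiv ℝ S.X u e1‖ with hβ
  set κ := ‖nn S.X u‖ with hκ
  set D := ‖fderiv ℝ w u‖ with hDd
  have hα0 : 0 ≤ α := norm_nonneg _
  have hβ0 : 0 ≤ β := norm_nonneg _
  have hD0 : 0 ≤ D := norm_nonneg _
  have he0 : ‖e0‖ = 1 := by unfold e0; simp
  have he1 : ‖e1‖ = 1 := by unfold e1; simp
  have hw0 : |fderiv ℝ w u e0| ≤ D := by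
    have := (fderiv ℝ w u).le_opNorm e0
    rwa [he0, mul_one, Real.norm_eq_abs] at this
  have hw1 : |fderiv ℝ w u e1| ≤ D := by
    have := (fderiv ℝ w u).le_opNorm e1
    rwa [he1, mul_one, Real.norm_eq_abs] at this
  have hip : |⟪fderiv ℝ S.X u e0, fderiv ℝ S.X u e1⟫| ≤ α * β := abs_real_inner_le_norm _ _
  have hG : (κ ^ 2) • (g - ⟪g, rl n (S.N u)⟫ • rl n (S.N u))
      = (β ^ 2 * fderiv ℝ w u e0 - ⟪fderiv ℝ S.X u e0, fderiv ℝ S.X u e1⟫ * fderiv ℝ w u e1)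
          • rl n (fderiv ℝ S.X u e0)
        + (α ^ 2 * fderiv ℝ w u e1 - ⟪fderiv ℝ S.X u e0, fderiv ℝ S.X u e1⟫ * fderiv ℝ w u e0)
          • rl n (fderiv ℝ S.X u e1) := by
    rw [smul_sub, hd, inner_smul_right]
    module
  have hc0 : |β ^ 2 * fderiv ℝ w u e0 - ⟪fderiv ℝ S.X u e0, fderiv ℝ S.X u e1⟫ * fderiv ℝ w u e1|
      ≤ (β ^ 2 + α * β) * D := by
    refine (abs_sub _ _).trans ?_
    rw [abs_mul, abs_mul, abs_of_nonneg (sq_nonneg β)]
    have i1 := mul_le_mul_of_nonneg_left hw0 (sq_nonneg β)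
    have i2 := mul_le_mul hip hw1 (abs_nonneg _) (mul_nonneg hα0 hβ0)
    linarith
  have hc1 : |α ^ 2 * fderiv ℝ w u e1 - ⟪fderiv ℝ S.X u e0, fderiv ℝ S.X u e1⟫ * fderiv ℝ w u e0|
      ≤ (α ^ 2 + α * β) * D := by
    refine (abs_sub _ _).trans ?_
    rw [abs_mul, abs_mul, abs_of_nonneg (sq_nonneg α)]
    have i1 := mul_le_mul_of_nonneg_left hw1 (sq_nonneg α)
    have i2 := mul_le_mul hip hw0 (abs_nonneg _) (mul_nonneg hα0 hβ0)
    linarith
  have hn1 := congrArg norm hG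
  rw [norm_smul, Real.norm_eq_abs, abs_of_nonneg (sq_nonneg κ)] at hn1
  rw [hn1]
  refine (norm_add_le _ _).trans ?_
  rw [norm_smul, norm_smul, rl_norm n hn, rl_norm n hn, Real.norm_eq_abs, Real.norm_eq_abs]
  have i1 := mul_le_mul_of_nonneg_right hc0 hα0
  have i2 := mul_le_mul_of_nonneg_right hc1 hβ0
  refine (add_le_add i1 i2).trans (le_of_eq ?_)
  ring

/-- the pointwise constant -/
def DI_K (S : Surf) {u₀ : V2} {e : V3} (B : Box S.X u₀ e) (n : V3) (t : ℝ) (u : V2) : ℝ :=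
  2 * ‖fderiv ℝ S.X u e0‖ * ‖fderiv ℝ S.X u e1‖
    * (‖fderiv ℝ S.X u e0‖ + ‖fderiv ℝ S.X u e1‖)
    * (4 * ‖fderiv ℝ (fderiv ℝ B.f) (refl n t (S.X u))‖ / ‖B.g (refl n t (S.X u))‖
      + 4 * S.H + ‖Lop S.X S.X u‖ / ‖nn S.X u‖ ^ 2)

theorem DI_pointwise (S : Surf) {u₀ : V2} {e : V3} (B : Box S.X u₀ e) {n : V3} (hn : ‖n‖ = 1)
    (t : ℝ) {u : V2} (hu : ‖u‖ < 1) (hU : refl n t (S.X u) ∈ B.U B.r)
    (hb : ‖B.b (refl n t (S.X u))‖ < 1)
    (hN : 0 < ⟪S.N (B.b (refl n t (S.X u))), rl n (S.N u)⟫) :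
    |Lop S.X (fun x => B.f (refl n t (S.X x))) u|
        ≤ DI_K S B n t u * ‖fderiv ℝ (fun x => B.f (refl n t (S.X x))) u‖ := by
  have hl := DI_lopw S B hn t hu.le hU
  have hp := pdef S B hU hb
  have hG := DI_G S B hn t hu.le hU
  have hc := S.cmcN hu
  have hgN := B.g_eq hU
  have hγ := B.g_pos hU
  have hκ := S.nn_pos hu.le
  have hH := S.Hpos
  have hNf := S.N_norm hb.le
  have hNu := S.N_norm hu.le
  unfold DI_K
  set y := refl n t (S.X u) with hy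
  set g := B.g y with hg
  set κ := ‖nn S.X u‖ with hκd
  set NY := rl n (S.N u) with hNY
  set Nf := S.N (B.b y) with hNfd
  set Q := fderiv ℝ (fderiv ℝ B.f) y with hQ
  set Z := Lop S.X S.X u with hZ
  set G := g - ⟪g, NY⟫ • NY with hGd
  set γ := ‖g‖ with hγd
  set p := ⟪Nf, NY⟫ with hpd
  set D := ‖fderiv ℝ (fun x => B.f (refl n t (S.X x))) u‖ with hDd
  set AB := 2 * ‖fderiv ℝ S.X u e0‖ * ‖fderiv ℝ S.X u e1‖
    * (‖fderiv ℝ S.X u e0‖ + ‖fderiv ℝ S.X u e1‖) with hAB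
  have hNYn : ‖NY‖ = 1 := by rw [hNY, rl_norm n hn, hNu]
  have hgN' : g = γ • Nf := hgN
  have hgNY : ⟪g, NY⟫ = γ * p := by rw [hgN', inner_smul_left]; rfl
  have hNYZ : ⟪NY, rl n Z⟫ = 2 * S.H * κ ^ 2 := by
    rw [hNY, rl_inner n hn, real_inner_comm]; exact hc
  -- inner product of g with rl Z
  have h1 : ⟪g, rl n Z⟫ = ⟪G, rl n Z⟫ + γ * p * (2 * S.H * κ ^ 2) := by
    rw [hGd, inner_sub_left, inner_smul_left, hNYZ, hgNY]
    simp
  -- difference of the quadratic form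
  have h2 : D2 B.f y Nf Nf - D2 B.f y NY NY = Q (Nf - NY) Nf + Q NY (Nf - NY) := by
    show Q Nf Nf - Q NY NY = _
    rw [map_sub, map_sub, sub_apply]
    ring
  have h3 : |D2 B.f y Nf Nf - D2 B.f y NY NY| ≤ 2 * ‖Q‖ * ‖Nf - NY‖ := by
    rw [h2]
    have i1 : |Q (Nf - NY) Nf| ≤ ‖Q‖ * ‖Nf - NY‖ := by
      have := Q.le_opNorm₂ (Nf - NY) Nf
      rwa [hNf, mul_one, Real.norm_eq_abs] at this
    have i2 : |Q NY (Nf - NY)| ≤ ‖Q‖ * ‖Nf - NY‖ := by
      have := Q.le_opNorm₂ NY (Nf - NY)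
      rwa [hNYn, mul_one, Real.norm_eq_abs] at this
    have := abs_add_le (Q (Nf - NY) Nf) (Q NY (Nf - NY))
    linarith
  have hδ : ‖Nf - NY‖ ^ 2 = 2 - 2 * p := by
    rw [norm_sub_sq_real, hNf, hNYn]; ring
  have hG2 : ‖G‖ ^ 2 = γ ^ 2 * (1 - p ^ 2) := by
    rw [hGd, norm_sub_sq_real, inner_smul_right, norm_smul, hNYn, hgNY, Real.norm_eq_abs, mul_one,
      sq_abs, ← hγd]
    ring
  have hp1 : p ≤ 1 := by
    have := real_inner_le_norm Nf NY
    rwa [hNf, hNYn, mul_one] at this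
  have hδ0 : 0 ≤ ‖Nf - NY‖ := norm_nonneg _
  have hG0 : 0 ≤ ‖G‖ := norm_nonneg _
  have h4 : γ * ‖Nf - NY‖ ≤ 2 * ‖G‖ := by
    have : (γ * ‖Nf - NY‖) ^ 2 ≤ (2 * ‖G‖) ^ 2 := by
      rw [mul_pow, mul_pow, hδ, hG2]
      have i1 : 0 ≤ γ ^ 2 := sq_nonneg _
      have i2 : 2 - 2 * p ≤ 2 ^ 2 * (1 - p ^ 2) := by nlinarith
      have := mul_le_mul_of_nonneg_left i2 i1
      linarith
    exact (sq_le_sq₀ (by positivity) (by positivity)).1 this
  have h5 : 1 - p ≤ ‖Nf - NY‖ := by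
    have : (1 - p) ^ 2 ≤ ‖Nf - NY‖ ^ 2 := by rw [hδ]; nlinarith
    exact (sq_le_sq₀ (by linarith) hδ0).1 this
  have h6 : |⟪G, rl n Z⟫| ≤ ‖G‖ * ‖Z‖ := by
    have := abs_real_inner_le_norm G (rl n Z)
    rwa [rl_norm n hn] at this
  have h7 : Lop S.X (fun x => B.f (refl n t (S.X x))) u
      = κ ^ 2 * (D2 B.f y Nf Nf - D2 B.f y NY NY) - 2 * S.H * κ ^ 2 * (γ * (1 - p))
        + ⟪G, rl n Z⟫ := by
    rw [hl, h1]
    linear_combination (κ ^ 2) * hp
  have hκ2 : 0 < κ ^ 2 := by positivity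
  have hQ0 : 0 ≤ ‖Q‖ := by positivity
  have hZ0 : 0 ≤ ‖Z‖ := norm_nonneg _
  have h8 : |Lop S.X (fun x => B.f (refl n t (S.X x))) u|
      ≤ κ ^ 2 * (2 * ‖Q‖ * ‖Nf - NY‖) + 2 * S.H * κ ^ 2 * (γ * ‖Nf - NY‖) + ‖G‖ * ‖Z‖ := by
    rw [h7]
    refine (abs_add_le _ _).trans ?_
    refine add_le_add ((abs_sub _ _).trans ?_) h6
    refine add_le_add ?_ ?_
    · rw [abs_mul, abs_of_pos hκ2]
      exact mul_le_mul_of_nonneg_left h3 hκ2.le
    · rw [abs_of_nonneg (by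
        have : 0 ≤ 1 - p := by linarith
        positivity)]
      apply mul_le_mul_of_nonneg_left _ (by positivity)
      exact mul_le_mul_of_nonneg_left h5 hγ.le
  have h9 : ‖Nf - NY‖ ≤ 2 * ‖G‖ / γ := by
    rw [le_div_iff₀ hγ]; linarith
  have h10 : |Lop S.X (fun x => B.f (refl n t (S.X x))) u|
      ≤ (κ ^ 2 * ‖G‖) * (4 * ‖Q‖ / γ + 4 * S.H + ‖Z‖ / κ ^ 2) := by
    refine h8.trans ?_
    have i1 : κ ^ 2 * (2 * ‖Q‖ * ‖Nf - NY‖) ≤ κ ^ 2 * (2 * ‖Q‖ * (2 * ‖G‖ / γ)) := by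
      apply mul_le_mul_of_nonneg_left _ hκ2.le
      exact mul_le_mul_of_nonneg_left h9 (by positivity)
    have i2 : 2 * S.H * κ ^ 2 * (γ * ‖Nf - NY‖) ≤ 2 * S.H * κ ^ 2 * (2 * ‖G‖) :=
      mul_le_mul_of_nonneg_left h4 (by positivity)
    have i3 : (κ ^ 2 * ‖G‖) * (4 * ‖Q‖ / γ + 4 * S.H + ‖Z‖ / κ ^ 2)
        = κ ^ 2 * (2 * ‖Q‖ * (2 * ‖G‖ / γ)) + 2 * S.H * κ ^ 2 * (2 * ‖G‖) + ‖G‖ * ‖Z‖ := by
      field_simp
      ring
    rw [i3]
    linarith
  refine h10.trans ?_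
  have h11 : 0 ≤ 4 * ‖Q‖ / γ + 4 * S.H + ‖Z‖ / κ ^ 2 := by positivity
  have h12 := mul_le_mul_of_nonneg_right hG h11
  refine h12.trans (le_of_eq ?_)
  ring

theorem DI_continuous_fderiv (S : Surf) (a : V2) : Continuous fun u => fderiv ℝ S.X u a :=
  (S.smooth.continuous_fderiv (by norm_num)).clm_apply continuous_const

theorem DI_continuousAt_K (S : Surf) {u₀ : V2} {e : V3} (B : Box S.X u₀ e) (n : V3) (t : ℝ)
    {u : V2} (hu : ‖u‖ ≤ 1) (hU : refl n t (S.X u) ∈ B.U B.r) :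
    ContinuousAt (DI_K S B n t) u := by
  have hY : ContinuousAt (fun x => refl n t (S.X x)) u :=
    (DI_contDiff_refl S n t).continuous.continuousAt
  have hg : ContinuousAt (fun x => ‖B.g (refl n t (S.X x))‖) u :=
    (ContinuousAt.comp (g := B.g) (f := fun x => refl n t (S.X x)) (B.g_cont S.smooth hU) hY).norm
  have hQ : ContinuousAt (fun x => ‖fderiv ℝ (fderiv ℝ B.f) (refl n t (S.X x))‖) u := by
    have h1 : ContDiffAt ℝ 0 (fderiv ℝ (fderiv ℝ B.f)) (refl n t (S.X u)) :=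
      (contDiffAt_fderiv (B.smooth_f hU)).fderiv_right (by norm_num)
    have h2 : ContinuousAt (fun x => fderiv ℝ (fderiv ℝ B.f) (refl n t (S.X x))) u :=
      ContinuousAt.comp (g := fderiv ℝ (fderiv ℝ B.f)) (f := fun x => refl n t (S.X x))
        h1.continuousAt hY
    exact ContinuousAt.norm (E := V3 →L[ℝ] V3 →L[ℝ] ℝ) h2
  have hZ : Continuous (fun x => Lop S.X S.X x) := by
    unfold Lop
    exact (((contDiff_cA S.smooth).continuous.smul (continuous_D2 S.smooth e0 e0)).add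
      ((continuous_const.mul (contDiff_cB S.smooth).continuous).smul
        (continuous_D2 S.smooth e0 e1))).add
      ((contDiff_cC S.smooth).continuous.smul (continuous_D2 S.smooth e1 e1))
  have hnn : Continuous (nn S.X) := (contDiff_nn S.smooth).continuous
  have h0 := (DI_continuous_fderiv S e0).norm
  have h1 := (DI_continuous_fderiv S e1).norm
  unfold DI_K
  refine ContinuousAt.mul ?_ ?_
  · exact (((continuous_const.mul h0).mul h1).mul (h0.add h1)).continuousAt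
  · refine ContinuousAt.add (ContinuousAt.add ?_ continuousAt_const) ?_
    · exact (continuousAt_const.mul hQ).div hg (B.g_pos hU).ne'
    · refine ContinuousAt.div hZ.norm.continuousAt (hnn.norm.pow 2).continuousAt ?_
      have := S.nn_pos hu
      positivity

theorem di (S : Surf) {u₀ : V2} {e : V3} (B : Box S.X u₀ e) {n : V3} (hn : ‖n‖ = 1) (t : ℝ)
    {u₁ : V2} (hu₁ : ‖u₁‖ ≤ 1) (hU : refl n t (S.X u₁) ∈ B.U B.r)
    (hb₁ : ‖B.b (refl n t (S.X u₁))‖ ≤ 1)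
    (hN : 0 < ⟪S.N (B.b (refl n t (S.X u₁))), rl n (S.N u₁)⟫) :
    ∃ K : ℝ, ∀ᶠ u in 𝓝 u₁, ‖u‖ < 1 → ‖B.b (refl n t (S.X u))‖ < 1 →
      |Lop S.X (fun x => B.f (refl n t (S.X x))) u|
        ≤ K * ‖fderiv ℝ (fun x => B.f (refl n t (S.X x))) u‖ := by
  have hY : ContinuousAt (fun x => refl n t (S.X x)) u₁ :=
    (DI_contDiff_refl S n t).continuous.continuousAt
  have hE1 : ∀ᶠ u in 𝓝 u₁, refl n t (S.X u) ∈ B.U B.r :=
    hY.eventually ((B.U_open B.hr le_rfl).mem_nhds hU)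
  have hbY : ContinuousAt (fun x => B.b (refl n t (S.X x))) u₁ :=
    ContinuousAt.comp (g := B.b) (f := fun x => refl n t (S.X x))
      (B.smooth_b hU).continuousAt hY
  have hNb : ContinuousAt (fun x => S.N (B.b (refl n t (S.X x)))) u₁ :=
    ContinuousAt.comp (g := S.N) (f := fun x => B.b (refl n t (S.X x))) (S.N_cont hb₁) hbY
  have hrN : ContinuousAt (fun x => rl n (S.N x)) u₁ := by
    have h1 : ContinuousAt (fun x => rlL n (S.N x)) u₁ :=
      ContinuousAt.comp (g := rlL n) (f := S.N) (rlL n).continuous.continuousAt (S.N_cont hu₁)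
    have h2 : (fun x => rlL n (S.N x)) = fun x => rl n (S.N x) := by
      funext x; exact rlL_apply n _
    rwa [h2] at h1
  have hE2 : ∀ᶠ u in 𝓝 u₁, 0 < ⟪S.N (B.b (refl n t (S.X u))), rl n (S.N u)⟫ :=
    (hNb.inner hrN).eventually (lt_mem_nhds hN)
  have hE3 : ∀ᶠ u in 𝓝 u₁, DI_K S B n t u < DI_K S B n t u₁ + 1 :=
    (DI_continuousAt_K S B n t hu₁ hU).eventually (gt_mem_nhds (by linarith))
  refine ⟨DI_K S B n t u₁ + 1, ?_⟩
  filter_upwards [hE1, hE2, hE3] with u h1 h2 h3 hu hb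
  refine (DI_pointwise S B hn t hu h1 hb h2).trans ?_
  exact mul_le_mul_of_nonneg_right h3.le (norm_nonneg _)

theorem lop_neg (S : Surf) {u₀ : V2} {e : V3} (B : Box S.X u₀ e) {n : V3} (hn : ‖n‖ = 1) (t : ℝ)
    {u : V2} (hu : ‖u‖ < 1) (hU : refl n t (S.X u) ∈ B.U B.r)
    (hb : ‖B.b (refl n t (S.X u))‖ < 1)
    (hN : rl n (S.N u) = -S.N (B.b (refl n t (S.X u)))) :
    Lop S.X (fun x => B.f (refl n t (S.X x))) u < 0 := by
  have hl := DI_lopw S B hn t hu.le hU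
  have hp := pdef S B hU hb
  have hc := S.cmcN hu
  have hgN := B.g_eq hU
  have hγ := B.g_pos hU
  have hκ := S.nn_pos hu.le
  have hH := S.Hpos
  have h1 : D2 B.f (refl n t (S.X u)) (rl n (S.N u)) (rl n (S.N u))
      = D2 B.f (refl n t (S.X u)) (S.N (B.b (refl n t (S.X u))))
        (S.N (B.b (refl n t (S.X u)))) := by
    rw [hN]
    unfold D2
    simp
  have h2 : ⟪B.g (refl n t (S.X u)), rl n (Lop S.X S.X u)⟫
      = -(‖B.g (refl n t (S.X u))‖ * (2 * S.H * ‖nn S.X u‖ ^ 2)) := by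
    have h3 : ⟪S.N (B.b (refl n t (S.X u))), rl n (Lop S.X S.X u)⟫
        = -(2 * S.H * ‖nn S.X u‖ ^ 2) := by
      have h4 : S.N (B.b (refl n t (S.X u))) = -rl n (S.N u) := by rw [hN, neg_neg]
      rw [h4, inner_neg_left, rl_inner n hn, real_inner_comm, hc]
    conv_lhs => rw [hgN]
    rw [inner_smul_left]
    have h5 : ⟪NN S.X (B.b (refl n t (S.X u))), rl n (Lop S.X S.X u)⟫
        = -(2 * S.H * ‖nn S.X u‖ ^ 2) := h3
    rw [h5]
    simp
  rw [hl, h1, hp, h2]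
  have h3 : 0 < ‖nn S.X u‖ ^ 2 * (S.H * ‖B.g (refl n t (S.X u))‖) := by positivity
  nlinarith

end Pool.Agent.H99.SC

end S_DI

section S_LSIG

/-!
# LSIG: local structure of a domain near an interior point of the surface and near the disc

`sep`: a preconnected set disjoint from `frontier W` is inside `W` or disjoint from `closure W`
(W open: `interior W = W` and `(closure W)ᶜ` are disjoint open sets covering the complement of the
frontier).

`box_sig` (no domain): for a box at `u₀` with `‖u₀‖ ≤ 1` and small `ε`: a point `S.X v`, `‖v‖ ≤ 1`, of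
`B.U ε` has `‖v - u₀‖ < B.r`, hence `B.b (S.X v) = v`, `B.f (S.X v) = 0`: so `y ∈ S.Sig ↔ (B.f y = 0 ∧ ‖B.b y‖ ≤ 1)`
on `B.U ε` (use `S.emb` and `B.small`).

`lsig`: `‖u₀‖ < 1`.  Take `ε` small: `box_sig`, `ball u₀ ε ⊆ ball 0 1`, `B.U ε` disjoint from `Disc`
(compact, `D.disj`).  `{y ∈ U ε, 0 < f y}` is preconnected (`preconn_pos`), disjoint from the
frontier (`D.fr`), and contains `S.X u₀ + s N u₀` for small `s > 0` (`f (S.X u₀ + s N) > 0` for small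
`s > 0` since the derivative of `f` in the direction `N` is `⟪g,N⟫ > 0`), a point of `W` by `D.inS`:
so it is inside `W`.  Same for `{f < 0}` and the complement of the closure.  `{f = 0}`: points of
`S.Sig` with `‖b y‖ < 1`, limits of `S.X u + s N u ∈ W`; not in `W` because they are limits of
`S.X u - s N u`, not in the closure.

`ldisc`: `ball d ε` is disjoint from `S.Sig` for small `ε`: (`d ∈ S.Sig` with `d 2 = 0` and `‖d‖ < 1` is
impossible: `D.disj` and `S.bd1`), and points of `Disc` in it are those with `y 2 = 0`; the half balls are convex.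
-/


open scoped RealInnerProductSpace Topology
open Metric Filter Set


namespace Pool.Agent.H99.SC

theorem sep {W A : Set V3} (hW : IsOpen W) (hA : IsPreconnected A)
    (h : Disjoint A (frontier W)) : A ⊆ W ∨ A ⊆ (closure W)ᶜ := by
  refine hA.subset_or_subset hW isClosed_closure.isOpen_compl ?_ ?_
  · exact Set.disjoint_compl_right_iff_subset.2 subset_closure
  · intro y hy
    by_cases hc : y ∈ closure W
    · left
      by_contra hyW
      exact Set.disjoint_left.1 h hy ⟨hc, by rwa [hW.interior_eq]⟩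
    · exact Or.inr hc

theorem box_sig (S : Surf) {u₀ : V2} (hu₀ : ‖u₀‖ ≤ 1) {e : V3} (B : Box S.X u₀ e) :
    ∃ ε : ℝ, 0 < ε ∧ ε ≤ B.r ∧ (∀ v : V2, ‖v‖ ≤ 1 → S.X v ∈ B.U ε → ‖v - u₀‖ < B.r) ∧
      ∀ y ∈ B.U ε, (y ∈ S.Sig ↔ (B.f y = 0 ∧ ‖B.b y‖ ≤ 1)) := by
  obtain ⟨δ, hδ, hδ'⟩ := S.emb hu₀ B.hr
  obtain ⟨ε, hε, hεr, hU⟩ := B.small S.smooth.continuous (Metric.ball_mem_nhds (S.X u₀) hδ)
  have key : ∀ v : V2, ‖v‖ ≤ 1 → S.X v ∈ B.U ε → ‖v - u₀‖ < B.r := by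
    intro v hv hvU
    exact hδ' v hv (by simpa [dist_eq_norm] using hU hvU)
  refine ⟨ε, hε, hεr, key, ?_⟩
  intro y hy
  constructor
  · rintro ⟨v, hv, rfl⟩
    have h := key v hv hy
    rw [B.b_X h, B.f_X h]
    exact ⟨rfl, hv⟩
  · rintro ⟨h0, h1⟩
    refine ⟨B.b y, h1, ?_⟩
    have := (B.coord hεr hy).2.2
    rwa [h0, zero_smul, add_zero] at this

/-- `x + s w` tends to `x` as `s → 0+` -/
theorem lsig_tend (x w : V3) : Tendsto (fun s : ℝ => x + s • w) (𝓝[>] 0) (𝓝 x) := by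
  have h : Tendsto (fun s : ℝ => x + s • w) (𝓝 0) (𝓝 (x + (0 : ℝ) • w)) :=
    (continuous_const.add (continuous_id.smul continuous_const)).tendsto 0
  rw [zero_smul, add_zero] at h
  exact h.mono_left nhdsWithin_le_nhds

theorem lsig_tend' (x w : V3) : Tendsto (fun s : ℝ => x - s • w) (𝓝[>] 0) (𝓝 x) := by
  have h := lsig_tend x (-w)
  refine h.congr (fun s => ?_)
  rw [smul_neg, sub_eq_add_neg]

theorem lsig_ev {ε : ℝ} (hε : 0 < ε) : ∀ᶠ s : ℝ in 𝓝[>] 0, 0 < s ∧ s < ε := by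
  filter_upwards [Ioo_mem_nhdsGT hε] with s hs using hs

/-- interior points of the surface are in the closure of the domain -/
theorem lsig_cl {S : Surf} (D : PreDom S) {u : V2} (hu : ‖u‖ < 1) : S.X u ∈ closure D.W := by
  obtain ⟨ε, hε, h⟩ := D.inS u hu
  refine mem_closure_of_tendsto (lsig_tend (S.X u) (S.N u)) ?_
  filter_upwards [lsig_ev hε] with s hs using (h s hs.1 hs.2).1

theorem lsig_not {S : Surf} (D : PreDom S) {u : V2} (hu : ‖u‖ < 1) : S.X u ∉ D.W := by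
  obtain ⟨ε, hε, h⟩ := D.inS u hu
  intro hW
  have h1 : ∀ᶠ s : ℝ in 𝓝[>] 0, S.X u - s • S.N u ∈ D.W :=
    (lsig_tend' (S.X u) (S.N u)).eventually (D.isOpen.mem_nhds hW)
  obtain ⟨s, hs, hs'⟩ := (h1.and (lsig_ev hε)).exists
  exact (h s hs'.1 hs'.2).2 (subset_closure hs)

theorem lsig_dcl {S : Surf} (D : PreDom S) {d : V3} (h2 : d 2 = 0)
    (h1 : d 0 ^ 2 + d 1 ^ 2 < 1) : d ∈ closure D.W := by
  obtain ⟨ε, hε, h⟩ := D.inD d h2 h1
  refine mem_closure_of_tendsto (lsig_tend' d E3) ?_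
  filter_upwards [lsig_ev hε] with s hs using (h s hs.1 hs.2).1

theorem lsig_dnot {S : Surf} (D : PreDom S) {d : V3} (h2 : d 2 = 0)
    (h1 : d 0 ^ 2 + d 1 ^ 2 < 1) : d ∉ D.W := by
  obtain ⟨ε, hε, h⟩ := D.inD d h2 h1
  intro hW
  have h3 : ∀ᶠ s : ℝ in 𝓝[>] 0, d + s • E3 ∈ D.W :=
    (lsig_tend d E3).eventually (D.isOpen.mem_nhds hW)
  obtain ⟨s, hs, hs'⟩ := (h3.and (lsig_ev hε)).exists
  exact (h s hs'.1 hs'.2).2 (subset_closure hs)

/-- near an interior point of the surface `f` has the sign of the normal displacement -/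
theorem lsig_sign {S : Surf} {u₀ : V2} (hu₀ : ‖u₀‖ ≤ 1) {e : V3} (B : Box S.X u₀ e) :
    ∃ δ : ℝ, 0 < δ ∧ ∀ s : ℝ, 0 < s → s < δ →
      0 < B.f (S.X u₀ + s • S.N u₀) ∧ B.f (S.X u₀ - s • S.N u₀) < 0 := by
  have hyU : S.X u₀ ∈ B.U B.r := B.mem_U B.hr
  have hb : B.b (S.X u₀) = u₀ := B.b_X (by simpa using B.hr)
  have hf0 : B.f (S.X u₀) = 0 := B.f_X (by simpa using B.hr)
  have hNN : (NN S.X u₀) = S.N u₀ := rfl
  have hin : 0 < ⟪B.g (S.X u₀), S.N u₀⟫ := by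
    have h1 := B.g_eq hyU
    have h2 := B.g_pos hyU
    have h3 := S.N_norm hu₀
    rw [h1, hb, hNN, inner_smul_left, real_inner_self_eq_norm_sq, h3]
    simpa using h2
  have hd : HasFDerivAt B.f (fderiv ℝ B.f (S.X u₀)) (S.X u₀) :=
    ((B.smooth_f hyU).differentiableAt (by norm_num)).hasFDerivAt
  have hline : HasDerivAt (fun s : ℝ => S.X u₀ + s • S.N u₀) (S.N u₀) 0 := by
    have := ((hasDerivAt_id (0 : ℝ)).smul_const (S.N u₀)).const_add (S.X u₀)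
    simpa using this
  have hcomp : HasDerivAt (fun s : ℝ => B.f (S.X u₀ + s • S.N u₀))
      (⟪B.g (S.X u₀), S.N u₀⟫) 0 := by
    have h1 : HasFDerivAt B.f (fderiv ℝ B.f (S.X u₀)) (S.X u₀ + (0 : ℝ) • S.N u₀) := by
      simpa using hd
    have h2 := h1.comp_hasDerivAt (0 : ℝ) hline
    rw [B.fd S.smooth hyU] at h2
    exact h2
  have hslope := hasDerivAt_iff_tendsto_slope.1 hcomp
  have hev := hslope.eventually (lt_mem_nhds hin)
  rw [eventually_nhdsWithin_iff, Metric.eventually_nhds_iff] at hev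
  obtain ⟨δ, hδ, h⟩ := hev
  refine ⟨δ, hδ, fun s hs hsδ => ?_⟩
  have hz : B.f (S.X u₀ + (0 : ℝ) • S.N u₀) = 0 := by simpa using hf0
  constructor
  · have h1 := h (y := s) (by simpa [abs_of_pos hs] using hsδ) hs.ne'
    rw [slope_def_field, hz, sub_zero, sub_zero] at h1
    exact (div_pos_iff_of_pos_right hs).1 h1
  · have h1 := h (y := -s) (by simpa [abs_of_pos hs] using hsδ) (neg_ne_zero.2 hs.ne')
    rw [slope_def_field, hz, sub_zero, sub_zero] at h1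
    have h2 : (-s) • S.N u₀ = -(s • S.N u₀) := neg_smul _ _
    rw [h2, ← sub_eq_add_neg] at h1
    by_contra hcon
    push Not at hcon
    have := div_nonpos_of_nonneg_of_nonpos hcon (neg_nonpos.2 hs.le)
    linarith

theorem lsig {S : Surf} (D : PreDom S) {u₀ : V2} (hu₀ : ‖u₀‖ < 1) {e : V3} (B : Box S.X u₀ e) :
    ∃ ε : ℝ, 0 < ε ∧ ε ≤ B.r ∧ ∀ y ∈ B.U ε, ‖B.b y‖ < 1 ∧ y ∉ Disc ∧
      (y ∈ S.Sig ↔ B.f y = 0) ∧ (y ∈ D.W ↔ 0 < B.f y) ∧ (y ∈ closure D.W ↔ 0 ≤ B.f y) := by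
  obtain ⟨ε₁, hε₁, hε₁r, -, hsig⟩ := box_sig S hu₀.le B
  obtain ⟨ε₂, hε₂, -, hU₂⟩ := B.small S.smooth.continuous
    (isCompact_Disc.isClosed.isOpen_compl.mem_nhds (D.disj u₀ hu₀))
  obtain ⟨ε, hε, hεlt⟩ : ∃ ε : ℝ, 0 < ε ∧ ε ≤ ε₁ ∧ ε ≤ ε₂ ∧ ε ≤ 1 - ‖u₀‖ :=
    ⟨min ε₁ (min ε₂ (1 - ‖u₀‖)), by
      refine lt_min hε₁ (lt_min hε₂ (by linarith)),
      min_le_left _ _, (min_le_right _ _).trans (min_le_left _ _),
      (min_le_right _ _).trans (min_le_right _ _)⟩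
  obtain ⟨he1, he2, he3⟩ := hεlt
  have hεr : ε ≤ B.r := he1.trans hε₁r
  have hb : ∀ y ∈ B.U ε, ‖B.b y‖ < 1 := by
    intro y hy
    have h1 := (B.coord hεr hy).1
    have h2 : ‖B.b y‖ ≤ ‖B.b y - u₀‖ + ‖u₀‖ := by
      simpa using norm_add_le (B.b y - u₀) u₀
    linarith
  have hD : ∀ y ∈ B.U ε, y ∉ Disc := fun y hy => hU₂ (B.U_mono he2 hy)
  have hS : ∀ y ∈ B.U ε, (y ∈ S.Sig ↔ B.f y = 0) := by
    intro y hy
    rw [hsig y (B.U_mono he1 hy)]
    exact ⟨fun h => h.1, fun h => ⟨h, (hb y hy).le⟩⟩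
  obtain ⟨δ, hδ, hsgn⟩ := lsig_sign hu₀.le B
  obtain ⟨η, hη, hin⟩ := D.inS u₀ hu₀
  have hnh : B.U ε ∈ 𝓝 (S.X u₀) := B.U_nhds hε hεr
  have hpos : {y | y ∈ B.U ε ∧ 0 < B.f y} ⊆ D.W := by
    rcases sep D.isOpen (B.preconn_pos S.smooth.continuous hε hεr) (by
      rw [Set.disjoint_left]
      rintro y ⟨hy, hf⟩ hyF
      rcases D.fr hyF with h | h
      · exact hf.ne' ((hS y hy).1 h)
      · exact hD y hy h) with h | h
    · exact h
    · exfalso
      have h1 : ∀ᶠ s : ℝ in 𝓝[>] 0, S.X u₀ + s • S.N u₀ ∈ B.U ε :=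
        (lsig_tend (S.X u₀) (S.N u₀)).eventually hnh
      obtain ⟨s, hs, hs1, hs2⟩ := (h1.and ((lsig_ev hδ).and (lsig_ev hη))).exists
      have h3 : S.X u₀ + s • S.N u₀ ∈ {y | y ∈ B.U ε ∧ 0 < B.f y} :=
        ⟨hs, (hsgn s hs1.1 hs1.2).1⟩
      exact h h3 (subset_closure (hin s hs2.1 hs2.2).1)
  have hneg : {y | y ∈ B.U ε ∧ B.f y < 0} ⊆ (closure D.W)ᶜ := by
    rcases sep D.isOpen (B.preconn_neg S.smooth.continuous hε hεr) (by
      rw [Set.disjoint_left]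
      rintro y ⟨hy, hf⟩ hyF
      rcases D.fr hyF with h | h
      · exact hf.ne ((hS y hy).1 h)
      · exact hD y hy h) with h | h
    · exfalso
      have h1 : ∀ᶠ s : ℝ in 𝓝[>] 0, S.X u₀ - s • S.N u₀ ∈ B.U ε :=
        (lsig_tend' (S.X u₀) (S.N u₀)).eventually hnh
      obtain ⟨s, hs, hs1, hs2⟩ := (h1.and ((lsig_ev hδ).and (lsig_ev hη))).exists
      have h3 : S.X u₀ - s • S.N u₀ ∈ {y | y ∈ B.U ε ∧ B.f y < 0} :=
        ⟨hs, (hsgn s hs1.1 hs1.2).2⟩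
      exact (hin s hs2.1 hs2.2).2 (subset_closure (h h3))
    · exact h
  have hzero : ∀ y ∈ B.U ε, B.f y = 0 → y ∉ D.W ∧ y ∈ closure D.W := by
    intro y hy hf
    have h1 := (B.coord hεr hy).2.2
    rw [hf, zero_smul, add_zero] at h1
    rw [← h1]
    exact ⟨lsig_not D (hb y hy), lsig_cl D (hb y hy)⟩
  refine ⟨ε, hε, hεr, fun y hy => ⟨hb y hy, hD y hy, hS y hy, ?_, ?_⟩⟩
  · constructor
    · intro hW
      rcases lt_trichotomy (B.f y) 0 with h | h | h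
      · exact absurd (subset_closure hW) (hneg ⟨hy, h⟩)
      · exact absurd hW (hzero y hy h).1
      · exact h
    · intro h
      exact hpos ⟨hy, h⟩
  · constructor
    · intro hW
      by_contra hcon
      push Not at hcon
      exact hneg ⟨hy, hcon⟩ hW
    · intro h
      rcases h.eq_or_lt with h | h
      · exact (hzero y hy h.symm).2
      · exact subset_closure (hpos ⟨hy, h⟩)

theorem lsig_coord_cont (i : Fin 3) : Continuous (fun y : V3 => y i) := by fun_prop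

theorem ldisc {S : Surf} (D : PreDom S) {d : V3} (h2 : d 2 = 0) (h1 : d 0 ^ 2 + d 1 ^ 2 < 1) :
    ∃ ε : ℝ, 0 < ε ∧ ∀ y ∈ ball d ε, y ∉ S.Sig ∧ (y ∈ D.W ↔ y 2 < 0) ∧
      (y ∈ closure D.W ↔ y 2 ≤ 0) := by
  have hdS : d ∉ S.Sig := by
    rintro ⟨u, hu, rfl⟩
    rcases hu.eq_or_lt with h | h
    · have := (S.bd1 h).2
      linarith
    · exact D.disj u h ⟨h2, h1.le⟩
  have hn1 : S.Sigᶜ ∈ 𝓝 d := S.isCompact_Sig.isClosed.isOpen_compl.mem_nhds hdS
  have hn2 : {y : V3 | y 0 ^ 2 + y 1 ^ 2 < 1} ∈ 𝓝 d :=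
    (isOpen_lt (by fun_prop) continuous_const).mem_nhds h1
  obtain ⟨ε, hε, hball⟩ := Metric.mem_nhds_iff.1 (inter_mem hn1 hn2)
  have hS : ∀ y ∈ ball d ε, y ∉ S.Sig := fun y hy => (hball hy).1
  have hlt : ∀ y ∈ ball d ε, y 0 ^ 2 + y 1 ^ 2 < 1 := fun y hy => (hball hy).2
  obtain ⟨η, hη, hin⟩ := D.inD d h2 h1
  have hcv1 : Convex ℝ {y : V3 | y ∈ ball d ε ∧ y 2 < 0} := by
    refine (convex_ball d ε).inter ?_
    intro x hx y hy a b ha hb hab
    have hx' : x 2 < 0 := hx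
    have hy' : y 2 < 0 := hy
    show (a • x + b • y) 2 < 0
    simp only [PiLp.add_apply, PiLp.smul_apply, smul_eq_mul]
    rcases ha.eq_or_lt with h | h
    · have hb1 : b = 1 := by linarith
      rw [← h, hb1]; linarith
    · have h3 := mul_neg_of_pos_of_neg h hx'
      have h4 := mul_nonpos_of_nonneg_of_nonpos hb hy'.le
      linarith
  have hcv2 : Convex ℝ {y : V3 | y ∈ ball d ε ∧ 0 < y 2} := by
    refine (convex_ball d ε).inter ?_
    intro x hx y hy a b ha hb hab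
    have hx' : 0 < x 2 := hx
    have hy' : 0 < y 2 := hy
    show 0 < (a • x + b • y) 2
    simp only [PiLp.add_apply, PiLp.smul_apply, smul_eq_mul]
    rcases ha.eq_or_lt with h | h
    · have hb1 : b = 1 := by linarith
      rw [← h, hb1]; linarith
    · have h3 := mul_pos h hx'
      have h4 := mul_nonneg hb hy'.le
      linarith
  have hneg : {y : V3 | y ∈ ball d ε ∧ y 2 < 0} ⊆ D.W := by
    rcases sep D.isOpen hcv1.isPreconnected (by
      rw [Set.disjoint_left]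
      rintro y ⟨hy, hf⟩ hyF
      rcases D.fr hyF with h | h
      · exact hS y hy h
      · exact hf.ne h.1) with h | h
    · exact h
    · exfalso
      have h1 : ∀ᶠ s : ℝ in 𝓝[>] 0, d - s • E3 ∈ ball d ε :=
        (lsig_tend' d E3).eventually (ball_mem_nhds d hε)
      obtain ⟨s, hs, hs1⟩ := (h1.and (lsig_ev hη)).exists
      have h3 : d - s • E3 ∈ {y : V3 | y ∈ ball d ε ∧ y 2 < 0} :=
        ⟨hs, by simp [h2, hs1.1]⟩
      exact h h3 (subset_closure (hin s hs1.1 hs1.2).1)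
  have hpos : {y : V3 | y ∈ ball d ε ∧ 0 < y 2} ⊆ (closure D.W)ᶜ := by
    rcases sep D.isOpen hcv2.isPreconnected (by
      rw [Set.disjoint_left]
      rintro y ⟨hy, hf⟩ hyF
      rcases D.fr hyF with h | h
      · exact hS y hy h
      · exact hf.ne' h.1) with h | h
    · exfalso
      have h1 : ∀ᶠ s : ℝ in 𝓝[>] 0, d + s • E3 ∈ ball d ε :=
        (lsig_tend d E3).eventually (ball_mem_nhds d hε)
      obtain ⟨s, hs, hs1⟩ := (h1.and (lsig_ev hη)).exists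
      have h3 : d + s • E3 ∈ {y : V3 | y ∈ ball d ε ∧ 0 < y 2} :=
        ⟨hs, by simp [h2, hs1.1]⟩
      exact (hin s hs1.1 hs1.2).2 (subset_closure (h h3))
    · exact h
  refine ⟨ε, hε, fun y hy => ⟨hS y hy, ?_, ?_⟩⟩
  · constructor
    · intro hW
      rcases lt_trichotomy (y 2) 0 with h | h | h
      · exact h
      · exact absurd hW (lsig_dnot D h (hlt y hy))
      · exact absurd (subset_closure hW) (hpos ⟨hy, h⟩)
    · intro h
      exact hneg ⟨hy, h⟩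
  · constructor
    · intro hW
      by_contra hcon
      push Not at hcon
      exact hpos ⟨hy, hcon⟩ hW
    · intro h
      rcases h.eq_or_lt with h | h
      · exact lsig_dcl D h (hlt y hy)
      · exact subset_closure (hneg ⟨hy, h⟩)

theorem lsig_scal (v : V2) : Tendsto (fun s : ℝ => (1 - s) • v) (𝓝[>] 0) (𝓝 v) := by
  have h : Tendsto (fun s : ℝ => (1 - s) • v) (𝓝 0) (𝓝 ((1 - (0 : ℝ)) • v)) :=
    ((continuous_const.sub continuous_id).smul continuous_const).tendsto 0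
  rw [sub_zero, one_smul] at h
  exact h.mono_left nhdsWithin_le_nhds

theorem lsig_scal3 (v : V3) : Tendsto (fun s : ℝ => (1 - s) • v) (𝓝[>] 0) (𝓝 v) := by
  have h : Tendsto (fun s : ℝ => (1 - s) • v) (𝓝 0) (𝓝 ((1 - (0 : ℝ)) • v)) :=
    ((continuous_const.sub continuous_id).smul continuous_const).tendsto 0
  rw [sub_zero, one_smul] at h
  exact h.mono_left nhdsWithin_le_nhds

theorem lsig_norm {v : V2} (hv : ‖v‖ ≤ 1) {s : ℝ} (hs : 0 < s) (hs1 : s < 1) :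
    ‖(1 - s) • v‖ < 1 := by
  rw [norm_smul, Real.norm_eq_abs, abs_of_pos (by linarith)]
  nlinarith [norm_nonneg v]

/-- the surface is in the closure of the domain -/
theorem sig_closure {S : Surf} (D : PreDom S) {y : V3} (hy : y ∈ S.Sig) : y ∈ closure D.W := by
  obtain ⟨u, hu, rfl⟩ := hy
  refine isClosed_closure.mem_of_tendsto
    ((S.smooth.continuous.tendsto u).comp (lsig_scal u)) ?_
  filter_upwards [lsig_ev one_pos] with s hs
  exact lsig_cl D (lsig_norm hu hs.1 hs.2)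

/-- surface and disc are disjoint from the open set `W` -/
theorem not_mem_W {S : Surf} (D : PreDom S) {y : V3} (hy : y ∈ S.Sig ∪ Disc) : y ∉ D.W := by
  rcases hy with ⟨u, hu, rfl⟩ | ⟨h2, h1⟩
  · have : S.X u ∈ D.Wᶜ := by
      refine D.isOpen.isClosed_compl.mem_of_tendsto
        ((S.smooth.continuous.tendsto u).comp (lsig_scal u)) ?_
      filter_upwards [lsig_ev one_pos] with s hs
      exact lsig_not D (lsig_norm hu hs.1 hs.2)
    exact this
  · have : y ∈ D.Wᶜ := by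
      refine D.isOpen.isClosed_compl.mem_of_tendsto (lsig_scal3 y) ?_
      filter_upwards [lsig_ev one_pos] with s hs
      refine lsig_dnot D (by simp [h2]) ?_
      have h3 : ((1 - s) • y) 0 ^ 2 + ((1 - s) • y) 1 ^ 2 = (1 - s) ^ 2 * (y 0 ^ 2 + y 1 ^ 2) := by
        simp only [PiLp.smul_apply, smul_eq_mul]; ring
      rw [h3]
      have h4 : 0 ≤ y 0 ^ 2 + y 1 ^ 2 := by positivity
      have h5 : (1 - s) ^ 2 < 1 := by nlinarith [hs.1, hs.2]
      nlinarith [sq_nonneg (1 - s)]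
    exact this

end Pool.Agent.H99.SC

end S_LSIG

section S_WGT

/-!
# WGT: derivatives of the unit normal

`wg1`: differentiate `⟪S.N x, fderiv ℝ S.X x b⟫ = 0` (valid for all `x`, `S.N_orth`) in the direction `a`.
`wg2`: `‖S.N x‖ = 1` for `x` near `u` (where `nn ≠ 0`).
`wg3`: let `V = cr (N_u) (X_v) - cr (N_v) (X_u)` (`N_u = fderiv N u e0` ..).  All four vectors are
orthogonal to `N`, so `cr` of any two of them is parallel to `N` (`cr_lag` or `decomp`), and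
`⟪V, nn⟫ = (⟪N_u,X_u⟫ ‖X_v‖^2 - ⟪N_u,X_v⟫⟪X_v,X_u⟫) - (⟪N_v,X_u⟫⟪X_u,X_v⟫ - ⟪N_v,X_v⟫‖X_u‖^2)`
(`cr_lag`) `= -⟪N, Lop X X u⟫ = -2 H ‖nn‖^2` by `wg1` and `cmcN'`.  So `V = -2 H nn`.
-/


open scoped RealInnerProductSpace Topology
open Metric Filter Set


namespace Pool.Agent.H99.SC

namespace Surf
variable (S : Surf)

theorem smoothN {u : V2} (hu : ‖u‖ ≤ 1) : ContDiffAt ℝ 1 S.N u :=
  contDiffAt_NN S.smooth (S.imm u hu)

theorem wg1 {u : V2} (hu : ‖u‖ ≤ 1) (a b : V2) :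
    ⟪fderiv ℝ S.N u a, fderiv ℝ S.X u b⟫ = -⟪S.N u, D2 S.X u a b⟫ := by
  have hN : DifferentiableAt ℝ S.N u := (S.smoothN hu).differentiableAt (by norm_num)
  have hX1 : ContDiff ℝ 1 (fderiv ℝ S.X) := S.smooth.fderiv_right (m := 1) (by norm_num)
  have hX2 : HasFDerivAt (fderiv ℝ S.X) (fderiv ℝ (fderiv ℝ S.X) u) u :=
    (hX1.differentiable (by norm_num) u).hasFDerivAt
  have hX3 := hX2.clm_apply (hasFDerivAt_const b u)
  have h1 : (fun x => ⟪S.N x, fderiv ℝ S.X x b⟫) = fun _ => (0 : ℝ) := by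
    funext x
    exact S.N_orth x b
  have h2 := hN.hasFDerivAt.inner ℝ hX3
  have h3 := h2.fderiv
  rw [h1] at h3
  have h4 := congrArg (fun T : V2 →L[ℝ] ℝ => T a) h3
  simp [fderivInnerCLM_apply] at h4
  have h5 : fderiv ℝ (fderiv ℝ S.X) u a b = D2 S.X u a b := rfl
  rw [h5] at h4
  linarith

theorem wg2 {u : V2} (hu : ‖u‖ ≤ 1) (a : V2) : ⟪fderiv ℝ S.N u a, S.N u⟫ = 0 := by
  have hN : DifferentiableAt ℝ S.N u := (S.smoothN hu).differentiableAt (by norm_num)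
  have h0 : nn S.X u ≠ 0 := S.imm u hu
  have h1 : (fun x => ⟪S.N x, S.N x⟫) =ᶠ[𝓝 u] fun _ => (1 : ℝ) := by
    have hc : ContinuousAt (nn S.X) u := (contDiff_nn S.smooth).continuous.continuousAt
    filter_upwards [hc.eventually_ne h0] with x hx
    have hp : 0 < ‖nn S.X x‖ := norm_pos_iff.2 hx
    rw [real_inner_self_eq_norm_sq]
    have : ‖S.N x‖ = 1 := by
      unfold Surf.N NN
      rw [norm_smul, norm_inv, norm_norm, inv_mul_cancel₀ hp.ne']
    rw [this]; norm_num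
  have h2 := hN.hasFDerivAt.inner ℝ hN.hasFDerivAt
  have h3 := h2.fderiv
  rw [h1.fderiv_eq] at h3
  have h4 := congrArg (fun T : V2 →L[ℝ] ℝ => T a) h3
  simp [fderivInnerCLM_apply] at h4
  have h5 := real_inner_comm (S.N u) (fderiv ℝ S.N u a)
  linarith

/-- the shape operator is symmetric -/
theorem wg_symm {u : V2} (hu : ‖u‖ ≤ 1) (a b : V2) :
    ⟪fderiv ℝ S.N u a, fderiv ℝ S.X u b⟫ = ⟪fderiv ℝ S.N u b, fderiv ℝ S.X u a⟫ := by
  rw [S.wg1 hu, S.wg1 hu, D2_symm S.smooth.contDiffAt]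

theorem wg3 {u : V2} (hu : ‖u‖ ≤ 1) :
    cr (fderiv ℝ S.N u e0) (fderiv ℝ S.X u e1) - cr (fderiv ℝ S.N u e1) (fderiv ℝ S.X u e0)
      = (-2 * S.H) • nn S.X u := by
  have hpos := S.nn_pos hu
  have key : ∀ a : V2, ⟪fderiv ℝ S.N u a, cr (fderiv ℝ S.X u e0) (fderiv ℝ S.X u e1)⟫ = 0 := by
    intro a
    have h1 : cr (fderiv ℝ S.X u e0) (fderiv ℝ S.X u e1) = nn S.X u := rfl
    rw [h1, S.nn_eq hu, real_inner_smul_right, S.wg2 hu, mul_zero]
  have hd0 := decomp (fderiv ℝ S.X u e0) (fderiv ℝ S.X u e1) (fderiv ℝ S.N u e0)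
  have hd1 := decomp (fderiv ℝ S.X u e0) (fderiv ℝ S.X u e1) (fderiv ℝ S.N u e1)
  rw [key e0, S.wg1 hu, S.wg1 hu, zero_smul, zero_add] at hd0
  rw [key e1, S.wg1 hu, S.wg1 hu, zero_smul, zero_add,
    D2_symm S.smooth.contDiffAt e1 e0] at hd1
  have hc := S.cmcN' hu
  have hn : cr (fderiv ℝ S.X u e0) (fderiv ℝ S.X u e1) = nn S.X u := rfl
  unfold Lop cA cB cC at hc
  rw [inner_add_left, inner_add_left, real_inner_smul_left, real_inner_smul_left,
    real_inner_smul_left, real_inner_self_eq_norm_sq, real_inner_self_eq_norm_sq,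
    real_inner_comm (S.N u) (D2 S.X u e0 e0), real_inner_comm (S.N u) (D2 S.X u e0 e1),
    real_inner_comm (S.N u) (D2 S.X u e1 e1)] at hc
  rw [hn] at hd0 hd1
  set P := fderiv ℝ S.X u e0 with hP
  set Q := fderiv ℝ S.X u e1 with hQ
  set A := fderiv ℝ S.N u e0 with hA
  set B := fderiv ℝ S.N u e1 with hB
  set p := ⟪S.N u, D2 S.X u e0 e0⟫ with hp
  set q := ⟪S.N u, D2 S.X u e0 e1⟫ with hq
  set r := ⟪S.N u, D2 S.X u e1 e1⟫ with hr
  set c := ‖nn S.X u‖ with hcc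
  have e1' : (c ^ 2) • cr A Q = (‖Q‖ ^ 2 * -p - ⟪P, Q⟫ * -q) • nn S.X u := by
    rw [← cr_smul_left, hd0, cr_add_left, cr_smul_left, cr_smul_left, cr_self, smul_zero,
      add_zero, hn]
  have e2' : (c ^ 2) • cr B P = -((‖P‖ ^ 2 * -r - ⟪P, Q⟫ * -q) • nn S.X u) := by
    rw [← cr_smul_left, hd1, cr_add_left, cr_smul_left, cr_smul_left, cr_self, smul_zero,
      zero_add, cr_swap P Q, hn, smul_neg]
  have h3 : (c ^ 2) • (cr A Q - cr B P) = (c ^ 2) • ((-2 * S.H) • nn S.X u) := by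
    rw [smul_sub, e1', e2', sub_neg_eq_add, ← add_smul, smul_smul]
    congr 1
    linear_combination -hc
  have h4 : (c ^ 2) ≠ 0 := by positivity
  exact smul_right_injective V3 h4 h3

end Surf

end Pool.Agent.H99.SC

end S_WGT

section S_GC1

/-!
# GC1: geometry along the circle

For `‖u‖ = 1`, `p = S.X u` is a point of the unit circle of the horizontal plane.
`rot_deriv`: `ψ ↦ S.X (cu ψ)` takes values in the circle, so its derivative
`fderiv ℝ S.X u (rot u)` at `u = cu ψ` is orthogonal to `E3` and to `p` (differentiate `y 2 = 0` and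
`‖y‖^2 = 1`): it is `S.lam u • TT p`; nonzero by `fderiv_inj` (`rot u ≠ 0`).
`N_TT`, `N_decomp`, `Nr_sq`: `N` is orthogonal to `TT p`; `p, TT p, E3` is an orthonormal basis.
`nu = N_3 p - N_r E3` is a unit vector orthogonal to `N` and `TT p`, so
`fderiv X u u = beta nu + gamma TT` with `beta = ⟪fderiv X u u, nu⟫ ≠ 0` (else `fderiv X u u` is a
multiple of `fderiv X u (rot u)`, against `fderiv_inj`).
`lam_sign`: `ψ ↦ S.lam (cu ψ)` is continuous and never 0.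
-/


open scoped RealInnerProductSpace Topology
open Metric Filter Set


namespace Pool.Agent.H99.SC

/-- speed of the boundary parametrisation -/
def Surf.lam (S : Surf) (u : V2) : ℝ := ⟪fderiv ℝ S.X u (rot u), TT (S.X u)⟫

theorem GC1_cu_eq (ψ : ℝ) : cu ψ = Real.cos ψ • e0 + Real.sin ψ • e1 := by
  apply ext2 <;> simp

theorem GC1_cu_deriv (ψ : ℝ) : HasDerivAt cu (rot (cu ψ)) ψ := by
  have h : cu = fun ψ => Real.cos ψ • e0 + Real.sin ψ • e1 := funext GC1_cu_eq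
  have h1 : rot (cu ψ) = (-Real.sin ψ) • e0 + Real.cos ψ • e1 := by
    apply ext2 <;> simp
  rw [h1, h]
  exact ((Real.hasDerivAt_cos ψ).smul_const e0).add ((Real.hasDerivAt_sin ψ).smul_const e1)

theorem GC1_cu_cont : Continuous cu := by
  rw [continuous_iff_continuousAt]
  exact fun ψ => (GC1_cu_deriv ψ).continuousAt

theorem GC1_coord (i : Fin 3) {c : ℝ → V3} {c' : V3} {ψ : ℝ} (h : HasDerivAt c c' ψ) :
    HasDerivAt (fun t => (c t) i) (c' i) ψ := by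
  exact (EuclideanSpace.proj i : V3 →L[ℝ] ℝ).hasFDerivAt.comp_hasDerivAt ψ h

theorem GC1_rot_cont : Continuous rot := by
  have : rot = fun u : V2 => (-(u 1)) • e0 + (u 0) • e1 := by
    funext u
    apply ext2 <;> simp
  rw [this]
  fun_prop

theorem GC1_TT_cont : Continuous TT := by
  have : TT = fun p : V3 => (-(p 1)) • (EuclideanSpace.single 0 1 : V3) +
      (p 0) • (EuclideanSpace.single 1 1 : V3) := by
    funext u
    apply ext3 <;> simp
  rw [this]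
  fun_prop

theorem GC1_rot_ne {u : V2} (hu : ‖u‖ = 1) : rot u ≠ 0 := by
  intro h
  have h0 : (rot u) 0 = 0 := by rw [h]; simp
  have h1 : (rot u) 1 = 0 := by rw [h]; simp
  rw [rot_0] at h0
  rw [rot_1] at h1
  have := nsq2 u
  rw [hu, h1, neg_eq_zero.1 h0] at this
  norm_num at this

namespace Surf
variable (S : Surf)

theorem GC1_w {u : V2} (hu : ‖u‖ = 1) : (fderiv ℝ S.X u (rot u)) 2 = 0 ∧
    (S.X u) 0 * (fderiv ℝ S.X u (rot u)) 0 + (S.X u) 1 * (fderiv ℝ S.X u (rot u)) 1 = 0 := by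
  obtain ⟨ψ, rfl⟩ := exists_cu hu
  have hd : HasDerivAt (fun t => S.X (cu t)) (fderiv ℝ S.X (cu ψ) (rot (cu ψ))) ψ := by
    have h1 : HasFDerivAt S.X (fderiv ℝ S.X (cu ψ)) (cu ψ) :=
      ((S.smooth.differentiable (by norm_num)) _).hasFDerivAt
    exact h1.comp_hasDerivAt ψ (GC1_cu_deriv ψ)
  have h0 := GC1_coord 0 hd
  have h1 := GC1_coord 1 hd
  have h2 := GC1_coord 2 hd
  constructor
  · have hc : (fun t => (S.X (cu t)) 2) = fun _ => (0 : ℝ) := by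
      funext t
      exact (S.bd1 (norm_cu t)).1
    rw [hc] at h2
    exact h2.unique (hasDerivAt_const ψ 0)
  · have hc : (fun t => (S.X (cu t)) 0 ^ 2 + (S.X (cu t)) 1 ^ 2) = fun _ => (1 : ℝ) := by
      funext t
      exact (S.bd1 (norm_cu t)).2
    have h3 := (h0.pow 2).add (h1.pow 2)
    have h4 : HasDerivAt (fun t => (S.X (cu t)) 0 ^ 2 + (S.X (cu t)) 1 ^ 2) _ ψ := h3
    rw [hc] at h4
    have h5 := h4.unique (hasDerivAt_const ψ 1)
    norm_num at h5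
    linarith

theorem rot_deriv {u : V2} (hu : ‖u‖ = 1) : fderiv ℝ S.X u (rot u) = S.lam u • TT (S.X u) := by
  obtain ⟨h1, h2⟩ := S.GC1_w hu
  obtain ⟨h3, h4⟩ := S.bd1 hu
  unfold Surf.lam
  apply ext3
  · simp only [PiLp.smul_apply, smul_eq_mul, TT_0, ip, TT_1, TT_2]
    linear_combination (-(fderiv ℝ S.X u (rot u)) 0) * h4 + (S.X u) 0 * h2
  · simp only [PiLp.smul_apply, smul_eq_mul, TT_0, ip, TT_1, TT_2]
    linear_combination (-(fderiv ℝ S.X u (rot u)) 1) * h4 + (S.X u) 1 * h2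
  · simp only [PiLp.smul_apply, smul_eq_mul, TT_2, mul_zero]
    exact h1

theorem lam_ne {u : V2} (hu : ‖u‖ = 1) : S.lam u ≠ 0 := by
  intro h
  have h1 := S.rot_deriv hu
  rw [h, zero_smul] at h1
  exact GC1_rot_ne hu (S.fderiv_inj hu.le h1)

theorem lam_cont : Continuous fun ψ : ℝ => S.lam (cu ψ) := by
  unfold Surf.lam
  have h1 : Continuous (fderiv ℝ S.X) := S.smooth.continuous_fderiv (by norm_num)
  have h2 : Continuous fun ψ : ℝ => fderiv ℝ S.X (cu ψ) (rot (cu ψ)) :=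
    (h1.comp GC1_cu_cont).clm_apply (GC1_rot_cont.comp GC1_cu_cont)
  have h3 : Continuous fun ψ : ℝ => TT (S.X (cu ψ)) :=
    GC1_TT_cont.comp (S.smooth.continuous.comp GC1_cu_cont)
  exact h2.inner h3

theorem lam_sign : (∀ u : V2, ‖u‖ = 1 → 0 < S.lam u) ∨ (∀ u : V2, ‖u‖ = 1 → S.lam u < 0) := by
  by_contra hcon
  push Not at hcon
  obtain ⟨⟨u, hu, hu1⟩, ⟨v, hv, hv1⟩⟩ := hcon
  obtain ⟨a, rfl⟩ := exists_cu hu
  obtain ⟨b, rfl⟩ := exists_cu hv
  obtain ⟨c, hc⟩ := mem_range_of_exists_le_of_exists_ge S.lam_cont ⟨a, hu1⟩ ⟨b, hv1⟩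
  exact S.lam_ne (norm_cu c) hc

theorem N_TT {u : V2} (hu : ‖u‖ = 1) : ⟪S.N u, TT (S.X u)⟫ = 0 := by
  have h1 := S.N_orth u (rot u)
  rw [S.rot_deriv hu, inner_smul_right] at h1
  exact (mul_eq_zero.1 h1).resolve_left (S.lam_ne hu)

theorem GC1_NTT {u : V2} (hu : ‖u‖ = 1) :
    -((S.N u) 0 * (S.X u) 1) + (S.N u) 1 * (S.X u) 0 = 0 := by
  have h := S.N_TT hu
  rw [ip, TT_0, TT_1, TT_2] at h
  linarith

theorem GC1_Nr {u : V2} (hu : ‖u‖ = 1) :
    S.Nr u = (S.N u) 0 * (S.X u) 0 + (S.N u) 1 * (S.X u) 1 := by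
  unfold Surf.Nr
  rw [ip, (S.bd1 hu).1]
  ring

theorem N_decomp {u : V2} (hu : ‖u‖ = 1) : S.N u = S.Nr u • S.X u + (S.N u 2) • E3 := by
  have h1 := S.GC1_NTT hu
  obtain ⟨h3, h4⟩ := S.bd1 hu
  rw [S.GC1_Nr hu]
  apply ext3
  · simp only [PiLp.smul_apply, PiLp.add_apply, smul_eq_mul, E3_0]
    linear_combination (-(S.N u) 0) * h4 - (S.X u) 1 * h1
  · simp only [PiLp.smul_apply, PiLp.add_apply, smul_eq_mul, E3_1]
    linear_combination (-(S.N u) 1) * h4 + (S.X u) 0 * h1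
  · simp only [PiLp.smul_apply, PiLp.add_apply, smul_eq_mul, E3_2, h3]
    ring

theorem Nr_sq {u : V2} (hu : ‖u‖ = 1) : S.Nr u ^ 2 + (S.N u 2) ^ 2 = 1 := by
  have h1 := S.GC1_NTT hu
  obtain ⟨h3, h4⟩ := S.bd1 hu
  have h5 := nsq (S.N u)
  rw [S.N_norm hu.le] at h5
  rw [S.GC1_Nr hu]
  linear_combination ((S.N u) 0 ^ 2 + (S.N u) 1 ^ 2) * h4 - h5 -
    (-((S.N u) 0 * (S.X u) 1) + (S.N u) 1 * (S.X u) 0) * h1

theorem GC1_nu {u : V2} (hu : ‖u‖ = 1) : (S.nu u) 0 = (S.N u) 2 * (S.X u) 0 ∧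
    (S.nu u) 1 = (S.N u) 2 * (S.X u) 1 ∧ (S.nu u) 2 = -(S.Nr u) := by
  unfold Surf.nu
  refine ⟨?_, ?_, ?_⟩
  · simp only [PiLp.smul_apply, PiLp.sub_apply, smul_eq_mul, E3_0]
    ring
  · simp only [PiLp.smul_apply, PiLp.sub_apply, smul_eq_mul, E3_1]
    ring
  · simp only [PiLp.smul_apply, PiLp.sub_apply, smul_eq_mul, E3_2, (S.bd1 hu).1]
    ring

theorem nu_norm {u : V2} (hu : ‖u‖ = 1) : ‖S.nu u‖ = 1 := by
  obtain ⟨h0, h1, h2⟩ := S.GC1_nu hu
  obtain ⟨h3, h4⟩ := S.bd1 hu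
  have h5 := S.Nr_sq hu
  have h6 : ‖S.nu u‖ ^ 2 = 1 := by
    rw [nsq, h0, h1, h2]
    linear_combination (S.N u) 2 ^ 2 * h4 + h5
  nlinarith [norm_nonneg (S.nu u)]

theorem nu_N {u : V2} (hu : ‖u‖ = 1) : ⟪S.nu u, S.N u⟫ = 0 := by
  obtain ⟨h0, h1, h2⟩ := S.GC1_nu hu
  rw [ip, h0, h1, h2, S.GC1_Nr hu]
  ring

theorem nu_TT {u : V2} (hu : ‖u‖ = 1) : ⟪S.nu u, TT (S.X u)⟫ = 0 := by
  obtain ⟨h0, h1, h2⟩ := S.GC1_nu hu
  rw [ip, h0, h1, h2, TT_0, TT_1, TT_2]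
  ring

theorem Xr_decomp {u : V2} (hu : ‖u‖ = 1) : fderiv ℝ S.X u u
    = ⟪fderiv ℝ S.X u u, S.nu u⟫ • S.nu u + ⟪fderiv ℝ S.X u u, TT (S.X u)⟫ • TT (S.X u) := by
  obtain ⟨h0, h1, h2⟩ := S.GC1_nu hu
  obtain ⟨h3, h4⟩ := S.bd1 hu
  have h5 := S.Nr_sq hu
  have h6 := S.N_orth u u
  rw [S.N_decomp hu, inner_add_left, inner_smul_left, inner_smul_left] at h6
  simp only [RCLike.conj_to_real] at h6
  rw [ip, ip, E3_0, E3_1, E3_2, h3] at h6
  generalize fderiv ℝ S.X u u = w at *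
  generalize S.Nr u = c at *
  generalize (S.N u) 2 = s at *
  apply ext3
  · simp only [PiLp.smul_apply, PiLp.add_apply, smul_eq_mul, TT_0, ip, TT_1, TT_2, h0, h1, h2]
    linear_combination (-(w 0)) * h4 - (S.X u) 0 * (w 0 * (S.X u) 0 + w 1 * (S.X u) 1) * h5 +
      (S.X u) 0 * c * h6
  · simp only [PiLp.smul_apply, PiLp.add_apply, smul_eq_mul, TT_0, ip, TT_1, TT_2, h0, h1, h2]
    linear_combination (-(w 1)) * h4 - (S.X u) 1 * (w 0 * (S.X u) 0 + w 1 * (S.X u) 1) * h5 +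
      (S.X u) 1 * c * h6
  · simp only [PiLp.smul_apply, PiLp.add_apply, smul_eq_mul, TT_0, ip, TT_1, TT_2, h0, h1, h2]
    linear_combination (-(w 2)) * h5 + s * h6

theorem beta_ne {u : V2} (hu : ‖u‖ = 1) : ⟪fderiv ℝ S.X u u, S.nu u⟫ ≠ 0 := by
  intro h
  have h1 := S.Xr_decomp hu
  rw [h, zero_smul, zero_add] at h1
  have h2 := S.rot_deriv hu
  have h3 := S.lam_ne hu
  set γ := ⟪fderiv ℝ S.X u u, TT (S.X u)⟫ with hγ
  have h4 : fderiv ℝ S.X u (S.lam u • u - γ • rot u) = 0 := by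
    rw [map_sub, map_smul, map_smul, h2, h1, smul_smul, smul_smul, mul_comm, sub_self]
  have h5 := S.fderiv_inj hu.le h4
  have h6 : ⟪S.lam u • u - γ • rot u, u⟫ = 0 := by rw [h5, inner_zero_left]
  rw [inner_sub_left, inner_smul_left, inner_smul_left, real_inner_self_eq_norm_sq, hu, ip2,
    rot_0, rot_1] at h6
  simp only [RCLike.conj_to_real] at h6
  apply h3
  linarith

/-- third component of the radial derivative -/
theorem Xr_2 {u : V2} (hu : ‖u‖ = 1) :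
    (fderiv ℝ S.X u u) 2 = -(S.Nr u) * ⟪fderiv ℝ S.X u u, S.nu u⟫ := by
  have h1 := congrArg (fun v : V3 => v 2) (S.Xr_decomp hu)
  simp only [PiLp.smul_apply, PiLp.add_apply, smul_eq_mul, TT_2, (S.GC1_nu hu).2.2] at h1
  linarith

/-- radial component of the radial derivative -/
theorem Xr_p {u : V2} (hu : ‖u‖ = 1) :
    ⟪fderiv ℝ S.X u u, S.X u⟫ = (S.N u 2) * ⟪fderiv ℝ S.X u u, S.nu u⟫ := by
  have h1 := congrArg (fun v : V3 => ⟪v, S.X u⟫) (S.Xr_decomp hu)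
  simp only [inner_add_left, inner_smul_left, RCLike.conj_to_real] at h1
  obtain ⟨h3, h4⟩ := S.bd1 hu
  obtain ⟨h5, h6, h7⟩ := S.GC1_nu hu
  have h8 : ⟪S.nu u, S.X u⟫ = (S.N u) 2 := by
    rw [ip, h5, h6, h3]
    linear_combination (S.N u) 2 * h4
  have h9 : ⟪TT (S.X u), S.X u⟫ = 0 := by
    rw [ip, TT_0, TT_1, TT_2]
    ring
  rw [h8, h9] at h1
  linarith

/-- if the radial component of the normal vanishes the normal is vertical -/
theorem N_vert {u : V2} (hu : ‖u‖ = 1) (h : S.Nr u = 0) : S.N u = E3 ∨ S.N u = -E3 := by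
  have h1 := S.N_decomp hu
  have h2 := S.Nr_sq hu
  rw [h, zero_smul, zero_add] at h1
  rw [h] at h2
  have h3 : ((S.N u) 2 - 1) * ((S.N u) 2 + 1) = 0 := by linarith
  rcases mul_eq_zero.1 h3 with h4 | h4
  · left
    rw [h1, sub_eq_zero.1 h4, one_smul]
  · right
    rw [h1, eq_neg_of_add_eq_zero_left h4, neg_one_smul]

end Surf

end Pool.Agent.H99.SC

end S_GC1

section S_BAL

/-!
# BAL: force and torque balance along the circle

For a constant vector `c` consider the 1-forms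
`ω₁ u a = ⟪c, cr (N u) (DX a) + H cr (X u) (DX a)⟫`,
`ω₂ u a = ⟪c, cr (X u) (cr (N u) (DX a)) + (2H/3) cr (X u) (cr (X u) (DX a))⟫`, `DX a = fderiv X u a`.
They are C^1 on the closed disc.  Closed: `fderiv ω u b a` is the derivative in the direction `b` of
`u ↦ ω u a`; the terms with `D2 X u b a` are symmetric.  For `a = e1`, `b = e0` (this suffices, both
sides are bilinear, use `V2_decomp`) the difference for `ω₁` is
`⟪c, cr N_u X_v - cr N_v X_u + 2 H cr X_u X_v⟫ = 0` (`wg3`).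
For `ω₂`: `cr X_u (cr N X_v) - cr X_v (cr N X_u) = 0` (`cr_cr`, `N` orthogonal to `X_u, X_v`), plus
`cr X (cr N_u X_v - cr N_v X_u) = -2H cr X nn`, and `(2H/3)` times
`cr X_u (cr X X_v) - cr X_v (cr X X_u) + 2 cr X nn = 3 cr X nn` (`cr_cr`).
`closed_circle` applies.  On the circle `DX (rot u) = lam TT p`, `N = N_r p + N_3 E3`,
`cr p TT = E3`, `cr E3 TT = -p`, `cr p E3 = -TT` (`p = X u`, unit horizontal), so
`ω₁ = lam ⟪c, N_r E3 - N_3 p + H E3⟫`, `ω₂ = -lam (N_r + 2H/3) ⟪c, TT⟫`, and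
`∫ lam ⟪c, TT⟫ = 0` because `lam TT` is the derivative of `ψ ↦ X (cu ψ)`.
`c = E3` gives the first identity; horizontal `c` the others (`⟪c, TT p⟫ = ⟪c', p⟫` with
`c' = (c 1, -c 0, 0)`).
-/


open scoped RealInnerProductSpace Topology
open Metric Filter Set


namespace Pool.Agent.H99.SC

/-- the cross product as a continuous bilinear map -/
def BAL_B : V3 →L[ℝ] V3 →L[ℝ] V3 :=
  LinearMap.mkContinuous₂ (LinearMap.mk₂ ℝ cr cr_add_left cr_smul_left cr_add_right cr_smul_right) 1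
    (fun a b => by
      have h := cr_norm_sq a b
      have h2 : ‖cr a b‖ ^ 2 ≤ (‖a‖ * ‖b‖) ^ 2 := by nlinarith [sq_nonneg ⟪a, b⟫]
      have h3 := (pow_le_pow_iff_left₀ (norm_nonneg _) (by positivity) (by norm_num)).1 h2
      simpa using h3)

theorem BAL_B_apply (a b : V3) : BAL_B a b = cr a b := rfl

theorem BAL_hasFDerivAt_cr {f g : V2 → V3} {u : V2} (hf : DifferentiableAt ℝ f u)
    (hg : DifferentiableAt ℝ g u) (a : V2) :
    DifferentiableAt ℝ (fun x => cr (f x) (g x)) u ∧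
    fderiv ℝ (fun x => cr (f x) (g x)) u a =
      cr (f u) (fderiv ℝ g u a) + cr (fderiv ℝ f u a) (g u) := by
  have h := BAL_B.hasFDerivAt_of_bilinear hf.hasFDerivAt hg.hasFDerivAt
  refine ⟨h.differentiableAt, ?_⟩
  have h2 : fderiv ℝ (fun x => cr (f x) (g x)) u = _ := h.fderiv
  rw [h2]
  rfl

theorem BAL_contDiffAt_cr {f g : V2 → V3} {u : V2} (hf : ContDiffAt ℝ 1 f u)
    (hg : ContDiffAt ℝ 1 g u) : ContDiffAt ℝ 1 (fun x => cr (f x) (g x)) u := by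
  have h : ContDiffAt ℝ 1 (fun x => BAL_B (f x) (g x)) u := by
    exact (BAL_B.contDiff.contDiffAt.comp u hf).clm_apply hg
  exact h

/-- the 1-form `a ↦ ⟪G, DX a⟫` -/
theorem BAL_closed (S : Surf) (G : V2 → V3) (hG : ∀ u, ‖u‖ ≤ 1 → ContDiffAt ℝ 1 G u)
    (hs : ∀ u, ‖u‖ < 1 → ⟪fderiv ℝ G u e0, fderiv ℝ S.X u e1⟫ =
      ⟪fderiv ℝ G u e1, fderiv ℝ S.X u e0⟫) :
    ∫ ψ in (0 : ℝ)..(2 * Real.pi), S.lam (cu ψ) * ⟪G (cu ψ), TT (S.X (cu ψ))⟫ = 0 := by
  set ω : V2 → V2 →L[ℝ] ℝ := fun u => (innerSL ℝ (G u)).comp (fderiv ℝ S.X u) with hω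
  have hX1 : ∀ u : V2, ContDiffAt ℝ 1 (fderiv ℝ S.X) u := fun u =>
    contDiffAt_fderiv S.smooth.contDiffAt
  have h1 : ∀ u : V2, ‖u‖ ≤ 1 → ContDiffAt ℝ 1 ω u := by
    intro u hu
    have h2 : ContDiffAt ℝ 1 (fun u => innerSL ℝ (G u)) u :=
      (innerSL ℝ (E := V3)).contDiff.contDiffAt.comp u (hG u hu)
    exact h2.clm_comp (hX1 u)
  have hder : ∀ u : V2, ‖u‖ ≤ 1 → ∀ a b : V2, fderiv ℝ ω u a b =
      ⟪fderiv ℝ G u a, fderiv ℝ S.X u b⟫ + ⟪G u, D2 S.X u a b⟫ := by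
    intro u hu a b
    have hG' := ((hG u hu).differentiableAt one_ne_zero).hasFDerivAt
    have hX' := ((hX1 u).differentiableAt one_ne_zero).hasFDerivAt
    have h3 : HasFDerivAt (fun u => innerSL ℝ (G u)) ((innerSL ℝ (E := V3)).comp (fderiv ℝ G u)) u :=
      ((innerSL ℝ (E := V3)).hasFDerivAt (x := G u)).comp u hG'
    have h4 := h3.clm_comp hX'
    rw [h4.fderiv]
    simp only [D2]
    simp
    ring
  have h5 := closed_circle h1 (by
    intro u hu a b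
    rw [hder u hu.le, hder u hu.le, D2_symm S.smooth.contDiffAt a b]
    congr 1
    have ha : a = a 0 • e0 + a 1 • e1 := V2_decomp a
    have hb : b = b 0 • e0 + b 1 • e1 := V2_decomp b
    rw [ha, hb]
    simp only [map_add, map_smul, inner_add_left, inner_add_right, real_inner_smul_left,
      real_inner_smul_right]
    have := hs u hu
    linear_combination (a 0 * b 1 - a 1 * b 0) * this)
  refine (intervalIntegral.integral_congr fun ψ _ => ?_).trans h5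
  simp only [hω]
  rw [ContinuousLinearMap.comp_apply, S.rot_deriv (norm_cu ψ), innerSL_apply_apply,
    real_inner_smul_right]

/-- first form -/
theorem BAL_one (S : Surf) (c : V3) :
    ∫ ψ in (0 : ℝ)..(2 * Real.pi), S.lam (cu ψ) * ((S.Nr (cu ψ) + S.H) * c 2 -
      S.N (cu ψ) 2 * ⟪S.X (cu ψ), c⟫) = 0 := by
  have hX : ∀ u : V2, ContDiffAt ℝ 1 S.X u := fun u => (S.smooth.of_le (by norm_num)).contDiffAt
  have hXd : ∀ u : V2, DifferentiableAt ℝ S.X u := fun u => (hX u).differentiableAt one_ne_zero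
  have hNd : ∀ u : V2, ‖u‖ ≤ 1 → DifferentiableAt ℝ S.N u := fun u hu =>
    (S.smoothN hu).differentiableAt one_ne_zero
  have hg : ∀ u : V2, ‖u‖ ≤ 1 → ContDiffAt ℝ 1 (fun x => S.N x + S.H • S.X x) u := fun u hu =>
    (S.smoothN hu).add ((hX u).const_smul _)
  have hgd : ∀ u : V2, ‖u‖ ≤ 1 → DifferentiableAt ℝ (fun x => S.N x + S.H • S.X x) u :=
    fun u hu => (hg u hu).differentiableAt one_ne_zero
  have hgf : ∀ u : V2, ‖u‖ ≤ 1 → ∀ a : V2, fderiv ℝ (fun x => S.N x + S.H • S.X x) u a =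
      fderiv ℝ S.N u a + S.H • fderiv ℝ S.X u a := by
    intro u hu a
    have h1 := (hNd u hu).hasFDerivAt.add ((hXd u).hasFDerivAt.const_smul S.H)
    exact congrArg (fun L : V2 →L[ℝ] V3 => L a) h1.fderiv
  have h := BAL_closed S (fun x => cr c (S.N x + S.H • S.X x))
    (fun u hu => BAL_contDiffAt_cr contDiffAt_const (hg u hu)) (by
      intro u hu
      rw [(BAL_hasFDerivAt_cr (differentiableAt_const c) (hgd u hu.le) e0).2,
        (BAL_hasFDerivAt_cr (differentiableAt_const c) (hgd u hu.le) e1).2,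
        hgf u hu.le, hgf u hu.le]
      have hw := S.wg3 hu.le
      have w0 := congrArg (fun v : V3 => v 0) hw
      have w1 := congrArg (fun v : V3 => v 1) hw
      have w2 := congrArg (fun v : V3 => v 2) hw
      simp only [nn, PiLp.sub_apply, PiLp.smul_apply, smul_eq_mul, cr_0, cr_1, cr_2] at w0 w1 w2
      simp only [ip, fderiv_fun_const, Pi.zero_apply, zero_apply, PiLp.add_apply,
        PiLp.smul_apply, smul_eq_mul, cr_0, cr_1, cr_2, PiLp.zero_apply]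
      linear_combination c 0 * w0 + c 1 * w1 + c 2 * w2)
  refine (intervalIntegral.integral_congr fun ψ _ => ?_).trans h
  have hu := norm_cu ψ
  obtain ⟨p2, p1⟩ := S.bd1 hu
  have hN := S.N_decomp hu
  simp only
  congr 1
  have n0 : S.N (cu ψ) 0 = S.Nr (cu ψ) * S.X (cu ψ) 0 := by
    have := congrArg (fun v : V3 => v 0) hN
    simpa using this
  have n1 : S.N (cu ψ) 1 = S.Nr (cu ψ) * S.X (cu ψ) 1 := by
    have := congrArg (fun v : V3 => v 1) hN
    simpa using this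
  simp only [ip, PiLp.add_apply, PiLp.smul_apply, smul_eq_mul, cr_0, cr_1, cr_2, TT_0, TT_1, TT_2,
    n0, n1, p2]
  linear_combination (-(S.Nr (cu ψ) + S.H) * c 2) * p1

/-- second form -/
theorem BAL_two (S : Surf) (c : V3) :
    ∫ ψ in (0 : ℝ)..(2 * Real.pi), S.lam (cu ψ) * ((S.Nr (cu ψ) + 2 * S.H / 3) *
      (c 0 * S.X (cu ψ) 1 - c 1 * S.X (cu ψ) 0)) = 0 := by
  have hX : ∀ u : V2, ContDiffAt ℝ 1 S.X u := fun u => (S.smooth.of_le (by norm_num)).contDiffAt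
  have hXd : ∀ u : V2, DifferentiableAt ℝ S.X u := fun u => (hX u).differentiableAt one_ne_zero
  have hNd : ∀ u : V2, ‖u‖ ≤ 1 → DifferentiableAt ℝ S.N u := fun u hu =>
    (S.smoothN hu).differentiableAt one_ne_zero
  have hg : ∀ u : V2, ‖u‖ ≤ 1 → ContDiffAt ℝ 1 (fun x => S.N x + (2 * S.H / 3) • S.X x) u :=
    fun u hu => (S.smoothN hu).add ((hX u).const_smul _)
  have hgd : ∀ u : V2, ‖u‖ ≤ 1 → DifferentiableAt ℝ (fun x => S.N x + (2 * S.H / 3) • S.X x) u :=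
    fun u hu => (hg u hu).differentiableAt one_ne_zero
  have hgf : ∀ u : V2, ‖u‖ ≤ 1 → ∀ a : V2, fderiv ℝ (fun x => S.N x + (2 * S.H / 3) • S.X x) u a =
      fderiv ℝ S.N u a + (2 * S.H / 3) • fderiv ℝ S.X u a := by
    intro u hu a
    have h1 := (hNd u hu).hasFDerivAt.add ((hXd u).hasFDerivAt.const_smul (2 * S.H / 3))
    exact congrArg (fun L : V2 →L[ℝ] V3 => L a) h1.fderiv
  have hcX : ∀ u : V2, ∀ a : V2, DifferentiableAt ℝ (fun x => cr c (S.X x)) u ∧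
      fderiv ℝ (fun x => cr c (S.X x)) u a = cr c (fderiv ℝ S.X u a) := by
    intro u a
    have h1 := BAL_hasFDerivAt_cr (differentiableAt_const c) (hXd u) a
    refine ⟨h1.1, ?_⟩
    rw [h1.2]
    apply ext3 <;> simp
  have h := BAL_closed S (fun x => cr (cr c (S.X x)) (S.N x + (2 * S.H / 3) • S.X x))
    (fun u hu => BAL_contDiffAt_cr (BAL_contDiffAt_cr contDiffAt_const (hX u)) (hg u hu)) (by
      intro u hu
      rw [(BAL_hasFDerivAt_cr (hcX u e0).1 (hgd u hu.le) e0).2,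
        (BAL_hasFDerivAt_cr (hcX u e1).1 (hgd u hu.le) e1).2,
        hgf u hu.le, hgf u hu.le, (hcX u e0).2, (hcX u e1).2]
      have hw := S.wg3 hu.le
      have w0 := congrArg (fun v : V3 => v 0) hw
      have w1 := congrArg (fun v : V3 => v 1) hw
      have w2 := congrArg (fun v : V3 => v 2) hw
      have o0 := S.N_orth u e0
      have o1 := S.N_orth u e1
      simp only [nn, PiLp.sub_apply, PiLp.smul_apply, smul_eq_mul, cr_0, cr_1, cr_2] at w0 w1 w2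
      simp only [ip] at o0 o1
      simp only [ip, PiLp.add_apply, PiLp.smul_apply, smul_eq_mul, cr_0, cr_1, cr_2]
      linear_combination (c 1 * S.X u 2 - c 2 * S.X u 1) * w0 + (c 2 * S.X u 0 - c 0 * S.X u 2) * w1 +
        (c 0 * S.X u 1 - c 1 * S.X u 0) * w2 -
        (c 0 * fderiv ℝ S.X u e1 0 + c 1 * fderiv ℝ S.X u e1 1 + c 2 * fderiv ℝ S.X u e1 2) * o0 +
        (c 0 * fderiv ℝ S.X u e0 0 + c 1 * fderiv ℝ S.X u e0 1 + c 2 * fderiv ℝ S.X u e0 2) * o1)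
  refine (intervalIntegral.integral_congr fun ψ _ => ?_).trans h
  have hu := norm_cu ψ
  obtain ⟨p2, p1⟩ := S.bd1 hu
  have hN := S.N_decomp hu
  simp only
  congr 1
  have n0 : S.N (cu ψ) 0 = S.Nr (cu ψ) * S.X (cu ψ) 0 := by
    have := congrArg (fun v : V3 => v 0) hN
    simpa using this
  have n1 : S.N (cu ψ) 1 = S.Nr (cu ψ) * S.X (cu ψ) 1 := by
    have := congrArg (fun v : V3 => v 1) hN
    simpa using this
  simp only [ip, PiLp.add_apply, PiLp.smul_apply, smul_eq_mul, cr_0, cr_1, cr_2, TT_0, TT_1, TT_2,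
    n0, n1, p2]
  linear_combination (-(S.Nr (cu ψ) + 2 * S.H / 3) * (c 0 * S.X (cu ψ) 1 - c 1 * S.X (cu ψ) 0)) * p1

theorem bal_flux (S : Surf) :
    ∫ ψ in (0 : ℝ)..(2 * Real.pi), S.lam (cu ψ) * (S.Nr (cu ψ) + S.H) = 0 := by
  refine (intervalIntegral.integral_congr fun ψ _ => ?_).trans (BAL_one S E3)
  obtain ⟨p2, p1⟩ := S.bd1 (norm_cu ψ)
  simp only [ip, E3_0, E3_1, E3_2, p2]
  ring

theorem bal_force (S : Surf) (c : V3) (hc : c 2 = 0) :
    ∫ ψ in (0 : ℝ)..(2 * Real.pi), S.lam (cu ψ) * (S.N (cu ψ) 2 * ⟪S.X (cu ψ), c⟫) = 0 := by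
  have h := BAL_one S c
  rw [← neg_eq_zero, ← intervalIntegral.integral_neg]
  refine (intervalIntegral.integral_congr fun ψ _ => ?_).trans h
  simp only [hc]
  ring

theorem bal_center (S : Surf) (c : V3) (hc : c 2 = 0) :
    ∫ ψ in (0 : ℝ)..(2 * Real.pi), S.lam (cu ψ) * ⟪S.X (cu ψ), c⟫ = 0 := by
  have h := BAL_closed S (fun _ => (!₂[-(c 1), c 0, 0] : V3)) (fun u _ => contDiffAt_const) (by
    intro u hu
    simp)
  refine (intervalIntegral.integral_congr fun ψ _ => ?_).trans h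
  simp only [ip, TT_0, TT_1, TT_2, hc]
  simp
  left
  ring

theorem BAL_contN (S : Surf) : Continuous fun ψ : ℝ => S.N (cu ψ) := by
  rw [continuous_iff_continuousAt]
  intro ψ
  exact ContinuousAt.comp (g := S.N) (f := cu) (S.N_cont (norm_cu ψ).le)
    (hasDerivAt_cu ψ).continuousAt

theorem BAL_contX (S : Surf) : Continuous fun ψ : ℝ => S.X (cu ψ) := by
  refine S.smooth.continuous.comp ?_
  rw [continuous_iff_continuousAt]
  exact fun ψ => (hasDerivAt_cu ψ).continuousAt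

theorem BAL_contNr (S : Surf) : Continuous fun ψ : ℝ => S.Nr (cu ψ) := by
  unfold Surf.Nr
  exact (BAL_contN S).inner (BAL_contX S)

theorem bal_torque (S : Surf) (c : V3) (hc : c 2 = 0) :
    ∫ ψ in (0 : ℝ)..(2 * Real.pi), S.lam (cu ψ) * (S.Nr (cu ψ) * ⟪S.X (cu ψ), c⟫) = 0 := by
  have h1 := BAL_two S (!₂[c 1, -(c 0), 0] : V3)
  have h2 := bal_center S c hc
  have i1 : IntervalIntegrable (fun ψ => S.lam (cu ψ) * (S.Nr (cu ψ) * ⟪S.X (cu ψ), c⟫))
      MeasureTheory.volume 0 (2 * Real.pi) :=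
    (S.lam_cont.mul ((BAL_contNr S).mul ((BAL_contX S).inner continuous_const))).intervalIntegrable _ _
  have i2 : IntervalIntegrable (fun ψ => (2 * S.H / 3) * (S.lam (cu ψ) * ⟪S.X (cu ψ), c⟫))
      MeasureTheory.volume 0 (2 * Real.pi) :=
    (continuous_const.mul (S.lam_cont.mul ((BAL_contX S).inner continuous_const))).intervalIntegrable _ _
  have h3 := intervalIntegral.integral_add i1 i2
  rw [intervalIntegral.integral_const_mul, h2, mul_zero, add_zero] at h3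
  rw [← h3]
  refine (intervalIntegral.integral_congr fun ψ _ => ?_).trans h1
  obtain ⟨p2, p1⟩ := S.bd1 (norm_cu ψ)
  simp only [ip, hc]
  simp
  ring

/-- some boundary point has `N_r < 0` -/
theorem exists_Nr_neg (S : Surf) : ∃ u : V2, ‖u‖ = 1 ∧ S.Nr u < 0 := by
  by_contra hcon
  push Not at hcon
  have h0 := bal_flux S
  have hpi : (0 : ℝ) < 2 * Real.pi := by positivity
  have hcont : Continuous fun ψ : ℝ => S.lam (cu ψ) * (S.Nr (cu ψ) + S.H) :=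
    S.lam_cont.mul ((BAL_contNr S).add continuous_const)
  have hcont' : Continuous fun ψ : ℝ => -(S.lam (cu ψ) * (S.Nr (cu ψ) + S.H)) := hcont.neg
  have hH := S.Hpos
  rcases S.lam_sign with h | h
  · have := intervalIntegral.intervalIntegral_pos_of_pos_on (hcont.intervalIntegrable 0 (2 * Real.pi))
      (fun ψ _ => mul_pos (h _ (norm_cu ψ)) (by linarith [hcon _ (norm_cu ψ)])) hpi
    linarith
  · have := intervalIntegral.intervalIntegral_pos_of_pos_on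
      (hcont'.intervalIntegrable 0 (2 * Real.pi))
      (fun ψ _ => by
        have h1 := h _ (norm_cu ψ)
        have h2 : 0 < S.Nr (cu ψ) + S.H := by linarith [hcon _ (norm_cu ψ)]
        linarith [mul_neg_of_neg_of_pos h1 h2]) hpi
    rw [intervalIntegral.integral_neg] at this
    linarith

end Pool.Agent.H99.SC

end S_BAL

section S_GC2

/-!
# GC2: signs near a boundary point

`‖u₀‖ = 1`, `p = S.X u₀`.
`h3_neg`: `(fderiv X u₀ u₀) 2 > 0` implies `(X u) 2 < 0` inside, `> 0` outside (near `u₀`): `rad1` for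
`F u = -(S.X u) 2`.   `h3_pos`: the opposite sign.
`hr_out`: `⟪fderiv X u₀ u₀, p⟫ < 0` implies `(X u) 0 ^2 + (X u) 1 ^2 > 1` inside, `< 1` outside.
`plane_neg`: for a box at `u₀`, `S.Nr u₀ < 0`: on the horizontal plane near `p`, `f > 0` inside the
unit circle and `f < 0` outside (`radP`; `Df(p) p = ⟪g, p⟫ = ‖g‖ S.Nr u₀`; `f = 0` on the circle near
`p`: points of the circle are `S.X v` with `‖v‖ = 1` and `v` near `u₀` by `S.emb`).
`plane_pos`: opposite.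
-/


open scoped RealInnerProductSpace Topology
open Metric Filter Set


namespace Pool.Agent.H99.SC

/-- derivative of a component of the parametrisation -/
theorem GC2_comp (S : Surf) (i : Fin 3) (u : V2) : HasFDerivAt (fun u => (S.X u) i)
    ((EuclideanSpace.proj i : V3 →L[ℝ] ℝ).comp (fderiv ℝ S.X u)) u := by
  have h := ((S.smooth.differentiable (by norm_num)) u).hasFDerivAt
  exact (EuclideanSpace.proj i : V3 →L[ℝ] ℝ).hasFDerivAt.comp u h

theorem GC2_cd (S : Surf) (i : Fin 3) (u : V2) : ContDiffAt ℝ 1 (fun u => (S.X u) i) u := by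
  have h : ContDiffAt ℝ 1 S.X u := S.smooth.contDiffAt.of_le (by norm_num)
  exact (EuclideanSpace.proj i : V3 →L[ℝ] ℝ).contDiff.contDiffAt.comp u h

/-- near a boundary point: `f = 0` and `b` in the closed disc characterise the surface -/
theorem box_sig' (S : Surf) {u₀ : V2} (hu₀ : ‖u₀‖ = 1) {e : V3} (B : Box S.X u₀ e) :
    ∀ᶠ y in 𝓝 (S.X u₀), (y ∈ S.Sig ↔ (B.f y = 0 ∧ ‖B.b y‖ ≤ 1)) := by
  obtain ⟨ε, h1, h2, -, h4⟩ := box_sig S hu₀.le B
  filter_upwards [B.U_nhds h1 h2] with y hy using h4 y hy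

theorem h3_neg (S : Surf) {u₀ : V2} (hu₀ : ‖u₀‖ = 1) (h : 0 < (fderiv ℝ S.X u₀ u₀) 2) :
    ∀ᶠ u in 𝓝 u₀, (‖u‖ < 1 → (S.X u) 2 < 0) ∧ (1 < ‖u‖ → 0 < (S.X u) 2) := by
  have hd := (GC2_comp S 2 u₀).neg
  have key := rad1 (F := fun u => -(S.X u) 2) hu₀ (GC2_cd S 2 u₀).neg
    (Eventually.of_forall fun u hu => by rw [(S.bd1 hu).1, neg_zero]) (by
      have e : fderiv ℝ (fun u => -(S.X u) 2) u₀ =
        -((EuclideanSpace.proj 2 : V3 →L[ℝ] ℝ).comp (fderiv ℝ S.X u₀)) := hd.fderiv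
      rw [e]
      change -((fderiv ℝ S.X u₀ u₀) 2) < 0
      linarith)
  filter_upwards [key] with u hu
  exact ⟨fun h => by linarith [hu.1 h], fun h => by linarith [hu.2 h]⟩

theorem h3_pos (S : Surf) {u₀ : V2} (hu₀ : ‖u₀‖ = 1) (h : (fderiv ℝ S.X u₀ u₀) 2 < 0) :
    ∀ᶠ u in 𝓝 u₀, (‖u‖ < 1 → 0 < (S.X u) 2) ∧ (1 < ‖u‖ → (S.X u) 2 < 0) := by
  have hd := GC2_comp S 2 u₀
  exact rad1 (F := fun u => (S.X u) 2) hu₀ (GC2_cd S 2 u₀)
    (Eventually.of_forall fun u hu => (S.bd1 hu).1) (by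
      rw [hd.fderiv]
      exact h)

theorem hr_out (S : Surf) {u₀ : V2} (hu₀ : ‖u₀‖ = 1) (h : ⟪fderiv ℝ S.X u₀ u₀, S.X u₀⟫ < 0) :
    ∀ᶠ u in 𝓝 u₀, (‖u‖ < 1 → 1 < (S.X u) 0 ^ 2 + (S.X u) 1 ^ 2) ∧
      (1 < ‖u‖ → (S.X u) 0 ^ 2 + (S.X u) 1 ^ 2 < 1) := by
  have hd := ((((GC2_comp S 0 u₀).mul (GC2_comp S 0 u₀)).add
    ((GC2_comp S 1 u₀).mul (GC2_comp S 1 u₀)))).sub_const 1
  have hcd : ContDiffAt ℝ 1 (fun u => (S.X u) 0 * (S.X u) 0 + (S.X u) 1 * (S.X u) 1 - 1) u₀ :=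
    (((GC2_cd S 0 u₀).mul (GC2_cd S 0 u₀)).add
      ((GC2_cd S 1 u₀).mul (GC2_cd S 1 u₀))).sub contDiffAt_const
  have key := rad1 (F := fun u => (S.X u) 0 * (S.X u) 0 + (S.X u) 1 * (S.X u) 1 - 1) hu₀ hcd
    (Eventually.of_forall fun u hu => by
      have := (S.bd1 hu).2
      simp only
      nlinarith) (by
      have e := congrArg (fun L : V2 →L[ℝ] ℝ => L u₀) hd.fderiv
      have e2 : fderiv ℝ (fun u => (S.X u) 0 * (S.X u) 0 + (S.X u) 1 * (S.X u) 1 - 1) u₀ u₀ =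
          (S.X u₀) 0 * (fderiv ℝ S.X u₀ u₀) 0 + (S.X u₀) 0 * (fderiv ℝ S.X u₀ u₀) 0 +
          ((S.X u₀) 1 * (fderiv ℝ S.X u₀ u₀) 1 + (S.X u₀) 1 * (fderiv ℝ S.X u₀ u₀) 1) := e
      rw [e2]
      rw [ip, (S.bd1 hu₀).1] at h
      linarith)
  filter_upwards [key] with u hu
  exact ⟨fun h => by nlinarith [hu.1 h], fun h => by nlinarith [hu.2 h]⟩

/-- the derivative of `f` at the boundary point in the direction of the point -/
theorem GC2_fder (S : Surf) {u₀ : V2} {e : V3} (B : Box S.X u₀ e) :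
    ∃ c : ℝ, 0 < c ∧ fderiv ℝ B.f (S.X u₀) (S.X u₀) = c * S.Nr u₀ := by
  have hyU : S.X u₀ ∈ B.U B.r := B.mem_U B.hr
  have hb : B.b (S.X u₀) = u₀ := B.b_X (by simpa using B.hr)
  refine ⟨‖B.g (S.X u₀)‖, B.g_pos hyU, ?_⟩
  rw [B.fd S.smooth hyU]
  have h1 := congrArg (fun w : V3 => ⟪w, S.X u₀⟫) (B.g_eq hyU)
  simp only [hb, inner_smul_left, conj_trivial] at h1
  exact h1

theorem plane_neg (S : Surf) {u₀ : V2} (hu₀ : ‖u₀‖ = 1) (h : S.Nr u₀ < 0) {e : V3}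
    (B : Box S.X u₀ e) : ∀ᶠ y in 𝓝 (S.X u₀), y 2 = 0 →
      (y 0 ^ 2 + y 1 ^ 2 = 1 → B.f y = 0) ∧ (y 0 ^ 2 + y 1 ^ 2 < 1 → 0 < B.f y) ∧
      (1 < y 0 ^ 2 + y 1 ^ 2 → B.f y < 0) := by
  have hyU : S.X u₀ ∈ B.U B.r := B.mem_U B.hr
  have h0 : ∀ᶠ y in 𝓝 (S.X u₀), y 2 = 0 → y 0 ^ 2 + y 1 ^ 2 = 1 → B.f y = 0 := by
    filter_upwards [box_sig' S hu₀ B] with y hy h2 h1
    obtain ⟨v, hv, hvy⟩ := (S.bd y).2 ⟨h2, h1⟩
    exact (hy.1 ⟨v, hv.le, hvy⟩).1
  obtain ⟨c, hc, hcf⟩ := GC2_fder S B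
  have key := radP (S.bd1 hu₀).1 (S.bd1 hu₀).2 ((B.smooth_f hyU).of_le (by norm_num)) h0
    (by rw [hcf]; exact mul_neg_of_pos_of_neg hc h)
  filter_upwards [key, h0] with y hy hy0 h2
  exact ⟨hy0 h2, (hy h2).1, (hy h2).2⟩

theorem plane_pos (S : Surf) {u₀ : V2} (hu₀ : ‖u₀‖ = 1) (h : 0 < S.Nr u₀) {e : V3}
    (B : Box S.X u₀ e) : ∀ᶠ y in 𝓝 (S.X u₀), y 2 = 0 →
      (y 0 ^ 2 + y 1 ^ 2 = 1 → B.f y = 0) ∧ (y 0 ^ 2 + y 1 ^ 2 < 1 → B.f y < 0) ∧
      (1 < y 0 ^ 2 + y 1 ^ 2 → 0 < B.f y) := by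
  have hyU : S.X u₀ ∈ B.U B.r := B.mem_U B.hr
  have h0 : ∀ᶠ y in 𝓝 (S.X u₀), y 2 = 0 → y 0 ^ 2 + y 1 ^ 2 = 1 → B.f y = 0 := by
    filter_upwards [box_sig' S hu₀ B] with y hy h2 h1
    obtain ⟨v, hv, hvy⟩ := (S.bd y).2 ⟨h2, h1⟩
    exact (hy.1 ⟨v, hv.le, hvy⟩).1
  obtain ⟨c, hc, hcf⟩ := GC2_fder S B
  have hfd := ((B.smooth_f hyU).differentiableAt (by norm_num)).hasFDerivAt.neg
  have key := radP (f := fun y => -B.f y) (S.bd1 hu₀).1 (S.bd1 hu₀).2
    ((B.smooth_f hyU).of_le (by norm_num)).neg (h0.mono fun y hy h2 h1 => by rw [hy h2 h1, neg_zero])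
    (by
      have e1 : fderiv ℝ (fun y => -B.f y) (S.X u₀) = -fderiv ℝ B.f (S.X u₀) := hfd.fderiv
      rw [e1]
      change -(fderiv ℝ B.f (S.X u₀) (S.X u₀)) < 0
      rw [hcf]
      have := mul_pos hc h
      linarith)
  filter_upwards [key, h0] with y hy hy0 h2
  exact ⟨hy0 h2, fun h => by linarith [(hy h2).1 h], fun h => by linarith [(hy h2).2 h]⟩

end Pool.Agent.H99.SC

end S_GC2

section S_ORI

/-!
# ORI: orientation along the circle

`⟪fderiv X u u, S.nu u⟫ > 0` for `‖u‖ = 1`.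
Proof.  The function is continuous on the parameter circle (connected) and never 0 (`beta_ne`), so
it is enough to find one point where it is positive.  Let `u₀` with `S.Nr u₀ < 0` (`exists_Nr_neg`) and
suppose `β = ⟪..⟫ < 0` there.  Then `(fderiv X u₀ u₀) 2 = - N_r β < 0` (`Xr_2`), so `(X u) 2 > 0` inside near
`u₀` (`h3_pos`).  Box at `u₀` with `e = S.N u₀`; `ε` small such that on `B.U ε`: `box_sig`,
`plane_neg`, and the statement on `(X u) 2` holds for the parameters concerned.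
 * `A = {y ∈ B.U ε, B.f y < 0}` is preconnected and disjoint from `S.Sig` and `Disc`, hence from the
   frontier: `A ⊆ W` or `A ⊆ (closure W)ᶜ` (`sep`).
 * `H = {y ∈ ball p δ, y 2 < 0}` (convex), `δ` with `ball p δ ⊆ B.U ε`: disjoint from `Disc`, and from
   `S.Sig` (points of `S.Sig` in the box are `X v`, `v` near `u₀`, `‖v‖ ≤ 1`, so `(X v) 2 ≥ 0`).  It
   contains points `d - s E3` with `d = (1 - η) p` (`D.inD`), so `H ⊆ W`.
 * `A ∩ H` contains `p + s (M p - E3)` for `M` large, `s` small: `B.f` has derivative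
   `⟪g, M p - E3⟫ = ‖g‖ (M N_r - N_3) < 0` in this direction.  So `A ⊆ W`.
 * But for `‖u‖ < 1` near `u₀`, `X u - s N u ∉ closure W` for small `s` (`D.inS`) and it is in `A`
   (derivative of `f` along `N` is `⟪g,N⟫ > 0`, `f (X u) = 0`): contradiction.
-/


open scoped RealInnerProductSpace Topology
open Metric Filter Set


namespace Pool.Agent.H99.SC

theorem ORI_dir {h : ℝ → ℝ} {d : ℝ} (hd : HasDerivAt h d 0) (h0 : h 0 = 0) (hp : 0 < d) :
    ∀ᶠ s in 𝓝[>] (0 : ℝ), 0 < h s ∧ h (-s) < 0 := by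
  have h1 : Tendsto (slope h 0) (𝓝[≠] 0) (𝓝 d) := hasDerivAt_iff_tendsto_slope.1 hd
  have h2 : ∀ᶠ s in 𝓝[≠] (0 : ℝ), 0 < slope h 0 s := h1.eventually (lt_mem_nhds hp)
  have h3 : ∀ᶠ s in 𝓝[>] (0 : ℝ), 0 < slope h 0 s :=
    h2.filter_mono (nhdsWithin_mono _ (fun s hs => ne_of_gt hs))
  have h4 : Tendsto (fun s : ℝ => -s) (𝓝[>] (0 : ℝ)) (𝓝[≠] 0) := by
    apply tendsto_nhdsWithin_iff.mpr
    constructor
    · have : Tendsto (fun s : ℝ => -s) (𝓝 (0 : ℝ)) (𝓝 (-0)) := continuous_neg.continuousAt.tendsto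
      rw [neg_zero] at this
      exact this.mono_left nhdsWithin_le_nhds
    · filter_upwards [self_mem_nhdsWithin] with s hs
      exact neg_ne_zero.mpr (ne_of_gt hs)
  have h5 : ∀ᶠ s in 𝓝[>] (0 : ℝ), 0 < slope h 0 (-s) := h4.eventually h2
  filter_upwards [h3, h5, self_mem_nhdsWithin] with s hs1 hs2 hs3
  have hs : (0:ℝ) < s := hs3
  rw [slope_def_field, h0] at hs1 hs2
  simp only [sub_zero] at hs1 hs2
  constructor
  · by_contra hcon
    push Not at hcon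
    exact absurd (div_nonpos_of_nonpos_of_nonneg hcon hs.le) (not_le.mpr hs1)
  · by_contra hcon
    push Not at hcon
    exact absurd (div_nonpos_of_nonneg_of_nonpos hcon (by linarith)) (not_le.mpr hs2)

/-- derivative of the box function along a line -/
theorem ORI_hasDeriv (S : Surf) {u₀ : V2} {e : V3} (B : Box S.X u₀ e) {y : V3} (v : V3) (s : ℝ)
    (hy : y + s • v ∈ B.U B.r) :
    HasDerivAt (fun s : ℝ => B.f (y + s • v)) ⟪B.g (y + s • v), v⟫ s := by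
  have h1 : HasFDerivAt B.f (fderiv ℝ B.f (y + s • v)) (y + s • v) :=
    ((B.smooth_f hy).differentiableAt (by norm_num)).hasFDerivAt
  have h2 : HasDerivAt (fun s : ℝ => y + s • v) v s := by
    have := ((hasDerivAt_id s).smul_const v).const_add y
    simpa using this
  have h3 := h1.comp_hasDerivAt s h2
  rw [B.fd S.smooth hy v] at h3
  exact h3

theorem ORI_side (S : Surf) {u₀ : V2} {e : V3} (B : Box S.X u₀ e) {u : V2} (hu1 : ‖u‖ ≤ 1)
    (hu : ‖u - u₀‖ < B.r) :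
    ∀ᶠ s in 𝓝[>] (0 : ℝ), 0 < B.f (S.X u + s • S.N u) ∧ B.f (S.X u - s • S.N u) < 0 := by
  have hU : S.X u ∈ B.U B.r := ⟨u, 0, hu, by simpa using B.hr, by simp⟩
  have h1 := ORI_hasDeriv S B (y := S.X u) (S.N u) 0 (by simpa using hU)
  have h2 : 0 < ⟪B.g (S.X u + (0:ℝ) • S.N u), S.N u⟫ := by
    rw [zero_smul, add_zero, B.g_eq hU, B.b_X hu, inner_smul_left]
    have h3 : ⟪NN S.X u, S.N u⟫ = 1 := by
      change ⟪S.N u, S.N u⟫ = 1
      rw [real_inner_self_eq_norm_sq, S.N_norm hu1]; norm_num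
    rw [h3]
    simpa using B.g_pos hU
  have h3 := ORI_dir h1 (by simpa using B.f_X hu) h2
  filter_upwards [h3] with s hs
  refine ⟨hs.1, ?_⟩
  have h4 := hs.2
  rw [neg_smul, ← sub_eq_add_neg] at h4
  exact h4

theorem ORI_inside {u₀ : V2} (hu₀ : ‖u₀‖ = 1) {ε : ℝ} (hε : 0 < ε) :
    ∃ u : V2, ‖u - u₀‖ < ε ∧ ‖u‖ < 1 := by
  set η : ℝ := min (ε / 2) (1 / 2) with hη
  have h1 : 0 < η := lt_min (by linarith) (by norm_num)
  have h2 : η ≤ ε / 2 := min_le_left _ _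
  have h3 : η ≤ 1 / 2 := min_le_right _ _
  refine ⟨(1 - η) • u₀, ?_, ?_⟩
  · have : (1 - η) • u₀ - u₀ = (-η) • u₀ := by module
    rw [this, norm_smul, hu₀, Real.norm_eq_abs, abs_neg, abs_of_pos h1]
    linarith
  · rw [norm_smul, hu₀, Real.norm_eq_abs, abs_of_pos (by linarith)]
    linarith

theorem ORI_sign (S : Surf) {ψ₀ : ℝ}
    (h : 0 < ⟪fderiv ℝ S.X (cu ψ₀) (cu ψ₀), S.nu (cu ψ₀)⟫) (ψ : ℝ) :
    0 < ⟪fderiv ℝ S.X (cu ψ) (cu ψ), S.nu (cu ψ)⟫ := by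
  have hcu : Continuous cu := by
    unfold cu
    have h1 : Continuous (fun ψ : ℝ => (![Real.cos ψ, Real.sin ψ] : Fin 2 → ℝ)) := by
      apply continuous_pi
      intro i
      fin_cases i
      · exact Real.continuous_cos
      · exact Real.continuous_sin
    exact (PiLp.continuous_toLp 2 (fun _ : Fin 2 => ℝ)).comp h1
  have hN : Continuous (fun ψ => S.N (cu ψ)) := by
    rw [continuous_iff_continuousAt]
    intro x
    exact (S.N_cont (norm_cu x).le).comp hcu.continuousAt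
  have hX : Continuous (fun ψ => S.X (cu ψ)) := S.smooth.continuous.comp hcu
  have hD : Continuous (fun ψ => fderiv ℝ S.X (cu ψ) (cu ψ)) :=
    ((S.smooth.continuous_fderiv (by norm_num)).comp hcu).clm_apply hcu
  have hN2 : Continuous (fun ψ => S.N (cu ψ) 2) :=
    (EuclideanSpace.proj (𝕜 := ℝ) (2 : Fin 3)).continuous.comp hN
  have hF : Continuous (fun ψ => ⟪fderiv ℝ S.X (cu ψ) (cu ψ), S.nu (cu ψ)⟫) := by
    unfold Surf.nu Surf.Nr
    have hc : Continuous (fun ψ => ⟪S.N (cu ψ), S.X (cu ψ)⟫) := hN.inner hX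
    have hc2 : Continuous (fun ψ => ⟪S.N (cu ψ), S.X (cu ψ)⟫ • E3) := hc.smul continuous_const
    exact hD.inner ((hN2.smul hX).sub hc2)
  by_contra hcon
  push Not at hcon
  obtain ⟨x, hx⟩ := mem_range_of_exists_le_of_exists_ge hF ⟨ψ, hcon⟩ ⟨ψ₀, h.le⟩
  exact S.beta_ne (norm_cu x) hx

theorem ORI_neg {S : Surf} (D : PreDom S) {u₀ : V2} (hu₀ : ‖u₀‖ = 1) (h : S.Nr u₀ < 0) :
    0 < ⟪fderiv ℝ S.X u₀ u₀, S.nu u₀⟫ := by
  by_contra hβ
  have hβ' : ⟪fderiv ℝ S.X u₀ u₀, S.nu u₀⟫ < 0 :=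
    lt_of_le_of_ne (not_lt.mp hβ) (S.beta_ne hu₀)
  have hbd := S.bd1 hu₀
  set p := S.X u₀ with hp
  have hpn : ‖p‖ = 1 := by
    have h1 : ‖p‖ ^ 2 = 1 := by rw [nsq, hbd.1]; linarith [hbd.2]
    nlinarith [norm_nonneg p]
  have hder : (fderiv ℝ S.X u₀ u₀) 2 < 0 := by
    rw [S.Xr_2 hu₀]
    nlinarith
  have h3 := h3_pos S hu₀ hder
  obtain ⟨ρ, hρ, h3⟩ := Metric.eventually_nhds_iff.mp h3
  have h3' : ∀ u : V2, ‖u - u₀‖ < ρ → (‖u‖ ≤ 1 → 0 ≤ (S.X u) 2) := by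
    intro u hu h5
    have h4 := h3 (y := u) (by rwa [dist_eq_norm])
    rcases h5.lt_or_eq with h6 | h6
    · exact (h4.1 h6).le
    · exact (S.bd1 h6).1.ge
  have hpos : 0 < ⟪nn S.X u₀, S.N u₀⟫ := by
    have h4 : ⟪S.N u₀, S.N u₀⟫ = 1 := by
      rw [real_inner_self_eq_norm_sq, S.N_norm hu₀.le]; norm_num
    rw [S.nn_eq hu₀.le, inner_smul_left, h4]
    simpa using S.nn_pos hu₀.le
  obtain ⟨B⟩ := exists_box S.smooth hpos
  have hV := (plane_neg S hu₀ h B).and (box_sig' S hu₀ B)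
  obtain ⟨ε₀, hε₀, hε₀r, hε₀V⟩ := B.small S.smooth.continuous hV
  set ε := min ε₀ ρ with hε
  have hε0 : 0 < ε := lt_min hε₀ hρ
  have hεr : ε ≤ B.r := (min_le_left _ _).trans hε₀r
  have hερ : ε ≤ ρ := min_le_right _ _
  have hεV : ∀ y ∈ B.U ε, _ := fun y hy => hε₀V (B.U_mono (min_le_left _ _) hy)
  -- the set A
  have hpre := B.preconn_neg S.smooth.continuous hε0 hεr
  have hdis : Disjoint {y | y ∈ B.U ε ∧ B.f y < 0} (frontier D.W) := by
    rw [Set.disjoint_left]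
    rintro y ⟨hy1, hy2⟩ hy3
    obtain ⟨h4, h5⟩ := hεV y hy1
    rcases D.fr hy3 with h6 | h6
    · have := (h5.1 h6).1
      linarith
    · have h7 := h4 h6.1
      rcases h6.2.lt_or_eq with h8 | h8
      · linarith [h7.2.1 h8]
      · linarith [h7.1 h8]
  -- A is outside the closure
  have hA : {y | y ∈ B.U ε ∧ B.f y < 0} ⊆ (closure D.W)ᶜ := by
    obtain ⟨u, hu1, hu2⟩ := ORI_inside hu₀ hε0
    obtain ⟨ε₁, hε₁, hin⟩ := D.inS u hu2
    have hside := ORI_side S B hu2.le (hu1.trans_le hεr)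
    have hUe : S.X u ∈ B.U ε := ⟨u, 0, hu1, by simpa using hε0, by simp⟩
    have hcont : Tendsto (fun s : ℝ => S.X u - s • S.N u) (𝓝[>] 0) (𝓝 (S.X u)) := by
      have : Tendsto (fun s : ℝ => S.X u - s • S.N u) (𝓝 0) (𝓝 (S.X u - (0:ℝ) • S.N u)) :=
        (continuous_const.sub (continuous_id.smul continuous_const)).continuousAt.tendsto
      rw [zero_smul, sub_zero] at this
      exact this.mono_left nhdsWithin_le_nhds
    have hev := (hside.and (hcont.eventually ((B.U_open hε0 hεr).mem_nhds hUe))).and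
      (Ioo_mem_nhdsGT hε₁ : Ioo 0 ε₁ ∈ 𝓝[>] (0:ℝ))
    obtain ⟨s, ⟨⟨_, hs1⟩, hs2⟩, hs3⟩ := hev.exists
    rcases sep D.isOpen hpre hdis with h4 | h4
    · exfalso
      exact (hin s hs3.1 hs3.2).2 (subset_closure (h4 ⟨hs2, hs1⟩))
    · exact h4
  -- the half ball
  obtain ⟨δ, hδ, hball⟩ := Metric.mem_nhds_iff.mp (B.U_nhds hε0 hεr)
  have hconv : Convex ℝ ({y : V3 | y ∈ ball p δ ∧ y 2 < 0}) := by
    have h4 : Convex ℝ {y : V3 | y 2 < 0} := by
      intro x hx y hy a b ha hb hab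
      simp only [mem_ofPred_eq] at hx hy ⊢
      simp only [PiLp.add_apply, PiLp.smul_apply, smul_eq_mul]
      rcases ha.lt_or_eq with ha' | ha'
      · nlinarith
      · rw [← ha'] at hab ⊢
        have : b = 1 := by linarith
        rw [this]; linarith
    exact (convex_ball p δ).inter h4
  have hdis2 : Disjoint {y : V3 | y ∈ ball p δ ∧ y 2 < 0} (frontier D.W) := by
    rw [Set.disjoint_left]
    rintro y ⟨hy1, hy2⟩ hy3
    have hyU := hball hy1
    obtain ⟨h4, h5⟩ := hεV y hyU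
    rcases D.fr hy3 with h6 | h6
    · obtain ⟨h7, h8⟩ := h5.1 h6
      obtain ⟨h9, h10, h11⟩ := B.coord hεr hyU
      rw [h7, zero_smul, add_zero] at h11
      have h12 := h3' (B.b y) (h9.trans_le hερ) h8
      rw [h11] at h12
      linarith
    · linarith [h6.1]
  have hH : {y : V3 | y ∈ ball p δ ∧ y 2 < 0} ⊆ D.W := by
    set η : ℝ := min (δ / 2) (1 / 2) with hη
    have hη0 : 0 < η := lt_min (by linarith) (by norm_num)
    have hη1 : η ≤ δ / 2 := min_le_left _ _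
    have hη2 : η ≤ 1 / 2 := min_le_right _ _
    obtain ⟨ε₁, hε₁, hin⟩ := D.inD ((1 - η) • p) (by simp [hbd.1]) (by
      simp only [PiLp.smul_apply, smul_eq_mul]
      have : ((1 - η) * p 0) ^ 2 + ((1 - η) * p 1) ^ 2 = (1 - η) ^ 2 * (p 0 ^ 2 + p 1 ^ 2) := by ring
      rw [this, hbd.2]
      nlinarith)
    set s : ℝ := min (ε₁ / 2) (δ / 4) with hs
    have hs0 : 0 < s := lt_min (by linarith) (by linarith)
    have hs1 : s < ε₁ := lt_of_le_of_lt (min_le_left _ _) (by linarith)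
    have hs2 : s ≤ δ / 4 := min_le_right _ _
    have hE : ‖E3‖ = 1 := by
      have h1 : ‖E3‖ ^ 2 = 1 := by rw [nsq]; simp
      nlinarith [norm_nonneg E3]
    have hmem : (1 - η) • p - s • E3 ∈ {y : V3 | y ∈ ball p δ ∧ y 2 < 0} := by
      constructor
      · rw [mem_ball, dist_eq_norm]
        have h4 : (1 - η) • p - s • E3 - p = -(η • p + s • E3) := by module
        rw [h4, norm_neg]
        calc ‖η • p + s • E3‖ ≤ ‖η • p‖ + ‖s • E3‖ := norm_add_le _ _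
          _ = η + s := by
              rw [norm_smul, norm_smul, hpn, hE, Real.norm_eq_abs, Real.norm_eq_abs,
                abs_of_pos hη0, abs_of_pos hs0]
              ring
          _ < δ := by linarith
      · simp only [PiLp.sub_apply, PiLp.smul_apply, smul_eq_mul, hbd.1, E3_2]
        linarith
    rcases sep D.isOpen hconv.isPreconnected hdis2 with h4 | h4
    · exact h4
    · exfalso
      exact h4 hmem (subset_closure (hin s hs0 hs1).1)
  -- a common point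
  have hN2 : |S.N u₀ 2| ≤ 1 := by
    have h4 := S.N_norm hu₀.le
    have h5 : ‖S.N u₀‖ ^ 2 = 1 := by rw [h4]; norm_num
    rw [nsq] at h5
    rw [abs_le]
    constructor <;> nlinarith [sq_nonneg (S.N u₀ 0), sq_nonneg (S.N u₀ 1)]
  set M : ℝ := -2 / S.Nr u₀ with hM
  set v : V3 := E3 - M • p with hv
  have hv2 : v 2 = 1 := by simp [hv, hbd.1]
  have hpU : S.X u₀ ∈ B.U B.r := B.mem_U B.hr
  have hd := ORI_hasDeriv S B (y := S.X u₀) v 0 (by simpa using hpU)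
  have hdpos : 0 < ⟪B.g (S.X u₀ + (0:ℝ) • v), v⟫ := by
    rw [zero_smul, add_zero, B.g_eq hpU, B.b_X (by simpa using B.hr), inner_smul_left]
    have h4 : ⟪NN S.X u₀, v⟫ = S.N u₀ 2 + 2 := by
      have h5 : ⟪NN S.X u₀, E3⟫ = S.N u₀ 2 := by rw [ip]; simp [Surf.N]
      have h6 : ⟪NN S.X u₀, p⟫ = S.Nr u₀ := rfl
      rw [hv, inner_sub_right, inner_smul_right, h5, h6, hM, div_mul_cancel₀ _ h.ne]
      ring
    rw [h4]
    have h7 := (abs_le.mp hN2).1
    simp only [RCLike.conj_to_real]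
    apply mul_pos (B.g_pos hpU)
    linarith
  have hside := ORI_dir hd (by simpa using B.f_X (u := u₀) (by simpa using B.hr)) hdpos
  have hcont : Tendsto (fun s : ℝ => S.X u₀ + (-s) • v) (𝓝[>] 0) (𝓝 (S.X u₀)) := by
    have : Tendsto (fun s : ℝ => S.X u₀ + (-s) • v) (𝓝 0) (𝓝 (S.X u₀ + (-(0:ℝ)) • v)) :=
      (continuous_const.add (continuous_neg.smul continuous_const)).continuousAt.tendsto
    rw [neg_zero, zero_smul, add_zero] at this
    exact this.mono_left nhdsWithin_le_nhds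
  have hev := (hside.and (hcont.eventually (ball_mem_nhds (S.X u₀) hδ))).and
    (self_mem_nhdsWithin : Ioi 0 ∈ 𝓝[>] (0:ℝ))
  obtain ⟨s, ⟨⟨_, hs1⟩, hs2⟩, hs3⟩ := hev.exists
  have hs0 : 0 < s := hs3
  have hy2 : (S.X u₀ + (-s) • v) 2 < 0 := by
    have := hbd.1
    rw [hp] at this
    simp only [PiLp.add_apply, PiLp.smul_apply, smul_eq_mul, hv2, this]
    linarith
  have h4 : S.X u₀ + (-s) • v ∈ D.W := hH ⟨hs2, hy2⟩
  exact hA ⟨hball hs2, hs1⟩ (subset_closure h4)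

theorem ori {S : Surf} (D : PreDom S) {u : V2} (hu : ‖u‖ = 1) :
    0 < ⟪fderiv ℝ S.X u u, S.nu u⟫ := by
  obtain ⟨u₀, hu₀, hneg⟩ := exists_Nr_neg S
  have h1 := ORI_neg D hu₀ hneg
  obtain ⟨ψ₀, hψ₀⟩ := exists_cu hu₀
  obtain ⟨ψ, hψ⟩ := exists_cu hu
  rw [← hψ₀] at h1
  rw [← hψ]
  exact ORI_sign S h1 ψ

end Pool.Agent.H99.SC

end S_ORI
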