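import Mathlib
import Pool.Agent.H99.SCM.M1
import Pool.Agent.H99.SCM.M2
import Pool.Agent.H99.SCM.M3

/-! Star-shaped CMC discs (S14043), file M4: joins several modules to save build time. -/

set_option autoImplicit false

noncomputable section

section S_CTA

/-!
# CTA: interior contact (C1) and sign at the plane (C3)

`ct1`.  `u₁` in the open disc with `t < ⟪n, S.X u₁⟫`, `refl n t (S.X u₁) = S.X v₁`, `‖v₁‖ < 1`.
Box `B` at `v₁` with `e = S.N v₁`, `ε` from `lsig`.  `w u = B.f (refl n t (S.X u))` is C^2 near `u₁`, `w u₁ = 0`, and for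
`u` near `u₁`: `t < ⟪n, S.X u⟫`, the reflected point is in `closure D.W ∩ B.U ε`, so `w u ≥ 0`.  Local
minimum: `Dw(u₁) = 0`; `normal_pm`: the minus sign is excluded by `lop_neg` and
`Lop_nonneg_of_isLocalMin`.  So the normals agree, `di` applies (`⟪N,N⟫ = 1 > 0`, `‖b‖ < 1` near `u₁`),
and `smp` with `A = cA S.X`, .. gives `w = 0` near `u₁`, i.e. `refl n t (S.X u) ∈ S.Sig` (`lsig`).

`ct3`.  `u₁` in the open disc, `⟪n, S.X u₁⟫ = t`: then `⟪n, S.N u₁⟫ ≤ 0`.  Suppose `> 0`.  Box at `u₁`,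
`e = S.N u₁`.  There are points `u` arbitrarily near `u₁` with `l u := ⟪n, S.X u⟫ - t > 0`: otherwise `l` has a local
maximum at `u₁`, so `Dl(u₁) = 0`, i.e. `n` is orthogonal to the tangent plane, `n = S.N u₁` (`unit_eq`,
sign), and `Lop S.X l u₁ = ⟪n, Lop S.X S.X u₁⟫ = 2 H ‖nn‖^2 > 0` contradicts
`Lop_nonneg_of_isLocalMin` for `-l`.  For such `u` close to `u₁` the reflected point
`S.X u - 2 (l u) n` has `B.f < 0`: mean value theorem on the segment, where `Df n = ⟪g, n⟫ > 0` (near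
`S.X u₁`, `g` is close to a positive multiple of `N u₁`).  So it is not in `closure D.W` (`lsig`),
against the hypothesis.
-/


open scoped RealInnerProductSpace Topology
open Metric Filter Set


namespace Pool.Agent.H99.SC

theorem CTA_box {S : Surf} {u : V2} (hu : ‖u‖ ≤ 1) : 0 < ⟪nn S.X u, S.N u⟫ := by
  rw [S.nn_eq hu, inner_smul_left, real_inner_self_eq_norm_sq, S.N_norm hu]
  simpa using S.imm u hu

theorem CTA_cont {S : Surf} (n : V3) (t : ℝ) : Continuous fun u : V2 => refl n t (S.X u) :=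
  (contDiff_refl n t).continuous.comp S.smooth.continuous

theorem ct1 {S : Surf} (D : Dom S) {n : V3} {t : ℝ} (hn : ‖n‖ = 1) (hS : SS D n t) {u₁ : V2}
    (hu₁ : ‖u₁‖ < 1) (hl : t < ⟪n, S.X u₁⟫) {v₁ : V2} (hv₁ : ‖v₁‖ < 1)
    (hx : refl n t (S.X u₁) = S.X v₁) : ∀ᶠ u in 𝓝 u₁, refl n t (S.X u) ∈ S.Sig := by
  obtain ⟨B⟩ := exists_box S.smooth (CTA_box (S := S) hv₁.le)
  obtain ⟨ε, hε, hεr, hloc⟩ := lsig D.toPreDom hv₁ B
  have hUε : refl n t (S.X u₁) ∈ B.U ε := by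
    rw [hx]
    exact B.mem_U hε
  have hUr : refl n t (S.X u₁) ∈ B.U B.r := B.U_mono hεr hUε
  have hev1 : ∀ᶠ u in 𝓝 u₁, refl n t (S.X u) ∈ B.U ε := by
    refine (CTA_cont n t).continuousAt.eventually ?_
    exact (B.U_open hε hεr).mem_nhds hUε
  have hev2 : ∀ᶠ u in 𝓝 u₁, t < ⟪n, S.X u⟫ :=
    (continuous_const.inner S.smooth.continuous).continuousAt.eventually (lt_mem_nhds hl)
  have hev3 : ∀ᶠ u : V2 in 𝓝 u₁, ‖u‖ < 1 := continuous_norm.continuousAt.eventually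
    (gt_mem_nhds hu₁)
  have hnn : ∀ᶠ u in 𝓝 u₁, 0 ≤ B.f (refl n t (S.X u)) := by
    filter_upwards [hev1, hev2, hev3] with u h1 h2 h3
    exact (hloc _ h1).2.2.2.2.1 (hS u h3.le h2.le)
  have hw0 : B.f (refl n t (S.X u₁)) = 0 := by
    rw [hx]
    exact B.f_X (by simpa using B.hr)
  have hmin : IsLocalMin (fun x => B.f (refl n t (S.X x))) u₁ := by
    filter_upwards [hnn] with u hu
    show B.f (refl n t (S.X u₁)) ≤ B.f (refl n t (S.X u))
    rw [hw0]
    exact hu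
  have hD := hmin.fderiv_eq_zero
  have hb : ‖B.b (refl n t (S.X u₁))‖ < 1 := (hloc _ hUε).1
  have hw := contDiffAt_w S B n t hUr
  have hN : rl n (S.N u₁) = S.N (B.b (refl n t (S.X u₁))) := by
    rcases normal_pm S B hn t hu₁.le hUr hb.le hD with h | h
    · exact h
    · exfalso
      have h1 := lop_neg S B hn t hu₁ hUr hb h
      have h2 := Lop_nonneg_of_isLocalMin (S.imm u₁ hu₁.le) hw hmin
      linarith
  obtain ⟨K, hK⟩ := di S B hn t hu₁.le hUr hb.le (by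
    rw [hN, real_inner_self_eq_norm_sq, S.N_norm hb.le]
    norm_num)
  have hzero := smp (A := cA S.X) (B := cB S.X) (C := cC S.X) (K := K) hw hw0 hnn
    (Eventually.of_forall fun x => (contDiff_cA S.smooth).continuous.continuousAt)
    (Eventually.of_forall fun x => (contDiff_cB S.smooth).continuous.continuousAt)
    (Eventually.of_forall fun x => (contDiff_cC S.smooth).continuous.continuousAt)
    (cA_pos (S.imm u₁ hu₁.le)) (cB_sq_lt (S.imm u₁ hu₁.le)) (by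
      filter_upwards [hK, hev1, hev3] with u h1 h2 h3
      rw [← Lop_eq_Ell]
      exact (le_abs_self _).trans (h1 h3 (hloc _ h2).1))
  filter_upwards [hzero, hev1] with u h1 h2
  exact (hloc _ h2).2.2.1.2 h1

theorem CTA_freq {S : Surf} {n : V3} {t : ℝ} (hn : ‖n‖ = 1) {u₁ : V2} (hu₁ : ‖u₁‖ < 1)
    (hl : ⟪n, S.X u₁⟫ = t) (hpos : 0 < ⟪n, S.N u₁⟫) : ∃ᶠ u in 𝓝 u₁, t < ⟪n, S.X u⟫ := by
  intro hcon
  have hmin : IsLocalMin (fun x => ⟪-n, S.X x⟫) u₁ := by
    filter_upwards [hcon] with u hu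
    show ⟪-n, S.X u₁⟫ ≤ ⟪-n, S.X u⟫
    rw [inner_neg_left, inner_neg_left, hl]
    linarith [not_lt.1 hu]
  have hD := hmin.fderiv_eq_zero
  have horth : ∀ a : V2, ⟪n, fderiv ℝ S.X u₁ a⟫ = 0 := by
    intro a
    have h1 := fderiv_height S.smooth (-n) u₁ a
    rw [hD, inner_neg_left] at h1
    have h2 : (0 : V2 →L[ℝ] ℝ) a = 0 := rfl
    rw [h2] at h1
    linarith
  have hNn : n = S.N u₁ := by
    rcases S.unit_eq hu₁.le hn horth with h | h
    · exact h
    · exfalso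
      rw [h, inner_neg_left, real_inner_self_eq_norm_sq, S.N_norm hu₁.le] at hpos
      linarith
  have h1 := Lop_nonneg_of_isLocalMin (S.imm u₁ hu₁.le)
    (contDiff_height S.smooth (-n)).contDiffAt hmin
  rw [lop_height S.smooth (-n) u₁, inner_neg_left, hNn, real_inner_comm, S.cmcN hu₁] at h1
  have h2 := S.nn_pos hu₁.le
  have h3 := S.Hpos
  have h4 : 0 < 2 * S.H * ‖nn S.X u₁‖ ^ 2 := by positivity
  linarith

theorem ct3 {S : Surf} (D : Dom S) {n : V3} {t : ℝ} (hn : ‖n‖ = 1) (hS : SS D n t) {u₁ : V2}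
    (hu₁ : ‖u₁‖ < 1) (hl : ⟪n, S.X u₁⟫ = t) : ⟪n, S.N u₁⟫ ≤ 0 := by
  by_contra hcon
  push Not at hcon
  obtain ⟨B⟩ := exists_box S.smooth (CTA_box (S := S) hu₁.le)
  obtain ⟨ε, hε, hεr, hloc⟩ := lsig D.toPreDom hu₁ B
  have hmemr : S.X u₁ ∈ B.U B.r := B.mem_U B.hr
  have hb : B.b (S.X u₁) = u₁ := B.b_X (by simpa using B.hr)
  have hg : 0 < ⟪B.g (S.X u₁), n⟫ := by
    rw [B.g_eq hmemr, hb, inner_smul_left]
    simp only [RCLike.conj_to_real]
    refine mul_pos (B.g_pos hmemr) ?_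
    rw [real_inner_comm]
    exact hcon
  have hgc : ∀ᶠ y in 𝓝 (S.X u₁), 0 < ⟪B.g y, n⟫ :=
    ((B.g_cont S.smooth hmemr).inner (𝕜 := ℝ) continuousAt_const).eventually (lt_mem_nhds hg)
  have hgU : ∀ᶠ y in 𝓝 (S.X u₁), y ∈ B.U ε := B.U_nhds hε hεr
  obtain ⟨δ, hδ, hball⟩ := Metric.eventually_nhds_iff_ball.1 (hgc.and hgU)
  have hev1 : ∀ᶠ u in 𝓝 u₁, ‖S.X u - S.X u₁‖ < δ / 2 := by
    have : Continuous fun u : V2 => ‖S.X u - S.X u₁‖ :=
      (S.smooth.continuous.sub continuous_const).norm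
    refine this.continuousAt.eventually (gt_mem_nhds ?_)
    show ‖S.X u₁ - S.X u₁‖ < δ / 2
    rw [sub_self, norm_zero]
    positivity
  have hev2 : ∀ᶠ u in 𝓝 u₁, ⟪n, S.X u⟫ < t + δ / 4 := by
    refine (continuous_const.inner S.smooth.continuous).continuousAt.eventually (gt_mem_nhds ?_)
    show ⟪n, S.X u₁⟫ < t + δ / 4
    rw [hl]
    linarith
  have hev3 : ∀ᶠ u : V2 in 𝓝 u₁, ‖u‖ < 1 := continuous_norm.continuousAt.eventually
    (gt_mem_nhds hu₁)
  have hev4 : ∀ᶠ u : V2 in 𝓝 u₁, ‖u - u₁‖ < B.r := by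
    have : Continuous fun u : V2 => ‖u - u₁‖ := by fun_prop
    refine this.continuousAt.eventually (gt_mem_nhds ?_)
    show ‖u₁ - u₁‖ < B.r
    rw [sub_self, norm_zero]
    exact B.hr
  obtain ⟨u, hu, h1, h2, h3, h4⟩ :=
    ((CTA_freq hn hu₁ hl hcon).and_eventually (hev1.and (hev2.and (hev3.and hev4)))).exists
  set L : ℝ := 2 * (⟪n, S.X u⟫ - t) with hL
  have hL0 : 0 < L := by
    rw [hL]
    linarith
  have hLd : L < δ / 2 := by
    rw [hL]
    linarith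
  have hmem : ∀ s ∈ Icc (0 : ℝ) L, S.X u - s • n ∈ ball (S.X u₁) δ := by
    intro s hs
    rw [mem_ball, dist_eq_norm]
    have e : S.X u - s • n - S.X u₁ = (S.X u - S.X u₁) - s • n := by abel
    rw [e]
    refine (norm_sub_le _ _).trans_lt ?_
    rw [norm_smul, hn, mul_one, Real.norm_of_nonneg hs.1]
    linarith [hs.2]
  have hder : ∀ s ∈ Icc (0 : ℝ) L, HasDerivAt (fun s : ℝ => B.f (S.X u - s • n))
      (-⟪B.g (S.X u - s • n), n⟫) s := by
    intro s hs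
    have hyr : S.X u - s • n ∈ B.U B.r := B.U_mono hεr (hball _ (hmem s hs)).2
    have hline : HasDerivAt (fun s : ℝ => S.X u - s • n) (-n) s := by
      simpa using ((hasDerivAt_id s).smul_const n).const_sub (S.X u)
    have hfx : HasFDerivAt B.f (fderiv ℝ B.f (S.X u - s • n)) (S.X u - s • n) :=
      ((B.smooth_f hyr).differentiableAt (by norm_num)).hasFDerivAt
    have := hfx.comp_hasDerivAt s hline
    rwa [B.fd S.smooth hyr, inner_neg_right] at this
  have hanti : StrictAntiOn (fun s : ℝ => B.f (S.X u - s • n)) (Icc 0 L) := by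
    refine strictAntiOn_of_deriv_neg (convex_Icc 0 L)
      (fun s hs => (hder s hs).continuousAt.continuousWithinAt) fun s hs => ?_
    rw [interior_Icc] at hs
    have hs' : s ∈ Icc (0 : ℝ) L := ⟨hs.1.le, hs.2.le⟩
    rw [(hder s hs').deriv]
    have := (hball _ (hmem s hs')).1
    linarith
  have hlt := hanti (left_mem_Icc.2 hL0.le) (right_mem_Icc.2 hL0.le) hL0
  simp only [zero_smul, sub_zero] at hlt
  rw [B.f_X h4] at hlt
  have hrefl : refl n t (S.X u) = S.X u - L • n := rfl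
  have hcl := hS u h3.le hu.le
  rw [hrefl] at hcl
  have := (hloc _ (hball _ (hmem L (right_mem_Icc.2 hL0.le))).2).2.2.2.2.1 hcl
  linarith

end Pool.Agent.H99.SC

end S_CTA

section S_CTB

/-!
# CTB: contact at the plane with vertical tangent plane (C2)

`u₁` in the open disc, `⟪n, S.X u₁⟫ = t`, `⟪n, S.N u₁⟫ = 0`, and `SS D n t`.  Then
`refl n t (S.X u) ∈ S.Sig` for all `u` near `u₁`.
Proof.  `e = S.N u₁` (orthogonal to `n`), box `B` at `u₁`, `ε` from `lsig`,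
`w u = B.f (refl n t (S.X u))`, `l u = ⟪n, S.X u⟫ - t`.  `refl n t (S.X u₁) = S.X u₁`, so `w u₁ = 0`; the
normals agree at `u₁` (`rl n N = N`), so `Dw(u₁) = 0` (`fderiv_w_zero`) and `di` holds near `u₁`.
`Dl(u₁) ≠ 0` (`n` is tangent: `tangent` gives `a` with `fderiv X u₁ a = n`, `Dl a = 1`).  `iball` for `l`:
direction `ν`, radius `R`.  `w ≥ 0` on `{l > 0}` near `u₁` (hypothesis `SS` and `lsig`).
(1) `touch` with `Ω = {l > 0}`: zeros of `w` in `{l > 0}` arbitrarily near `u₁`; more precisely apply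
`touch` with `Ω = ball (u₁ + R' ν) R'`, `R' ≤ R` small: a zero inside this ball.
(2) choose `ρ` such that on `ball u₁ ρ`: `w` C^2, `di`, `w ≥ 0` on `{l > 0}`, `Dl ν > 0`.  The zero set of `w` in
`{l > 0} ∩ ball u₁ ρ` is open (`smp` at its points) and closed in `{l > 0} ∩ ball u₁ ρ`.  The ball
`ball (u₁ + R' ν) R'` (`2R' < ρ`, `R' ≤ R`) is convex, inside that set and contains a zero: so `w = 0` on it
(`IsPreconnected`).  For `u` with `‖u - u₁‖ < δ` (`δ` small against `R'`) and `l u > 0` the segment from `u` to `u + 2δ ν` is in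
`{l > 0} ∩ ball u₁ ρ` (`l` increases along `ν`) and ends in `ball (u₁ + R' ν) R'`
(`‖u + 2δν - u₁ - R'ν‖^2 ≤ δ^2 + 2R'δ + R'^2 - 4 δ R' + 4 δ^2 + .. < R'^2`; write `v = u - u₁`, `|v| < δ`:
`‖v + (2δ-R')ν‖^2 ≤ (δ + (R' - 2δ))^2 = (R' - δ)^2`).  So `w u = 0`.
(3) `l u = 0`: the reflected point is `S.X u`.  (4) `l u < 0`, `u` near `u₁`: let `y = refl n t (S.X u)`,
`v = B.b y`, so `y = S.X v + f(y) e`, and `⟪n,y⟫ - t = - l u > 0` while `⟪n,e⟫ = 0`, so `l v > 0` and `v` is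
near `u₁`: `w v = 0` by (2), `refl n t (S.X v) = S.X v'` with `v' = B.b (..)` (`B.f = 0` and `coord`).
Reflect `y`: `S.X u = refl (S.X v) + f(y) rl n e = S.X v' + f(y) e` (`rl n e = e`), so by `B.left`
`f(y) = B.f (S.X u) = 0`, and `y ∈ S.Sig`.
-/


open scoped RealInnerProductSpace Topology
open Metric Filter Set


namespace Pool.Agent.H99.SC

private theorem CTB_refl_fix {n : V3} {t : ℝ} {y : V3} (h : ⟪n, y⟫ = t) : refl n t y = y := by
  simp [refl, h]

private theorem CTB_rl_fix {n v : V3} (h : ⟪n, v⟫ = 0) : rl n v = v := by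
  simp [rl, h]

private theorem CTB_inner_refl {n : V3} (hn : ‖n‖ = 1) (t : ℝ) (y : V3) :
    ⟪n, refl n t y⟫ = 2 * t - ⟪n, y⟫ := by
  have h1 : ⟪n, n⟫ = (1 : ℝ) := by rw [real_inner_self_eq_norm_sq, hn]; norm_num
  simp only [refl, inner_sub_right, inner_smul_right, h1]
  ring

private theorem CTB_refl_refl {n : V3} (hn : ‖n‖ = 1) (t : ℝ) (y : V3) :
    refl n t (refl n t y) = y := by
  have h1 := CTB_inner_refl hn t y
  have h2 : refl n t (refl n t y) = refl n t y - (2 * (⟪n, refl n t y⟫ - t)) • n := rfl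
  rw [h2, h1]
  have h3 : refl n t y = y - (2 * (⟪n, y⟫ - t)) • n := rfl
  rw [h3, sub_sub, ← add_smul]
  have h4 : 2 * (⟪n, y⟫ - t) + 2 * (2 * t - ⟪n, y⟫ - t) = 0 := by ring
  rw [h4, zero_smul, sub_zero]

private theorem CTB_refl_add {n : V3} (t : ℝ) (y v : V3) :
    refl n t (y + v) = refl n t y + rl n v := by
  simp only [refl, rl, inner_add_right]
  have h4 : 2 * (⟪n, y⟫ + ⟪n, v⟫ - t) = 2 * (⟪n, y⟫ - t) + 2 * ⟪n, v⟫ := by ring
  rw [h4, add_smul]
  abel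

private theorem CTB_rl_smul {n : V3} (c : ℝ) (v : V3) : rl n (c • v) = c • rl n v := by
  simp only [rl, inner_smul_right, smul_sub, smul_smul]
  congr 2
  ring

theorem ct2 {S : Surf} (D : Dom S) {n : V3} {t : ℝ} (hn : ‖n‖ = 1) (hS : SS D n t) {u₁ : V2}
    (hu₁ : ‖u₁‖ < 1) (hl : ⟪n, S.X u₁⟫ = t) (hN : ⟪n, S.N u₁⟫ = 0) :
    ∀ᶠ u in 𝓝 u₁, refl n t (S.X u) ∈ S.Sig := by
  have hXc : Continuous S.X := S.smooth.continuous
  have hXd : Differentiable ℝ S.X := S.smooth.differentiable (by norm_num)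
  have hnn1 : 0 < ‖nn S.X u₁‖ := S.nn_pos hu₁.le
  have hNN : ⟪S.N u₁, S.N u₁⟫ = (1 : ℝ) := by
    rw [real_inner_self_eq_norm_sq, S.N_norm hu₁.le]; norm_num
  have hpos : 0 < ⟪nn S.X u₁, S.N u₁⟫ := by
    rw [S.nn_eq hu₁.le, inner_smul_left, hNN]
    simpa using hnn1
  obtain ⟨B⟩ := exists_box S.smooth hpos
  obtain ⟨ε, hε, hεr, hsig⟩ := lsig D.toPreDom hu₁ B
  have hreflc : Continuous (refl n t) := (contDiff_refl n t).continuous
  have hYc : Continuous (fun u => refl n t (S.X u)) := hreflc.comp hXc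
  have hY1 : refl n t (S.X u₁) = S.X u₁ := CTB_refl_fix hl
  have hrl : rl n (S.N u₁) = S.N u₁ := CTB_rl_fix hN
  set w : V2 → ℝ := fun u => B.f (refl n t (S.X u)) with hw
  set l : V2 → ℝ := fun u => ⟪n, S.X u⟫ - t with hldef
  have hb1 : B.b (refl n t (S.X u₁)) = u₁ := by
    rw [hY1]; exact B.b_X (by simpa using B.hr)
  have hw0 : w u₁ = 0 := by
    show B.f (refl n t (S.X u₁)) = 0
    rw [hY1]; exact B.f_X (by simpa using B.hr)
  have hl0 : l u₁ = 0 := by show ⟪n, S.X u₁⟫ - t = 0; rw [hl]; ring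
  -- neighbourhoods
  have hVε : ∀ δ : ℝ, 0 < δ → δ ≤ B.r → ∀ᶠ u in 𝓝 u₁, refl n t (S.X u) ∈ B.U δ := by
    intro δ h1 h2
    have h3 : B.U δ ∈ 𝓝 (refl n t (S.X u₁)) := by rw [hY1]; exact B.U_nhds h1 h2
    exact hYc.continuousAt.eventually h3
  have hUr : ∀ {y : V3}, y ∈ B.U ε → y ∈ B.U B.r := fun hy => B.U_mono hεr hy
  have hY1U : refl n t (S.X u₁) ∈ B.U B.r := by rw [hY1]; exact B.mem_U B.hr
  -- derivative of `w`
  have hDw : fderiv ℝ w u₁ = 0 := by
    apply fderiv_w_zero S B hn t hY1U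
    rw [hb1, hrl]
  obtain ⟨K, hK⟩ := di S B hn t hu₁.le hY1U (by rw [hb1]; exact hu₁.le)
    (by rw [hb1, hrl, hNN]; norm_num)
  -- derivative of `l`
  have hlsm : ContDiff ℝ 2 l := (contDiff_const.inner ℝ S.smooth).sub contDiff_const
  have hDl : ∀ u a, fderiv ℝ l u a = ⟪n, fderiv ℝ S.X u a⟫ := by
    intro u a
    have h1 : HasFDerivAt l ((innerSL ℝ n).comp (fderiv ℝ S.X u)) u := by
      have h2 := ((innerSL ℝ n).hasFDerivAt (x := S.X u)).comp u (hXd u).hasFDerivAt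
      exact h2.sub_const t
    rw [h1.fderiv]
    rfl
  have hDl1 : fderiv ℝ l u₁ ≠ 0 := by
    obtain ⟨a, ha⟩ := S.tangent hu₁.le hN
    intro h0
    have h1 := hDl u₁ a
    rw [h0, ha, real_inner_self_eq_norm_sq, hn] at h1
    norm_num at h1
  obtain ⟨ν, R, hR, hν, hDν, -, hball⟩ := iball hlsm.contDiffAt hl0 hDl1
  have hevl : ∀ᶠ u in 𝓝 u₁, 0 < fderiv ℝ l u ν := by
    have hc : Continuous (fun u => fderiv ℝ l u ν) :=
      (hlsm.continuous_fderiv (by norm_num)).clm_apply continuous_const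
    exact hc.continuousAt.eventually (lt_mem_nhds hDν)
  have hevn : ∀ᶠ u : V2 in 𝓝 u₁, ‖u‖ < 1 :=
    (continuous_norm.continuousAt).eventually (Iio_mem_nhds hu₁)
  obtain ⟨ρ, hρ, hρall⟩ := Metric.eventually_nhds_iff_ball.mp
    ((((hVε ε hε hεr).and hK).and hevl).and hevn)
  have hin : ∀ u ∈ ball u₁ ρ, refl n t (S.X u) ∈ B.U ε := fun u hu => (hρall u hu).1.1.1
  have hlt : ∀ u ∈ ball u₁ ρ, ‖u‖ < 1 := fun u hu => (hρall u hu).2
  have hlν : ∀ u ∈ ball u₁ ρ, 0 < fderiv ℝ l u ν := fun u hu => (hρall u hu).1.2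
  have hwC : ∀ u ∈ ball u₁ ρ, ContDiffAt ℝ 2 w u :=
    fun u hu => contDiffAt_w S B n t (hUr (hin u hu))
  have hell : ∀ u ∈ ball u₁ ρ,
      Ell (cA S.X) (cB S.X) (cC S.X) w u ≤ K * ‖fderiv ℝ w u‖ := by
    intro u hu
    have h1 := (hρall u hu).1.1.2 (hlt u hu) (hsig _ (hin u hu)).1
    rw [← Lop_eq_Ell]
    exact (le_abs_self _).trans h1
  have hwnn : ∀ u ∈ ball u₁ ρ, 0 < l u → 0 ≤ w u := by
    intro u hu hlu
    have h1 : refl n t (S.X u) ∈ closure D.W := by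
      apply hS u (hlt u hu).le
      have : 0 < ⟪n, S.X u⟫ - t := hlu
      linarith
    exact (hsig _ (hin u hu)).2.2.2.2.mp h1
  -- propagation of zeros
  have hlc : Continuous l := hlsm.continuous
  have key : ∀ C : Set V2, IsPreconnected C → (∀ x ∈ C, x ∈ ball u₁ ρ ∧ 0 < l x) →
      (∃ z ∈ C, w z = 0) → ∀ x ∈ C, w x = 0 := by
    intro C hC hCs hz x hx
    have hcA := (contDiff_cA S.smooth).continuous
    have hcB := (contDiff_cB S.smooth).continuous
    have hcC := (contDiff_cC S.smooth).continuous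
    have hopen1 : IsOpen {x : V2 | ∀ᶠ y in 𝓝 x, w y = 0} := isOpen_setOf_eventually_nhds
    have hopen2 : IsOpen {x : V2 | x ∈ ball u₁ ρ ∧ w x ≠ 0} := by
      rw [isOpen_iff_mem_nhds]
      rintro y ⟨hy1, hy2⟩
      have h1 : ∀ᶠ z in 𝓝 y, w z ≠ 0 := (hwC y hy1).continuousAt.eventually_ne hy2
      exact (isOpen_ball.eventually_mem hy1).and h1
    have hcov : C ⊆ {x : V2 | ∀ᶠ y in 𝓝 x, w y = 0} ∪ {x : V2 | x ∈ ball u₁ ρ ∧ w x ≠ 0} := by
      intro y hy
      obtain ⟨hy1, hy2⟩ := hCs y hy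
      by_cases h0 : w y = 0
      · left
        have hev : ∀ᶠ z in 𝓝 y, z ∈ ball u₁ ρ ∧ 0 < l z :=
          (isOpen_ball.eventually_mem hy1).and (hlc.continuousAt.eventually (lt_mem_nhds hy2))
        exact smp (hwC y hy1) h0 (hev.mono fun z hz => hwnn z hz.1 hz.2)
          (Eventually.of_forall fun z => hcA.continuousAt)
          (Eventually.of_forall fun z => hcB.continuousAt)
          (Eventually.of_forall fun z => hcC.continuousAt)
          (cA_pos (S.imm y (hlt y hy1).le)) (cB_sq_lt (S.imm y (hlt y hy1).le))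
          (hev.mono fun z hz => hell z hz.1)
      · right
        exact ⟨hy1, h0⟩
    have hdis : C ∩ ({x : V2 | ∀ᶠ y in 𝓝 x, w y = 0} ∩ {x : V2 | x ∈ ball u₁ ρ ∧ w x ≠ 0}) = ∅ := by
      rw [Set.eq_empty_iff_forall_notMem]
      rintro y ⟨-, hy1, hy2⟩
      have h3 : ∀ᶠ z in 𝓝 y, w z = 0 := hy1
      exact hy2.2 h3.self_of_nhds
    rcases isPreconnected_iff_subset_of_disjoint.mp hC _ _ hopen1 hopen2 hcov hdis with h | h
    · have h3 : ∀ᶠ z in 𝓝 x, w z = 0 := h hx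
      exact h3.self_of_nhds
    · obtain ⟨z, hz1, hz2⟩ := hz
      exact absurd hz2 (h hz1).2
  -- a small tangent ball
  set R' : ℝ := min R (ρ / 4) with hR'
  have hR'pos : 0 < R' := lt_min hR (by linarith)
  have hR'R : R' ≤ R := min_le_left _ _
  have hR'ρ : R' ≤ ρ / 4 := min_le_right _ _
  have hsub1 : ball (u₁ + R' • ν) R' ⊆ ball (u₁ + R • ν) R := by
    apply ball_subset_ball'
    rw [dist_eq_norm]
    have h1 : u₁ + R' • ν - (u₁ + R • ν) = (R' - R) • ν := by rw [sub_smul]; abel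
    rw [h1, norm_smul, hν, Real.norm_eq_abs, abs_of_nonpos (by linarith)]
    linarith
  have hsub2 : ball (u₁ + R' • ν) R' ⊆ ball u₁ ρ := by
    apply ball_subset_ball'
    rw [dist_eq_norm]
    have h1 : u₁ + R' • ν - u₁ = R' • ν := by abel
    rw [h1, norm_smul, hν, Real.norm_eq_abs, abs_of_pos hR'pos]
    linarith
  have hBq : ∀ x ∈ ball (u₁ + R' • ν) R', x ∈ ball u₁ ρ ∧ 0 < l x :=
    fun x hx => ⟨hsub2 hx, hball (hsub1 hx)⟩
  have hz : ∃ z ∈ ball (u₁ + R' • ν) R', w z = 0 := by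
    have hevb : ∀ᶠ x in 𝓝 u₁, x ∈ ball u₁ ρ := isOpen_ball.eventually_mem (mem_ball_self hρ)
    obtain ⟨x, -, hx1, hx2⟩ := touch (A := cA S.X) (B := cB S.X) (C := cC S.X) (w := w)
      (Ω := ball (u₁ + R' • ν) R') (x₀ := u₁) (ν := ν) (K := K) (R := R') hR'pos hν
      (subset_refl _) (hwC u₁ (mem_ball_self hρ)) hw0
      (Eventually.of_forall fun x hx => hwnn x (hBq x hx).1 (hBq x hx).2)
      (contDiff_cA S.smooth).continuous.continuousAt
      (contDiff_cB S.smooth).continuous.continuousAt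
      (contDiff_cC S.smooth).continuous.continuousAt
      (cA_pos (S.imm u₁ hu₁.le)) (cB_sq_lt (S.imm u₁ hu₁.le))
      (hevb.mono fun x hx _ => hell x hx) (by rw [hDw]; simp) 1 one_pos
    exact ⟨x, hx1, hx2⟩
  have hzero : ∀ x ∈ ball (u₁ + R' • ν) R', w x = 0 :=
    key _ (convex_ball _ _).isPreconnected hBq hz
  set δ : ℝ := R' / 2 with hδ
  have hδpos : 0 < δ := by positivity
  -- zeros on the positive side
  have hplus : ∀ u, ‖u - u₁‖ < δ → 0 < l u → w u = 0 := by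
    intro u hu hlu
    have hmemρ : ∀ s ∈ Icc (0 : ℝ) (2 * δ), u + s • ν ∈ ball u₁ ρ := by
      intro s hs
      rw [mem_ball, dist_eq_norm]
      have h1 : u + s • ν - u₁ = (u - u₁) + s • ν := by abel
      have h2 : ‖s • ν‖ ≤ 2 * δ := by
        rw [norm_smul, hν, Real.norm_eq_abs, abs_of_nonneg hs.1]
        linarith [hs.2]
      rw [h1]
      have := norm_add_le (u - u₁) (s • ν)
      linarith
    have hline : ∀ s : ℝ, HasDerivAt (fun s : ℝ => l (u + s • ν)) (fderiv ℝ l (u + s • ν) ν) s := by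
      intro s
      have h1 : HasDerivAt (fun s : ℝ => u + s • ν) ν s := by
        simpa using ((hasDerivAt_id s).smul_const ν).const_add u
      exact ((hlsm.differentiable (by norm_num) _).hasFDerivAt).comp_hasDerivAt s h1
    have hmono : StrictMonoOn (fun s : ℝ => l (u + s • ν)) (Icc 0 (2 * δ)) := by
      apply strictMonoOn_of_deriv_pos (convex_Icc _ _)
      · exact fun s _ => (hline s).continuousAt.continuousWithinAt
      · intro s hs
        rw [interior_Icc] at hs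
        rw [(hline s).deriv]
        exact hlν _ (hmemρ s ⟨hs.1.le, hs.2.le⟩)
    have hseg : ∀ x ∈ (fun s : ℝ => u + s • ν) '' Icc (0 : ℝ) (2 * δ), x ∈ ball u₁ ρ ∧ 0 < l x := by
      rintro x ⟨s, hs, rfl⟩
      refine ⟨hmemρ s hs, ?_⟩
      have h1 := hmono.monotoneOn (show (0 : ℝ) ∈ Icc 0 (2 * δ) from ⟨le_refl _, by linarith⟩) hs hs.1
      have h2 : l (u + (0 : ℝ) • ν) = l u := by simp
      simp only [h2] at h1
      exact lt_of_lt_of_le hlu h1
    have hpre : IsPreconnected ((fun s : ℝ => u + s • ν) '' Icc (0 : ℝ) (2 * δ)) := by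
      apply isPreconnected_Icc.image
      fun_prop
    refine key _ hpre hseg ⟨u + (2 * δ) • ν, ⟨2 * δ, ⟨by linarith, le_refl _⟩, rfl⟩, ?_⟩ u
      ⟨0, ⟨le_refl _, by linarith⟩, by simp⟩
    apply hzero
    rw [mem_ball, dist_eq_norm]
    have h1 : u + (2 * δ) • ν - (u₁ + R' • ν) = u - u₁ := by
      have : 2 * δ = R' := by rw [hδ]; ring
      rw [this]; abel
    rw [h1]
    linarith
  -- conclusion
  have hmin : 0 < min ε δ := lt_min hε hδpos
  have hminr : min ε δ ≤ B.r := (min_le_left _ _).trans hεr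
  have hevδ : ∀ᶠ u in 𝓝 u₁, u ∈ ball u₁ (min δ (min ρ B.r)) :=
    isOpen_ball.eventually_mem (mem_ball_self (lt_min hδpos (lt_min hρ B.hr)))
  filter_upwards [hVε _ hmin hminr, hevδ] with u hu1 hu2
  rw [mem_ball, dist_eq_norm] at hu2
  have hu2a : ‖u - u₁‖ < δ := hu2.trans_le (min_le_left _ _)
  have hu2b : ‖u - u₁‖ < ρ := hu2.trans_le ((min_le_right _ _).trans (min_le_left _ _))
  have hu2c : ‖u - u₁‖ < B.r := hu2.trans_le ((min_le_right _ _).trans (min_le_right _ _))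
  have huρ : u ∈ ball u₁ ρ := by rw [mem_ball, dist_eq_norm]; exact hu2b
  have hYε : refl n t (S.X u) ∈ B.U ε := hin u huρ
  rcases lt_trichotomy (l u) 0 with hneg | hzr | hps
  · set y := refl n t (S.X u) with hy
    obtain ⟨hv1, hv2, hv3⟩ := B.coord hminr hu1
    set v := B.b y with hv
    have hvδ : ‖v - u₁‖ < δ := hv1.trans_le (min_le_right _ _)
    have hvρ : v ∈ ball u₁ ρ := by
      rw [mem_ball, dist_eq_norm]
      have : δ ≤ ρ := by rw [hδ]; linarith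
      linarith
    have hlv : l v = -l u := by
      have h1 : ⟪n, y⟫ = 2 * t - ⟪n, S.X u⟫ := CTB_inner_refl hn t (S.X u)
      have h2 : ⟪n, y⟫ = ⟪n, S.X v⟫ := by
        rw [← hv3, inner_add_right, inner_smul_right, hN]; ring
      show ⟪n, S.X v⟫ - t = -(⟪n, S.X u⟫ - t)
      rw [← h2, h1]; ring
    have hwv : w v = 0 := hplus v hvδ (by rw [hlv]; linarith)
    have hYv : refl n t (S.X v) ∈ B.U ε := hin v hvρ
    obtain ⟨hv1', hv2', hv3'⟩ := B.coord hεr hYv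
    set v' := B.b (refl n t (S.X v)) with hv'
    have hfv : B.f (refl n t (S.X v)) = 0 := hwv
    rw [hfv, zero_smul, add_zero] at hv3'
    have h1 : S.X u = S.X v' + B.f y • S.N u₁ := by
      have h2 : refl n t y = S.X u := CTB_refl_refl hn t (S.X u)
      rw [← h2]
      conv_lhs => rw [← hv3]
      rw [CTB_refl_add, CTB_rl_smul, hrl, hv3']
    have h2 := (B.left v' (B.f y) (hv1'.trans_le hεr) (hv2.trans_le hminr)).2
    rw [← h1, B.f_X hu2c] at h2
    exact (hsig y hYε).2.2.1.mpr h2.symm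
  · have h1 : ⟪n, S.X u⟫ = t := by
      have : ⟪n, S.X u⟫ - t = 0 := hzr
      linarith
    rw [CTB_refl_fix h1]
    exact Surf.mem_Sig S (hlt u huρ).le
  · exact (hsig _ hYε).2.2.1.mpr (hplus u hu2a hps)

end Pool.Agent.H99.SC

end S_CTB

section S_CTC

/-!
# CTC: transfer (C5) and equality of normals (C6)

`ct5`.  If a neighbourhood of `v` (in the open disc) is mapped into `S.Sig` by `u ↦ refl n t (S.X u)`
and `refl n t (S.X v) = S.X u₀`, `‖u₀‖ < 1`, then a neighbourhood of `u₀` is mapped into `S.Sig`.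
Proof.  Box `B` at `u₀`, `e = S.N u₀`; `ι x = B.b (refl n t (S.X x))` is C^2 at `v`, `ι v = u₀`, and near
`v` the point `refl n t (S.X x)` is in `S.Sig ∩ B.U ε`, so `B.f = 0` (`box_sig` or `lsig`) and
`S.X (ι x) = refl n t (S.X x)`.  Differentiate at `v`: `fderiv X u₀ (Dι a) = rl n (fderiv X v a)`, so `Dι` is
injective, hence surjective (dimension 2), and `HasStrictFDerivAt.map_nhds_eq_of_surj` gives
`map ι (𝓝 v) = 𝓝 u₀`: for `u` near `u₀` there is `x` near `v` with `ι x = u`: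
`S.X u = refl n t (S.X x)`, so `refl n t (S.X u) = S.X x ∈ S.Sig` (`‖x‖ < 1`).

`ct6`.  If a neighbourhood of `u₀` (`‖u₀‖ < 1`) is mapped into `S.Sig`, `refl n t (S.X u₀) = S.X v₀`,
`‖v₀‖ < 1`, then `rl n (S.N u₀) = S.N v₀`.
Proof.  Box at `v₀`, `e = S.N v₀`: `w = B.f (refl ..) = 0` near `u₀` (`box_sig`), so `Dw(u₀) = 0` and
`Lop S.X w u₀ = 0` (`w` is locally constant): `normal_pm` and `lop_neg`.
-/


open scoped RealInnerProductSpace Topology
open Metric Filter Set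


namespace Pool.Agent.H99.SC

theorem CTC_box (S : Surf) {u₀ : V2} (hu₀ : ‖u₀‖ ≤ 1) : Nonempty (Box S.X u₀ (S.N u₀)) := by
  apply exists_box S.smooth
  rw [S.nn_eq hu₀, inner_smul_left, real_inner_self_eq_norm_sq, S.N_norm hu₀]
  simpa using S.nn_pos hu₀

theorem ct5 (S : Surf) {n : V3} {t : ℝ} (hn : ‖n‖ = 1) {v u₀ : V2} (hv : ‖v‖ < 1)
    (hu₀ : ‖u₀‖ < 1) (hA : ∀ᶠ u in 𝓝 v, refl n t (S.X u) ∈ S.Sig)
    (hx : refl n t (S.X v) = S.X u₀) : ∀ᶠ u in 𝓝 u₀, refl n t (S.X u) ∈ S.Sig := by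
  obtain ⟨B⟩ := CTC_box S hu₀.le
  obtain ⟨ε, hε, hεr, -, hsig⟩ := box_sig S hu₀.le B
  have hXc : Continuous S.X := S.smooth.continuous
  have hXd : Differentiable ℝ S.X := S.smooth.differentiable (by norm_num)
  have hrs : ContDiff ℝ 2 (fun x => refl n t (S.X x)) :=
    ((contDiff_refl n t).of_le (by simp)).comp S.smooth
  have hrc : Continuous (fun x => refl n t (S.X x)) := hrs.continuous
  have hmem : refl n t (S.X v) ∈ B.U B.r := by rw [hx]; exact B.mem_U B.hr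
  set ι : V2 → V2 := fun x => B.b (refl n t (S.X x)) with hι
  have hιv : ι v = u₀ := by
    simp only [hι]
    rw [hx]; exact B.b_X (by simpa using B.hr)
  have hιC : ContDiffAt ℝ 2 ι v := by
    have h1 : ContDiffAt ℝ 2 B.b (refl n t (S.X v)) := B.smooth_b hmem
    exact ContDiffAt.comp v h1 hrs.contDiffAt
  -- the local inverse
  have hev : ∀ᶠ x in 𝓝 v, S.X (ι x) = refl n t (S.X x) := by
    have h1 : ∀ᶠ x in 𝓝 v, refl n t (S.X x) ∈ B.U ε := by
      have : B.U ε ∈ 𝓝 (refl n t (S.X v)) := by rw [hx]; exact B.U_nhds hε hεr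
      exact hrc.continuousAt.eventually this
    filter_upwards [h1, hA] with x h2 h3
    have h4 := (hsig _ h2).1 h3
    have h5 := (B.coord hεr h2).2.2
    rw [h4.1, zero_smul, add_zero] at h5
    exact h5
  -- its derivative
  have hιd : HasStrictFDerivAt ι (fderiv ℝ ι v) v := hιC.hasStrictFDerivAt (by norm_num)
  have hder : ∀ a, fderiv ℝ S.X u₀ (fderiv ℝ ι v a) = rl n (fderiv ℝ S.X v a) := by
    intro a
    have h1 : HasFDerivAt (fun x => S.X (ι x)) ((fderiv ℝ S.X (ι v)).comp (fderiv ℝ ι v)) v :=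
      (hXd (ι v)).hasFDerivAt.comp v hιd.hasFDerivAt
    have h2 : fderiv ℝ (fun x => S.X (ι x)) v = fderiv ℝ (fun x => refl n t (S.X x)) v :=
      Filter.EventuallyEq.fderiv_eq hev
    rw [h1.fderiv, hιv] at h2
    have h3 := congrArg (fun A : V2 →L[ℝ] V3 => A a) h2
    simp only [ContinuousLinearMap.comp_apply] at h3
    rw [h3, fderiv_refl_comp n t (hXd v)]
  have hinj : Function.Injective (fderiv ℝ ι v : V2 →ₗ[ℝ] V2) := by
    rw [injective_iff_map_eq_zero]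
    intro a ha
    have h1 := hder a
    have ha' : fderiv ℝ ι v a = 0 := ha
    rw [ha', map_zero] at h1
    have h2 := rl_rl n hn (fderiv ℝ S.X v a)
    rw [← h1] at h2
    have h3 : rl n (0 : V3) = 0 := by simp [rl]
    rw [h3] at h2
    exact S.fderiv_inj hv.le h2.symm
  have hsurj : (fderiv ℝ ι v).range = ⊤ := by
    rw [LinearMap.range_eq_top]
    exact LinearMap.injective_iff_surjective.1 hinj
  have hmap := hιd.map_nhds_eq_of_surj hsurj
  rw [hιv] at hmap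
  rw [← hmap, eventually_map]
  have hnorm : ∀ᶠ x : V2 in 𝓝 v, ‖x‖ < 1 :=
    (continuous_norm.continuousAt).eventually (Iio_mem_nhds hv)
  filter_upwards [hev, hnorm] with x h1 h2
  rw [h1, refl_refl n hn]
  exact S.mem_Sig h2.le

theorem ct6 (S : Surf) {n : V3} {t : ℝ} (hn : ‖n‖ = 1) {u₀ v₀ : V2} (hu₀ : ‖u₀‖ < 1)
    (hv₀ : ‖v₀‖ < 1) (hA : ∀ᶠ u in 𝓝 u₀, refl n t (S.X u) ∈ S.Sig)
    (hx : refl n t (S.X u₀) = S.X v₀) : rl n (S.N u₀) = S.N v₀ := by
  obtain ⟨B⟩ := CTC_box S hv₀.le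
  obtain ⟨ε, hε, hεr, -, hsig⟩ := box_sig S hv₀.le B
  have hrs : ContDiff ℝ 2 (fun x => refl n t (S.X x)) :=
    ((contDiff_refl n t).of_le (by simp)).comp S.smooth
  have hrc : Continuous (fun x => refl n t (S.X x)) := hrs.continuous
  have hmem : refl n t (S.X u₀) ∈ B.U B.r := by rw [hx]; exact B.mem_U B.hr
  have hb : B.b (refl n t (S.X u₀)) = v₀ := by
    rw [hx]; exact B.b_X (by simpa using B.hr)
  have hw : (fun x => B.f (refl n t (S.X x))) =ᶠ[𝓝 u₀] fun _ => (0 : ℝ) := by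
    have h1 : ∀ᶠ x in 𝓝 u₀, refl n t (S.X x) ∈ B.U ε := by
      have : B.U ε ∈ 𝓝 (refl n t (S.X u₀)) := by rw [hx]; exact B.U_nhds hε hεr
      exact hrc.continuousAt.eventually this
    filter_upwards [h1, hA] with x h2 h3
    exact ((hsig _ h2).1 h3).1
  have hD : fderiv ℝ (fun x => B.f (refl n t (S.X x))) u₀ = 0 := by
    rw [hw.fderiv_eq]; simp
  have hbn : ‖B.b (refl n t (S.X u₀))‖ ≤ 1 := by rw [hb]; exact hv₀.le
  rcases normal_pm S B hn t hu₀.le hmem hbn hD with h | h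
  · rw [hb] at h; exact h
  · exfalso
    have hneg := lop_neg S B hn t hu₀ hmem (by rw [hb]; exact hv₀) h
    have hw2 : fderiv ℝ (fderiv ℝ (fun x => B.f (refl n t (S.X x)))) u₀ = 0 := by
      have h1 : fderiv ℝ (fun x => B.f (refl n t (S.X x))) =ᶠ[𝓝 u₀]
          fun _ => (0 : V2 →L[ℝ] ℝ) := by
        have h2 := hw.fderiv (𝕜 := ℝ)
        filter_upwards [h2] with x hx2
        rw [hx2]; simp
      rw [h1.fderiv_eq]; simp
    have hL : Lop S.X (fun x => B.f (refl n t (S.X x))) u₀ = 0 := by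
      unfold Lop D2
      rw [hw2]
      simp
    linarith

end Pool.Agent.H99.SC

end S_CTC

section S_OPN

/-!
# OPN: the contact lemma

`ct4`.  `SS D n t`; (h1) the reflected circle does not meet the interior surface; one point `u₁` of
the open disc has a neighbourhood mapped into `S.Sig`.  Then the whole closed disc is mapped into `S.Sig`.
Proof.  `A = {u : ‖u‖ < 1 ∧ ∀ᶠ x in 𝓝 u, refl n t (S.X x) ∈ S.Sig}` is open and nonempty.  Claim: if
`u k ∈ A`, `u k → u`, `‖u‖ < 1`, then `u ∈ A`.  `S.Sig` is closed, so `refl n t (S.X u) = S.X v`, `‖v‖ ≤ 1`;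
`‖v‖ = 1` would give `refl n t (S.X v) = S.X u`, against (h1).  So `‖v‖ < 1`.
 * `t < ⟪n, S.X u⟫`: `ct1`.
 * `⟪n, S.X u⟫ < t`: then `t < ⟪n, S.X v⟫` (`inner_refl`) and `refl n t (S.X v) = S.X u`: `ct1` at `v`,
   then `ct5`.
 * equality: `S.X v = S.X u`, `v = u`.  `refl n t (S.X (u k)) = S.X (v k)`, `v k → u` (`emb_seq`),
   `‖v k‖ < 1`; `ct6`: `rl n (S.N (u k)) = S.N (v k)`; limit: `rl n (S.N u) = S.N u`, so
   `⟪n, S.N u⟫ = 0` and `ct2`.
So `A` is closed in the open disc, which is connected: `A` is the open disc; closure.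

`opn`.  `J = refl n t`.  `J (S.X u₀) ∈ closure D.W` (by `SS`, since `t ≤ ⟪n, S.X u₀⟫` in the limit), and
`J (S.X u₀) ∉ D.W` (open, limit of points outside the closure; the reflected points converge).  So it is in
the frontier, in `S.Sig ∪ Disc`.  If it is in `Disc` we are done; else it is `S.X v`, `‖v‖ ≤ 1`, and
`‖v‖ < 1` because `S.X v ∉ Disc`.  If `‖u₀‖ = 1` done; let `‖u₀‖ < 1`.
 * `t < ⟪n, S.X u₀⟫`: `ct1` and `ct4` contradict (h2).
 * equality: `ct3`: `⟪n, S.N u₀⟫ ≤ 0`; if `= 0`: `ct2` and `ct4` contradict (h2).  If `< 0`: box at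
   `u₀`, `e = S.N u₀`; for large `k` the segment from `S.X (uk k)` to its reflection
   `S.X (uk k) - 2 l_k nk` is near `S.X u₀`, where `⟪g, nk⟫ < 0`, so `B.f` of the reflection is `> 0`
   (mean value; `B.f (S.X (uk k)) = 0`), so it is in `D.W` (`lsig`): contradiction with `hbad`.
-/


open scoped RealInnerProductSpace Topology
open Metric Filter Set


namespace Pool.Agent.H99.SC

theorem OPN_cont (n : V3) (t : ℝ) : Continuous (fun y : V3 => refl n t y) := by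
  unfold refl
  fun_prop

theorem OPN_rl_cont (n : V3) : Continuous (fun y : V3 => rl n y) := by
  unfold rl
  fun_prop

theorem OPN_refl_fix {n : V3} {t : ℝ} {y : V3} (h : ⟪n, y⟫ = t) : refl n t y = y := by
  unfold refl
  rw [h]
  simp

theorem OPN_lt {S : Surf} {n : V3} {t : ℝ} (hn : ‖n‖ = 1)
    (h1 : ∀ u v : V2, ‖u‖ = 1 → ‖v‖ < 1 → refl n t (S.X u) ≠ S.X v) {u v : V2} (hu : ‖u‖ < 1)
    (hv : ‖v‖ ≤ 1) (h : refl n t (S.X u) = S.X v) : ‖v‖ < 1 := by
  rcases lt_or_eq_of_le hv with h2 | h2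
  · exact h2
  · exfalso
    apply h1 v u h2 hu
    rw [← h, refl_refl n hn]

theorem OPN_lim {S : Surf} (D : Dom S) {n : V3} {t : ℝ} (hn : ‖n‖ = 1) (hS : SS D n t)
    (h1 : ∀ u v : V2, ‖u‖ = 1 → ‖v‖ < 1 → refl n t (S.X u) ≠ S.X v) {u : V2} (hu : ‖u‖ < 1)
    {w : ℕ → V2} (hw1 : ∀ k, ‖w k‖ < 1) (hw2 : ∀ k, ∀ᶠ x in 𝓝 (w k), refl n t (S.X x) ∈ S.Sig)
    (hw : Tendsto w atTop (𝓝 u)) : ∀ᶠ x in 𝓝 u, refl n t (S.X x) ∈ S.Sig := by
  have hXc : Continuous S.X := S.smooth.continuous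
  have hJc : Continuous (fun x : V2 => refl n t (S.X x)) := (OPN_cont n t).comp hXc
  have hmem : refl n t (S.X u) ∈ S.Sig := by
    apply S.isCompact_Sig.isClosed.mem_of_tendsto ((hJc.tendsto u).comp hw)
    exact Eventually.of_forall (fun k => (hw2 k).self_of_nhds)
  obtain ⟨v, hv1, hv2⟩ := hmem
  have hv3 : ‖v‖ < 1 := OPN_lt hn h1 hu hv1 hv2.symm
  rcases lt_trichotomy t ⟪n, S.X u⟫ with hl | hl | hl
  · exact ct1 D hn hS hu hl hv3 hv2.symm
  · -- equality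
    have hfix : refl n t (S.X u) = S.X u := OPN_refl_fix hl.symm
    choose z hz1 hz2 using fun k => (hw2 k).self_of_nhds
    have hz3 : ∀ k, ‖z k‖ < 1 := fun k => OPN_lt hn h1 (hw1 k) (hz1 k) (hz2 k).symm
    have hz4 : Tendsto z atTop (𝓝 u) := by
      apply S.emb_seq hu.le hz1
      have h2 : (fun k => S.X (z k)) = fun k => refl n t (S.X (w k)) := by
        funext k
        exact hz2 k
      rw [h2]
      have h3 := (hJc.tendsto u).comp hw
      rw [hfix] at h3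
      exact h3
    have hz5 : ∀ k, rl n (S.N (w k)) = S.N (z k) := fun k =>
      ct6 S hn (hw1 k) (hz3 k) (hw2 k) (hz2 k).symm
    have hNu : rl n (S.N u) = S.N u := by
      have h4 : Tendsto (fun k => rl n (S.N (w k))) atTop (𝓝 (rl n (S.N u))) :=
        ((OPN_rl_cont n).tendsto _).comp ((S.N_cont hu.le).tendsto.comp hw)
      have h5 : Tendsto (fun k => S.N (z k)) atTop (𝓝 (S.N u)) :=
        (S.N_cont hu.le).tendsto.comp hz4
      have h6 : (fun k => rl n (S.N (w k))) = fun k => S.N (z k) := funext hz5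
      rw [h6] at h4
      exact tendsto_nhds_unique h4 h5
    have hin : ⟪n, S.N u⟫ = 0 := by
      unfold rl at hNu
      have h7 : (2 * ⟪n, S.N u⟫) • n = 0 := by
        have := sub_eq_self.mp hNu
        exact this
      rcases smul_eq_zero.mp h7 with h8 | h8
      · linarith
      · rw [h8] at hn
        norm_num at hn
    exact ct2 D hn hS hu hl.symm hin
  · have hv4 : refl n t (S.X v) = S.X u := by
      rw [hv2, refl_refl n hn]
    have hv5 : t < ⟪n, S.X v⟫ := by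
      rw [hv2, inner_refl n hn]
      linarith
    exact ct5 S hn hv3 hu (ct1 D hn hS hv3 hv5 hu hv4) hv4

theorem ct4 {S : Surf} (D : Dom S) {n : V3} {t : ℝ} (hn : ‖n‖ = 1) (hS : SS D n t)
    (h1 : ∀ u v : V2, ‖u‖ = 1 → ‖v‖ < 1 → refl n t (S.X u) ≠ S.X v) {u₁ : V2} (hu₁ : ‖u₁‖ < 1)
    (hA : ∀ᶠ u in 𝓝 u₁, refl n t (S.X u) ∈ S.Sig) :
    ∀ u : V2, ‖u‖ ≤ 1 → refl n t (S.X u) ∈ S.Sig := by
  have hXc : Continuous S.X := S.smooth.continuous
  have hJc : Continuous (fun x : V2 => refl n t (S.X x)) := (OPN_cont n t).comp hXc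
  set A : Set V2 := {u : V2 | ‖u‖ < 1 ∧ ∀ᶠ x in 𝓝 u, refl n t (S.X x) ∈ S.Sig} with hAdef
  have hAo : IsOpen A := by
    have h2 : A = ball (0 : V2) 1 ∩ {u : V2 | ∀ᶠ x in 𝓝 u, refl n t (S.X x) ∈ S.Sig} := by
      ext u
      simp [hAdef]
    rw [h2]
    exact isOpen_ball.inter isOpen_setOfPred_eventually_nhds
  have hsub : ball (0 : V2) 1 ⊆ A := by
    apply (convex_ball (0 : V2) 1).isPreconnected.subset_of_closure_inter_subset hAo
    · refine ⟨u₁, ?_, hu₁, hA⟩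
      simpa using hu₁
    · rintro u ⟨huc, hub⟩
      have hu : ‖u‖ < 1 := by simpa using hub
      obtain ⟨w, hw1, hw2⟩ := mem_closure_iff_seq_limit.mp huc
      exact ⟨hu, OPN_lim D hn hS h1 hu (fun k => (hw1 k).1) (fun k => (hw1 k).2) hw2⟩
  intro u hu
  have hcl : IsClosed {x : V2 | refl n t (S.X x) ∈ S.Sig} :=
    S.isCompact_Sig.isClosed.preimage hJc
  have hb : ball (0 : V2) 1 ⊆ {x : V2 | refl n t (S.X x) ∈ S.Sig} := fun x hx =>
    (hsub hx).2.self_of_nhds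
  have hc := closure_minimal hb hcl
  rw [closure_ball (0 : V2) one_ne_zero] at hc
  apply hc
  simpa using hu

theorem OPN_neg {S : Surf} (D : Dom S) {n : V3}
    {nk : ℕ → V3} {tk : ℕ → ℝ} {uk : ℕ → V2}
    (hnk : Tendsto nk atTop (𝓝 n)) {u₀ : V2}
    (huk : Tendsto uk atTop (𝓝 u₀)) (hu1 : ∀ k, ‖uk k‖ ≤ 1)
    (hl : ∀ k, tk k < ⟪nk k, S.X (uk k)⟫)
    (hbad : ∀ k, refl (nk k) (tk k) (S.X (uk k)) ∉ closure D.W) (hu₀ : ‖u₀‖ < 1)
    (hy : Tendsto (fun k => refl (nk k) (tk k) (S.X (uk k))) atTop (𝓝 (S.X u₀)))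
    (hneg : ⟪n, S.N u₀⟫ < 0) : False := by
  have hXc : Continuous S.X := S.smooth.continuous
  have hpos : 0 < ⟪nn S.X u₀, S.N u₀⟫ := by
    rw [S.nn_eq hu₀.le, real_inner_smul_left, real_inner_self_eq_norm_sq, S.N_norm hu₀.le]
    have := S.nn_pos hu₀.le
    rw [S.nn_eq hu₀.le, norm_smul, S.N_norm hu₀.le] at this
    simpa using this
  obtain ⟨B⟩ := exists_box S.smooth hpos
  obtain ⟨ε, hε0, hεr, hε⟩ := lsig D.toPreDom hu₀ B
  have hX0 : S.X u₀ ∈ B.U B.r := B.mem_U B.hr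
  have hg0 : ⟪B.g (S.X u₀), n⟫ < 0 := by
    rw [B.g_eq hX0, B.b_X (by simpa using B.hr), real_inner_smul_left]
    have h2 := B.g_pos hX0
    have h3 : ⟪NN S.X u₀, n⟫ < 0 := by
      rw [real_inner_comm]
      exact hneg
    exact mul_neg_of_pos_of_neg h2 h3
  have hgc : ContinuousAt (fun q : V3 × V3 => ⟪B.g q.1, q.2⟫) (S.X u₀, n) := by
    apply ContinuousAt.inner
    · exact ContinuousAt.comp (f := Prod.fst) (x := ((S.X u₀, n) : V3 × V3))
        (B.g_cont S.smooth hX0) continuousAt_fst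
    · exact continuousAt_snd
  have hev : ∀ᶠ q : V3 × V3 in 𝓝 (S.X u₀, n), ⟪B.g q.1, q.2⟫ < 0 :=
    hgc.eventually_lt_const hg0
  rw [nhds_prod_eq, Filter.eventually_prod_iff] at hev
  obtain ⟨pa, hpa, pb, hpb, hab⟩ := hev
  have hV : {y | pa y} ∩ B.U ε ∈ 𝓝 (S.X u₀) := inter_mem hpa (B.U_nhds hε0 hεr)
  obtain ⟨ρ, hρ0, hρ⟩ := Metric.mem_nhds_iff.mp hV
  have e1 : ∀ᶠ k in atTop, S.X (uk k) ∈ ball (S.X u₀) ρ :=
    ((hXc.tendsto u₀).comp huk).eventually (ball_mem_nhds _ hρ0)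
  have e2 : ∀ᶠ k in atTop, refl (nk k) (tk k) (S.X (uk k)) ∈ ball (S.X u₀) ρ :=
    hy.eventually (ball_mem_nhds _ hρ0)
  have e3 : ∀ᶠ k in atTop, pb (nk k) := hnk.eventually hpb
  obtain ⟨k, hk1, hk2, hk3⟩ := (e1.and (e2.and e3)).exists
  set x := S.X (uk k) with hx
  set y := refl (nk k) (tk k) x with hyd
  set l := ⟪nk k, x⟫ - tk k with hld
  have hl0 : 0 < l := by
    have := hl k
    rw [hld]
    linarith
  have hyx : y = x - (2 * l) • nk k := rfl
  -- the path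
  have hseg : ∀ s ∈ Icc (0 : ℝ) 1, x + s • (y - x) ∈ ball (S.X u₀) ρ := by
    intro s hs
    apply (convex_ball (S.X u₀) ρ).add_smul_sub_mem hk1 hk2 hs
  have hder : ∀ s ∈ Icc (0 : ℝ) 1, HasDerivAt (fun s : ℝ => B.f (x + s • (y - x)))
      (⟪B.g (x + s • (y - x)), y - x⟫) s := by
    intro s hs
    have hU : x + s • (y - x) ∈ B.U B.r := B.U_mono hεr (hρ (hseg s hs)).2
    have h2 : HasFDerivAt B.f (fderiv ℝ B.f (x + s • (y - x))) (x + s • (y - x)) :=
      ((B.smooth_f hU).differentiableAt (by norm_num)).hasFDerivAt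
    have h3 : HasDerivAt (fun s : ℝ => x + s • (y - x)) (y - x) s := by
      have h4 : HasDerivAt (fun s : ℝ => s • (y - x)) ((1 : ℝ) • (y - x)) s :=
        (hasDerivAt_id s).smul_const (y - x)
      rw [one_smul] at h4
      exact h4.const_add x
    have h5 := h2.comp_hasDerivAt s h3
    rw [B.fd S.smooth hU] at h5
    exact h5
  have hcon : ContinuousOn (fun s : ℝ => B.f (x + s • (y - x))) (Icc 0 1) := fun s hs =>
    (hder s hs).continuousAt.continuousWithinAt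
  obtain ⟨c, hc1, hc2⟩ := exists_hasDerivAt_eq_slope (fun s : ℝ => B.f (x + s • (y - x)))
    (fun s => ⟪B.g (x + s • (y - x)), y - x⟫) zero_lt_one hcon
    (fun s hs => hder s ⟨hs.1.le, hs.2.le⟩)
  have hc3 : c ∈ Icc (0 : ℝ) 1 := ⟨hc1.1.le, hc1.2.le⟩
  have hc4 : ⟪B.g (x + c • (y - x)), nk k⟫ < 0 := hab (hρ (hseg c hc3)).1 hk3
  have hc5 : 0 < ⟪B.g (x + c • (y - x)), y - x⟫ := by
    have h6 : y - x = (-(2 * l)) • nk k := by
      rw [hyx]
      module
    rw [h6, real_inner_smul_right, ← h6]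
    nlinarith
  have hf0 : B.f x = 0 := ((hε x (hρ hk1).2).2.2.1).mp (S.mem_Sig (hu1 k))
  have hf1 : 0 < B.f y := by
    simp only [zero_smul, add_zero, one_smul, add_sub_cancel, sub_zero, div_one] at hc2
    rw [hf0, sub_zero] at hc2
    rw [← hc2]
    exact hc5
  exact hbad k (((hε y (hρ hk2).2).2.2.2.2).mpr hf1.le)

theorem opn {S : Surf} (D : Dom S) {n : V3} {t : ℝ} (hn : ‖n‖ = 1) (hS : SS D n t)
    (h1 : ∀ u v : V2, ‖u‖ = 1 → ‖v‖ < 1 → refl n t (S.X u) ≠ S.X v)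
    (h2 : ∃ u : V2, ‖u‖ ≤ 1 ∧ refl n t (S.X u) ∉ S.Sig)
    {nk : ℕ → V3} {tk : ℕ → ℝ} {uk : ℕ → V2} (hnk1 : ∀ k, ‖nk k‖ = 1)
    (hnk : Tendsto nk atTop (𝓝 n)) (htk : Tendsto tk atTop (𝓝 t)) {u₀ : V2}
    (huk : Tendsto uk atTop (𝓝 u₀)) (hu1 : ∀ k, ‖uk k‖ ≤ 1)
    (hl : ∀ k, tk k < ⟪nk k, S.X (uk k)⟫)
    (hbad : ∀ k, refl (nk k) (tk k) (S.X (uk k)) ∉ closure D.W) :
    ‖u₀‖ = 1 ∨ refl n t (S.X u₀) ∈ Disc := by
  have hXc : Continuous S.X := S.smooth.continuous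
  have hu₀ : ‖u₀‖ ≤ 1 := le_of_tendsto huk.norm (Eventually.of_forall hu1)
  have hXk : Tendsto (fun k => S.X (uk k)) atTop (𝓝 (S.X u₀)) := (hXc.tendsto u₀).comp huk
  have hin : Tendsto (fun k => ⟪nk k, S.X (uk k)⟫) atTop (𝓝 ⟪n, S.X u₀⟫) := hnk.inner hXk
  have hle : t ≤ ⟪n, S.X u₀⟫ :=
    le_of_tendsto_of_tendsto htk hin (Eventually.of_forall (fun k => (hl k).le))
  have hy : Tendsto (fun k => refl (nk k) (tk k) (S.X (uk k))) atTop
      (𝓝 (refl n t (S.X u₀))) := by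
    unfold refl
    exact hXk.sub (((hin.sub htk).const_mul 2).smul hnk)
  have hcl : refl n t (S.X u₀) ∈ closure D.W := hS u₀ hu₀ hle
  have hnW : refl n t (S.X u₀) ∉ D.W := by
    intro hW
    obtain ⟨k, hk⟩ := (hy.eventually (D.isOpen.mem_nhds hW)).exists
    exact hbad k (subset_closure hk)
  have hfr : refl n t (S.X u₀) ∈ frontier D.W := by
    rw [frontier, D.isOpen.interior_eq]
    exact ⟨hcl, hnW⟩
  by_contra hcon
  push Not at hcon
  obtain ⟨hc1, hc2⟩ := hcon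
  have hu₀' : ‖u₀‖ < 1 := lt_of_le_of_ne hu₀ hc1
  obtain ⟨u', hu', hu''⟩ := h2
  rcases D.fr hfr with hS' | hD'
  swap
  · exact hc2 hD'
  obtain ⟨v, hv1, hv2⟩ := hS'
  have hv3 : ‖v‖ < 1 := by
    rcases lt_or_eq_of_le hv1 with h3 | h3
    · exact h3
    · exfalso
      apply hc2
      rw [← hv2]
      obtain ⟨h4, h5⟩ := S.bd1 h3
      exact ⟨h4, h5.le⟩
  rcases lt_or_eq_of_le hle with hl0 | hl0
  · exact hu'' (ct4 D hn hS h1 hu₀' (ct1 D hn hS hu₀' hl0 hv3 hv2.symm) u' hu')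
  · have h3 := ct3 D hn hS hu₀' hl0.symm
    rcases lt_or_eq_of_le h3 with h4 | h4
    · rw [OPN_refl_fix hl0.symm] at hy
      exact OPN_neg D hnk huk hu1 hl hbad hu₀' hy h4
    · exact hu'' (ct4 D hn hS h1 hu₀' (ct2 D hn hS hu₀' hl0.symm h4) u' hu')

end Pool.Agent.H99.SC

end S_OPN
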