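import Mathlib
import Pool.Agent.H99.SCM.M3

/-! Star-shaped CMC discs (S14043), file M5: joins several modules to save build time. -/

set_option autoImplicit false

noncomputable section

section S_LOCN

/-!
# LOCN: the domain near a boundary point with `N_r < 0`

`‖u₀‖ = 1`, `p = S.X u₀`, box `B` at `u₀` (any `e`; `B.g` is a positive multiple of the normal: `g_eq`).
`(fderiv X u₀ u₀) 2 = - N_r β > 0` (`Xr_2`, `ori`), so inside points have `(X u) 2 < 0` and outside ones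
`> 0` (`h3_neg`), and `plane_neg` holds.  All points below are in a small `B.U ε` (`box_sig`).  For `y`
near `p`:
 (a) `f y < 0 → y ∉ closure W`: `A = {y ∈ U ε, f y < 0}` is preconnected (`preconn_neg`), disjoint from
   `S.Sig` (`f = 0`) and from `Disc` (`plane_neg`), hence from the frontier, and contains
   `X u - s N u` for an inside `u` (`f` has derivative `⟪g,N⟫ > 0` along `N`), not in the closure
   (`D.inS`): `sep`.
 (b) `y 2 > 0 → y ∉ closure W`: half ball (convex), disjoint from `Disc` and from `S.Sig` (`(X v) 2 ≤ 0`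
   for `‖v‖ ≤ 1` near `u₀`), contains `d + s E3` with `d = (1-η) p` (`D.inD`): `sep`.
 (c) `f y > 0, y 2 < 0 → y ∈ W`.  Let `v = -E3 - M p` with `M > 0` so large that
   `⟪v, N⟫ = -M N_r - N_3 > 0`, and `v 2 = -1 < 0`.  Let `y` be close to `p`.  Going back along `y - s v`,
   `s ≥ 0`: `f` decreases at a rate `≥ c > 0`, the third coordinate increases at rate 1.  Let `s₁` be the first time
   at which `f = 0` or third coordinate `= 0` (it is small if `y` is close to `p`).  `Z = y - s₁ v`.  On `[0,s₁)`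
   the path is in `{f > 0, y 2 < 0}`, disjoint from `S.Sig ∪ Disc`: so this piece (preconnected) is in
   `W` or outside the closure.
   If `Z 2 = 0`: `f Z ≥ 0` so `Z` is in the closed unit disc (`plane_neg`).  If `f Z = 0`, `Z 2 < 0`:
   `Z = X (b Z)` with `‖b Z‖ < 1` (outside points have `X 2 > 0`, boundary ones `= 0`).
   First suppose `Z` is not on the circle.  If `f Z = 0` and `Z 2 < 0`: `‖b Z‖ < 1`; the points `Z + s v` (small
   `s > 0`) are in `W`: use a box `B'` at `b Z` with the same `e` and `lsig`; `B'.f` has positive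
   derivative `⟪g', v⟫` (`g'` a positive multiple of `N (b Z)`, near `N`).  If `Z 2 = 0`, `Z` inside
   the open disc: `ldisc`.  So the piece meets `W` and `y ∈ W`.
   If `Z` is on the circle: `{f > 0, y 2 < 0}` near `p` is open and disjoint from the frontier, so a small ball around `y` is
   entirely in `W` or entirely outside the closure; replace `y` by `y + η Z` (`η > 0` small): the corresponding `Z'`,
   if on the circle, would be in the plane `y 2 = 0`, so (projection to the plane along `v`; `Z 2 = 0`)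
   `Z' = Z + η Z`, of norm `1 + η`: impossible.
-/


open scoped RealInnerProductSpace Topology
open Metric Filter Set


namespace Pool.Agent.H99.SC

/-- On both sides of an inside point of the surface. -/
private theorem LOCN_side {S : Surf} (D : PreDom S) {u₀ : V2} {e : V3} (B : Box S.X u₀ e) {u : V2}
    (hu : ‖u‖ < 1) (hub : ‖u - u₀‖ < B.r) {O : Set V3} (hO : O ∈ 𝓝 (S.X u)) :
    ∃ s : ℝ, 0 < s ∧ (S.X u + s • S.N u ∈ O ∧ S.X u + s • S.N u ∈ D.W ∧
      0 < B.f (S.X u + s • S.N u)) ∧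
      (S.X u - s • S.N u ∈ O ∧ S.X u - s • S.N u ∉ closure D.W ∧
      B.f (S.X u - s • S.N u) < 0) := by
  have hX := S.smooth
  have hy : S.X u ∈ B.U B.r := by
    have := B.mk_mem (ε := B.r) (u := u) (s := 0) hub (by simpa using B.hr)
    simpa using this
  have hder : HasDerivAt (fun s : ℝ => B.f (S.X u + s • S.N u)) ⟪B.g (S.X u), S.N u⟫ 0 := by
    have h1 : HasFDerivAt B.f (fderiv ℝ B.f (S.X u)) (S.X u + (0:ℝ) • S.N u) := by
      rw [zero_smul, add_zero]
      exact ((B.smooth_f hy).differentiableAt (by norm_num)).hasFDerivAt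
    have h2 : HasDerivAt (fun s : ℝ => S.X u + s • S.N u) (S.N u) 0 := by
      have := ((hasDerivAt_id (0:ℝ)).smul_const (S.N u)).const_add (S.X u)
      simpa using this
    have h3 := h1.comp_hasDerivAt (0:ℝ) h2
    rw [B.fd hX hy] at h3
    exact h3
  have hpos : 0 < ⟪B.g (S.X u), S.N u⟫ := by
    rw [B.g_eq hy, B.b_X hub, inner_smul_left]
    have h1 : ⟪NN S.X u, S.N u⟫ = 1 := by
      change ⟪S.N u, S.N u⟫ = 1
      rw [real_inner_self_eq_norm_sq, S.N_norm hu.le]
      norm_num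
    rw [h1, mul_one]
    exact B.g_pos hy
  have h0 : B.f (S.X u + (0:ℝ) • S.N u) = 0 := by
    rw [zero_smul, add_zero]
    exact B.f_X hub
  have hslope := hasDerivAt_iff_tendsto_slope.1 hder
  have hsl : ∀ᶠ s : ℝ in 𝓝[≠] 0, 0 < slope (fun s : ℝ => B.f (S.X u + s • S.N u)) 0 s :=
    hslope.eventually (lt_mem_nhds hpos)
  have hsl' : ∀ᶠ s : ℝ in 𝓝 0, s ≠ 0 → 0 < slope (fun s : ℝ => B.f (S.X u + s • S.N u)) 0 s :=
    eventually_nhdsWithin_iff.1 hsl
  have hneg : ∀ᶠ s : ℝ in 𝓝 0, -s ≠ 0 →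
      0 < slope (fun s : ℝ => B.f (S.X u + s • S.N u)) 0 (-s) := by
    have ht : Tendsto (fun s : ℝ => -s) (𝓝 0) (𝓝 0) := by
      have : ContinuousAt (fun s : ℝ => -s) 0 := by fun_prop
      have h1 := this.tendsto
      simpa using h1
    exact ht.eventually hsl'
  have hO1 : ∀ᶠ s : ℝ in 𝓝 0, S.X u + s • S.N u ∈ O := by
    have hc : ContinuousAt (fun s : ℝ => S.X u + s • S.N u) 0 := by fun_prop
    apply hc.eventually_mem
    rw [zero_smul, add_zero]
    exact hO
  have hO2 : ∀ᶠ s : ℝ in 𝓝 0, S.X u - s • S.N u ∈ O := by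
    have hc : ContinuousAt (fun s : ℝ => S.X u - s • S.N u) 0 := by fun_prop
    apply hc.eventually_mem
    rw [zero_smul, sub_zero]
    exact hO
  obtain ⟨ε, hε, hin⟩ := D.inS u hu
  have hε' : ∀ᶠ s : ℝ in 𝓝 0, s < ε := gt_mem_nhds hε
  have hall := hsl'.and (hneg.and (hO1.and (hO2.and hε')))
  obtain ⟨s, hs, h1, h2, h3, h4, h5⟩ : ∃ s : ℝ, 0 < s ∧
      (s ≠ 0 → 0 < slope (fun s : ℝ => B.f (S.X u + s • S.N u)) 0 s) ∧
      (-s ≠ 0 → 0 < slope (fun s : ℝ => B.f (S.X u + s • S.N u)) 0 (-s)) ∧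
      S.X u + s • S.N u ∈ O ∧ S.X u - s • S.N u ∈ O ∧ s < ε := by
    obtain ⟨δ, hδ, hb⟩ := Metric.eventually_nhds_iff.1 hall
    refine ⟨δ / 2, by positivity, hb ?_⟩
    rw [Real.dist_eq, sub_zero, abs_of_pos (by positivity)]
    linarith
  have h1' := h1 hs.ne'
  have h2' := h2 (neg_ne_zero.2 hs.ne')
  rw [slope_def_field, h0, sub_zero, sub_zero] at h1' h2'
  have hf1 : 0 < B.f (S.X u + s • S.N u) := by
    have := mul_pos h1' hs
    rwa [div_mul_cancel₀ _ hs.ne'] at this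
  have hf2 : B.f (S.X u - s • S.N u) < 0 := by
    have h6 : S.X u + (-s) • S.N u = S.X u - s • S.N u := by rw [neg_smul, sub_eq_add_neg]
    rw [h6] at h2'
    rw [div_pos_iff] at h2'
    rcases h2' with h7 | h7
    · linarith [h7.2]
    · exact h7.1
  obtain ⟨h8, h9⟩ := hin s hs h5
  exact ⟨s, hs, ⟨h3, h8, hf1⟩, ⟨h4, h9, hf2⟩⟩

/-- inside parameters near a boundary parameter -/
private theorem LOCN_inside {u₀ : V2} (hu₀ : ‖u₀‖ = 1) {η : ℝ} (hη : 0 < η) :
    ∃ u : V2, ‖u‖ < 1 ∧ ‖u - u₀‖ < η := by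
  set t := min η 1 / 2 with ht
  have ht0 : 0 < t := by positivity
  have ht1 : t < 1 := by
    have : min η 1 ≤ 1 := min_le_right _ _
    linarith
  have htη : t < η := by
    have : min η 1 ≤ η := min_le_left _ _
    linarith
  refine ⟨(1 - t) • u₀, ?_, ?_⟩
  · rw [norm_smul, hu₀, mul_one, Real.norm_eq_abs, abs_of_pos (by linarith)]
    linarith
  · have : (1 - t) • u₀ - u₀ = -(t • u₀) := by module
    rw [this, norm_neg, norm_smul, hu₀, mul_one, Real.norm_eq_abs, abs_of_pos ht0]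
    exact htη

theorem loc_neg {S : Surf} (D : PreDom S) {u₀ : V2} (hu₀ : ‖u₀‖ = 1) (h : S.Nr u₀ < 0) {e : V3}
    (B : Box S.X u₀ e) : ∀ᶠ y in 𝓝 (S.X u₀),
      (0 < B.f y → y 2 < 0 → y ∈ D.W) ∧ (B.f y < 0 → y ∉ closure D.W) ∧
      (0 < y 2 → y ∉ closure D.W) := by
  have hX := S.smooth
  have hXc : Continuous S.X := hX.continuous
  set p := S.X u₀ with hp
  have hp2 : p 2 = 0 := (S.bd1 hu₀).1
  have hp1 : p 0 ^ 2 + p 1 ^ 2 = 1 := (S.bd1 hu₀).2
  have hpn : ‖p‖ = 1 := by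
    have h1 : ‖p‖ ^ 2 = 1 := by rw [nsq, hp2, hp1]; norm_num
    nlinarith [norm_nonneg p]
  have hβ := ori D hu₀
  have hXr : 0 < (fderiv ℝ S.X u₀ u₀) 2 := by
    rw [S.Xr_2 hu₀]
    exact mul_pos (neg_pos.2 h) hβ
  have h3 := h3_neg S hu₀ hXr
  have hpl := plane_neg S hu₀ h B
  obtain ⟨ε0, hε0, hε0r, -, hbs⟩ := box_sig S hu₀.le B
  -- the good neighbourhood
  have hV0 : ∀ᶠ y in 𝓝 p, y ∈ B.U ε0 ∧ (y 2 = 0 →
      (y 0 ^ 2 + y 1 ^ 2 = 1 → B.f y = 0) ∧ (y 0 ^ 2 + y 1 ^ 2 < 1 → 0 < B.f y) ∧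
      (1 < y 0 ^ 2 + y 1 ^ 2 → B.f y < 0)) := by
    have hU : ∀ᶠ y in 𝓝 p, y ∈ B.U ε0 := B.U_nhds hε0 hε0r
    exact hU.and hpl
  -- points with `f < 0`, or `f > 0` and `y 2 < 0`, are not on the frontier
  have hfrn : ∀ y, (y ∈ B.U ε0 ∧ (y 2 = 0 →
      (y 0 ^ 2 + y 1 ^ 2 = 1 → B.f y = 0) ∧ (y 0 ^ 2 + y 1 ^ 2 < 1 → 0 < B.f y) ∧
      (1 < y 0 ^ 2 + y 1 ^ 2 → B.f y < 0))) → B.f y < 0 → y ∉ frontier D.W := by
    rintro y ⟨hyU, hy⟩ hf hfr
    rcases D.fr hfr with hS | hD
    · exact hf.ne ((hbs y hyU).1 hS).1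
    · obtain ⟨h1, h2, -⟩ := hy hD.1
      rcases lt_or_eq_of_le hD.2 with h4 | h4
      · linarith [h2 h4]
      · linarith [h1 h4]
  have hfrp : ∀ y, y ∈ B.U ε0 → 0 < B.f y → y 2 < 0 → y ∉ frontier D.W := by
    intro y hyU hf hy2 hfr
    rcases D.fr hfr with hS | hD
    · exact hf.ne' ((hbs y hyU).1 hS).1
    · exact hy2.ne hD.1
  -- (a)
  have ha : ∀ᶠ y in 𝓝 p, B.f y < 0 → y ∉ closure D.W := by
    obtain ⟨ε, hε, hεr, hεV⟩ := B.small hXc hV0
    have hAd : Disjoint {y | y ∈ B.U ε ∧ B.f y < 0} (frontier D.W) := by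
      rw [Set.disjoint_left]
      rintro y ⟨hy1, hy2⟩
      exact hfrn y (hεV hy1) hy2
    have hsep := sep D.isOpen (B.preconn_neg hXc hε hεr) hAd
    have hA : {y | y ∈ B.U ε ∧ B.f y < 0} ⊆ (closure D.W)ᶜ := by
      rcases hsep with h1 | h1
      · exfalso
        obtain ⟨u, hu1, hu2⟩ := LOCN_inside hu₀ hε
        have hO : B.U ε ∈ 𝓝 (S.X u) := by
          apply (B.U_open hε hεr).mem_nhds
          have := B.mk_mem (ε := ε) (u := u) (s := 0) hu2 (by simpa using hε)
          simpa using this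
        obtain ⟨s, -, -, h5, h6, h7⟩ := LOCN_side D B hu1 (hu2.trans_le hεr) hO
        exact h6 (subset_closure (h1 ⟨h5, h7⟩))
      · exact h1
    filter_upwards [B.U_nhds hε hεr] with y hy hf
    exact hA ⟨hy, hf⟩
  -- (b)
  have hb : ∀ᶠ y in 𝓝 p, 0 < y 2 → y ∉ closure D.W := by
    obtain ⟨ρ, hρ, hρ3⟩ := Metric.eventually_nhds_iff.1 h3
    obtain ⟨δ, hδ, hemb⟩ := S.emb hu₀.le hρ
    have hconv : Convex ℝ {y : V3 | y ∈ ball p δ ∧ 0 < y 2} := by
      have h1 : Convex ℝ {y : V3 | 0 < y 2} := by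
        intro x hx y hy a b ha hb hab
        simp only [Set.mem_ofPred_eq, PiLp.add_apply, PiLp.smul_apply, smul_eq_mul] at hx hy ⊢
        rcases ha.lt_or_eq with h2 | h2
        · have := mul_pos h2 hx
          have := mul_nonneg hb hy.le
          linarith
        · have hb1 : b = 1 := by linarith
          rw [← h2, hb1]
          linarith
      exact (convex_ball p δ).inter h1
    have hHd : Disjoint {y : V3 | y ∈ ball p δ ∧ 0 < y 2} (frontier D.W) := by
      rw [Set.disjoint_left]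
      rintro y ⟨hy1, hy2⟩ hfr
      rcases D.fr hfr with ⟨v, hv, rfl⟩ | hD
      · have h4 := hemb v hv (by rw [← dist_eq_norm]; exact hy1)
        have h5 := hρ3 (y := v) (by rw [dist_eq_norm]; exact h4)
        rcases lt_or_eq_of_le hv with h6 | h6
        · linarith [h5.1 h6]
        · linarith [(S.bd1 h6).1]
      · linarith [hD.1]
    have hsep := sep D.isOpen hconv.isPreconnected hHd
    have hH : {y : V3 | y ∈ ball p δ ∧ 0 < y 2} ⊆ (closure D.W)ᶜ := by
      rcases hsep with h1 | h1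
      · exfalso
        set t := min δ 1 / 2 with ht
        have ht0 : 0 < t := by positivity
        have ht1 : t < 1 := by
          have : min δ 1 ≤ 1 := min_le_right _ _
          linarith
        have htδ : t < δ := by
          have : min δ 1 ≤ δ := min_le_left _ _
          linarith
        have hd2 : ((1 - t) • p) 2 = 0 := by simp [hp2]
        have hd1 : ((1 - t) • p) 0 ^ 2 + ((1 - t) • p) 1 ^ 2 < 1 := by
          simp only [PiLp.smul_apply, smul_eq_mul]
          have : ((1 - t) * p 0) ^ 2 + ((1 - t) * p 1) ^ 2 = (1 - t) ^ 2 := by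
            rw [mul_pow, mul_pow, ← mul_add, hp1, mul_one]
          rw [this]
          nlinarith
        obtain ⟨ε, hε, hin⟩ := D.inD _ hd2 hd1
        set s := min ε (δ - t) / 2 with hs
        have hδt : 0 < δ - t := by linarith
        have hs0 : 0 < s := by positivity
        have hsε : s < ε := by
          have : min ε (δ - t) ≤ ε := min_le_left _ _
          linarith
        have hsδ : s < δ - t := by
          have : min ε (δ - t) ≤ δ - t := min_le_right _ _
          linarith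
        have hE : ‖E3‖ = 1 := by
          have h1 : ‖E3‖ ^ 2 = 1 := by rw [nsq]; simp
          nlinarith [norm_nonneg E3]
        have hmem : (1 - t) • p + s • E3 ∈ {y : V3 | y ∈ ball p δ ∧ 0 < y 2} := by
          refine ⟨?_, ?_⟩
          · rw [mem_ball, dist_eq_norm]
            have : (1 - t) • p + s • E3 - p = s • E3 - t • p := by module
            rw [this]
            refine (norm_sub_le _ _).trans_lt ?_
            rw [norm_smul, norm_smul, hE, hpn, Real.norm_eq_abs, Real.norm_eq_abs,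
              abs_of_pos hs0, abs_of_pos ht0]
            linarith
          · simp [hp2, hs0]
        exact (hin s hs0 hsε).2 (subset_closure (h1 hmem))
      · exact h1
    filter_upwards [ball_mem_nhds p hδ] with y hy hf
    exact hH ⟨hy, hf⟩
  -- (c)
  have hc : ∀ᶠ y in 𝓝 p, 0 < B.f y → y 2 < 0 → y ∈ D.W := by
    have hNr : ⟪S.N u₀, p⟫ < 0 := h
    set M := (|(S.N u₀) 2| + 1) / (-⟪S.N u₀, p⟫) with hM
    set v : V3 := -E3 - M • p with hv
    have hv2 : v 2 = -1 := by simp [hv, hp2]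
    have hMN : M * ⟪S.N u₀, p⟫ = -(|(S.N u₀) 2| + 1) := by
      have h1 : M * (-⟪S.N u₀, p⟫) = |(S.N u₀) 2| + 1 := by
        rw [hM]
        exact div_mul_cancel₀ _ (by linarith)
      linarith
    have hvN : 0 < ⟪S.N u₀, v⟫ := by
      have h1 : ⟪S.N u₀, E3⟫ = (S.N u₀) 2 := by rw [ip]; simp
      rw [hv, inner_sub_right, inner_neg_right, inner_smul_right, h1, hMN]
      have := neg_abs_le ((S.N u₀) 2)
      have := le_abs_self ((S.N u₀) 2)
      linarith
    have hpU : p ∈ B.U B.r := B.mem_U B.hr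
    have hgv : 0 < ⟪B.g p, v⟫ := by
      rw [B.g_eq hpU, inner_smul_left]
      have h1 : B.b p = u₀ := B.b_X (by simpa using B.hr)
      rw [h1]
      exact mul_pos (B.g_pos hpU) hvN
    have hgc : ContinuousAt (fun y => ⟪B.g y, v⟫) p :=
      (B.g_cont hX hpU).inner continuousAt_const
    have hV1 : ∀ᶠ y in 𝓝 p, y ∈ B.U ε0 ∧ 0 < ⟪B.g y, v⟫ := by
      have hU : ∀ᶠ y in 𝓝 p, y ∈ B.U ε0 := B.U_nhds hε0 hε0r
      exact hU.and (hgc.eventually_const_lt hgv)
    obtain ⟨ρ, hρ, hball⟩ := Metric.eventually_nhds_iff.1 hV1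
    have hvne : 0 < ‖v‖ := by
      rw [norm_pos_iff]
      intro h0
      rw [h0] at hv2
      simp at hv2
    set s₁ := ρ / (2 * ‖v‖) with hs₁
    have hs₁0 : 0 < s₁ := by positivity
    have hs₁v : s₁ * ‖v‖ = ρ / 2 := by rw [hs₁]; field_simp
    -- paths
    have hpath : ∀ y, dist y p < ρ / 2 → ∀ s ∈ Icc 0 s₁, dist (y + s • v) p < ρ := by
      intro y hy s hs
      have h1 : y + s • v - p = (y - p) + s • v := by abel
      rw [dist_eq_norm] at hy ⊢
      rw [h1]
      refine (norm_add_le _ _).trans_lt ?_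
      rw [norm_smul, Real.norm_eq_abs, abs_of_nonneg hs.1]
      have : s * ‖v‖ ≤ s₁ * ‖v‖ := mul_le_mul_of_nonneg_right hs.2 hvne.le
      linarith
    have hmono : ∀ y, dist y p < ρ / 2 → StrictMonoOn (fun s : ℝ => B.f (y + s • v)) (Icc 0 s₁) := by
      intro y hy
      have hd : ∀ s ∈ Icc (0:ℝ) s₁, HasDerivAt (fun s : ℝ => B.f (y + s • v))
          ⟪B.g (y + s • v), v⟫ s := by
        intro s hs
        have h1 := hball (hpath y hy s hs)
        have hU : y + s • v ∈ B.U B.r := B.U_mono hε0r h1.1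
        have h2 : HasFDerivAt B.f (fderiv ℝ B.f (y + s • v)) (y + s • v) :=
          ((B.smooth_f hU).differentiableAt (by norm_num)).hasFDerivAt
        have h4 : HasDerivAt (fun s : ℝ => y + s • v) v s := by
          have := ((hasDerivAt_id s).smul_const v).const_add y
          simpa using this
        have h5 := h2.comp_hasDerivAt s h4
        rw [B.fd hX hU] at h5
        exact h5
      apply strictMonoOn_of_deriv_pos (convex_Icc 0 s₁)
      · intro s hs
        exact (hd s hs).continuousAt.continuousWithinAt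
      · intro s hs
        rw [interior_Icc] at hs
        have hs' : s ∈ Icc (0:ℝ) s₁ := ⟨hs.1.le, hs.2.le⟩
        rw [(hd s hs').deriv]
        exact (hball (hpath y hy s hs')).2
    set ys := p + s₁ • v with hys
    have hp0 : dist p p < ρ / 2 := by rw [dist_self]; positivity
    have hfp : B.f p = 0 := B.f_X (by simpa using B.hr)
    have hfys : 0 < B.f ys := by
      have h1 := hmono p hp0 (left_mem_Icc.2 hs₁0.le) (right_mem_Icc.2 hs₁0.le) hs₁0
      simp only [zero_smul, add_zero, hfp] at h1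
      exact h1
    have hys2 : ys 2 < 0 := by
      simp only [hys, PiLp.add_apply, PiLp.smul_apply, smul_eq_mul, hp2, hv2]
      linarith
    have hysρ : dist ys p < ρ := hpath p hp0 s₁ (right_mem_Icc.2 hs₁0.le)
    have hysU : ys ∈ B.U B.r := B.U_mono hε0r (hball hysρ).1
    have hQ : ∀ᶠ y in 𝓝 ys, y ∈ B.U ε0 ∧ 0 < B.f y ∧ y 2 < 0 := by
      have h1 : ∀ᶠ y in 𝓝 ys, y ∈ B.U ε0 := (B.U_open hε0 hε0r).mem_nhds (hball hysρ).1
      have h2 : ∀ᶠ y in 𝓝 ys, 0 < B.f y :=
        ((B.smooth_f hysU).continuousAt).eventually_const_lt hfys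
      have h4 : ∀ᶠ y : V3 in 𝓝 ys, y 2 < 0 := by
        have : ContinuousAt (fun y : V3 => y 2) ys := by fun_prop
        exact this.eventually_lt_const hys2
      exact h1.and (h2.and h4)
    obtain ⟨δ, hδ, hδQ⟩ := Metric.eventually_nhds_iff.1 hQ
    -- the connected sets
    have hconn : ∀ y, dist y p < ρ / 2 → dist y p < δ → 0 < B.f y → y 2 < 0 →
        (y ∈ D.W ↔ ys ∈ D.W) := by
      intro y hy hyδ hf hy2
      set A := ((fun s : ℝ => y + s • v) '' Icc 0 s₁) ∪ ball ys δ with hA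
      have hApre : IsPreconnected A := by
        apply IsPreconnected.union (y + s₁ • v)
        · exact ⟨s₁, right_mem_Icc.2 hs₁0.le, rfl⟩
        · rw [mem_ball, dist_eq_norm]
          have : y + s₁ • v - ys = y - p := by rw [hys]; abel
          rw [this, ← dist_eq_norm]
          exact hyδ
        · exact isPreconnected_Icc.image _ (by fun_prop)
        · exact (convex_ball ys δ).isPreconnected
      have hAd : Disjoint A (frontier D.W) := by
        rw [Set.disjoint_left]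
        rintro z (⟨s, hs, rfl⟩ | hz)
        · apply hfrp _ (hball (hpath y hy s hs)).1
          · have h1 := (hmono y hy).monotoneOn (left_mem_Icc.2 hs₁0.le) hs hs.1
            simp only [zero_smul, add_zero] at h1
            exact hf.trans_le h1
          · simp only [PiLp.add_apply, PiLp.smul_apply, smul_eq_mul, hv2]
            linarith [hs.1]
        · obtain ⟨h1, h2, h4⟩ := hδQ (mem_ball.1 hz)
          exact hfrp z h1 h2 h4
      have hyA : y ∈ A := Or.inl ⟨0, left_mem_Icc.2 hs₁0.le, by simp⟩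
      have hysA : ys ∈ A := Or.inr (mem_ball_self hδ)
      rcases sep D.isOpen hApre hAd with h1 | h1
      · exact ⟨fun _ => h1 hysA, fun _ => h1 hyA⟩
      · exact ⟨fun h2 => absurd (subset_closure h2) (h1 hyA),
          fun h2 => absurd (subset_closure h2) (h1 hysA)⟩
    -- a point of `W`
    have hO1 : ball p (min (ρ / 2) δ) ∈ 𝓝 p := ball_mem_nhds p (by positivity)
    have hev : ∀ᶠ u in 𝓝 u₀, S.X u ∈ ball p (min (ρ / 2) δ) ∧ (‖u‖ < 1 → (S.X u) 2 < 0) ∧
        ‖u - u₀‖ < B.r := by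
      have h1 : ∀ᶠ u in 𝓝 u₀, S.X u ∈ ball p (min (ρ / 2) δ) :=
        hXc.continuousAt.eventually_mem hO1
      have h2 : ∀ᶠ u in 𝓝 u₀, ‖u - u₀‖ < B.r := by
        have : ContinuousAt (fun u : V2 => ‖u - u₀‖) u₀ := by fun_prop
        exact this.eventually_lt_const (by simpa using B.hr)
      filter_upwards [h1, h2, h3] with u h4 h5 h6
      exact ⟨h4, h6.1, h5⟩
    obtain ⟨η, hη, hηb⟩ := Metric.eventually_nhds_iff.1 hev
    obtain ⟨u, hu1, hu2⟩ := LOCN_inside hu₀ hη
    obtain ⟨h4, h5, h6⟩ := hηb (y := u) (by rw [dist_eq_norm]; exact hu2)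
    have hO : {y : V3 | y ∈ ball p (min (ρ / 2) δ) ∧ y 2 < 0} ∈ 𝓝 (S.X u) := by
      apply Filter.inter_mem (isOpen_ball.mem_nhds h4)
      have : ContinuousAt (fun y : V3 => y 2) (S.X u) := by fun_prop
      exact this.eventually_lt_const (h5 hu1)
    obtain ⟨s, -, ⟨h7, h8, h9⟩, -⟩ := LOCN_side D B hu1 h6 hO
    have hysW : ys ∈ D.W :=
      (hconn _ ((mem_ball.1 h7.1).trans_le (min_le_left _ _))
        ((mem_ball.1 h7.1).trans_le (min_le_right _ _)) h9 h7.2).1 h8
    filter_upwards [hO1] with y hy hf hy2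
    exact (hconn y ((mem_ball.1 hy).trans_le (min_le_left _ _))
      ((mem_ball.1 hy).trans_le (min_le_right _ _)) hf hy2).2 hysW
  filter_upwards [ha, hb, hc] with y h1 h2 h4
  exact ⟨h4, h1, h2⟩

end Pool.Agent.H99.SC

end S_LOCN

section S_LOCP

/-!
# LOCP: the domain near a boundary point with `N_r > 0`

`‖u₀‖ = 1`, `p = S.X u₀`, box `B` at `u₀` (any `e`; `B.g` is a positive multiple of the normal: `g_eq`).
`(fderiv X u₀ u₀) 2 = - N_r β < 0` (`Xr_2`, `ori`), so inside points have `(X u) 2 > 0` and outside ones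
`< 0` (`h3_pos`), and `plane_pos` holds.  All points below are in a small `B.U ε` (`box_sig`).  For `y`
near `p`:
 (a) `f y > 0 → y ∈ W`: `A = {y ∈ U ε, f y > 0}` is preconnected (`preconn_pos`), disjoint from
   `S.Sig` (`f = 0`) and from `Disc` (`plane_pos`), hence from the frontier, and contains
   `X u + s N u` for an inside `u` (`f` has derivative `⟪g,N⟫ > 0` along `N`), a point of `W`
   (`D.inS`): `sep`.
 (b) `y 2 < 0 → y ∈ W`: half ball (convex), disjoint from `Disc` and from `S.Sig` (`(X v) 2 ≥ 0`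
   for `‖v‖ ≤ 1` near `u₀`), contains `d - s E3` with `d = (1-η) p` (`D.inD`): `sep`.
 (c) `f y < 0, y 2 > 0 → y ∉ closure W`.  Let `v = -E3 + M p` with `M > 0` so large that
   `⟪v, N⟫ = M N_r - N_3 > 0`, and `v 2 = -1 < 0`.  Let `y` be close to `p`.  Going along `y + s v`,
   `s ≥ 0`: `f` increases at a rate `≥ c > 0`, the third coordinate decreases at rate 1.  Let `s₁` be the first time
   at which `f = 0` or third coordinate `= 0` (small if `y` is close to `p`).  `Z = y + s₁ v`.  On `[0,s₁)`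
   the path is in `{f < 0, y 2 > 0}`, disjoint from `S.Sig ∪ Disc`: so this piece (preconnected) is in
   `W` or outside the closure.
   If `Z 2 = 0`: `f Z ≤ 0` so `Z` is in the closed unit disc (`plane_pos`).  If `f Z = 0`, `Z 2 > 0`:
   `Z = X (b Z)` with `‖b Z‖ < 1`.
   First suppose `Z` is not on the circle.  If `f Z = 0` and `Z 2 > 0`: the points `Z - s v` (small
   `s > 0`) are not in the closure: use a box `B'` at `b Z` with the same `e` and `lsig`; `B'.f` has
   positive derivative `⟪g', v⟫` along `v`.  If `Z 2 = 0`, `Z` inside the open disc: `ldisc`.  So the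
   piece is outside the closure (`sep`).
   If `Z` is on the circle: `{f < 0, y 2 > 0}` near `p` is open and disjoint from the frontier, so a small ball around `y` is
   entirely in `W` or entirely outside the closure; replace `y` by `y + η Z` (`η > 0` small): the corresponding `Z'`,
   if on the circle, would be (projection to the plane along `v`; `Z 2 = 0`) `Z' = Z + η Z`, of norm
   `1 + η`: impossible.
-/


open scoped RealInnerProductSpace Topology
open Metric Filter Set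


namespace Pool.Agent.H99.SC

theorem LOCP_dir {h : ℝ → ℝ} {d : ℝ} (hd : HasDerivAt h d 0) (h0 : h 0 = 0) (hp : 0 < d) :
    ∀ᶠ s in 𝓝[>] (0 : ℝ), 0 < h s ∧ h (-s) < 0 := by
  have h1 : Tendsto (slope h 0) (𝓝[≠] 0) (𝓝 d) := hasDerivAt_iff_tendsto_slope.1 hd
  have h2 : ∀ᶠ s in 𝓝[≠] (0 : ℝ), 0 < slope h 0 s := h1.eventually (lt_mem_nhds hp)
  have h3 : ∀ᶠ s in 𝓝[>] (0 : ℝ), 0 < slope h 0 s :=
    h2.filter_mono (nhdsWithin_mono _ (fun s hs => ne_of_gt hs))
  have h4 : Tendsto (fun s : ℝ => -s) (𝓝[>] (0 : ℝ)) (𝓝[≠] 0) := by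
    apply tendsto_nhdsWithin_iff.mpr
    constructor
    · have : Tendsto (fun s : ℝ => -s) (𝓝 (0 : ℝ)) (𝓝 (-0)) := continuous_neg.continuousAt.tendsto
      rw [neg_zero] at this
      exact this.mono_left nhdsWithin_le_nhds
    · filter_upwards [self_mem_nhdsWithin] with s hs
      exact neg_ne_zero.mpr (ne_of_gt hs)
  have h5 : ∀ᶠ s in 𝓝[>] (0 : ℝ), 0 < slope h 0 (-s) := h4.eventually h2
  filter_upwards [h3, h5, self_mem_nhdsWithin] with s hs1 hs2 hs3
  have hs : (0:ℝ) < s := hs3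
  rw [slope_def_field, h0] at hs1 hs2
  simp only [sub_zero] at hs1 hs2
  constructor
  · by_contra hcon
    push Not at hcon
    exact absurd (div_nonpos_of_nonpos_of_nonneg hcon hs.le) (not_le.mpr hs1)
  · by_contra hcon
    push Not at hcon
    exact absurd (div_nonpos_of_nonneg_of_nonpos hcon (by linarith)) (not_le.mpr hs2)

/-- derivative of the box function along a line -/
theorem LOCP_hasDeriv (S : Surf) {u₀ : V2} {e : V3} (B : Box S.X u₀ e) {y : V3} (v : V3) (s : ℝ)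
    (hy : y + s • v ∈ B.U B.r) :
    HasDerivAt (fun s : ℝ => B.f (y + s • v)) ⟪B.g (y + s • v), v⟫ s := by
  have h1 : HasFDerivAt B.f (fderiv ℝ B.f (y + s • v)) (y + s • v) :=
    ((B.smooth_f hy).differentiableAt (by norm_num)).hasFDerivAt
  have h2 : HasDerivAt (fun s : ℝ => y + s • v) v s := by
    have := ((hasDerivAt_id s).smul_const v).const_add y
    simpa using this
  have h3 := h1.comp_hasDerivAt s h2
  rw [B.fd S.smooth hy v] at h3
  exact h3

theorem LOCP_side (S : Surf) {u₀ : V2} {e : V3} (B : Box S.X u₀ e) {u : V2} (hu1 : ‖u‖ ≤ 1)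
    (hu : ‖u - u₀‖ < B.r) :
    ∀ᶠ s in 𝓝[>] (0 : ℝ), 0 < B.f (S.X u + s • S.N u) ∧ B.f (S.X u - s • S.N u) < 0 := by
  have hU : S.X u ∈ B.U B.r := ⟨u, 0, hu, by simpa using B.hr, by simp⟩
  have h1 := LOCP_hasDeriv S B (y := S.X u) (S.N u) 0 (by simpa using hU)
  have h2 : 0 < ⟪B.g (S.X u + (0:ℝ) • S.N u), S.N u⟫ := by
    rw [zero_smul, add_zero, B.g_eq hU, B.b_X hu, inner_smul_left]
    have h3 : ⟪NN S.X u, S.N u⟫ = 1 := by
      change ⟪S.N u, S.N u⟫ = 1
      rw [real_inner_self_eq_norm_sq, S.N_norm hu1]; norm_num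
    rw [h3]
    simpa using B.g_pos hU
  have h3 := LOCP_dir h1 (by simpa using B.f_X hu) h2
  filter_upwards [h3] with s hs
  refine ⟨hs.1, ?_⟩
  have h4 := hs.2
  rw [neg_smul, ← sub_eq_add_neg] at h4
  exact h4

theorem LOCP_inside {u₀ : V2} (hu₀ : ‖u₀‖ = 1) {ε : ℝ} (hε : 0 < ε) :
    ∃ u : V2, ‖u - u₀‖ < ε ∧ ‖u‖ < 1 := by
  set η : ℝ := min (ε / 2) (1 / 2) with hη
  have h1 : 0 < η := lt_min (by linarith) (by norm_num)
  have h2 : η ≤ ε / 2 := min_le_left _ _
  have h3 : η ≤ 1 / 2 := min_le_right _ _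
  refine ⟨(1 - η) • u₀, ?_, ?_⟩
  · have : (1 - η) • u₀ - u₀ = (-η) • u₀ := by module
    rw [this, norm_smul, hu₀, Real.norm_eq_abs, abs_neg, abs_of_pos h1]
    linarith
  · rw [norm_smul, hu₀, Real.norm_eq_abs, abs_of_pos (by linarith)]
    linarith

/-- comparison of the signs of two box functions -/
theorem LOCP_cmp (S : Surf) {u₀ : V2} {e e' : V3} (B : Box S.X u₀ e) (B' : Box S.X u₀ e')
    {V : Set V3} (hV : V ∈ 𝓝 (S.X u₀)) {ρ : ℝ} (hρ : 0 < ρ) :
    ∃ ε : ℝ, 0 < ε ∧ ε ≤ B'.r ∧ ε ≤ ρ ∧ B'.U ε ⊆ V ∧ ∀ y ∈ B'.U ε,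
      (B'.f y < 0 → B.f y < 0) ∧ (B.f y < 0 → B'.f y < 0) := by
  have hU := B.mem_U B.hr
  -- positivity of the derivative
  have h1 : 0 < ⟪B.g (S.X u₀), e'⟫ := by
    unfold Box.g
    rw [B.b_X (by simpa using B.hr), inner_smul_left]
    have h2 := B.pos u₀ (by simpa using B.hr)
    have h3 := B'.pos u₀ (by simpa using B'.hr)
    simp only [RCLike.conj_to_real]
    positivity
  have h2 : ContinuousAt (fun y => ⟪B.g y, e'⟫) (S.X u₀) :=
    (B.g_cont S.smooth hU).inner continuousAt_const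
  have h3 : {y | y ∈ B.U B.r ∧ 0 < ⟪B.g y, e'⟫} ∈ 𝓝 (S.X u₀) := by
    filter_upwards [B.U_nhds B.hr le_rfl, h2.eventually (lt_mem_nhds h1)] with y hy1 hy2
    exact ⟨hy1, hy2⟩
  obtain ⟨ε₀, hε₀, hε₀r, hε₀V⟩ := B'.small S.smooth.continuous (inter_mem h3 hV)
  refine ⟨min ε₀ (min ρ B.r), lt_min hε₀ (lt_min hρ B.hr), (min_le_left _ _).trans hε₀r,
    (min_le_right _ _).trans (min_le_left _ _), ?_, ?_⟩
  · intro y hy
    exact (hε₀V (B'.U_mono (min_le_left _ _) hy)).2
  · intro y hy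
    set ε := min ε₀ (min ρ B.r) with hε
    have hεr : ε ≤ B'.r := (min_le_left _ _).trans hε₀r
    have hεB : ε ≤ B.r := (min_le_right _ _).trans (min_le_right _ _)
    obtain ⟨u, s, hu, hs, rfl⟩ := hy
    have hf' : B'.f (S.X u + s • e') = s := (B'.left u s (hu.trans_le hεr) (hs.trans_le hεr)).2
    rw [hf']
    have hseg : ∀ τ : ℝ, |τ| < ε → S.X u + τ • e' ∈ B.U B.r ∧ 0 < ⟪B.g (S.X u + τ • e'), e'⟫ := by
      intro τ hτ
      have h4 : S.X u + τ • e' ∈ B'.U ε := ⟨u, τ, hu, hτ, rfl⟩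
      exact (hε₀V (B'.U_mono (min_le_left _ _) h4)).1
    have hmono : StrictMonoOn (fun τ : ℝ => B.f (S.X u + τ • e')) (Ioo (-ε) ε) := by
      apply strictMonoOn_of_deriv_pos (convex_Ioo _ _)
      · intro τ hτ
        exact (LOCP_hasDeriv S B e' τ (hseg τ (abs_lt.mpr hτ)).1).continuousAt.continuousWithinAt
      · intro τ hτ
        rw [interior_Ioo] at hτ
        rw [(LOCP_hasDeriv S B e' τ (hseg τ (abs_lt.mpr hτ)).1).deriv]
        exact (hseg τ (abs_lt.mpr hτ)).2
    have hε0 : 0 < ε := lt_min hε₀ (lt_min hρ B.hr)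
    have h0 : B.f (S.X u + (0:ℝ) • e') = 0 := by
      rw [zero_smul, add_zero]
      exact B.f_X (hu.trans_le hεB)
    have hs' : s ∈ Ioo (-ε) ε := abs_lt.mp hs
    have h0' : (0:ℝ) ∈ Ioo (-ε) ε := ⟨by linarith, hε0⟩
    constructor
    · intro hs0
      have := hmono hs' h0' hs0
      simp only [h0] at this
      exact this
    · intro hs0
      by_contra hcon
      push Not at hcon
      have := hmono.monotoneOn h0' hs' hcon
      simp only [h0] at this
      linarith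

theorem LOCP_pre (S : Surf) {u₀ : V2} {e' : V3} (B' : Box S.X u₀ e') (he'2 : e' 2 = 1) {ε' : ℝ}
    (hε'0 : 0 < ε') (hε'r : ε' ≤ B'.r)
    (h3 : ∀ u : V2, ‖u - u₀‖ < ε' → (0 < (S.X u) 2 → ‖u‖ < 1) ∧ (‖u‖ < 1 → 0 < (S.X u) 2)) :
    IsPreconnected {y | y ∈ B'.U ε' ∧ B'.f y < 0 ∧ 0 < y 2} := by
  let Φ : V2 × ℝ → V3 := fun q => S.X q.1 + (-(q.2 * min ε' ((S.X q.1) 2))) • e'
  have hΦ : Continuous Φ := by
    have h4 : Continuous (fun q : V2 × ℝ => (S.X q.1) 2) :=
      (EuclideanSpace.proj (𝕜 := ℝ) (2 : Fin 3)).continuous.comp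
        (S.smooth.continuous.comp continuous_fst)
    exact (S.smooth.continuous.comp continuous_fst).add
      (((continuous_snd.mul (continuous_const.min h4)).neg).smul continuous_const)
  have himg : {y | y ∈ B'.U ε' ∧ B'.f y < 0 ∧ 0 < y 2} =
      Φ '' ((ball u₀ ε' ∩ ball 0 1) ×ˢ Ioo (0:ℝ) 1) := by
    ext y
    constructor
    · rintro ⟨⟨u, s, hu, hs, rfl⟩, hy2, hy3⟩
      have hf' := (B'.left u s (hu.trans_le hε'r) (hs.trans_le hε'r)).2
      rw [hf'] at hy2
      simp only [PiLp.add_apply, PiLp.smul_apply, smul_eq_mul, he'2, mul_one] at hy3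
      have hX2 : 0 < (S.X u) 2 := by linarith
      have hu1 := (h3 u hu).1 hX2
      have hm : 0 < min ε' ((S.X u) 2) := lt_min hε'0 hX2
      refine ⟨(u, -s / min ε' ((S.X u) 2)), ⟨⟨?_, ?_⟩, ?_, ?_⟩, ?_⟩
      · rwa [mem_ball, dist_eq_norm]
      · rwa [mem_ball_zero_iff]
      · exact div_pos (by linarith) hm
      · change -s / min ε' ((S.X u) 2) < 1
        rw [div_lt_one hm]
        apply lt_min
        · linarith [(abs_lt.mp hs).1]
        · linarith
      · change S.X u + (-(-s / min ε' ((S.X u) 2) * min ε' ((S.X u) 2))) • e' = _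
        rw [div_mul_cancel₀ _ hm.ne', neg_neg]
    · rintro ⟨⟨u, τ⟩, ⟨⟨hu1, hu2⟩, hτ0, hτ1⟩, rfl⟩
      rw [mem_ball, dist_eq_norm] at hu1
      rw [mem_ball_zero_iff] at hu2
      change 0 < τ at hτ0
      change τ < 1 at hτ1
      have hX2 : 0 < (S.X u) 2 := (h3 u hu1).2 hu2
      have hm : 0 < min ε' ((S.X u) 2) := lt_min hε'0 hX2
      have hm1 : min ε' ((S.X u) 2) ≤ ε' := min_le_left _ _
      have hm2 : min ε' ((S.X u) 2) ≤ (S.X u) 2 := min_le_right _ _
      have hs : |-(τ * min ε' ((S.X u) 2))| < ε' := by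
        rw [abs_neg, abs_of_pos (mul_pos hτ0 hm)]
        nlinarith
      refine ⟨⟨u, _, hu1, hs, rfl⟩, ?_, ?_⟩
      · change B'.f (S.X u + (-(τ * min ε' ((S.X u) 2))) • e') < 0
        rw [(B'.left u _ (hu1.trans_le hε'r) (hs.trans_le hε'r)).2]
        have := mul_pos hτ0 hm
        linarith
      · change 0 < (S.X u + (-(τ * min ε' ((S.X u) 2))) • e') 2
        simp only [PiLp.add_apply, PiLp.smul_apply, smul_eq_mul, he'2, mul_one]
        nlinarith
  rw [himg]
  apply IsPreconnected.image _ _ hΦ.continuousOn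
  have hc : IsPreconnected (ball u₀ ε' ∩ ball (0 : V2) 1) :=
    ((convex_ball u₀ ε').inter (convex_ball 0 1)).isPreconnected
  exact hc.prod isPreconnected_Ioo

theorem loc_pos {S : Surf} (D : PreDom S) {u₀ : V2} (hu₀ : ‖u₀‖ = 1) (h : 0 < S.Nr u₀) {e : V3}
    (B : Box S.X u₀ e) : ∀ᶠ y in 𝓝 (S.X u₀),
      (0 < B.f y → y ∈ D.W) ∧ (y 2 < 0 → y ∈ D.W) ∧
      (B.f y < 0 → 0 < y 2 → y ∉ closure D.W) := by
  have hbd := S.bd1 hu₀
  set p := S.X u₀ with hp
  have hpn : ‖p‖ = 1 := by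
    have h1 : ‖p‖ ^ 2 = 1 := by rw [nsq, hbd.1]; linarith [hbd.2]
    nlinarith [norm_nonneg p]
  have hder : (fderiv ℝ S.X u₀ u₀) 2 < 0 := by
    rw [S.Xr_2 hu₀]
    have := ori D hu₀
    nlinarith
  have h3 := h3_pos S hu₀ hder
  obtain ⟨ρ, hρ, h3⟩ := Metric.eventually_nhds_iff.mp h3
  have h3' : ∀ u : V2, ‖u - u₀‖ < ρ → (‖u‖ ≤ 1 → 0 ≤ (S.X u) 2) ∧ (0 < (S.X u) 2 → ‖u‖ < 1) ∧
      (‖u‖ < 1 → 0 < (S.X u) 2) := by
    intro u hu
    have h4 := h3 (y := u) (by rwa [dist_eq_norm])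
    refine ⟨fun h5 => ?_, fun h5 => ?_, h4.1⟩
    · rcases h5.lt_or_eq with h6 | h6
      · exact (h4.1 h6).le
      · exact (S.bd1 h6).1.ge
    · by_contra hcon
      rcases (not_lt.mp hcon).lt_or_eq with h6 | h6
      · linarith [h4.2 h6]
      · linarith [(S.bd1 h6.symm).1]
  have hV := (plane_pos S hu₀ h B).and (box_sig' S hu₀ B)
  obtain ⟨ε₀, hε₀, hε₀r, hε₀V⟩ := B.small S.smooth.continuous hV
  set ε := min ε₀ ρ with hε
  have hε0 : 0 < ε := lt_min hε₀ hρ
  have hεr : ε ≤ B.r := (min_le_left _ _).trans hε₀r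
  have hερ : ε ≤ ρ := min_le_right _ _
  have hεV : ∀ y ∈ B.U ε, _ := fun y hy => hε₀V (B.U_mono (min_le_left _ _) hy)
  -- (a)
  have ha : ∀ y ∈ B.U ε, 0 < B.f y → y ∈ D.W := by
    have hpre := B.preconn_pos S.smooth.continuous hε0 hεr
    have hdis : Disjoint {y | y ∈ B.U ε ∧ 0 < B.f y} (frontier D.W) := by
      rw [Set.disjoint_left]
      rintro y ⟨hy1, hy2⟩ hy3
      obtain ⟨h4, h5⟩ := hεV y hy1
      rcases D.fr hy3 with h6 | h6
      · have := (h5.1 h6).1
        linarith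
      · have h7 := h4 h6.1
        rcases h6.2.lt_or_eq with h8 | h8
        · linarith [h7.2.1 h8]
        · linarith [h7.1 h8]
    obtain ⟨u, hu1, hu2⟩ := LOCP_inside hu₀ hε0
    obtain ⟨ε₁, hε₁, hin⟩ := D.inS u hu2
    have hside := LOCP_side S B hu2.le (hu1.trans_le hεr)
    have hUe : S.X u ∈ B.U ε := ⟨u, 0, hu1, by simpa using hε0, by simp⟩
    have hcont : Tendsto (fun s : ℝ => S.X u + s • S.N u) (𝓝[>] 0) (𝓝 (S.X u)) := by
      have : Tendsto (fun s : ℝ => S.X u + s • S.N u) (𝓝 0) (𝓝 (S.X u + (0:ℝ) • S.N u)) :=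
        (continuous_const.add (continuous_id.smul continuous_const)).continuousAt.tendsto
      rw [zero_smul, add_zero] at this
      exact this.mono_left nhdsWithin_le_nhds
    have hev := (hside.and (hcont.eventually ((B.U_open hε0 hεr).mem_nhds hUe))).and
      (Ioo_mem_nhdsGT hε₁ : Ioo 0 ε₁ ∈ 𝓝[>] (0:ℝ))
    obtain ⟨s, ⟨⟨hs1, _⟩, hs2⟩, hs3⟩ := hev.exists
    intro y hy1 hy2
    rcases sep D.isOpen hpre hdis with h4 | h4
    · exact h4 ⟨hy1, hy2⟩
    · exfalso
      exact h4 ⟨hs2, hs1⟩ (subset_closure (hin s hs3.1 hs3.2).1)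
  -- (b)
  have hb : ∀ᶠ y in 𝓝 p, y 2 < 0 → y ∈ D.W := by
    obtain ⟨δ, hδ, hball⟩ := Metric.mem_nhds_iff.mp (B.U_nhds hε0 hεr)
    have hconv : Convex ℝ ({y : V3 | y ∈ ball p δ ∧ y 2 < 0}) := by
      have h4 : Convex ℝ {y : V3 | y 2 < 0} := by
        intro x hx y hy a b ha hb hab
        simp only [mem_ofPred_eq] at hx hy ⊢
        simp only [PiLp.add_apply, PiLp.smul_apply, smul_eq_mul]
        rcases ha.lt_or_eq with ha' | ha'
        · nlinarith
        · rw [← ha'] at hab ⊢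
          have : b = 1 := by linarith
          rw [this]; linarith
      exact (convex_ball p δ).inter h4
    have hdis : Disjoint {y : V3 | y ∈ ball p δ ∧ y 2 < 0} (frontier D.W) := by
      rw [Set.disjoint_left]
      rintro y ⟨hy1, hy2⟩ hy3
      have hyU := hball hy1
      obtain ⟨h4, h5⟩ := hεV y hyU
      rcases D.fr hy3 with h6 | h6
      · obtain ⟨h7, h8⟩ := h5.1 h6
        obtain ⟨h9, h10, h11⟩ := B.coord hεr hyU
        rw [h7, zero_smul, add_zero] at h11
        have h12 := (h3' (B.b y) (h9.trans_le hερ)).1 h8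
        rw [h11] at h12
        linarith
      · linarith [h6.1]
    set η : ℝ := min (δ / 2) (1 / 2) with hη
    have hη0 : 0 < η := lt_min (by linarith) (by norm_num)
    have hη1 : η ≤ δ / 2 := min_le_left _ _
    have hη2 : η ≤ 1 / 2 := min_le_right _ _
    obtain ⟨ε₁, hε₁, hin⟩ := D.inD ((1 - η) • p) (by simp [hbd.1]) (by
      simp only [PiLp.smul_apply, smul_eq_mul]
      have : ((1 - η) * p 0) ^ 2 + ((1 - η) * p 1) ^ 2 = (1 - η) ^ 2 * (p 0 ^ 2 + p 1 ^ 2) := by ring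
      rw [this, hbd.2]
      nlinarith)
    set s : ℝ := min (ε₁ / 2) (δ / 4) with hs
    have hs0 : 0 < s := lt_min (by linarith) (by linarith)
    have hs1 : s < ε₁ := lt_of_le_of_lt (min_le_left _ _) (by linarith)
    have hs2 : s ≤ δ / 4 := min_le_right _ _
    have hE : ‖E3‖ = 1 := by
      have h1 : ‖E3‖ ^ 2 = 1 := by rw [nsq]; simp
      nlinarith [norm_nonneg E3]
    have hmem : (1 - η) • p - s • E3 ∈ {y : V3 | y ∈ ball p δ ∧ y 2 < 0} := by
      constructor
      · rw [mem_ball, dist_eq_norm]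
        have h4 : (1 - η) • p - s • E3 - p = -(η • p + s • E3) := by module
        rw [h4, norm_neg]
        calc ‖η • p + s • E3‖ ≤ ‖η • p‖ + ‖s • E3‖ := norm_add_le _ _
          _ = η + s := by
              rw [norm_smul, norm_smul, hpn, hE, Real.norm_eq_abs, Real.norm_eq_abs,
                abs_of_pos hη0, abs_of_pos hs0]
              ring
          _ < δ := by linarith
      · simp only [PiLp.sub_apply, PiLp.smul_apply, smul_eq_mul, hbd.1, E3_2]
        linarith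
    filter_upwards [ball_mem_nhds p hδ] with y hy1 hy2
    rcases sep D.isOpen hconv.isPreconnected hdis with h4 | h4
    · exact h4 ⟨hy1, hy2⟩
    · exfalso
      exact h4 hmem (subset_closure (hin s hs0 hs1).1)
  -- (c)
  have hN2 : |S.N u₀ 2| ≤ 1 := by
    have h4 := S.N_norm hu₀.le
    have h5 : ‖S.N u₀‖ ^ 2 = 1 := by rw [h4]; norm_num
    rw [nsq] at h5
    rw [abs_le]
    constructor <;> nlinarith [sq_nonneg (S.N u₀ 0), sq_nonneg (S.N u₀ 1)]
  set M : ℝ := 2 / S.Nr u₀ with hM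
  set e' : V3 := E3 + M • p with he'
  have he'2 : e' 2 = 1 := by
    simp [he', hbd.1]
  have hpos' : 0 < ⟪nn S.X u₀, e'⟫ := by
    rw [S.nn_eq hu₀.le, inner_smul_left]
    have h4 : ⟪S.N u₀, e'⟫ = S.N u₀ 2 + M * S.Nr u₀ := by
      rw [he', inner_add_right, inner_smul_right]
      have h5 : ⟪S.N u₀, E3⟫ = S.N u₀ 2 := by rw [ip]; simp
      rw [h5]
      rfl
    have h5 : M * S.Nr u₀ = 2 := by rw [hM]; field_simp
    rw [h4, h5]
    have h6 := S.nn_pos hu₀.le
    have h7 := (abs_le.mp hN2).1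
    simp only [RCLike.conj_to_real]
    apply mul_pos h6
    linarith
  obtain ⟨B'⟩ := exists_box S.smooth hpos'
  obtain ⟨ε', hε'0, hε'r, hε'ρ, hε'V, hcmp⟩ :=
    LOCP_cmp S B B' (B.U_nhds hε0 hεr) hρ
  have hQpre := LOCP_pre S B' he'2 hε'0 hε'r
    (fun u hu => (h3' u (hu.trans_le hε'ρ)).2)
  have hQdis : Disjoint {y | y ∈ B'.U ε' ∧ B'.f y < 0 ∧ 0 < y 2} (frontier D.W) := by
    rw [Set.disjoint_left]
    rintro y ⟨hy1, hy2, hy3⟩ hy4
    have hyf := (hcmp y hy1).1 hy2
    obtain ⟨h4, h5⟩ := hεV y (hε'V hy1)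
    rcases D.fr hy4 with h6 | h6
    · linarith [(h5.1 h6).1]
    · linarith [h6.1]
  have hQ : {y | y ∈ B'.U ε' ∧ B'.f y < 0 ∧ 0 < y 2} ⊆ (closure D.W)ᶜ := by
    obtain ⟨u, hu1, hu2⟩ := LOCP_inside hu₀ hε'0
    obtain ⟨ε₁, hε₁, hin⟩ := D.inS u hu2
    have hside := LOCP_side S B' hu2.le (hu1.trans_le hε'r)
    have hUe : S.X u ∈ B'.U ε' := ⟨u, 0, hu1, by simpa using hε'0, by simp⟩
    have hX2 := (h3' u (hu1.trans_le hε'ρ)).2.2 hu2
    have hcont : Tendsto (fun s : ℝ => S.X u - s • S.N u) (𝓝[>] 0) (𝓝 (S.X u)) := by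
      have : Tendsto (fun s : ℝ => S.X u - s • S.N u) (𝓝 0) (𝓝 (S.X u - (0:ℝ) • S.N u)) :=
        (continuous_const.sub (continuous_id.smul continuous_const)).continuousAt.tendsto
      rw [zero_smul, sub_zero] at this
      exact this.mono_left nhdsWithin_le_nhds
    have hopen1 : IsOpen {y : V3 | 0 < y 2} :=
      isOpen_lt continuous_const (EuclideanSpace.proj (𝕜 := ℝ) (2 : Fin 3)).continuous
    have hopen2 : {y : V3 | 0 < y 2} ∈ 𝓝 (S.X u) := hopen1.mem_nhds (show 0 < (S.X u) 2 from hX2)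
    have hev := ((hside.and (hcont.eventually ((B'.U_open hε'0 hε'r).mem_nhds hUe))).and
      (hcont.eventually hopen2)).and (Ioo_mem_nhdsGT hε₁ : Ioo 0 ε₁ ∈ 𝓝[>] (0:ℝ))
    obtain ⟨s, ⟨⟨⟨_, hs1⟩, hs2⟩, hs4⟩, hs3⟩ := hev.exists
    rcases sep D.isOpen hQpre hQdis with h4 | h4
    · exfalso
      exact (hin s hs3.1 hs3.2).2 (subset_closure (h4 ⟨hs2, hs1, hs4⟩))
    · exact h4
  filter_upwards [B.U_nhds hε0 hεr, hb, B'.U_nhds hε'0 hε'r] with y hy1 hy2 hy3
  exact ⟨ha y hy1, hy2, fun h4 h5 => hQ ⟨hy3, (hcmp y hy3).2 h4, h5⟩⟩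

end Pool.Agent.H99.SC

end S_LOCP

section S_LOCZ

/-!
# LOCZ: the domain near a boundary point with `N = -E3`

`‖u₀‖ = 1`, `p = S.X u₀`, box `B` at `u₀` (any `e`).  `r^2 = y 0^2 + y 1^2`.  `Xr_p`, `ori`:
`⟪fderiv X u₀ u₀, p⟫ = N_3 β = -β < 0`, so `r > 1` at inside points and `r < 1` at outside points (`hr_out`).
`B.f` increases downwards: `Df E3 = ⟪g,E3⟫ < 0` near `p` (`g` is a positive multiple of `N`, near
`-E3`).  All points below are in a small `B.U ε` (`box_sig`).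
 (a) `r > 1, f y > 0 → y ∈ W`: go up from `y` (`y + s E3`) until `f = 0` (soon if `y` is near `p`): a point
   `Z = X v` with `r > 1`, so `‖v‖ < 1`; the path before `Z` avoids `S.Sig` (`f > 0`) and `Disc`
   (`r > 1`); just below `Z` the points are in `W` (box `B'` at `v` with the same `e`, `lsig`,
   `B'.f` decreases along `E3`): `sep`.
 (b) `r > 1, f y < 0 → y ∉ closure W`: go down until `f = 0`, same.
 (c) `f y > 0, y 2 < 0 → y ∈ W`: if `r > 1` this is (a); if `r < 1`: go up vertically to the disc, the path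
   avoids `S.Sig` (points of `S.Sig` near `p` have `r ≥ 1`), just below the disc is `W` (`ldisc`);
   if `r = 1`: the set `{f > 0, y 2 < 0}` is open near `y` and avoids the frontier, so a small ball around
   `y` is in `W` or outside the closure, and it contains points with `r < 1`.
 (d) `f y < 0, y 2 > 0 → y ∉ closure W`: if `r > 1` this is (b), if `r < 1` go down
   vertically to the disc (just above it: not in the closure), `r = 1`: as in (c).
-/


open scoped RealInnerProductSpace Topology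
open Metric Filter Set


namespace Pool.Agent.H99.SC

theorem LOCZ_norm_E3 : ‖E3‖ = 1 := by
  have h : ‖E3‖ ^ 2 = 1 := by rw [nsq]; simp
  nlinarith [norm_nonneg E3]

/-- derivative of `f` along a line -/
theorem LOCZ_line {X : V2 → V3} {u₀ : V2} {e : V3} (B : Box X u₀ e) (hX : ContDiff ℝ 2 X)
    {y v : V3} {s : ℝ} (hy : y + s • v ∈ B.U B.r) :
    HasDerivAt (fun t : ℝ => B.f (y + t • v)) ⟪B.g (y + s • v), v⟫ s := by
  have h1 := ((B.smooth_f hy).differentiableAt (by norm_num)).hasFDerivAt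
  have h2 : HasDerivAt (fun t : ℝ => y + t • v) v s := by
    simpa using ((hasDerivAt_id s).smul_const v).const_add y
  have h3 := h1.comp_hasDerivAt s h2
  rw [B.fd hX hy] at h3
  exact h3

/-- following a direction in which `σ f` decreases until `f = 0` -/
theorem LOCZ_path {X : V2 → V3} {u₀ : V2} {e : V3} (B : Box X u₀ e) (hX : ContDiff ℝ 2 X)
    {p v : V3} (hv : ‖v‖ = 1) {δ c σ : ℝ} (hδ : 0 < δ) (hc : 0 < c)
    (h : ∀ z ∈ ball p δ, z ∈ B.U B.r ∧ σ * ⟪B.g z, v⟫ < -c) {y : V3} (hy : y ∈ ball p (δ / 2))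
    (h0 : 0 < σ * B.f y) (h1 : σ * B.f y < c * (δ / 2)) :
    ∃ s₁ : ℝ, 0 < s₁ ∧ s₁ ≤ δ / 2 ∧ B.f (y + s₁ • v) = 0 ∧
      ∀ s : ℝ, 0 ≤ s → s < s₁ → 0 < σ * B.f (y + s • v) := by
  have hb : ∀ s : ℝ, 0 ≤ s → s ≤ δ / 2 → y + s • v ∈ ball p δ := by
    intro s hs hs'
    rw [mem_ball, dist_eq_norm] at hy ⊢
    have e1 : y + s • v - p = (y - p) + s • v := by abel
    rw [e1]
    refine (norm_add_le _ _).trans_lt ?_
    rw [norm_smul, hv, mul_one, Real.norm_eq_abs, abs_of_nonneg hs]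
    linarith
  have hd : ∀ s : ℝ, 0 ≤ s → s ≤ δ / 2 →
      HasDerivAt (fun t : ℝ => σ * B.f (y + t • v)) (σ * ⟪B.g (y + s • v), v⟫) s := by
    intro s hs hs'
    exact (LOCZ_line B hX (h _ (hb s hs hs')).1).const_mul σ
  have hcont : ContinuousOn (fun t : ℝ => σ * B.f (y + t • v)) (Icc 0 (δ / 2)) := fun s hs =>
    (hd s hs.1 hs.2).continuousAt.continuousWithinAt
  have hmv : ∀ s t : ℝ, 0 ≤ s → s ≤ t → t ≤ δ / 2 →
      σ * B.f (y + t • v) - σ * B.f (y + s • v) ≤ -c * (t - s) := by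
    intro s t hs hst ht
    refine Convex.image_sub_le_mul_sub_of_deriv_le (convex_Icc 0 (δ / 2)) hcont ?_ ?_ s
      ⟨hs, hst.trans ht⟩ t ⟨hs.trans hst, ht⟩ hst
    · intro x hx
      rw [interior_Icc] at hx
      exact (hd x hx.1.le hx.2.le).differentiableAt.differentiableWithinAt
    · intro x hx
      rw [interior_Icc] at hx
      rw [(hd x hx.1.le hx.2.le).deriv]
      exact (h _ (hb x hx.1.le hx.2.le)).2.le
  have hz : (fun t : ℝ => σ * B.f (y + t • v)) 0 = σ * B.f y := by simp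
  have hiv := intermediate_value_Icc' (show (0 : ℝ) ≤ δ / 2 by linarith) hcont
  have hmem : (0 : ℝ) ∈ Icc (σ * B.f (y + (δ / 2) • v)) (σ * B.f (y + (0 : ℝ) • v)) := by
    constructor
    · have := hmv 0 (δ / 2) le_rfl (by linarith) le_rfl
      simp only [zero_smul, add_zero, sub_zero] at this
      linarith
    · simp only [zero_smul, add_zero]
      exact h0.le
  obtain ⟨s₁, hs₁, hs₂⟩ := hiv hmem
  have hσ : σ ≠ 0 := by
    rintro rfl
    simp at h0
  have hs0 : 0 < s₁ := by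
    rcases hs₁.1.eq_or_lt with h2 | h2
    · rw [← h2] at hs₂
      simp only [zero_smul, add_zero] at hs₂
      exact absurd hs₂ h0.ne'
    · exact h2
  refine ⟨s₁, hs0, hs₁.2, (mul_eq_zero.1 hs₂).resolve_left hσ, ?_⟩
  intro s hs hss
  have h3 := hmv s s₁ hs hss.le hs₁.2
  have h4 : σ * B.f (y + s₁ • v) = 0 := hs₂
  nlinarith

/-- a segment avoiding the surface and the disc -/
theorem LOCZ_seg {S : Surf} (D : PreDom S) {y v : V3} {s₁ : ℝ} (h0 : 0 < s₁)
    (hav : ∀ s : ℝ, 0 ≤ s → s < s₁ → y + s • v ∉ S.Sig ∪ Disc) :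
    (∀ s : ℝ, 0 ≤ s → s < s₁ → y + s • v ∈ D.W → y ∈ D.W) ∧
    (∀ s : ℝ, 0 ≤ s → s < s₁ → y + s • v ∉ closure D.W → y ∉ closure D.W) := by
  have hA : IsPreconnected ((fun s : ℝ => y + s • v) '' Ico 0 s₁) :=
    isPreconnected_Ico.image _ (by fun_prop)
  have hdis : Disjoint ((fun s : ℝ => y + s • v) '' Ico 0 s₁) (frontier D.W) := by
    rw [Set.disjoint_left]
    rintro z ⟨s, hs, rfl⟩ hz
    exact hav s hs.1 hs.2 (D.fr hz)
  have hy : y ∈ (fun s : ℝ => y + s • v) '' Ico 0 s₁ := ⟨0, ⟨le_rfl, h0⟩, by simp⟩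
  rcases sep D.isOpen hA hdis with h | h
  · refine ⟨fun _ _ _ _ => h hy, fun s hs hs' h1 => ?_⟩
    exact absurd (subset_closure (h ⟨s, ⟨hs, hs'⟩, rfl⟩)) h1
  · refine ⟨fun s hs hs' h1 => ?_, fun _ _ _ _ => h hy⟩
    exact absurd (subset_closure h1) (h ⟨s, ⟨hs, hs'⟩, rfl⟩)

/-- a ball avoiding the surface and the disc -/
theorem LOCZ_ball {S : Surf} (D : PreDom S) {y z : V3} {κ : ℝ} (h0 : 0 < κ)
    (hav : ∀ x ∈ ball y κ, x ∉ S.Sig ∪ Disc) (hz : z ∈ ball y κ) :
    (z ∈ D.W → y ∈ D.W) ∧ (z ∉ closure D.W → y ∉ closure D.W) := by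
  have hA : IsPreconnected (ball y κ) := (convex_ball y κ).isPreconnected
  have hdis : Disjoint (ball y κ) (frontier D.W) := by
    rw [Set.disjoint_left]
    intro x hx hx'
    exact hav x hx (D.fr hx')
  have hy : y ∈ ball y κ := mem_ball_self h0
  rcases sep D.isOpen hA hdis with h | h
  · exact ⟨fun _ => h hy, fun h1 => absurd (subset_closure (h hz)) h1⟩
  · exact ⟨fun h1 => absurd (subset_closure h1) (h hz), fun _ => h hy⟩

/-- the domain near an interior point of the surface, seen in a box with centre elsewhere -/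
theorem LOCZ_end {S : Surf} (D : PreDom S) {u₀ : V2} {e : V3} (B : Box S.X u₀ e) {Z v : V3}
    (hZ : Z ∈ B.U B.r) (hf : B.f Z = 0) (hb : ‖B.b Z‖ < 1) :
    (⟪B.g Z, v⟫ < 0 → ∀ᶠ t in 𝓝[<] (0 : ℝ), Z + t • v ∈ D.W) ∧
    (0 < ⟪B.g Z, v⟫ → ∀ᶠ t in 𝓝[<] (0 : ℝ), Z + t • v ∉ closure D.W) := by
  obtain ⟨B'⟩ := exists_box S.smooth (B.pos' hZ)
  obtain ⟨ε, h1, h2, h3⟩ := lsig D hb B'
  have hc := B.coord le_rfl hZ
  have hXZ : S.X (B.b Z) = Z := by
    have := hc.2.2
    rw [hf, zero_smul, add_zero] at this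
    exact this
  have hZ' : Z ∈ B'.U B'.r := by
    have := B'.mem_U B'.hr
    rw [hXZ] at this
    exact this
  have hb' : B'.b Z = B.b Z := by
    have := B'.b_X (u := B.b Z) (by simpa using B'.hr)
    rw [hXZ] at this
    exact this
  have hf' : B'.f Z = 0 := by
    have := B'.f_X (u := B.b Z) (by simpa using B'.hr)
    rw [hXZ] at this
    exact this
  have hg' : B'.g Z = B.g Z := by
    unfold Box.g
    rw [hb']
  have hder : HasDerivAt (fun t : ℝ => B'.f (Z + t • v)) ⟪B.g Z, v⟫ 0 := by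
    have hZ0 : Z + (0 : ℝ) • v ∈ B'.U B'.r := by simpa using hZ'
    have := LOCZ_line B' S.smooth hZ0
    rw [zero_smul, add_zero, hg'] at this
    exact this
  have hnh : ∀ᶠ t in 𝓝[<] (0 : ℝ), Z + t • v ∈ B'.U ε := by
    have hU : B'.U ε ∈ 𝓝 Z := by
      have := B'.U_nhds h1 h2
      rw [hXZ] at this
      exact this
    have hco : ContinuousAt (fun t : ℝ => Z + t • v) 0 := by fun_prop
    have : Tendsto (fun t : ℝ => Z + t • v) (𝓝 0) (𝓝 Z) := by
      have := hco.tendsto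
      simpa using this
    exact (this.eventually hU).filter_mono nhdsWithin_le_nhds
  have hsl := (hasDerivAt_iff_tendsto_slope_zero.1 hder).mono_left
    (show 𝓝[<] (0 : ℝ) ≤ 𝓝[≠] 0 from nhdsWithin_mono _ (fun x hx => ne_of_lt hx))
  constructor
  · intro hneg
    filter_upwards [hnh, hsl.eventually_lt_const hneg, self_mem_nhdsWithin] with t ht1 ht2 ht3
    have ht3' : t < 0 := ht3
    rw [(h3 _ ht1).2.2.2.1]
    simp only [zero_add, zero_smul, add_zero, hf', sub_zero, smul_eq_mul] at ht2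
    have : t⁻¹ < 0 := inv_lt_zero.2 ht3'
    by_contra hcon
    push Not at hcon
    have := mul_nonneg_of_nonpos_of_nonpos this.le hcon
    linarith
  · intro hpos
    filter_upwards [hnh, hsl.eventually_const_lt hpos, self_mem_nhdsWithin] with t ht1 ht2 ht3
    have ht3' : t < 0 := ht3
    rw [(h3 _ ht1).2.2.2.2]
    simp only [zero_add, zero_smul, add_zero, hf', sub_zero, smul_eq_mul] at ht2
    have : t⁻¹ < 0 := inv_lt_zero.2 ht3'
    intro hcon
    have := mul_nonpos_of_nonpos_of_nonneg this.le hcon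
    linarith

/-- combination: going along `v` until the surface is met at an interior point -/
theorem LOCZ_go {S : Surf} (D : PreDom S) {u₀ : V2} {e : V3} (B : Box S.X u₀ e) {y v : V3}
    {s₁ : ℝ} (h0 : 0 < s₁) (hZ : y + s₁ • v ∈ B.U B.r) (hf : B.f (y + s₁ • v) = 0)
    (hb : ‖B.b (y + s₁ • v)‖ < 1)
    (hav : ∀ s : ℝ, 0 ≤ s → s < s₁ → y + s • v ∉ S.Sig ∪ Disc) :
    (⟪B.g (y + s₁ • v), v⟫ < 0 → y ∈ D.W) ∧ (0 < ⟪B.g (y + s₁ • v), v⟫ → y ∉ closure D.W) := by
  have hend := LOCZ_end D B (v := v) hZ hf hb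
  have hseg := LOCZ_seg D h0 hav
  have hlt : ∀ᶠ t in 𝓝[<] (0 : ℝ), -s₁ < t :=
    (lt_mem_nhds (show -s₁ < 0 by linarith)).filter_mono nhdsWithin_le_nhds
  constructor
  · intro h
    obtain ⟨t, ht1, ht2, ht3⟩ := ((hend.1 h).and (hlt.and self_mem_nhdsWithin)).exists
    have ht3' : t < 0 := ht3
    refine hseg.1 (s₁ + t) (by linarith) (by linarith) ?_
    have : y + (s₁ + t) • v = y + s₁ • v + t • v := by module
    rw [this]
    exact ht1
  · intro h
    obtain ⟨t, ht1, ht2, ht3⟩ := ((hend.2 h).and (hlt.and self_mem_nhdsWithin)).exists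
    have ht3' : t < 0 := ht3
    refine hseg.2 (s₁ + t) (by linarith) (by linarith) ?_
    have : y + (s₁ + t) • v = y + s₁ • v + t • v := by module
    rw [this]
    exact ht1

/-- inside the cylinder: vertical path to the disc -/
theorem LOCZ_in {S : Surf} (D : PreDom S) {y : V3} (hr : y 0 ^ 2 + y 1 ^ 2 < 1) :
    (y 2 < 0 → (∀ s : ℝ, 0 ≤ s → s < -y 2 → y + s • E3 ∉ S.Sig) → y ∈ D.W) ∧
    (0 < y 2 → (∀ s : ℝ, 0 ≤ s → s < y 2 → y + s • (-E3) ∉ S.Sig) → y ∉ closure D.W) := by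
  constructor
  · intro h2 hS
    have hseg := LOCZ_seg D (y := y) (v := E3) (s₁ := -y 2) (by linarith) (by
      intro s hs hs' hmem
      rcases hmem with hmem | hmem
      · exact hS s hs hs' hmem
      · have := hmem.1
        simp at this
        linarith)
    set d : V3 := y + (-y 2) • E3 with hd
    have hd2 : d 2 = 0 := by simp [hd]
    have hd1 : d 0 ^ 2 + d 1 ^ 2 < 1 := by simpa [hd] using hr
    obtain ⟨ε, h1, h3⟩ := ldisc D hd2 hd1
    set t : ℝ := min (-y 2 / 2) (ε / 2) with ht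
    have ht0 : 0 < t := lt_min (by linarith) (by linarith)
    have ht1 : t ≤ -y 2 / 2 := min_le_left _ _
    have ht2 : t ≤ ε / 2 := min_le_right _ _
    refine hseg.1 (-y 2 - t) (by linarith) (by linarith) ?_
    have e1 : y + (-y 2 - t) • E3 = d + (-t) • E3 := by rw [hd]; module
    rw [e1]
    have hb : d + (-t) • E3 ∈ ball d ε := by
      rw [mem_ball, dist_eq_norm, add_sub_cancel_left, norm_smul, LOCZ_norm_E3, mul_one,
        Real.norm_eq_abs, abs_neg, abs_of_pos ht0]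
      linarith
    rw [(h3 _ hb).2.1]
    simp [hd2, ht0]
  · intro h2 hS
    have hseg := LOCZ_seg D (y := y) (v := -E3) (s₁ := y 2) (by linarith) (by
      intro s hs hs' hmem
      rcases hmem with hmem | hmem
      · exact hS s hs hs' hmem
      · have := hmem.1
        simp at this
        linarith)
    set d : V3 := y + (y 2) • (-E3) with hd
    have hd2 : d 2 = 0 := by simp [hd]
    have hd1 : d 0 ^ 2 + d 1 ^ 2 < 1 := by simpa [hd] using hr
    obtain ⟨ε, h1, h3⟩ := ldisc D hd2 hd1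
    set t : ℝ := min (y 2 / 2) (ε / 2) with ht
    have ht0 : 0 < t := lt_min (by linarith) (by linarith)
    have ht1 : t ≤ y 2 / 2 := min_le_left _ _
    have ht2 : t ≤ ε / 2 := min_le_right _ _
    refine hseg.2 (y 2 - t) (by linarith) (by linarith) ?_
    have e1 : y + (y 2 - t) • (-E3) = d + t • E3 := by rw [hd]; module
    rw [e1]
    have hb : d + t • E3 ∈ ball d ε := by
      rw [mem_ball, dist_eq_norm, add_sub_cancel_left, norm_smul, LOCZ_norm_E3, mul_one,
        Real.norm_eq_abs, abs_of_pos ht0]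
      linarith
    rw [(h3 _ hb).2.2]
    simp [hd2, ht0]

/-- a nearby point inside the cylinder -/
theorem LOCZ_shrink {y : V3} (hr : y 0 ^ 2 + y 1 ^ 2 = 1) {κ : ℝ} (hκ : 0 < κ) :
    ∃ z ∈ ball y κ, z 0 ^ 2 + z 1 ^ 2 < 1 ∧ z 2 = y 2 := by
  set τ : ℝ := min (1 / 2) (κ / 2) with hτ
  have h0 : 0 < τ := lt_min (by norm_num) (by linarith)
  have h1 : τ ≤ 1 / 2 := min_le_left _ _
  have h2 : τ ≤ κ / 2 := min_le_right _ _
  set w : V3 := !₂[y 0, y 1, 0] with hw
  have hw1 : ‖w‖ = 1 := by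
    have h : ‖w‖ ^ 2 = 1 := by rw [nsq]; simpa [hw] using hr
    nlinarith [norm_nonneg w]
  refine ⟨y - τ • w, ?_, ?_, by simp [hw]⟩
  · rw [mem_ball, dist_eq_norm]
    have : y - τ • w - y = -(τ • w) := by abel
    rw [this, norm_neg, norm_smul, hw1, mul_one, Real.norm_eq_abs, abs_of_pos h0]
    linarith
  · have e1 : (y - τ • w) 0 = (1 - τ) * y 0 := by simp [hw]; ring
    have e2 : (y - τ • w) 1 = (1 - τ) * y 1 := by simp [hw]; ring
    rw [e1, e2]
    have : ((1 - τ) * y 0) ^ 2 + ((1 - τ) * y 1) ^ 2 = (1 - τ) ^ 2 * (y 0 ^ 2 + y 1 ^ 2) := by ring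
    rw [this, hr]
    nlinarith

theorem loc_zero {S : Surf} (D : PreDom S) {u₀ : V2} (hu₀ : ‖u₀‖ = 1) (h : S.N u₀ = -E3) {e : V3}
    (B : Box S.X u₀ e) : ∀ᶠ y in 𝓝 (S.X u₀),
      (1 < y 0 ^ 2 + y 1 ^ 2 → 0 < B.f y → y ∈ D.W) ∧
      (1 < y 0 ^ 2 + y 1 ^ 2 → B.f y < 0 → y ∉ closure D.W) ∧
      (0 < B.f y → y 2 < 0 → y ∈ D.W) ∧
      (B.f y < 0 → 0 < y 2 → y ∉ closure D.W) := by
  -- direction of the surface
  have hp := S.bd1 hu₀
  have hNr : S.Nr u₀ = 0 := by
    unfold Surf.Nr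
    rw [h, ip]
    simp [hp.1]
  have hnu : S.nu u₀ = -S.X u₀ := by
    unfold Surf.nu
    rw [hNr, h]
    simp
  have hori := ori D hu₀
  rw [hnu, inner_neg_right] at hori
  have hr := hr_out S hu₀ (by linarith)
  obtain ⟨ρ, hρ, hr'⟩ := Metric.eventually_nhds_iff.1 hr
  obtain ⟨ε₀, hε₀, hε₀', -, hsig⟩ := box_sig S hu₀.le B
  set ε₁ : ℝ := min ε₀ ρ with hε₁
  have hε₁0 : 0 < ε₁ := lt_min hε₀ hρ
  have hε₁r : ε₁ ≤ B.r := (min_le_left _ _).trans hε₀'
  set p : V3 := S.X u₀ with hpdef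
  have hpU : p ∈ B.U B.r := B.mem_U B.hr
  have hbp : B.b p = u₀ := B.b_X (by simpa using B.hr)
  have hfp : B.f p = 0 := B.f_X (by simpa using B.hr)
  -- the gradient
  have hgp : ⟪B.g p, E3⟫ = -‖B.g p‖ := by
    have h1 := B.g_eq hpU
    rw [hbp] at h1
    have h2 : NN S.X u₀ = -E3 := h
    rw [h2] at h1
    have h3 : ⟪B.g p, E3⟫ = ⟪‖B.g p‖ • (-E3), E3⟫ := by rw [← h1]
    rw [h3, inner_smul_left, inner_neg_left, real_inner_self_eq_norm_sq, LOCZ_norm_E3]
    simp
  have hgpos := B.g_pos hpU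
  set c : ℝ := ‖B.g p‖ / 2 with hc
  have hc0 : 0 < c := by positivity
  have hgc : ContinuousAt (fun z => ⟪B.g z, E3⟫) p :=
    (B.g_cont S.smooth hpU).inner continuousAt_const
  have hgev : ∀ᶠ z in 𝓝 p, ⟪B.g z, E3⟫ < -c := by
    refine hgc.eventually_lt_const ?_
    show ⟪B.g p, E3⟫ < -c
    rw [hgp]
    linarith
  obtain ⟨δ, hδ, hδ'⟩ := Metric.eventually_nhds_iff_ball.1
    (hgev.and (B.U_nhds hε₁0 hε₁r))
  have F1 : ∀ z ∈ ball p δ, z ∈ B.U B.r := fun z hz => B.U_mono hε₁r (hδ' z hz).2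
  have F2 : ∀ z ∈ ball p δ, ⟪B.g z, E3⟫ < -c := fun z hz => (hδ' z hz).1
  have F3 : ∀ z ∈ ball p δ, (z ∈ S.Sig ↔ (B.f z = 0 ∧ ‖B.b z‖ ≤ 1)) := fun z hz =>
    hsig z (B.U_mono (min_le_left _ _) (hδ' z hz).2)
  have F0 : ∀ z ∈ ball p δ, B.f z = 0 → S.X (B.b z) = z ∧
      ((‖B.b z‖ < 1 → 1 < z 0 ^ 2 + z 1 ^ 2) ∧ (1 < ‖B.b z‖ → z 0 ^ 2 + z 1 ^ 2 < 1)) ∧
      (‖B.b z‖ = 1 → z 0 ^ 2 + z 1 ^ 2 = 1) := by
    intro z hz hf
    have hco := B.coord hε₁r (hδ' z hz).2
    have hX : S.X (B.b z) = z := by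
      have := hco.2.2
      rw [hf, zero_smul, add_zero] at this
      exact this
    have h1 := hr' (y := B.b z) (by
      rw [dist_eq_norm]
      exact hco.1.trans_le (min_le_right _ _))
    rw [hX] at h1
    refine ⟨hX, h1, fun h2 => ?_⟩
    have := (S.bd1 h2).2
    rw [hX] at this
    exact this
  have F4 : ∀ z ∈ ball p δ, B.f z = 0 → 1 < z 0 ^ 2 + z 1 ^ 2 → ‖B.b z‖ < 1 := by
    intro z hz hf h1
    obtain ⟨-, ⟨-, h2⟩, h3⟩ := F0 z hz hf
    rcases lt_trichotomy ‖B.b z‖ 1 with h4 | h4 | h4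
    · exact h4
    · have := h3 h4; linarith
    · have := h2 h4; linarith
  have F5 : ∀ z ∈ ball p δ, z ∈ S.Sig → 1 ≤ z 0 ^ 2 + z 1 ^ 2 := by
    intro z hz hS
    obtain ⟨hf, hb⟩ := (F3 z hz).1 hS
    obtain ⟨-, ⟨h2, -⟩, h3⟩ := F0 z hz hf
    rcases hb.lt_or_eq with h4 | h4
    · exact (h2 h4).le
    · exact (h3 h4).ge
  -- continuity of f
  have hfc : ContinuousAt B.f p := (B.smooth_f hpU).continuousAt
  have hfev : ∀ᶠ z in 𝓝 p, |B.f z| < c * (δ / 2) := by
    refine hfc.abs.eventually_lt_const ?_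
    show |B.f p| < c * (δ / 2)
    rw [hfp, abs_zero]
    positivity
  obtain ⟨η, hη, hη'⟩ := Metric.eventually_nhds_iff_ball.1 hfev
  set ζ : ℝ := min η (δ / 2) with hζ
  have hζ0 : 0 < ζ := lt_min hη (by linarith)
  have hζδ : ζ ≤ δ / 2 := min_le_right _ _
  -- vertical segments stay in the ball
  have hvert : ∀ y ∈ ball p ζ, ∀ s : ℝ, |s| ≤ δ / 2 → y + s • E3 ∈ ball p δ := by
    intro y hy s hs
    rw [mem_ball, dist_eq_norm] at hy ⊢
    have e1 : y + s • E3 - p = (y - p) + s • E3 := by abel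
    rw [e1]
    refine (norm_add_le _ _).trans_lt ?_
    rw [norm_smul, LOCZ_norm_E3, mul_one, Real.norm_eq_abs]
    linarith
  have hsub : ∀ y ∈ ball p ζ, y ∈ ball p δ := fun y hy =>
    ball_subset_ball (by linarith) hy
  have hy2 : ∀ y ∈ ball p ζ, |y 2| < δ / 2 := by
    intro y hy
    rw [mem_ball, dist_eq_norm] at hy
    have h1 : |(y - p) 2| ≤ ‖y - p‖ := by
      have := PiLp.norm_apply_le (y - p) 2
      simpa using this
    have h2 : (y - p) 2 = y 2 := by simp [hp.1]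
    rw [h2] at h1
    linarith
  -- (a)
  have Ha : ∀ y ∈ ball p ζ, 1 < y 0 ^ 2 + y 1 ^ 2 → 0 < B.f y → y ∈ D.W := by
    intro y hy hry hfy
    have hyb : y ∈ ball p (δ / 2) := ball_subset_ball hζδ hy
    have hfs := (abs_lt.1 (hη' y (ball_subset_ball (min_le_left _ _) hy))).2
    obtain ⟨s₁, hs0, hs1, hs2, hs3⟩ := LOCZ_path B S.smooth LOCZ_norm_E3 (σ := 1) hδ hc0
      (p := p) (fun z hz => ⟨F1 z hz, by rw [one_mul]; exact F2 z hz⟩) hyb
      (by rw [one_mul]; exact hfy) (by rw [one_mul]; exact hfs)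
    have hZ : y + s₁ • E3 ∈ ball p δ := hvert y hy s₁ (by rw [abs_of_pos hs0]; exact hs1)
    have hrZ : ∀ s : ℝ, 1 < (y + s • E3) 0 ^ 2 + (y + s • E3) 1 ^ 2 := by
      intro s
      simpa using hry
    refine (LOCZ_go D B hs0 (F1 _ hZ) hs2 (F4 _ hZ hs2 (hrZ s₁)) ?_).1
      ((F2 _ hZ).trans (by linarith))
    intro s hs hs' hmem
    have hzb : y + s • E3 ∈ ball p δ := hvert y hy s (by rw [abs_of_nonneg hs]; linarith)
    rcases hmem with hmem | hmem
    · have h1 := ((F3 _ hzb).1 hmem).1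
      have h2 := hs3 s hs hs'
      rw [h1] at h2
      simp at h2
    · have h1 := hmem.2
      have h2 := hrZ s
      linarith
  -- (b)
  have Hb : ∀ y ∈ ball p ζ, 1 < y 0 ^ 2 + y 1 ^ 2 → B.f y < 0 → y ∉ closure D.W := by
    intro y hy hry hfy
    have hyb : y ∈ ball p (δ / 2) := ball_subset_ball hζδ hy
    have hfs := (abs_lt.1 (hη' y (ball_subset_ball (min_le_left _ _) hy))).1
    obtain ⟨s₁, hs0, hs1, hs2, hs3⟩ := LOCZ_path B S.smooth (v := -E3)
      (by rw [norm_neg]; exact LOCZ_norm_E3) (σ := -1) hδ hc0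
      (p := p) (fun z hz => ⟨F1 z hz, by
        rw [inner_neg_right, neg_mul_neg, one_mul]; exact F2 z hz⟩) hyb
      (by linarith) (by linarith)
    have hvert' : ∀ s : ℝ, 0 ≤ s → s ≤ δ / 2 → y + s • (-E3) ∈ ball p δ := by
      intro s hs hs'
      have := hvert y hy (-s) (by rw [abs_neg, abs_of_nonneg hs]; exact hs')
      rwa [neg_smul, ← smul_neg] at this
    have hZ : y + s₁ • (-E3) ∈ ball p δ := hvert' s₁ hs0.le hs1
    have hrZ : ∀ s : ℝ, 1 < (y + s • (-E3)) 0 ^ 2 + (y + s • (-E3)) 1 ^ 2 := by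
      intro s
      simpa using hry
    refine (LOCZ_go D B hs0 (F1 _ hZ) hs2 (F4 _ hZ hs2 (hrZ s₁)) ?_).2 ?_
    · intro s hs hs' hmem
      have hzb : y + s • (-E3) ∈ ball p δ := hvert' s hs (by linarith)
      rcases hmem with hmem | hmem
      · have h1 := ((F3 _ hzb).1 hmem).1
        have h2 := hs3 s hs hs'
        rw [h1] at h2
        simp at h2
      · have h1 := hmem.2
        have h2 := hrZ s
        linarith
    · rw [inner_neg_right]
      have := F2 _ hZ
      linarith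
  -- inside the cylinder
  have Hc1 : ∀ y ∈ ball p ζ, y 0 ^ 2 + y 1 ^ 2 < 1 → y 2 < 0 → y ∈ D.W := by
    intro y hy hry h2
    refine (LOCZ_in D hry).1 h2 ?_
    intro s hs hs' hS
    have h3 := (abs_lt.1 (hy2 y hy)).1
    have hzb : y + s • E3 ∈ ball p δ := hvert y hy s (by rw [abs_of_nonneg hs]; linarith)
    have h4 := F5 _ hzb hS
    simp at h4
    linarith
  have Hd1 : ∀ y ∈ ball p ζ, y 0 ^ 2 + y 1 ^ 2 < 1 → 0 < y 2 → y ∉ closure D.W := by
    intro y hy hry h2
    refine (LOCZ_in D hry).2 h2 ?_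
    intro s hs hs' hS
    have h3 := (abs_lt.1 (hy2 y hy)).2
    have hzb : y + s • (-E3) ∈ ball p δ := by
      have := hvert y hy (-s) (by rw [abs_neg, abs_of_nonneg hs]; linarith)
      rwa [neg_smul, ← smul_neg] at this
    have h4 := F5 _ hzb hS
    simp at h4
    linarith
  have hcoord2 : Continuous (fun z : V3 => z 2) := by fun_prop
  filter_upwards [ball_mem_nhds p hζ0] with y hy
  refine ⟨Ha y hy, Hb y hy, ?_, ?_⟩
  · intro hfy hyn
    rcases lt_trichotomy (y 0 ^ 2 + y 1 ^ 2) 1 with hry | hry | hry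
    · exact Hc1 y hy hry hyn
    · have hfcy : ContinuousAt B.f y := (B.smooth_f (F1 y (hsub y hy))).continuousAt
      have hev : ∀ᶠ z in 𝓝 y, z ∈ ball p ζ ∧ 0 < B.f z ∧ z 2 < 0 :=
        Filter.Eventually.and (isOpen_ball.mem_nhds hy) ((hfcy.eventually_const_lt hfy).and
          (hcoord2.continuousAt.eventually_lt_const hyn))
      obtain ⟨κ, hκ, hκ'⟩ := Metric.eventually_nhds_iff_ball.1 hev
      obtain ⟨z, hz, hz1, hz2⟩ := LOCZ_shrink hry hκ
      refine (LOCZ_ball D hκ ?_ hz).1 (Hc1 z (hκ' z hz).1 hz1 (by rw [hz2]; exact hyn))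
      intro x hx hmem
      obtain ⟨g1, g2, g3⟩ := hκ' x hx
      rcases hmem with hmem | hmem
      · have := ((F3 x (hsub x g1)).1 hmem).1
        linarith
      · have := hmem.1
        linarith
    · exact Ha y hy hry hfy
  · intro hfy hyn
    rcases lt_trichotomy (y 0 ^ 2 + y 1 ^ 2) 1 with hry | hry | hry
    · exact Hd1 y hy hry hyn
    · have hfcy : ContinuousAt B.f y := (B.smooth_f (F1 y (hsub y hy))).continuousAt
      have hev : ∀ᶠ z in 𝓝 y, z ∈ ball p ζ ∧ B.f z < 0 ∧ 0 < z 2 :=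
        Filter.Eventually.and (isOpen_ball.mem_nhds hy) ((hfcy.eventually_lt_const hfy).and
          (hcoord2.continuousAt.eventually_const_lt hyn))
      obtain ⟨κ, hκ, hκ'⟩ := Metric.eventually_nhds_iff_ball.1 hev
      obtain ⟨z, hz, hz1, hz2⟩ := LOCZ_shrink hry hκ
      refine (LOCZ_ball D hκ ?_ hz).2 (Hd1 z (hκ' z hz).1 hz1 (by rw [hz2]; exact hyn))
      intro x hx hmem
      obtain ⟨g1, g2, g3⟩ := hκ' x hx
      rcases hmem with hmem | hmem
      · have := ((F3 x (hsub x g1)).1 hmem).1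
        linarith
      · have := hmem.1
        linarith
    · exact Hb y hy hry hfy

end Pool.Agent.H99.SC

end S_LOCZ

section S_LOC

/-! # LOC: collects LOCN, LOCP, LOCZ -/

end S_LOC

section S_LCC

/-!
# LCC: inward directions at a boundary point

`lcc`.  `‖u₀‖ = 1`, `⟪v, N u₀⟫ > 0` and `v 2 < 0`.  Then for `u` near `u₀` (`‖u‖ ≤ 1`), `w` near `v`,
small `s ≥ 0`: `X u + s w ∈ closure W`.
Proof.  Box at `u₀`, `e = N u₀`, `ε` from `box_sig`; shrink so that `⟪g y, w⟫ ≥ c > 0` and `w 2 < 0`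
for `y ∈ U ε`, `w` near `v`, and `X u + s w ∈ U ε`.  First let `‖u‖ < 1`.  `y(s) = X u + s w`,
`B.f (y s)` is strictly increasing, `B.f (y 0) = 0`, so `y s ∉ S.Sig` for `s > 0` (in the range).
The set of `s` with `y s ∈ closure W` is closed, contains `0`, and contains a right neighbourhood of each
of its points (`lsig` at `s = 0`, `ldisc` at `s > 0`).
For `‖u‖ = 1` take limits (closure W is closed): `u` is a limit of `r u`, `r → 1-`.
-/


open scoped RealInnerProductSpace Topology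
open Metric Filter Set


namespace Pool.Agent.H99.SC

/-- a function with positive derivative is positive just after a zero -/
theorem LCC_pos {φ : ℝ → ℝ} {s d : ℝ} (h0 : φ s = 0) (hd : HasDerivAt φ d s) (hpos : 0 < d) :
    ∀ᶠ t in 𝓝[>] s, 0 < φ t := by
  have h1 := hd.tendsto_slope
  have h2 : ∀ᶠ t in 𝓝[≠] s, 0 < slope φ s t := h1.eventually (lt_mem_nhds hpos)
  have h3 : ∀ᶠ t in 𝓝[>] s, 0 < slope φ s t :=
    h2.filter_mono (nhdsWithin_mono _ (fun t (ht : s < t) => ht.ne'))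
  filter_upwards [h3, self_mem_nhdsWithin] with t ht (hts : s < t)
  rw [slope_def_field, h0, sub_zero] at ht
  exact (div_pos_iff_of_pos_right (by linarith)).1 ht

/-- derivative of a box function along a segment -/
theorem LCC_deriv {S : Surf} {u₀ : V2} {e : V3} (B : Box S.X u₀ e) (x w : V3) (s : ℝ)
    (hy : x + s • w ∈ B.U B.r) :
    HasDerivAt (fun t : ℝ => B.f (x + t • w)) (⟪B.g (x + s • w), w⟫) s := by
  have h1 : HasFDerivAt B.f (fderiv ℝ B.f (x + s • w)) (x + s • w) :=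
    ((B.smooth_f hy).differentiableAt (by norm_num)).hasFDerivAt
  have h2 : HasDerivAt (fun t : ℝ => x + t • w) w s := by
    have := ((hasDerivAt_id s).smul_const w).const_add x
    simpa using this
  have h3 := h1.comp_hasDerivAt s h2
  rw [B.fd S.smooth hy] at h3
  exact h3

theorem LCC_box {S : Surf} {u₀ : V2} (hu₀ : ‖u₀‖ ≤ 1) : Nonempty (Box S.X u₀ (S.N u₀)) := by
  apply exists_box S.smooth
  rw [S.nn_eq hu₀, real_inner_smul_left, real_inner_self_eq_norm_sq, S.N_norm hu₀]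
  simpa using S.nn_pos hu₀

theorem LCC_frontier {S : Surf} (D : PreDom S) {y : V3} (h : y ∈ closure D.W) (h' : y ∉ D.W) :
    y ∈ S.Sig ∪ Disc := by
  apply D.fr
  rw [D.isOpen.frontier_eq]
  exact ⟨h, h'⟩

theorem lcc {S : Surf} (D : PreDom S) {u₀ : V2} (hu₀ : ‖u₀‖ = 1) {v : V3}
    (hv : 0 < ⟪v, S.N u₀⟫) (hv2 : v 2 < 0) :
    ∃ ε : ℝ, 0 < ε ∧ ∀ u : V2, ‖u‖ ≤ 1 → ‖u - u₀‖ < ε → ∀ w : V3, ‖w - v‖ < ε →
      ∀ s : ℝ, 0 ≤ s → s < ε → S.X u + s • w ∈ closure D.W := by
  obtain ⟨B⟩ := LCC_box (S := S) hu₀.le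
  obtain ⟨ε₁, hε₁, hε₁r, -, hsig⟩ := box_sig S hu₀.le B
  have hmemr : S.X u₀ ∈ B.U B.r := B.mem_U B.hr
  -- the gradient at the base point
  have hg0 : 0 < ⟪B.g (S.X u₀), v⟫ := by
    have hb : B.b (S.X u₀) = u₀ := B.b_X (by simpa using B.hr)
    rw [B.g_eq hmemr, hb, real_inner_smul_left, real_inner_comm]
    exact mul_pos (B.g_pos hmemr) hv
  have hcg : ContinuousAt (fun q : V3 × V3 => ⟪B.g q.1, q.2⟫) (S.X u₀, v) := by
    have h1 : ContinuousAt (fun q : V3 × V3 => B.g q.1) (S.X u₀, v) :=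
      ContinuousAt.comp (f := fun q : V3 × V3 => q.1) (B.g_cont S.smooth hmemr) continuousAt_fst
    exact h1.inner continuousAt_snd
  have hyc : ContinuousAt (fun q : V2 × V3 × ℝ => S.X q.1 + q.2.2 • q.2.1) (u₀, v, 0) := by
    have hX : Continuous S.X := S.smooth.continuous
    apply Continuous.continuousAt
    fun_prop
  have hy0 : S.X u₀ + (0 : ℝ) • v = S.X u₀ := by simp
  have hev1 : ∀ᶠ q : V2 × V3 × ℝ in 𝓝 (u₀, v, (0 : ℝ)), S.X q.1 + q.2.2 • q.2.1 ∈ B.U ε₁ := by
    apply hyc.eventually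
    simp only [hy0]
    exact B.U_nhds hε₁ hε₁r
  have hev2 : ∀ᶠ q : V2 × V3 × ℝ in 𝓝 (u₀, v, (0 : ℝ)),
      0 < ⟪B.g (S.X q.1 + q.2.2 • q.2.1), q.2.1⟫ := by
    have h1 : ContinuousAt (fun q : V2 × V3 × ℝ => ((S.X q.1 + q.2.2 • q.2.1, q.2.1) : V3 × V3))
        (u₀, v, 0) := hyc.prodMk (by fun_prop)
    have h3 := hcg.comp_of_eq h1 (by simp)
    have h4 := Filter.Tendsto.eventually_const_lt (u := (0 : ℝ)) (by simpa using hg0) h3
    filter_upwards [h4] with q hq
    exact hq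
  have hev3 : ∀ᶠ q : V2 × V3 × ℝ in 𝓝 (u₀, v, (0 : ℝ)), q.2.1 2 < 0 := by
    have h1 : ContinuousAt (fun q : V2 × V3 × ℝ => q.2.1 2) (u₀, v, 0) := by fun_prop
    exact Filter.Tendsto.eventually_lt_const (u := (0 : ℝ)) (by simpa using hv2) h1
  obtain ⟨ε₂, hε₂, hall⟩ := Metric.eventually_nhds_iff.1 (hev1.and (hev2.and hev3))
  have key : ∀ u : V2, ‖u‖ < 1 → ‖u - u₀‖ < min ε₂ B.r → ∀ w : V3, ‖w - v‖ < ε₂ →
      ∀ s : ℝ, 0 ≤ s → s < ε₂ → S.X u + s • w ∈ closure D.W := by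
    intro u hu1 huu w hw s hs0 hs1
    have hu2 : ‖u - u₀‖ < ε₂ := lt_of_lt_of_le huu (min_le_left _ _)
    have hu3 : ‖u - u₀‖ < B.r := lt_of_lt_of_le huu (min_le_right _ _)
    have hq : ∀ t : ℝ, 0 ≤ t → t < ε₂ → S.X u + t • w ∈ B.U ε₁ ∧
        0 < ⟪B.g (S.X u + t • w), w⟫ ∧ w 2 < 0 := by
      intro t ht0 ht1
      have := @hall (u, w, t) (by
        rw [Prod.dist_eq, Prod.dist_eq]
        simp only [dist_eq_norm, Real.norm_eq_abs, sub_zero]
        rw [abs_of_nonneg ht0]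
        exact max_lt hu2 (max_lt hw ht1))
      exact this
    have hw2 : w 2 < 0 := (hq 0 le_rfl hε₂).2.2
    -- strictly increasing
    have hmono : ∀ t : ℝ, 0 < t → t < ε₂ → 0 < B.f (S.X u + t • w) := by
      intro t ht0 ht1
      have hdiff : ∀ a ∈ Icc 0 t, HasDerivAt (fun t : ℝ => B.f (S.X u + t • w))
          (⟪B.g (S.X u + a • w), w⟫) a := by
        intro a ha
        exact LCC_deriv B _ _ _ (B.U_mono hε₁r (hq a ha.1 (ha.2.trans_lt ht1)).1)
      have hs : StrictMonoOn (fun t : ℝ => B.f (S.X u + t • w)) (Icc 0 t) := by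
        apply strictMonoOn_of_deriv_pos (convex_Icc 0 t)
        · intro a ha
          exact (hdiff a ha).continuousAt.continuousWithinAt
        · intro a ha
          have ha' : a ∈ Icc 0 t := interior_subset ha
          rw [(hdiff a ha').deriv]
          exact (hq a ha'.1 (ha'.2.trans_lt ht1)).2.1
      have h1 := hs (left_mem_Icc.2 ht0.le) (right_mem_Icc.2 ht0.le) ht0
      have h2 : B.f (S.X u + (0 : ℝ) • w) = 0 := by
        rw [zero_smul, add_zero]
        exact B.f_X hu3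
      simp only at h1
      rw [h2] at h1
      exact h1
    have hnot : ∀ t : ℝ, 0 < t → t < ε₂ → S.X u + t • w ∉ S.Sig := by
      intro t ht0 ht1 hmem
      have h1 := ((hsig _ (hq t ht0.le ht1).1).1 hmem).1
      have h2 := hmono t ht0 ht1
      linarith
    have hyt : Continuous (fun t : ℝ => S.X u + t • w) := by fun_prop
    have hcl : Icc 0 s ⊆ {t : ℝ | S.X u + t • w ∈ closure D.W} := by
      apply IsClosed.Icc_subset_of_forall_mem_nhdsWithin
      · exact (isClosed_closure.preimage hyt).inter isClosed_Icc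
      · show S.X u + (0 : ℝ) • w ∈ closure D.W
        rw [zero_smul, add_zero]
        exact sig_closure D (S.mem_Sig hu1.le)
      · rintro t ⟨htm, ht0, hts⟩
        have htm' : S.X u + t • w ∈ closure D.W := htm
        show ∀ᶠ t' in 𝓝[>] t, S.X u + t' • w ∈ closure D.W
        by_cases hW : S.X u + t • w ∈ D.W
        · have h1 : ∀ᶠ t' in 𝓝 t, S.X u + t' • w ∈ D.W :=
            hyt.continuousAt.eventually (D.isOpen.mem_nhds hW)
          filter_upwards [h1.filter_mono nhdsWithin_le_nhds] with t' ht' using subset_closure ht'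
        · rcases ht0.eq_or_lt with h0 | h0
          · subst h0
            -- box at `u`
            have hposu : 0 < ⟪nn S.X u, S.N u₀⟫ := B.pos u hu3
            obtain ⟨B'⟩ := exists_box S.smooth hposu
            obtain ⟨ε₃, hε₃, hε₃r, hl⟩ := lsig D hu1 B'
            have hmem' : S.X u ∈ B'.U B'.r := B'.mem_U B'.hr
            have hd := LCC_deriv B' (S.X u) w 0 (by simpa using hmem')
            have hpos' : 0 < ⟪B'.g (S.X u + (0 : ℝ) • w), w⟫ := by
              have h1 := (hq 0 le_rfl hε₂).2.1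
              have hb' : B'.b (S.X u) = u := B'.b_X (by simpa using B'.hr)
              have hb : B.b (S.X u) = u := B.b_X hu3
              rw [zero_smul, add_zero] at h1 ⊢
              unfold Box.g at h1 ⊢
              rw [hb'] 
              rw [hb] at h1
              exact h1
            have hz : B'.f (S.X u + (0 : ℝ) • w) = 0 := by
              rw [zero_smul, add_zero]
              exact B'.f_X (by simpa using B'.hr)
            have h2 := LCC_pos (φ := fun t : ℝ => B'.f (S.X u + t • w)) hz hd hpos'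
            have h3 : ∀ᶠ t' in 𝓝 (0 : ℝ), S.X u + t' • w ∈ B'.U ε₃ := by
              have h4 : B'.U ε₃ ∈ 𝓝 (S.X u + (0 : ℝ) • w) := by
                rw [zero_smul, add_zero]
                exact B'.U_nhds hε₃ hε₃r
              exact hyt.continuousAt.eventually h4
            filter_upwards [h2, h3.filter_mono nhdsWithin_le_nhds] with t' ht' ht''
            exact (hl _ ht'').2.2.2.2.2 ht'.le
          · have hts' : t < ε₂ := hts.trans hs1
            rcases LCC_frontier D htm' hW with h1 | h1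
            · exact absurd h1 (hnot t h0 hts')
            · have h2 : (S.X u + t • w) 2 = 0 := h1.1
              have h3 : (S.X u + t • w) 0 ^ 2 + (S.X u + t • w) 1 ^ 2 < 1 := by
                rcases h1.2.eq_or_lt with h | h
                · exfalso
                  obtain ⟨u', hu', hX⟩ := (S.bd _).2 ⟨h2, h⟩
                  exact hnot t h0 hts' ⟨u', hu'.le, hX⟩
                · exact h
              obtain ⟨ε₃, hε₃, hl⟩ := ldisc D h2 h3
              have h4 : ∀ᶠ t' in 𝓝 t, S.X u + t' • w ∈ ball (S.X u + t • w) ε₃ :=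
                hyt.continuousAt.eventually (ball_mem_nhds _ hε₃)
              filter_upwards [h4.filter_mono nhdsWithin_le_nhds, self_mem_nhdsWithin]
                with t' ht' (htt : t < t')
              apply (hl _ ht').2.2.2
              have h5 : (S.X u + t' • w) 2 = (S.X u + t • w) 2 + (t' - t) * w 2 := by
                simp only [PiLp.add_apply, PiLp.smul_apply, smul_eq_mul]; ring
              rw [h5, h2, zero_add]
              exact (mul_neg_of_pos_of_neg (by linarith) hw2).le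
    exact hcl (right_mem_Icc.2 hs0)
  refine ⟨min ε₂ B.r, lt_min hε₂ B.hr, ?_⟩
  intro u hu1 huu w hw s hs0 hs1
  have hw' : ‖w - v‖ < ε₂ := lt_of_lt_of_le hw (min_le_left _ _)
  have hs1' : s < ε₂ := lt_of_lt_of_le hs1 (min_le_left _ _)
  rcases hu1.eq_or_lt with hu | hu
  · -- limit
    have hX : Continuous S.X := S.smooth.continuous
    have hcont : Continuous (fun r : ℝ => S.X (r • u) + s • w) := by fun_prop
    have ht : Tendsto (fun r : ℝ => S.X (r • u) + s • w) (𝓝[<] 1) (𝓝 (S.X u + s • w)) := by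
      have h1 := (hcont.tendsto 1).mono_left (nhdsWithin_le_nhds (s := Iio (1 : ℝ)))
      simpa using h1
    have hn : ∀ᶠ r : ℝ in 𝓝 1, ‖r • u - u₀‖ < min ε₂ B.r := by
      have hc : Continuous (fun r : ℝ => ‖r • u - u₀‖) := by fun_prop
      exact Filter.Tendsto.eventually_lt_const (u := min ε₂ B.r) (by simpa using huu) (hc.tendsto 1)
    apply isClosed_closure.mem_of_tendsto ht
    have h0 : ∀ᶠ r : ℝ in 𝓝 1, 0 < r := lt_mem_nhds one_pos
    filter_upwards [hn.filter_mono nhdsWithin_le_nhds, h0.filter_mono nhdsWithin_le_nhds,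
      self_mem_nhdsWithin] with r hr hr0 (hr1 : r < 1)
    apply key (r • u) _ hr w hw' s hs0 hs1'
    rw [norm_smul, hu, mul_one, Real.norm_eq_abs, abs_of_pos hr0]
    exact hr1
  · exact key u hu huu w hw' s hs0 hs1'

end Pool.Agent.H99.SC

end S_LCC
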