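import Mathlib
import Pool.Agent.H99.SCM.M1
import Pool.Agent.H99.SCM.M2
import Pool.Agent.H99.SCM.M3
import Pool.Agent.H99.SCM.M4
import Pool.Agent.H99.SCM.M5

/-! Star-shaped CMC discs (S14043), file M6: joins several modules to save build time. -/

set_option autoImplicit false

noncomputable section

section S_WST

/-!
# WST: consequences of a weak star centre

`wst1`: `⟪z - X u, N u⟫ ≥ 0`.  For `‖u‖ < 1`: if `< 0`, box at `u` with `e = N u`: `f (X u + s (z - X u)) < 0`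
for small `s > 0` (derivative `⟪g, z - X u⟫ < 0`), not in `closure W` (`lsig`), but
`X u + s (z - X u) = z + (1-s)(X u - z)` is.  For `‖u‖ = 1` by continuity.
`wst2`: `y` in the open cone above the plane is not in `closure W`.  Let `h = -z 2 > 0` and
`d = z + (h/(h + y 2)) (y - z)`: `d 2 = 0`, `(h + y 2) d' = h y' + (y 2) z'`, so `d` is in the open disc.
`d = z + τ (y - z)` with `τ < 1`; for `τ < σ < 1` close to `τ`, `z + σ (y - z)` is in `closure W` (if
`y` is), has positive third coordinate and is near `d`: contradicts `ldisc`.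
`wst3`: below the plane: `y = z + (1/τ)(d - z)` with `1/τ = (h + y 2)/h ∈ (0,1)`.  `closure W`
contains every point of the open cone below the plane (`d ∈ closure W`: limit of `d - s E3`), an open
set `O ∋ y`, so `y` is in `interior (closure W)`.  If `y ∉ W` then `y ∈ frontier W ⊆ S.Sig ∪ Disc`,
`y ∉ Disc` (`y 2 < 0`), so `y = X u`, `‖u‖ < 1` (`bd1`), and `X u - s N u ∉ closure W` for small `s > 0`
contradicts `O` open.
-/


open scoped RealInnerProductSpace Topology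
open Metric Filter Set


namespace Pool.Agent.H99.SC

theorem WST_dec {h : ℝ → ℝ} {c : ℝ} (hd : HasDerivAt h c 0) (hc : c < 0) :
    ∀ᶠ s in 𝓝[>] (0 : ℝ), h s < h 0 := by
  have h1 := hasDerivAt_iff_tendsto_slope.1 hd
  have h2 : ∀ᶠ s in 𝓝[≠] (0 : ℝ), slope h 0 s < 0 := h1.eventually (gt_mem_nhds hc)
  have h3 : ∀ᶠ s in 𝓝[>] (0 : ℝ), slope h 0 s < 0 :=
    h2.filter_mono (nhdsWithin_mono _ fun s hs => ne_of_gt hs)
  filter_upwards [h3, self_mem_nhdsWithin] with s hs hs0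
  have hs0' : 0 < s := hs0
  rw [slope_def_field, sub_zero, div_lt_iff₀ hs0', zero_mul] at hs
  linarith

theorem WST_box {S : Surf} {u : V2} (hu : ‖u‖ ≤ 1) : 0 < ⟪nn S.X u, S.N u⟫ := by
  rw [S.nn_eq hu, inner_smul_left, real_inner_self_eq_norm_sq, S.N_norm hu]
  simpa using S.imm u hu

theorem wst1 {S : Surf} {D : Dom S} {z : V3} (hz : WStar D z) {u : V2} (hu : ‖u‖ ≤ 1) :
    0 ≤ ⟪z - S.X u, S.N u⟫ := by
  have key : ∀ u : V2, ‖u‖ < 1 → 0 ≤ ⟪z - S.X u, S.N u⟫ := by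
    intro u hu
    by_contra hcon
    push Not at hcon
    obtain ⟨B⟩ := exists_box S.smooth (WST_box (S := S) hu.le)
    obtain ⟨ε, hε, hεr, hloc⟩ := lsig D.toPreDom hu B
    have hmemr : S.X u ∈ B.U B.r := B.mem_U B.hr
    have hb : B.b (S.X u) = u := B.b_X (by simpa using B.hr)
    have hf : B.f (S.X u) = 0 := B.f_X (by simpa using B.hr)
    have hfd : fderiv ℝ B.f (S.X u) (z - S.X u) < 0 := by
      rw [B.fd S.smooth hmemr, B.g_eq hmemr, hb, inner_smul_left]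
      have h1 : 0 < ‖B.g (S.X u)‖ := B.g_pos hmemr
      have h2 : ⟪NN S.X u, z - S.X u⟫ < 0 := by
        rw [real_inner_comm]
        exact hcon
      simp only [RCLike.conj_to_real]
      exact mul_neg_of_pos_of_neg h1 h2
    have hline : HasDerivAt (fun s : ℝ => S.X u + s • (z - S.X u)) (z - S.X u) 0 := by
      simpa using ((hasDerivAt_id (0 : ℝ)).smul_const (z - S.X u)).const_add (S.X u)
    have hfx : HasFDerivAt B.f (fderiv ℝ B.f (S.X u)) (S.X u + (0 : ℝ) • (z - S.X u)) := by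
      rw [zero_smul, add_zero]
      exact ((B.smooth_f hmemr).differentiableAt (by norm_num)).hasFDerivAt
    have hcomp : HasDerivAt (fun s : ℝ => B.f (S.X u + s • (z - S.X u)))
        (fderiv ℝ B.f (S.X u) (z - S.X u)) 0 := hfx.comp_hasDerivAt 0 hline
    have h3 := WST_dec hcomp hfd
    have hcontline : Tendsto (fun s : ℝ => S.X u + s • (z - S.X u)) (𝓝[>] 0) (𝓝 (S.X u)) := by
      have := hline.continuousAt.tendsto
      rw [zero_smul, add_zero] at this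
      exact this.mono_left nhdsWithin_le_nhds
    have h4 : ∀ᶠ s in 𝓝[>] (0 : ℝ), S.X u + s • (z - S.X u) ∈ B.U ε :=
      hcontline.eventually (B.U_nhds hε hεr)
    have h5 : ∀ᶠ s in 𝓝[>] (0 : ℝ), s ∈ Ioo (0 : ℝ) 1 := Ioo_mem_nhdsGT one_pos
    obtain ⟨s, hs3, hs4, hs5⟩ := (h3.and (h4.and h5)).exists
    rw [zero_smul, add_zero, hf] at hs3
    have h6 := (hloc _ hs4).2.2.2.2
    have h7 : S.X u + s • (z - S.X u) ∈ closure D.W := by
      have := hz.2 (S.X u) (sig_closure D.toPreDom (S.mem_Sig hu.le)) (1 - s)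
        (by linarith [hs5.2]) (by linarith [hs5.1])
      have e : z + (1 - s) • (S.X u - z) = S.X u + s • (z - S.X u) := by module
      rwa [e] at this
    have := h6.1 h7
    linarith
  by_cases h1 : ‖u‖ < 1
  · exact key u h1
  · have hcont : ContinuousAt (fun x : V2 => ⟪z - S.X x, S.N x⟫) u :=
      (continuousAt_const.sub S.smooth.continuous.continuousAt).inner (𝕜 := ℝ) (S.N_cont hu)
    have hr : Tendsto (fun r : ℝ => r • u) (𝓝[<] 1) (𝓝 u) := by
      have : Tendsto (fun r : ℝ => r • u) (𝓝 1) (𝓝 ((1 : ℝ) • u)) :=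
        (continuous_id.smul continuous_const).continuousAt
      rw [one_smul] at this
      exact this.mono_left nhdsWithin_le_nhds
    have hlim : Tendsto (fun r : ℝ => ⟪z - S.X (r • u), S.N (r • u)⟫) (𝓝[<] 1)
        (𝓝 ⟪z - S.X u, S.N u⟫) := hcont.tendsto.comp hr
    refine ge_of_tendsto hlim ?_
    filter_upwards [Ioo_mem_nhdsLT (show (0 : ℝ) < 1 from one_pos)] with r hr
    refine key _ ?_
    rw [norm_smul, Real.norm_of_nonneg hr.1.le]
    nlinarith [norm_nonneg u, hr.1, hr.2]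

/-- the point of the disc on the line through `z` and `y` -/
theorem WST_pt {z y : V3} (hy : InCone z y) {d : V3}
    (hd : d = z + (-(z 2) / (y 2 - z 2)) • (y - z)) :
    d 2 = 0 ∧ d 0 ^ 2 + d 1 ^ 2 < 1 := by
  obtain ⟨h1, h2⟩ := hy
  have hne : y 2 - z 2 ≠ 0 := h1.ne'
  have e2 : d 2 = 0 := by
    rw [hd]
    simp only [PiLp.add_apply, PiLp.smul_apply, PiLp.sub_apply, smul_eq_mul]
    field_simp
    ring
  have e0 : d 0 = (-(z 2) * y 0 + y 2 * z 0) / (y 2 - z 2) := by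
    rw [hd]
    simp only [PiLp.add_apply, PiLp.smul_apply, PiLp.sub_apply, smul_eq_mul]
    field_simp
    ring
  have e1 : d 1 = (-(z 2) * y 1 + y 2 * z 1) / (y 2 - z 2) := by
    rw [hd]
    simp only [PiLp.add_apply, PiLp.smul_apply, PiLp.sub_apply, smul_eq_mul]
    field_simp
    ring
  refine ⟨e2, ?_⟩
  rw [e0, e1, div_pow, div_pow, ← add_div, div_lt_one (by positivity)]
  exact h2

theorem wst2 {S : Surf} {D : Dom S} {z : V3} (hz : WStar D z) {y : V3} (hy : InCone z y)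
    (h2 : 0 < y 2) : y ∉ closure D.W := by
  intro hyW
  have hz2 : z 2 < 0 := hz.1
  set τ : ℝ := -(z 2) / (y 2 - z 2) with hτ
  have hden : 0 < y 2 - z 2 := hy.1
  have hτ1 : τ < 1 := by
    rw [hτ, div_lt_one hden]
    linarith
  have hτ0 : 0 < τ := div_pos (by linarith) hden
  obtain ⟨hd2, hd1⟩ := WST_pt hy (d := z + τ • (y - z)) rfl
  obtain ⟨ε, hε, hloc⟩ := ldisc D.toPreDom hd2 hd1
  have hcont : Tendsto (fun σ : ℝ => z + σ • (y - z)) (𝓝[>] τ) (𝓝 (z + τ • (y - z))) := by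
    have : Continuous fun σ : ℝ => z + σ • (y - z) := by fun_prop
    exact this.continuousAt.tendsto.mono_left nhdsWithin_le_nhds
  have h3 : ∀ᶠ σ in 𝓝[>] τ, z + σ • (y - z) ∈ ball (z + τ • (y - z)) ε :=
    hcont.eventually (ball_mem_nhds _ hε)
  have h4 : ∀ᶠ σ in 𝓝[>] τ, σ ∈ Ioo τ 1 := Ioo_mem_nhdsGT hτ1
  obtain ⟨σ, hσ3, hσ4⟩ := (h3.and h4).exists
  have h5 := (hloc _ hσ3).2.2
  have h6 := h5.1 (hz.2 y hyW σ (hτ0.le.trans hσ4.1.le) hσ4.2.le)
  have h7 : (z + σ • (y - z)) 2 = z 2 + σ * (y 2 - z 2) := by simp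
  have h8 : τ * (y 2 - z 2) = -(z 2) := by
    rw [hτ]
    field_simp
  have h9 : τ * (y 2 - z 2) < σ * (y 2 - z 2) := mul_lt_mul_of_pos_right hσ4.1 hden
  rw [h7] at h6
  linarith

theorem wst3 {S : Surf} {D : Dom S} {z : V3} (hz : WStar D z) {y : V3} (hy : InCone z y)
    (h2 : y 2 < 0) : y ∈ D.W := by
  have hz2 : z 2 < 0 := hz.1
  have hcl : ∀ y : V3, InCone z y → y 2 < 0 → y ∈ closure D.W := by
    intro y hy h2
    have hden : 0 < y 2 - z 2 := hy.1
    set τ : ℝ := -(z 2) / (y 2 - z 2) with hτ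
    have hτ0 : 0 < τ := div_pos (by linarith) hden
    have hτ1 : 1 ≤ τ := by
      rw [hτ, one_le_div hden]
      linarith
    obtain ⟨hd2, hd1⟩ := WST_pt hy (d := z + τ • (y - z)) rfl
    obtain ⟨ε, hε, hloc⟩ := ldisc D.toPreDom hd2 hd1
    have hdW : z + τ • (y - z) ∈ closure D.W := (hloc _ (mem_ball_self hε)).2.2.2 hd2.le
    have := hz.2 _ hdW τ⁻¹ (by positivity) (inv_le_one_of_one_le₀ hτ1)
    rwa [add_sub_cancel_left, smul_smul, inv_mul_cancel₀ hτ0.ne', one_smul,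
      add_sub_cancel] at this
  by_contra hyW
  have hfr : y ∈ frontier D.W := ⟨hcl y hy h2, by rwa [D.isOpen.interior_eq]⟩
  rcases D.fr hfr with ⟨u, hu, rfl⟩ | hD
  · have hu1 : ‖u‖ < 1 := by
      refine lt_of_le_of_ne hu fun h => ?_
      have := (S.bd1 h).1
      linarith
    obtain ⟨ε, hε, hs⟩ := D.inS u hu1
    have hc : ∀ i : Fin 3, Continuous fun y : V3 => y i := fun i => by fun_prop
    have hO : IsOpen {y : V3 | InCone z y ∧ y 2 < 0} := by
      refine IsOpen.inter (IsOpen.inter ?_ ?_) (isOpen_lt (hc 2) continuous_const)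
      · exact isOpen_lt continuous_const ((hc 2).sub continuous_const)
      · have hl : Continuous fun y : V3 =>
            (-(z 2) * y 0 + y 2 * z 0) ^ 2 + (-(z 2) * y 1 + y 2 * z 1) ^ 2 := by fun_prop
        have hr : Continuous fun y : V3 => (y 2 - z 2) ^ 2 := by fun_prop
        exact isOpen_lt hl hr
    have hlim : Tendsto (fun s : ℝ => S.X u - s • S.N u) (𝓝[>] 0) (𝓝 (S.X u)) := by
      have : Continuous fun s : ℝ => S.X u - s • S.N u := by fun_prop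
      have := this.continuousAt.tendsto (x := 0)
      rw [zero_smul, sub_zero] at this
      exact this.mono_left nhdsWithin_le_nhds
    have h3 : ∀ᶠ s in 𝓝[>] (0 : ℝ), S.X u - s • S.N u ∈ {y : V3 | InCone z y ∧ y 2 < 0} :=
      hlim.eventually (hO.mem_nhds ⟨hy, h2⟩)
    have h4 : ∀ᶠ s in 𝓝[>] (0 : ℝ), s ∈ Ioo (0 : ℝ) ε := Ioo_mem_nhdsGT hε
    obtain ⟨s, hs3, hs4⟩ := (h3.and h4).exists
    exact (hs s hs4.1 hs4.2).2 (hcl _ hs3.1 hs3.2)
  · exact absurd hD.1 h2.ne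

end Pool.Agent.H99.SC

end S_WST

section S_WHL

/-!
# WHL: the linear functional at a weak hinge (paper, section 6)

`z = zc e a h`, `n = nT e T`, `p = X u₀`, `N = N u₀`, `⟪n,p⟫ = tT h a T`, `⟪z - p, N⟫ = 0`,
`f = B.f`, `g = ∇f(p) = |g| N` (`fd`, `g_eq`; `b p = u₀` by `b_X`), `Q = D2 f p`, `ς = 1 - a T/h`, `L v = Q v n - ς ⟪g,p⟫ ⟪v,n⟫`.
Claim: `L (TT p) = 0` and `L (nu) > 0`.
(0) `N = N_r p + N_3 E3` (`N_decomp`); `⟪z - p, N⟫ = 0` reads `N_r (1 + a ⟪e,p⟫) + h N_3 = 0`.  Hence `N_r ≠ 0`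
  (else `N_3 = 0`).  `1 + a⟪e,p⟫` is not used.
(6) `G(x) = ⟪z - x, ∇f(x)⟫ = fderiv f x (z - x)` is C^1 near `p`, `G p = 0`; for `‖u‖ ≤ 1` near `u₀`,
  `G (X u) = |g| ⟪z - X u, N u⟫ ≥ 0` (`wst1`).  So its derivative along `ψ ↦ X (cu ψ)` is 0 at `u₀` (interior
  minimum; velocity `lam TT p`, `lam ≠ 0`) and along `s ↦ X (u₀ - s u₀)`, `s ≥ 0`, it is `≥ 0`.
  `DG(p) v = Q v (z-p) - ⟪v,g⟫`, `= Q v (z-p)` for tangent `v`.  So `Q (TT) (z-p) = 0` and
  `Q (fderiv X u₀ u₀) (z-p) ≤ 0`; with `Xr_decomp` and `ori`: `Q nu (z-p) ≤ 0`.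
  `Q TT TT = ⟪g,p⟫`: differentiate `f (cos ψ, sin ψ, 0) = 0` (near `p`; points of the circle near `p` are
  `X v`, `v` near `u₀`, by `S.bd`, `S.emb`) twice: `Q TT TT + Df(p)(-p) = 0`.
(7) `n = μ (p - z) + λ TT p` (`hinge_vec`, `μ = T/sqrt(1+T^2)/h > 0`, `λ = ς ⟪n,TT p⟫`):
  `L(TT) = μ Q TT (p-z) + λ Q TT TT - ς ⟪g,p⟫⟪TT,n⟫ = λ ⟪g,p⟫ - ς ⟪g,p⟫ ⟪TT,n⟫ = 0`.
  `p - z` is orthogonal to `N`, so `p - z = b nu + c TT` with `b = ⟪p-z,nu⟫` (`nu, TT, N` orthonormal),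
  `nu = N_3 p - N_r E3`, so `b = N_3 (1 + a⟪e,p⟫) - N_r h` and by (0) `N_r b = -h (N_3^2 + N_r^2) = -h`.
  `b L(nu) = L(p-z) = Q (p-z) n - ς⟪g,p⟫⟪p-z,n⟫`; `Q (p-z) n = μ Q (p-z)(p-z) + λ Q (p-z) TT =
  μ Q (p-z)(p-z) = μ b Q nu (p-z)`.  So
  `L(nu) = μ Q nu (p-z) - (ς ⟪g,p⟫/b) ⟪p-z,n⟫ > 0`: `Q nu (p-z) ≥ 0`, `⟪g,p⟫ = |g| N_r`,
  `-N_r/b = N_r^2/h > 0`, `ς > 0`, `⟪p-z,n⟫ = tT + (a + h T)/sqrt(1+T^2) > 0`.
-/


open scoped RealInnerProductSpace Topology
open Metric Filter Set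


namespace Pool.Agent.H99.SC

theorem WHL_curve {f : V3 → ℝ} {p : V3} (hf : ContDiffAt ℝ 2 f p) {y w : ℝ → V3} {y' w' : V3}
    (hy : HasDerivAt y y' 0) (hy0 : y 0 = p) (hw : HasDerivAt w w' 0) :
    HasDerivAt (fun s => fderiv ℝ f (y s) (w s)) (D2 f p y' (w 0) + fderiv ℝ f p w') 0 := by
  have h1 : HasFDerivAt (fderiv ℝ f) (fderiv ℝ (fderiv ℝ f) p) (y 0) := by
    rw [hy0]
    exact ((contDiffAt_fderiv hf).differentiableAt (by norm_num)).hasFDerivAt
  have h2 : HasDerivAt (fun s => fderiv ℝ f (y s)) (fderiv ℝ (fderiv ℝ f) p y') 0 :=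
    h1.comp_hasDerivAt 0 hy
  have := h2.clm_apply hw
  simpa [hy0, D2] using this

theorem WHL_right {φ : ℝ → ℝ} {φ' : ℝ} (h : HasDerivAt φ φ' 0) (h0 : φ 0 = 0)
    (hp : ∀ᶠ s in 𝓝[>] (0 : ℝ), 0 ≤ φ s) : 0 ≤ φ' := by
  have h1 := hasDerivAt_iff_tendsto_slope.1 h
  have h2 : Tendsto (slope φ 0) (𝓝[>] (0 : ℝ)) (𝓝 φ') :=
    h1.mono_left (nhdsWithin_mono _ fun x hx => (ne_of_gt hx : x ≠ 0))
  refine ge_of_tendsto h2 ?_
  filter_upwards [hp, self_mem_nhdsWithin] with s hs hs0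
  rw [slope_def_field, h0]
  have : (0 : ℝ) < s := hs0
  simp only [sub_zero]
  positivity

theorem WHL_circ (p : V3) (ψ : ℝ) :
    HasDerivAt (fun ψ : ℝ => Real.cos ψ • p + Real.sin ψ • TT p)
      (-(Real.sin ψ) • p + Real.cos ψ • TT p) ψ :=
  ((Real.hasDerivAt_cos ψ).smul_const p).add ((Real.hasDerivAt_sin ψ).smul_const (TT p))

theorem WHL_circ' (p : V3) (ψ : ℝ) :
    HasDerivAt (fun ψ : ℝ => -(Real.sin ψ) • p + Real.cos ψ • TT p)
      (-(Real.cos ψ) • p + -(Real.sin ψ) • TT p) ψ :=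
  ((Real.hasDerivAt_sin ψ).neg.smul_const p).add ((Real.hasDerivAt_cos ψ).smul_const (TT p))

/-- orthonormal decomposition -/
theorem WHL_basis {p : V3} (h2 : p 2 = 0) (h1 : p 0 ^ 2 + p 1 ^ 2 = 1) {x y : ℝ}
    (hxy : x ^ 2 + y ^ 2 = 1) (v : V3) :
    v = ⟪v, x • p + y • E3⟫ • (x • p + y • E3) + ⟪v, y • p - x • E3⟫ • (y • p - x • E3)
      + ⟪v, TT p⟫ • TT p := by
  apply ext3
  · simp [ip, h2]
    linear_combination (-(v 0 * p 0 + v 1 * p 1) * p 0) * hxy - v 0 * h1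
  · simp [ip, h2]
    linear_combination (-(v 0 * p 0 + v 1 * p 1) * p 1) * hxy - v 1 * h1
  · simp [ip, h2]
    linear_combination (-(v 2)) * hxy

theorem weak_L {S : Surf} (D : Dom S) {e : V3} (he : ‖e‖ = 1) (he2 : e 2 = 0) {a h T : ℝ}
    (ha : 0 ≤ a) (hh : 0 < h) (hT : 0 < T) (hT2 : a * T < h) (hz : WStar D (zc e a h))
    {u₀ : V2} (hu₀ : ‖u₀‖ = 1) (hl : ⟪nT e T, S.X u₀⟫ = tT h a T)
    (hw : ⟪zc e a h - S.X u₀, S.N u₀⟫ = 0) (B : Box S.X u₀ (S.N u₀)) :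
    D2 B.f (S.X u₀) (TT (S.X u₀)) (nT e T)
        - (1 - a * T / h) * ⟪B.g (S.X u₀), S.X u₀⟫ * ⟪TT (S.X u₀), nT e T⟫ = 0 ∧
      0 < D2 B.f (S.X u₀) (S.nu u₀) (nT e T)
        - (1 - a * T / h) * ⟪B.g (S.X u₀), S.X u₀⟫ * ⟪S.nu u₀, nT e T⟫ := by
  set p := S.X u₀ with hp
  set z := zc e a h with hzdef
  set n := nT e T with hn
  set f := B.f with hf
  have hpU : p ∈ B.U B.r := B.mem_U B.hr
  have hfs : ContDiffAt ℝ 2 f p := B.smooth_f hpU
  obtain ⟨hp2, hp1⟩ := S.bd1 hu₀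
  rw [← hp] at hp2 hp1
  -- values of the derivative of `f` along the surface
  have hfd : ∀ v : V2, ‖v - u₀‖ < B.r → ∀ w : V3,
      fderiv ℝ f (S.X v) w = ‖B.g (S.X v)‖ * ⟪S.N v, w⟫ := by
    intro v hv w
    have hU : S.X v ∈ B.U B.r := by
      have := B.mk_mem (X := S.X) (e := S.N u₀) hv (s := 0) (by simpa using B.hr)
      simpa using this
    have hg := B.g_eq hU
    rw [B.b_X hv] at hg
    rw [hf, B.fd S.smooth hU]
    conv_lhs => rw [hg]
    rw [real_inner_smul_left]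
    rfl
  have hu0r : ‖u₀ - u₀‖ < B.r := by simpa using B.hr
  set G := ‖B.g p‖ with hG
  have hGpos : 0 < G := B.g_pos hpU
  have hfp : ∀ w : V3, fderiv ℝ f p w = G * ⟪S.N u₀, w⟫ := fun w => hfd u₀ hu0r w
  have hgp : ⟪B.g p, p⟫ = G * S.Nr u₀ := by
    rw [← B.fd S.smooth hpU, ← hf, hfp]
    rfl
  -- nonnegativity of the function `G`
  have hnonneg : ∀ v : V2, ‖v‖ ≤ 1 → ‖v - u₀‖ < B.r → 0 ≤ fderiv ℝ f (S.X v) (z - S.X v) := by
    intro v hv hv2
    rw [hfd v hv2, real_inner_comm]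
    exact mul_nonneg (norm_nonneg _) (wst1 hz hv)
  -- the circle near `p`
  have hc2 : ∀ ψ : ℝ, (Real.cos ψ • p + Real.sin ψ • TT p) 2 = 0 := by
    intro ψ
    simp [hp2]
  have hc1 : ∀ ψ : ℝ, (Real.cos ψ • p + Real.sin ψ • TT p) 0 ^ 2
      + (Real.cos ψ • p + Real.sin ψ • TT p) 1 ^ 2 = 1 := by
    intro ψ
    simp
    have := Real.sin_sq_add_cos_sq ψ
    linear_combination (Real.cos ψ ^ 2 + Real.sin ψ ^ 2) * hp1 + this
  have hc0 : Real.cos 0 • p + Real.sin 0 • TT p = p := by simp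
  have hcev : ∀ᶠ ψ in 𝓝 (0 : ℝ), ∃ v : V2, ‖v‖ ≤ 1 ∧ ‖v - u₀‖ < B.r ∧
      S.X v = Real.cos ψ • p + Real.sin ψ • TT p := by
    obtain ⟨δ, hδ, hem⟩ := S.emb hu₀.le B.hr
    have hcont : Tendsto (fun ψ : ℝ => Real.cos ψ • p + Real.sin ψ • TT p) (𝓝 0) (𝓝 p) := by
      have := (WHL_circ p 0).continuousAt.tendsto
      simpa using this
    filter_upwards [hcont.eventually (Metric.ball_mem_nhds p hδ)] with ψ hψ
    obtain ⟨v, hv, hvX⟩ := (S.bd _).2 ⟨hc2 ψ, hc1 ψ⟩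
    refine ⟨v, hv.le, hem v hv.le ?_, hvX⟩
    rw [hvX, ← dist_eq_norm]
    exact hψ
  -- (a) `Q TT TT = ⟪g, p⟫`
  have hQTT : D2 f p (TT p) (TT p) = G * S.Nr u₀ := by
    have hzero : ∀ᶠ ψ in 𝓝 (0 : ℝ), f (Real.cos ψ • p + Real.sin ψ • TT p) = 0 := by
      filter_upwards [hcev] with ψ hψ
      obtain ⟨v, hv, hv2, hvX⟩ := hψ
      rw [← hvX]
      exact B.f_X hv2
    have hUev : ∀ᶠ ψ in 𝓝 (0 : ℝ), Real.cos ψ • p + Real.sin ψ • TT p ∈ B.U B.r := by
      have hcont : Tendsto (fun ψ : ℝ => Real.cos ψ • p + Real.sin ψ • TT p) (𝓝 0) (𝓝 p) := by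
        have := (WHL_circ p 0).continuousAt.tendsto
        simpa using this
      exact hcont.eventually (B.U_nhds B.hr le_rfl)
    have hder : ∀ᶠ ψ in 𝓝 (0 : ℝ), fderiv ℝ f (Real.cos ψ • p + Real.sin ψ • TT p)
        (-(Real.sin ψ) • p + Real.cos ψ • TT p) = 0 := by
      filter_upwards [hzero.eventually_nhds, hUev] with ψ hψ hψU
      have h1 : HasDerivAt (fun ψ : ℝ => f (Real.cos ψ • p + Real.sin ψ • TT p))
          (fderiv ℝ f (Real.cos ψ • p + Real.sin ψ • TT p)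
            (-(Real.sin ψ) • p + Real.cos ψ • TT p)) ψ := by
        have h2 : HasFDerivAt f (fderiv ℝ f (Real.cos ψ • p + Real.sin ψ • TT p))
            (Real.cos ψ • p + Real.sin ψ • TT p) :=
          ((B.smooth_f hψU).differentiableAt (by norm_num)).hasFDerivAt
        exact h2.comp_hasDerivAt ψ (WHL_circ p ψ)
      have h3 : HasDerivAt (fun ψ : ℝ => f (Real.cos ψ • p + Real.sin ψ • TT p)) 0 ψ :=
        (hasDerivAt_const ψ (0 : ℝ)).congr_of_eventuallyEq hψ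
      exact h1.unique h3
    have h1 := WHL_curve (f := f) (p := p) hfs (WHL_circ p 0) hc0 (WHL_circ' p 0)
    have h2 : HasDerivAt (fun ψ : ℝ => fderiv ℝ f (Real.cos ψ • p + Real.sin ψ • TT p)
        (-(Real.sin ψ) • p + Real.cos ψ • TT p)) 0 0 :=
      (hasDerivAt_const (0 : ℝ) (0 : ℝ)).congr_of_eventuallyEq hder
    have h3 := h1.unique h2
    simp only [Real.sin_zero, Real.cos_zero, neg_zero, zero_smul, one_smul, zero_add, add_zero,
      neg_smul] at h3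
    rw [map_neg, hfp] at h3
    have h4 : ⟪S.N u₀, p⟫ = S.Nr u₀ := rfl
    rw [h4] at h3
    linarith
  -- (b) `Q TT (z - p) = 0`
  have hNTT : ⟪S.N u₀, TT p⟫ = 0 := S.N_TT hu₀
  have hNz : ⟪S.N u₀, z - p⟫ = 0 := by rw [real_inner_comm]; exact hw
  have hQTz : D2 f p (TT p) (z - p) = 0 := by
    have hw' : HasDerivAt (fun ψ : ℝ => z - (Real.cos ψ • p + Real.sin ψ • TT p))
        (-(-(Real.sin 0) • p + Real.cos 0 • TT p)) 0 := (WHL_circ p 0).const_sub z
    have h1 := WHL_curve (f := f) (p := p) hfs (WHL_circ p 0) hc0 hw'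
    have hmin : IsLocalMin (fun ψ : ℝ => fderiv ℝ f (Real.cos ψ • p + Real.sin ψ • TT p)
        (z - (Real.cos ψ • p + Real.sin ψ • TT p))) 0 := by
      have e0 : fderiv ℝ f (Real.cos 0 • p + Real.sin 0 • TT p)
          (z - (Real.cos 0 • p + Real.sin 0 • TT p)) = 0 := by
        rw [hc0, hfp, hNz, mul_zero]
      filter_upwards [hcev] with ψ hψ
      obtain ⟨v, hv, hv2, hvX⟩ := hψ
      rw [e0, ← hvX]
      exact hnonneg v hv hv2
    have h2 := hmin.hasDerivAt_eq_zero h1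
    simp only [Real.sin_zero, Real.cos_zero, neg_zero, zero_smul, one_smul, zero_add, add_zero] at h2
    rw [map_neg, hfp, hNTT, mul_zero, neg_zero, add_zero] at h2
    exact h2
  -- (c) `Q nu (z - p) ≤ 0`
  have hQnu : D2 f p (S.nu u₀) (z - p) ≤ 0 := by
    have hY : HasDerivAt (fun s : ℝ => S.X (u₀ - s • u₀)) (fderiv ℝ S.X u₀ (-u₀)) 0 := by
      have h1 : HasFDerivAt S.X (fderiv ℝ S.X u₀) (u₀ - (0 : ℝ) • u₀) := by
        rw [zero_smul, sub_zero]
        exact (S.smooth.differentiable (by norm_num)).differentiableAt.hasFDerivAt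
      have h2 : HasDerivAt (fun s : ℝ => u₀ - s • u₀) (-u₀) 0 := by
        have := ((hasDerivAt_id (0 : ℝ)).smul_const u₀).const_sub u₀
        simpa using this
      exact h1.comp_hasDerivAt 0 h2
    have hY0 : S.X (u₀ - (0 : ℝ) • u₀) = p := by rw [zero_smul, sub_zero]
    have h1 := WHL_curve (f := f) (p := p) hfs hY hY0 (hY.const_sub z)
    have h2 : 0 ≤ D2 f p (fderiv ℝ S.X u₀ (-u₀)) (z - S.X (u₀ - (0 : ℝ) • u₀))
        + fderiv ℝ f p (-(fderiv ℝ S.X u₀ (-u₀))) := by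
      refine WHL_right h1 ?_ ?_
      · rw [hY0, hfp, hNz, mul_zero]
      · have hr := B.hr
        have hev : ∀ᶠ s in 𝓝[>] (0 : ℝ), s < min 1 B.r :=
          nhdsWithin_le_nhds (eventually_lt_nhds (by positivity))
        filter_upwards [hev, self_mem_nhdsWithin] with s hs hs0
        have hs0' : (0 : ℝ) < s := hs0
        have hs1 : s < 1 := hs.trans_le (min_le_left _ _)
        have hs2 : s < B.r := hs.trans_le (min_le_right _ _)
        apply hnonneg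
        · have : u₀ - s • u₀ = (1 - s) • u₀ := by module
          rw [this, norm_smul, hu₀, Real.norm_eq_abs, abs_of_pos (by linarith)]
          linarith
        · rw [sub_sub_cancel_left, norm_neg, norm_smul, hu₀, Real.norm_eq_abs, abs_of_pos hs0']
          linarith
    rw [hY0, map_neg, neg_neg, hfp, S.N_orth, mul_zero, add_zero] at h2
    have h3 : D2 f p (-(fderiv ℝ S.X u₀ u₀)) (z - p) = -D2 f p (fderiv ℝ S.X u₀ u₀) (z - p) := by
      have := D2_smul (f := f) (x := p) (-1 : ℝ) (fderiv ℝ S.X u₀ u₀) (z - p)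
      simpa using this
    rw [h3, S.Xr_decomp hu₀, D2_add, D2_smul, D2_smul, ← hp, hQTz, smul_zero, add_zero,
      smul_eq_mul] at h2
    have hβ := ori D.toPreDom hu₀
    nlinarith
  -- algebra
  have hsym : ∀ v w : V3, D2 f p v w = D2 f p w v := fun v w => D2_symm hfs v w
  have hneg : ∀ v w w' : V3, D2 f p v (w - w') = -D2 f p v (w' - w) := by
    intro v w w'
    have := D2_smul' (f := f) (x := p) (-1 : ℝ) v (w' - w)
    rw [show (-1 : ℝ) • (w' - w) = w - w' by module] at this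
    rw [this, smul_eq_mul]; ring
  set μ := T / Real.sqrt (1 + T ^ 2) / h with hμ
  set ς := 1 - a * T / h with hς
  have hsq : 0 < Real.sqrt (1 + T ^ 2) := Real.sqrt_pos.2 (by positivity)
  have hμpos : 0 < μ := by positivity
  have hςpos : 0 < ς := by
    rw [hς, sub_pos, div_lt_one hh]
    exact hT2
  have hnv : n = μ • (p - z) + (ς * ⟪n, TT p⟫) • TT p := hinge_vec he he2 hh hT2 hp2 hp1 hl
  have hNs := S.Nr_sq hu₀
  set x := S.Nr u₀ with hx
  set y := S.N u₀ 2 with hy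
  have hNd : S.N u₀ = x • p + y • E3 := S.N_decomp hu₀
  have hnud : S.nu u₀ = y • p - x • E3 := rfl
  -- `L (TT p) = 0`
  have hL1 : D2 f p (TT p) n - ς * (G * x) * ⟪TT p, n⟫ = 0 := by
    have h1 : D2 f p (TT p) n = (ς * ⟪n, TT p⟫) * (G * x) := by
      conv_lhs => rw [hnv]
      rw [D2_add', D2_smul', D2_smul', hQTT, hneg, hQTz]
      simp
    rw [h1, real_inner_comm n (TT p)]
    ring
  refine ⟨by rw [hgp]; exact hL1, ?_⟩
  rw [hgp]
  -- the equation of the hinge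
  have hee : e 0 ^ 2 + e 1 ^ 2 = 1 := by
    have := nsq e
    rw [he, he2] at this
    linarith
  have h0 : x * (1 + a * (e 0 * p 0 + e 1 * p 1)) = -(h * y) := by
    have h1 := hNz
    rw [hNd] at h1
    simp [ip, hzdef, hp2] at h1
    linear_combination -h1 - x * hp1
  set b := ⟪p - z, S.nu u₀⟫ with hb
  have hb1 : b = y * (1 + a * (e 0 * p 0 + e 1 * p 1)) - x * h := by
    rw [hb, hnud]
    simp [ip, hzdef, hp2]
    linear_combination y * hp1
  have hxb : x * b = -h := by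
    rw [hb1]
    linear_combination y * h0 - h * hNs
  have hx0 : x ≠ 0 := by
    intro hx0
    rw [hx0, zero_mul] at hxb
    linarith
  have hb0 : b ≠ 0 := by
    intro hb0
    rw [hb0, mul_zero] at hxb
    linarith
  have hpz : p - z = b • S.nu u₀ + ⟪p - z, TT p⟫ • TT p := by
    have h1 := WHL_basis hp2 hp1 hNs (p - z)
    rw [← hNd, ← hnud] at h1
    have h2 : ⟪p - z, S.N u₀⟫ = 0 := by
      rw [← neg_sub z p, inner_neg_left, hw, neg_zero]
    rw [h2, zero_smul, zero_add] at h1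
    exact h1
  have hQpzT : D2 f p (p - z) (TT p) = 0 := by
    rw [hsym, hneg, hQTz, neg_zero]
  have hexp : ∀ w : V3, D2 f p (p - z) w = b * D2 f p (S.nu u₀) w
      + ⟪p - z, TT p⟫ * D2 f p (TT p) w := by
    intro w
    conv_lhs => rw [hpz]
    rw [D2_add, D2_smul, D2_smul]
    simp
  have hQpzpz : D2 f p (p - z) (p - z) = b * D2 f p (S.nu u₀) (p - z) := by
    rw [hexp, hneg (TT p), hQTz]
    ring
  have hQpzn : D2 f p (p - z) n = μ * (b * D2 f p (S.nu u₀) (p - z)) := by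
    conv_lhs => rw [hnv]
    rw [D2_add', D2_smul', D2_smul', hQpzT, hQpzpz]
    simp
  have hQpzn2 : D2 f p (p - z) n = b * D2 f p (S.nu u₀) n
      + ⟪p - z, TT p⟫ * D2 f p (TT p) n := hexp n
  have hin : ⟪p - z, n⟫ = b * ⟪S.nu u₀, n⟫ + ⟪p - z, TT p⟫ * ⟪TT p, n⟫ := by
    conv_lhs => rw [hpz]
    rw [inner_add_left, real_inner_smul_left, real_inner_smul_left]
  have hpn : 0 < ⟪p - z, n⟫ := by
    have h1 : ⟪p, n⟫ = tT h a T := by rw [real_inner_comm]; exact hl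
    have h2 : ⟪z, n⟫ = -((a + h * T) / Real.sqrt (1 + T ^ 2)) := by
      simp only [hzdef, hn, nT, ip]
      simp [he2]
      field_simp
      linear_combination (-a) * hee
    rw [inner_sub_left, h1, h2]
    have h3 : 0 < tT h a T := by
      unfold tT
      have : 0 < h - a * T := by linarith
      positivity
    have h4 : 0 < (a + h * T) / Real.sqrt (1 + T ^ 2) := by positivity
    linarith
  have hbL : b * (D2 f p (S.nu u₀) n - ς * (G * x) * ⟪S.nu u₀, n⟫)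
      = μ * (b * D2 f p (S.nu u₀) (p - z)) - ς * (G * x) * ⟪p - z, n⟫ := by
    linear_combination hQpzn - hQpzn2 + ς * (G * x) * hin - ⟪p - z, TT p⟫ * hL1
  have hfin : h * (D2 f p (S.nu u₀) n - ς * (G * x) * ⟪S.nu u₀, n⟫)
      = h * (μ * D2 f p (S.nu u₀) (p - z)) + ς * G * x ^ 2 * ⟪p - z, n⟫ := by
    linear_combination (-x) * hbL + (D2 f p (S.nu u₀) n - ς * (G * x) * ⟪S.nu u₀, n⟫
      - μ * D2 f p (S.nu u₀) (p - z)) * hxb
  have hQ2 : 0 ≤ D2 f p (S.nu u₀) (p - z) := by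
    rw [hneg]
    linarith
  have hpos : 0 < h * (D2 f p (S.nu u₀) n - ς * (G * x) * ⟪S.nu u₀, n⟫) := by
    rw [hfin]
    have : 0 < x ^ 2 := by positivity
    positivity
  exact (mul_pos_iff_of_pos_left hh).1 hpos

end Pool.Agent.H99.SC

end S_WHL

section S_WHB

/-!
# WHB: no bad sequence at a weak hinge

Apply `wh_core` to `f = B.f`, `B` a box at `u₀` with `e = N u₀`, `p = X u₀`, `n = nT e T`,
`ς = 1 - a T/h`, `ςk = 1 - a Tk/h`, `nk = nT e (Tk k)`, `sk k = ⟪nk, X (uk k)⟫ - tT h a (Tk k) > 0`,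
`Yk = X (uk k) - sk nk`, so `Yk + sk nk = X (uk k)`, `Yk - sk nk = refl nk tk (X (uk k))`; drop finitely many terms
(compose the sequences with `k ↦ k + K`).  Hypotheses:
 * `hfc`: `Disc` circle points near `p` are `X v`, `‖v‖ = 1`, `v` near `u₀` (`S.bd`, `S.emb`, `f_X`).
 * `F p p = ⟪g,p⟫ = ‖g‖ N_r ≠ 0`: `⟪z - p, N⟫ = 0` reads `N_r (1 + a ⟪e,p⟫) + h N_3 = 0`, so `N_r = 0` would give
   `N_3 = 0`.  `F p n = ‖g‖ ⟪N,n⟫ = 0` by `hinge_id` with `N = N_r p + N_3 E3` (`⟪n,p⟫ = tT`, `hw`).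
 * hL0, hL1: `weak_L` (`(F p E3) p - (F p p) E3 = ‖g‖ nu`).
 * `sk → 0`: continuity of `tT h a` at `T` (`h - a T > 0`), `⟪n,p⟫ = tT h a T`.
 * h1: `f (X (uk k)) = 0` (`f_X`).  h2, h3: the reflected point `R_k → p` is not in the closure of `W`.
   If `N_r < 0`: by `loc_neg`... `X (uk k)` is in the closure (`sig_closure`) so by `loc_neg` (third part) `(X (uk k)) 2 ≤ 0`,
   `(Yk) 2 = (X (uk k)) 2 - sk (nk) 2 ≤ - sk (nk) 2`; `(R_k) 2 = (X (uk k)) 2 - 2 sk (nk) 2 < 0`, and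
   if `f R_k > 0` then `R_k ∈ W` by `loc_neg`: so `f R_k ≤ 0`.
   If `N_r > 0`: `loc_pos`: `f R_k ≤ 0` and `(R_k) 2 ≥ 0` (else `R_k ∈ W`); `(Yk) 2 = (R_k) 2 + sk (nk) 2 ≥ sk (nk) 2`.
   `(nk) 2 = Tk/sqrt(1+Tk^2) > 0` for large `k`.
 * h4: `c` on the circle near `p`: `c = X v`, `‖v‖ = 1`, `F c w = ‖g c‖ ⟪N v, w⟫`, `N v = x c + y E3`;
   `hinge_id` at `Tk` (for large `k`: `a Tk < h`): `⟪nk, N v⟫ = -(..) ⟪z - c, N v⟫ + ςk (⟪nk,c⟫ - tk) ⟪c, N v⟫
   ≤ ςk (⟪nk,c⟫ - tk) ⟪c, N v⟫` by `wst1`, and `⟪nk, Yk⟫ = tk` (`|nk| = 1`).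
-/


open scoped RealInnerProductSpace Topology
open Metric Filter Set


namespace Pool.Agent.H99.SC

theorem WHB_mem {S : Surf} {u₀ : V2} {e : V3} (B : Box S.X u₀ e) {v : V2}
    (hv : ‖v - u₀‖ < B.r) : S.X v ∈ B.U B.r := by
  have := B.mk_mem (ε := B.r) hv (s := 0) (by simpa using B.hr)
  simpa using this

/-- the derivative of the defining function at a point of the surface -/
theorem WHB_F {S : Surf} {u₀ : V2} {e : V3} (B : Box S.X u₀ e) {v : V2}
    (hv : ‖v - u₀‖ < B.r) (w : V3) :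
    fderiv ℝ B.f (S.X v) w = ‖B.g (S.X v)‖ * ⟪S.N v, w⟫ := by
  have hm := WHB_mem B hv
  have h1 := B.g_eq hm
  rw [B.b_X hv] at h1
  have h2 : ⟪B.g (S.X v), w⟫ = ⟪‖B.g (S.X v)‖ • S.N v, w⟫ := congrArg (fun x => ⟪x, w⟫) h1
  rw [B.fd S.smooth hm, h2, inner_smul_left]
  simp

theorem WHB_tT_cont {h a T : ℝ} (hT2 : a * T < h) : ContinuousAt (tT h a) T := by
  unfold tT
  have h1 : 0 < Real.sqrt (1 + T ^ 2) := Real.sqrt_pos.2 (by positivity)
  have h2 : 0 < h - a * T := by linarith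
  apply ContinuousAt.div continuousAt_id
  · apply ContinuousAt.mul
    · fun_prop
    · exact (Real.continuous_sqrt.comp (by fun_prop : Continuous fun T : ℝ => 1 + T ^ 2)).continuousAt
  · positivity

theorem WHB_nT2 {e : V3} (he2 : e 2 = 0) (T : ℝ) :
    (nT e T) 2 = (Real.sqrt (1 + T ^ 2))⁻¹ * T := by
  unfold nT
  simp [he2]

/-- radial component of the normal is not zero at a weak hinge -/
theorem WHB_Nr {S : Surf} {e : V3} {a h : ℝ} (hh : 0 < h) {u₀ : V2} (hu₀ : ‖u₀‖ = 1)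
    (hw : ⟪zc e a h - S.X u₀, S.N u₀⟫ = 0) : S.Nr u₀ ≠ 0 := by
  intro h0
  have h1 := S.N_decomp hu₀
  have h2 := S.Nr_sq hu₀
  obtain ⟨hp2, hp1⟩ := S.bd1 hu₀
  rw [h0, zero_smul, zero_add] at h1
  rw [h1, inner_smul_right, ip] at hw
  simp only [PiLp.sub_apply, zc_0, zc_1, zc_2, E3_0, E3_1, E3_2, hp2] at hw
  rw [h0] at h2
  have h3 : (S.N u₀) 2 = 0 := by
    have : (S.N u₀) 2 * h = 0 := by linarith
    rcases mul_eq_zero.1 this with h4 | h4
    · exact h4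
    · exact absurd h4 hh.ne'
  rw [h3] at h2
  norm_num at h2

theorem weak_hinge {S : Surf} (D : Dom S) {e : V3} (he : ‖e‖ = 1) (he2 : e 2 = 0) {a h T : ℝ}
    (ha : 0 ≤ a) (hh : 0 < h) (hT : 0 < T) (hT2 : a * T < h) (hz : WStar D (zc e a h))
    {u₀ : V2} (hu₀ : ‖u₀‖ = 1) (hl : ⟪nT e T, S.X u₀⟫ = tT h a T)
    (hw : ⟪zc e a h - S.X u₀, S.N u₀⟫ = 0) {Tk : ℕ → ℝ} {uk : ℕ → V2}
    (hTk : Tendsto Tk atTop (𝓝 T)) (huk : Tendsto uk atTop (𝓝 u₀)) (hu1 : ∀ k, ‖uk k‖ ≤ 1)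
    (hlk : ∀ k, tT h a (Tk k) < ⟪nT e (Tk k), S.X (uk k)⟫)
    (hbad : ∀ k, refl (nT e (Tk k)) (tT h a (Tk k)) (S.X (uk k)) ∉ closure D.W) : False := by
  have hX := S.smooth.continuous
  have hnn : 0 < ⟪nn S.X u₀, S.N u₀⟫ := by
    rw [S.nn_eq hu₀.le, inner_smul_left, real_inner_self_eq_norm_sq, S.N_norm hu₀.le]
    simpa using S.nn_pos hu₀.le
  obtain ⟨B⟩ := exists_box S.smooth hnn
  obtain ⟨hp2, hp1⟩ := S.bd1 hu₀
  have hu00 : ‖u₀ - u₀‖ < B.r := by simpa using B.hr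
  have hmem := WHB_mem B hu00
  have hgp : 0 < ‖B.g (S.X u₀)‖ := B.g_pos hmem
  have hNr : S.Nr u₀ ≠ 0 := WHB_Nr hh hu₀ hw
  have hFp : ∀ w, fderiv ℝ B.f (S.X u₀) w = ‖B.g (S.X u₀)‖ * ⟪S.N u₀, w⟫ := fun w =>
    WHB_F B hu00 w
  have hFpp : fderiv ℝ B.f (S.X u₀) (S.X u₀) = ‖B.g (S.X u₀)‖ * S.Nr u₀ := hFp _
  -- the functional
  obtain ⟨hL0, hL1⟩ := weak_L D he he2 ha hh hT hT2 hz hu₀ hl hw B
  rw [← B.fd S.smooth hmem] at hL0 hL1
  -- points of the circle
  obtain ⟨δ, hδ, hemb⟩ := S.emb hu₀.le B.hr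
  have hcirc : ∀ y : V3, ‖y - S.X u₀‖ < δ → y 2 = 0 → y 0 ^ 2 + y 1 ^ 2 = 1 →
      ∃ v : V2, ‖v‖ = 1 ∧ S.X v = y ∧ ‖v - u₀‖ < B.r := by
    intro y hy h2 h1
    obtain ⟨v, hv, hvy⟩ := (S.bd y).2 ⟨h2, h1⟩
    refine ⟨v, hv, hvy, hemb v hv.le ?_⟩
    rw [hvy]; exact hy
  -- the sequences
  set n' : ℕ → V3 := fun k => nT e (Tk k) with hn'
  set t' : ℕ → ℝ := fun k => tT h a (Tk k) with ht'
  set s' : ℕ → ℝ := fun k => ⟪n' k, S.X (uk k)⟫ - t' k with hs'
  set Y' : ℕ → V3 := fun k => S.X (uk k) - s' k • n' k with hY'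
  have ln : Tendsto n' atTop (𝓝 (nT e T)) := ((nT_cont e).tendsto T).comp hTk
  have lt : Tendsto t' atTop (𝓝 (tT h a T)) := (WHB_tT_cont hT2).tendsto.comp hTk
  have lX : Tendsto (fun k => S.X (uk k)) atTop (𝓝 (S.X u₀)) := (hX.tendsto u₀).comp huk
  have ls : Tendsto s' atTop (𝓝 0) := by
    have := (ln.inner lX).sub lt
    rw [hl, sub_self] at this
    exact this
  have lY : Tendsto Y' atTop (𝓝 (S.X u₀)) := by
    have := lX.sub (ls.smul ln)
    rw [zero_smul, sub_zero] at this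
    exact this
  have hR : ∀ k, Y' k - s' k • n' k = refl (n' k) (t' k) (S.X (uk k)) := by
    intro k
    simp only [hY', hs', refl]
    module
  have lR : Tendsto (fun k => refl (n' k) (t' k) (S.X (uk k))) atTop (𝓝 (S.X u₀)) := by
    have := lY.sub (ls.smul ln)
    rw [zero_smul, sub_zero] at this
    exact this.congr hR
  have hs0 : ∀ k, 0 < s' k := fun k => sub_pos.2 (hlk k)
  have hYn : ∀ k, ⟪n' k, Y' k⟫ = t' k := by
    intro k
    have h1 : ⟪n' k, n' k⟫ = 1 := by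
      rw [real_inner_self_eq_norm_sq]
      simp only [hn']
      rw [nT_norm he he2]; norm_num
    simp only [hY']
    rw [inner_sub_right, inner_smul_right, h1]
    simp only [hs']
    ring
  -- eventual facts
  have ev1 : ∀ᶠ k in atTop, ‖uk k - u₀‖ < B.r := by
    have := huk.sub_const u₀
    rw [sub_self] at this
    have h2 := this.norm
    rw [norm_zero] at h2
    exact h2.eventually_lt_const B.hr
  have ev2 : ∀ᶠ k in atTop, 0 < Tk k := hTk.eventually_const_lt hT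
  have ev3 : ∀ᶠ k in atTop, a * Tk k < h := (hTk.const_mul a).eventually_lt_const hT2
  have ev4 : ∀ᶠ k in atTop, B.f (refl (n' k) (t' k) (S.X (uk k))) ≤ 0 ∧
      ((0 < S.Nr u₀ → s' k * (n' k) 2 ≤ (Y' k) 2) ∧
        (S.Nr u₀ < 0 → (Y' k) 2 ≤ -(s' k * (n' k) 2))) := by
    have hn2 : ∀ᶠ k in atTop, 0 < (n' k) 2 := by
      filter_upwards [ev2] with k hk
      simp only [hn']
      rw [WHB_nT2 he2]
      have : 0 < Real.sqrt (1 + Tk k ^ 2) := Real.sqrt_pos.2 (by positivity)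
      positivity
    have hRY : ∀ k, (refl (n' k) (t' k) (S.X (uk k))) 2 = (Y' k) 2 - s' k * (n' k) 2 := by
      intro k
      rw [← hR k]
      simp
    have hYX : ∀ k, (Y' k) 2 = (S.X (uk k)) 2 - s' k * (n' k) 2 := by
      intro k
      simp [hY']
    rcases lt_or_gt_of_ne hNr with hneg | hpos
    · have hloc := loc_neg D.toPreDom hu₀ hneg B
      filter_upwards [lX.eventually hloc, lR.eventually hloc, hn2] with k h1 h2 h3
      have h4 : (S.X (uk k)) 2 ≤ 0 := by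
        by_contra hcon
        exact h1.2.2 (not_le.1 hcon) (sig_closure D.toPreDom (S.mem_Sig (hu1 k)))
      have h5 : 0 < s' k * (n' k) 2 := mul_pos (hs0 k) h3
      refine ⟨?_, fun h => absurd h (not_lt.2 hneg.le), fun _ => by rw [hYX k]; linarith⟩
      by_contra hcon
      have h6 : (refl (n' k) (t' k) (S.X (uk k))) 2 < 0 := by
        rw [hRY k, hYX k]; linarith
      exact hbad k (subset_closure (h2.1 (not_le.1 hcon) h6))
    · have hloc := loc_pos D.toPreDom hu₀ hpos B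
      filter_upwards [lR.eventually hloc, hn2] with k h2 h3
      have h6 : 0 ≤ (refl (n' k) (t' k) (S.X (uk k))) 2 := by
        by_contra hcon
        exact hbad k (subset_closure (h2.2.1 (not_le.1 hcon)))
      refine ⟨?_, fun _ => by rw [hRY k] at h6; linarith, fun h => absurd h (not_lt.2 hpos.le)⟩
      by_contra hcon
      exact hbad k (subset_closure (h2.1 (not_le.1 hcon)))
  obtain ⟨K, hK⟩ := eventually_atTop.1 (ev1.and (ev2.and (ev3.and ev4)))
  have hsh := tendsto_add_atTop_nat K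
  refine wh_core (f := B.f) (p := S.X u₀) (n := nT e T) (ς := 1 - a * T / h)
    (nk := fun k => n' (k + K)) (Yk := fun k => Y' (k + K)) (sk := fun k => s' (k + K))
    (ςk := fun k => 1 - a * Tk (k + K) / h) (δ := δ)
    (B.smooth_f hmem) hp2 hp1 ?_ ?_ ?_ ?_ ?_ ?_ (ln.comp hsh) (lY.comp hsh) (ls.comp hsh) ?_
    (fun k => hs0 _) ?_ ?_ ?_ hδ ?_
  · -- hfc
    have : ∀ᶠ y in 𝓝 (S.X u₀), ‖y - S.X u₀‖ < δ := by
      filter_upwards [ball_mem_nhds (S.X u₀) hδ] with y hy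
      rwa [mem_ball, dist_eq_norm] at hy
    filter_upwards [this] with y hy h2 h1
    obtain ⟨v, -, hvy, hv⟩ := hcirc y hy h2 h1
    rw [← hvy]; exact B.f_X hv
  · -- hr
    rw [hFpp]; exact mul_ne_zero hgp.ne' hNr
  · -- hn
    rw [hFp]
    have h1 := hinge_id he he2 hh hT2 hp2 hp1 (S.Nr u₀) (S.N u₀ 2)
    rw [← S.N_decomp hu₀, hw, hl] at h1
    rw [real_inner_comm, h1]
    ring
  · -- hn2
    rw [WHB_nT2 he2]
    have : 0 < Real.sqrt (1 + T ^ 2) := Real.sqrt_pos.2 (by positivity)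
    positivity
  · exact hL0
  · -- hL1
    have hv : (fderiv ℝ B.f (S.X u₀) E3) • S.X u₀ - (fderiv ℝ B.f (S.X u₀) (S.X u₀)) • E3
        = ‖B.g (S.X u₀)‖ • S.nu u₀ := by
      rw [hFpp, hFp E3]
      have : ⟪S.N u₀, E3⟫ = S.N u₀ 2 := by rw [ip]; simp
      rw [this]
      unfold Surf.nu
      module
    rw [hv, D2_smul, inner_smul_left, smul_eq_mul]
    have : ‖B.g (S.X u₀)‖ * D2 B.f (S.X u₀) (S.nu u₀) (nT e T) - (1 - a * T / h) *
        fderiv ℝ B.f (S.X u₀) (S.X u₀) * ((starRingEnd ℝ) ‖B.g (S.X u₀)‖ * ⟪S.nu u₀, nT e T⟫)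
        = ‖B.g (S.X u₀)‖ * (D2 B.f (S.X u₀) (S.nu u₀) (nT e T)
        - (1 - a * T / h) * fderiv ℝ B.f (S.X u₀) (S.X u₀) * ⟪S.nu u₀, nT e T⟫) := by
      simp only [conj_trivial]
      ring
    rw [this]
    exact mul_pos hgp hL1
  · -- ςk
    have := (tendsto_const_nhds (x := (1 : ℝ))).sub (((hTk.comp hsh).const_mul a).div_const h)
    exact this
  · -- h1
    intro k
    have : Y' (k + K) + s' (k + K) • n' (k + K) = S.X (uk (k + K)) := by
      simp only [hY']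
      module
    rw [this]
    exact B.f_X (hK (k + K) (by omega)).1
  · -- h2
    intro k
    rw [hR]
    exact (hK (k + K) (by omega)).2.2.2.1
  · -- h3
    intro k
    have h1 := (hK (k + K) (by omega)).2.2.2.2
    constructor
    · intro h2
      rw [hFpp] at h2
      exact h1.1 (pos_of_mul_pos_right h2 hgp.le)
    · intro h2
      rw [hFpp] at h2
      refine h1.2 ?_
      by_contra hcon
      exact absurd h2 (not_lt.2 (mul_nonneg hgp.le (not_lt.1 hcon)))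
  · -- h4
    intro k c hc h2 h1
    obtain ⟨v, hv1, hvc, hv⟩ := hcirc c hc h2 h1
    obtain ⟨-, hTp, hTa, -⟩ := hK (k + K) (by omega)
    have hmv := WHB_mem B hv
    have hgv : 0 < ‖B.g (S.X v)‖ := B.g_pos hmv
    subst hvc
    have h3 := hinge_id he he2 hh hTa h2 h1 (S.Nr v) (S.N v 2)
    rw [← S.N_decomp hv1] at h3
    have h4 := wst1 hz hv1.le
    rw [WHB_F B hv, WHB_F B hv, inner_sub_right, hYn]
    have h5 : 0 ≤ Tk (k + K) / Real.sqrt (1 + Tk (k + K) ^ 2) / h := by positivity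
    have h6 : ⟪S.N v, n' (k + K)⟫ ≤ (1 - a * Tk (k + K) / h) * (⟪n' (k + K), S.X v⟫ - t' (k + K))
        * ⟪S.N v, S.X v⟫ := by
      rw [real_inner_comm (n' (k + K)) (S.N v), real_inner_comm (S.X v) (S.N v)]
      simp only [hn', ht']
      rw [h3]
      have := mul_nonneg h5 h4
      linarith
    calc ‖B.g (S.X v)‖ * ⟪S.N v, n' (k + K)⟫ ≤ ‖B.g (S.X v)‖ * ((1 - a * Tk (k + K) / h)
          * (⟪n' (k + K), S.X v⟫ - t' (k + K)) * ⟪S.N v, S.X v⟫) :=
          mul_le_mul_of_nonneg_left h6 hgv.le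
      _ = _ := by ring

end Pool.Agent.H99.SC

end S_WHB

section S_TILT

/-!
# TILT: continuous paths of tilted planes

`BadSeq`: a sequence of failures converging to the boundary point `S.X u₀` at the time `s`.
`hinge_strict`: if `⟪nf s, N u₀⟫ < 0` and `0 < (nf s) 2` there is none: `refl n t x = x + 2 (⟪n,x⟫ - t) (-n)`,
`lcc` with `v = - nf s`.

`tilt`.  Let `G = {s ∈ [0,1] : SS D (nf s) (tf s)}`.  Show `[0,1] ⊆ G` by
`IsClosed.Icc_subset_of_forall_exists_gt` (or a sup argument).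
Closed: let `s_k → s`, `SS` at `s_k`; `u` with `t < ⟪n, X u⟫` at `s`: also for large `k`, take limits;
`t = ⟪n, X u⟫`: the reflected point is `X u ∈ closure W` (`sig_closure`).
Right-open at `s < 1` with `SS` at `s`: otherwise there are `s_k → s+` and `u_k`, `‖u_k‖ ≤ 1`,
`t_k ≤ ⟪n_k, X u_k⟫`, reflected point not in `closure W`; then `t_k < ⟪n_k, X u_k⟫` (equality: the
reflected point is `X u_k`).  Subsequence: `u_k → u₀`, `‖u₀‖ ≤ 1`.  `opn` applies:
 (h1) `‖u‖ = 1`, `‖v‖ < 1`, `refl (X u) = X v`: by the sign of `⟪n,X u⟫ - t`: `> 0`: `ha` puts it in `W`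
   but `X v ∉ W`; `< 0`: `X u ∈ Disc`, `hb`; `= 0`: `X u = X v` contradicts injectivity.
 (h2) the point `u` of `hd`: sign `> 0`: `ha` and `not_mem_W`; `< 0`: `hb`.
So `‖u₀‖ = 1` or `refl (X u₀) ∈ Disc`.  `t ≤ ⟪n, X u₀⟫`.
 * `t < ⟪n, X u₀⟫`, `‖u₀‖ = 1`: `ha`: the reflected point is in `W`, open, but it is a limit of points
   outside the closure: contradiction.
 * `t < ⟪n, X u₀⟫`, `d = refl (X u₀) ∈ Disc`: `⟪n,d⟫ < t`, `refl d = X u₀ ∈ S.Sig`: contradicts `hb`.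
 * `t = ⟪n, X u₀⟫`: the reflected point is `X u₀`; in `Disc` only if `‖u₀‖ = 1` (`disj`).  So
   `‖u₀‖ = 1` and `hc` applies.
-/


open scoped RealInnerProductSpace Topology
open Metric Filter Set


namespace Pool.Agent.H99.SC

def BadSeq {S : Surf} (D : Dom S) (nf : ℝ → V3) (tf : ℝ → ℝ) (s : ℝ) (u₀ : V2) : Prop :=
  ∃ (sk : ℕ → ℝ) (uk : ℕ → V2), Tendsto sk atTop (𝓝 s) ∧ Tendsto uk atTop (𝓝 u₀) ∧
    ∀ k, s < sk k ∧ sk k ≤ 1 ∧ ‖uk k‖ ≤ 1 ∧ tf (sk k) < ⟪nf (sk k), S.X (uk k)⟫ ∧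
      refl (nf (sk k)) (tf (sk k)) (S.X (uk k)) ∉ closure D.W

theorem TILT_refl (n : V3) (t : ℝ) (y : V3) :
    refl n t y = y + (2 * (⟪n, y⟫ - t)) • (-n) := by
  unfold refl
  rw [smul_neg, sub_eq_add_neg]

theorem TILT_refl_eq {n : V3} {t : ℝ} {y : V3} (h : ⟪n, y⟫ = t) : refl n t y = y := by
  unfold refl
  rw [h, sub_self, mul_zero, zero_smul, sub_zero]

theorem TILT_tendsto {ι : Type*} {l : Filter ι} {nk : ι → V3} {tk : ι → ℝ} {yk : ι → V3} {n : V3}
    {t : ℝ} {y : V3} (h1 : Tendsto nk l (𝓝 n)) (h2 : Tendsto tk l (𝓝 t))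
    (h3 : Tendsto yk l (𝓝 y)) :
    Tendsto (fun k => refl (nk k) (tk k) (yk k)) l (𝓝 (refl n t y)) := by
  unfold refl
  exact h3.sub (((((h1.inner h3).sub h2).const_mul 2)).smul h1)

theorem TILT_seq {F : Type*} [TopologicalSpace F] {f : ℝ → F} (hf : ContinuousOn f (Icc 0 1))
    {s : ℝ} (hs : s ∈ Icc (0 : ℝ) 1) {sk : ℕ → ℝ} (h : Tendsto sk atTop (𝓝 s))
    (hk : ∀ k, sk k ∈ Icc (0 : ℝ) 1) : Tendsto (fun k => f (sk k)) atTop (𝓝 (f s)) :=
  (hf s hs).tendsto.comp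
    (tendsto_nhdsWithin_iff.2 ⟨h, Eventually.of_forall hk⟩)

theorem hinge_strict {S : Surf} (D : Dom S) {nf : ℝ → V3} {tf : ℝ → ℝ}
    (hn : ContinuousOn nf (Icc 0 1)) (ht : ContinuousOn tf (Icc 0 1)) {s : ℝ} (hs : 0 ≤ s)
    (hs1 : s < 1) {u₀ : V2} (hu₀ : ‖u₀‖ = 1) (hl : ⟪nf s, S.X u₀⟫ = tf s)
    (h3 : 0 < (nf s) 2) (hN : ⟪nf s, S.N u₀⟫ < 0) : ¬ BadSeq D nf tf s u₀ := by
  rintro ⟨sk, uk, hsk, huk, hk⟩
  have hsI : s ∈ Icc (0 : ℝ) 1 := ⟨hs, hs1.le⟩
  have hkI : ∀ k, sk k ∈ Icc (0 : ℝ) 1 := fun k => ⟨hs.trans (hk k).1.le, (hk k).2.1⟩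
  have hnk := TILT_seq hn hsI hsk hkI
  have htk := TILT_seq ht hsI hsk hkI
  have hXk : Tendsto (fun k => S.X (uk k)) atTop (𝓝 (S.X u₀)) :=
    (S.smooth.continuous.tendsto u₀).comp huk
  obtain ⟨ε, hε, hlcc⟩ := lcc D.toPreDom hu₀ (v := -nf s) (by rw [inner_neg_left]; linarith)
    (by simp only [PiLp.neg_apply]; linarith)
  have hdk : Tendsto (fun k => 2 * (⟪nf (sk k), S.X (uk k)⟫ - tf (sk k))) atTop (𝓝 0) := by
    have h1 := ((hnk.inner hXk).sub htk).const_mul 2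
    rw [hl, sub_self, mul_zero] at h1
    exact h1
  have e1 : ∀ᶠ k in atTop, ‖uk k - u₀‖ < ε := by
    have := (tendsto_iff_norm_sub_tendsto_zero.1 huk).eventually (gt_mem_nhds hε)
    exact this
  have e2 : ∀ᶠ k in atTop, ‖-nf (sk k) - -nf s‖ < ε := by
    have := (tendsto_iff_norm_sub_tendsto_zero.1 hnk.neg).eventually (gt_mem_nhds hε)
    exact this
  have e3 : ∀ᶠ k in atTop, 2 * (⟪nf (sk k), S.X (uk k)⟫ - tf (sk k)) < ε :=
    hdk.eventually (gt_mem_nhds hε)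
  obtain ⟨k, h1, h2, h4⟩ := (e1.and (e2.and e3)).exists
  obtain ⟨_, _, hu1, hlt, hbad⟩ := hk k
  apply hbad
  rw [TILT_refl]
  exact hlcc (uk k) hu1 h1 (-nf (sk k)) h2 _ (by linarith) h4

theorem tilt {S : Surf} (D : Dom S) (nf : ℝ → V3) (tf : ℝ → ℝ)
    (hn : ContinuousOn nf (Icc 0 1)) (ht : ContinuousOn tf (Icc 0 1))
    (h1 : ∀ s ∈ Icc (0 : ℝ) 1, ‖nf s‖ = 1) (h0 : SS D (nf 0) (tf 0))
    (ha : ∀ s : ℝ, 0 ≤ s → s < 1 → ∀ u : V2, ‖u‖ = 1 → tf s < ⟪nf s, S.X u⟫ →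
      refl (nf s) (tf s) (S.X u) ∈ D.W)
    (hb : ∀ s : ℝ, 0 ≤ s → s < 1 → ∀ d ∈ Disc, ⟪nf s, d⟫ < tf s →
      refl (nf s) (tf s) d ∉ S.Sig)
    (hc : ∀ s : ℝ, 0 ≤ s → s < 1 → ∀ u₀ : V2, ‖u₀‖ = 1 → ⟪nf s, S.X u₀⟫ = tf s →
      ¬ BadSeq D nf tf s u₀)
    (hd : ∀ s : ℝ, 0 ≤ s → s < 1 → ∃ u : V2, ‖u‖ = 1 ∧ ⟪nf s, S.X u⟫ ≠ tf s) :
    ∀ s ∈ Icc (0 : ℝ) 1, SS D (nf s) (tf s) := by
  have hSigW : ∀ u : V2, ‖u‖ ≤ 1 → S.X u ∈ closure D.W := fun u hu =>
    sig_closure D.toPreDom (S.mem_Sig hu)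
  suffices h : Icc (0 : ℝ) 1 ⊆ {s | SS D (nf s) (tf s)} from fun s hs => h hs
  apply IsClosed.Icc_subset_of_forall_exists_gt
  · -- closed
    rw [← isSeqClosed_iff_isClosed]
    intro sk s hsk hlim
    have hsI : s ∈ Icc (0 : ℝ) 1 := isClosed_Icc.mem_of_tendsto hlim
      (Eventually.of_forall fun k => (hsk k).2)
    refine ⟨?_, hsI⟩
    intro u hu hle
    have hnk := TILT_seq hn hsI hlim (fun k => (hsk k).2)
    have htk := TILT_seq ht hsI hlim (fun k => (hsk k).2)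
    rcases hle.lt_or_eq with hlt | heq
    · have hlk : ∀ᶠ k in atTop, tf (sk k) < ⟪nf (sk k), S.X u⟫ :=
        htk.eventually_lt (hnk.inner tendsto_const_nhds) hlt
      refine isClosed_closure.mem_of_tendsto (TILT_tendsto hnk htk tendsto_const_nhds) ?_
      filter_upwards [hlk] with k hk
      exact (hsk k).1 u hu hk.le
    · rw [TILT_refl_eq heq.symm]
      exact hSigW u hu
  · exact h0
  · -- right-open
    rintro s ⟨hS, hs0, hs1⟩ y hy
    rw [mem_Ioi] at hy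
    by_contra hemp
    rw [Set.not_nonempty_iff_eq_empty] at hemp
    have hsI : s ∈ Icc (0 : ℝ) 1 := ⟨hs0, hs1.le⟩
    set δ : ℝ := min (y - s) (1 - s) with hδ
    have hδ0 : 0 < δ := lt_min (by linarith) (by linarith)
    set sk : ℕ → ℝ := fun k => s + δ * (1 / ((k : ℝ) + 1)) with hskd
    have hfr : ∀ k : ℕ, 0 < 1 / ((k : ℝ) + 1) ∧ 1 / ((k : ℝ) + 1) ≤ 1 := by
      intro k
      refine ⟨by positivity, ?_⟩
      rw [div_le_one (by positivity)]
      linarith [Nat.cast_nonneg (α := ℝ) k]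
    have hsk1 : ∀ k, s < sk k := by
      intro k
      have := mul_pos hδ0 (hfr k).1
      simp only [hskd]
      linarith
    have hsk2 : ∀ k, sk k ≤ s + δ := by
      intro k
      have := mul_le_mul_of_nonneg_left (hfr k).2 hδ0.le
      simp only [hskd]
      linarith
    have hsky : ∀ k, sk k ≤ y := fun k => by
      have := min_le_left (y - s) (1 - s)
      have := hsk2 k
      linarith
    have hsk01 : ∀ k, sk k ≤ 1 := fun k => by
      have := min_le_right (y - s) (1 - s)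
      have := hsk2 k
      linarith
    have hskI : ∀ k, sk k ∈ Icc (0 : ℝ) 1 := fun k => ⟨hs0.trans (hsk1 k).le, hsk01 k⟩
    have hsklim : Tendsto sk atTop (𝓝 s) := by
      have h2 := (tendsto_one_div_add_atTop_nhds_zero_nat (𝕜 := ℝ)).const_mul δ
      have h3 := h2.const_add s
      rw [mul_zero, add_zero] at h3
      exact h3
    have hbad : ∀ k, ∃ u : V2, ‖u‖ ≤ 1 ∧ tf (sk k) < ⟪nf (sk k), S.X u⟫ ∧
        refl (nf (sk k)) (tf (sk k)) (S.X u) ∉ closure D.W := by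
      intro k
      have hno : ¬ SS D (nf (sk k)) (tf (sk k)) := by
        intro hSS
        have : sk k ∈ {s | SS D (nf s) (tf s)} ∩ Ioc s y := ⟨hSS, hsk1 k, hsky k⟩
        rw [hemp] at this
        exact this
      unfold SS at hno
      push Not at hno
      obtain ⟨u, hu, hle, hnot⟩ := hno
      refine ⟨u, hu, lt_of_le_of_ne hle ?_, hnot⟩
      intro heq
      apply hnot
      rw [TILT_refl_eq heq.symm]
      exact hSigW u hu
    choose uk huk1 hlk hbk using hbad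
    obtain ⟨u₀, hu₀, φ, hφ, hlimu⟩ := (isCompact_closedBall (0 : V2) 1).tendsto_subseq
      (x := uk) (fun k => by rw [mem_closedBall_zero_iff]; exact huk1 k)
    rw [mem_closedBall_zero_iff] at hu₀
    have hsφ : Tendsto (fun k => sk (φ k)) atTop (𝓝 s) := hsklim.comp hφ.tendsto_atTop
    have hnk : Tendsto (fun k => nf (sk (φ k))) atTop (𝓝 (nf s)) :=
      TILT_seq hn hsI hsφ (fun k => hskI _)
    have htk : Tendsto (fun k => tf (sk (φ k))) atTop (𝓝 (tf s)) :=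
      TILT_seq ht hsI hsφ (fun k => hskI _)
    have hXk : Tendsto (fun k => S.X (uk (φ k))) atTop (𝓝 (S.X u₀)) :=
      (S.smooth.continuous.tendsto u₀).comp hlimu
    have hBS : BadSeq D nf tf s u₀ := ⟨fun k => sk (φ k), fun k => uk (φ k), hsφ, hlimu,
      fun k => ⟨hsk1 _, hsk01 _, huk1 _, hlk _, hbk _⟩⟩
    have hns := h1 s hsI
    have hc1 : ∀ u v : V2, ‖u‖ = 1 → ‖v‖ < 1 → refl (nf s) (tf s) (S.X u) ≠ S.X v := by
      intro u v hu hv heq
      rcases lt_trichotomy (tf s) ⟪nf s, S.X u⟫ with hlt | he | hgt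
      · have h2 := ha s hs0 hs1 u hu hlt
        rw [heq] at h2
        exact not_mem_W D.toPreDom (Or.inl (S.mem_Sig hv.le)) h2
      · rw [TILT_refl_eq he.symm] at heq
        have := S.inj u v hu.le hv.le heq
        rw [this] at hu
        linarith
      · have hdisc : S.X u ∈ Disc := ⟨(S.bd1 hu).1, (S.bd1 hu).2.le⟩
        have h2 := hb s hs0 hs1 _ hdisc hgt
        rw [heq] at h2
        exact h2 (S.mem_Sig hv.le)
    have hc2 : ∃ u : V2, ‖u‖ ≤ 1 ∧ refl (nf s) (tf s) (S.X u) ∉ S.Sig := by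
      obtain ⟨u, hu, hne⟩ := hd s hs0 hs1
      refine ⟨u, hu.le, ?_⟩
      rcases lt_or_gt_of_ne hne with hlt | hgt
      · have hdisc : S.X u ∈ Disc := ⟨(S.bd1 hu).1, (S.bd1 hu).2.le⟩
        exact hb s hs0 hs1 _ hdisc hlt
      · intro hmem
        exact not_mem_W D.toPreDom (Or.inl hmem) (ha s hs0 hs1 u hu hgt)
    have hopn := opn D hns hS hc1 hc2 (nk := fun k => nf (sk (φ k))) (tk := fun k => tf (sk (φ k)))
      (uk := fun k => uk (φ k)) (fun k => h1 _ (hskI _)) hnk htk hlimu (fun k => huk1 _)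
      (fun k => hlk _) (fun k => hbk _)
    have hle : tf s ≤ ⟪nf s, S.X u₀⟫ :=
      le_of_tendsto_of_tendsto' htk (hnk.inner hXk) (fun k => (hlk _).le)
    rcases hle.lt_or_eq with hlt | heq
    · rcases hopn with hu1 | hdisc
      · have h2 := ha s hs0 hs1 u₀ hu1 hlt
        have h3 := (TILT_tendsto hnk htk hXk).eventually (D.isOpen.mem_nhds h2)
        obtain ⟨k, hk⟩ := h3.exists
        exact hbk _ (subset_closure hk)
      · have h2 : ⟪nf s, refl (nf s) (tf s) (S.X u₀)⟫ < tf s := by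
          rw [inner_refl _ hns]
          linarith
        have h3 := hb s hs0 hs1 _ hdisc h2
        rw [refl_refl _ hns] at h3
        exact h3 (S.mem_Sig hu₀)
    · have hu1 : ‖u₀‖ = 1 := by
        rcases hopn with hu1 | hdisc
        · exact hu1
        · rw [TILT_refl_eq heq.symm] at hdisc
          by_contra hne
          exact D.disj u₀ (lt_of_le_of_ne hu₀ hne) hdisc
      exact hc s hs0 hs1 u₀ hu1 heq.symm hBS

end Pool.Agent.H99.SC

end S_TILT

section S_S1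

/-!
# S1: a weak star centre gives `SS` for a vertical plane through the axis

`z = zc e a h`, `h > 0`, `a ≥ 0`.  Three applications of `tilt`.
Stage A: `T₁ = 2h/(1+2a)` fixed (`h < (1+a) T₁`, `a T₁ ≤ h`), `t` from a large value `M` to
 `2/sqrt(1+T₁^2)`, `t s = (1-s) M + s 2/sqrt(..)`.  `SS` at `s = 0` is vacuous (`⟪n, X u⟫ ≤ ‖X u‖ < M`, the
 surface is compact).  `cone1` and `wst2`: `hb` (`S.Sig ⊆ closure W`).  `ha` and `hc` are vacuous:
 `⟪n, X u⟫ < t` on the circle (`cone1` with `d = X u ∈ Disc`); `hd` too.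
Stage B: `T s = T₁ + (T₀ - T₁) s`, `T₀ = h/(1+a)`, `t s = (2 - s)/sqrt(1 + T(s)^2)`: for `s < 1` `cone1` applies
 again.  At `s = 1`: `T = T₀`, `t = 1/sqrt(1+T₀^2) = tT h a T₀` (`h - a T₀ = T₀`).
Stage C: `T s = (1-s) T₀`, `t s = tT h a (T s)`; for `s < 1`: `0 < T s`, `a T s < h`.  `ha`: `cone2'`,
 `wst3`.  `hb`: `cone2`, `wst2`.  `hc`: `⟪n, N u₀⟫ = -(sin/h) ⟪z - X u₀, N u₀⟫` by `hinge_id` with
 `N = Nr X + N_3 E3` (`N_decomp`) `≤ 0` by `wst1`; if `< 0`: `hinge_strict` (`(nT e T) 2 > 0`); if `= 0`: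
 `weak_hinge` applied to the sequences of `BadSeq`.  `hd`: `u` with `X u = -e`:
 `⟪nT e T, -e⟫ < 0 < tT`.  At `s = 1`: `nT e 0 = e`, `tT h a 0 = 0`.
Continuity of the paths: explicit functions, `h - a T > 0` on the range.
-/


open scoped RealInnerProductSpace Topology
open Metric Filter Set


namespace Pool.Agent.H99.SC

/-- a path of planes with the circle on one side -/
theorem S1_cone {S : Surf} (D : Dom S) {e : V3} (he : ‖e‖ = 1) (he2 : e 2 = 0) {a h : ℝ}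
    (ha : 0 ≤ a) (hh : 0 < h) (hz : WStar D (zc e a h)) (Tf tf : ℝ → ℝ)
    (hTc : Continuous Tf) (htc : Continuous tf) (h0 : SS D (nT e (Tf 0)) (tf 0))
    (hcond : ∀ s : ℝ, 0 ≤ s → s < 1 → 0 < Tf s ∧ h < (1 + a) * Tf s ∧ a * Tf s ≤ h ∧
      (Real.sqrt (1 + Tf s ^ 2))⁻¹ < tf s) : SS D (nT e (Tf 1)) (tf 1) := by
  have hdisc : ∀ u : V2, ‖u‖ = 1 → S.X u ∈ Disc := by
    intro u hu
    exact ⟨(S.bd1 hu).1, (S.bd1 hu).2.le⟩
  have key : ∀ s : ℝ, 0 ≤ s → s < 1 → ∀ d ∈ Disc, ⟪nT e (Tf s), d⟫ < tf s ∧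
      0 < (refl (nT e (Tf s)) (tf s) d) 2 ∧ InCone (zc e a h) (refl (nT e (Tf s)) (tf s) d) := by
    intro s hs hs1 d hd
    obtain ⟨c1, c2, c3, c4⟩ := hcond s hs hs1
    exact cone1 he he2 ha hh c1 c2 c3 c4 hd
  refine tilt D (fun s => nT e (Tf s)) tf ((nT_cont e).comp hTc).continuousOn htc.continuousOn
    (fun s _ => nT_norm he he2 _) h0 ?_ ?_ ?_ ?_ 1 ⟨zero_le_one, le_rfl⟩
  · intro s hs hs1 u hu hlt
    exact absurd hlt (not_lt.mpr (key s hs hs1 _ (hdisc u hu)).1.le)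
  · intro s hs hs1 d hd _ hmem
    obtain ⟨_, k2, k3⟩ := key s hs hs1 d hd
    exact wst2 hz k3 k2 (sig_closure D.toPreDom hmem)
  · intro s hs hs1 u₀ hu₀ heq _
    have := (key s hs hs1 _ (hdisc u₀ hu₀)).1
    exact absurd heq this.ne
  · intro s hs hs1
    exact ⟨cu 0, norm_cu 0, (key s hs hs1 _ (hdisc _ (norm_cu 0))).1.ne⟩

theorem S1_nT_2 {e : V3} (he2 : e 2 = 0) (T : ℝ) : (nT e T) 2 = T / Real.sqrt (1 + T ^ 2) := by
  simp [nT, he2]
  ring

theorem S1_sqrt_pos (T : ℝ) : 0 < Real.sqrt (1 + T ^ 2) := Real.sqrt_pos.mpr (by positivity)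

theorem S1_inner_e {e : V3} (he : ‖e‖ = 1) (he2 : e 2 = 0) (T : ℝ) :
    ⟪nT e T, -e⟫ = -(Real.sqrt (1 + T ^ 2))⁻¹ := by
  have h1 : e 0 ^ 2 + e 1 ^ 2 = 1 := by
    have := nsq e
    rw [he, he2] at this
    linarith
  rw [ip]
  simp [nT, he2]
  have : (Real.sqrt (1 + T ^ 2))⁻¹ * e 0 * e 0 + (Real.sqrt (1 + T ^ 2))⁻¹ * e 1 * e 1
      = (Real.sqrt (1 + T ^ 2))⁻¹ := by
    calc _ = (Real.sqrt (1 + T ^ 2))⁻¹ * (e 0 ^ 2 + e 1 ^ 2) := by ring
      _ = _ := by rw [h1, mul_one]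
  linarith

theorem s1 {S : Surf} (D : Dom S) {e : V3} (he : ‖e‖ = 1) (he2 : e 2 = 0) {a h : ℝ}
    (ha : 0 ≤ a) (hh : 0 < h) (hz : WStar D (zc e a h)) : SS D e 0 := by
  have hq : ∀ T : ℝ, 0 < Real.sqrt (1 + T ^ 2) := S1_sqrt_pos
  -- constants
  set T₁ : ℝ := 2 * h / (1 + 2 * a) with hT₁
  set T₀ : ℝ := h / (1 + a) with hT₀
  have ha1 : 0 < 1 + a := by linarith
  have ha2 : 0 < 1 + 2 * a := by linarith
  have hT₁0 : 0 < T₁ := by positivity
  have hT₀0 : 0 < T₀ := by positivity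
  have e0' : (1 + a) * T₀ = h := by rw [hT₀]; field_simp
  have e1' : (1 + 2 * a) * T₁ = 2 * h := by rw [hT₁]; field_simp
  have h01 : T₀ < T₁ := by
    rw [hT₀, hT₁, div_lt_div_iff₀ ha1 ha2]
    nlinarith
  have haT₁ : a * T₁ ≤ h := by nlinarith
  have haT₁' : h < (1 + a) * T₁ := by nlinarith
  have haT₀ : a * T₀ < h := by nlinarith
  -- stage A
  obtain ⟨M, hM1, hM2⟩ : ∃ M : ℝ, 2 * (Real.sqrt (1 + T₁ ^ 2))⁻¹ < M ∧
      ∀ u : V2, ‖u‖ ≤ 1 → ‖S.X u‖ < M := by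
    obtain ⟨R, hR⟩ := S.isCompact_Sig.isBounded.exists_norm_le
    refine ⟨max (2 * (Real.sqrt (1 + T₁ ^ 2))⁻¹) R + 1, ?_, ?_⟩
    · have := le_max_left (2 * (Real.sqrt (1 + T₁ ^ 2))⁻¹) R
      linarith
    · intro u hu
      have h1 := hR _ (S.mem_Sig hu)
      have := le_max_right (2 * (Real.sqrt (1 + T₁ ^ 2))⁻¹) R
      linarith
  have hinv : ∀ T : ℝ, 0 < (Real.sqrt (1 + T ^ 2))⁻¹ := fun T => inv_pos.mpr (hq T)
  have hA : SS D (nT e T₁) (2 * (Real.sqrt (1 + T₁ ^ 2))⁻¹) := by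
    have := S1_cone D he he2 ha hh hz (fun _ => T₁)
      (fun s => (1 - s) * M + s * (2 * (Real.sqrt (1 + T₁ ^ 2))⁻¹)) continuous_const
      (by fun_prop) ?_ ?_
    · simpa using this
    · intro u hu hle
      exfalso
      have h1 : ⟪nT e T₁, S.X u⟫ ≤ ‖nT e T₁‖ * ‖S.X u‖ := real_inner_le_norm _ _
      rw [nT_norm he he2, one_mul] at h1
      have h2 := hM2 u hu
      have h3 : M ≤ ⟪nT e T₁, S.X u⟫ := by simpa using hle
      linarith
    · intro s hs hs1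
      refine ⟨hT₁0, haT₁', haT₁, ?_⟩
      have := hinv T₁
      nlinarith
  -- stage B
  have hB : SS D (nT e T₀) (tT h a T₀) := by
    have hcq : Continuous (fun s : ℝ => Real.sqrt (1 + (T₁ + (T₀ - T₁) * s) ^ 2)) := by fun_prop
    have := S1_cone D he he2 ha hh hz (fun s => T₁ + (T₀ - T₁) * s)
      (fun s => (2 - s) * (Real.sqrt (1 + (T₁ + (T₀ - T₁) * s) ^ 2))⁻¹) (by fun_prop)
      ((continuous_const.sub continuous_id).mul (hcq.inv₀ fun s => (hq _).ne')) ?_ ?_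
    · have e2 : T₁ + (T₀ - T₁) * 1 = T₀ := by ring
      have e3 : tT h a T₀ = (2 - 1) * (Real.sqrt (1 + T₀ ^ 2))⁻¹ := by
        unfold tT
        have : h - a * T₀ = T₀ := by linarith
        rw [this]
        field_simp
        norm_num
      rw [e3]
      simpa only [e2] using this
    · simpa using hA
    · intro s hs hs1
      have k1 : T₀ < T₁ + (T₀ - T₁) * s := by nlinarith
      have k2 : T₁ + (T₀ - T₁) * s ≤ T₁ := by nlinarith
      refine ⟨by linarith, ?_, ?_, ?_⟩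
      · calc h = (1 + a) * T₀ := e0'.symm
          _ < _ := mul_lt_mul_of_pos_left k1 ha1
      · exact (mul_le_mul_of_nonneg_left k2 ha).trans haT₁
      · have := hinv (T₁ + (T₀ - T₁) * s)
        nlinarith
  -- stage C
  have hTpos : ∀ s : ℝ, s < 1 → 0 < (1 - s) * T₀ := fun s hs => mul_pos (by linarith) hT₀0
  have haT : ∀ s : ℝ, 0 ≤ s → a * ((1 - s) * T₀) < h := by
    intro s hs
    have : a * ((1 - s) * T₀) ≤ a * T₀ := by
      apply mul_le_mul_of_nonneg_left _ ha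
      nlinarith
    linarith
  have hnc : Continuous (fun s : ℝ => nT e ((1 - s) * T₀)) := (nT_cont e).comp (by fun_prop)
  have htc : ContinuousOn (fun s : ℝ => tT h a ((1 - s) * T₀)) (Icc 0 1) := by
    unfold tT
    apply ContinuousOn.div
    · fun_prop
    · fun_prop
    · intro s hs
      have := haT s hs.1
      exact (mul_pos (by linarith) (hq _)).ne'
  have hC := tilt D (fun s => nT e ((1 - s) * T₀)) (fun s => tT h a ((1 - s) * T₀))
    hnc.continuousOn htc (fun s _ => nT_norm he he2 _) (by simpa using hB) ?_ ?_ ?_ ?_ 1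
    ⟨zero_le_one, le_rfl⟩
  · have e4 : nT e ((1 - 1) * T₀) = e := by simp [nT]
    have e5 : tT h a ((1 - 1) * T₀) = 0 := by simp [tT]
    rwa [e4, e5] at hC
  · intro s hs hs1 u hu hlt
    obtain ⟨k1, k2⟩ := cone2' he he2 ha hh (hTpos s hs1) (haT s hs) (S.bd1 hu).1 (S.bd1 hu).2 hlt
    exact wst3 hz k2 k1
  · intro s hs hs1 d hd hlt hmem
    obtain ⟨k1, k2⟩ := cone2 he he2 ha hh (hTpos s hs1) (haT s hs) hd hlt
    exact wst2 hz k2 k1 (sig_closure D.toPreDom hmem)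
  · intro s hs hs1 u₀ hu₀ heq
    have hT := hTpos s hs1
    have hin := hinge_id he he2 hh (haT s hs) (S.bd1 hu₀).1 (S.bd1 hu₀).2 (S.Nr u₀) (S.N u₀ 2)
    rw [← S.N_decomp hu₀] at hin
    have heq' : ⟪nT e ((1 - s) * T₀), S.X u₀⟫ - tT h a ((1 - s) * T₀) = 0 := by
      linarith
    rw [heq', mul_zero, zero_mul, add_zero] at hin
    have hw := wst1 hz hu₀.le
    have hcoef : 0 < (1 - s) * T₀ / Real.sqrt (1 + ((1 - s) * T₀) ^ 2) / h :=
      div_pos (div_pos hT (hq _)) hh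
    rcases eq_or_lt_of_le hw with hw0 | hw1
    · rintro ⟨sk, uk, hsk, huk, hb⟩
      apply weak_hinge D he he2 ha hh hT (haT s hs) hz hu₀ heq hw0.symm
        (Tk := fun k => (1 - sk k) * T₀) (uk := uk)
      · exact (hsk.const_sub 1).mul_const T₀
      · exact huk
      · exact fun k => (hb k).2.2.1
      · exact fun k => (hb k).2.2.2.1
      · exact fun k => (hb k).2.2.2.2
    · apply hinge_strict D hnc.continuousOn htc hs hs1 hu₀ heq
      · simp only
        rw [S1_nT_2 he2]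
        exact div_pos hT (hq _)
      · rw [hin]
        have := mul_pos hcoef hw1
        linarith
  · intro s hs hs1
    have hcirc : (-e) 2 = 0 ∧ (-e) 0 ^ 2 + (-e) 1 ^ 2 = 1 := by
      have := nsq e
      rw [he, he2] at this
      constructor
      · simp [he2]
      · simp only [PiLp.neg_apply]
        nlinarith
    obtain ⟨u, hu, hXu⟩ := (S.bd _).2 hcirc
    refine ⟨u, hu, ?_⟩
    rw [hXu, S1_inner_e he he2]
    have k1 := hinv ((1 - s) * T₀)
    have k2 : 0 < tT h a ((1 - s) * T₀) := by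
      unfold tT
      have := haT s hs
      exact div_pos (hTpos s hs1) (mul_pos (by linarith) (hq _))
    intro hcon
    linarith

end Pool.Agent.H99.SC

end S_S1

section S_ONE

/-!
# ONE: one-sided surfaces (below the plane)

`one_nE` (no domain needed).  If `(X u) 2 < 0` for `‖u‖ < 1` then `N u₀ ≠ E3` for `‖u₀‖ = 1`.
Proof: let `w u = ⟪-E3, X u⟫ = -(X u) 2 > 0` inside, `w u₀ = 0`; if `N u₀ = E3` then `Dw(u₀) = 0` (`N_orth`).  `pln`
with `c = -E3`: `Lop X w u ≤ -(nn u) 2 · 2H‖nn‖^3/‖nn‖^2 + K|Dw|`, and `(nn u) 2 > 0` near `u₀`: so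
`Lop X w ≤ K |Dw|` inside near `u₀`.  `hopf` (through `Lop_eq_Ell`) with `x₀ = u₀`, `ν = -u₀`, `R = 1/2`
(`ball (u₀ - u₀/2) (1/2) ⊆ ball 0 1`): `Dw(u₀)(-u₀) > 0`: contradiction.

`one_Nr`: `Nr u₀ ≤ 0`: otherwise `(fderiv X u₀ u₀) 2 = -Nr β < 0` (`Xr_2`, `ori`), and `h3_pos` gives inside
points with positive height.

`one_kappa`: for `κ` large `N_3 + κ N_r < 0` on the parameter circle: otherwise `κ_j → ∞`, `u_j → u`
(compactness) with `N_3 + κ_j N_r ≥ 0`; then `N_r(u) = 0`, `N_3(u) ≥ 0` (since `N_r ≤ 0`), so `N u = E3`.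

`one_ball`: for `κ` large: `y 2 < 0`, `‖y‖^2 - 2 κ y 2 ≤ 1` imply `y ∈ W`.
Proof.  First such `y` is not in `S.Sig` for `κ` large: else `κ_j → ∞`, `u_j` with `(X u_j) 2 < 0`,
`‖X u_j‖^2 + 2 κ_j |(X u_j) 2| ≤ 1`; `u_j → u`, `(X u) 2 = 0`, so `‖u‖ = 1`.  If `N_3(u) < 0`:
`⟪fderiv X u u, X u⟫ = N_3 β < 0` (`Xr_p`), `hr_out`: `‖X u_j‖ > 1`: contradiction.  If `N_3(u) ≥ 0`: then
`N_r(u) < 0` (not `E3`), `(fderiv X u u) 2 > 0`; `F = -(X u) 2` and `G = 1 - ‖X u‖^2` both vanish on the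
circle; `F - c G` has radial derivative `< 0` for small `c > 0`, so (`rad1`) `F ≥ c G` inside near `u`; but
`2κ_j F(u_j) ≤ G(u_j)`, so `F(u_j) (1 - 2 c κ_j) ≥ 0` hence `F(u_j) ≤ 0`: contradiction for large `j`.
The set `{y 2 < 0, ‖y - κ E3‖^2 ≤ 1 + κ^2}` is convex, disjoint from `S.Sig` and `Disc`, contains `-s E3` for
small `s` (`inD` at 0), so it is in `W` by `sep`.

`one`: `e` horizontal unit.  `tilt` with `nf s = cos δ e + sin δ E3`, `tf s = κ sin δ`, `δ = (π/2)(1 - s)`.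
`SS` at `s = 0`: vacuous (`⟪E3, X u⟫ ≤ 0 < κ`).  For `s < 1`, `sin δ > 0`.  `ha`: `c` on the circle,
`l = ⟪n,c⟫ - t > 0`: `y = refl c` has `y 2 = -2 l sin δ < 0` and `‖y‖^2 - 2 κ y 2 = 1` (the plane contains
`κ E3`), so `one_ball`.  `hb`: `(refl d) 2 > 0`, but `S.Sig` has third coordinate `≤ 0`.  `hc`: at
`⟪n, X u₀⟫ = t`: `⟪n, N u₀⟫ = cos δ ⟪e,X u₀⟫ N_r + sin δ N_3 = sin δ (κ N_r + N_3) < 0`:
`hinge_strict`.  `hd`: the two points `±e` (or `sin δ κ > 0` and `X u = -e`).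
-/


open scoped RealInnerProductSpace Topology
open Metric Filter Set


namespace Pool.Agent.H99.SC

private lemma ONE_E3_inner (a : V3) : ⟪E3, a⟫ = a 2 := by simp [ip]

private lemma ONE_E3_norm : ‖E3‖ = 1 := by
  have h : ‖E3‖ ^ 2 = 1 := by rw [nsq]; simp
  nlinarith [norm_nonneg E3]

theorem one_nE (S : Surf) (hos : ∀ u : V2, ‖u‖ < 1 → (S.X u) 2 < 0) {u₀ : V2} (hu₀ : ‖u₀‖ = 1) :
    S.N u₀ ≠ E3 := by
  intro hN
  set w : V2 → ℝ := fun x => ⟪-E3, S.X x⟫ with hw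
  have hwv : ∀ x, w x = -(S.X x) 2 := by
    intro x; simp only [hw, inner_neg_left, ONE_E3_inner]
  obtain ⟨K, hK⟩ := pln S.smooth S.imm (-E3)
  have hball : ∀ x ∈ ball (u₀ + (1 / 2 : ℝ) • (-u₀)) (1 / 2 : ℝ), ‖x‖ < 1 := by
    intro x hx
    rw [mem_ball, dist_eq_norm] at hx
    have e1 : x = (x - (u₀ + (1 / 2 : ℝ) • (-u₀))) + (1 / 2 : ℝ) • u₀ := by module
    rw [e1]
    refine (norm_add_le _ _).trans_lt ?_
    have e2 : ‖(1 / 2 : ℝ) • u₀‖ = 1 / 2 := by rw [norm_smul, hu₀]; norm_num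
    rw [e2]
    linarith
  have hnn : (nn S.X u₀) 2 = ‖nn S.X u₀‖ := by
    have := S.nn_eq hu₀.le
    rw [hN] at this
    have h2 := congrArg (fun v : V3 => v 2) this
    simpa using h2
  have hnc : Continuous fun u => (nn S.X u) 2 := by
    have h1 : Continuous (nn S.X) := (contDiff_nn S.smooth).continuous
    have h2 : (fun u => (nn S.X u) 2) = fun u => ⟪E3, nn S.X u⟫ := by
      ext u; rw [ONE_E3_inner]
    rw [h2]
    exact continuous_const.inner h1
  have hev : ∀ᶠ x in 𝓝 u₀, 0 < (nn S.X x) 2 := by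
    apply hnc.continuousAt.eventually (lt_mem_nhds _)
    change 0 < (nn S.X u₀) 2
    rw [hnn]
    exact S.nn_pos hu₀.le
  have hdi : ∀ᶠ x in 𝓝 u₀, x ∈ ball (u₀ + (1 / 2 : ℝ) • (-u₀)) (1 / 2 : ℝ) →
      Ell (cA S.X) (cB S.X) (cC S.X) w x ≤ K * ‖fderiv ℝ w x‖ := by
    filter_upwards [hev] with x hx hxb
    have hx1 := hball x hxb
    have h1 := hK x hx1.le
    rw [← Lop_eq_Ell]
    have h2 : ⟪nn S.X x, Lop S.X S.X x⟫ = 2 * S.H * ‖nn S.X x‖ ^ 3 := by
      rw [real_inner_comm]; exact S.cmc x hx1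
    rw [h2] at h1
    have h3 : ⟪-E3, nn S.X x⟫ = -(nn S.X x) 2 := by rw [inner_neg_left, ONE_E3_inner]
    rw [h3] at h1
    have h4 := (abs_le.mp h1).2
    have h5 : 0 < ‖nn S.X x‖ := S.nn_pos hx1.le
    have h6 : -(nn S.X x) 2 * (2 * S.H * ‖nn S.X x‖ ^ 3) / ‖nn S.X x‖ ^ 2 ≤ 0 := by
      apply div_nonpos_of_nonpos_of_nonneg _ (by positivity)
      have : 0 ≤ 2 * S.H * ‖nn S.X x‖ ^ 3 := by have := S.Hpos; positivity
      nlinarith
    linarith
  have hh := hopf (A := cA S.X) (B := cB S.X) (C := cC S.X) (w := w) (x₀ := u₀) (ν := -u₀) (K := K)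
    (R := 1 / 2) (by norm_num) (by rw [norm_neg]; exact hu₀)
    (contDiff_height S.smooth _).contDiffAt (by rw [hwv, (S.bd1 hu₀).1]; simp)
    (contDiff_cA S.smooth).continuous.continuousAt (contDiff_cB S.smooth).continuous.continuousAt
    (contDiff_cC S.smooth).continuous.continuousAt (cA_pos (S.imm _ hu₀.le))
    (cB_sq_lt (S.imm _ hu₀.le))
    (by
      intro x hx
      rw [hwv]
      have := hos x (hball x hx)
      linarith) hdi
  rw [hw, fderiv_height S.smooth, ← hN, inner_neg_left, S.N_orth] at hh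
  simp at hh

private lemma ONE_inside {P : V2 → Prop} {u₀ : V2} (hu₀ : ‖u₀‖ = 1) (h : ∀ᶠ u in 𝓝 u₀, P u) :
    ∃ u, ‖u‖ < 1 ∧ P u := by
  have ht : Tendsto (fun s : ℝ => (1 - s) • u₀) (𝓝[>] 0) (𝓝 u₀) := by
    have : Continuous fun s : ℝ => (1 - s) • u₀ := by fun_prop
    have h2 := this.tendsto 0
    simp only [sub_zero, one_smul] at h2
    exact h2.mono_left nhdsWithin_le_nhds
  have h1 := ht.eventually h
  have h2 : ∀ᶠ s : ℝ in 𝓝[>] 0, s < 1 := by
    apply Filter.Eventually.filter_mono nhdsWithin_le_nhds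
    exact gt_mem_nhds one_pos
  have h3 : ∀ᶠ s : ℝ in 𝓝[>] 0, 0 < s := self_mem_nhdsWithin
  obtain ⟨s, hs1, hs2, hs3⟩ := (h1.and (h2.and h3)).exists
  refine ⟨(1 - s) • u₀, ?_, hs1⟩
  rw [norm_smul, hu₀, Real.norm_eq_abs, abs_of_pos (by linarith)]
  linarith

theorem one_Nr {S : Surf} (D : Dom S) (hos : ∀ u : V2, ‖u‖ < 1 → (S.X u) 2 < 0) {u₀ : V2}
    (hu₀ : ‖u₀‖ = 1) : S.Nr u₀ ≤ 0 := by
  by_contra hcon
  push Not at hcon
  have hb := ori D.toPreDom hu₀
  have h2 : (fderiv ℝ S.X u₀ u₀) 2 < 0 := by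
    rw [S.Xr_2 hu₀]
    nlinarith
  obtain ⟨u, h3, h4⟩ := ONE_inside hu₀ (h3_pos S hu₀ h2)
  exact absurd (h4.1 h3) (not_lt.mpr (hos u h3).le)

private lemma ONE_Nr_cont (S : Surf) {u : V2} (hu : ‖u‖ ≤ 1) : ContinuousAt S.Nr u := by
  unfold Surf.Nr
  exact (S.N_cont hu).inner S.smooth.continuous.continuousAt

private lemma ONE_N2_cont (S : Surf) {u : V2} (hu : ‖u‖ ≤ 1) : ContinuousAt (fun u => S.N u 2) u := by
  have : (fun u => S.N u 2) = fun u => ⟪E3, S.N u⟫ := by ext u; rw [ONE_E3_inner]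
  rw [this]
  exact continuousAt_const.inner (S.N_cont hu)

private lemma ONE_X2_cont (S : Surf) : Continuous (fun u => S.X u 2) := by
  have : (fun u => S.X u 2) = fun u => ⟪E3, S.X u⟫ := by ext u; rw [ONE_E3_inner]
  rw [this]
  exact continuous_const.inner S.smooth.continuous

/-- `a + j b ≥ 0` for all natural numbers `j` implies `b ≥ 0` -/
private lemma ONE_arch {a b : ℝ} (h : ∀ j : ℕ, 0 ≤ a + j * b) : 0 ≤ b := by
  by_contra hb
  push Not at hb
  obtain ⟨j, hj⟩ := exists_nat_gt (a / (-b))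
  have h1 := h j
  rw [div_lt_iff₀ (by linarith)] at hj
  nlinarith

theorem one_kappa {S : Surf} (D : Dom S) (hos : ∀ u : V2, ‖u‖ < 1 → (S.X u) 2 < 0) :
    ∃ κ₀ : ℝ, ∀ κ : ℝ, κ₀ ≤ κ → ∀ u : V2, ‖u‖ = 1 → S.N u 2 + κ * S.Nr u < 0 := by
  by_contra hcon
  push Not at hcon
  have h1 : ∀ j : ℕ, ∃ u : V2, ‖u‖ = 1 ∧ 0 ≤ S.N u 2 + j * S.Nr u := by
    intro j
    obtain ⟨κ, hκ, u, hu, h⟩ := hcon j
    refine ⟨u, hu, h.trans ?_⟩
    have := one_Nr D hos hu
    nlinarith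
  choose u hu hpos using h1
  obtain ⟨v, hv, φ, hφ, hlim⟩ := (isCompact_sphere (0 : V2) 1).tendsto_subseq
    (fun n => by simpa using hu n)
  have hv1 : ‖v‖ = 1 := by simpa using hv
  have hN := (ONE_N2_cont S hv1.le).tendsto.comp hlim
  have hR := (ONE_Nr_cont S hv1.le).tendsto.comp hlim
  have h2 : ∀ j : ℕ, 0 ≤ S.N v 2 + j * S.Nr v := by
    intro j
    have hl : Tendsto (fun k => S.N (u (φ k)) 2 + j * S.Nr (u (φ k))) atTop
        (𝓝 (S.N v 2 + j * S.Nr v)) := hN.add (hR.const_mul _)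
    refine ge_of_tendsto hl ?_
    filter_upwards [eventually_ge_atTop j] with k hk
    have h3 := hpos (φ k)
    have h4 := one_Nr D hos (hu (φ k))
    have h5 : (j : ℝ) ≤ φ k := by exact_mod_cast hk.trans (hφ.id_le k)
    nlinarith
  have h3 : S.Nr v = 0 := le_antisymm (one_Nr D hos hv1) (ONE_arch h2)
  rcases S.N_vert hv1 h3 with h4 | h4
  · exact one_nE S hos hv1 h4
  · have h5 := h2 0
    rw [h4] at h5
    simp at h5
    linarith

private lemma ONE_ballA {S : Surf} (D : Dom S) (hos : ∀ u : V2, ‖u‖ < 1 → (S.X u) 2 < 0) :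
    ∃ κ₀ : ℝ, ∀ κ : ℝ, κ₀ ≤ κ → ∀ u : V2, ‖u‖ ≤ 1 → (S.X u) 2 < 0 →
      1 < ‖S.X u‖ ^ 2 - 2 * κ * (S.X u) 2 := by
  by_contra hcon
  push Not at hcon
  have h1 : ∀ j : ℕ, ∃ u : V2, ‖u‖ ≤ 1 ∧ (S.X u) 2 < 0 ∧
      ‖S.X u‖ ^ 2 - 2 * j * (S.X u) 2 ≤ 1 := by
    intro j
    obtain ⟨κ, hκ, u, hu, h2, h⟩ := hcon j
    refine ⟨u, hu, h2, ?_⟩
    nlinarith
  choose u hu hneg hle using h1
  obtain ⟨v, hv, φ, hφ, hlim⟩ := (isCompact_closedBall (0 : V2) 1).tendsto_subseq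
    (fun n => by simpa using hu n)
  have hv1 : ‖v‖ ≤ 1 := by simpa using hv
  have hX := (S.smooth.continuous.tendsto v).comp hlim
  have hX2 := ((ONE_X2_cont S).tendsto v).comp hlim
  have hlt : ∀ k, ‖u k‖ < 1 := by
    intro k
    rcases (hu k).lt_or_eq with h | h
    · exact h
    · have := (S.bd1 h).1
      have := hneg k
      linarith
  have h2 : ∀ j : ℕ, 0 ≤ (1 - ‖S.X v‖ ^ 2) + j * (2 * (S.X v) 2) := by
    intro j
    have hl : Tendsto (fun k => (1 - ‖S.X (u (φ k))‖ ^ 2) + j * (2 * (S.X (u (φ k))) 2)) atTop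
        (𝓝 ((1 - ‖S.X v‖ ^ 2) + j * (2 * (S.X v) 2))) :=
      (tendsto_const_nhds.sub ((hX.norm).pow 2)).add ((hX2.const_mul 2).const_mul _)
    refine ge_of_tendsto hl ?_
    filter_upwards [eventually_ge_atTop j] with k hk
    have h3 := hle (φ k)
    have h4 := hneg (φ k)
    have h5 : (j : ℝ) ≤ φ k := by exact_mod_cast hk.trans (hφ.id_le k)
    nlinarith
  have h3 : 0 ≤ 2 * (S.X v) 2 := ONE_arch h2
  have hv1' : ‖v‖ = 1 := by
    rcases hv1.lt_or_eq with h | h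
    · have := hos v h
      linarith
    · exact h
  have hβ := ori D.toPreDom hv1'
  rcases lt_or_ge (S.N v 2) 0 with hc | hc
  · have h4 : ⟪fderiv ℝ S.X v v, S.X v⟫ < 0 := by
      rw [S.Xr_p hv1']
      nlinarith
    have h5 := hlim.eventually (hr_out S hv1' h4)
    obtain ⟨k, hk⟩ := h5.exists
    have h6 := hk.1 (hlt _)
    have h7 := hle (φ k)
    have h8 := hneg (φ k)
    have h9 : ‖S.X (u (φ k))‖ ^ 2 = (S.X (u (φ k))) 0 ^ 2 + (S.X (u (φ k))) 1 ^ 2 +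
      (S.X (u (φ k))) 2 ^ 2 := nsq _
    simp only [Function.comp_apply] at h6
    have h10 : (0 : ℝ) ≤ (φ k : ℕ) := Nat.cast_nonneg _
    nlinarith [sq_nonneg ((S.X (u (φ k))) 2)]
  · have hNr : S.Nr v < 0 := by
      rcases (one_Nr D hos hv1').lt_or_eq with h | h
      · exact h
      · exfalso
        rcases S.N_vert hv1' h with h4 | h4
        · exact one_nE S hos hv1' h4
        · rw [h4] at hc
          simp at hc
          linarith
    have h4 : 0 < (fderiv ℝ S.X v v) 2 := by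
      rw [S.Xr_2 hv1']
      nlinarith
    set m := ⟪fderiv ℝ S.X v v, S.X v⟫ with hm
    obtain ⟨c, hc0, hc1⟩ : ∃ c : ℝ, 0 < c ∧ -(fderiv ℝ S.X v v) 2 + 2 * c * m < 0 := by
      refine ⟨(fderiv ℝ S.X v v) 2 / (2 * (|m| + 1)), by positivity, ?_⟩
      have h5 : 2 * ((fderiv ℝ S.X v v) 2 / (2 * (|m| + 1))) * m =
          (fderiv ℝ S.X v v) 2 * (m / (|m| + 1)) := by
        field_simp
      rw [h5]
      have h6 : m / (|m| + 1) < 1 := by
        rw [div_lt_one (by positivity)]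
        linarith [le_abs_self m]
      nlinarith
    have hsm : ContDiff ℝ 1 (fun x : V2 => ⟪-E3, S.X x⟫ - c * (1 - ⟪S.X x, S.X x⟫)) := by
      have h1 := S.smooth.of_le (show (1 : WithTop ℕ∞) ≤ 2 by norm_num)
      exact (contDiff_const.inner ℝ h1).sub (contDiff_const.mul
        (contDiff_const.sub (h1.inner ℝ h1)))
    have hdX : HasFDerivAt S.X (fderiv ℝ S.X v) v :=
      (S.smooth.differentiable (by norm_num) v).hasFDerivAt
    have hder : fderiv ℝ (fun x : V2 => ⟪-E3, S.X x⟫ - c * (1 - ⟪S.X x, S.X x⟫)) v v =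
        -(fderiv ℝ S.X v v) 2 + 2 * c * m := by
      have e1 : HasDerivAt (fun s : ℝ => S.X (v + s • v)) (fderiv ℝ S.X v v) 0 := by
        have h5 : HasDerivAt (fun s : ℝ => v + s • v) v 0 := by
          have := ((hasDerivAt_id (0 : ℝ)).smul_const v).const_add v
          simpa using this
        have h6 : HasFDerivAt S.X (fderiv ℝ S.X v) (v + (0 : ℝ) • v) := by simpa using hdX
        exact h6.comp_hasDerivAt 0 h5
      have e2 : HasDerivAt (fun s : ℝ => ⟪-E3, S.X (v + s • v)⟫ -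
          c * (1 - ⟪S.X (v + s • v), S.X (v + s • v)⟫))
          (-(fderiv ℝ S.X v v) 2 + 2 * c * m) 0 := by
        have h7 := (hasDerivAt_const (0 : ℝ) (-E3 : V3)).inner ℝ e1
        have h8 := e1.inner ℝ e1
        have h9 := h7.sub ((h8.const_sub 1).const_mul c)
        refine h9.congr_deriv ?_
        simp only [zero_smul, add_zero, inner_zero_left, inner_neg_left, ONE_E3_inner]
        rw [real_inner_comm (fderiv ℝ S.X v v) (S.X v), ← hm]
        ring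
      have e3 : HasDerivAt (fun s : ℝ => (fun x : V2 => ⟪-E3, S.X x⟫ -
          c * (1 - ⟪S.X x, S.X x⟫)) (v + s • v))
          (fderiv ℝ (fun x : V2 => ⟪-E3, S.X x⟫ - c * (1 - ⟪S.X x, S.X x⟫)) v v) 0 := by
        have h5 : HasDerivAt (fun s : ℝ => v + s • v) v 0 := by
          have := ((hasDerivAt_id (0 : ℝ)).smul_const v).const_add v
          simpa using this
        have h6 := (hsm.differentiable (by norm_num) v).hasFDerivAt
        have h6' : HasFDerivAt (fun x : V2 => ⟪-E3, S.X x⟫ - c * (1 - ⟪S.X x, S.X x⟫))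
          (fderiv ℝ (fun x : V2 => ⟪-E3, S.X x⟫ - c * (1 - ⟪S.X x, S.X x⟫)) v)
          (v + (0 : ℝ) • v) := by simpa using h6
        exact h6'.comp_hasDerivAt 0 h5
      exact e3.unique e2
    have hrad := rad1 hv1' (F := fun x : V2 => ⟪-E3, S.X x⟫ - c * (1 - ⟪S.X x, S.X x⟫))
      hsm.contDiffAt
      (Eventually.of_forall (by
        intro x hx
        have h5 := S.bd1 hx
        have h6 : ⟪S.X x, S.X x⟫ = 1 := by
          rw [real_inner_self_eq_norm_sq, nsq, h5.1]; linarith [h5.2]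
        rw [h6, inner_neg_left, ONE_E3_inner, h5.1]
        simp))
      (by rw [hder]; exact hc1)
    have h5 := hlim.eventually hrad
    obtain ⟨J, hJ⟩ := exists_nat_gt (1 / (2 * c))
    obtain ⟨k, hk1, hk2⟩ := (h5.and (eventually_ge_atTop J)).exists
    have h6 := hk1.1 (hlt _)
    simp only [Function.comp_apply, inner_neg_left, ONE_E3_inner,
      real_inner_self_eq_norm_sq] at h6
    have h7 := hle (φ k)
    have h8 := hneg (φ k)
    have h9 : (J : ℝ) ≤ φ k := by exact_mod_cast hk2.trans (hφ.id_le k)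
    rw [div_lt_iff₀ (by positivity)] at hJ
    set F := -(S.X (u (φ k))) 2 with hF
    have hF0 : 0 < F := by rw [hF]; linarith
    have h10 : 2 * (φ k : ℝ) * F ≤ 1 - ‖S.X (u (φ k))‖ ^ 2 := by
      rw [hF]; linarith
    have h11 : c * (2 * (φ k : ℝ) * F) ≤ c * (1 - ‖S.X (u (φ k))‖ ^ 2) :=
      mul_le_mul_of_nonneg_left h10 hc0.le
    have h12 : 1 < (φ k : ℝ) * (2 * c) := by
      have : (J : ℝ) * (2 * c) ≤ φ k * (2 * c) := mul_le_mul_of_nonneg_right h9 (by positivity)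
      linarith
    have h13 : 1 * F < (φ k : ℝ) * (2 * c) * F := mul_lt_mul_of_pos_right h12 hF0
    nlinarith

theorem one_ball {S : Surf} (D : Dom S) (hos : ∀ u : V2, ‖u‖ < 1 → (S.X u) 2 < 0) :
    ∃ κ₀ : ℝ, ∀ κ : ℝ, κ₀ ≤ κ → ∀ y : V3, y 2 < 0 → ‖y‖ ^ 2 - 2 * κ * y 2 ≤ 1 → y ∈ D.W := by
  obtain ⟨κ₀, hκ₀⟩ := ONE_ballA D hos
  refine ⟨max κ₀ 1, fun κ hκ => ?_⟩
  have hκ1 : κ₀ ≤ κ := (le_max_left _ _).trans hκ
  have hκ2 : 1 ≤ κ := (le_max_right _ _).trans hκ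
  have hA := hκ₀ κ hκ1
  set A : Set V3 := {y | y 2 < 0 ∧ ‖y‖ ^ 2 - 2 * κ * y 2 ≤ 1} with hAdef
  have hAeq : A = {y | ⟪E3, y⟫ < 0} ∩ closedBall (κ • E3) (Real.sqrt (1 + κ ^ 2)) := by
    ext y
    simp only [hAdef, Set.mem_ofPred_eq, mem_inter_iff, mem_closedBall, dist_eq_norm, ONE_E3_inner]
    have h1 : ‖y - κ • E3‖ ^ 2 = ‖y‖ ^ 2 - 2 * κ * y 2 + κ ^ 2 := by
      rw [norm_sub_sq_real, inner_smul_right, real_inner_comm, ONE_E3_inner, norm_smul,
        ONE_E3_norm]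
      rw [mul_one, Real.norm_eq_abs, sq_abs]
      ring
    have h2 : ‖y - κ • E3‖ ≤ Real.sqrt (1 + κ ^ 2) ↔ ‖y - κ • E3‖ ^ 2 ≤ 1 + κ ^ 2 :=
      Real.le_sqrt (norm_nonneg _) (by positivity)
    rw [h2, h1]
    constructor
    · rintro ⟨h3, h4⟩; exact ⟨h3, by linarith⟩
    · rintro ⟨h3, h4⟩; exact ⟨h3, by linarith⟩
  have hconv : Convex ℝ A := by
    rw [hAeq]
    refine Convex.inter ?_ (convex_closedBall _ _)
    exact convex_halfSpace_lt (innerSL ℝ E3).isBoundedLinearMap.toIsLinearMap 0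
  have hdisj : Disjoint A (frontier D.W) := by
    rw [Set.disjoint_left]
    intro y hy hyf
    rcases D.fr hyf with h | h
    · obtain ⟨u, hu, rfl⟩ := h
      have := hA u hu hy.1
      linarith [hy.2]
    · have := h.1
      linarith [hy.1]
  obtain ⟨ε, hε, hε2⟩ := D.inD 0 (by simp) (by simp)
  have hmem : ∃ y, y ∈ A ∧ y ∈ D.W := by
    set s := min (ε / 2) (1 / (4 * κ)) with hs
    have hs0 : 0 < s := by rw [hs]; positivity
    have hs1 : s < ε := lt_of_le_of_lt (min_le_left _ _) (by linarith)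
    have hs2 : s ≤ 1 / (4 * κ) := min_le_right _ _
    have hs3 : s * (4 * κ) ≤ 1 := by rwa [le_div_iff₀ (by positivity)] at hs2
    have hs4 : s ≤ 1 / 4 := by nlinarith
    refine ⟨0 - s • E3, ?_, (hε2 s hs0 hs1).1⟩
    constructor
    · simp; exact hs0
    · rw [zero_sub, norm_neg, norm_smul, ONE_E3_norm, Real.norm_eq_abs, abs_of_pos hs0]
      simp
      nlinarith
  intro y hy1 hy2
  rcases sep D.isOpen hconv.isPreconnected hdisj with h | h
  · exact h ⟨hy1, hy2⟩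
  · obtain ⟨z, hz1, hz2⟩ := hmem
    exact absurd (subset_closure hz2) (h hz1)

theorem one {S : Surf} (D : Dom S) (hos : ∀ u : V2, ‖u‖ < 1 → (S.X u) 2 < 0) {e : V3}
    (he : ‖e‖ = 1) (he2 : e 2 = 0) : SS D e 0 := by
  obtain ⟨κ₁, hκ₁⟩ := one_kappa D hos
  obtain ⟨κ₂, hκ₂⟩ := one_ball D hos
  set κ := max (max κ₁ κ₂) 1 with hκ
  have h1 := hκ₁ κ ((le_max_left _ _).trans (le_max_left _ _))
  have h2 := hκ₂ κ ((le_max_right _ _).trans (le_max_left _ _))
  have h3 : 1 ≤ κ := le_max_right _ _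
  have hsig : ∀ y ∈ S.Sig, y 2 ≤ 0 := by
    rintro y ⟨u, hu, rfl⟩
    rcases hu.lt_or_eq with h | h
    · exact (hos u h).le
    · exact (S.bd1 h).1.le
  set nf : ℝ → V3 := fun s => Real.cos (Real.pi / 2 * (1 - s)) • e +
    Real.sin (Real.pi / 2 * (1 - s)) • E3 with hnf
  set tf : ℝ → ℝ := fun s => κ * Real.sin (Real.pi / 2 * (1 - s)) with htf
  have hnfc : Continuous nf := by rw [hnf]; fun_prop
  have htfc : Continuous tf := by rw [htf]; fun_prop
  have hnf2 : ∀ s, (nf s) 2 = Real.sin (Real.pi / 2 * (1 - s)) := by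
    intro s; simp [hnf, he2]
  have heE : ⟪e, E3⟫ = 0 := by rw [real_inner_comm, ONE_E3_inner, he2]
  have hnorm : ∀ s, ‖nf s‖ = 1 := by
    intro s
    have h4 : ‖nf s‖ ^ 2 = 1 := by
      simp only [hnf]
      rw [norm_add_sq_real, inner_smul_left, inner_smul_right, heE, norm_smul, norm_smul, he,
        ONE_E3_norm]
      simp
    nlinarith [norm_nonneg (nf s)]
  have hsin : ∀ s : ℝ, 0 ≤ s → s < 1 → 0 < Real.sin (Real.pi / 2 * (1 - s)) := by
    intro s hs0 hs1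
    have hpi := Real.pi_pos
    apply Real.sin_pos_of_pos_of_lt_pi
    · have : 0 < 1 - s := by linarith
      positivity
    · nlinarith
  have hcos : ∀ s : ℝ, 0 ≤ s → s < 1 → 0 ≤ Real.cos (Real.pi / 2 * (1 - s)) := by
    intro s hs0 hs1
    have hpi := Real.pi_pos
    apply Real.cos_nonneg_of_mem_Icc
    constructor
    · nlinarith
    · nlinarith
  have hres := tilt D nf tf hnfc.continuousOn htfc.continuousOn (fun s _ => hnorm s)
    (by
      intro u hu hle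
      exfalso
      have e1 : nf 0 = E3 := by simp [hnf]
      have e2 : tf 0 = κ := by simp [htf]
      rw [e1, e2, ONE_E3_inner] at hle
      have := hsig _ (S.mem_Sig hu)
      linarith)
    (by
      intro s hs0 hs1 u hu hl
      have hp := S.bd1 hu
      set l := ⟪nf s, S.X u⟫ - tf s with hldef
      have hl0 : 0 < l := by rw [hldef]; linarith
      have hsn := hsin s hs0 hs1
      have e1 : (refl (nf s) (tf s) (S.X u)) 2 = -(2 * l * Real.sin (Real.pi / 2 * (1 - s))) := by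
        unfold refl
        rw [← hldef]
        simp only [PiLp.sub_apply, PiLp.smul_apply, smul_eq_mul, hnf2, hp.1]
        ring
      have hX : ‖S.X u‖ ^ 2 = 1 := by rw [nsq, hp.1]; linarith [hp.2]
      have e2 : ‖refl (nf s) (tf s) (S.X u)‖ ^ 2 = 1 - 4 * l * tf s := by
        unfold refl
        rw [← hldef, norm_sub_sq_real, inner_smul_right, norm_smul, hnorm, hX, real_inner_comm]
        have : ⟪nf s, S.X u⟫ = l + tf s := by rw [hldef]; ring
        rw [this]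
        rw [mul_one, Real.norm_eq_abs, sq_abs]
        ring
      apply h2
      · rw [e1]
        have : 0 < 2 * l * Real.sin (Real.pi / 2 * (1 - s)) := by positivity
        linarith
      · rw [e1, e2]
        apply le_of_eq
        simp only [htf]
        ring)
    (by
      intro s hs0 hs1 d hd hl hmem
      have hsn := hsin s hs0 hs1
      have h4 := hsig _ hmem
      have e1 : (refl (nf s) (tf s) d) 2 =
          -(2 * (⟪nf s, d⟫ - tf s) * Real.sin (Real.pi / 2 * (1 - s))) := by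
        unfold refl
        simp only [PiLp.sub_apply, PiLp.smul_apply, smul_eq_mul, hnf2, hd.1]
        ring
      rw [e1] at h4
      have : 0 < (tf s - ⟪nf s, d⟫) * Real.sin (Real.pi / 2 * (1 - s)) :=
        mul_pos (by linarith) hsn
      nlinarith)
    (by
      intro s hs0 hs1 u₀ hu₀ hl
      have hsn := hsin s hs0 hs1
      refine hinge_strict D hnfc.continuousOn htfc.continuousOn hs0 hs1 hu₀ hl
        (by rw [hnf2]; exact hsn) ?_
      rw [S.N_decomp hu₀, inner_add_right, inner_smul_right, inner_smul_right, hl,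
        real_inner_comm, ONE_E3_inner, hnf2]
      have h4 := h1 u₀ hu₀
      have e3 : S.Nr u₀ * tf s + S.N u₀ 2 * Real.sin (Real.pi / 2 * (1 - s)) =
          (S.N u₀ 2 + κ * S.Nr u₀) * Real.sin (Real.pi / 2 * (1 - s)) := by
        simp only [htf]; ring
      rw [e3]
      exact mul_neg_of_neg_of_pos h4 hsn)
    (by
      intro s hs0 hs1
      have hsn := hsin s hs0 hs1
      have hcs := hcos s hs0 hs1
      have he' : e 0 ^ 2 + e 1 ^ 2 = 1 := by
        have := nsq e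
        rw [he, he2] at this
        linarith
      obtain ⟨u, hu, hXu⟩ := (S.bd (-e)).2 ⟨by simp [he2], by simp; exact he'⟩
      refine ⟨u, hu, ?_⟩
      rw [hXu, inner_neg_right]
      simp only [hnf, htf]
      rw [inner_add_left, inner_smul_left, inner_smul_left, ONE_E3_inner, he2,
        real_inner_self_eq_norm_sq, he]
      simp
      have : 0 < κ * Real.sin (Real.pi / 2 * (1 - s)) := by positivity
      linarith)
    1 ⟨zero_le_one, le_rfl⟩
  have e1 : nf 1 = e := by simp [hnf]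
  have e2 : tf 1 = 0 := by simp [htf]
  rw [e1, e2] at hres
  exact hres

end Pool.Agent.H99.SC

end S_ONE

section S_KER

/-!
# KER: the set of weak star centres at a fixed height

`wstar_mid`: `z₁, z₂` weak star centres; midpoint `z`, `y ∈ closure W`, `0 ≤ s ≤ 1`:
`z + s (y - z) = z₁ + ((1+s)/2) (y' - z₁)` with `y' = z₂ + (2s/(1+s)) (y - z₂)` (weights: `(1-s)/2` on `z₁`,
`(1+s)/2` on `y' = ((1-s) z₂ + 2 s y)/(1+s)`), `y' ∈ closure W` by `z₂`, then `z₁`.

`no_open`: a nonempty open set `O ⊆ closure W` contains no point of `S.Sig ∪ Disc`, so `O ⊆ W`: a point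
`X u`, `‖u‖ < 1`, is a limit of `X u - s N u ∉ closure W` (`inS`); a point `X u` with `‖u‖ = 1` is a limit of
interior points `X (r u)`; a point `d` of the open disc is a limit of `d + s E3 ∉ closure W` (`inD`);
points of `Disc` on the circle are in `S.Sig` (`S.bd`).  Then `mem_W_of_closure`.

`wstar_conn`: `q ∈ W` a weak star centre.  For `y ∈ W` and `0 < s ≤ 1` the homothety
`x ↦ q + s (x - q)` maps a neighbourhood of `y` to an open set in `closure W`, so `q + s (y - q) ∈ W` by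
`no_open`; also `q ∈ W`.  So `W` is star-shaped about `q` (`StarConvex.isPreconnected` or a union of
segments).

`wstar_refl`: `R = refl (nh φ) 0` is an involution, a homeomorphism, preserves `Disc` and (by hypothesis
and involution) `S.Sig`; so it preserves `K = S.Sig ∪ Disc`.  `R '' W` is open, preconnected and disjoint from
`K ⊇ frontier W` (`not_mem_W`), and it meets `W`: `- s₀ E3 ∈ W` for small `s₀` (`inD` at 0) and
`R (-s₀ E3) = -s₀ E3`.  So `R '' W ⊆ W` (`sep`), hence `R '' W = W` and `R '' closure W = closure W`.  `R` is affine: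
`R (z + s (y - z)) = R z + s (R y - R z)`, and `(R z) 2 = z 2`.

`wstar_min`: the weak star centres at the height of `q` form a closed set (closure W is closed), inside
`closure W` (take `s = 0`; `closure W` is nonempty), hence compact, nonempty (`q`): minimise.
-/


open scoped RealInnerProductSpace Topology
open Metric Filter Set


namespace Pool.Agent.H99.SC

theorem wstar_mid {S : Surf} {D : Dom S} {z₁ z₂ : V3} (h1 : WStar D z₁) (h2 : WStar D z₂) :
    WStar D ((1 / 2 : ℝ) • (z₁ + z₂)) := by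
  refine ⟨?_, ?_⟩
  · have a1 := h1.1
    have a2 := h2.1
    have : ((1 / 2 : ℝ) • (z₁ + z₂) : V3) 2 = (1 / 2 : ℝ) * (z₁ 2 + z₂ 2) := by
      simp; ring
    rw [this]; linarith
  · intro y hy s hs0 hs1
    have hpos : (0 : ℝ) < 1 + s := by linarith
    set c : ℝ := 2 * s / (1 + s) with hc
    have hc0 : 0 ≤ c := by positivity
    have hc1 : c ≤ 1 := by rw [hc, div_le_one hpos]; linarith
    have hcs : (1 + s) / 2 * c = s := by rw [hc]; field_simp
    have h3 := h2.2 y hy c hc0 hc1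
    have h4 := h1.2 _ h3 ((1 + s) / 2) (by positivity) (by linarith)
    have h5 : (1 / 2 : ℝ) • (z₁ + z₂) + s • (y - (1 / 2 : ℝ) • (z₁ + z₂)) =
        z₁ + ((1 + s) / 2) • (z₂ + c • (y - z₂) - z₁) := by
      have h6 : z₁ + ((1 + s) / 2) • (z₂ + c • (y - z₂) - z₁) =
          z₁ + ((1 + s) / 2) • (z₂ - z₁) + ((1 + s) / 2 * c) • (y - z₂) := by module
      rw [h6, hcs]
      module
    rw [h5]; exact h4

/-- a point of `closure W` off the surface and the disc is in `W` -/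
theorem mem_W_of_closure {S : Surf} (D : PreDom S) {y : V3} (hy : y ∈ closure D.W)
    (h : y ∉ S.Sig ∪ Disc) : y ∈ D.W := by
  by_contra hW
  exact h (D.fr ⟨hy, by rwa [D.isOpen.interior_eq]⟩)

private theorem KER_near {O : Set V3} (hO : IsOpen O) {p : V3} (hp : p ∈ O) (v : V3) {ε : ℝ}
    (hε : 0 < ε) : ∃ s : ℝ, 0 < s ∧ s < ε ∧ p + s • v ∈ O := by
  have hc : ContinuousAt (fun s : ℝ => p + s • v) 0 := by fun_prop
  have h1 : ∀ᶠ s : ℝ in 𝓝 0, p + s • v ∈ O := by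
    apply hc.eventually_mem
    rw [zero_smul, add_zero]
    exact hO.mem_nhds hp
  obtain ⟨δ, hδ, h2⟩ := Metric.eventually_nhds_iff_ball.1 h1
  refine ⟨min δ ε / 2, by positivity, ?_, h2 _ ?_⟩
  · have := min_le_right δ ε
    linarith
  · have h3 := min_le_left δ ε
    have h4 : 0 < min δ ε := lt_min hδ hε
    rw [mem_ball_zero_iff, Real.norm_eq_abs, abs_of_pos (by positivity)]
    linarith

private theorem KER_int {S : Surf} (D : PreDom S) {O : Set V3} (hO : IsOpen O)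
    (h : O ⊆ closure D.W) {u : V2} (hu : ‖u‖ < 1) (hy : S.X u ∈ O) : False := by
  obtain ⟨ε, hε, h1⟩ := D.inS u hu
  obtain ⟨s, hs0, hs1, hs2⟩ := KER_near hO hy (-(S.N u)) hε
  apply (h1 s hs0 hs1).2
  have : S.X u - s • S.N u = S.X u + s • (-(S.N u)) := by rw [smul_neg, sub_eq_add_neg]
  rw [this]
  exact h hs2

private theorem KER_sig {S : Surf} (D : PreDom S) {O : Set V3} (hO : IsOpen O)
    (h : O ⊆ closure D.W) {u : V2} (hu : ‖u‖ ≤ 1) (hy : S.X u ∈ O) : False := by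
  rcases hu.lt_or_eq with h1 | h1
  · exact KER_int D hO h h1 hy
  · have hc : ContinuousAt (fun r : ℝ => S.X (r • u)) 1 := by
      have h3 : Continuous fun r : ℝ => r • u := by fun_prop
      exact (S.smooth.continuous.comp h3).continuousAt
    have h2 : ∀ᶠ r : ℝ in 𝓝 1, S.X (r • u) ∈ O := by
      apply hc.eventually_mem
      rw [one_smul]
      exact hO.mem_nhds hy
    obtain ⟨δ, hδ, h3⟩ := Metric.eventually_nhds_iff_ball.1 h2
    set r : ℝ := 1 - min δ 1 / 2 with hr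
    have hm0 : 0 < min δ 1 := lt_min hδ one_pos
    have hm1 : min δ 1 ≤ δ := min_le_left _ _
    have hm2 : min δ 1 ≤ 1 := min_le_right _ _
    have h4 : r ∈ ball (1 : ℝ) δ := by
      rw [mem_ball, dist_eq_norm, hr, Real.norm_eq_abs, abs_of_nonpos (by linarith)]
      linarith
    have h5 : ‖r • u‖ < 1 := by
      rw [norm_smul, h1, mul_one, Real.norm_eq_abs, abs_of_pos (by linarith)]
      linarith
    exact KER_int D hO h h5 (h3 r h4)

/-- a point of an open set inside `closure W` is in `W` -/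
theorem no_open {S : Surf} (D : PreDom S) {O : Set V3} (hO : IsOpen O) (h : O ⊆ closure D.W) :
    O ⊆ D.W := by
  intro y hy
  apply mem_W_of_closure D (h hy)
  rintro (⟨u, hu, hX⟩ | ⟨hy2, hy1⟩)
  · rw [← hX] at hy
    exact KER_sig D hO h hu hy
  · rcases hy1.lt_or_eq with h1 | h1
    · obtain ⟨ε, hε, h2⟩ := D.inD y hy2 h1
      obtain ⟨s, hs0, hs1, hs2⟩ := KER_near hO hy E3 hε
      exact (h2 s hs0 hs1).2 (h hs2)
    · obtain ⟨u, hu, hX⟩ := (S.bd y).2 ⟨hy2, h1⟩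
      rw [← hX] at hy
      exact KER_sig D hO h hu.le hy

/-- `W` is preconnected if it is star-shaped about one of its points -/
theorem wstar_conn {S : Surf} {D : Dom S} {q : V3} (hq : WStar D q) (hqW : q ∈ D.W) :
    IsPreconnected D.W := by
  have hstar : StarConvex ℝ q D.W := by
    intro y hy a b ha hb hab
    rcases hb.eq_or_lt with h | h
    · have ha1 : a = 1 := by linarith
      rw [← h, ha1, one_smul, zero_smul, add_zero]
      exact hqW
    · set O : Set V3 := (fun x : V3 => q + b⁻¹ • (x - q)) ⁻¹' D.W with hOdef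
      have hO : IsOpen O := D.isOpen.preimage (by fun_prop)
      have hOc : O ⊆ closure D.W := by
        intro x hx
        have h1 := hq.2 _ (subset_closure hx) b hb (by linarith)
        have h2 : q + b • (q + b⁻¹ • (x - q) - q) = x := by
          rw [add_sub_cancel_left, smul_smul, mul_inv_cancel₀ h.ne', one_smul, add_sub_cancel]
        simp only at h1
        rwa [h2] at h1
      apply no_open D.toPreDom hO hOc
      rw [hOdef, mem_preimage]
      have h3 : a • q + b • y - q = b • (y - q) := by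
        have : a = 1 - b := by linarith
        rw [this]; module
      rw [h3, smul_smul, inv_mul_cancel₀ h.ne', one_smul, add_sub_cancel]
      exact hy
  exact (StarConvex.isPathConnected hstar hqW).isConnected.isPreconnected

private theorem KER_nh (φ : ℝ) : ‖nh φ‖ = 1 := by
  have h1 : ‖nh φ‖ ^ 2 = 1 := by
    rw [nsq, nh_0, nh_1, nh_2]
    have := Real.cos_sq_add_sin_sq φ
    linarith
  have h2 : 0 ≤ ‖nh φ‖ := norm_nonneg _
  nlinarith

private theorem KER_refl_zero (n y : V3) : refl n 0 y = rl n y := by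
  unfold refl rl
  rw [sub_zero]

private theorem KER_two (φ : ℝ) (y : V3) : (refl (nh φ) 0 y) 2 = y 2 := by
  unfold refl
  simp

private theorem KER_disc {φ : ℝ} {y : V3} (hy : y ∈ Disc) : refl (nh φ) 0 y ∈ Disc := by
  obtain ⟨h2, h1⟩ := hy
  have h3 := KER_two φ y
  refine ⟨by rw [h3]; exact h2, ?_⟩
  have h4 : ‖refl (nh φ) 0 y‖ = ‖y‖ := by
    rw [KER_refl_zero]; exact rl_norm _ (KER_nh φ) y
  have h5 := nsq (refl (nh φ) 0 y)
  have h6 := nsq y
  rw [h4, h3] at h5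
  nlinarith

private theorem KER_cont (φ : ℝ) : Continuous (refl (nh φ) 0) := by
  unfold refl
  fun_prop

private theorem KER_zero_disc {S : Surf} (D : PreDom S) :
    ∃ s : ℝ, 0 < s ∧ (0 : V3) - s • E3 ∈ D.W := by
  obtain ⟨ε, hε, h1⟩ := D.inD 0 (by simp) (by simp)
  exact ⟨ε / 2, by positivity, (h1 (ε / 2) (by positivity) (by linarith)).1⟩

theorem wstar_refl {S : Surf} {D : Dom S} (hW : IsPreconnected D.W) {φ : ℝ}
    (hsym : ∀ u : V2, ‖u‖ ≤ 1 → refl (nh φ) 0 (S.X u) ∈ S.Sig) {z : V3} (hz : WStar D z) :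
    WStar D (refl (nh φ) 0 z) := by
  have hn := KER_nh φ
  have hinv : ∀ y, refl (nh φ) 0 (refl (nh φ) 0 y) = y := refl_refl _ hn 0
  have hK : ∀ y ∈ S.Sig ∪ Disc, refl (nh φ) 0 y ∈ S.Sig ∪ Disc := by
    rintro y (⟨u, hu, hX⟩ | hy)
    · left
      rw [← hX]
      exact hsym u hu
    · right
      exact KER_disc hy
  have hdisj : Disjoint (refl (nh φ) 0 '' D.W) (frontier D.W) := by
    rw [Set.disjoint_left]
    rintro _ ⟨y, hy, rfl⟩ hfr
    have h1 := hK _ (D.fr hfr)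
    rw [hinv] at h1
    exact not_mem_W D.toPreDom h1 hy
  have hsub : refl (nh φ) 0 '' D.W ⊆ D.W := by
    rcases sep D.isOpen (hW.image _ (KER_cont φ).continuousOn) hdisj with h | h
    · exact h
    · exfalso
      obtain ⟨s, hs, hp⟩ := KER_zero_disc D.toPreDom
      have h1 : refl (nh φ) 0 ((0 : V3) - s • E3) = (0 : V3) - s • E3 := by
        unfold refl
        have : ⟪nh φ, (0 : V3) - s • E3⟫ = 0 := by
          rw [ip]; simp
        rw [this]
        simp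
      have h2 := h ⟨_, hp, h1⟩
      exact h2 (subset_closure hp)
  have hcl : ∀ y ∈ closure D.W, refl (nh φ) 0 y ∈ closure D.W := by
    intro y hy
    have h1 := image_closure_subset_closure_image (KER_cont φ) (s := D.W) ⟨y, hy, rfl⟩
    exact closure_mono hsub h1
  refine ⟨by rw [KER_two]; exact hz.1, fun y hy s hs0 hs1 => ?_⟩
  have h1 := hz.2 _ (hcl y hy) s hs0 hs1
  have h2 := hcl _ h1
  rw [refl_add, rl_smul, ← refl_sub _ 0, hinv] at h2
  exact h2

theorem wstar_min {S : Surf} {D : Dom S} {q : V3} (hq : WStar D q) :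
    ∃ z : V3, WStar D z ∧ z 2 = q 2 ∧ ∀ z' : V3, WStar D z' → z' 2 = q 2 →
      z 0 ^ 2 + z 1 ^ 2 ≤ z' 0 ^ 2 + z' 1 ^ 2 := by
  set T : Set V3 := {z | WStar D z ∧ z 2 = q 2} with hT
  obtain ⟨s₀, hs₀, hp₀⟩ := KER_zero_disc D.toPreDom
  have hTe : T = {z : V3 | z 2 = q 2} ∩
      ⋂ y ∈ closure D.W, ⋂ s ∈ Icc (0 : ℝ) 1, {z : V3 | z + s • (y - z) ∈ closure D.W} := by
    ext z
    simp only [hT, mem_ofPred_eq, mem_inter_iff, mem_iInter, mem_Icc]
    constructor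
    · rintro ⟨h1, h2⟩
      exact ⟨h2, fun y hy s hs => h1.2 y hy s hs.1 hs.2⟩
    · rintro ⟨h2, h1⟩
      exact ⟨⟨by rw [h2]; exact hq.1, fun y hy s hs0 hs1 => h1 y hy s ⟨hs0, hs1⟩⟩, h2⟩
  have hclosed : IsClosed T := by
    rw [hTe]
    refine IsClosed.inter ?_ ?_
    · exact isClosed_eq (by fun_prop) continuous_const
    · refine isClosed_iInter fun y => isClosed_iInter fun _ => isClosed_iInter fun s =>
        isClosed_iInter fun _ => ?_
      exact isClosed_closure.preimage (by fun_prop)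
  have hsubT : T ⊆ closure D.W := by
    rintro z ⟨h1, _⟩
    have := h1.2 _ (subset_closure hp₀) 0 le_rfl zero_le_one
    rwa [zero_smul, add_zero] at this
  have hcomp : IsCompact T :=
    (D.bdd.isCompact_closure).of_isClosed_subset hclosed hsubT
  have hf : ContinuousOn (fun z : V3 => z 0 ^ 2 + z 1 ^ 2) T := by fun_prop
  obtain ⟨z, hzT, hzmin⟩ := hcomp.exists_isMinOn ⟨q, hq, rfl⟩ hf
  exact ⟨z, hzT.1, hzT.2, fun z' h1 h2 => hzmin ⟨h1, h2⟩⟩

end Pool.Agent.H99.SC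

end S_KER
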