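import Mathlib
import Pool.Agent.H99.SCM.M1
import Pool.Agent.H99.SCM.M2
import Pool.Agent.H99.SCM.M3
import Pool.Agent.H99.SCM.M4
import Pool.Agent.H99.SCM.M5

/-! Star-shaped CMC discs (S14043), file M7: joins several modules to save build time. -/

set_option autoImplicit false

noncomputable section

section S_RTZ

/-!
# RTZ: reflections in vertical planes through the axis

`R = refl (nh φ) 0` is linear and fixes `E3` (`⟪nh φ, E3⟫ = 0`), preserves the third coordinate and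
`y 0 ^2 + y 1 ^2`.  `partner`: `R (X u)` is on the circle, use `S.bd`.
`refl_TT`: `R (TT p) = - TT (R p)` for every `p` (coordinates, `cos^2 + sin^2 = 1`).
`circ_zero`: points of the circle near `X v₁` are `X v`, `‖v‖ = 1` (`S.bd`), with `v` near `v₁` (`S.emb`): `f_X`, `b_X`.
`smooth_par`: composition of `B.f` (`B.smooth_f`) with the smooth map
`(φ,u) ↦ X u - 2 ⟪nh φ, X u⟫ nh φ`.
`mem_par`: continuity of the same map.
-/


open scoped RealInnerProductSpace Topology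
open Metric Filter Set


namespace Pool.Agent.H99.SC

theorem refl0_eq (φ : ℝ) (y : V3) : refl (nh φ) 0 y = rl (nh φ) y := by
  unfold refl rl; simp

theorem refl0_2 (φ : ℝ) (y : V3) : (refl (nh φ) 0 y) 2 = y 2 := by
  unfold refl; simp

theorem refl0_r (φ : ℝ) (y : V3) : (refl (nh φ) 0 y) 0 ^ 2 + (refl (nh φ) 0 y) 1 ^ 2
    = y 0 ^ 2 + y 1 ^ 2 := by
  have h := Real.cos_sq_add_sin_sq φ
  have h0 : (refl (nh φ) 0 y) 0 = y 0 - 2 * (Real.cos φ * y 0 + Real.sin φ * y 1) * Real.cos φ := by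
    unfold refl; simp [ip]
  have h1 : (refl (nh φ) 0 y) 1 = y 1 - 2 * (Real.cos φ * y 0 + Real.sin φ * y 1) * Real.sin φ := by
    unfold refl; simp [ip]
  rw [h0, h1]
  linear_combination (4 * (Real.cos φ * y 0 + Real.sin φ * y 1) ^ 2) * h

theorem refl0_Disc {φ : ℝ} {y : V3} (h : refl (nh φ) 0 y ∈ Disc) : y ∈ Disc := by
  refine ⟨by rw [← refl0_2 φ]; exact h.1, by rw [← refl0_r φ]; exact h.2⟩

theorem refl0_E3 (φ : ℝ) : refl (nh φ) 0 E3 = E3 := by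
  unfold refl; simp [ip]

theorem refl0_TT (φ : ℝ) (y : V3) : refl (nh φ) 0 (TT y) = -TT (refl (nh φ) 0 y) := by
  have h := Real.cos_sq_add_sin_sq φ
  unfold refl
  apply ext3
  · simp [ip]
    linear_combination (2 * y 1) * h
  · simp [ip]
    linear_combination (-2 * y 0) * h
  · simp [ip]

theorem refl0_inner (φ : ℝ) (a b : V3) : ⟪refl (nh φ) 0 a, refl (nh φ) 0 b⟫ = ⟪a, b⟫ := by
  rw [refl0_eq, refl0_eq, rl_inner _ (norm_nh φ)]

theorem partner (S : Surf) (φ : ℝ) {u : V2} (hu : ‖u‖ = 1) :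
    ∃ v : V2, ‖v‖ = 1 ∧ S.X v = refl (nh φ) 0 (S.X u) := by
  obtain ⟨h2, h1⟩ := S.bd1 hu
  exact (S.bd _).2 ⟨by rw [refl0_2]; exact h2, by rw [refl0_r]; exact h1⟩

theorem circ_zero (S : Surf) {v₁ : V2} (hv₁ : ‖v₁‖ = 1) {e : V3} (B : Box S.X v₁ e) :
    ∀ᶠ y in 𝓝 (S.X v₁), y 2 = 0 → y 0 ^ 2 + y 1 ^ 2 = 1 → B.f y = 0 ∧ ‖B.b y‖ = 1 := by
  obtain ⟨δ, hδ, hδ'⟩ := S.emb hv₁.le B.hr
  filter_upwards [Metric.ball_mem_nhds (S.X v₁) hδ] with y hy h2 h1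
  obtain ⟨v, hv, rfl⟩ := (S.bd y).2 ⟨h2, h1⟩
  have h := hδ' v hv.le (by simpa [dist_eq_norm] using hy)
  exact ⟨B.f_X h, by rw [B.b_X h]; exact hv⟩

/-- tangent vector `n` at a boundary point of a vertical plane through the axis -/
theorem TT_hinge {φ : ℝ} {p : V3} (h2 : p 2 = 0) (h1 : p 0 ^ 2 + p 1 ^ 2 = 1)
    (h : ⟪nh φ, p⟫ = 0) : ∃ σ : ℝ, σ ^ 2 = 1 ∧ TT p = σ • nh φ := by
  have hc := Real.cos_sq_add_sin_sq φ
  have h' : Real.cos φ * p 0 + Real.sin φ * p 1 = 0 := by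
    have := h; simp [ip] at this; linarith
  refine ⟨Real.sin φ * p 0 - Real.cos φ * p 1, ?_, ?_⟩
  · linear_combination (p 0 ^ 2 + p 1 ^ 2) * hc + h1
      - (Real.cos φ * p 0 + Real.sin φ * p 1) * h'
  · apply ext3
    · simp
      linear_combination (-Real.sin φ) * h' + (p 1) * hc
    · simp
      linear_combination (Real.cos φ) * h' - (p 0) * hc
    · simp

theorem RTZ_nh : ContDiff ℝ 2 (fun q : ℝ × V2 => nh q.1) := by
  rw [contDiff_euclidean]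
  intro i
  fin_cases i
  · have h : ContDiff ℝ 2 (fun q : ℝ × V2 => Real.cos q.1) := Real.contDiff_cos.comp contDiff_fst
    simpa using h
  · have h : ContDiff ℝ 2 (fun q : ℝ × V2 => Real.sin q.1) := Real.contDiff_sin.comp contDiff_fst
    simpa using h
  · simpa using contDiff_const

theorem RTZ_smooth (S : Surf) :
    ContDiff ℝ 2 (fun q : ℝ × V2 => refl (nh q.1) 0 (S.X q.2)) := by
  have hX : ContDiff ℝ 2 (fun q : ℝ × V2 => S.X q.2) := S.smooth.comp contDiff_snd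
  unfold refl
  exact hX.sub ((contDiff_const.mul ((RTZ_nh.inner ℝ hX).sub contDiff_const)).smul RTZ_nh)

theorem smooth_par (S : Surf) {v₁ : V2} {e : V3} (B : Box S.X v₁ e) {φ : ℝ} {u : V2}
    (hU : refl (nh φ) 0 (S.X u) ∈ B.U B.r) :
    ContDiffAt ℝ 2 (fun q : ℝ × V2 => B.f (refl (nh q.1) 0 (S.X q.2))) (φ, u) := by
  exact (B.smooth_f hU).comp (φ, u) (RTZ_smooth S).contDiffAt

theorem cont_par (S : Surf) :
    Continuous (fun q : ℝ × V2 => refl (nh q.1) 0 (S.X q.2)) :=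
  (RTZ_smooth S).continuous

end Pool.Agent.H99.SC

end S_RTZ

section S_KK

/-!
# KK: algebra of `kk = -N_r/(1 - N_3)` (cotangent of half the angle)

`N_r^2 + N_3^2 = 1` (`Nr_sq`), `N ≠ E3` (`D.nE`) so `N_3 < 1`: `N_3 = 1` would give `N_r = 0` and
`N = E3` (`N_decomp`).
`kk_id`: with `x = N_r`, `y = N_3`, `x' , y'` at the other point: multiply out and use
`x^2 + y^2 = 1`, `x'^2 + y'^2 = 1` (`field_simp`, then `linear_combination`; note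
`(1 - y)(1 + y) = x^2`).
`kk_inj`: from `kk_id` type formulas or: `k^2 = (1+y)/(1-y)` so `y = (k^2-1)/(k^2+1)`, `x = -k (1 - y)`.
-/


open scoped RealInnerProductSpace Topology
open Metric Filter Set


namespace Pool.Agent.H99.SC

namespace Surf
variable {S : Surf}

theorem N3_lt (D : Dom S) {u : V2} (hu : ‖u‖ = 1) : S.N u 2 < 1 := by
  have h1 := S.Nr_sq hu
  have h2 : S.N u 2 ≤ 1 := by nlinarith [sq_nonneg (S.Nr u)]
  rcases lt_or_eq_of_le h2 with h3 | h3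
  · exact h3
  · exfalso
    have h4 : S.Nr u = 0 := by
      rw [h3] at h1
      have : S.Nr u ^ 2 = 0 := by linarith
      exact pow_eq_zero_iff (by norm_num) |>.mp this
    have h5 := S.N_decomp hu
    rw [h4, h3, zero_smul, one_smul, zero_add] at h5
    exact D.nE u hu h5

theorem kk_pos (D : Dom S) {u : V2} (hu : ‖u‖ = 1) : 0 < S.kk u ↔ S.Nr u < 0 := by
  have h := N3_lt D hu
  unfold Surf.kk
  rw [div_pos_iff_of_pos_right (by linarith)]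
  exact neg_pos

theorem kk_neg (D : Dom S) {u : V2} (hu : ‖u‖ = 1) : S.kk u < 0 ↔ 0 < S.Nr u := by
  have h := N3_lt D hu
  unfold Surf.kk
  rw [div_neg_iff]
  constructor
  · rintro (⟨h1, h2⟩ | ⟨h1, h2⟩)
    · linarith
    · linarith
  · intro h1
    right
    exact ⟨by linarith, by linarith⟩

theorem kk_mul (D : Dom S) {u : V2} (hu : ‖u‖ = 1) : S.kk u * (1 - S.N u 2) = -S.Nr u := by
  have h := N3_lt D hu
  unfold Surf.kk
  rw [div_mul_cancel₀]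
  linarith

theorem kk_zero (D : Dom S) {u : V2} (hu : ‖u‖ = 1) : S.kk u = 0 ↔ S.N u = -E3 := by
  have h := N3_lt D hu
  have h1 := S.Nr_sq hu
  have h2 := S.N_decomp hu
  have h3 := kk_mul D hu
  constructor
  · intro h4
    have h5 : S.Nr u = 0 := by rw [h4, zero_mul] at h3; linarith
    have h6 : S.N u 2 = -1 := by
      rw [h5] at h1
      have h7 : (S.N u 2 - 1) * (S.N u 2 + 1) = 0 := by linarith
      rcases mul_eq_zero.mp h7 with h8 | h8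
      · linarith
      · linarith
    rw [h5, h6, zero_smul, zero_add, neg_smul, one_smul] at h2
    exact h2
  · intro h4
    have h6 : S.N u 2 = -1 := by rw [h4]; simp
    have h5 : S.Nr u ^ 2 = 0 := by rw [h6] at h1; linarith
    have h7 : S.Nr u = 0 := pow_eq_zero_iff (by norm_num) |>.mp h5
    unfold Surf.kk
    rw [h7, neg_zero, zero_div]

theorem kk_id (D : Dom S) {u v : V2} (hu : ‖u‖ = 1) (hv : ‖v‖ = 1) :
    S.N v 2 * S.Nr u - S.Nr v * S.N u 2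
      = (S.kk u - S.kk v) * (1 + S.kk u * S.kk v) * (1 - S.N u 2) * (1 - S.N v 2) / 2 := by
  have h1 := N3_lt D hu
  have h2 := N3_lt D hv
  have h3 := S.Nr_sq hu
  have h4 := S.Nr_sq hv
  have h5 := kk_mul D hu
  have h6 := kk_mul D hv
  have hne : (1 - S.N u 2) * (1 - S.N v 2) ≠ 0 := by
    apply mul_ne_zero <;> linarith
  refine mul_left_cancel₀ hne ?_
  have e1 : (1 - S.N u 2) * (1 - S.N v 2) * ((S.kk u - S.kk v) * (1 + S.kk u * S.kk v) *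
      (1 - S.N u 2) * (1 - S.N v 2) / 2) =
      ((S.kk u * (1 - S.N u 2)) * (1 - S.N v 2) - (S.kk v * (1 - S.N v 2)) * (1 - S.N u 2)) *
      ((1 - S.N u 2) * (1 - S.N v 2) +
        (S.kk u * (1 - S.N u 2)) * (S.kk v * (1 - S.N v 2))) / 2 := by ring
  rw [e1, h5, h6]
  linear_combination (S.Nr v * (1 - S.N v 2) / 2) * h3 - (S.Nr u * (1 - S.N u 2) / 2) * h4

theorem kk_inj (D : Dom S) {u v : V2} (hu : ‖u‖ = 1) (hv : ‖v‖ = 1) (h : S.kk u = S.kk v) :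
    S.Nr u = S.Nr v ∧ S.N u 2 = S.N v 2 := by
  have h1 := N3_lt D hu
  have h2 := N3_lt D hv
  have h3 := S.Nr_sq hu
  have h4 := S.Nr_sq hv
  have h5 := kk_mul D hu
  have h6 := kk_mul D hv
  have e : ∀ (x y k : ℝ), y < 1 → x ^ 2 + y ^ 2 = 1 → k * (1 - y) = -x →
      (k ^ 2 + 1) * y = k ^ 2 - 1 := by
    intro x y k hy hxy hk
    have h7 : (k ^ 2 * (1 - y) - (1 + y)) * (1 - y) = 0 := by
      have : (k * (1 - y)) ^ 2 = x ^ 2 := by rw [hk]; ring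
      linear_combination this + hxy
    have h8 := (mul_eq_zero.mp h7).resolve_right (by linarith)
    linarith
  have h7 := e _ _ _ h1 h3 h5
  have h8 := e _ _ _ h2 h4 h6
  rw [h] at h7 h5
  have h9 : S.N u 2 = S.N v 2 := by
    have hk : S.kk v ^ 2 + 1 ≠ 0 := by positivity
    exact mul_left_cancel₀ hk (h7.trans h8.symm)
  refine ⟨?_, h9⟩
  rw [h9] at h5
  linarith

theorem kk_cont (D : Dom S) : Continuous fun ψ : ℝ => S.kk (cu ψ) := by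
  have hN : Continuous fun ψ : ℝ => S.N (cu ψ) := by
    rw [continuous_iff_continuousAt]
    intro ψ
    exact ContinuousAt.comp (f := cu) (S.N_cont (norm_cu ψ).le) GC1_cu_cont.continuousAt
  have hX : Continuous fun ψ : ℝ => S.X (cu ψ) := S.smooth.continuous.comp GC1_cu_cont
  have hNr : Continuous fun ψ : ℝ => S.Nr (cu ψ) := hN.inner hX
  have h2 : Continuous fun ψ : ℝ => S.N (cu ψ) 2 :=
    (EuclideanSpace.proj (2 : Fin 3) : V3 →L[ℝ] ℝ).continuous.comp hN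
  unfold Surf.kk
  refine hNr.neg.div (continuous_const.sub h2) ?_
  intro ψ
  have := N3_lt D (norm_cu ψ)
  linarith

end Surf

end Pool.Agent.H99.SC

end S_KK

section S_BIN

/-!
# BIN: at a boundary contact the reflected interior points have interior parameters

`‖u₁‖ = ‖v₁‖ = 1`, `R = refl (nh φ) 0`, `X v₁ = R (X u₁)`, `R (N u₁) = N v₁`, `B` a box at `v₁`.  Then
for `u` near `u₁` with `‖u‖ < 1`: `‖B.b (R (X u))‖ < 1`.
Proof.  `F u = 1 - ‖B.b (R (X u))‖^2` is C^1 near `u₁` and vanishes for `‖u‖ = 1` near `u₁`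
(`circ_zero`).  Radial derivative at `u₁`: `-2 ⟪v₁, a⟫`, `a = Db (R Xr)`, `Xr = fderiv X u₁ u₁`.
`R Xr` is orthogonal to `N v₁ = R (N u₁)` (`rl_inner`), so it is `fderiv X v₁ a'` for some `a'` (`tangent`), and `a = a'`
(`db` with `s = 0`, `b (X v₁) = v₁`).  `V2` has the orthonormal basis `v₁, rot v₁`:
`a = ⟪v₁,a⟫ v₁ + c rot v₁`.  Inner product with `nu v₁` (orthogonal to `TT`, and
`fderiv X v₁ (rot v₁) = lam TT`): `⟪R Xr, nu v₁⟫ = ⟪v₁,a⟫ β(v₁)`, `β(v) = ⟪fderiv X v v, nu v⟫ > 0` (`ori`).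
And `R (nu u₁) = nu v₁` (`nu = N_3 X - N_r E3`; `N_3`, `N_r` agree because `R` preserves inner products,
the third coordinate and `E3`), so `⟪R Xr, nu v₁⟫ = ⟪Xr, nu u₁⟫ = β(u₁) > 0`.  So `⟪v₁,a⟫ > 0` and `rad1` applies.
-/


open scoped RealInnerProductSpace Topology
open Metric Filter Set


namespace Pool.Agent.H99.SC

theorem Nr_partner {S : Surf} {φ : ℝ} {u₁ v₁ : V2}
    (hx : S.X v₁ = refl (nh φ) 0 (S.X u₁)) (hN : rl (nh φ) (S.N u₁) = S.N v₁) :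
    S.Nr v₁ = S.Nr u₁ ∧ S.N v₁ 2 = S.N u₁ 2 ∧ rl (nh φ) (S.nu u₁) = S.nu v₁ := by
  have h1 : S.Nr v₁ = S.Nr u₁ := by
    unfold Surf.Nr
    rw [← hN, hx, refl0_eq, rl_inner _ (norm_nh φ)]
  have h2 : S.N v₁ 2 = S.N u₁ 2 := by
    rw [← hN, ← refl0_eq, refl0_2]
  refine ⟨h1, h2, ?_⟩
  have hE : rl (nh φ) E3 = E3 := by rw [← refl0_eq, refl0_E3]
  have h3 : rl (nh φ) (S.nu u₁) = (S.N u₁ 2) • rl (nh φ) (S.X u₁) - (S.Nr u₁) • rl (nh φ) E3 := by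
    unfold Surf.nu
    rw [sub_eq_add_neg, rl_add, rl_neg, rl_smul, rl_smul, ← sub_eq_add_neg]
  rw [h3, hE, ← refl0_eq, ← hx]
  unfold Surf.nu
  rw [h1, h2]

theorem BIN_v2 {v a : V2} (hv : ‖v‖ = 1) : a = ⟪v, a⟫ • v + ⟪rot v, a⟫ • rot v := by
  have h1 : v 0 ^ 2 + v 1 ^ 2 = 1 := by rw [← nsq2, hv]; norm_num
  apply ext2
  · simp only [PiLp.add_apply, PiLp.smul_apply, smul_eq_mul, ip2, rot_0, rot_1]
    linear_combination (-(a 0)) * h1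
  · simp only [PiLp.add_apply, PiLp.smul_apply, smul_eq_mul, ip2, rot_0, rot_1]
    linear_combination (-(a 1)) * h1

theorem bin {S : Surf} (D : PreDom S) {φ : ℝ} {u₁ v₁ : V2} (hu₁ : ‖u₁‖ = 1) (hv₁ : ‖v₁‖ = 1)
    (hx : S.X v₁ = refl (nh φ) 0 (S.X u₁)) (hN : rl (nh φ) (S.N u₁) = S.N v₁) {e : V3}
    (B : Box S.X v₁ e) :
    ∀ᶠ u in 𝓝 u₁, ‖u‖ < 1 → ‖B.b (refl (nh φ) 0 (S.X u))‖ < 1 := by
  obtain ⟨hNr, hN2, hnu⟩ := Nr_partner hx hN
  have hXd : Differentiable ℝ S.X := S.smooth.differentiable (by norm_num)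
  have hU : S.X v₁ ∈ B.U B.r := B.mem_U B.hr
  have hbv : B.b (S.X v₁) = v₁ := B.b_X (by simpa using B.hr)
  -- the tangent vector
  have horth : ⟪rl (nh φ) (fderiv ℝ S.X u₁ u₁), S.N v₁⟫ = 0 := by
    rw [← hN, rl_inner _ (norm_nh φ), real_inner_comm]
    exact S.N_orth u₁ u₁
  obtain ⟨a, ha⟩ := S.tangent hv₁.le horth
  have hpos : 0 < ⟪v₁, a⟫ := by
    have h1 : ⟪fderiv ℝ S.X v₁ a, S.nu v₁⟫ = ⟪v₁, a⟫ * ⟪fderiv ℝ S.X v₁ v₁, S.nu v₁⟫ := by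
      have h2 : fderiv ℝ S.X v₁ a
          = ⟪v₁, a⟫ • fderiv ℝ S.X v₁ v₁ + (⟪rot v₁, a⟫ * S.lam v₁) • TT (S.X v₁) := by
        conv_lhs => rw [BIN_v2 (a := a) hv₁]
        rw [map_add, map_smul, map_smul, S.rot_deriv hv₁, smul_smul]
      have h3 : ⟪TT (S.X v₁), S.nu v₁⟫ = 0 := by
        rw [real_inner_comm]; exact S.nu_TT hv₁
      rw [h2, inner_add_left, real_inner_smul_left, real_inner_smul_left, h3]
      ring
    have h4 : ⟪fderiv ℝ S.X v₁ a, S.nu v₁⟫ = ⟪fderiv ℝ S.X u₁ u₁, S.nu u₁⟫ := by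
      rw [ha, ← hnu, rl_inner _ (norm_nh φ)]
    have h5 := ori D hu₁
    have h6 := ori D hv₁
    rw [← h4, h1] at h5
    exact (pos_iff_pos_of_mul_pos h5).2 h6
  -- the function
  have hcR : ContDiff ℝ 2 (fun u => refl (nh φ) 0 (S.X u)) :=
    ((contDiff_refl (nh φ) 0).of_le le_top).comp S.smooth
  have hbC : ContDiffAt ℝ 2 B.b (refl (nh φ) 0 (S.X u₁)) := by
    rw [← hx]; exact B.smooth_b hU
  have hG : ContDiffAt ℝ 2 (fun u => B.b (refl (nh φ) 0 (S.X u))) u₁ :=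
    ContDiffAt.comp (f := fun u => refl (nh φ) 0 (S.X u)) (g := B.b) u₁ hbC hcR.contDiffAt
  have hGd : HasFDerivAt (fun u => B.b (refl (nh φ) 0 (S.X u)))
      ((fderiv ℝ B.b (refl (nh φ) 0 (S.X u₁))).comp
        (fderiv ℝ (fun u => refl (nh φ) 0 (S.X u)) u₁)) u₁ := by
    exact HasFDerivAt.comp (f := fun u => refl (nh φ) 0 (S.X u)) (g := B.b) u₁
      (hbC.differentiableAt (by norm_num)).hasFDerivAt
      ((hcR.differentiable (by norm_num)) u₁).hasFDerivAt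
  have hval : fderiv ℝ (fun u => B.b (refl (nh φ) 0 (S.X u))) u₁ u₁ = a := by
    rw [hGd.fderiv, ContinuousLinearMap.comp_apply, fderiv_refl_comp (nh φ) 0 (hXd u₁), ← hx, ← ha]
    have h7 := B.db S.smooth hU a 0
    rw [hbv, zero_smul, add_zero] at h7
    exact h7
  have hF : ContDiffAt ℝ 1 (fun u => 1 - ‖B.b (refl (nh φ) 0 (S.X u))‖ ^ 2) u₁ := by
    exact contDiffAt_const.sub ((hG.of_le (by norm_num)).norm_sq ℝ)
  have hder : fderiv ℝ (fun u => 1 - ‖B.b (refl (nh φ) 0 (S.X u))‖ ^ 2) u₁ u₁ < 0 := by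
    have h8 := (hG.differentiableAt (by norm_num)).hasFDerivAt.norm_sq
    have h9 := (h8.const_sub 1).fderiv
    rw [h9]
    simp only [ContinuousLinearMap.neg_apply, ContinuousLinearMap.smul_apply,
      ContinuousLinearMap.comp_apply, innerSL_apply_apply, hval, ← hx, hbv]
    simp only [nsmul_eq_mul, Nat.cast_ofNat]
    linarith
  have h0 : ∀ᶠ u in 𝓝 u₁, ‖u‖ = 1 → (fun u => 1 - ‖B.b (refl (nh φ) 0 (S.X u))‖ ^ 2) u = 0 := by
    have hc := circ_zero S hv₁ B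
    rw [hx] at hc
    have ht : Tendsto (fun u => refl (nh φ) 0 (S.X u)) (𝓝 u₁) (𝓝 (refl (nh φ) 0 (S.X u₁))) :=
      hcR.continuous.continuousAt
    filter_upwards [ht.eventually hc] with u hu h10
    have h11 := S.bd1 h10
    have h12 := (hu (by rw [refl0_2]; exact h11.1) (by rw [refl0_r]; exact h11.2)).2
    simp only [h12]
    norm_num
  have key := rad1 hu₁ hF h0 hder
  filter_upwards [key] with u hu h13
  have h14 := hu.1 h13
  have h15 := norm_nonneg (B.b (refl (nh φ) 0 (S.X u)))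
  by_contra hcon
  push Not at hcon
  nlinarith

end Pool.Agent.H99.SC

end S_BIN

section S_DRW

/-!
# DRW: radial derivative of the reflected defining function at a boundary point

`R = refl (nh φ) 0`, `‖u₁‖ = ‖v₁‖ = 1`, `X v₁ = R (X u₁)`, `B` a box at `v₁`, `w u = B.f (R (X u))`.
`fderiv w u₁ u₁ = ⟪g, R Xr⟫` (`fderiv_w` in file DI, or directly `fd` and the chain rule), `g = ‖g‖ N v₁` (`g_eq`,
`b (X v₁) = v₁`), `Xr = β nu u₁ + γ TT (X u₁)` (`Xr_decomp`), `R (TT (X u₁)) = - TT (X v₁)` is orthogonal to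
`N v₁`, `R (nu u₁) = N_3 (X v₁) - N_r E3` (`N_3, N_r` at `u₁`), so
`⟪N v₁, R Xr⟫ = β (N_r(v₁) N_3(u₁) - N_3(v₁) N_r(u₁))` and `kk_id`.
Consequence `drw_sign`: with `β > 0` (`ori`), `‖g‖ > 0`, `1 - N_3 > 0`: the sign of the radial derivative is
the sign of `-(kk u₁ - kk v₁)(1 + kk u₁ kk v₁)`.
-/


open scoped RealInnerProductSpace Topology
open Metric Filter Set


namespace Pool.Agent.H99.SC

theorem DRW_mem {S : Surf} {v₁ : V2} {e : V3} (B : Box S.X v₁ e) : S.X v₁ ∈ B.U B.r :=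
  ⟨v₁, 0, by simpa using B.hr, by simpa using B.hr, by simp⟩

theorem DRW_E3 (a : V3) : ⟪a, E3⟫ = a 2 := by
  rw [ip, E3_0, E3_1, E3_2]
  ring

theorem DRW_fderiv {S : Surf} {φ : ℝ} {u₁ v₁ : V2}
    (hx : S.X v₁ = refl (nh φ) 0 (S.X u₁)) {e : V3} (B : Box S.X v₁ e) (a : V2) :
    fderiv ℝ (fun u => B.f (refl (nh φ) 0 (S.X u))) u₁ a =
      ⟪B.g (S.X v₁), rl (nh φ) (fderiv ℝ S.X u₁ a)⟫ := by
  have hX : HasFDerivAt S.X (fderiv ℝ S.X u₁) u₁ :=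
    ((S.smooth.differentiable (by norm_num)) u₁).hasFDerivAt
  have h1 : HasFDerivAt (fun x => refl (nh φ) 0 (S.X x))
      (fderiv ℝ (fun x => refl (nh φ) 0 (S.X x)) u₁) u₁ := by
    apply DifferentiableAt.hasFDerivAt
    have := ((contDiff_refl (nh φ) 0).differentiable (by simp)).comp
      (S.smooth.differentiable (by norm_num))
    exact this u₁
  have h2 : HasFDerivAt B.f (fderiv ℝ B.f (S.X v₁)) (refl (nh φ) 0 (S.X u₁)) := by
    rw [← hx]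
    exact ((B.smooth_f (DRW_mem B)).differentiableAt (by norm_num)).hasFDerivAt
  have h3 := h2.comp u₁ h1
  have h4 : HasFDerivAt (fun u => B.f (refl (nh φ) 0 (S.X u)))
      ((fderiv ℝ B.f (S.X v₁)).comp (fderiv ℝ (fun x => refl (nh φ) 0 (S.X x)) u₁)) u₁ := h3
  rw [h4.fderiv, ContinuousLinearMap.comp_apply,
    fderiv_refl_comp (nh φ) 0 hX.differentiableAt, B.fd S.smooth (DRW_mem B)]

theorem drw {S : Surf} (D : Dom S) {φ : ℝ} {u₁ v₁ : V2} (hu₁ : ‖u₁‖ = 1) (hv₁ : ‖v₁‖ = 1)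
    (hx : S.X v₁ = refl (nh φ) 0 (S.X u₁)) {e : V3} (B : Box S.X v₁ e) :
    fderiv ℝ (fun u => B.f (refl (nh φ) 0 (S.X u))) u₁ u₁
      = -(‖B.g (S.X v₁)‖ * ⟪fderiv ℝ S.X u₁ u₁, S.nu u₁⟫ * ((S.kk u₁ - S.kk v₁)
        * (1 + S.kk u₁ * S.kk v₁) * (1 - S.N u₁ 2) * (1 - S.N v₁ 2) / 2)) := by
  rw [DRW_fderiv hx B, ← Surf.kk_id D hu₁ hv₁, B.g_eq (DRW_mem B),
    B.b_X (by simpa using B.hr)]
  have hN : NN S.X v₁ = S.N v₁ := rfl
  rw [hN, inner_smul_left]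
  have h1 : rl (nh φ) (fderiv ℝ S.X u₁ u₁) =
      ⟪fderiv ℝ S.X u₁ u₁, S.nu u₁⟫ • ((S.N u₁ 2) • S.X v₁ - (S.Nr u₁) • E3) -
        ⟪fderiv ℝ S.X u₁ u₁, TT (S.X u₁)⟫ • TT (S.X v₁) := by
    conv_lhs => rw [S.Xr_decomp hu₁]
    rw [rl_add, rl_smul, rl_smul, ← refl0_eq φ (TT (S.X u₁)), refl0_TT, ← hx]
    have h2 : rl (nh φ) (S.nu u₁) = (S.N u₁ 2) • S.X v₁ - (S.Nr u₁) • E3 := by
      unfold Surf.nu
      rw [sub_eq_add_neg, rl_add, rl_neg, rl_smul, rl_smul, ← refl0_eq, ← refl0_eq,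
        refl0_E3, ← hx, ← sub_eq_add_neg]
    rw [h2, smul_neg, ← sub_eq_add_neg]
  rw [h1, inner_sub_right, inner_smul_right, inner_smul_right, inner_sub_right,
    inner_smul_right, inner_smul_right, S.N_TT hv₁, DRW_E3]
  have h3 : ⟪S.N v₁, S.X v₁⟫ = S.Nr v₁ := rfl
  have h4 : ‖B.g (S.X v₁)‖ = ‖‖B.g (S.X v₁)‖ • S.N v₁‖ := by
    rw [norm_smul, S.N_norm hv₁.le, mul_one, norm_norm]
  rw [h3, ← h4]
  simp only [RCLike.conj_to_real]
  ring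

theorem drw_neg {S : Surf} (D : Dom S) {φ : ℝ} {u₁ v₁ : V2} (hu₁ : ‖u₁‖ = 1) (hv₁ : ‖v₁‖ = 1)
    (hx : S.X v₁ = refl (nh φ) 0 (S.X u₁)) {e : V3} (B : Box S.X v₁ e)
    (hk : S.kk v₁ < S.kk u₁) (hk' : 0 < 1 + S.kk u₁ * S.kk v₁) :
    fderiv ℝ (fun u => B.f (refl (nh φ) 0 (S.X u))) u₁ u₁ < 0 := by
  rw [drw D hu₁ hv₁ hx B]
  have h1 : 0 < ‖B.g (S.X v₁)‖ := B.g_pos (DRW_mem B)
  have h2 := ori D.toPreDom hu₁
  have h3 : 0 < 1 - S.N u₁ 2 := sub_pos.2 (Surf.N3_lt D hu₁)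
  have h4 : 0 < 1 - S.N v₁ 2 := sub_pos.2 (Surf.N3_lt D hv₁)
  have h5 : 0 < S.kk u₁ - S.kk v₁ := sub_pos.2 hk
  have : 0 < ‖B.g (S.X v₁)‖ * ⟪fderiv ℝ S.X u₁ u₁, S.nu u₁⟫ * ((S.kk u₁ - S.kk v₁)
        * (1 + S.kk u₁ * S.kk v₁) * (1 - S.N u₁ 2) * (1 - S.N v₁ 2) / 2) := by positivity
  linarith

theorem drw_pos {S : Surf} (D : Dom S) {φ : ℝ} {u₁ v₁ : V2} (hu₁ : ‖u₁‖ = 1) (hv₁ : ‖v₁‖ = 1)
    (hx : S.X v₁ = refl (nh φ) 0 (S.X u₁)) {e : V3} (B : Box S.X v₁ e)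
    (hk : S.kk u₁ < S.kk v₁) (hk' : 0 < 1 + S.kk u₁ * S.kk v₁) :
    0 < fderiv ℝ (fun u => B.f (refl (nh φ) 0 (S.X u))) u₁ u₁ := by
  rw [drw D hu₁ hv₁ hx B]
  have h1 : 0 < ‖B.g (S.X v₁)‖ := B.g_pos (DRW_mem B)
  have h2 := ori D.toPreDom hu₁
  have h3 : 0 < 1 - S.N u₁ 2 := sub_pos.2 (Surf.N3_lt D hu₁)
  have h4 : 0 < 1 - S.N v₁ 2 := sub_pos.2 (Surf.N3_lt D hv₁)
  have h5 : 0 < S.kk v₁ - S.kk u₁ := sub_pos.2 hk
  have : 0 < ‖B.g (S.X v₁)‖ * ⟪fderiv ℝ S.X u₁ u₁, S.nu u₁⟫ * ((S.kk v₁ - S.kk u₁)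
        * (1 + S.kk u₁ * S.kk v₁) * (1 - S.N u₁ 2) * (1 - S.N v₁ 2) / 2) := by positivity
  have h6 : -(‖B.g (S.X v₁)‖ * ⟪fderiv ℝ S.X u₁ u₁, S.nu u₁⟫ * ((S.kk u₁ - S.kk v₁)
        * (1 + S.kk u₁ * S.kk v₁) * (1 - S.N u₁ 2) * (1 - S.N v₁ 2) / 2)) =
      ‖B.g (S.X v₁)‖ * ⟪fderiv ℝ S.X u₁ u₁, S.nu u₁⟫ * ((S.kk v₁ - S.kk u₁)
        * (1 + S.kk u₁ * S.kk v₁) * (1 - S.N u₁ 2) * (1 - S.N v₁ 2) / 2) := by ring
  rw [h6]
  exact this

end Pool.Agent.H99.SC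

end S_DRW

section S_RTN

/-!
# RTN: nonnegativity of the reflected defining function

`fnn` (a remark used three times).  `‖v₁‖ = 1`, `B` a box at `v₁`.  For `y` near `X v₁` in `closure W`
with the side condition: `N_r(v₁) < 0`, or `N_r(v₁) > 0` and `0 < y 2`, or `N(v₁) = -E3` and
`1 < y 0^2 + y 1^2`: then `0 ≤ B.f y` (`loc_neg`, `loc_pos`, `loc_zero`).
`side_u`: for `u` near `u₁` (`‖u₁‖ = 1`) with `‖u‖ < 1`: `N_r(u₁) < 0 → (X u) 2 < 0`;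
`N_r(u₁) > 0 → 0 < (X u) 2`; `N(u₁) = -E3 → 1 < (X u) 0^2 + (X u) 1^2` (`Xr_2`, `Xr_p`, `ori`, `h3_neg`, `h3_pos`,
`hr_out`).
`fW`: the converse direction.  `y` near `X v₁` with `0 < B.f y` and one of: `N_r(v₁) < 0` and `y 2 < 0`;
`0 < N_r(v₁)`; `N(v₁) = -E3` and (`1 < y 0^2 + y 1^2` or `y 2 < 0`): then `y ∈ W`.
`nE_cases`: for a `Dom`, one of `N_r < 0`, `N_r > 0`, `N = -E3` holds (`N_vert`, `D.nE`).
-/


open scoped RealInnerProductSpace Topology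
open Metric Filter Set


namespace Pool.Agent.H99.SC

theorem side_u {S : Surf} (D : PreDom S) {u₁ : V2} (hu₁ : ‖u₁‖ = 1) : ∀ᶠ u in 𝓝 u₁, ‖u‖ < 1 →
    (S.Nr u₁ < 0 → (S.X u) 2 < 0) ∧ (0 < S.Nr u₁ → 0 < (S.X u) 2) ∧
    (S.N u₁ = -E3 → 1 < (S.X u) 0 ^ 2 + (S.X u) 1 ^ 2) := by
  have hori := ori D hu₁
  have h1 : ∀ᶠ u in 𝓝 u₁, ‖u‖ < 1 → S.Nr u₁ < 0 → (S.X u) 2 < 0 := by
    by_cases h : S.Nr u₁ < 0
    · have hd : 0 < (fderiv ℝ S.X u₁ u₁) 2 := by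
        rw [S.Xr_2 hu₁]
        exact mul_pos (neg_pos.2 h) hori
      filter_upwards [h3_neg S hu₁ hd] with u hu hu1 _ using hu.1 hu1
    · exact Eventually.of_forall fun u _ h' => absurd h' h
  have h2 : ∀ᶠ u in 𝓝 u₁, ‖u‖ < 1 → 0 < S.Nr u₁ → 0 < (S.X u) 2 := by
    by_cases h : 0 < S.Nr u₁
    · have hd : (fderiv ℝ S.X u₁ u₁) 2 < 0 := by
        rw [S.Xr_2 hu₁]
        nlinarith
      filter_upwards [h3_pos S hu₁ hd] with u hu hu1 _ using hu.1 hu1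
    · exact Eventually.of_forall fun u _ h' => absurd h' h
  have h3 : ∀ᶠ u in 𝓝 u₁, ‖u‖ < 1 → S.N u₁ = -E3 →
      1 < (S.X u) 0 ^ 2 + (S.X u) 1 ^ 2 := by
    by_cases h : S.N u₁ = -E3
    · have hp := S.bd1 hu₁
      have hNr : S.Nr u₁ = 0 := by
        unfold Surf.Nr
        rw [h, ip]
        simp [hp.1]
      have hnu : S.nu u₁ = -S.X u₁ := by
        unfold Surf.nu
        rw [hNr, h]
        simp
      rw [hnu, inner_neg_right] at hori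
      filter_upwards [hr_out S hu₁ (by linarith)] with u hu hu1 _ using hu.1 hu1
    · exact Eventually.of_forall fun u _ h' => absurd h' h
  filter_upwards [h1, h2, h3] with u a1 a2 a3 hu
  exact ⟨a1 hu, a2 hu, a3 hu⟩

theorem fnn {S : Surf} (D : PreDom S) {v₁ : V2} (hv₁ : ‖v₁‖ = 1) {e : V3} (B : Box S.X v₁ e) :
    ∀ᶠ y in 𝓝 (S.X v₁), y ∈ closure D.W →
      (S.Nr v₁ < 0 ∨ (0 < S.Nr v₁ ∧ 0 < y 2) ∨ (S.N v₁ = -E3 ∧ 1 < y 0 ^ 2 + y 1 ^ 2)) →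
      0 ≤ B.f y := by
  have h1 : ∀ᶠ y in 𝓝 (S.X v₁), S.Nr v₁ < 0 → y ∈ closure D.W → 0 ≤ B.f y := by
    by_cases h : S.Nr v₁ < 0
    · filter_upwards [loc_neg D hv₁ h B] with y hy _ hc
      by_contra hf
      exact hy.2.1 (not_le.mp hf) hc
    · exact Eventually.of_forall fun u h' => absurd h' h
  have h2 : ∀ᶠ y in 𝓝 (S.X v₁), 0 < S.Nr v₁ → 0 < y 2 → y ∈ closure D.W → 0 ≤ B.f y := by
    by_cases h : 0 < S.Nr v₁
    · filter_upwards [loc_pos D hv₁ h B] with y hy _ h2 hc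
      by_contra hf
      exact hy.2.2 (not_le.mp hf) h2 hc
    · exact Eventually.of_forall fun u h' => absurd h' h
  have h3 : ∀ᶠ y in 𝓝 (S.X v₁), S.N v₁ = -E3 → 1 < y 0 ^ 2 + y 1 ^ 2 → y ∈ closure D.W →
      0 ≤ B.f y := by
    by_cases h : S.N v₁ = -E3
    · filter_upwards [loc_zero D hv₁ h B] with y hy _ h2 hc
      by_contra hf
      exact hy.2.1 h2 (not_le.mp hf) hc
    · exact Eventually.of_forall fun u h' => absurd h' h
  filter_upwards [h1, h2, h3] with y a1 a2 a3 hc hcase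
  rcases hcase with h | ⟨h, h'⟩ | ⟨h, h'⟩
  · exact a1 h hc
  · exact a2 h h' hc
  · exact a3 h h' hc

theorem fW {S : Surf} (D : PreDom S) {v₁ : V2} (hv₁ : ‖v₁‖ = 1) {e : V3} (B : Box S.X v₁ e) :
    ∀ᶠ y in 𝓝 (S.X v₁), 0 < B.f y →
      ((S.Nr v₁ < 0 ∧ y 2 < 0) ∨ 0 < S.Nr v₁ ∨
        (S.N v₁ = -E3 ∧ (1 < y 0 ^ 2 + y 1 ^ 2 ∨ y 2 < 0))) → y ∈ D.W := by
  have h1 : ∀ᶠ y in 𝓝 (S.X v₁), S.Nr v₁ < 0 → 0 < B.f y → y 2 < 0 → y ∈ D.W := by
    by_cases h : S.Nr v₁ < 0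
    · filter_upwards [loc_neg D hv₁ h B] with y hy _ hf h2 using hy.1 hf h2
    · exact Eventually.of_forall fun u h' => absurd h' h
  have h2 : ∀ᶠ y in 𝓝 (S.X v₁), 0 < S.Nr v₁ → 0 < B.f y → y ∈ D.W := by
    by_cases h : 0 < S.Nr v₁
    · filter_upwards [loc_pos D hv₁ h B] with y hy _ hf using hy.1 hf
    · exact Eventually.of_forall fun u h' => absurd h' h
  have h3 : ∀ᶠ y in 𝓝 (S.X v₁), S.N v₁ = -E3 → 0 < B.f y →
      (1 < y 0 ^ 2 + y 1 ^ 2 ∨ y 2 < 0) → y ∈ D.W := by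
    by_cases h : S.N v₁ = -E3
    · filter_upwards [loc_zero D hv₁ h B] with y hy _ hf h2
      rcases h2 with h2 | h2
      · exact hy.1 h2 hf
      · exact hy.2.2.1 hf h2
    · exact Eventually.of_forall fun u h' => absurd h' h
  filter_upwards [h1, h2, h3] with y a1 a2 a3 hf hcase
  rcases hcase with ⟨h, h'⟩ | h | ⟨h, h'⟩
  · exact a1 h hf h'
  · exact a2 h hf
  · exact a3 h hf h'

/-- points with `f < 0` on the wrong side are outside -/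
theorem fnW {S : Surf} (D : PreDom S) {v₁ : V2} (hv₁ : ‖v₁‖ = 1) {e : V3} (B : Box S.X v₁ e) :
    ∀ᶠ y in 𝓝 (S.X v₁),
      (S.Nr v₁ < 0 → (B.f y < 0 ∨ 0 < y 2) → y ∉ closure D.W) ∧
      ((0 < S.Nr v₁ ∨ S.N v₁ = -E3) → B.f y < 0 → 0 < y 2 → y ∉ closure D.W) := by
  have h1 : ∀ᶠ y in 𝓝 (S.X v₁), S.Nr v₁ < 0 → (B.f y < 0 ∨ 0 < y 2) → y ∉ closure D.W := by
    by_cases h : S.Nr v₁ < 0
    · filter_upwards [loc_neg D hv₁ h B] with y hy _ hf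
      rcases hf with hf | hf
      · exact hy.2.1 hf
      · exact hy.2.2 hf
    · exact Eventually.of_forall fun u h' => absurd h' h
  have h2 : ∀ᶠ y in 𝓝 (S.X v₁), 0 < S.Nr v₁ → B.f y < 0 → 0 < y 2 → y ∉ closure D.W := by
    by_cases h : 0 < S.Nr v₁
    · filter_upwards [loc_pos D hv₁ h B] with y hy _ hf h2 using hy.2.2 hf h2
    · exact Eventually.of_forall fun u h' => absurd h' h
  have h3 : ∀ᶠ y in 𝓝 (S.X v₁), S.N v₁ = -E3 → B.f y < 0 → 0 < y 2 → y ∉ closure D.W := by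
    by_cases h : S.N v₁ = -E3
    · filter_upwards [loc_zero D hv₁ h B] with y hy _ hf h2 using hy.2.2.2 hf h2
    · exact Eventually.of_forall fun u h' => absurd h' h
  filter_upwards [h1, h2, h3] with y a1 a2 a3
  refine ⟨a1, fun hcase hf h2 => ?_⟩
  rcases hcase with h | h
  · exact a2 h hf h2
  · exact a3 h hf h2

theorem RTN_sq {x : ℝ} (h : x ^ 2 = 1) : x = 1 ∨ x = -1 := by
  have h1 : (x - 1) * (x + 1) = 0 := by linear_combination h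
  rcases mul_eq_zero.mp h1 with h2 | h2
  · left; linarith
  · right; linarith

theorem nE_cases {S : Surf} (D : Dom S) {u : V2} (hu : ‖u‖ = 1) :
    S.Nr u < 0 ∨ 0 < S.Nr u ∨ S.N u = -E3 := by
  rcases lt_trichotomy (S.Nr u) 0 with h | h | h
  · exact Or.inl h
  · right; right
    have h1 := S.Nr_sq hu
    have h2 := S.N_decomp hu
    rw [h] at h1 h2
    have h3 : (S.N u 2) ^ 2 = 1 := by linarith [h1]
    rcases (RTN_sq h3) with h4 | h4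
    · exfalso
      apply D.nE u hu
      rw [h4] at h2
      rw [h2]
      simp
    · rw [h4] at h2
      rw [h2]
      simp
  · exact Or.inr (Or.inl h)

end Pool.Agent.H99.SC

end S_RTN

section S_RTA

/-!
# RTA: monotonicity of `kk` under a reflection with `SS` (Hopf at the boundary)

`R = refl (nh φ) 0`, `SS D (nh φ) 0`, `‖u₁‖ = ‖v₁‖ = 1`, `X v₁ = R (X u₁)`, `0 < ⟪nh φ, X u₁⟫`.
`rotk_le`: `kk v₁ ≤ kk u₁`.  Suppose `k := kk u₁ < k' := kk v₁`.  Box `B` at `v₁` with `e = N v₁`,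
`w u = B.f (R (X u))`, `w = 0` on the parameter circle near `u₁` (`circ_zero`).  For `u` near `u₁` with
`‖u‖ < 1`: `0 < ⟪nh φ, X u⟫`, so `R (X u) ∈ closure W`.  Also `(R y) 2 = y 2`.
 * `k' > 0` (`N_r(v₁) < 0`).  If `k < 0` (`N_r(u₁) > 0`): `(X u) 2 > 0` (`side_u`), contradiction (`fnW`).
   If `k ≥ 0`: `1 + k k' > 0`, `drw_pos`, `rad1` for `-w`: `w < 0` inside: contradiction (`fnW`).
 * `k' ≤ 0`: `k < 0` so `(X u) 2 > 0` inside; `k k' ≥ 0`, `drw_pos`, `w < 0` inside: contradiction (`fnW`;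
   `k' = 0` is `N(v₁) = -E3`, `k' < 0` is `N_r(v₁) > 0`).
Take any interior `u` close to `u₁`, e.g. `(1-δ) u₁`.

`rotk_eq`: if `kk v₁ = kk u₁` then `R` maps `S.Sig` into itself.  `kk_inj`: `N_r`, `N_3` agree, so
`R (N u₁) = N v₁` (`N_decomp`, `R E3 = E3`).  For `‖u‖ < 1` near `u₁`: `w u ≥ 0` by `fnn` (the side
condition for `y = R (X u)` comes from `side_u` at `u₁`, same sign of `N_r`; `N(u₁) = -E3` iff `N(v₁) = -E3`;
`nE_cases`).  `Dw(u₁) = 0` (`fderiv_w_zero`).  `di` and `bin`: `|Lop X w u| ≤ K |Dw|` for `‖u‖ < 1` near `u₁`.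
`touch` with `Ω = ball 0 1`, `x₀ = u₁`, `ν = -u₁`, `R = 1`: zeros `u` of `w` in the open disc arbitrarily near
`u₁`; there `R (X u) = X (B.b ..)` (`coord` with `f = 0`) with `‖B.b ..‖ < 1` (`bin`) and `0 < ⟪nh φ, X u⟫`: `ct1`, then `ct4`
((h1): `R (X u)` is on the circle for `‖u‖ = 1`, in `Disc`, so not an `X v` with `‖v‖ < 1`, `D.disj`).
-/


open scoped RealInnerProductSpace Topology
open Metric Filter Set


namespace Pool.Agent.H99.SC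

theorem RTA_exists {u₁ : V2} (hu₁ : ‖u₁‖ = 1) {P : V2 → Prop} (h : ∀ᶠ u in 𝓝 u₁, P u) :
    ∃ u : V2, ‖u‖ < 1 ∧ P u := by
  obtain ⟨ε, hε, hP⟩ := Metric.eventually_nhds_iff.1 h
  obtain ⟨u, hu, hu1⟩ := ORI_inside hu₁ hε
  exact ⟨u, hu1, hP (by rwa [dist_eq_norm])⟩

theorem h1_refl0 {S : Surf} (D : PreDom S) (φ : ℝ) : ∀ u v : V2, ‖u‖ = 1 → ‖v‖ < 1 →
    refl (nh φ) 0 (S.X u) ≠ S.X v := by
  have _ := D
  intro u v hu hv h
  have h1 := S.bd1 hu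
  have h2 : (S.X v) 2 = 0 := by rw [← h, refl0_2]; exact h1.1
  have h3 : (S.X v) 0 ^ 2 + (S.X v) 1 ^ 2 = 1 := by rw [← h, refl0_r]; exact h1.2
  have h4 := S.bd2 hv.le h2 h3
  linarith

/-- the reflected point is in the closed domain near a boundary point on the positive side -/
theorem RTA_closure {S : Surf} (D : Dom S) {φ : ℝ} (hS : SS D (nh φ) 0) {u₁ : V2}
    (hl : 0 < ⟪nh φ, S.X u₁⟫) :
    ∀ᶠ u in 𝓝 u₁, 0 < ⟪nh φ, S.X u⟫ ∧ (‖u‖ < 1 → refl (nh φ) 0 (S.X u) ∈ closure D.W) := by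
  have hc : ContinuousAt (fun u => (⟪nh φ, S.X u⟫ : ℝ)) u₁ :=
    (continuous_const.inner S.smooth.continuous).continuousAt
  have hev : ∀ᶠ u in 𝓝 u₁, 0 < ⟪nh φ, S.X u⟫ := hc.eventually (lt_mem_nhds hl)
  filter_upwards [hev] with u hu
  exact ⟨hu, fun h1 => hS u h1.le hu.le⟩

theorem RTA_y_cont (S : Surf) (φ : ℝ) : Continuous fun u => refl (nh φ) 0 (S.X u) :=
  (OPN_cont (nh φ) 0).comp S.smooth.continuous

theorem RTA_w_circ (S : Surf) {φ : ℝ} {u₁ v₁ : V2} (hv₁ : ‖v₁‖ = 1)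
    (hx : S.X v₁ = refl (nh φ) 0 (S.X u₁)) {e : V3} (B : Box S.X v₁ e) :
    ∀ᶠ u in 𝓝 u₁, ‖u‖ = 1 → B.f (refl (nh φ) 0 (S.X u)) = 0 := by
  have h1 := circ_zero S hv₁ B
  rw [hx] at h1
  have h2 : ∀ᶠ u in 𝓝 u₁, (refl (nh φ) 0 (S.X u)) 2 = 0 →
      (refl (nh φ) 0 (S.X u)) 0 ^ 2 + (refl (nh φ) 0 (S.X u)) 1 ^ 2 = 1 →
      B.f (refl (nh φ) 0 (S.X u)) = 0 ∧ ‖B.b (refl (nh φ) 0 (S.X u))‖ = 1 :=
    ((RTA_y_cont S φ).tendsto u₁).eventually h1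
  filter_upwards [h2] with u hu hu1
  have h3 := S.bd1 hu1
  refine (hu ?_ ?_).1
  · rw [refl0_2]; exact h3.1
  · rw [refl0_r]; exact h3.2

theorem RTA_w_neg {S : Surf} (D : Dom S) {φ : ℝ} {u₁ v₁ : V2} (hu₁ : ‖u₁‖ = 1)
    (hv₁ : ‖v₁‖ = 1) (hx : S.X v₁ = refl (nh φ) 0 (S.X u₁)) {e : V3} (B : Box S.X v₁ e)
    (hk : S.kk u₁ < S.kk v₁) (hk' : 0 < 1 + S.kk u₁ * S.kk v₁) :
    ∀ᶠ u in 𝓝 u₁, ‖u‖ < 1 → B.f (refl (nh φ) 0 (S.X u)) < 0 := by
  have hU : refl (nh φ) 0 (S.X u₁) ∈ B.U B.r := by rw [← hx]; exact B.mem_U B.hr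
  have h1 := drw_pos D hu₁ hv₁ hx B hk hk'
  have h2 : ContDiffAt ℝ 2 (fun u => B.f (refl (nh φ) 0 (S.X u))) u₁ :=
    contDiffAt_w S B (nh φ) 0 hU
  have h3 : ContDiffAt ℝ 1 (fun u => -B.f (refl (nh φ) 0 (S.X u))) u₁ :=
    (h2.of_le (by norm_num)).neg
  have h4 : fderiv ℝ (fun u => -B.f (refl (nh φ) 0 (S.X u))) u₁ u₁ < 0 := by
    rw [fderiv_fun_neg, neg_apply]
    linarith
  have h5 : ∀ᶠ u in 𝓝 u₁, ‖u‖ = 1 → -B.f (refl (nh φ) 0 (S.X u)) = 0 := by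
    filter_upwards [RTA_w_circ S hv₁ hx B] with u hu hu1
    rw [hu hu1, neg_zero]
  filter_upwards [rad1 hu₁ h3 h5 h4] with u hu hu1
  have := hu.1 hu1
  linarith

theorem rotk_le {S : Surf} (D : Dom S) {φ : ℝ} (hS : SS D (nh φ) 0) {u₁ v₁ : V2}
    (hu₁ : ‖u₁‖ = 1) (hv₁ : ‖v₁‖ = 1) (hx : S.X v₁ = refl (nh φ) 0 (S.X u₁))
    (hl : 0 < ⟪nh φ, S.X u₁⟫) : S.kk v₁ ≤ S.kk u₁ := by
  by_contra hcon
  push Not at hcon
  obtain ⟨B⟩ := CTC_box S hv₁.le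
  have hcl := RTA_closure D hS hl
  have hsd := side_u D.toPreDom hu₁
  have hfn : ∀ᶠ u in 𝓝 u₁,
      (S.Nr v₁ < 0 → (B.f (refl (nh φ) 0 (S.X u)) < 0 ∨ 0 < (refl (nh φ) 0 (S.X u)) 2) →
        refl (nh φ) 0 (S.X u) ∉ closure D.W) ∧
      ((0 < S.Nr v₁ ∨ S.N v₁ = -E3) → B.f (refl (nh φ) 0 (S.X u)) < 0 →
        0 < (refl (nh φ) 0 (S.X u)) 2 → refl (nh φ) 0 (S.X u) ∉ closure D.W) := by
    have h1 := fnW D.toPreDom hv₁ B
    rw [hx] at h1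
    exact ((RTA_y_cont S φ).tendsto u₁).eventually h1
  rcases lt_or_ge 0 (S.kk v₁) with hk' | hk'
  · have hNv : S.Nr v₁ < 0 := (Surf.kk_pos D hv₁).1 hk'
    rcases lt_or_ge (S.kk u₁) 0 with hk | hk
    · have hNu : 0 < S.Nr u₁ := (Surf.kk_neg D hu₁).1 hk
      obtain ⟨u, hu1, hu2, hu3, hu4⟩ := RTA_exists hu₁ (hcl.and (hsd.and hfn))
      refine (hu4.1 hNv (Or.inr ?_)) (hu2.2 hu1)
      rw [refl0_2]
      exact (hu3 hu1).2.1 hNu
    · have hneg := RTA_w_neg D hu₁ hv₁ hx B hcon (by positivity)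
      obtain ⟨u, hu1, hu2, hu3, hu4⟩ := RTA_exists hu₁ (hcl.and (hneg.and hfn))
      exact (hu4.1 hNv (Or.inl (hu3 hu1))) (hu2.2 hu1)
  · have hk : S.kk u₁ < 0 := lt_of_lt_of_le hcon hk'
    have hNu : 0 < S.Nr u₁ := (Surf.kk_neg D hu₁).1 hk
    have hmul : 0 ≤ S.kk u₁ * S.kk v₁ := mul_nonneg_of_nonpos_of_nonpos hk.le hk'
    have hneg := RTA_w_neg D hu₁ hv₁ hx B hcon (by linarith)
    obtain ⟨u, hu1, hu2, hu3, hu4, hu5⟩ := RTA_exists hu₁ (hcl.and (hneg.and (hsd.and hfn)))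
    have hcase : 0 < S.Nr v₁ ∨ S.N v₁ = -E3 := by
      rcases lt_or_eq_of_le hk' with h1 | h1
      · exact Or.inl ((Surf.kk_neg D hv₁).1 h1)
      · exact Or.inr ((Surf.kk_zero D hv₁).1 h1)
    refine (hu5.2 hcase (hu3 hu1) ?_) (hu2.2 hu1)
    rw [refl0_2]
    exact (hu4 hu1).2.1 hNu

theorem rotk_eq {S : Surf} (D : Dom S) {φ : ℝ} (hS : SS D (nh φ) 0) {u₁ v₁ : V2}
    (hu₁ : ‖u₁‖ = 1) (hv₁ : ‖v₁‖ = 1) (hx : S.X v₁ = refl (nh φ) 0 (S.X u₁))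
    (hl : 0 < ⟪nh φ, S.X u₁⟫) (hk : S.kk v₁ = S.kk u₁) :
    ∀ u : V2, ‖u‖ ≤ 1 → refl (nh φ) 0 (S.X u) ∈ S.Sig := by
  have hn : ‖nh φ‖ = 1 := norm_nh φ
  obtain ⟨B⟩ := CTC_box S hv₁.le
  obtain ⟨hNr, hN3⟩ := Surf.kk_inj D hv₁ hu₁ hk
  -- the normals correspond
  have hNN : rl (nh φ) (S.N u₁) = S.N v₁ := by
    have h1 : rl (nh φ) (S.X u₁) = S.X v₁ := by rw [hx, refl0_eq]
    have h2 : rl (nh φ) E3 = E3 := by rw [← refl0_eq, refl0_E3]
    rw [Surf.N_decomp S hu₁, rl_add, rl_smul, rl_smul, h1, h2, Surf.N_decomp S hv₁, hNr, hN3]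
  have hU : refl (nh φ) 0 (S.X u₁) ∈ B.U B.r := by rw [← hx]; exact B.mem_U B.hr
  have hb : B.b (refl (nh φ) 0 (S.X u₁)) = v₁ := by
    rw [← hx]; exact B.b_X (by simpa using B.hr)
  have hUev : ∀ᶠ u in 𝓝 u₁, refl (nh φ) 0 (S.X u) ∈ B.U B.r :=
    (RTA_y_cont S φ).continuousAt.eventually ((B.U_open B.hr le_rfl).mem_nhds hU)
  have hcl := RTA_closure D hS hl
  have hsd := side_u D.toPreDom hu₁
  have hfn : ∀ᶠ u in 𝓝 u₁, refl (nh φ) 0 (S.X u) ∈ closure D.W →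
      (S.Nr v₁ < 0 ∨ (0 < S.Nr v₁ ∧ 0 < (refl (nh φ) 0 (S.X u)) 2) ∨
        (S.N v₁ = -E3 ∧ 1 < (refl (nh φ) 0 (S.X u)) 0 ^ 2 + (refl (nh φ) 0 (S.X u)) 1 ^ 2)) →
      0 ≤ B.f (refl (nh φ) 0 (S.X u)) := by
    have h1 := fnn D.toPreDom hv₁ B
    rw [hx] at h1
    exact ((RTA_y_cont S φ).tendsto u₁).eventually h1
  have hnn : ∀ᶠ u in 𝓝 u₁, u ∈ ball (0 : V2) 1 → 0 ≤ B.f (refl (nh φ) 0 (S.X u)) := by
    filter_upwards [hcl, hsd, hfn] with u h1 h2 h3 hu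
    have hu1 : ‖u‖ < 1 := by simpa using hu
    refine h3 (h1.2 hu1) ?_
    rcases nE_cases D hv₁ with h4 | h4 | h4
    · exact Or.inl h4
    · refine Or.inr (Or.inl ⟨h4, ?_⟩)
      rw [refl0_2]
      exact (h2 hu1).2.1 (by rw [← hNr]; exact h4)
    · refine Or.inr (Or.inr ⟨h4, ?_⟩)
      rw [refl0_r]
      refine (h2 hu1).2.2 ?_
      have h5 : S.N u₁ = rl (nh φ) (S.N v₁) := by rw [← hNN, rl_rl _ hn]
      rw [h5, h4, rl_neg, ← refl0_eq, refl0_E3]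
  have hD0 : fderiv ℝ (fun u => B.f (refl (nh φ) 0 (S.X u))) u₁ = 0 :=
    fderiv_w_zero S B hn 0 hU (by rw [hb]; exact hNN)
  have hbin := bin D.toPreDom hu₁ hv₁ hx hNN B
  obtain ⟨K, hK⟩ := di S B hn 0 hu₁.le hU (by rw [hb]; exact hv₁.le) (by
    rw [hb, hNN, real_inner_self_eq_norm_sq, S.N_norm hv₁.le]; norm_num)
  have hf0 : B.f (refl (nh φ) 0 (S.X u₁)) = 0 := by
    rw [← hx]; exact B.f_X (by simpa using B.hr)
  obtain ⟨ε, hε, hP⟩ := Metric.eventually_nhds_iff.1 (hUev.and (hbin.and hcl))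
  have hdi : ∀ᶠ x in 𝓝 u₁, x ∈ ball (0 : V2) 1 →
      Ell (cA S.X) (cB S.X) (cC S.X) (fun u => B.f (refl (nh φ) 0 (S.X u))) x ≤
        K * ‖fderiv ℝ (fun u => B.f (refl (nh φ) 0 (S.X u))) x‖ := by
    filter_upwards [hK, hbin] with x h1 h2 hx1
    have hx2 : ‖x‖ < 1 := by simpa using hx1
    rw [← Lop_eq_Ell]
    exact (le_abs_self _).trans (h1 hx2 (h2 hx2))
  obtain ⟨x, hx1, hx2, hx3⟩ := touch (A := cA S.X) (B := cB S.X) (C := cC S.X)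
    (w := fun u => B.f (refl (nh φ) 0 (S.X u))) (Ω := ball (0 : V2) 1) (x₀ := u₁) (ν := -u₁)
    (K := K) (R := 1) one_pos (by rw [norm_neg]; exact hu₁)
    (by rw [one_smul, add_neg_cancel]) (contDiffAt_w S B (nh φ) 0 hU) hf0 hnn
    (contDiff_cA S.smooth).continuous.continuousAt (contDiff_cB S.smooth).continuous.continuousAt
    (contDiff_cC S.smooth).continuous.continuousAt (cA_pos (S.imm u₁ hu₁.le))
    (cB_sq_lt (S.imm u₁ hu₁.le)) hdi (by rw [hD0]; simp) ε hε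
  have hx4 : ‖x‖ < 1 := by simpa using hx2
  obtain ⟨hxU, hxb, hxc⟩ := hP (y := x) (by rwa [dist_eq_norm])
  have hco := B.coord le_rfl hxU
  have hx5 : B.f (refl (nh φ) 0 (S.X x)) = 0 := hx3
  have hx6 : refl (nh φ) 0 (S.X x) = S.X (B.b (refl (nh φ) 0 (S.X x))) := by
    have := hco.2.2
    rw [hx5, zero_smul, add_zero] at this
    exact this.symm
  exact ct4 D hn hS (h1_refl0 D.toPreDom φ) hx4 (ct1 D hn hS hx4 hxc.1 (hxb hx4) hx6)

end Pool.Agent.H99.SC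

end S_RTA

section S_RAD2

/-!
# RAD2: double mean value in polar coordinates

`Φ` C^2 and `Γ` C^2 at `(φ₀,u₀)`, `‖u₀‖ = 1`; near `(φ₀,u₀)`: `Φ = 0` where `‖u‖ = 1` and where `Γ = 0`.
`Γ (φ₀,u₀) = 0`, the derivative of `Φ (φ₀,·)` at `u₀` is 0, and
`D(Γ(φ₀,·))(u₀)(rot u₀) * D2 (Φ(φ₀,·)) u₀ u₀ (rot u₀) < 0`.  Then near `(φ₀,u₀)`: `‖u‖ < 1` and `Γ > 0` imply `Φ > 0`.
Proof.  `u₀ = cu ψ₀` (`exists_cu`, file SF; or take `ψ₀` from `u₀`), `W(φ,r,ψ) = Φ(φ, r cu ψ)`, `G(φ,r,ψ) = Γ(φ, r cu ψ)`.  Derivatives: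
`∂_ψ W = D(Φ(φ,·))(r cu ψ)(r rot (cu ψ))`,
`∂_r ∂_ψ W = D2 (Φ(φ,·)) (r cu ψ) (cu ψ) (r rot (cu ψ)) + D(Φ(φ,·))(r cu ψ)(rot (cu ψ))`, equal to
`D2 (Φ(φ₀,·)) u₀ u₀ (rot u₀)` at `(φ₀,1,ψ₀)`, hence of that sign near it (`par`).  `∂_ψ G` has the sign `s` of
`D(Γ(φ₀,·))(u₀)(rot u₀)` near it, and `|∂_ψ G| ≥ c > 0`.
Let `q = (φ,u)` near `(φ₀,u₀)`, `u = r cu ψ`, `r < 1`, `ψ` near `ψ₀`, `G(φ,r,ψ) > 0`.  Since `G(φ,r,ψ)` is
small and `|∂_ψ G| ≥ c` there is `ψ' ` near `ψ` with `G(φ,r,ψ') = 0` (intermediate value), and `s (ψ - ψ') > 0`.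
`W(φ,r,ψ') = 0`.  Mean value: `W(φ,r,ψ) = (ψ - ψ') ∂_ψ W(φ,r,ξ)`, and `∂_ψ W(φ,1,ξ) = 0` (`W(φ,1,·) = 0`), so
`∂_ψ W(φ,r,ξ) = (r - 1) ∂_r ∂_ψ W(φ,ρ,ξ)`.  So `W(φ,r,ψ) = (ψ-ψ')(r-1) ∂_r∂_ψ W`, with sign
`s · (-1) · sign(∂_r∂_ψ W) = +1`.
(Angle of `u` near `u₀`: `ψ = ψ₀ + arctan`-type function, or `Complex.arg`; simplest: for `u` near `u₀` there
is `ψ` near `ψ₀` with `u = ‖u‖ cu ψ`: `ψ = ψ₀ + arcsin (⟪u, rot u₀⟫/‖u‖)`.)
-/


open scoped RealInnerProductSpace Topology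
open Metric Filter Set


namespace Pool.Agent.H99.SC

/-- `rot` as a continuous linear map -/
def RAD2_R : V2 →L[ℝ] V2 :=
  (EuclideanSpace.proj (0 : Fin 2) : V2 →L[ℝ] ℝ).smulRight e1 -
    (EuclideanSpace.proj (1 : Fin 2) : V2 →L[ℝ] ℝ).smulRight e0

theorem RAD2_R_apply (u : V2) : RAD2_R u = rot u := by
  apply ext2 <;> simp [RAD2_R]

theorem RAD2_cu (θ : ℝ) : cu θ = Real.cos θ • e0 + Real.sin θ • e1 := by
  apply ext2 <;> simp

theorem RAD2_hasDerivAt_cu (θ : ℝ) : HasDerivAt cu (rot (cu θ)) θ := by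
  have h : HasDerivAt (fun θ : ℝ => Real.cos θ • e0 + Real.sin θ • e1)
      ((-Real.sin θ) • e0 + Real.cos θ • e1) θ :=
    ((Real.hasDerivAt_cos θ).smul_const e0).add ((Real.hasDerivAt_sin θ).smul_const e1)
  have h1 : cu = fun θ : ℝ => Real.cos θ • e0 + Real.sin θ • e1 := funext RAD2_cu
  have h2 : rot (cu θ) = (-Real.sin θ) • e0 + Real.cos θ • e1 := by apply ext2 <;> simp
  rw [h2, h1]
  exact h

theorem RAD2_norm_cu (θ : ℝ) : ‖cu θ‖ = 1 := by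
  have h := nsq2 (cu θ)
  rw [cu_0, cu_1, Real.cos_sq_add_sin_sq] at h
  nlinarith [norm_nonneg (cu θ)]

theorem RAD2_exists_cu {u : V2} (hu : ‖u‖ = 1) : ∃ ψ, cu ψ = u := by
  have h := nsq2 u
  rw [hu] at h
  set z : ℂ := ⟨u 0, u 1⟩ with hz0
  have hz : ‖z‖ = 1 := by
    have h1 := Complex.sq_norm z
    rw [Complex.normSq_apply] at h1
    have h2 : ‖z‖ ^ 2 = 1 := by rw [h1]; simp only [hz0]; nlinarith
    nlinarith [norm_nonneg z]
  refine ⟨Complex.arg z, ?_⟩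
  have hc := Complex.norm_mul_cos_arg z
  have hs := Complex.norm_mul_sin_arg z
  rw [hz, one_mul] at hc hs
  apply ext2
  · rw [cu_0, hc]
  · rw [cu_1, hs]

/-- the one-dimensional argument -/
theorem RAD2_one {G W G' W' : ℝ → ℝ} {T c : ℝ} (hT : 0 < T)
    (hG : ∀ t ∈ Icc 0 T, HasDerivAt G (G' t) t ∧ G' t ≤ -c)
    (hW : ∀ t ∈ Icc 0 T, HasDerivAt W (W' t) t ∧ W' t < 0)
    (h0 : ∀ t ∈ Icc 0 T, G t = 0 → W t = 0) (hG0 : 0 < G 0) (hGs : G 0 < c * T) : 0 < W 0 := by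
  have m0 : (0 : ℝ) ∈ Icc 0 T := ⟨le_rfl, hT.le⟩
  have mT : T ∈ Icc 0 T := ⟨hT.le, le_rfl⟩
  have hanti : AntitoneOn (fun t => G t + c * t) (Icc 0 T) := by
    refine antitoneOn_of_deriv_nonpos (convex_Icc _ _) ?_ ?_ ?_
    · intro t ht
      exact ((hG t ht).1.continuousAt.add (by fun_prop)).continuousWithinAt
    · intro t ht
      rw [interior_Icc] at ht
      exact ((hG t ⟨ht.1.le, ht.2.le⟩).1.differentiableAt.add
        (by fun_prop)).differentiableWithinAt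
    · intro t ht
      rw [interior_Icc] at ht
      obtain ⟨h1, h2⟩ := hG t ⟨ht.1.le, ht.2.le⟩
      have h3 : HasDerivAt (fun t => G t + c * t) (G' t + c * 1) t :=
        h1.add ((hasDerivAt_id t).const_mul c)
      rw [h3.deriv]
      linarith
  have hGT : G T < 0 := by
    have := hanti m0 mT hT.le
    simp only [mul_zero, add_zero] at this
    linarith
  have hGc : ContinuousOn G (Icc 0 T) := fun t ht => (hG t ht).1.continuousAt.continuousWithinAt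
  obtain ⟨t, ht, ht0⟩ := intermediate_value_Icc' hT.le hGc ⟨hGT.le, hG0.le⟩
  have ht1 : 0 < t := by
    rcases eq_or_lt_of_le ht.1 with h | h
    · rw [← h] at ht0
      linarith
    · exact h
  have hWa : StrictAntiOn W (Icc 0 T) := by
    refine strictAntiOn_of_deriv_neg (convex_Icc _ _)
      (fun s hs => (hW s hs).1.continuousAt.continuousWithinAt) fun s hs => ?_
    rw [interior_Icc] at hs
    obtain ⟨h1, h2⟩ := hW s ⟨hs.1.le, hs.2.le⟩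
    rw [h1.deriv]
    exact h2
  have := hWa m0 ht ht1
  rw [h0 t ht ht0] at this
  exact this

theorem exists_polar {u₀ : V2} {ψ₀ : ℝ} (h : cu ψ₀ = u₀) {ε : ℝ} (hε : 0 < ε) :
    ∀ᶠ u in 𝓝 u₀, ∃ ψ : ℝ, |ψ - ψ₀| < ε ∧ u = ‖u‖ • cu ψ := by
  set a : V2 → ℂ := fun u => ⟨u 0 * Real.cos ψ₀ + u 1 * Real.sin ψ₀,
    u 1 * Real.cos ψ₀ - u 0 * Real.sin ψ₀⟩ with ha
  have ha0 : a u₀ = 1 := by
    rw [← h]
    apply Complex.ext
    · simp only [ha, cu_0, cu_1, Complex.one_re]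
      nlinarith [Real.cos_sq_add_sin_sq ψ₀]
    · simp only [ha, cu_0, cu_1, Complex.one_im]
      ring
  have hac : Continuous a := by
    have h1 : a = fun u : V2 => ((u 0 * Real.cos ψ₀ + u 1 * Real.sin ψ₀ : ℝ) : ℂ) +
        ((u 1 * Real.cos ψ₀ - u 0 * Real.sin ψ₀ : ℝ) : ℂ) * Complex.I := by
      funext u
      apply Complex.ext
      · simp only [ha, Complex.add_re, Complex.ofReal_re, Complex.re_ofReal_mul, Complex.I_re,
          mul_zero, add_zero]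
      · simp only [ha, Complex.add_im, Complex.ofReal_im, Complex.im_ofReal_mul, Complex.I_im,
          mul_one, zero_add]
    rw [h1]
    fun_prop
  have harg : ContinuousAt (fun u => Complex.arg (a u)) u₀ := by
    refine ContinuousAt.comp (g := Complex.arg) (f := a) ?_ hac.continuousAt
    rw [ha0]
    exact Complex.continuousAt_arg (by simp)
  have hev : ∀ᶠ u in 𝓝 u₀, |Complex.arg (a u)| < ε := by
    have h1 : ContinuousAt (fun u => |Complex.arg (a u)|) u₀ := harg.abs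
    refine h1.eventually_lt_const ?_
    show |(a u₀).arg| < ε
    rw [ha0]
    simpa using hε
  filter_upwards [hev] with u hu
  refine ⟨ψ₀ + Complex.arg (a u), by simpa using hu, ?_⟩
  have hn : ‖a u‖ = ‖u‖ := by
    have h1 := Complex.sq_norm (a u)
    rw [Complex.normSq_apply] at h1
    have h2 := nsq2 u
    have h3 : ‖a u‖ ^ 2 = ‖u‖ ^ 2 := by
      rw [h1, h2]
      simp only [ha]
      linear_combination (u 0 ^ 2 + u 1 ^ 2) * Real.cos_sq_add_sin_sq ψ₀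
    exact (sq_eq_sq₀ (norm_nonneg _) (norm_nonneg _)).1 h3
  have hc := Complex.norm_mul_cos_arg (a u)
  have hs := Complex.norm_mul_sin_arg (a u)
  rw [hn] at hc hs
  simp only [ha] at hc hs
  apply ext2
  · simp only [PiLp.smul_apply, cu_0, smul_eq_mul, Real.cos_add]
    linear_combination (-Real.cos ψ₀) * hc + Real.sin ψ₀ * hs - (u 0) * Real.cos_sq_add_sin_sq ψ₀
  · simp only [PiLp.smul_apply, cu_1, smul_eq_mul, Real.sin_add]
    linear_combination (-Real.sin ψ₀) * hc - Real.cos ψ₀ * hs - (u 1) * Real.cos_sq_add_sin_sq ψ₀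

theorem RAD2_comp {f : V2 → ℝ} {v : ℝ → V2} {v' : V2} {t : ℝ} (hf : DifferentiableAt ℝ f (v t))
    (hv : HasDerivAt v v' t) : HasDerivAt (fun s => f (v s)) (fderiv ℝ f (v t) v') t :=
  hf.hasFDerivAt.comp_hasDerivAt t hv

theorem rad2 {Φ Γ : ℝ × V2 → ℝ} {φ₀ : ℝ} {u₀ : V2} (hu₀ : ‖u₀‖ = 1)
    (hΦ : ContDiffAt ℝ 2 Φ (φ₀, u₀)) (hΓ : ContDiffAt ℝ 2 Γ (φ₀, u₀))
    (h1 : ∀ᶠ q : ℝ × V2 in 𝓝 (φ₀, u₀), ‖q.2‖ = 1 → Φ q = 0)
    (h2 : ∀ᶠ q : ℝ × V2 in 𝓝 (φ₀, u₀), Γ q = 0 → Φ q = 0)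
    (hΓ0 : Γ (φ₀, u₀) = 0) (hD : fderiv ℝ (fun u => Φ (φ₀, u)) u₀ = 0)
    (hs : fderiv ℝ (fun u => Γ (φ₀, u)) u₀ (rot u₀)
      * D2 (fun u => Φ (φ₀, u)) u₀ u₀ (rot u₀) < 0) :
    ∀ᶠ q : ℝ × V2 in 𝓝 (φ₀, u₀), ‖q.2‖ < 1 → 0 < Γ q → 0 < Φ q := by
  obtain ⟨pΦ1, pΦ2, pΦ3⟩ := par hΦ
  obtain ⟨pΓ1, pΓ2, -⟩ := par hΓ
  set s : ℝ := fderiv ℝ (fun u => Γ (φ₀, u)) u₀ (rot u₀) with hsdef
  set κ : ℝ := D2 (fun u => Φ (φ₀, u)) u₀ u₀ (rot u₀) with hκ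
  have hs0 : s ≠ 0 := by
    intro h
    rw [h, zero_mul] at hs
    exact lt_irrefl _ hs
  obtain ⟨ψ₀, hψ₀⟩ := RAD2_exists_cu hu₀
  -- the angular derivative of `Φ`
  set F : ℝ → V2 → ℝ := fun φ u => s * fderiv ℝ (fun v => Φ (φ, v)) u (RAD2_R u) with hF
  have hFd : ∀ φ u, ContDiffAt ℝ 2 (fun v => Φ (φ, v)) u →
      HasFDerivAt (F φ) (s • ((fderiv ℝ (fun v => Φ (φ, v)) u).comp RAD2_R +
        (fderiv ℝ (fderiv ℝ (fun v => Φ (φ, v))) u).flip (RAD2_R u))) u := by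
    intro φ u hu
    have d1 : HasFDerivAt (fderiv ℝ (fun v => Φ (φ, v)))
        (fderiv ℝ (fderiv ℝ (fun v => Φ (φ, v))) u) u :=
      ((hu.fderiv_right (m := 1) (by norm_num)).differentiableAt (by norm_num)).hasFDerivAt
    exact (d1.clm_apply RAD2_R.hasFDerivAt).const_mul s
  have key1 : ∀ᶠ q : ℝ × V2 in 𝓝 (φ₀, u₀), (‖q.2‖ < 1 → 0 < F q.1 q.2) ∧
      (1 < ‖q.2‖ → F q.1 q.2 < 0) := by
    refine rad hu₀ ?_ ?_ ?_ ?_
    · filter_upwards [pΦ1] with q hq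
      exact (hFd q.1 q.2 hq).differentiableAt
    · have c1 : ContinuousAt (fun q : ℝ × V2 =>
          s • ((fderiv ℝ (fun v => Φ (q.1, v)) q.2).comp RAD2_R +
            (fderiv ℝ (fderiv ℝ (fun v => Φ (q.1, v))) q.2).flip (RAD2_R q.2))) (φ₀, u₀) := by
        have c2 : ContinuousAt (fun q : ℝ × V2 => (fderiv ℝ (fun v => Φ (q.1, v)) q.2).comp RAD2_R)
            (φ₀, u₀) := pΦ2.clm_comp continuousAt_const
        have c3 : ContinuousAt (fun q : ℝ × V2 =>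
            (fderiv ℝ (fderiv ℝ (fun v => Φ (q.1, v))) q.2).flip) (φ₀, u₀) :=
          ((ContinuousLinearMap.flipₗᵢ ℝ V2 V2 ℝ).continuous.continuousAt).comp pΦ3
        have c4 : ContinuousAt (fun q : ℝ × V2 => RAD2_R q.2) (φ₀, u₀) := by fun_prop
        exact (c2.add (c3.clm_apply c4)).const_smul s
      refine c1.congr ?_
      filter_upwards [pΦ1] with q hq
      exact (hFd q.1 q.2 hq).fderiv.symm
    · filter_upwards [pΦ1, h1.eventually_nhds] with q hq hq1 hq2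
      obtain ⟨θ, hθ⟩ := RAD2_exists_cu hq2
      have hcu : HasDerivAt cu (RAD2_R q.2) θ := by
        rw [RAD2_R_apply, ← hθ]
        exact RAD2_hasDerivAt_cu θ
      have d1 : HasDerivAt (fun t => Φ (q.1, cu t)) (fderiv ℝ (fun v => Φ (q.1, v)) q.2 (RAD2_R q.2))
          θ := by
        have hd : DifferentiableAt ℝ (fun v => Φ (q.1, v)) (cu θ) := by
          rw [hθ]
          exact hq.differentiableAt (by norm_num)
        have := RAD2_comp hd hcu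
        rwa [hθ] at this
      have d2 : HasDerivAt (fun t => Φ (q.1, cu t)) 0 θ := by
        refine (hasDerivAt_const θ (0 : ℝ)).congr_of_eventuallyEq ?_
        have hc : Tendsto (fun t => (q.1, cu t)) (𝓝 θ) (𝓝 q) := by
          have h3 : ContinuousAt (fun t => (q.1, cu t)) θ :=
            continuousAt_const.prodMk hcu.continuousAt
          have h4 : (q.1, cu θ) = q := by rw [hθ]
          rw [ContinuousAt, h4] at h3
          exact h3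
        filter_upwards [hc.eventually hq1] with t ht
        exact ht (RAD2_norm_cu t)
      have := d1.unique d2
      simp only [hF, this, mul_zero]
    · have h3 : ContDiffAt ℝ 2 (fun v => Φ (φ₀, v)) u₀ := pΦ1.self_of_nhds
      rw [(hFd φ₀ u₀ h3).fderiv, hD]
      simp only [ContinuousLinearMap.zero_comp, zero_add, smul_apply,
        ContinuousLinearMap.flip_apply, smul_eq_mul, RAD2_R_apply]
      exact hs
  -- the angular derivative of `Γ`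
  have hsg : 0 < s * s := mul_self_pos.2 hs0
  have key2 : ∀ᶠ q : ℝ × V2 in 𝓝 (φ₀, u₀),
      s * s / 2 < s * fderiv ℝ (fun v => Γ (q.1, v)) q.2 (RAD2_R q.2) := by
    have c1 : ContinuousAt (fun q : ℝ × V2 =>
        s * fderiv ℝ (fun v => Γ (q.1, v)) q.2 (RAD2_R q.2)) (φ₀, u₀) := by
      have c4 : ContinuousAt (fun q : ℝ × V2 => RAD2_R q.2) (φ₀, u₀) := by fun_prop
      exact (pΓ2.clm_apply c4).const_mul s
    refine c1.eventually_const_lt ?_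
    show s * s / 2 < s * fderiv ℝ (fun v => Γ (φ₀, v)) u₀ (RAD2_R u₀)
    rw [RAD2_R_apply, ← hsdef]
    linarith
  obtain ⟨δ, hδ, hball⟩ := Metric.eventually_nhds_iff.1
    ((key1.and key2).and ((pΦ1.and pΓ1).and h2))
  have hcont : ContinuousAt (fun p : ℝ × ℝ => p.1 • cu p.2) (1, ψ₀) := by
    have hc : ContinuousAt (fun p : ℝ × ℝ => cu p.2) (1, ψ₀) :=
      ContinuousAt.comp (g := cu) (f := fun p : ℝ × ℝ => p.2)
        (RAD2_hasDerivAt_cu ψ₀).continuousAt continuousAt_snd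
    exact continuousAt_fst.smul hc
  obtain ⟨η, hη, hη2⟩ := Metric.continuousAt_iff.1 hcont δ hδ
  simp only [one_smul, hψ₀] at hη2
  have hsabs : 0 < |s| := abs_pos.2 hs0
  set T : ℝ := η / (2 * |s|) with hT
  have hT0 : 0 < T := by positivity
  have hsT : |s| * T = η / 2 := by rw [hT]; field_simp
  have hΓc : ∀ᶠ q : ℝ × V2 in 𝓝 (φ₀, u₀), Γ q < s * s / 2 * T := by
    refine hΓ.continuousAt.eventually_lt_const ?_
    rw [hΓ0]
    positivity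
  have hsnd : Tendsto (fun q : ℝ × V2 => q.2) (𝓝 (φ₀, u₀)) (𝓝 u₀) := continuousAt_snd
  have hfst : Tendsto (fun q : ℝ × V2 => q.1) (𝓝 (φ₀, u₀)) (𝓝 φ₀) := continuousAt_fst
  have hpol := hsnd.eventually (exists_polar hψ₀ (ε := η / 2) (by positivity))
  have hφ : ∀ᶠ q : ℝ × V2 in 𝓝 (φ₀, u₀), dist q.1 φ₀ < δ :=
    hfst.eventually (Metric.ball_mem_nhds φ₀ hδ)
  have hnorm : ∀ᶠ q : ℝ × V2 in 𝓝 (φ₀, u₀), |‖q.2‖ - 1| < η := by
    have h3 : Tendsto (fun u : V2 => |‖u‖ - 1|) (𝓝 u₀) (𝓝 0) := by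
      have h4 : ContinuousAt (fun u : V2 => |‖u‖ - 1|) u₀ := by fun_prop
      simpa [ContinuousAt, hu₀] using h4
    exact (h3.comp hsnd).eventually_lt_const hη
  filter_upwards [hΓc, hpol, hφ, hnorm] with q q1 q2 q3 q4 q5 q6
  obtain ⟨ψ, hψ, hu⟩ := q2
  -- the arc
  set v : ℝ → V2 := fun t => ‖q.2‖ • cu (ψ - s * t) with hv
  have hv0 : v 0 = q.2 := by
    simp only [hv, mul_zero, sub_zero]
    exact hu.symm
  have hvn : ∀ t, ‖v t‖ = ‖q.2‖ := by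
    intro t
    simp only [hv, norm_smul, RAD2_norm_cu, mul_one, norm_norm]
  have hvd : ∀ t, HasDerivAt v (-s • RAD2_R (v t)) t := by
    intro t
    have d1 : HasDerivAt (fun t : ℝ => ψ - s * t) (-(s * 1)) t :=
      ((hasDerivAt_id t).const_mul s).const_sub ψ
    have d2 := (HasDerivAt.scomp t (RAD2_hasDerivAt_cu (ψ - s * t)) d1).const_smul ‖q.2‖
    have d3 : ‖q.2‖ • (-(s * 1)) • rot (cu (ψ - s * t)) = -s • RAD2_R (v t) := by
      simp only [hv, map_smul, RAD2_R_apply, mul_one]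
      rw [smul_comm]
    rw [d3] at d2
    exact d2
  have hvδ : ∀ t ∈ Icc 0 T, dist (q.1, v t) (φ₀, u₀) < δ := by
    intro t ht
    rw [Prod.dist_eq]
    refine max_lt q3 ?_
    refine hη2 (x := (‖q.2‖, ψ - s * t)) ?_
    rw [Prod.dist_eq]
    refine max_lt (by rwa [Real.dist_eq]) ?_
    rw [Real.dist_eq]
    have h3 : |s * t| ≤ η / 2 := by
      rw [abs_mul, abs_of_nonneg ht.1, ← hsT]
      exact mul_le_mul_of_nonneg_left ht.2 hsabs.le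
    calc |ψ - s * t - ψ₀| = |(ψ - ψ₀) - s * t| := by congr 1; ring
      _ ≤ |ψ - ψ₀| + |s * t| := abs_sub _ _
      _ < η := by linarith
  have hfin := RAD2_one (G := fun t => Γ (q.1, v t)) (W := fun t => Φ (q.1, v t))
    (G' := fun t => fderiv ℝ (fun v => Γ (q.1, v)) (v t) (-s • RAD2_R (v t)))
    (W' := fun t => fderiv ℝ (fun v => Φ (q.1, v)) (v t) (-s • RAD2_R (v t)))
    (T := T) (c := s * s / 2) hT0 (by
      intro t ht
      obtain ⟨⟨k1, k2⟩, ⟨k3, k4⟩, k5⟩ := hball (hvδ t ht)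
      refine ⟨RAD2_comp (k4.differentiableAt (by norm_num)) (hvd t), ?_⟩
      simp only [map_smul, smul_eq_mul, neg_mul] at k2 ⊢
      linarith) (by
      intro t ht
      obtain ⟨⟨k1, k2⟩, ⟨k3, k4⟩, k5⟩ := hball (hvδ t ht)
      refine ⟨RAD2_comp (k3.differentiableAt (by norm_num)) (hvd t), ?_⟩
      have k6 := k1.1 (by rw [hvn]; exact q5)
      simp only [hF] at k6
      simp only [map_smul, smul_eq_mul, neg_mul]
      linarith) (by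
      intro t ht
      obtain ⟨⟨k1, k2⟩, ⟨k3, k4⟩, k5⟩ := hball (hvδ t ht)
      exact k5) (by
      simp only [hv0]
      exact q6) (by
      simp only [hv0]
      exact q1)
  simp only [hv0] at hfin
  exact hfin

end Pool.Agent.H99.SC

end S_RAD2

section S_RTC

/-!
# RTC: the corner lemma at a hinge

`SS D (nh φ) 0`, `R = refl (nh φ) 0` does not map `S.Sig` into itself, `‖u₁‖ = 1`, `⟪nh φ, X u₁⟫ = 0`,
`p = X u₁`, box `B` at `u₁` with `e = N u₁`, `w u = B.f (R (X u))`, `l u = ⟪nh φ, X u⟫`.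
Claim: `Dw(u₁) = 0` and `D l(u₁)(rot u₁) * D2 w u₁ u₁ (rot u₁) < 0`.
Proof.  `n = nh φ` is orthogonal to `p` and to `E3`, so `⟪n, N u₁⟫ = 0` (`N_decomp`), `rl n (N u₁) = N u₁`,
`R p = p`: `fderiv_w_zero` gives `Dw(u₁) = 0`.  `TT p = σ n`, `σ^2 = 1` (`TT_hinge`), so `fderiv X u₁ (rot u₁) = lam σ n`
(`rot_deriv`), `Dl(u₁)(rot u₁) = lam σ ≠ 0`.  Let `s = sign`, i.e. `s = 1` or `-1` with `s lam σ > 0`.
Corner data: `x₀ = u₁`, `ξ u = 1 - ‖u‖^2`, `η = l`; `q = s rot u₁`; `p' = -u₁ + c rot u₁` with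
`c = Dl(u₁)(u₁)/(lam σ)`, so `Dη p' = 0`, `Dξ p' = 2 > 0`, `Dξ q = 0`, `Dη q > 0`.
`A = cA X`, `B = cB X`, `C = cC X` (C^1).
 `horth`: put `τ = (1/(lam σ)) rot u₁`: `fderiv X u₁ τ = n`, so `Dη a = ⟪n, X_a⟫ = ⟪DX τ, X_a⟫`; with
 `E = |X_u|^2, F = X_u.X_v, G = |X_v|^2`: `Dη e0 = τ_0 E + τ_1 F`, `Dη e1 = τ_0 F + τ_1 G` and
 `G ξ_0 η_0 - F (ξ_0 η_1 + ξ_1 η_0) + E ξ_1 η_1 = (EG - F^2)(ξ_0 τ_0 + ξ_1 τ_1) = (EG-F^2) Dξ τ = 0`.
 `hwξ`: `‖u‖ = 1` near `u₁`: `R (X u)` is on the circle, `circ_zero`.  `hwη`: `l u = 0`: `R (X u) = X u`, `f_X`.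
 `hwp`: for `‖u‖ < 1`, `l u > 0` near `u₁`: `R (X u) ∈ closure W`, `w u ≥ 0` by `fnn` with `side_u`
 (`v₁ = u₁`; `nE_cases`).  If `w u = 0`: `R (X u) = X (B.b ..)`, `‖B.b ..‖ < 1` (`bin` with `v₁ = u₁`):
 `ct1`, `ct4`, `h1_refl0`-type argument: `R` maps `S.Sig` into itself, contradiction.
 `hdi`: `di` and `bin`, `Lop_eq_Ell`.
 `hpp`, `hqq`: `D2_zero` with `η = l` and with `ξ` (`Dξ q = 0`; `w = 0` on `ξ = 0`).
`corner`: `0 < D2 w u₁ p' q = s (-D2 w u₁ u₁ (rot u₁) + c D2 w u₁ (rot u₁) (rot u₁))` and the last term is 0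
(`hqq`, `s^2 = 1`).  So `s D2 w u₁ u₁ (rot u₁) < 0`; multiply by `s lam σ > 0`.
-/


open scoped RealInnerProductSpace Topology
open Metric Filter Set


namespace Pool.Agent.H99.SC

theorem RTC_nE3 (φ : ℝ) : ⟪nh φ, E3⟫ = 0 := by
  rw [ip]
  simp

theorem RTC_h1 {S : Surf} (D : PreDom S) (φ : ℝ) : ∀ u v : V2, ‖u‖ = 1 → ‖v‖ < 1 →
    refl (nh φ) 0 (S.X u) ≠ S.X v := by
  intro u v hu hv h
  apply D.disj v hv
  rw [← h]
  obtain ⟨h2, h1⟩ := S.bd1 hu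
  refine ⟨by rw [refl0_2]; exact h2, ?_⟩
  rw [refl0_r]
  exact h1.le

theorem RTC_fix {φ : ℝ} {y : V3} (h : ⟪nh φ, y⟫ = 0) : refl (nh φ) 0 y = y := by
  unfold refl
  rw [h]
  simp

theorem RTC_cont (S : Surf) (φ : ℝ) : Continuous fun u : V2 => refl (nh φ) 0 (S.X u) :=
  CTA_cont (nh φ) 0

theorem RTC_rot_perp (u : V2) : ⟪u, rot u⟫ = 0 := by
  rw [ip2]
  simp
  ring

/-- derivative of `1 - ‖u‖²` -/
theorem RTC_xi (u : V2) :
    HasFDerivAt (fun u : V2 => 1 - ‖u‖ ^ 2) (-(2 • innerSL ℝ u)) u :=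
  (hasStrictFDerivAt_norm_sq u).hasFDerivAt.const_sub 1

theorem RTC_xi_apply (u a : V2) : fderiv ℝ (fun u : V2 => 1 - ‖u‖ ^ 2) u a = -2 * ⟪u, a⟫ := by
  rw [(RTC_xi u).fderiv]
  show -((2 : ℕ) • ⟪u, a⟫) = _
  simp

theorem RTC_xi_cd : ContDiff ℝ 2 (fun u : V2 => 1 - ‖u‖ ^ 2) :=
  contDiff_const.sub (contDiff_id.norm_sq ℝ)

theorem RTC_eta (S : Surf) (n : V3) (u : V2) :
    HasFDerivAt (fun u : V2 => ⟪n, S.X u⟫) ((innerSL ℝ n).comp (fderiv ℝ S.X u)) u := by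
  have h3 : DifferentiableAt ℝ S.X u := S.smooth.contDiffAt.differentiableAt (by norm_num)
  exact (innerSL ℝ n).hasFDerivAt.comp u h3.hasFDerivAt

theorem RTC_eta_apply (S : Surf) (n : V3) (u a : V2) :
    fderiv ℝ (fun u : V2 => ⟪n, S.X u⟫) u a = ⟪n, fderiv ℝ S.X u a⟫ := by
  rw [(RTC_eta S n u).fderiv]
  rfl

theorem RTC_eta_cd (S : Surf) (n : V3) : ContDiff ℝ 2 (fun u : V2 => ⟪n, S.X u⟫) :=
  contDiff_const.inner ℝ S.smooth

theorem RTC_horth (S : Surf) {n : V3} {u : V2} {ls : ℝ} (hls : ls ≠ 0)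
    (h : fderiv ℝ S.X u (rot u) = ls • n) :
    cA S.X u * (fderiv ℝ (fun u : V2 => 1 - ‖u‖ ^ 2) u e0
        * fderiv ℝ (fun u : V2 => ⟪n, S.X u⟫) u e0)
      + cB S.X u * (fderiv ℝ (fun u : V2 => 1 - ‖u‖ ^ 2) u e0
          * fderiv ℝ (fun u : V2 => ⟪n, S.X u⟫) u e1
        + fderiv ℝ (fun u : V2 => 1 - ‖u‖ ^ 2) u e1
          * fderiv ℝ (fun u : V2 => ⟪n, S.X u⟫) u e0)
      + cC S.X u * (fderiv ℝ (fun u : V2 => 1 - ‖u‖ ^ 2) u e1
        * fderiv ℝ (fun u : V2 => ⟪n, S.X u⟫) u e1) = 0 := by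
  have h1 : fderiv ℝ S.X u (rot u) = (-(u 1)) • fderiv ℝ S.X u e0 + u 0 • fderiv ℝ S.X u e1 := by
    have h2 : rot u = (-(u 1)) • e0 + u 0 • e1 := by
      apply ext2 <;> simp
    rw [h2, map_add, map_smul, map_smul]
  rw [h1] at h
  have h0 : ls * ⟪n, fderiv ℝ S.X u e0⟫ = -(u 1) * cC S.X u - u 0 * cB S.X u := by
    rw [← real_inner_smul_left, ← h, inner_add_left, real_inner_smul_left, real_inner_smul_left]
    unfold cC cB
    rw [real_inner_comm (fderiv ℝ S.X u e0) (fderiv ℝ S.X u e1)]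
    ring
  have h3 : ls * ⟪n, fderiv ℝ S.X u e1⟫ = (u 1) * cB S.X u + u 0 * cA S.X u := by
    rw [← real_inner_smul_left, ← h, inner_add_left, real_inner_smul_left, real_inner_smul_left]
    unfold cA cB
    ring
  have e0' : ⟪u, e0⟫ = u 0 := by rw [ip2]; simp
  have e1' : ⟪u, e1⟫ = u 1 := by rw [ip2]; simp
  rw [RTC_xi_apply, RTC_xi_apply, RTC_eta_apply, RTC_eta_apply, e0', e1']
  apply mul_left_cancel₀ hls
  linear_combination (cA S.X u * (-2 * u 0) + cB S.X u * (-2 * u 1)) * h0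
    + (cB S.X u * (-2 * u 0) + cC S.X u * (-2 * u 1)) * h3

theorem rot_corner {S : Surf} (D : Dom S) {φ : ℝ} (hS : SS D (nh φ) 0)
    (hns : ∃ u : V2, ‖u‖ ≤ 1 ∧ refl (nh φ) 0 (S.X u) ∉ S.Sig) {u₁ : V2} (hu₁ : ‖u₁‖ = 1)
    (hl : ⟪nh φ, S.X u₁⟫ = 0) (B : Box S.X u₁ (S.N u₁)) :
    fderiv ℝ (fun u => B.f (refl (nh φ) 0 (S.X u))) u₁ = 0 ∧
    fderiv ℝ (fun u => ⟪nh φ, S.X u⟫) u₁ (rot u₁)
      * D2 (fun u => B.f (refl (nh φ) 0 (S.X u))) u₁ u₁ (rot u₁) < 0 := by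
  have hn : ‖nh φ‖ = 1 := norm_nh φ
  have hfix : refl (nh φ) 0 (S.X u₁) = S.X u₁ := RTC_fix hl
  have hU : refl (nh φ) 0 (S.X u₁) ∈ B.U B.r := by
    rw [hfix]
    exact B.mem_U B.hr
  have hbX : B.b (refl (nh φ) 0 (S.X u₁)) = u₁ := by
    rw [hfix]
    exact B.b_X (by simpa using B.hr)
  obtain ⟨hX2, hX1⟩ := S.bd1 hu₁
  have hnN : ⟪nh φ, S.N u₁⟫ = 0 := by
    rw [S.N_decomp hu₁, inner_add_right, inner_smul_right, inner_smul_right, hl, RTC_nE3]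
    simp
  have hrlN : rl (nh φ) (S.N u₁) = S.N u₁ := by
    unfold rl
    rw [hnN]
    simp
  have hDw : fderiv ℝ (fun u => B.f (refl (nh φ) 0 (S.X u))) u₁ = 0 := by
    apply fderiv_w_zero S B hn 0 hU
    rw [hbX, hrlN]
  refine ⟨hDw, ?_⟩
  have hwcd : ContDiffAt ℝ 2 (fun u => B.f (refl (nh φ) 0 (S.X u))) u₁ := contDiffAt_w S B (nh φ) 0 hU
  obtain ⟨σ, hσ, hTT⟩ := TT_hinge hX2 hX1 hl
  obtain ⟨ls, hlsd⟩ : ∃ ls, ls = S.lam u₁ * σ := ⟨_, rfl⟩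
  have hls : ls ≠ 0 := by
    rw [hlsd]
    apply mul_ne_zero (S.lam_ne hu₁)
    rintro rfl
    norm_num at hσ
  have hrot : fderiv ℝ S.X u₁ (rot u₁) = ls • nh φ := by
    rw [S.rot_deriv hu₁, hTT, smul_smul, hlsd]
  have hDη : fderiv ℝ (fun u => ⟪nh φ, S.X u⟫) u₁ (rot u₁) = ls := by
    rw [RTC_eta_apply, hrot, inner_smul_right, real_inner_self_eq_norm_sq, hn]
    ring
  obtain ⟨s, hs2, hsl⟩ : ∃ s : ℝ, s ^ 2 = 1 ∧ 0 < s * ls := by
    rcases lt_or_gt_of_ne hls with h | h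
    · exact ⟨-1, by norm_num, by linarith⟩
    · exact ⟨1, by norm_num, by linarith⟩
  obtain ⟨c, hc⟩ : ∃ c, c = fderiv ℝ (fun u => ⟪nh φ, S.X u⟫) u₁ u₁ / ls := ⟨_, rfl⟩
  have hRt : Tendsto (fun u : V2 => refl (nh φ) 0 (S.X u)) (𝓝 u₁) (𝓝 (S.X u₁)) := by
    have := (RTC_cont S φ).tendsto u₁
    rwa [hfix] at this
  -- zeros on the circle
  have hwξ : ∀ᶠ x in 𝓝 u₁, 1 - ‖x‖ ^ 2 = 0 → B.f (refl (nh φ) 0 (S.X x)) = 0 := by
    filter_upwards [hRt.eventually (circ_zero S hu₁ B)] with x hx h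
    have hx1 : ‖x‖ = 1 := by
      have : ‖x‖ ^ 2 = 1 := by linarith
      nlinarith [norm_nonneg x]
    obtain ⟨g2, g1⟩ := S.bd1 hx1
    exact (hx (by rw [refl0_2]; exact g2) (by rw [refl0_r]; exact g1)).1
  have hwη : ∀ᶠ x in 𝓝 u₁, ⟪nh φ, S.X x⟫ = 0 → B.f (refl (nh φ) 0 (S.X x)) = 0 := by
    filter_upwards [ball_mem_nhds u₁ B.hr] with x hx h
    rw [RTC_fix h]
    rw [mem_ball, dist_eq_norm] at hx
    exact B.f_X hx
  have hEU : ∀ᶠ x in 𝓝 u₁, refl (nh φ) 0 (S.X x) ∈ B.U B.r :=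
    hRt.eventually (B.U_nhds B.hr le_rfl)
  have hbin := bin D.toPreDom hu₁ hu₁ hfix.symm hrlN B
  have hlt : ∀ x : V2, 0 < 1 - ‖x‖ ^ 2 → ‖x‖ < 1 := by
    intro x hx
    by_contra hcon
    push Not at hcon
    nlinarith
  have hwp : ∀ᶠ x in 𝓝 u₁, 0 < 1 - ‖x‖ ^ 2 → 0 < ⟪nh φ, S.X x⟫ →
      0 < B.f (refl (nh φ) 0 (S.X x)) := by
    filter_upwards [hRt.eventually (fnn D.toPreDom hu₁ B), side_u D.toPreDom hu₁, hbin, hEU]
      with x h1 h2 h3 h4 hξ hη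
    have hx := hlt x hξ
    have hcl := hS x hx.le hη.le
    obtain ⟨s1, s2, s3⟩ := h2 hx
    have hnn : 0 ≤ B.f (refl (nh φ) 0 (S.X x)) := by
      apply h1 hcl
      rcases nE_cases D hu₁ with h | h | h
      · exact Or.inl h
      · refine Or.inr (Or.inl ⟨h, ?_⟩)
        rw [refl0_2]
        exact s2 h
      · refine Or.inr (Or.inr ⟨h, ?_⟩)
        rw [refl0_r]
        exact s3 h
    refine lt_of_le_of_ne hnn fun h0 => ?_
    have hb := h3 hx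
    have hco := (B.coord le_rfl h4).2.2
    rw [← h0, zero_smul, add_zero] at hco
    obtain ⟨u', hu', hu''⟩ := hns
    exact hu'' (ct4 D hn hS (RTC_h1 D.toPreDom φ) hx (ct1 D hn hS hx hη hb hco.symm) u' hu')
  -- differential inequality
  obtain ⟨K, hK⟩ := di S B hn 0 hu₁.le hU (by rw [hbX, hu₁]) (by
    rw [hbX, hrlN, real_inner_self_eq_norm_sq, S.N_norm hu₁.le]
    norm_num)
  have hdi : ∀ᶠ x in 𝓝 u₁, 0 < 1 - ‖x‖ ^ 2 → 0 < ⟪nh φ, S.X x⟫ →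
      Ell (cA S.X) (cB S.X) (cC S.X) (fun u => B.f (refl (nh φ) 0 (S.X u))) x ≤
        K * ‖fderiv ℝ (fun u => B.f (refl (nh φ) 0 (S.X u))) x‖ := by
    filter_upwards [hK, hbin] with x h1 h2 hξ _
    have hx := hlt x hξ
    rw [← Lop_eq_Ell]
    exact (le_abs_self _).trans (h1 hx (h2 hx))
  have hcA := contDiff_cA S.smooth
  have hcB := contDiff_cB S.smooth
  have hcC := contDiff_cC S.smooth
  have himm : nn S.X u₁ ≠ 0 := S.imm u₁ hu₁.le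
  have hξq : fderiv ℝ (fun u : V2 => 1 - ‖u‖ ^ 2) u₁ (s • rot u₁) = 0 := by
    rw [RTC_xi_apply, inner_smul_right, RTC_rot_perp]
    ring
  have hηp : fderiv ℝ (fun u => ⟪nh φ, S.X u⟫) u₁ (-u₁ + c • rot u₁) = 0 := by
    rw [map_add, map_neg, map_smul, hDη, hc, smul_eq_mul, div_mul_cancel₀ _ hls]
    ring
  have hξp : 0 < fderiv ℝ (fun u : V2 => 1 - ‖u‖ ^ 2) u₁ (-u₁ + c • rot u₁) := by
    rw [RTC_xi_apply, inner_add_right, inner_neg_right, inner_smul_right, RTC_rot_perp,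
      real_inner_self_eq_norm_sq, hu₁]
    norm_num
  have hηq : 0 < fderiv ℝ (fun u => ⟪nh φ, S.X u⟫) u₁ (s • rot u₁) := by
    rw [map_smul, hDη]
    exact hsl
  have hpp : D2 (fun u => B.f (refl (nh φ) 0 (S.X u))) u₁ (-u₁ + c • rot u₁)
      (-u₁ + c • rot u₁) = 0 := by
    refine D2_zero (η := fun u => ⟪nh φ, S.X u⟫) ?_ hl ?_ hwcd hDw hwη hηp
    · exact (RTC_eta_cd S (nh φ)).contDiffAt.of_le (by norm_num)
    · intro h
      rw [h] at hDη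
      exact hls hDη.symm
  have hqq : D2 (fun u => B.f (refl (nh φ) 0 (S.X u))) u₁ (s • rot u₁) (s • rot u₁) = 0 := by
    refine D2_zero (η := fun u : V2 => 1 - ‖u‖ ^ 2) ?_ ?_ ?_ hwcd hDw hwξ hξq
    · exact RTC_xi_cd.contDiffAt.of_le (by norm_num)
    · rw [hu₁]
      norm_num
    · intro h
      have h1 := RTC_xi_apply u₁ u₁
      rw [h, real_inner_self_eq_norm_sq, hu₁] at h1
      norm_num at h1
  have hcor := corner (A := cA S.X) (B := cB S.X) (C := cC S.X)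
    (w := fun u => B.f (refl (nh φ) 0 (S.X u))) (ξ := fun u : V2 => 1 - ‖u‖ ^ 2)
    (η := fun u => ⟪nh φ, S.X u⟫) (x₀ := u₁) (p := -u₁ + c • rot u₁) (q := s • rot u₁) (K := K)
    RTC_xi_cd.contDiffAt (RTC_eta_cd S (nh φ)).contDiffAt (by rw [hu₁]; norm_num) hl hξp hξq hηp hηq
    (Eventually.of_forall fun x => hcA.continuous.continuousAt)
    (Eventually.of_forall fun x => hcB.continuous.continuousAt)
    (Eventually.of_forall fun x => hcC.continuous.continuousAt)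
    (hcA.contDiffAt.differentiableAt (by norm_num)) (hcB.contDiffAt.differentiableAt (by norm_num))
    (hcC.contDiffAt.differentiableAt (by norm_num)) (cA_pos himm) (cB_sq_lt himm)
    (RTC_horth S hls hrot) hwcd hDw hwp hwξ hwη hdi hpp hqq
  -- conclusion
  obtain ⟨Q, hQ⟩ : ∃ Q : V2 → V2 → ℝ, Q = D2 (fun u => B.f (refl (nh φ) 0 (S.X u))) u₁ :=
    ⟨_, rfl⟩
  have hrr : D2 (fun u => B.f (refl (nh φ) 0 (S.X u))) u₁ (rot u₁) (rot u₁) = 0 := by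
    rw [D2_smul, D2_smul', smul_eq_mul, smul_eq_mul] at hqq
    linear_combination hqq - (D2 (fun u => B.f (refl (nh φ) 0 (S.X u))) u₁ (rot u₁) (rot u₁)) * hs2
  have hneg : D2 (fun u => B.f (refl (nh φ) 0 (S.X u))) u₁ (-u₁) (s • rot u₁) =
      -(s * D2 (fun u => B.f (refl (nh φ) 0 (S.X u))) u₁ u₁ (rot u₁)) := by
    have h1 : (-u₁ : V2) = (-1 : ℝ) • u₁ := by simp
    rw [h1, D2_smul, D2_smul', smul_eq_mul, smul_eq_mul]
    ring
  rw [D2_add, hneg, D2_smul, D2_smul', hrr] at hcor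
  rw [hDη]
  simp only [smul_zero, add_zero] at hcor
  have h1 : ls * D2 (fun u => B.f (refl (nh φ) 0 (S.X u))) u₁ u₁ (rot u₁) =
      (s * ls) * (s * D2 (fun u => B.f (refl (nh φ) 0 (S.X u))) u₁ u₁ (rot u₁)) := by
    linear_combination (-(ls * D2 (fun u => B.f (refl (nh φ) 0 (S.X u))) u₁ u₁ (rot u₁))) * hs2
  rw [h1]
  exact mul_neg_of_pos_of_neg hsl (by linarith)

end Pool.Agent.H99.SC

end S_RTC

section S_ROA

/-!
# ROA: no bad sequence under rotation converging to a boundary point off the plane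

`v₁` = partner of `u₁` (`partner`), `k = kk u₁ > k' = kk v₁` by `rotk_le`, `rotk_eq` (not symmetric).
`‖uk k‖ < 1` (boundary points are mapped into the circle, in `S.Sig`, in the closure: `sig_closure`).  Box `B`
at `v₁` (`exists_box`, `e = N v₁`), `Φ (φ,u) = B.f (refl (nh φ) 0 (X u))` (`smooth_par`), zero
for `‖u‖ = 1` near `(φ₀,u₁)` (`circ_zero`, `cont_par`, `refl0_2`, `refl0_r`, `bd1`).  If `1 + k k' > 0`: `drw_neg`,
`rad_par`: `Φ > 0` inside near `(φ₀,u₁)`.  `y = refl (nh φ_k) 0 (X (uk k))` has `y 2 = (X (uk k)) 2` and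
tends to `X v₁`.  It is in `W` for large `k` (contradiction):
 * `k' > 0`: `k > 0`, `N_r(u₁) < 0` so `y 2 < 0` (`side_u`), `Φ > 0`: `fW` (`N_r(v₁) < 0`).
 * `k' < 0` (`N_r(v₁) > 0`): if `k > 0`: `y 2 < 0`: `loc_pos` (second part); if `k ≤ 0`: `k k' ≥ 0`,
   `Φ > 0`: `fW`.
 * `k' = 0` (`N(v₁) = -E3`): `k > 0`: `y 2 < 0`, `Φ > 0`: `fW`.
-/


open scoped RealInnerProductSpace Topology
open Metric Filter Set


namespace Pool.Agent.H99.SC

theorem rotA {S : Surf} (D : Dom S) {φ₀ : ℝ} (hS : SS D (nh φ₀) 0)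
    (hns : ∃ u : V2, ‖u‖ ≤ 1 ∧ refl (nh φ₀) 0 (S.X u) ∉ S.Sig) {u₁ : V2} (hu₁ : ‖u₁‖ = 1)
    (hl : 0 < ⟪nh φ₀, S.X u₁⟫) {fk : ℕ → ℝ} {uk : ℕ → V2} (hfk : Tendsto fk atTop (𝓝 φ₀))
    (huk : Tendsto uk atTop (𝓝 u₁)) (hu1 : ∀ k, ‖uk k‖ ≤ 1)
    (hbad : ∀ k, refl (nh (fk k)) 0 (S.X (uk k)) ∉ closure D.W) : False := by
  obtain ⟨v₁, hv₁, hx⟩ := partner S φ₀ hu₁
  have hlt : S.kk v₁ < S.kk u₁ := by
    refine lt_of_le_of_ne (rotk_le D hS hu₁ hv₁ hx hl) fun heq => ?_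
    obtain ⟨u, hu, hu'⟩ := hns
    exact hu' (rotk_eq D hS hu₁ hv₁ hx hl heq u hu)
  have hin : ∀ k, ‖uk k‖ < 1 := by
    intro k
    refine lt_of_le_of_ne (hu1 k) fun heq => hbad k (sig_closure D.toPreDom ?_)
    obtain ⟨h2, h1⟩ := S.bd1 heq
    obtain ⟨v, hv, hv'⟩ := (S.bd (refl (nh (fk k)) 0 (S.X (uk k)))).mpr
      ⟨by rw [refl0_2, h2], by rw [refl0_r, h1]⟩
    exact ⟨v, hv.le, hv'⟩
  obtain ⟨B⟩ : Nonempty (Box S.X v₁ (S.N v₁)) := by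
    refine exists_box S.smooth ?_
    rw [S.nn_eq hv₁.le, real_inner_smul_left, real_inner_self_eq_norm_sq, S.N_norm hv₁.le]
    have := S.nn_pos hv₁.le
    simpa using this
  have hGt : Tendsto (fun q : ℝ × V2 => refl (nh q.1) 0 (S.X q.2)) (𝓝 (φ₀, u₁)) (𝓝 (S.X v₁)) := by
    have h1 := (cont_par S).tendsto (φ₀, u₁)
    rw [hx]
    exact h1
  have hΦ : ContDiffAt ℝ 2 (fun q : ℝ × V2 => B.f (refl (nh q.1) 0 (S.X q.2))) (φ₀, u₁) :=
    smooth_par S B (by rw [← hx]; exact B.mem_U B.hr)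
  have h0 : ∀ᶠ q : ℝ × V2 in 𝓝 (φ₀, u₁), ‖q.2‖ = 1 →
      (fun q : ℝ × V2 => B.f (refl (nh q.1) 0 (S.X q.2))) q = 0 := by
    filter_upwards [hGt.eventually (circ_zero S hv₁ B)] with q hq hq1
    obtain ⟨h2, h1⟩ := S.bd1 hq1
    exact (hq (by rw [refl0_2, h2]) (by rw [refl0_r, h1])).1
  have hseq : Tendsto (fun k => (fk k, uk k)) atTop (𝓝 (φ₀, u₁)) := hfk.prodMk_nhds huk
  have hyseq : Tendsto (fun k => refl (nh (fk k)) 0 (S.X (uk k))) atTop (𝓝 (S.X v₁)) :=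
    hGt.comp hseq
  have hpos : 0 < 1 + S.kk u₁ * S.kk v₁ →
      ∀ᶠ k in atTop, 0 < B.f (refl (nh (fk k)) 0 (S.X (uk k))) := by
    intro h
    have h1 := hseq.eventually (rad_par hu₁ hΦ h0 (drw_neg D hu₁ hv₁ hx B hlt h))
    filter_upwards [h1] with k hk
    exact hk (hin k)
  have hside : 0 < S.kk u₁ → ∀ᶠ k in atTop, (refl (nh (fk k)) 0 (S.X (uk k))) 2 < 0 := by
    intro h
    filter_upwards [huk.eventually (side_u D.toPreDom hu₁)] with k hk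
    rw [refl0_2]
    exact (hk (hin k)).1 ((Surf.kk_pos D hu₁).mp h)
  have hfW := hyseq.eventually (fW D.toPreDom hv₁ B)
  rcases nE_cases D hv₁ with h | h | h
  · have hk' : 0 < S.kk v₁ := (Surf.kk_pos D hv₁).mpr h
    have hk : 0 < S.kk u₁ := hk'.trans hlt
    obtain ⟨k, ⟨h1, h2⟩, h3⟩ := ((hfW.and (hpos (by positivity))).and (hside hk)).exists
    exact hbad k (subset_closure (h1 h2 (Or.inl ⟨h, h3⟩)))
  · have hk' : S.kk v₁ < 0 := (Surf.kk_neg D hv₁).mpr h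
    rcases lt_or_ge 0 (S.kk u₁) with hk | hk
    · obtain ⟨k, h1, h2⟩ :=
        ((hyseq.eventually (loc_pos D.toPreDom hv₁ h B)).and (hside hk)).exists
      exact hbad k (subset_closure (h1.2.1 h2))
    · have h4 : 0 < 1 + S.kk u₁ * S.kk v₁ := by
        have := mul_nonneg_of_nonpos_of_nonpos hk hk'.le
        linarith
      obtain ⟨k, h1, h2⟩ := (hfW.and (hpos h4)).exists
      exact hbad k (subset_closure (h1 h2 (Or.inr (Or.inl h))))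
  · have hk' : S.kk v₁ = 0 := (Surf.kk_zero D hv₁).mpr h
    have hk : 0 < S.kk u₁ := hk' ▸ hlt
    obtain ⟨k, ⟨h1, h2⟩, h3⟩ :=
      ((hfW.and (hpos (by rw [hk']; norm_num))).and (hside hk)).exists
    exact hbad k (subset_closure (h1 h2 (Or.inr (Or.inr ⟨h, Or.inr h3⟩))))

end Pool.Agent.H99.SC

end S_ROA

section S_ROB

/-!
# ROB: no bad sequence under rotation converging to a hinge point

Box `B` at `u₁`, `e = N u₁` (`exists_box`), `Φ (φ,u) = B.f (refl (nh φ) 0 (X u))` (`smooth_par`),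
`Γ (φ,u) = ⟪nh φ, X u⟫` (smooth).  `refl (nh φ₀) 0 (X u₁) = X u₁`.  `rot_corner` gives `hD`, `hs` of `rad2`.
`h1`: `circ_zero`, `cont_par` (`refl0_2`, `refl0_r`, `bd1`).  `h2`: where `Γ = 0` the reflected point is `X u`: `f_X`.
So `Φ > 0` where `‖u‖ < 1`, `Γ > 0`, near `(φ₀,u₁)`.  `‖uk k‖ < 1` (boundary points are mapped into the circle, in
the closure).  `fW` with `v₁ = u₁` and `side_u`, `nE_cases` (third coordinate and `y 0^2 + y 1^2` are preserved): the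
reflected point is in `W` for large `k`: contradiction.
-/


open scoped RealInnerProductSpace Topology
open Metric Filter Set


namespace Pool.Agent.H99.SC

theorem ROB_box {S : Surf} {u : V2} (hu : ‖u‖ ≤ 1) : 0 < ⟪nn S.X u, S.N u⟫ := by
  rw [S.nn_eq hu, inner_smul_left, real_inner_self_eq_norm_sq, S.N_norm hu]
  simpa using S.imm u hu

theorem ROB_fix {φ : ℝ} {y : V3} (h : ⟪nh φ, y⟫ = 0) : refl (nh φ) 0 y = y := by
  unfold refl
  rw [h]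
  simp

theorem ROB_smooth (S : Surf) : ContDiff ℝ 2 (fun q : ℝ × V2 => ⟪nh q.1, S.X q.2⟫) := by
  have hc : ∀ i : Fin 3, ContDiff ℝ 2 (fun q : ℝ × V2 => (S.X q.2) i) := by
    intro i
    exact (EuclideanSpace.proj i : V3 →L[ℝ] ℝ).contDiff.comp (S.smooth.comp contDiff_snd)
  have e : (fun q : ℝ × V2 => ⟪nh q.1, S.X q.2⟫) = fun q : ℝ × V2 =>
      Real.cos q.1 * (S.X q.2) 0 + Real.sin q.1 * (S.X q.2) 1 := by
    funext q
    rw [ip, nh_0, nh_1, nh_2]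
    ring
  rw [e]
  exact ((Real.contDiff_cos.comp contDiff_fst).mul (hc 0)).add
    ((Real.contDiff_sin.comp contDiff_fst).mul (hc 1))

theorem rotB {S : Surf} (D : Dom S) {φ₀ : ℝ} (hS : SS D (nh φ₀) 0)
    (hns : ∃ u : V2, ‖u‖ ≤ 1 ∧ refl (nh φ₀) 0 (S.X u) ∉ S.Sig) {u₁ : V2} (hu₁ : ‖u₁‖ = 1)
    (hl : ⟪nh φ₀, S.X u₁⟫ = 0) {fk : ℕ → ℝ} {uk : ℕ → V2} (hfk : Tendsto fk atTop (𝓝 φ₀))
    (huk : Tendsto uk atTop (𝓝 u₁)) (hu1 : ∀ k, ‖uk k‖ ≤ 1)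
    (hlk : ∀ k, 0 < ⟪nh (fk k), S.X (uk k)⟫)
    (hbad : ∀ k, refl (nh (fk k)) 0 (S.X (uk k)) ∉ closure D.W) : False := by
  obtain ⟨B⟩ := exists_box S.smooth (ROB_box (S := S) hu₁.le)
  have hfix : refl (nh φ₀) 0 (S.X u₁) = S.X u₁ := ROB_fix hl
  have hU : refl (nh φ₀) 0 (S.X u₁) ∈ B.U B.r := by
    rw [hfix]
    exact B.mem_U B.hr
  have hcont : Tendsto (fun q : ℝ × V2 => refl (nh q.1) 0 (S.X q.2)) (𝓝 (φ₀, u₁))
      (𝓝 (S.X u₁)) := by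
    have := (cont_par S).tendsto (φ₀, u₁)
    simp only [hfix] at this
    exact this
  have hsnd : Tendsto (fun q : ℝ × V2 => q.2) (𝓝 (φ₀, u₁)) (𝓝 u₁) := continuousAt_snd
  obtain ⟨hc1, hc2⟩ := rot_corner D hS hns hu₁ hl B
  have key := rad2 (Φ := fun q : ℝ × V2 => B.f (refl (nh q.1) 0 (S.X q.2)))
    (Γ := fun q : ℝ × V2 => ⟪nh q.1, S.X q.2⟫) (φ₀ := φ₀) hu₁ (smooth_par S B hU)
    (ROB_smooth S).contDiffAt
    (by
      filter_upwards [hcont.eventually (circ_zero S hu₁ B)] with q hq hq1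
      obtain ⟨b1, b2⟩ := S.bd1 hq1
      exact (hq (by rw [refl0_2, b1]) (by rw [refl0_r, b2])).1)
    (by
      have hr : ∀ᶠ u in 𝓝 u₁, ‖u - u₁‖ < B.r := by
        have : Continuous fun u : V2 => ‖u - u₁‖ := by fun_prop
        refine this.continuousAt.eventually (gt_mem_nhds ?_)
        show ‖u₁ - u₁‖ < B.r
        rw [sub_self, norm_zero]
        exact B.hr
      filter_upwards [hsnd.eventually hr] with q hq hq1
      rw [ROB_fix hq1]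
      exact B.f_X hq)
    hl hc1 hc2
  have hq : Tendsto (fun k => (fk k, uk k)) atTop (𝓝 (φ₀, u₁)) := hfk.prodMk_nhds huk
  have hall := key.and ((hcont.eventually (fW D.toPreDom hu₁ B)).and
    (hsnd.eventually (side_u D.toPreDom hu₁)))
  obtain ⟨k, h1, h2, h3⟩ := (hq.eventually hall).exists
  simp only at h1 h2 h3
  have hlt : ‖uk k‖ < 1 := by
    refine lt_of_le_of_ne (hu1 k) fun h => ?_
    obtain ⟨v, hv, hvx⟩ := partner S (fk k) h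
    refine hbad k (sig_closure D.toPreDom ?_)
    rw [← hvx]
    exact S.mem_Sig hv.le
  obtain ⟨s1, s2, s3⟩ := h3 hlt
  refine hbad k (subset_closure (h2 (h1 hlt (hlk k)) ?_))
  rcases nE_cases D hu₁ with h | h | h
  · left
    exact ⟨h, by rw [refl0_2]; exact s1 h⟩
  · right
    left
    exact h
  · right
    right
    exact ⟨h, Or.inl (by rw [refl0_r]; exact s3 h)⟩

end Pool.Agent.H99.SC

end S_ROB

section S_ROT

/-!
# ROT: `SS` is an open condition under rotation unless the surface is symmetric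

`rot_open`: otherwise there are `φ_k → φ₀` and `u_k`, `‖u_k‖ ≤ 1`, `0 ≤ ⟪nh φ_k, X u_k⟫`, reflected point not in
`closure W` (so `0 <`, since for `= 0` it is `X u_k`, `sig_closure`).  Subsequence `u_k → u₀`; `opn`
((h1) `h1_refl0`): `‖u₀‖ = 1` or `refl (nh φ₀) 0 (X u₀) ∈ Disc`, and then `X u₀ ∈ Disc` (`refl0_Disc`), `‖u₀‖ = 1`
(`D.disj`).  `0 ≤ ⟪nh φ₀, X u₀⟫` in the limit: `rotA` or `rotB`.
`ss_closed`: `φ_k → φ`, `SS` at `φ_k`, `0 ≤ ⟪nh φ, X u⟫`: if `= 0` the reflected point is `X u`; if `> 0` then also for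
`φ_k`, `k` large, and `closure W` is closed.
-/


open scoped RealInnerProductSpace Topology
open Metric Filter Set


namespace Pool.Agent.H99.SC

private lemma ROT_nh_cont : Continuous nh := by
  unfold nh
  refine (PiLp.continuous_toLp 2 _).comp ?_
  refine continuous_pi fun i => ?_
  fin_cases i
  · exact Real.continuous_cos
  · exact Real.continuous_sin
  · exact continuous_const

private lemma ROT_zero {n y : V3} (h : ⟪n, y⟫ = 0) : refl n 0 y = y := by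
  unfold refl; rw [h]; simp

theorem rot_open {S : Surf} (D : Dom S) {φ₀ : ℝ} (hS : SS D (nh φ₀) 0)
    (hns : ∃ u : V2, ‖u‖ ≤ 1 ∧ refl (nh φ₀) 0 (S.X u) ∉ S.Sig) :
    ∀ᶠ φ in 𝓝 φ₀, SS D (nh φ) 0 := by
  by_contra hcon
  have hfr : ∃ᶠ φ in 𝓝 φ₀, ¬ SS D (nh φ) 0 := by
    rwa [Filter.not_eventually] at hcon
  obtain ⟨f, hf, hfS⟩ := exists_seq_forall_of_frequently hfr
  have h1 : ∀ k, ∃ u : V2, ‖u‖ ≤ 1 ∧ 0 ≤ ⟪nh (f k), S.X u⟫ ∧
      refl (nh (f k)) 0 (S.X u) ∉ closure D.W := by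
    intro k
    have := hfS k
    unfold SS at this
    push Not at this
    obtain ⟨u, hu, h2, h3⟩ := this
    exact ⟨u, hu, h2, h3⟩
  choose u hu hl hbad using h1
  obtain ⟨u₀, hu₀, θ, hθ, hlim⟩ := (isCompact_closedBall (0 : V2) 1).tendsto_subseq
    (fun n => by simpa using hu n)
  have hf' : Tendsto (f ∘ θ) atTop (𝓝 φ₀) := hf.comp hθ.tendsto_atTop
  have hnh : Tendsto (fun k => nh (f (θ k))) atTop (𝓝 (nh φ₀)) :=
    (ROT_nh_cont.tendsto φ₀).comp hf'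
  have hlpos : ∀ k, 0 < ⟪nh (f k), S.X (u k)⟫ := by
    intro k
    rcases (hl k).lt_or_eq with h | h
    · exact h
    · exfalso
      apply hbad k
      rw [ROT_zero h.symm]
      exact sig_closure D.toPreDom (S.mem_Sig (hu k))
  have hX : Tendsto (fun k => S.X (u (θ k))) atTop (𝓝 (S.X u₀)) :=
    (S.smooth.continuous.tendsto u₀).comp hlim
  have hmain := opn D (norm_nh φ₀) hS (h1_refl0 D.toPreDom φ₀) hns
    (nk := fun k => nh (f (θ k))) (tk := fun _ => 0) (uk := fun k => u (θ k))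
    (fun k => norm_nh _) hnh tendsto_const_nhds hlim (fun k => hu _) (fun k => hlpos _)
    (fun k => hbad _)
  have hu₀1 : ‖u₀‖ = 1 := by
    rcases hmain with h | h
    · exact h
    · have h2 := refl0_Disc h
      have h3 : ‖u₀‖ ≤ 1 := by simpa using hu₀
      rcases h3.lt_or_eq with h4 | h4
      · exact absurd h2 (D.disj u₀ h4)
      · exact h4
  have hin : 0 ≤ ⟪nh φ₀, S.X u₀⟫ :=
    ge_of_tendsto (hnh.inner hX) (Eventually.of_forall fun k => (hlpos _).le)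
  rcases hin.lt_or_eq with h | h
  · exact rotA D hS hns hu₀1 h hf' hlim (fun k => hu _) (fun k => hbad _)
  · exact rotB D hS hns hu₀1 h.symm hf' hlim (fun k => hu _) (fun k => hlpos _) (fun k => hbad _)

theorem ss_closed {S : Surf} (D : Dom S) : IsClosed {φ : ℝ | SS D (nh φ) 0} := by
  apply IsSeqClosed.isClosed
  intro f φ hf hlim u hu hl
  rcases hl.lt_or_eq with h | h
  · have hnh : Tendsto (fun k => nh (f k)) atTop (𝓝 (nh φ)) := (ROT_nh_cont.tendsto φ).comp hlim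
    have hin : Tendsto (fun k => ⟪nh (f k), S.X u⟫) atTop (𝓝 ⟪nh φ, S.X u⟫) :=
      hnh.inner tendsto_const_nhds
    have hev : ∀ᶠ k in atTop, 0 < ⟪nh (f k), S.X u⟫ := hin.eventually (lt_mem_nhds h)
    have hr : Tendsto (fun k => refl (nh (f k)) 0 (S.X u)) atTop (𝓝 (refl (nh φ) 0 (S.X u))) := by
      unfold refl
      exact tendsto_const_nhds.sub (((hin.sub tendsto_const_nhds).const_mul 2).smul hnh)
    refine isClosed_closure.mem_of_tendsto hr ?_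
    filter_upwards [hev] with k hk
    exact hf k u hu hk.le
  · rw [ROT_zero h.symm]
    exact sig_closure D.toPreDom (S.mem_Sig hu)

end Pool.Agent.H99.SC

end S_ROT
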