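import Mathlib
import Pool.Agent.H99.SCM.M1
import Pool.Agent.H99.SCM.M3
import Pool.Agent.H99.SCM.M4
import Pool.Agent.H99.SCM.M6
import Pool.Agent.H99.SCM.M7

/-! Star-shaped CMC discs (S14043), file M8: joins several modules to save build time. -/

set_option autoImplicit false

noncomputable section

section S_BLK

/-!
# BLK: the balancing argument

`e` horizontal.  Hypothesis: `kk v ≤ kk u` for boundary points with `⟪X v, e⟫ < ⟪X u, e⟫`.  Then `kk` is constant on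
the boundary points with `⟪X u, e⟫ ≠ 0`.
Proof.  Let `k0 = inf {kk u : ‖u‖ = 1, 0 < ⟪X u, e⟫}` (nonempty: `X u = e`; bounded below by `kk v`, `X v = -e`).
For `⟪X u,e⟫ > 0`: `kk u ≥ k0`; for `⟪X v,e⟫ < 0`: `kk v ≤ kk u` for all these `u`, so `kk v ≤ k0`.  So
`(k0 - kk u) ⟪X u, e⟫ ≤ 0` for all `‖u‖ = 1`.  The function
`g ψ = lam (1 - N_3)(k0 - kk) ⟪X, e⟫` at `cu ψ` is continuous, has constant sign (`lam_sign`, `N3_lt`), and
`(1 - N_3)(k0 - kk) = (1 - N_3) k0 + N_r` (`kk_mul`), so its integral over `[0, 2π]` is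
`k0 ∫ lam ⟪X,e⟫ - k0 ∫ lam N_3 ⟪X,e⟫ + ∫ lam N_r ⟪X,e⟫ = 0` (`bal_center`, `bal_force`, `bal_torque`).
A continuous function of constant sign with integral 0 over `[0,2π]` vanishes there
(`intervalIntegral.integral_pos_iff_support_of_nonneg_ae` or `Continuous.integral_pos_of_hasCompactSupport..`; e.g.
`intervalIntegral_pos_of_pos_on` near a point), so `kk u = k0` where `⟪X u,e⟫ ≠ 0`
(every `‖u‖ = 1` is `cu ψ` with `ψ ∈ [0,2π)`: `exists_cu` and periodicity).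
-/


open scoped RealInnerProductSpace Topology
open Metric Filter Set


namespace Pool.Agent.H99.SC

theorem BLK_periodic : Function.Periodic cu (2 * Real.pi) := by
  intro ψ
  apply ext2 <;> simp

theorem BLK_zero {g : ℝ → ℝ} (hc : Continuous g) (h0 : ∀ ψ, 0 ≤ g ψ)
    (hi : ∫ ψ in (0 : ℝ)..(2 * Real.pi), g ψ = 0) : ∀ ψ ∈ Icc (0 : ℝ) (2 * Real.pi), g ψ = 0 := by
  have hpi : (0 : ℝ) < 2 * Real.pi := by positivity
  have h1 := (intervalIntegral.integral_eq_zero_iff_of_le_of_nonneg_ae hpi.le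
    (Filter.Eventually.of_forall h0) (hc.intervalIntegrable 0 (2 * Real.pi))).1 hi
  have h2 := MeasureTheory.Measure.eqOn_Ioc_of_ae_eq (μ := MeasureTheory.volume) h1
    hc.continuousOn continuousOn_const
  have hcl : closure (Ioc (0 : ℝ) (2 * Real.pi)) = Icc 0 (2 * Real.pi) := closure_Ioc hpi.ne
  have hclosed : IsClosed {ψ : ℝ | g ψ = 0} := isClosed_eq hc continuous_const
  intro ψ hψ
  rw [← hcl] at hψ
  exact closure_minimal (fun x hx => h2 hx) hclosed hψ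

theorem blk {S : Surf} (D : Dom S) {e : V3} (he : ‖e‖ = 1) (he2 : e 2 = 0)
    (hmon : ∀ u v : V2, ‖u‖ = 1 → ‖v‖ = 1 → ⟪S.X v, e⟫ < ⟪S.X u, e⟫ → S.kk v ≤ S.kk u) :
    ∃ k0 : ℝ, ∀ u : V2, ‖u‖ = 1 → ⟪S.X u, e⟫ ≠ 0 → S.kk u = k0 := by
  have he01 : e 0 ^ 2 + e 1 ^ 2 = 1 := by
    have h := nsq e
    rw [he, he2] at h
    linarith
  obtain ⟨up, hup, hXup⟩ := (S.bd e).2 ⟨he2, he01⟩
  obtain ⟨um, hum, hXum⟩ := (S.bd (-e)).2 ⟨by simp [he2], by simpa using he01⟩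
  have hee : ⟪e, e⟫ = 1 := by
    rw [real_inner_self_eq_norm_sq, he]
    norm_num
  have hpp : 0 < ⟪S.X up, e⟫ := by
    rw [hXup, hee]
    norm_num
  have hmm : ⟪S.X um, e⟫ < 0 := by
    rw [hXum, inner_neg_left, hee]
    norm_num
  set K : Set ℝ := {k | ∃ u : V2, ‖u‖ = 1 ∧ 0 < ⟪S.X u, e⟫ ∧ S.kk u = k} with hK
  have hKne : K.Nonempty := ⟨S.kk up, up, hup, hpp, rfl⟩
  have hKbd : ∀ v : V2, ‖v‖ = 1 → ⟪S.X v, e⟫ < 0 → ∀ k ∈ K, S.kk v ≤ k := by
    rintro v hv hv0 k ⟨u, hu, hu0, rfl⟩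
    exact hmon u v hu hv (hv0.trans hu0)
  have hKB : BddBelow K := ⟨S.kk um, fun k hk => hKbd um hum hmm k hk⟩
  set k0 : ℝ := sInf K with hk0
  have hsign : ∀ u : V2, ‖u‖ = 1 → (k0 - S.kk u) * ⟪S.X u, e⟫ ≤ 0 := by
    intro u hu
    rcases lt_trichotomy ⟪S.X u, e⟫ 0 with h | h | h
    · have h1 : S.kk u ≤ k0 := le_csInf hKne (hKbd u hu h)
      exact mul_nonpos_of_nonneg_of_nonpos (by linarith) h.le
    · rw [h, mul_zero]
    · have h1 : k0 ≤ S.kk u := csInf_le hKB ⟨u, hu, h, rfl⟩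
      exact mul_nonpos_of_nonpos_of_nonneg (by linarith) h.le
  set F : ℝ → ℝ := fun ψ => (k0 - S.N (cu ψ) 2 * k0 + S.Nr (cu ψ)) * ⟪S.X (cu ψ), e⟫ with hF
  have hF1 : ∀ ψ, F ψ = (1 - S.N (cu ψ) 2) * ((k0 - S.kk (cu ψ)) * ⟪S.X (cu ψ), e⟫) := by
    intro ψ
    have h := Surf.kk_mul D (norm_cu ψ)
    simp only [hF]
    linear_combination ⟪S.X (cu ψ), e⟫ * h
  have hF0 : ∀ ψ, F ψ ≤ 0 := by
    intro ψ
    rw [hF1]
    have h := Surf.N3_lt D (norm_cu ψ)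
    exact mul_nonpos_of_nonneg_of_nonpos (by linarith) (hsign _ (norm_cu ψ))
  have hXc : Continuous fun ψ : ℝ => ⟪S.X (cu ψ), e⟫ := (BAL_contX S).inner continuous_const
  have hN2c : Continuous fun ψ : ℝ => S.N (cu ψ) 2 := by
    have h : (fun ψ : ℝ => S.N (cu ψ) 2) = fun ψ : ℝ => ⟪S.N (cu ψ), E3⟫ := by
      funext ψ
      rw [ip]
      simp
    rw [h]
    exact (BAL_contN S).inner continuous_const
  have hFc : Continuous F :=
    ((continuous_const.sub (hN2c.mul continuous_const)).add (BAL_contNr S)).mul hXc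
  have hlam : Continuous fun ψ : ℝ => S.lam (cu ψ) := S.lam_cont
  have hint : ∫ ψ in (0 : ℝ)..(2 * Real.pi), S.lam (cu ψ) * F ψ = 0 := by
    have b1 := bal_center S e he2
    have b2 := bal_force S e he2
    have b3 := bal_torque S e he2
    have i1 : IntervalIntegrable (fun ψ => k0 * (S.lam (cu ψ) * ⟪S.X (cu ψ), e⟫))
        MeasureTheory.volume 0 (2 * Real.pi) :=
      (continuous_const.mul (hlam.mul hXc)).intervalIntegrable _ _
    have i2 : IntervalIntegrable (fun ψ => k0 * (S.lam (cu ψ) * (S.N (cu ψ) 2 * ⟪S.X (cu ψ), e⟫)))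
        MeasureTheory.volume 0 (2 * Real.pi) :=
      (continuous_const.mul (hlam.mul (hN2c.mul hXc))).intervalIntegrable _ _
    have i3 : IntervalIntegrable (fun ψ => S.lam (cu ψ) * (S.Nr (cu ψ) * ⟪S.X (cu ψ), e⟫))
        MeasureTheory.volume 0 (2 * Real.pi) :=
      (hlam.mul ((BAL_contNr S).mul hXc)).intervalIntegrable _ _
    have h1 : ∀ ψ, S.lam (cu ψ) * F ψ = k0 * (S.lam (cu ψ) * ⟪S.X (cu ψ), e⟫) -
        k0 * (S.lam (cu ψ) * (S.N (cu ψ) 2 * ⟪S.X (cu ψ), e⟫)) +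
        S.lam (cu ψ) * (S.Nr (cu ψ) * ⟪S.X (cu ψ), e⟫) := by
      intro ψ
      simp only [hF]
      ring
    simp only [h1]
    rw [intervalIntegral.integral_add (i1.sub i2) i3, intervalIntegral.integral_sub i1 i2,
      intervalIntegral.integral_const_mul, intervalIntegral.integral_const_mul, b1, b2, b3]
    ring
  have hzero : ∀ ψ ∈ Icc (0 : ℝ) (2 * Real.pi), F ψ = 0 := by
    intro ψ hψ
    rcases S.lam_sign with hs | hs
    · have hneg : ∫ ψ in (0 : ℝ)..(2 * Real.pi), -(S.lam (cu ψ) * F ψ) = 0 := by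
        rw [intervalIntegral.integral_neg, hint, neg_zero]
      have h := BLK_zero (hlam.mul hFc).neg (fun ψ => by
        have h1 := hs _ (norm_cu ψ)
        have h2 := hF0 ψ
        have h3 := mul_nonpos_of_nonneg_of_nonpos h1.le h2
        simp only [Pi.neg_apply, Pi.mul_apply]
        linarith) hneg ψ hψ
      have h4 : S.lam (cu ψ) * F ψ = 0 := by
        simpa using h
      exact (mul_eq_zero.1 h4).resolve_left (hs _ (norm_cu ψ)).ne'
    · have h := BLK_zero (hlam.mul hFc) (fun ψ => by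
        have h1 := hs _ (norm_cu ψ)
        have h2 := hF0 ψ
        exact mul_nonneg_of_nonpos_of_nonpos h1.le h2) hint ψ hψ
      exact (mul_eq_zero.1 h).resolve_left (hs _ (norm_cu ψ)).ne
  refine ⟨k0, fun u hu hne => ?_⟩
  obtain ⟨ψ, rfl⟩ := exists_cu hu
  obtain ⟨ψ', hψ', heq⟩ := BLK_periodic.exists_mem_Ico₀ (by positivity) ψ
  rw [heq] at hne ⊢
  have h := hzero ψ' ⟨hψ'.1, hψ'.2.le⟩
  rw [hF1] at h
  have h3 := Surf.N3_lt D (norm_cu ψ')
  have h4 := (mul_eq_zero.1 h).resolve_left (by linarith)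
  have h5 := (mul_eq_zero.1 h4).resolve_right hne
  linarith

end Pool.Agent.H99.SC

end S_BLK

section S_MNA

/-!
# MNA: a minimal weak star centre excludes symmetry; reflections swapping two points of the circle

`sym_contra`: otherwise `wstar_conn`, `wstar_refl`, `wstar_mid`: the midpoint `m = z - ⟪nh φ, z⟫ nh φ` of `z` and its
mirror image is a weak star centre, `m 2 = z 2`, and `m 0^2 + m 1^2 = a^2 - ⟪nh φ, z⟫^2 = a^2 - a^2 cos^2 (φ - φ₀) < a^2`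
(`⟪nh φ, z⟫ = -a cos (φ - φ₀)`, `Real.cos_sub`).
`swap_pt`: `v = p - p'`, horizontal, `n = v/|v|`, `⟪n, nh φ₀⟫ > 0`; `exists_nh`: `n = nh φ'`; adjust `φ'` by a multiple of
`2π` so that `|φ - φ₀| ≤ π`; `cos (φ - φ₀) = ⟪n, nh φ₀⟫ > 0` gives `|φ - φ₀| < π/2`.
`|p| = |p'| = 1`: `refl n 0 p = p - 2 ⟪n,p⟫ n = p'` and `⟪n,p⟫ = |v|/2`.
-/


open scoped RealInnerProductSpace Topology
open Metric Filter Set


namespace Pool.Agent.H99.SC

theorem sym_contra {S : Surf} {D : Dom S} {q : V3} (hq : WStar D q) (hqW : q ∈ D.W) {φ₀ a h : ℝ}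
    (ha : 0 < a) (hz : WStar D (zc (nh φ₀) a h))
    (hmin : ∀ z' : V3, WStar D z' → z' 2 = -h → a ^ 2 ≤ z' 0 ^ 2 + z' 1 ^ 2) {φ : ℝ}
    (hφ : 0 < Real.cos (φ - φ₀)) :
    ∃ u : V2, ‖u‖ ≤ 1 ∧ refl (nh φ) 0 (S.X u) ∉ S.Sig := by
  by_contra hcon
  have hsym : ∀ u : V2, ‖u‖ ≤ 1 → refl (nh φ) 0 (S.X u) ∈ S.Sig := by
    intro u hu
    by_contra h1
    exact hcon ⟨u, hu, h1⟩
  have h1 := wstar_refl (wstar_conn hq hqW) hsym hz
  have h2 := wstar_mid hz h1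
  have hp : ⟪nh φ, zc (nh φ₀) a h⟫ = -(a * Real.cos (φ - φ₀)) := by
    rw [ip, Real.cos_sub]
    simp
    ring
  have hr0 : (refl (nh φ) 0 (zc (nh φ₀) a h)) 0 =
      -(a * Real.cos φ₀) + 2 * (a * Real.cos (φ - φ₀)) * Real.cos φ := by
    unfold refl
    rw [hp]
    simp
  have hr1 : (refl (nh φ) 0 (zc (nh φ₀) a h)) 1 =
      -(a * Real.sin φ₀) + 2 * (a * Real.cos (φ - φ₀)) * Real.sin φ := by
    unfold refl
    rw [hp]
    simp
  have hr2 : (refl (nh φ) 0 (zc (nh φ₀) a h)) 2 = -h := by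
    unfold refl
    simp
  have h3 := hmin _ h2 (by
    simp only [PiLp.smul_apply, PiLp.add_apply, smul_eq_mul, hr2, zc_2]
    ring)
  simp only [PiLp.smul_apply, PiLp.add_apply, smul_eq_mul, hr0, hr1, zc_0, zc_1, nh_0, nh_1] at h3
  have hc := Real.cos_sq_add_sin_sq φ
  have hc0 := Real.cos_sq_add_sin_sq φ₀
  have hcd := Real.cos_sub φ φ₀
  have hpos : 0 < a ^ 2 * Real.cos (φ - φ₀) ^ 2 := by positivity
  have key : (1 / 2 * (-(a * Real.cos φ₀) +
        (-(a * Real.cos φ₀) + 2 * (a * Real.cos (φ - φ₀)) * Real.cos φ))) ^ 2 +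
      (1 / 2 * (-(a * Real.sin φ₀) +
        (-(a * Real.sin φ₀) + 2 * (a * Real.cos (φ - φ₀)) * Real.sin φ))) ^ 2 =
      a ^ 2 - a ^ 2 * Real.cos (φ - φ₀) ^ 2 := by
    generalize Real.cos (φ - φ₀) = c at hcd
    subst hcd
    generalize Real.cos φ = x at *
    generalize Real.sin φ = y at *
    generalize Real.cos φ₀ = x0 at *
    generalize Real.sin φ₀ = y0 at *
    linear_combination a ^ 2 * hc0 + a ^ 2 * (x * x0 + y * y0) ^ 2 * hc
  rw [key] at h3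
  linarith

theorem swap_pt {p p' : V3} (h2 : p 2 = 0) (h1 : p 0 ^ 2 + p 1 ^ 2 = 1) (h2' : p' 2 = 0)
    (h1' : p' 0 ^ 2 + p' 1 ^ 2 = 1) {φ₀ : ℝ} (h : ⟪p', nh φ₀⟫ < ⟪p, nh φ₀⟫) :
    ∃ φ : ℝ, |φ - φ₀| < Real.pi / 2 ∧ refl (nh φ) 0 p = p' ∧ 0 < ⟪nh φ, p⟫ := by
  set v : V3 := p - p' with hv
  have hv0 : v ≠ 0 := by
    intro h0
    have : p = p' := sub_eq_zero.mp (hv ▸ h0)
    rw [this] at h
    exact lt_irrefl _ h
  have hvn : 0 < ‖v‖ := norm_pos_iff.mpr hv0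
  have hv2 : v 2 = 0 := by rw [hv]; simp [h2, h2']
  have hn : ‖‖v‖⁻¹ • v‖ = 1 := by
    rw [norm_smul, norm_inv, norm_norm, inv_mul_cancel₀ hvn.ne']
  obtain ⟨φ', hφ'⟩ := exists_nh hn (by simp [hv2])
  have hcos : Real.cos (φ' - φ₀) = ⟪nh φ', nh φ₀⟫ := by
    rw [ip, Real.cos_sub]; simp
  have hcpos : 0 < Real.cos (φ' - φ₀) := by
    rw [hcos, hφ', real_inner_smul_left, hv, inner_sub_left]
    exact mul_pos (inv_pos.mpr hvn) (sub_pos.mpr h)
  set θ : ℝ := ((φ' - φ₀ : ℝ) : Real.Angle).toReal with hθ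
  have hθc : ((φ₀ + θ : ℝ) : Real.Angle) = ((φ' : ℝ) : Real.Angle) := by
    rw [Real.Angle.coe_add, hθ, Real.Angle.coe_toReal, Real.Angle.coe_sub]
    abel
  have hnh : nh (φ₀ + θ) = ‖v‖⁻¹ • v := by
    rw [← hφ']
    apply ext3
    · rw [nh_0, nh_0, ← Real.Angle.cos_coe, hθc, Real.Angle.cos_coe]
    · rw [nh_1, nh_1, ← Real.Angle.sin_coe, hθc, Real.Angle.sin_coe]
    · simp
  have hvp : ⟪v, p⟫ = ‖v‖ ^ 2 / 2 := by
    rw [nsq, ip, hv]
    simp only [PiLp.sub_apply, h2, h2']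
    nlinarith
  have hnp : ⟪nh (φ₀ + θ), p⟫ = ‖v‖ / 2 := by
    rw [hnh, real_inner_smul_left, hvp]
    field_simp
  refine ⟨φ₀ + θ, ?_, ?_, ?_⟩
  · rw [add_sub_cancel_left, hθ, ← Real.Angle.cos_pos_iff_abs_toReal_lt_pi_div_two,
      Real.Angle.cos_coe]
    exact hcpos
  · unfold refl
    rw [hnp, hnh, smul_smul]
    have : 2 * (‖v‖ / 2 - 0) * ‖v‖⁻¹ = 1 := by field_simp; ring
    rw [this, one_smul, hv]
    abel
  · rw [hnp]; positivity

end Pool.Agent.H99.SC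

end S_MNA

section S_MNO

/-!
# MNO: a domain that is star-shaped from a point below the plane

`D : Dom S`, `WStar D q`, `q ∈ W`.  Then `SS D (nh φ) 0` for all `φ`.
Proof.  `wstar_min`: `z` weak star centre, `z 2 = q 2 = -h`, of minimal
`z 0^2 + z 1^2 =: a^2`, `a ≥ 0`.  If `a = 0`: `z = zc (nh φ) 0 h` for every `φ` and `s1` gives the claim.  Suppose
`a > 0`: `z = zc (nh φ₀) a h`, `nh φ₀` the unit vector `(-z 0/a, -z 1/a, 0)` (`exists_nh`).
`SS` at `φ₀` by `s1`.  The set `{φ : SS D (nh φ) 0}` is closed (`ss_closed`), and every point of it in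
`I = Ioo (φ₀ - π/2) (φ₀ + π/2)` is interior (`rot_open`, `sym_contra`): `I` is preconnected, so `SS` holds on `I`.
`hmon` of `blk` for `e = nh φ₀`: `⟪X v,e⟫ < ⟪X u,e⟫`, `‖u‖ = ‖v‖ = 1`: `swap_pt` gives `φ ∈ I`, and `rotk_le`.
`blk`: `kk` is constant off `⟪X u,e⟫ = 0`.  Take `X u₁ = e`, `X v₁ = -e = refl (nh φ₀) 0 e` (`S.bd`): `kk v₁ = kk u₁`, so
`rotk_eq` contradicts `sym_contra` at `φ = φ₀`.
-/


open scoped RealInnerProductSpace Topology
open Metric Filter Set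


namespace Pool.Agent.H99.SC

theorem mno {S : Surf} (D : Dom S) {q : V3} (hq : WStar D q) (hqW : q ∈ D.W) (φ : ℝ) :
    SS D (nh φ) 0 := by
  obtain ⟨z, hz, hz2, hmin⟩ := wstar_min hq
  have hh : 0 < -(q 2) := by linarith [hq.1]
  rcases (by positivity : 0 ≤ z 0 ^ 2 + z 1 ^ 2).eq_or_lt with h0 | h0
  · have h00 : z 0 = 0 := by nlinarith [sq_nonneg (z 0), sq_nonneg (z 1)]
    have h01 : z 1 = 0 := by nlinarith [sq_nonneg (z 0), sq_nonneg (z 1)]
    have hzz : zc (nh φ) 0 (-(q 2)) = z := by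
      apply ext3
      · rw [zc_0, h00]; ring
      · rw [zc_1, h01]; ring
      · rw [zc_2, hz2]; ring
    exact s1 D (norm_nh φ) (nh_2 φ) le_rfl hh (by rw [hzz]; exact hz)
  · exfalso
    set a : ℝ := Real.sqrt (z 0 ^ 2 + z 1 ^ 2) with ha
    have ha0 : 0 < a := Real.sqrt_pos.mpr h0
    have ha2 : a ^ 2 = z 0 ^ 2 + z 1 ^ 2 := Real.sq_sqrt h0.le
    have hne : ‖(!₂[-(z 0) / a, -(z 1) / a, 0] : V3)‖ = 1 := by
      have h1 : ‖(!₂[-(z 0) / a, -(z 1) / a, 0] : V3)‖ ^ 2 = 1 := by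
        rw [nsq]
        simp only [Matrix.cons_val_zero, Matrix.cons_val_one, Matrix.cons_val]
        field_simp
        linarith
      nlinarith [norm_nonneg (!₂[-(z 0) / a, -(z 1) / a, 0] : V3)]
    obtain ⟨φ₀, hφ₀⟩ := exists_nh hne (by simp)
    have hc0 : Real.cos φ₀ = -(z 0) / a := by
      have h1 := congrArg (fun y : V3 => y 0) hφ₀
      simpa using h1
    have hs0 : Real.sin φ₀ = -(z 1) / a := by
      have h1 := congrArg (fun y : V3 => y 1) hφ₀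
      simpa using h1
    have hzz : zc (nh φ₀) a (-(q 2)) = z := by
      apply ext3
      · rw [zc_0, nh_0, hc0]; field_simp
      · rw [zc_1, nh_1, hs0]; field_simp
      · rw [zc_2, hz2]; ring
    have hz' : WStar D (zc (nh φ₀) a (-(q 2))) := by rw [hzz]; exact hz
    have hmin' : ∀ z' : V3, WStar D z' → z' 2 = -(-(q 2)) → a ^ 2 ≤ z' 0 ^ 2 + z' 1 ^ 2 := by
      intro z' h1 h2
      rw [ha2]
      exact hmin z' h1 (by linarith)
    have hcon : ∀ ψ : ℝ, 0 < Real.cos (ψ - φ₀) →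
        ∃ u : V2, ‖u‖ ≤ 1 ∧ refl (nh ψ) 0 (S.X u) ∉ S.Sig := fun ψ hψ =>
      sym_contra hq hqW ha0 hz' hmin' hψ
    have hS0 : SS D (nh φ₀) 0 := s1 D (norm_nh φ₀) (nh_2 φ₀) ha0.le hh hz'
    set A : Set ℝ := {ψ : ℝ | SS D (nh ψ) 0} with hA
    have hAc : IsClosed A := ss_closed D
    have hint : ∀ ψ ∈ A, |ψ - φ₀| < Real.pi / 2 → ψ ∈ interior A := by
      intro ψ h1 h2
      rw [mem_interior_iff_mem_nhds]
      refine rot_open D h1 (hcon ψ (Real.cos_pos_of_mem_Ioo ?_))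
      rw [abs_lt] at h2
      exact ⟨by linarith [h2.1], h2.2⟩
    have hsub : Ioo (φ₀ - Real.pi / 2) (φ₀ + Real.pi / 2) ⊆ interior A := by
      refine (isPreconnected_Ioo).subset_of_closure_inter_subset isOpen_interior ?_ ?_
      · refine ⟨φ₀, ⟨by linarith [Real.pi_pos], by linarith [Real.pi_pos]⟩, hint φ₀ hS0 ?_⟩
        simp [Real.pi_pos]
      · rintro ψ ⟨h1, h2⟩
        refine hint ψ ?_ ?_
        · have h3 : closure (interior A) ⊆ A :=
            (closure_mono interior_subset).trans hAc.closure_subset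
          exact h3 h1
        · rw [abs_lt]
          exact ⟨by linarith [h2.1], by linarith [h2.2]⟩
    have hSS : ∀ ψ : ℝ, |ψ - φ₀| < Real.pi / 2 → SS D (nh ψ) 0 := by
      intro ψ h1
      rw [abs_lt] at h1
      exact interior_subset (hsub ⟨by linarith [h1.1], by linarith [h1.2]⟩)
    have hmon : ∀ u v : V2, ‖u‖ = 1 → ‖v‖ = 1 → ⟪S.X v, nh φ₀⟫ < ⟪S.X u, nh φ₀⟫ →
        S.kk v ≤ S.kk u := by
      intro u v hu hv huv
      obtain ⟨hu2, hu1⟩ := S.bd1 hu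
      obtain ⟨hv2, hv1⟩ := S.bd1 hv
      obtain ⟨ψ, h1, h2, h3⟩ := swap_pt hu2 hu1 hv2 hv1 huv
      exact rotk_le D (hSS ψ h1) hu hv h2.symm h3
    obtain ⟨k0, hk0⟩ := blk D (norm_nh φ₀) (nh_2 φ₀) hmon
    obtain ⟨u₁, hu₁, hXu₁⟩ := (S.bd (nh φ₀)).mpr ⟨nh_2 φ₀, by rw [nh_0, nh_1]; exact Real.cos_sq_add_sin_sq φ₀⟩
    obtain ⟨v₁, hv₁, hXv₁⟩ := (S.bd (-(nh φ₀))).mpr ⟨by simp, by simp⟩
    have hnn : ⟪nh φ₀, nh φ₀⟫ = (1 : ℝ) := by
      rw [real_inner_self_eq_norm_sq, norm_nh]; norm_num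
    have hk1 : S.kk u₁ = k0 := hk0 u₁ hu₁ (by rw [hXu₁, hnn]; norm_num)
    have hk2 : S.kk v₁ = k0 := hk0 v₁ hv₁ (by rw [hXv₁, inner_neg_left, hnn]; norm_num)
    have hx : S.X v₁ = refl (nh φ₀) 0 (S.X u₁) := by
      rw [hXu₁, hXv₁]
      unfold refl
      rw [hnn]
      module
    obtain ⟨u, hu, hu'⟩ := hcon φ₀ (by simp)
    exact hu' (rotk_eq D hS0 hu₁ hv₁ hx (by rw [hXu₁, hnn]; norm_num) (hk2.trans hk1.symm) u hu)

end Pool.Agent.H99.SC

end S_MNO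

section S_RSA

/-!
# RSA: `SS` for all vertical planes through the axis: first consequences

Hypothesis `hS : ∀ φ, SS D (nh φ) 0`.
`ax1`: `⟪N u, TT (X u)⟫ = 0` for `‖u‖ < 1`.  If the horizontal part of `X u` is 0 then `TT (X u) = 0`.
Otherwise `e = TT (X u)/|TT (X u)|` is a horizontal unit vector, `e = nh φ` (`exists_nh`), `⟪e, X u⟫ = 0`: `ct3` gives
`⟪e, N u⟫ ≤ 0`, and the same for `-e = nh (φ + π)`.
`axis_pt`: some `‖u‖ < 1` has `X u` on the axis.  `- s E3 ∈ W` for small `s > 0` (`inD` at 0), `W` is bounded; let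
`T = sup {t : ∀ s ∈ (s₀, t), - s E3 ∈ W}`: `- T E3` is in the frontier, so in `S.Sig ∪ Disc`, not in `Disc`
(`T > 0`), so it is `X u`, and `‖u‖ < 1` (`bd1`).
`wg_lin`: `cr (DN a) (DX b) - cr (DN b) (DX a) = -2H cr (DX a) (DX b)` for all `a b` (`wg3`, bilinearity,
`V2_decomp`), `DN = fderiv N u`, `DX = fderiv X u`.
`dF`: for `‖u‖ < 1`, `⟪DN a, X'⟫ + ⟪N', DX a⟫ + 2H ⟪X', DX a⟫ = 0`, where `y' = y - (y 2) E3`.
Proof.  `⟪TT X, N⟫ = 0`, so `TT X = DX τ` (`tangent`).  Differentiate `⟪N x, TT (X x)⟫ = 0` (valid in the open disc) in the direction `a`: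
`⟪DN a, TT X⟫ + ⟪N, TT (DX a)⟫ = 0`, and `⟪N, TT w⟫ = - ⟪TT N, w⟫`.  So for all `a`:
`⟪DN τ, DX a⟫ = ⟪DN a, DX τ⟫` (`wg_symm`) `= ⟪DN a, TT X⟫ = ⟪TT N, DX a⟫`; both `DN τ` and `TT N` are
orthogonal to `N` (`wg2`), so `DN τ - TT N` is tangent (`tangent`) and orthogonal to all tangent vectors: `DN τ = TT N`.
`wg_lin` with `b = τ`: `cr (DN a) (TT X) - cr (TT N) (DX a) = -2H cr (DX a) (TT X)`.  Third coordinates: `(cr w (TT X)) 2
= w 0 X 0 + w 1 X 1` and `(cr (TT N) w) 2 = -(N 0 w 0 + N 1 w 1)`.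
-/


open scoped RealInnerProductSpace Topology
open Metric Filter Set


namespace Pool.Agent.H99.SC

/-- horizontal part -/
def hp (y : V3) : V3 := !₂[y 0, y 1, 0]

@[simp] theorem hp_0 (y : V3) : (hp y) 0 = y 0 := by simp [hp]
@[simp] theorem hp_1 (y : V3) : (hp y) 1 = y 1 := by simp [hp]
@[simp] theorem hp_2 (y : V3) : (hp y) 2 = 0 := by simp [hp]

theorem RSA_inner_hp (a b : V3) : ⟪a, hp b⟫ = a 0 * b 0 + a 1 * b 1 := by
  rw [ip]; simp

theorem RSA_hp_inner (a b : V3) : ⟪hp a, b⟫ = a 0 * b 0 + a 1 * b 1 := by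
  rw [ip]; simp

theorem RSA_inner_TT (a b : V3) : ⟪a, TT b⟫ = a 1 * b 0 - a 0 * b 1 := by
  rw [ip]; simp; ring

theorem ax1 {S : Surf} (D : Dom S) (hS : ∀ φ : ℝ, SS D (nh φ) 0) {u : V2} (hu : ‖u‖ < 1) :
    ⟪S.N u, TT (S.X u)⟫ = 0 := by
  by_cases h0 : TT (S.X u) = 0
  · rw [h0, inner_zero_right]
  have hc : 0 < ‖TT (S.X u)‖ := norm_pos_iff.2 h0
  have key : ∀ σ : ℝ, σ ^ 2 = 1 → σ * ⟪TT (S.X u), S.N u⟫ ≤ 0 := by
    intro σ hσ
    have hσ' : |σ| = 1 := by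
      rw [← sq_eq_sq₀ (abs_nonneg _) (by norm_num), sq_abs, hσ]; norm_num
    have he : ‖(σ * ‖TT (S.X u)‖⁻¹) • TT (S.X u)‖ = 1 := by
      rw [norm_smul, Real.norm_eq_abs, abs_mul, hσ', one_mul, abs_of_pos (by positivity),
        inv_mul_cancel₀ hc.ne']
    have he2 : ((σ * ‖TT (S.X u)‖⁻¹) • TT (S.X u)) 2 = 0 := by simp
    obtain ⟨φ, hφ⟩ := exists_nh he he2
    have hl : ⟪nh φ, S.X u⟫ = 0 := by
      rw [hφ, inner_smul_left, ip]
      simp
      right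
      ring
    have h1 := ct3 D (norm_nh φ) (hS φ) hu hl
    rw [hφ, inner_smul_left] at h1
    simp only [RCLike.conj_to_real] at h1
    have h2 : σ * ⟪TT (S.X u), S.N u⟫ =
        ‖TT (S.X u)‖ * (σ * ‖TT (S.X u)‖⁻¹ * ⟪TT (S.X u), S.N u⟫) := by
      field_simp
    rw [h2]
    exact mul_nonpos_of_nonneg_of_nonpos hc.le h1
  have h1 := key 1 (by norm_num)
  have h2 := key (-1) (by norm_num)
  rw [real_inner_comm]
  linarith

theorem axis_pt {S : Surf} (D : PreDom S) : ∃ u : V2, ‖u‖ < 1 ∧ (S.X u) 0 = 0 ∧ (S.X u) 1 = 0 := by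
  obtain ⟨ε, hε, hin⟩ := D.inD 0 (by simp) (by simp)
  obtain ⟨M, hM⟩ := D.bdd.exists_norm_le
  set A : Set V3 := (fun t : ℝ => (0 : V3) - t • E3) '' Ici (ε / 2) with hA
  have hAp : IsPreconnected A := by
    refine isPreconnected_Ici.image _ (Continuous.continuousOn ?_)
    fun_prop
  have hE3 : ‖E3‖ = 1 := by
    have h := nsq E3
    simp at h
    rcases h with h | h
    · exact h
    · have := norm_nonneg E3
      linarith
  have hne : ¬ Disjoint A (frontier D.W) := by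
    intro hd
    rcases sep D.isOpen hAp hd with h | h
    · have h1 : (0 : V3) - (max (ε / 2) (M + 1)) • E3 ∈ D.W :=
        h ⟨_, Set.mem_Ici.2 (le_max_left _ _), rfl⟩
      have h2 := hM _ h1
      rw [zero_sub, norm_neg, norm_smul, hE3, mul_one, Real.norm_eq_abs] at h2
      have h3 := le_max_right (ε / 2) (M + 1)
      have h4 := le_abs_self (max (ε / 2) (M + 1))
      linarith
    · have h1 : (0 : V3) - (ε / 2) • E3 ∈ (closure D.W)ᶜ := h ⟨_, self_mem_Ici, rfl⟩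
      exact h1 (subset_closure (hin (ε / 2) (by linarith) (by linarith)).1)
  obtain ⟨y, ⟨T, hT, hTy⟩, hy⟩ := Set.not_disjoint_iff.1 hne
  have hTy' : y = (0 : V3) - T • E3 := hTy.symm
  have y0 : y 0 = 0 := by rw [hTy']; simp
  have y1 : y 1 = 0 := by rw [hTy']; simp
  have y2 : y 2 = -T := by rw [hTy']; simp
  have hT' : ε / 2 ≤ T := hT
  rcases D.fr hy with ⟨u, hu, hXu⟩ | h
  · refine ⟨u, lt_of_le_of_ne hu fun h1 => ?_, by rw [hXu, y0], by rw [hXu, y1]⟩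
    have h2 := (S.bd1 h1).2
    rw [hXu, y0, y1] at h2
    norm_num at h2
  · have h2 := h.1
    rw [y2] at h2
    linarith

theorem RSA_dec (L : V2 →L[ℝ] V3) (a : V2) : L a = a 0 • L e0 + a 1 • L e1 := by
  rw [← map_smul, ← map_smul, ← map_add, ← V2_decomp a]

theorem wg_lin (S : Surf) {u : V2} (hu : ‖u‖ ≤ 1) (a b : V2) :
    cr (fderiv ℝ S.N u a) (fderiv ℝ S.X u b) - cr (fderiv ℝ S.N u b) (fderiv ℝ S.X u a)
      = (-2 * S.H) • cr (fderiv ℝ S.X u a) (fderiv ℝ S.X u b) := by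
  have h := S.wg3 hu
  have hn : nn S.X u = cr (fderiv ℝ S.X u e0) (fderiv ℝ S.X u e1) := rfl
  rw [hn] at h
  rw [RSA_dec (fderiv ℝ S.N u) a, RSA_dec (fderiv ℝ S.N u) b, RSA_dec (fderiv ℝ S.X u) a,
    RSA_dec (fderiv ℝ S.X u) b]
  set N0 := fderiv ℝ S.N u e0
  set N1 := fderiv ℝ S.N u e1
  set X0 := fderiv ℝ S.X u e0
  set X1 := fderiv ℝ S.X u e1
  have h0 := congrArg (fun v : V3 => v 0) h
  have h1 := congrArg (fun v : V3 => v 1) h
  have h2 := congrArg (fun v : V3 => v 2) h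
  simp at h0 h1 h2
  apply ext3
  · simp
    linear_combination (a 0 * b 1 - a 1 * b 0) * h0
  · simp
    linear_combination (a 0 * b 1 - a 1 * b 0) * h1
  · simp
    linear_combination (a 0 * b 1 - a 1 * b 0) * h2

theorem RSA_coord (i : Fin 3) {c : V2 → V3} {u : V2} (h : DifferentiableAt ℝ c u) :
    HasFDerivAt (fun x => (c x) i)
      ((EuclideanSpace.proj i : V3 →L[ℝ] ℝ).comp (fderiv ℝ c u)) u :=
  (EuclideanSpace.proj i : V3 →L[ℝ] ℝ).hasFDerivAt.comp u h.hasFDerivAt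

theorem RSA_diff (S : Surf) (hax : ∀ u : V2, ‖u‖ < 1 → ⟪S.N u, TT (S.X u)⟫ = 0) {u : V2}
    (hu : ‖u‖ < 1) (a : V2) :
    ⟪fderiv ℝ S.N u a, TT (S.X u)⟫ + ⟪S.N u, TT (fderiv ℝ S.X u a)⟫ = 0 := by
  have dN : DifferentiableAt ℝ S.N u := (S.smoothN hu.le).differentiableAt (by norm_num)
  have dX : DifferentiableAt ℝ S.X u := S.smooth.differentiable (by norm_num) u
  have h1 : (fun x => (S.N x) 1 * (S.X x) 0 - (S.N x) 0 * (S.X x) 1) =ᶠ[𝓝 u]
      fun _ => (0 : ℝ) := by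
    have : ∀ᶠ x : V2 in 𝓝 u, ‖x‖ < 1 := continuous_norm.continuousAt.eventually (gt_mem_nhds hu)
    filter_upwards [this] with x hx
    rw [← RSA_inner_TT]
    exact hax x hx
  have h2 := (((RSA_coord 1 dN).mul (RSA_coord 0 dX)).sub
    ((RSA_coord 0 dN).mul (RSA_coord 1 dX))).fderiv
  have h3 : fderiv ℝ (fun x => (S.N x) 1 * (S.X x) 0 - (S.N x) 0 * (S.X x) 1) u = _ := h2
  rw [h1.fderiv_eq] at h3
  have h4 := congrArg (fun T : V2 →L[ℝ] ℝ => T a) h3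
  simp at h4
  rw [RSA_inner_TT, RSA_inner_TT]
  linarith

theorem RSA_tau (S : Surf) (hax : ∀ u : V2, ‖u‖ < 1 → ⟪S.N u, TT (S.X u)⟫ = 0) {u : V2}
    (hu : ‖u‖ < 1) {τ : V2} (hτ : fderiv ℝ S.X u τ = TT (S.X u)) :
    fderiv ℝ S.N u τ = TT (S.N u) := by
  have h1 : ∀ a : V2, ⟪fderiv ℝ S.N u τ - TT (S.N u), fderiv ℝ S.X u a⟫ = 0 := by
    intro a
    rw [inner_sub_left, S.wg_symm hu.le, hτ]
    have h2 := RSA_diff S hax hu a
    have h3 : ⟪S.N u, TT (fderiv ℝ S.X u a)⟫ = -⟪TT (S.N u), fderiv ℝ S.X u a⟫ := by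
      rw [RSA_inner_TT, ip]
      simp
      ring
    linarith
  have h4 : ⟪fderiv ℝ S.N u τ - TT (S.N u), S.N u⟫ = 0 := by
    rw [inner_sub_left, S.wg2 hu.le]
    have : ⟪TT (S.N u), S.N u⟫ = 0 := by
      rw [ip]
      simp
      ring
    rw [this, sub_zero]
  obtain ⟨a, ha⟩ := S.tangent hu.le h4
  have h5 := h1 a
  rw [ha, real_inner_self_eq_norm_sq] at h5
  have h6 : ‖fderiv ℝ S.N u τ - TT (S.N u)‖ = 0 := by
    rcases pow_eq_zero_iff (n := 2) (by norm_num) |>.1 h5 with h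
    exact h
  exact sub_eq_zero.1 (norm_eq_zero.1 h6)

theorem dF (S : Surf) (hax : ∀ u : V2, ‖u‖ < 1 → ⟪S.N u, TT (S.X u)⟫ = 0) {u : V2}
    (hu : ‖u‖ < 1) (a : V2) :
    ⟪fderiv ℝ S.N u a, hp (S.X u)⟫ + ⟪hp (S.N u), fderiv ℝ S.X u a⟫
      + 2 * S.H * ⟪hp (S.X u), fderiv ℝ S.X u a⟫ = 0 := by
  have h0 : ⟪TT (S.X u), S.N u⟫ = 0 := by
    rw [real_inner_comm]
    exact hax u hu
  obtain ⟨τ, hτ⟩ := S.tangent hu.le h0
  have h1 := wg_lin S hu.le a τ
  rw [RSA_tau S hax hu hτ, hτ] at h1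
  have h2 := congrArg (fun v : V3 => v 2) h1
  simp at h2
  rw [RSA_inner_hp, RSA_hp_inner, RSA_hp_inner]
  linarith

end Pool.Agent.H99.SC

end S_RSA

section S_RSB

/-!
# RSB: rotational symmetry of the normal gives the sphere

Hypotheses: `hax : ⟪N u, TT (X u)⟫ = 0` on the open disc, and a point `u₀` of the open disc with `X u₀` on the axis.
`dF`: `F u = ⟪N u, hp (X u)⟫ + H ‖hp (X u)‖^2` has zero derivative on the open disc
(`dF` with `⟪N, hp (DX a)⟫ = ⟪hp N, DX a⟫`), so it is constant (`ball 0 1` is convex), `= F u₀ = 0`.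
`hpN`: `hp (N u) = - H hp (X u)` for `‖u‖ < 1`.  If `hp (X u) ≠ 0`: `hp N` is orthogonal to `TT X` in the
horizontal plane, hence `|X'|^2 N' = ⟪N',X'⟫ X' = - H |X'|^2 X'`.  If `hp (X u) = 0`: differentiate `hax`:
`⟪DN a, TT X⟫ + ⟪N, TT (DX a)⟫ = 0` with `TT X = 0`: `⟪TT N, DX a⟫ = 0` for all `a`, and `⟪TT N, N⟫ = 0`, so `TT N = 0`.
`sphere`: `M u = N u + H X u` has `M 0 = M 1 = 0`.  `DM a = m(a) E3`.  `⟪DM a, N⟫ = 0` (`wg2`, `N_orth`), so
`m(a) N_3 = 0`.  `⟪DM a, DX b⟫ = ⟪DM b, DX a⟫` (`wg_symm`): `m(a) (DX b) 2 = m(b) (DX a) 2`.  `wg_lin`: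
`cr (DM a) (DX b) - cr (DM b) (DX a) = 0`, i.e. `cr E3 (m(a) DX b - m(b) DX a) = 0`.  If `N_3 ≠ 0`: `m = 0`.  If
`N_3 = 0`: `v = m(e0) X_v - m(e1) X_u` has `v 0 = v 1 = 0` (third identity) and `v 2 = 0` (second), so `v = 0` and
`m(e0) = m(e1) = 0` (`fderiv_inj`).  So `DM = 0` on the open disc, `M` constant `= M₀` there and on the closed disc by
continuity; `X u - H⁻¹ M₀ = - H⁻¹ N u` has norm `H⁻¹`.
-/


open scoped RealInnerProductSpace Topology
open Metric Filter Set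


namespace Pool.Agent.H99.SC

/-- coordinates of the derivative -/
theorem RSB_coord {f : V2 → V3} {u : V2} (hf : DifferentiableAt ℝ f u) (i : Fin 3) :
    HasFDerivAt (fun v => (f v) i) ((EuclideanSpace.proj (𝕜 := ℝ) i).comp (fderiv ℝ f u)) u :=
  ((EuclideanSpace.proj (𝕜 := ℝ) i).hasFDerivAt (x := f u)).comp u hf.hasFDerivAt

theorem RSB_ball {u : V2} (hu : ‖u‖ < 1) : ball (0 : V2) 1 ∈ 𝓝 u :=
  isOpen_ball.mem_nhds (mem_ball_zero_iff.2 hu)

theorem RSB_F (S : Surf) (hax : ∀ u : V2, ‖u‖ < 1 → ⟪S.N u, TT (S.X u)⟫ = 0) {u : V2}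
    (hu : ‖u‖ < 1) :
    HasFDerivAt (fun v => S.N v 0 * S.X v 0 + S.N v 1 * S.X v 1 +
      S.H * (S.X v 0 ^ 2 + S.X v 1 ^ 2)) (0 : V2 →L[ℝ] ℝ) u := by
  have hX : DifferentiableAt ℝ S.X u :=
    (S.smooth.contDiffAt (x := u)).differentiableAt (by norm_num)
  have hN : DifferentiableAt ℝ S.N u := (S.smoothN hu.le).differentiableAt one_ne_zero
  have n0 := RSB_coord hN 0
  have n1 := RSB_coord hN 1
  have x0 := RSB_coord hX 0
  have x1 := RSB_coord hX 1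
  have h := ((n0.mul x0).add (n1.mul x1)).add (((x0.pow 2).add (x1.pow 2)).const_mul S.H)
  refine h.congr_fderiv ?_
  ext a
  have hd := dF S hax hu a
  simp only [ip, hp_0, hp_1, hp_2] at hd
  simp only [add_apply, smul_apply, ContinuousLinearMap.comp_apply, PiLp.proj_apply,
    smul_eq_mul, zero_apply]
  push_cast
  linear_combination hd

theorem hpN (S : Surf) (hax : ∀ u : V2, ‖u‖ < 1 → ⟪S.N u, TT (S.X u)⟫ = 0) {u₀ : V2}
    (hu₀ : ‖u₀‖ < 1) (h0 : (S.X u₀) 0 = 0) (h1 : (S.X u₀) 1 = 0) {u : V2} (hu : ‖u‖ < 1) :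
    hp (S.N u) = (-S.H) • hp (S.X u) := by
  have hF : S.N u 0 * S.X u 0 + S.N u 1 * S.X u 1 + S.H * (S.X u 0 ^ 2 + S.X u 1 ^ 2) = 0 := by
    have h2 := IsOpen.is_const_of_fderiv_eq_zero (𝕜 := ℝ) (s := ball (0 : V2) 1)
      (f := fun v => S.N v 0 * S.X v 0 + S.N v 1 * S.X v 1 + S.H * (S.X v 0 ^ 2 + S.X v 1 ^ 2))
      isOpen_ball (convex_ball _ _).isPreconnected
      (fun v hv => (RSB_F S hax (mem_ball_zero_iff.1 hv)).differentiableAt.differentiableWithinAt)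
      (fun v hv => (RSB_F S hax (mem_ball_zero_iff.1 hv)).fderiv)
      (mem_ball_zero_iff.2 hu) (mem_ball_zero_iff.2 hu₀)
    simp only [h0, h1] at h2
    rw [h2]
    ring
  have ht := hax u hu
  simp only [ip, TT_0, TT_1, TT_2] at ht
  have key : S.N u 0 = -S.H * S.X u 0 ∧ S.N u 1 = -S.H * S.X u 1 := by
    by_cases hx : S.X u 0 ^ 2 + S.X u 1 ^ 2 = 0
    · have hx0 : S.X u 0 = 0 := by nlinarith [sq_nonneg (S.X u 0), sq_nonneg (S.X u 1)]
      have hx1 : S.X u 1 = 0 := by nlinarith [sq_nonneg (S.X u 0), sq_nonneg (S.X u 1)]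
      have hX : DifferentiableAt ℝ S.X u :=
        (S.smooth.contDiffAt (x := u)).differentiableAt (by norm_num)
      have hN : DifferentiableAt ℝ S.N u := (S.smoothN hu.le).differentiableAt one_ne_zero
      have n0 := RSB_coord hN 0
      have n1 := RSB_coord hN 1
      have x0 := RSB_coord hX 0
      have x1 := RSB_coord hX 1
      have h2 := (n1.mul x0).sub (n0.mul x1)
      have h3 : HasFDerivAt (fun _ : V2 => (0 : ℝ)) (0 : V2 →L[ℝ] ℝ) u := hasFDerivAt_const _ _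
      have h4 : HasFDerivAt ((fun v => S.N v 1 * S.X v 0) - fun v => S.N v 0 * S.X v 1)
          (0 : V2 →L[ℝ] ℝ) u := by
        refine h3.congr_of_eventuallyEq ?_
        filter_upwards [RSB_ball hu] with v hv
        have h5 := hax v (mem_ball_zero_iff.1 hv)
        simp only [ip, TT_0, TT_1, TT_2] at h5
        simp only [Pi.sub_apply]
        linear_combination h5
      have h5 := h2.unique h4
      have h6 : ∀ a : V2, ⟪TT (S.N u), fderiv ℝ S.X u a⟫ = 0 := by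
        intro a
        have h7 := congrArg (fun L : V2 →L[ℝ] ℝ => L a) h5
        simp only [sub_apply, add_apply, smul_apply, ContinuousLinearMap.comp_apply,
          PiLp.proj_apply, smul_eq_mul, zero_apply, hx0, hx1] at h7
        simp only [ip, TT_0, TT_1, TT_2]
        linear_combination -h7
      have h7 : ⟪TT (S.N u), S.N u⟫ = 0 := by
        simp only [ip, TT_0, TT_1, TT_2]
        ring
      obtain ⟨a, ha⟩ := S.tangent hu.le h7
      have h8 := h6 a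
      rw [ha, real_inner_self_eq_norm_sq, nsq] at h8
      simp only [TT_0, TT_1, TT_2] at h8
      rw [hx0, hx1]
      constructor
      · nlinarith [sq_nonneg (S.N u 0), sq_nonneg (S.N u 1)]
      · nlinarith [sq_nonneg (S.N u 0), sq_nonneg (S.N u 1)]
    · constructor
      · refine mul_left_cancel₀ hx ?_
        linear_combination S.X u 0 * hF - S.X u 1 * ht
      · refine mul_left_cancel₀ hx ?_
        linear_combination S.X u 1 * hF + S.X u 0 * ht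
  apply ext3
  · simp only [hp_0, PiLp.smul_apply, smul_eq_mul]; exact key.1
  · simp only [hp_1, PiLp.smul_apply, smul_eq_mul]; exact key.2
  · simp

theorem sphere (S : Surf) (h : ∀ u : V2, ‖u‖ < 1 → hp (S.N u) = (-S.H) • hp (S.X u)) :
    ∃ c : V3, ∀ u : V2, ‖u‖ ≤ 1 → ‖S.X u - c‖ = S.H⁻¹ := by
  have hX : ∀ u : V2, DifferentiableAt ℝ S.X u := fun u =>
    (S.smooth.contDiffAt (x := u)).differentiableAt (by norm_num)
  have hN : ∀ u : V2, ‖u‖ < 1 → DifferentiableAt ℝ S.N u := fun u hu =>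
    (S.smoothN hu.le).differentiableAt one_ne_zero
  set M : V2 → V3 := fun u => S.N u + S.H • S.X u with hM
  have hMd : ∀ u : V2, ‖u‖ < 1 → HasFDerivAt M (fderiv ℝ S.N u + S.H • fderiv ℝ S.X u) u :=
    fun u hu => (hN u hu).hasFDerivAt.add ((hX u).hasFDerivAt.const_smul S.H)
  have hM01 : ∀ u : V2, ‖u‖ < 1 → M u 0 = 0 ∧ M u 1 = 0 := by
    intro u hu
    have h1 := h u hu
    have c0 := congrArg (fun v : V3 => v 0) h1
    have c1 := congrArg (fun v : V3 => v 1) h1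
    simp only [hp_0, hp_1, PiLp.smul_apply, smul_eq_mul] at c0 c1
    simp only [hM, PiLp.add_apply, PiLp.smul_apply, smul_eq_mul, c0, c1]
    constructor <;> ring
  have hcoord : ∀ u : V2, ‖u‖ < 1 → ∀ i : Fin 3, (∀ v : V2, ‖v‖ < 1 → M v i = 0) → ∀ a : V2,
      fderiv ℝ S.N u a i + S.H * fderiv ℝ S.X u a i = 0 := by
    intro u hu i hi a
    have h1 := RSB_coord (hMd u hu).differentiableAt i
    have h2 : HasFDerivAt (fun _ : V2 => (0 : ℝ)) (0 : V2 →L[ℝ] ℝ) u := hasFDerivAt_const _ _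
    have h3 : HasFDerivAt (fun v => M v i) (0 : V2 →L[ℝ] ℝ) u := by
      refine h2.congr_of_eventuallyEq ?_
      filter_upwards [RSB_ball hu] with v hv
      exact hi v (mem_ball_zero_iff.1 hv)
    have h4 := congrArg (fun L : V2 →L[ℝ] ℝ => L a) (h1.unique h3)
    rw [(hMd u hu).fderiv] at h4
    simpa using h4
  have hzero : ∀ u : V2, ‖u‖ < 1 → fderiv ℝ M u = 0 := by
    intro u hu
    have q0 := hcoord u hu 0 (fun v hv => (hM01 v hv).1)
    have q1 := hcoord u hu 1 (fun v hv => (hM01 v hv).2)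
    have hw := wg_lin S hu.le e0 e1
    have w0 := congrArg (fun v : V3 => v 0) hw
    have w1 := congrArg (fun v : V3 => v 1) hw
    simp only [PiLp.sub_apply, PiLp.smul_apply, smul_eq_mul, cr_0, cr_1] at w0 w1
    have hsym := S.wg_symm hu.le e0 e1
    simp only [ip] at hsym
    have a0 := q0 e0
    have a1 := q1 e0
    have b0 := q0 e1
    have b1 := q1 e1
    -- the vector `m(e0) e1 - m(e1) e0`
    have hv : fderiv ℝ S.X u ((fderiv ℝ S.N u e0 2 + S.H * fderiv ℝ S.X u e0 2) • e1 -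
        (fderiv ℝ S.N u e1 2 + S.H * fderiv ℝ S.X u e1 2) • e0) = 0 := by
      rw [map_sub, map_smul, map_smul]
      apply ext3
      · simp only [PiLp.sub_apply, PiLp.smul_apply, smul_eq_mul, PiLp.zero_apply]
        linear_combination w1 + (-fderiv ℝ S.X u e0 2) * b0 + fderiv ℝ S.X u e1 2 * a0
      · simp only [PiLp.sub_apply, PiLp.smul_apply, smul_eq_mul, PiLp.zero_apply]
        linear_combination -w0 + (-fderiv ℝ S.X u e0 2) * b1 + fderiv ℝ S.X u e1 2 * a1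
      · simp only [PiLp.sub_apply, PiLp.smul_apply, smul_eq_mul, PiLp.zero_apply]
        linear_combination hsym - fderiv ℝ S.X u e1 0 * a0 - fderiv ℝ S.X u e1 1 * a1 +
          fderiv ℝ S.X u e0 0 * b0 + fderiv ℝ S.X u e0 1 * b1
    have hv2 := S.fderiv_inj hu.le hv
    have m0 : fderiv ℝ S.N u e0 2 + S.H * fderiv ℝ S.X u e0 2 = 0 := by
      have := congrArg (fun v : V2 => v 1) hv2
      simpa using this
    have m1 : fderiv ℝ S.N u e1 2 + S.H * fderiv ℝ S.X u e1 2 = 0 := by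
      have := congrArg (fun v : V2 => v 0) hv2
      simp at this
      linarith
    rw [(hMd u hu).fderiv]
    have z0 : (fderiv ℝ S.N u + S.H • fderiv ℝ S.X u) e0 = 0 := by
      apply ext3
      · simpa using a0
      · simpa using a1
      · simpa using m0
    have z1 : (fderiv ℝ S.N u + S.H • fderiv ℝ S.X u) e1 = 0 := by
      apply ext3
      · simpa using b0
      · simpa using b1
      · simpa using m1
    refine ContinuousLinearMap.ext fun a => ?_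
    rw [V2_decomp a, map_add, map_smul, map_smul, z0, z1]
    simp
  have hconst : ∀ u : V2, ‖u‖ < 1 → M u = M 0 := by
    intro u hu
    exact IsOpen.is_const_of_fderiv_eq_zero (𝕜 := ℝ) (s := ball (0 : V2) 1) isOpen_ball
      (convex_ball _ _).isPreconnected
      (fun v hv => (hMd v (mem_ball_zero_iff.1 hv)).differentiableAt.differentiableWithinAt)
      (fun v hv => hzero v (mem_ball_zero_iff.1 hv)) (mem_ball_zero_iff.2 hu)
      (mem_ball_self one_pos)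
  have hH := S.Hpos
  refine ⟨S.H⁻¹ • M 0, fun u hu => ?_⟩
  have hcl : IsClosed {u : V2 | ‖S.X u - S.H⁻¹ • M 0‖ = S.H⁻¹} :=
    isClosed_eq ((S.smooth.continuous.sub continuous_const).norm) continuous_const
  have hsub : ball (0 : V2) 1 ⊆ {u : V2 | ‖S.X u - S.H⁻¹ • M 0‖ = S.H⁻¹} := by
    intro v hv
    have hv' := mem_ball_zero_iff.1 hv
    have h1 : S.X v - S.H⁻¹ • M 0 = -(S.H⁻¹ • S.N v) := by
      rw [← hconst v hv', hM]
      simp only
      rw [smul_add, smul_smul, inv_mul_cancel₀ hH.ne', one_smul]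
      abel
    change ‖S.X v - S.H⁻¹ • M 0‖ = S.H⁻¹
    rw [h1, norm_neg, norm_smul, S.N_norm hv'.le, mul_one, Real.norm_of_nonneg (by positivity)]
  have hcl2 := hcl.closure_subset_iff.2 hsub
  rw [closure_ball (0 : V2) one_ne_zero] at hcl2
  exact hcl2 (mem_closedBall_zero_iff.2 hu)

theorem rotsph {S : Surf} (D : Dom S) (hS : ∀ φ : ℝ, SS D (nh φ) 0) :
    ∃ c : V3, ∀ u : V2, ‖u‖ ≤ 1 → ‖S.X u - c‖ = S.H⁻¹ := by
  obtain ⟨u₀, hu₀, h0, h1⟩ := axis_pt D.toPreDom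
  exact sphere S fun u hu => hpN S (fun v hv => ax1 D hS hv) hu₀ h0 h1 hu

end Pool.Agent.H99.SC

end S_RSB
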