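import Mathlib
import Pool.Agent.H99.SCM.M1
import Pool.Agent.H99.SCM.M3
import Pool.Agent.H99.SCM.M6

/-! Star-shaped CMC discs (S14043), file M9: joins several modules to save build time. -/

set_option autoImplicit false

noncomputable section

section S_OPM

/-!
# OPM: an injective C^1 map of the plane with nonzero derivative is open at the point

`G` C^1 at `u₀`, injective near `u₀`, `DG(u₀) ≠ 0` (rank 1 is allowed).  Then the image of every ball about `u₀` is a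
neighbourhood of `G u₀`.
Proof.  Choose `a` with `DG a ≠ 0` and the functional `ℓ = ⟪DG a, ·⟫` on the target; `x = ℓ ∘ G`, `Dx(u₀) ≠ 0`.
Let `b ≠ 0` be in the kernel of `Dx(u₀)` and `m = ⟪b,·⟫`.  `Ψ u = (x u, m u) : V2 → ℝ × ℝ` is C^1 and
`DΨ(u₀)` is injective (if `Dx v = 0` then `v` is a multiple of `b`, and `m b > 0`), hence invertible (dimension 2).
Inverse function theorem: local inverse `Φ`, continuous near `(x₀,y₀) = Ψ u₀`.  Let `k = ⟪rot (DG a), ·⟫` and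
`g (x,y) = k (G (Φ (x,y)))`; `ℓ (G (Φ (x,y))) = x`.  Given `ε`, choose `δ > 0` such that the closed box of size `δ` about
`(x₀,y₀)` is in the domain and `Φ` maps it into the ball of radius `min ε r` about `u₀`.  For each `x` the function
`y ↦ g (x,y)` is injective and continuous on `[y₀-δ, y₀+δ]` (`G`, `Φ` injective).  For `x = x₀` it is strictly monotone
(`ContinuousOn.strictMonoOn_of_injOn_Icc'`), so `g(x₀,y₀-δ)` and `g(x₀,y₀+δ)` are strictly on opposite sides of `g(x₀,y₀)`; by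
continuity `c` is between `g(x,y₀-δ)` and `g(x,y₀+δ)` for `(x,c)` near `(x₀, g(x₀,y₀))`, and the intermediate value theorem gives `y`
with `g(x,y) = c`.  For `z` near `G u₀` apply this to `x = ℓ z`, `c = k z`: `ℓ, k` separate points of V2, so
`z = G (Φ (x,y))`.
-/


open scoped RealInnerProductSpace Topology
open Metric Filter Set


namespace Pool.Agent.H99.SC

/-- a functional complementary to a nonzero one -/
theorem opm_compl (f : V2 →L[ℝ] ℝ) (hf : f ≠ 0) :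
    ∃ g : V2 →L[ℝ] ℝ, ∀ v, f v = 0 → g v = 0 → v = 0 := by
  have hexp : ∀ v : V2, f v = v 0 * f e0 + v 1 * f e1 := by
    intro v
    have h1 : v = v 0 • e0 + v 1 • e1 := by
      ext i
      fin_cases i <;> simp [e0, e1]
    conv_lhs => rw [h1]
    simp
  let π : Fin 2 → (V2 →L[ℝ] ℝ) := fun i => EuclideanSpace.proj i
  refine ⟨(f e0) • π 1 - (f e1) • π 0, ?_⟩
  intro v h1 h2
  have h3 : f e0 * v 1 - f e1 * v 0 = 0 := by
    simpa [π] using h2
  rw [hexp v] at h1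
  have h4 : f e0 ^ 2 + f e1 ^ 2 ≠ 0 := by
    intro h
    apply hf
    have h5 : f e0 = 0 := by nlinarith [sq_nonneg (f e0), sq_nonneg (f e1)]
    have h6 : f e1 = 0 := by nlinarith [sq_nonneg (f e0), sq_nonneg (f e1)]
    ext w
    rw [hexp w, h5, h6]
    simp
  have h5 : (f e0 ^ 2 + f e1 ^ 2) * v 0 = 0 := by linear_combination f e0 * h1 - f e1 * h3
  have h6 : (f e0 ^ 2 + f e1 ^ 2) * v 1 = 0 := by linear_combination f e1 * h1 + f e0 * h3
  have h7 := (mul_eq_zero.1 h5).resolve_left h4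
  have h8 := (mul_eq_zero.1 h6).resolve_left h4
  ext i
  fin_cases i
  · exact h7
  · exact h8

/-- two complementary functionals give an isomorphism -/
theorem opm_equiv (f g : V2 →L[ℝ] ℝ) (h : ∀ v, f v = 0 → g v = 0 → v = 0) :
    ∃ E : V2 ≃L[ℝ] (ℝ × ℝ), (E : V2 →L[ℝ] (ℝ × ℝ)) = f.prod g := by
  let F : V2 →ₗ[ℝ] (ℝ × ℝ) := (f.prod g : V2 →L[ℝ] (ℝ × ℝ))
  have hinj : Function.Injective F := by
    rw [injective_iff_map_eq_zero]
    intro v hv
    have h1 : (f v, g v) = ((0 : ℝ), (0 : ℝ)) := hv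
    rw [Prod.mk.injEq] at h1
    exact h v h1.1 h1.2
  have hfr : Module.finrank ℝ V2 = Module.finrank ℝ (ℝ × ℝ) := by
    rw [Module.finrank_prod, finrank_euclideanSpace]
    simp
  let E0 := LinearEquiv.ofInjectiveOfFinrankEq F hinj hfr
  refine ⟨E0.toContinuousLinearEquiv, ?_⟩
  ext v <;> rfl

/-- The essential step: `k ∘ G ∘ Φ` covers. -/
theorem opm_core {g : ℝ → ℝ → ℝ} {x₀ y₀ δ : ℝ} (hδ : 0 < δ)
    (hcx : ∀ y ∈ Icc (y₀ - δ) (y₀ + δ), ContinuousOn (fun x => g x y) (Icc (x₀ - δ) (x₀ + δ)))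
    (hcy : ∀ x ∈ Icc (x₀ - δ) (x₀ + δ), ContinuousOn (g x) (Icc (y₀ - δ) (y₀ + δ)))
    (hinj : InjOn (g x₀) (Icc (y₀ - δ) (y₀ + δ))) :
    ∀ᶠ p : ℝ × ℝ in 𝓝 (x₀, g x₀ y₀), p.1 ∈ Icc (x₀ - δ) (x₀ + δ) ∧
      ∃ y ∈ Icc (y₀ - δ) (y₀ + δ), g p.1 y = p.2 := by
  have hx₀ : x₀ ∈ Icc (x₀ - δ) (x₀ + δ) := ⟨by linarith, by linarith⟩
  have hy₀ : y₀ ∈ Icc (y₀ - δ) (y₀ + δ) := ⟨by linarith, by linarith⟩
  have hym : y₀ - δ ∈ Icc (y₀ - δ) (y₀ + δ) := ⟨by linarith, by linarith⟩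
  have hyp : y₀ + δ ∈ Icc (y₀ - δ) (y₀ + δ) := ⟨by linarith, by linarith⟩
  have hle : y₀ - δ ≤ y₀ + δ := by linarith
  have hnx : Icc (x₀ - δ) (x₀ + δ) ∈ 𝓝 x₀ := Icc_mem_nhds (by linarith) (by linarith)
  have hc : ∀ y ∈ Icc (y₀ - δ) (y₀ + δ),
      ContinuousAt (fun p : ℝ × ℝ => g p.1 y) (x₀, g x₀ y₀) := by
    intro y hy
    have h1 : ContinuousAt (fun x => g x y) x₀ := (hcx y hy).continuousAt hnx
    exact ContinuousAt.comp (f := fun p : ℝ × ℝ => p.1) (g := fun x => g x y)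
      (x := (x₀, g x₀ y₀)) h1 continuousAt_fst
  have hsnd : ContinuousAt (fun p : ℝ × ℝ => p.2) (x₀, g x₀ y₀) := continuousAt_snd
  have hfst : ∀ᶠ p : ℝ × ℝ in 𝓝 (x₀, g x₀ y₀), p.1 ∈ Icc (x₀ - δ) (x₀ + δ) :=
    (continuousAt_fst (p := (x₀, g x₀ y₀))).eventually hnx
  rcases (hcy x₀ hx₀).strictMonoOn_of_injOn_Icc' hle hinj with hm | hm
  · have h1 : g x₀ (y₀ - δ) < g x₀ y₀ := hm hym hy₀ (by linarith)
    have h2 : g x₀ y₀ < g x₀ (y₀ + δ) := hm hy₀ hyp (by linarith)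
    have e1 := (hc _ hym).eventually_lt hsnd h1
    have e2 := hsnd.eventually_lt (hc _ hyp) h2
    filter_upwards [e1, e2, hfst] with p hp1 hp2 hp3
    refine ⟨hp3, ?_⟩
    obtain ⟨y, hy, hyy⟩ := intermediate_value_Icc hle (hcy p.1 hp3) ⟨hp1.le, hp2.le⟩
    exact ⟨y, hy, hyy⟩
  · have h1 : g x₀ y₀ < g x₀ (y₀ - δ) := hm hym hy₀ (by linarith)
    have h2 : g x₀ (y₀ + δ) < g x₀ y₀ := hm hy₀ hyp (by linarith)
    have e1 := hsnd.eventually_lt (hc _ hym) h1
    have e2 := (hc _ hyp).eventually_lt hsnd h2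
    filter_upwards [e1, e2, hfst] with p hp1 hp2 hp3
    refine ⟨hp3, ?_⟩
    obtain ⟨y, hy, hyy⟩ := intermediate_value_Icc' hle (hcy p.1 hp3) ⟨hp2.le, hp1.le⟩
    exact ⟨y, hy, hyy⟩

theorem opm {G : V2 → V2} {u₀ : V2} (hG : ContDiffAt ℝ 1 G u₀) (hD : fderiv ℝ G u₀ ≠ 0) {r : ℝ}
    (hr : 0 < r) (hinj : Set.InjOn G (ball u₀ r)) {ε : ℝ} (hε : 0 < ε) :
    G '' (ball u₀ ε) ∈ 𝓝 (G u₀) := by
  set L : V2 →L[ℝ] V2 := fderiv ℝ G u₀ with hL
  obtain ⟨a, ha⟩ : ∃ a, L a ≠ 0 := by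
    by_contra h
    push Not at h
    exact hD (ContinuousLinearMap.ext h)
  -- functionals on the target
  let ℓ : V2 →L[ℝ] ℝ := innerSL ℝ (L a)
  have hℓ : ℓ (L a) ≠ 0 := by
    show ⟪L a, L a⟫ ≠ 0
    rw [real_inner_self_eq_norm_sq]
    exact pow_ne_zero 2 (norm_ne_zero_iff.2 ha)
  have hℓ0 : ℓ ≠ 0 := fun h => hℓ (by rw [h]; rfl)
  obtain ⟨k, hk⟩ := opm_compl ℓ hℓ0
  have hℓL : ℓ.comp L ≠ 0 := fun h => hℓ (by
    have := congrArg (fun F : V2 →L[ℝ] ℝ => F a) h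
    simpa using this)
  obtain ⟨m, hm⟩ := opm_compl (ℓ.comp L) hℓL
  obtain ⟨E, hE⟩ := opm_equiv _ m hm
  have hsep : ∀ z z' : V2, ℓ z = ℓ z' → k z = k z' → z = z' := by
    intro z z' h1 h2
    have := hk (z - z') (by rw [map_sub, h1, sub_self]) (by rw [map_sub, h2, sub_self])
    exact sub_eq_zero.1 this
  -- the map `Ψ`
  let Ψ : V2 → ℝ × ℝ := fun u => (ℓ (G u), m u)
  have hΨc : ContDiffAt ℝ 1 Ψ u₀ :=
    (ℓ.contDiff.contDiffAt.comp u₀ hG).prodMk m.contDiff.contDiffAt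
  have hGd : HasFDerivAt G L u₀ := (hG.differentiableAt (by norm_num)).hasFDerivAt
  have hΨd : HasFDerivAt Ψ (E : V2 →L[ℝ] (ℝ × ℝ)) u₀ := by
    rw [hE]
    exact (ℓ.hasFDerivAt.comp u₀ hGd).prodMk m.hasFDerivAt
  let e := hΨc.toOpenPartialHomeomorph Ψ hΨd (by norm_num)
  have hsrc : u₀ ∈ e.source := hΨc.mem_toOpenPartialHomeomorph_source hΨd (by norm_num)
  have htgt : Ψ u₀ ∈ e.target := hΨc.image_mem_toOpenPartialHomeomorph_target hΨd (by norm_num)
  have heq : ∀ u, e u = Ψ u := fun _ => rfl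
  let Φ : ℝ × ℝ → V2 := e.symm
  have hΦ0 : Φ (Ψ u₀) = u₀ := e.left_inv hsrc
  have hΨΦ : ∀ p ∈ e.target, Ψ (Φ p) = p := fun p hp => e.right_inv hp
  have hΦc : ContinuousOn Φ e.target := e.continuousOn_symm
  -- the neighbourhood where `G` is continuous
  obtain ⟨r', hr', hGc⟩ : ∃ r' > 0, ContinuousOn G (ball u₀ r') := by
    have h1 : ∀ᶠ u in 𝓝 u₀, ContDiffAt ℝ 1 G u := hG.eventually (by norm_num)
    obtain ⟨r', hr', h2⟩ := Metric.eventually_nhds_iff_ball.1 h1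
    exact ⟨r', hr', fun u hu => (h2 u hu).continuousAt.continuousWithinAt⟩
  set ρ : ℝ := min (min ε r) r' with hρ
  have hρ0 : 0 < ρ := lt_min (lt_min hε hr) hr'
  -- the box
  obtain ⟨δ, hδ, hbox⟩ : ∃ δ > 0, ∀ p ∈ closedBall (Ψ u₀) δ, p ∈ e.target ∧ Φ p ∈ ball u₀ ρ := by
    have h1 : e.target ∈ 𝓝 (Ψ u₀) := e.open_target.mem_nhds htgt
    have h2 : ContinuousAt Φ (Ψ u₀) := hΦc.continuousAt h1
    have h3 : Φ ⁻¹' (ball u₀ ρ) ∈ 𝓝 (Ψ u₀) := by
      apply h2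
      rw [hΦ0]
      exact ball_mem_nhds _ hρ0
    obtain ⟨δ, hδ, h4⟩ := Metric.nhds_basis_closedBall.mem_iff.1 (Filter.inter_mem h1 h3)
    exact ⟨δ, hδ, fun p hp => h4 hp⟩
  obtain ⟨x₀, y₀, hxy⟩ : ∃ x₀ y₀ : ℝ, Ψ u₀ = (x₀, y₀) := ⟨_, _, rfl⟩
  have hmem : ∀ x ∈ Icc (x₀ - δ) (x₀ + δ), ∀ y ∈ Icc (y₀ - δ) (y₀ + δ),
      (x, y) ∈ closedBall (Ψ u₀) δ := by
    intro x hx y hy
    rw [hxy, mem_closedBall, Prod.dist_eq, max_le_iff, Real.dist_eq, Real.dist_eq, abs_le, abs_le]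
    exact ⟨⟨by linarith [hx.1], by linarith [hx.2]⟩, ⟨by linarith [hy.1], by linarith [hy.2]⟩⟩
  have hρε : ball u₀ ρ ⊆ ball u₀ ε := ball_subset_ball ((min_le_left _ _).trans (min_le_left _ _))
  have hρr : ball u₀ ρ ⊆ ball u₀ r := ball_subset_ball ((min_le_left _ _).trans (min_le_right _ _))
  have hρr' : ball u₀ ρ ⊆ ball u₀ r' := ball_subset_ball (min_le_right _ _)
  let g : ℝ → ℝ → ℝ := fun x y => k (G (Φ (x, y)))
  have hcont : ContinuousOn (fun p => k (G (Φ p))) (closedBall (Ψ u₀) δ) := by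
    apply k.continuous.comp_continuousOn
    apply hGc.comp (hΦc.mono fun p hp => (hbox p hp).1)
    intro p hp
    exact hρr' (hbox p hp).2
  have hG0 : g x₀ y₀ = k (G u₀) := by
    show k (G (Φ (x₀, y₀))) = _
    rw [← hxy, hΦ0]
  have hx₀ : x₀ = ℓ (G u₀) := by
    have : (Ψ u₀).1 = x₀ := by rw [hxy]
    exact this.symm
  have hx₀m : x₀ ∈ Icc (x₀ - δ) (x₀ + δ) := ⟨by linarith, by linarith⟩
  have hcore := opm_core (g := g) (x₀ := x₀) (y₀ := y₀) hδ
    (fun y hy => hcont.comp (by fun_prop) (fun x hx => hmem x hx y hy))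
    (fun x hx => hcont.comp (by fun_prop) (fun y hy => hmem x hx y hy))
    (by
      intro y hy y' hy' hyy
      have h1 := hbox _ (hmem x₀ hx₀m y hy)
      have h2 := hbox _ (hmem x₀ hx₀m y' hy')
      have e1 : ℓ (G (Φ (x₀, y))) = x₀ := congrArg Prod.fst (hΨΦ _ h1.1)
      have e2 : ℓ (G (Φ (x₀, y'))) = x₀ := congrArg Prod.fst (hΨΦ _ h2.1)
      have h3 := hsep _ _ (e1.trans e2.symm) hyy
      have h4 := hinj (hρr h1.2) (hρr h2.2) h3
      have h5 : Ψ (Φ (x₀, y)) = Ψ (Φ (x₀, y')) := by rw [h4]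
      rw [hΨΦ _ h1.1, hΨΦ _ h2.1] at h5
      exact congrArg Prod.snd h5)
  have hlk : ContinuousAt (fun z : V2 => (ℓ z, k z)) (G u₀) :=
    (ℓ.continuous.prodMk k.continuous).continuousAt
  have hev := hlk.eventually (p := fun p : ℝ × ℝ => p.1 ∈ Icc (x₀ - δ) (x₀ + δ) ∧
      ∃ y ∈ Icc (y₀ - δ) (y₀ + δ), g p.1 y = p.2) (by
    show ∀ᶠ p : ℝ × ℝ in 𝓝 (ℓ (G u₀), k (G u₀)), _
    rw [← hx₀, ← hG0]
    exact hcore)
  filter_upwards [hev] with z hz
  obtain ⟨hz1, y, hy, hzy⟩ := hz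
  have h1 := hbox _ (hmem _ hz1 y hy)
  refine ⟨Φ (ℓ z, y), hρε h1.2, ?_⟩
  exact hsep _ _ (congrArg Prod.fst (hΨΦ _ h1.1)) hzy

end Pool.Agent.H99.SC

end S_OPM

section S_OPR

/-!
# OPR: the central projection of a star-shaped surface is open

`star_not_mem`: if `q = X u`, take `v ≠ u` in the closed disc, `w = X v - q ≠ 0` (`inj`), `s = 0`, `t = 1`.
`star_unique`: `StarAt` with `s = τ`, `t = σ`; then `X u = X v` and `inj`.
`opr`: `q + τ₀ (Y₀ - q) = X u₀`, `‖u₀‖ < 1`.  `d = (X u₀ - q)/|X u₀ - q|`; choose unit vectors `a, b` with `a, b, d`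
orthonormal.  `G u = !₂[⟪a, X u - q⟫/⟪d, X u - q⟫, ⟪b, X u - q⟫/⟪d, X u - q⟫]`, C^2 near `u₀` (`⟪d, X u₀ - q⟫ > 0`).
Injective near `u₀`: `G u = G u'` means that `X u - q` and `X u' - q` are positive multiples of each other (in the basis
`a, b, d`), so `u = u'` by `star_unique`.  `DG(u₀) v = !₂[⟪a, DX v⟫, ⟪b, DX v⟫]/⟪d, X u₀ - q⟫` (`⟪a, X u₀ - q⟫ = 0`), and if
it were 0 for all `v` then all `DX v` would be multiples of `d`, against `fderiv_inj` (or `cr (X_u) (X_v) ≠ 0`).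
`opm`: for `Y` near `Y₀`, `!₂[⟪a,Y-q⟫/⟪d,Y-q⟫, ⟪b,Y-q⟫/⟪d,Y-q⟫]` is near `0 = G u₀`, hence `= G u` with `u` as near `u₀` as
we want, `‖u‖ < 1`; then `X u - q = τ (Y - q)` with `τ = ⟪d, X u - q⟫/⟪d, Y - q⟫`, near
`⟪d, X u₀ - q⟫/⟪d, Y₀ - q⟫ = τ₀`.
-/


open scoped RealInnerProductSpace Topology
open Metric Filter Set


namespace Pool.Agent.H99.SC

theorem star_not_mem {S : Surf} {q : V3} (hq : StarAt S q) : q ∉ S.Sig := by
  rintro ⟨u, hu, rfl⟩
  have key : ∃ v : V2, ‖v‖ ≤ 1 ∧ v ≠ u := by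
    by_cases h : u = 0
    · refine ⟨e0, ?_, ?_⟩
      · have : ‖e0‖ = 1 := by simp [e0]
        exact this.le
      · rw [h]
        intro h2
        have := congrArg (fun w : V2 => w 0) h2
        simp at this
    · exact ⟨0, by simp, fun h2 => h h2.symm⟩
  obtain ⟨v, hv, hvu⟩ := key
  have hw : S.X v - S.X u ≠ 0 := by
    intro h
    exact hvu (S.inj v u hv hu (sub_eq_zero.1 h))
  have h := hq (S.X v - S.X u) hw 0 1 le_rfl zero_le_one
    (by rw [zero_smul, add_zero]; exact S.mem_Sig hu)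
    (by rw [one_smul, add_sub_cancel]; exact S.mem_Sig hv)
  exact zero_ne_one h

theorem star_unique {S : Surf} {q : V3} (hq : StarAt S q) {u v : V2} (hu : ‖u‖ ≤ 1)
    (hv : ‖v‖ ≤ 1) {w : V3} {τ σ : ℝ} (hτ : 0 < τ) (hσ : 0 < σ) (h1 : q + τ • w = S.X u)
    (h2 : q + σ • w = S.X v) : τ = σ ∧ u = v := by
  have hw : w ≠ 0 := by
    intro hw
    rw [hw, smul_zero, add_zero] at h1
    exact star_not_mem hq (h1 ▸ S.mem_Sig hu)
  have h : τ = σ := hq w hw τ σ hτ.le hσ.le (h1 ▸ S.mem_Sig hu) (h2 ▸ S.mem_Sig hv)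
  refine ⟨h, S.inj u v hu hv ?_⟩
  rw [← h1, ← h2, h]

/-- two vectors `a`, `b` such that `a`, `b`, `d` is an orthogonal basis -/
theorem opr_basis {d : V3} (hd : d ≠ 0) : ∃ a b : V3, ⟪a, d⟫ = 0 ∧ ⟪b, d⟫ = 0 ∧
    ∀ v : V3, ⟪a, v⟫ = 0 → ⟪b, v⟫ = 0 → ∃ t : ℝ, v = t • d := by
  have key : ∃ c : V3, cr d c ≠ 0 := by
    by_contra h
    push Not at h
    have h0 := h (EuclideanSpace.single 0 1)
    have h1 := h (EuclideanSpace.single 1 1)
    apply hd
    have a1 := congrArg (fun w : V3 => w 1) h0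
    have a2 := congrArg (fun w : V3 => w 2) h0
    have a3 := congrArg (fun w : V3 => w 2) h1
    simp at a1 a2 a3
    apply ext3
    · simpa using a3
    · simpa using a2
    · simpa using a1
  obtain ⟨c, hc⟩ := key
  refine ⟨cr d c, cr d (cr d c), cr_inner_left _ _, cr_inner_left _ _, ?_⟩
  intro v h1 h2
  have hda : ⟪d, cr d c⟫ = 0 := by rw [real_inner_comm]; exact cr_inner_left _ _
  have hdec := decomp d (cr d c) v
  have hb : ‖cr d (cr d c)‖ ^ 2 = ‖d‖ ^ 2 * ‖cr d c‖ ^ 2 := by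
    rw [cr_norm_sq, hda]
    ring
  rw [real_inner_comm] at h1 h2
  rw [h1, h2, hda, hb] at hdec
  have hd' : 0 < ‖d‖ := norm_pos_iff.2 hd
  have hc' : 0 < ‖cr d c‖ := norm_pos_iff.2 hc
  have hne : ‖d‖ ^ 2 * ‖cr d c‖ ^ 2 ≠ 0 := by positivity
  refine ⟨(‖d‖ ^ 2 * ‖cr d c‖ ^ 2)⁻¹ * (‖cr d c‖ ^ 2 * ⟪v, d⟫), ?_⟩
  have h3 : v = (‖d‖ ^ 2 * ‖cr d c‖ ^ 2)⁻¹ • ((‖d‖ ^ 2 * ‖cr d c‖ ^ 2) • v) := by
    rw [smul_smul, inv_mul_cancel₀ hne, one_smul]
  have h4 : (‖d‖ ^ 2 * ‖cr d c‖ ^ 2) • v = (‖cr d c‖ ^ 2 * ⟪v, d⟫) • d := by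
    rw [hdec]
    simp only [zero_smul, mul_zero, sub_zero, zero_mul, zero_add, add_zero]
  rw [← smul_smul, ← h4]
  exact h3

/-- the central projection in coordinates -/
def opr_P (a b d q : V3) (y : V3) : V2 := !₂[⟪a, y - q⟫ / ⟪d, y - q⟫, ⟪b, y - q⟫ / ⟪d, y - q⟫]

theorem opr_P0 (a b d q y : V3) : opr_P a b d q y 0 = ⟪a, y - q⟫ / ⟪d, y - q⟫ := by
  simp [opr_P]

theorem opr_P1 (a b d q y : V3) : opr_P a b d q y 1 = ⟪b, y - q⟫ / ⟪d, y - q⟫ := by
  simp [opr_P]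

theorem opr_P_smooth (a b d q : V3) {f : V2 → V3} {u : V2} (hf : ContDiffAt ℝ 2 f u)
    (h : ⟪d, f u - q⟫ ≠ 0) : ContDiffAt ℝ 2 (fun u => opr_P a b d q (f u)) u := by
  rw [contDiffAt_euclidean]
  intro i
  have h1 : ContDiffAt ℝ 2 (fun u => f u - q) u := hf.sub contDiffAt_const
  fin_cases i
  · simp only [Fin.zero_eta, opr_P0]
    exact (contDiffAt_const.inner ℝ h1).div (contDiffAt_const.inner ℝ h1) h
  · simp only [Fin.mk_one, opr_P1]
    exact (contDiffAt_const.inner ℝ h1).div (contDiffAt_const.inner ℝ h1) h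

theorem opr_P_cont (a b d q : V3) {y : V3} (h : ⟪d, y - q⟫ ≠ 0) :
    ContinuousAt (opr_P a b d q) y := by
  have h1 : ContDiffAt ℝ 2 (opr_P a b d q) y := by
    rw [contDiffAt_euclidean]
    intro i
    have h1 : ContDiffAt ℝ 2 (fun u : V3 => u - q) y := contDiffAt_id.sub contDiffAt_const
    fin_cases i
    · simp only [Fin.zero_eta, opr_P0]
      exact (contDiffAt_const.inner ℝ h1).div (contDiffAt_const.inner ℝ h1) h
    · simp only [Fin.mk_one, opr_P1]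
      exact (contDiffAt_const.inner ℝ h1).div (contDiffAt_const.inner ℝ h1) h
  exact h1.continuousAt

/-- points with the same projection are on the same ray -/
theorem opr_ray {a b d q : V3} (hd : d ≠ 0)
    (hbas : ∀ v : V3, ⟪a, v⟫ = 0 → ⟪b, v⟫ = 0 → ∃ t : ℝ, v = t • d) {y z : V3}
    (hy : 0 < ⟪d, y - q⟫) (hz : 0 < ⟪d, z - q⟫) (h : opr_P a b d q y = opr_P a b d q z) :
    q + (⟪d, y - q⟫ / ⟪d, z - q⟫) • (z - q) = y := by
  have h0 := congrArg (fun w : V2 => w 0) h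
  have h1 := congrArg (fun w : V2 => w 1) h
  simp only [opr_P0, opr_P1] at h0 h1
  set v : V3 := (y - q) - (⟪d, y - q⟫ / ⟪d, z - q⟫) • (z - q) with hv
  have ha : ⟪a, v⟫ = 0 := by
    rw [hv, inner_sub_right, real_inner_smul_right]
    rw [div_eq_div_iff hy.ne' hz.ne'] at h0
    field_simp
    linarith
  have hb : ⟪b, v⟫ = 0 := by
    rw [hv, inner_sub_right, real_inner_smul_right]
    rw [div_eq_div_iff hy.ne' hz.ne'] at h1
    field_simp
    linarith
  obtain ⟨t, ht⟩ := hbas v ha hb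
  have hdv : ⟪d, v⟫ = 0 := by
    rw [hv, inner_sub_right, real_inner_smul_right]
    field_simp
    ring
  have hdd : ⟪d, d⟫ ≠ 0 := by
    rw [real_inner_self_eq_norm_sq]
    have : 0 < ‖d‖ := norm_pos_iff.2 hd
    positivity
  rw [ht, real_inner_smul_right] at hdv
  have ht0 : t = 0 := by
    rcases mul_eq_zero.1 hdv with h | h
    · exact h
    · exact absurd h hdd
  rw [ht0, zero_smul] at ht
  have h2 : (⟪d, y - q⟫ / ⟪d, z - q⟫) • (z - q) = y - q := (sub_eq_zero.1 (hv ▸ ht : (y - q) - (⟪d, y - q⟫ / ⟪d, z - q⟫) • (z - q) = 0)).symm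
  rw [h2, add_sub_cancel]

/-- the derivative of a projected coordinate -/
theorem opr_deriv {S : Surf} {q a d : V3} {u₀ : V2} (hD : S.X u₀ - q = d) (hd : d ≠ 0)
    (ha : ⟪a, d⟫ = 0) (v : V2) :
    HasDerivAt (fun t : ℝ => ⟪a, S.X (u₀ + t • v) - q⟫ / ⟪d, S.X (u₀ + t • v) - q⟫)
      (⟪a, fderiv ℝ S.X u₀ v⟫ / ⟪d, d⟫) 0 := by
  have hdd : ⟪d, d⟫ ≠ 0 := by
    rw [real_inner_self_eq_norm_sq]
    have : 0 < ‖d‖ := norm_pos_iff.2 hd
    positivity
  have hX : HasFDerivAt S.X (fderiv ℝ S.X u₀) u₀ :=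
    ((S.smooth.differentiable (by norm_num)) u₀).hasFDerivAt
  have hγ : HasDerivAt (fun t : ℝ => u₀ + t • v) v 0 := by
    have := ((hasDerivAt_id (0 : ℝ)).smul_const v).const_add u₀
    simpa using this
  have hX' : HasFDerivAt S.X (fderiv ℝ S.X u₀) (u₀ + (0 : ℝ) • v) := by
    rw [zero_smul, add_zero]; exact hX
  have h1 : HasDerivAt (fun t : ℝ => S.X (u₀ + t • v)) (fderiv ℝ S.X u₀ v) 0 :=
    hX'.comp_hasDerivAt 0 hγ
  have h2 : HasDerivAt (fun t : ℝ => S.X (u₀ + t • v) - q) (fderiv ℝ S.X u₀ v) 0 := h1.sub_const q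
  have h3 : ∀ c : V3, HasDerivAt (fun t : ℝ => ⟪c, S.X (u₀ + t • v) - q⟫)
      ⟪c, fderiv ℝ S.X u₀ v⟫ 0 := by
    intro c
    have := (hasDerivAt_const (0 : ℝ) c).inner ℝ h2
    simpa using this
  have h0 : S.X (u₀ + (0 : ℝ) • v) - q = d := by rw [zero_smul, add_zero, hD]
  have h4 := (h3 a).div (h3 d) (by rw [h0]; exact hdd)
  rw [h0, ha, zero_mul, sub_zero] at h4
  have h5 : ⟪a, fderiv ℝ S.X u₀ v⟫ * ⟪d, d⟫ / ⟪d, d⟫ ^ 2 = ⟪a, fderiv ℝ S.X u₀ v⟫ / ⟪d, d⟫ := by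
    field_simp
  rw [h5] at h4
  exact h4

theorem opr_fderiv {S : Surf} {q a b d : V3} {u₀ : V2} (hu₀ : ‖u₀‖ < 1) (hD : S.X u₀ - q = d)
    (hd : d ≠ 0) (ha : ⟪a, d⟫ = 0) (hb : ⟪b, d⟫ = 0)
    (hbas : ∀ v : V3, ⟪a, v⟫ = 0 → ⟪b, v⟫ = 0 → ∃ t : ℝ, v = t • d)
    (hG : DifferentiableAt ℝ (fun u => opr_P a b d q (S.X u)) u₀) :
    fderiv ℝ (fun u => opr_P a b d q (S.X u)) u₀ ≠ 0 := by
  intro h0
  have hG' := hG.hasFDerivAt
  rw [h0] at hG'
  have hdd : ⟪d, d⟫ ≠ 0 := by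
    rw [real_inner_self_eq_norm_sq]
    have : 0 < ‖d‖ := norm_pos_iff.2 hd
    positivity
  have key : ∀ v : V2, ∃ t : ℝ, fderiv ℝ S.X u₀ v = t • d := by
    intro v
    have hγ : HasDerivAt (fun t : ℝ => u₀ + t • v) v 0 := by
      have := ((hasDerivAt_id (0 : ℝ)).smul_const v).const_add u₀
      simpa using this
    have hG2 : HasFDerivAt (fun u => opr_P a b d q (S.X u)) (0 : V2 →L[ℝ] V2)
        (u₀ + (0 : ℝ) • v) := by
      rw [zero_smul, add_zero]; exact hG'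
    have h1 : HasDerivAt (fun t : ℝ => opr_P a b d q (S.X (u₀ + t • v))) 0 0 := by
      have := hG2.comp_hasDerivAt 0 hγ
      rw [_root_.zero_apply] at this
      exact this
    have h2 : ∀ i : Fin 2, HasDerivAt (fun t : ℝ => opr_P a b d q (S.X (u₀ + t • v)) i) 0 0 := by
      intro i
      have := ((EuclideanSpace.proj (𝕜 := ℝ) i).hasFDerivAt
        (x := opr_P a b d q (S.X (u₀ + (0 : ℝ) • v)))).comp_hasDerivAt 0 h1
      rw [map_zero] at this
      exact this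
    have e0' := h2 0
    have e1' := h2 1
    simp only [opr_P0, opr_P1] at e0' e1'
    have f0 := (opr_deriv (S := S) hD hd ha v).unique e0'
    have f1 := (opr_deriv (S := S) hD hd hb v).unique e1'
    apply hbas
    · rcases div_eq_zero_iff.1 f0 with h | h
      · exact h
      · exact absurd h hdd
    · rcases div_eq_zero_iff.1 f1 with h | h
      · exact h
      · exact absurd h hdd
  obtain ⟨s, hs⟩ := key e0
  obtain ⟨t, ht⟩ := key e1
  apply S.imm u₀ hu₀.le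
  unfold nn
  rw [hs, ht, cr_smul_left, cr_smul_right, cr_self, smul_zero, smul_zero]

theorem opr {S : Surf} {q : V3} (hq : StarAt S q) {u₀ : V2} (hu₀ : ‖u₀‖ < 1) {Y₀ : V3} {τ₀ : ℝ}
    (hτ₀ : 0 < τ₀) (h : q + τ₀ • (Y₀ - q) = S.X u₀) {ε : ℝ} (hε : 0 < ε) :
    ∀ᶠ Y in 𝓝 Y₀, ∃ (u : V2) (τ : ℝ), ‖u - u₀‖ < ε ∧ |τ - τ₀| < ε ∧
      q + τ • (Y - q) = S.X u := by
  set d : V3 := S.X u₀ - q with hD
  have hd : d ≠ 0 := by
    intro h0
    have : q = S.X u₀ := (sub_eq_zero.1 h0).symm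
    exact star_not_mem hq (this ▸ S.mem_Sig hu₀.le)
  obtain ⟨a, b, ha, hb, hbas⟩ := opr_basis hd
  have hdd : 0 < ⟪d, d⟫ := by
    rw [real_inner_self_eq_norm_sq]
    have : 0 < ‖d‖ := norm_pos_iff.2 hd
    positivity
  have hY₀ : Y₀ - q = τ₀⁻¹ • d := by
    have h1 : τ₀ • (Y₀ - q) = d := by rw [hD, ← h, add_sub_cancel_left]
    rw [← h1, smul_smul, inv_mul_cancel₀ hτ₀.ne', one_smul]
  have hdY : ⟪d, Y₀ - q⟫ = τ₀⁻¹ * ⟪d, d⟫ := by rw [hY₀, real_inner_smul_right]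
  have hdYpos : 0 < ⟪d, Y₀ - q⟫ := by rw [hdY]; positivity
  have hXc : Continuous S.X := S.smooth.continuous
  -- the ratio is continuous
  have hF : ContinuousAt (fun p : V2 × V3 => ⟪d, S.X p.1 - q⟫ / ⟪d, p.2 - q⟫) (u₀, Y₀) := by
    apply ContinuousAt.div
    · exact (continuous_const.inner ((hXc.comp continuous_fst).sub continuous_const)).continuousAt
    · exact (continuous_const.inner (continuous_snd.sub continuous_const)).continuousAt
    · exact hdYpos.ne'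
  have hF0 : ⟪d, S.X u₀ - q⟫ / ⟪d, Y₀ - q⟫ = τ₀ := by
    rw [← hD, hdY]
    field_simp
  have hF1 : ∀ᶠ p in 𝓝 (u₀, Y₀), |⟪d, S.X p.1 - q⟫ / ⟪d, p.2 - q⟫ - τ₀| < ε := by
    have := Metric.continuousAt_iff'.1 hF ε hε
    filter_upwards [this] with p hp
    rw [Real.dist_eq, hF0] at hp
    exact hp
  rw [nhds_prod_eq, Filter.eventually_prod_iff] at hF1
  obtain ⟨pa, hpa, pb, hpb, hpab⟩ := hF1
  have hev : ∀ᶠ u in 𝓝 u₀, pa u ∧ ‖u‖ < 1 ∧ 0 < ⟪d, S.X u - q⟫ ∧ ‖u - u₀‖ < ε := by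
    have c1 : ∀ᶠ u in 𝓝 u₀, ‖u‖ < 1 := (continuous_norm.continuousAt).eventually_lt
      continuousAt_const hu₀
    have c2 : ∀ᶠ u in 𝓝 u₀, 0 < ⟪d, S.X u - q⟫ := by
      have hc : Continuous (fun u : V2 => ⟪d, S.X u - q⟫) :=
        continuous_const.inner (hXc.sub continuous_const)
      exact continuousAt_const.eventually_lt hc.continuousAt (by rw [← hD]; exact hdd)
    have c3 : ∀ᶠ u in 𝓝 u₀, ‖u - u₀‖ < ε := by
      have := Metric.ball_mem_nhds u₀ hε
      filter_upwards [this] with u hu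
      rwa [mem_ball, dist_eq_norm] at hu
    exact hpa.and (c1.and (c2.and c3))
  obtain ⟨r, hr, hball⟩ := Metric.eventually_nhds_iff_ball.1 hev
  have hG2 : ContDiffAt ℝ 2 (fun u => opr_P a b d q (S.X u)) u₀ :=
    opr_P_smooth a b d q S.smooth.contDiffAt (by rw [← hD]; exact hdd.ne')
  have hinj : Set.InjOn (fun u => opr_P a b d q (S.X u)) (ball u₀ r) := by
    intro u hu v hv huv
    obtain ⟨-, hu1, hu2, -⟩ := hball u hu
    obtain ⟨-, hv1, hv2, -⟩ := hball v hv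
    have hray := opr_ray hd hbas hu2 hv2 huv
    exact (star_unique hq hu1.le hv1.le (w := S.X v - q) (div_pos hu2 hv2) one_pos hray
      (by rw [one_smul, add_sub_cancel])).2
  have hopm := opm (hG2.of_le (by norm_num))
    (opr_fderiv hu₀ hD.symm hd ha hb hbas (hG2.differentiableAt (by norm_num))) hr hinj hr
  have hP0 : opr_P a b d q Y₀ = opr_P a b d q (S.X u₀) := by
    apply ext2
    · rw [opr_P0, opr_P0, ← hD, hY₀, real_inner_smul_right, ha]
      simp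
    · rw [opr_P1, opr_P1, ← hD, hY₀, real_inner_smul_right, hb]
      simp
  rw [← hP0] at hopm
  have hPc := (opr_P_cont a b d q hdYpos.ne').preimage_mem_nhds hopm
  have hYpos : ∀ᶠ Y in 𝓝 Y₀, 0 < ⟪d, Y - q⟫ := by
    have hc : Continuous (fun Y : V3 => ⟪d, Y - q⟫) :=
      continuous_const.inner (continuous_id.sub continuous_const)
    exact continuousAt_const.eventually_lt hc.continuousAt hdYpos
  filter_upwards [hPc, hYpos, hpb] with Y hY1 hY2 hY3
  obtain ⟨u, hu, huY⟩ := hY1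
  obtain ⟨hu0, hu1, hu2, hu3⟩ := hball u hu
  refine ⟨u, ⟪d, S.X u - q⟫ / ⟪d, Y - q⟫, hu3, hpab hu0 hY3, opr_ray hd hbas hu2 hY2 huY⟩

end Pool.Agent.H99.SC

end S_OPR

section S_RAYS

/-!
# RAYS: limits of rays, and connected families of rays

`ray_lim`: `‖X (uk k) - q‖ = τk ‖Yk - q‖`, `S.Sig` compact, `q ∉ S.Sig`, `Yk → Y ≠ q`: `τk` is bounded and bounded away
from 0; pass to a subsequence (`IsCompact.tendsto_subseq` for the closed disc times an interval).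
`rays`: the set `{y ∈ K : hit by an interior point}` is relatively open (`opr` with small `ε`), relatively closed
(`ray_lim`; the limit point has `‖u‖ ≤ 1`, and `‖u‖ = 1` is excluded by `hC`), nonempty (`hne`, `τ = 1`):
`K` preconnected.  (For instance `IsPreconnected.subset_of_closure_inter_subset` or two disjoint open sets: the hit set
is `K ∩ O` with `O` open by `opr`; its complement in `K` is also of this form by the closedness argument.)
`hit_open`: the two sets used later are open: `opr`.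
-/


open scoped RealInnerProductSpace Topology
open Metric Filter Set


namespace Pool.Agent.H99.SC

theorem ray_lim {S : Surf} {q : V3} (hqS : q ∉ S.Sig) {Yk : ℕ → V3} {Y : V3}
    (hY : Tendsto Yk atTop (𝓝 Y)) (hYq : Y ≠ q) {uk : ℕ → V2} {τk : ℕ → ℝ}
    (hu : ∀ k, ‖uk k‖ ≤ 1) (hτ : ∀ k, 0 ≤ τk k) (h : ∀ k, q + τk k • (Yk k - q) = S.X (uk k)) :
    ∃ (φ : ℕ → ℕ) (u : V2) (τ : ℝ), StrictMono φ ∧ ‖u‖ ≤ 1 ∧ 0 < τ ∧
      Tendsto (fun k => uk (φ k)) atTop (𝓝 u) ∧ Tendsto (fun k => τk (φ k)) atTop (𝓝 τ) ∧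
      q + τ • (Y - q) = S.X u := by
  have hXc : Continuous S.X := S.smooth.continuous
  have hK : IsCompact (closedBall (0 : V2) 1) := isCompact_closedBall 0 1
  have hKne : (closedBall (0 : V2) 1).Nonempty := ⟨0, by simp⟩
  have hfc : ContinuousOn (fun u => ‖S.X u - q‖) (closedBall (0 : V2) 1) := by fun_prop
  obtain ⟨um, hum, hmin⟩ := hK.exists_isMinOn hKne hfc
  obtain ⟨uM, huM, hmax⟩ := hK.exists_isMaxOn hKne hfc
  have hc : 0 < ‖S.X um - q‖ := by
    rw [norm_pos_iff, sub_ne_zero]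
    intro h0
    exact hqS ⟨um, by simpa using hum, h0⟩
  set c := ‖S.X um - q‖ with hcdef
  set C := ‖S.X uM - q‖ with hCdef
  have hbd : ∀ k, c ≤ ‖S.X (uk k) - q‖ ∧ ‖S.X (uk k) - q‖ ≤ C := by
    intro k
    have hm : uk k ∈ closedBall (0 : V2) 1 := by simpa using hu k
    exact ⟨hmin hm, hmax hm⟩
  have hL : 0 < ‖Y - q‖ := norm_pos_iff.2 (sub_ne_zero.2 hYq)
  have hnorm : Tendsto (fun k => ‖Yk k - q‖) atTop (𝓝 ‖Y - q‖) := (hY.sub_const q).norm
  have hev : ∀ᶠ k in atTop, ‖Yk k - q‖ ∈ Ioo (‖Y - q‖ / 2) (2 * ‖Y - q‖) :=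
    hnorm (Ioo_mem_nhds (by linarith) (by linarith))
  have hτe : ∀ k, τk k * ‖Yk k - q‖ = ‖S.X (uk k) - q‖ := by
    intro k
    rw [← h k, add_sub_cancel_left, norm_smul, Real.norm_of_nonneg (hτ k)]
  have hev2 : ∀ᶠ k in atTop, (uk k, τk k) ∈
      closedBall (0 : V2) 1 ×ˢ Icc (c / (2 * ‖Y - q‖)) (C / (‖Y - q‖ / 2)) := by
    filter_upwards [hev] with k hk
    refine ⟨by simpa using hu k, ?_, ?_⟩
    · change c / (2 * ‖Y - q‖) ≤ τk k
      rw [div_le_iff₀ (by positivity)]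
      calc c ≤ ‖S.X (uk k) - q‖ := (hbd k).1
        _ = τk k * ‖Yk k - q‖ := (hτe k).symm
        _ ≤ τk k * (2 * ‖Y - q‖) := mul_le_mul_of_nonneg_left hk.2.le (hτ k)
    · change τk k ≤ C / (‖Y - q‖ / 2)
      rw [le_div_iff₀ (by positivity)]
      calc τk k * (‖Y - q‖ / 2) ≤ τk k * ‖Yk k - q‖ :=
            mul_le_mul_of_nonneg_left hk.1.le (hτ k)
        _ = ‖S.X (uk k) - q‖ := hτe k
        _ ≤ C := (hbd k).2
  obtain ⟨⟨u, τ⟩, hmem, φ, hφ, hlim⟩ := (hK.prod isCompact_Icc).tendsto_subseq' hev2.frequently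
  have hlu : Tendsto (fun k => uk (φ k)) atTop (𝓝 u) :=
    (continuous_fst.tendsto (u, τ)).comp hlim
  have hlτ : Tendsto (fun k => τk (φ k)) atTop (𝓝 τ) :=
    (continuous_snd.tendsto (u, τ)).comp hlim
  have hτpos : 0 < τ := by
    have h1 : c / (2 * ‖Y - q‖) ≤ τ := hmem.2.1
    have h2 : 0 < c / (2 * ‖Y - q‖) := by positivity
    linarith
  refine ⟨φ, u, τ, hφ, by simpa using hmem.1, hτpos, hlu, hlτ, ?_⟩
  have h1 : Tendsto (fun k => q + τk (φ k) • (Yk (φ k) - q)) atTop (𝓝 (q + τ • (Y - q))) :=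
    tendsto_const_nhds.add (hlτ.smul ((hY.comp hφ.tendsto_atTop).sub_const q))
  have h2 : Tendsto (fun k => S.X (uk (φ k))) atTop (𝓝 (S.X u)) :=
    (hXc.tendsto u).comp hlu
  refine tendsto_nhds_unique h1 (h2.congr fun k => ?_)
  exact (h (φ k)).symm

theorem rays {S : Surf} {q : V3} (hq : StarAt S q) {K : Set V3} (hK : IsPreconnected K)
    (hqK : q ∉ K) (hC : ∀ y ∈ K, ∀ τ : ℝ, 0 < τ → ∀ u : V2, ‖u‖ = 1 → q + τ • (y - q) ≠ S.X u)
    (hne : ∃ u : V2, ‖u‖ < 1 ∧ S.X u ∈ K) :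
    ∀ y ∈ K, ∃ u : V2, ‖u‖ < 1 ∧ ∃ τ : ℝ, 0 < τ ∧ q + τ • (y - q) = S.X u := by
  have hO : IsOpen {y : V3 | ∃ u : V2, ‖u‖ < 1 ∧ ∃ τ : ℝ, 0 < τ ∧ q + τ • (y - q) = S.X u} := by
    rw [isOpen_iff_mem_nhds]
    rintro y ⟨u, hu, τ, hτ, hy⟩
    have hε : 0 < min (1 - ‖u‖) τ := lt_min (by linarith) hτ
    filter_upwards [opr hq hu hτ hy hε] with Y hY
    obtain ⟨u', τ', h1, h2, h3⟩ := hY
    refine ⟨u', ?_, τ', ?_, h3⟩
    · have h4 := norm_add_le (u' - u) u
      rw [sub_add_cancel] at h4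
      have h5 := lt_of_lt_of_le h1 (min_le_left _ _)
      linarith
    · have h5 := lt_of_lt_of_le h2 (min_le_right _ _)
      rw [abs_lt] at h5
      linarith [h5.1]
  have hsub := hK.subset_of_closure_inter_subset hO (by
    obtain ⟨u, hu, huK⟩ := hne
    exact ⟨S.X u, huK, u, hu, 1, one_pos, by rw [one_smul, add_sub_cancel]⟩) (by
    rintro y ⟨hy, hyK⟩
    obtain ⟨Yk, hYk, hlim⟩ := mem_closure_iff_seq_limit.1 hy
    choose uk huk τk hτk hk using hYk
    obtain ⟨φ, u, τ, -, hu, hτ, -, -, he⟩ := ray_lim (star_not_mem hq) hlim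
      (fun h0 => hqK (h0 ▸ hyK)) (fun k => (huk k).le) (fun k => (hτk k).le) hk
    refine ⟨u, lt_of_le_of_ne hu fun h1 => hC y hyK τ hτ u h1 he, τ, hτ, he⟩)
  exact fun y hy => hsub hy

theorem hit_open {S : Surf} {q : V3} (hq : StarAt S q) :
    IsOpen {y : V3 | ∃ u : V2, ‖u‖ < 1 ∧ ∃ τ : ℝ, 1 < τ ∧ q + τ • (y - q) = S.X u} ∧
    IsOpen {y : V3 | ∃ u : V2, ‖u‖ < 1 ∧ ∃ τ : ℝ, 0 < τ ∧ τ < 1 ∧ q + τ • (y - q) = S.X u} := by
  constructor
  · rw [isOpen_iff_mem_nhds]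
    rintro y ⟨u, hu, τ, hτ, hy⟩
    have hε : 0 < min (1 - ‖u‖) (τ - 1) := lt_min (by linarith) (by linarith)
    filter_upwards [opr hq hu (by linarith) hy hε] with Y hY
    obtain ⟨u', τ', h1, h2, h3⟩ := hY
    refine ⟨u', ?_, τ', ?_, h3⟩
    · have h4 := norm_add_le (u' - u) u
      rw [sub_add_cancel] at h4
      have h5 := lt_of_lt_of_le h1 (min_le_left _ _)
      linarith
    · have h5 := lt_of_lt_of_le h2 (min_le_right _ _)
      rw [abs_lt] at h5
      linarith [h5.1]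
  · rw [isOpen_iff_mem_nhds]
    rintro y ⟨u, hu, τ, hτ, hτ1, hy⟩
    have hε : 0 < min (1 - ‖u‖) (min τ (1 - τ)) :=
      lt_min (by linarith) (lt_min hτ (by linarith))
    filter_upwards [opr hq hu hτ hy hε] with Y hY
    obtain ⟨u', τ', h1, h2, h3⟩ := hY
    have h6 := lt_of_lt_of_le h2 ((min_le_right _ _).trans (min_le_left _ _))
    have h7 := lt_of_lt_of_le h2 ((min_le_right _ _).trans (min_le_right _ _))
    rw [abs_lt] at h6 h7
    refine ⟨u', ?_, τ', by linarith [h6.1], by linarith [h7.2], h3⟩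
    have h4 := norm_add_le (u' - u) u
    rw [sub_add_cancel] at h4
    have h5 := lt_of_lt_of_le h1 (min_le_left _ _)
    linarith

end Pool.Agent.H99.SC

end S_RAYS

section S_EXT

/-!
# EXT: normals at highest and lowest interior points

`h u = ⟪E3, X u⟫ = (X u) 2` has a local extremum at `u₁` (interior), so `⟪E3, DX a⟫ = 0` for all `a` and `N u₁ = ± E3`
(`unit_eq`).  Maximum: `0 ≤ Lop X (-h) u₁ = -⟪E3, Lop X X u₁⟫` (`Lop_nonneg_of_isLocalMin`, `lop_height` with `c = -E3`);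
`cmcN`: `⟪Lop X X, N⟫ = 2 H ‖nn‖^2 > 0`, so `N = E3` is impossible.  Minimum: same with sign.
-/


open scoped RealInnerProductSpace Topology
open Metric Filter Set


namespace Pool.Agent.H99.SC

theorem EXT_aux (S : Surf) {u₁ : V2} (hu₁ : ‖u₁‖ < 1) {c : V3} (hc : ‖c‖ = 1)
    (h : ∀ u : V2, ‖u‖ < 1 → ⟪c, S.X u₁⟫ ≤ ⟪c, S.X u⟫) : S.N u₁ = c := by
  have hmin : IsLocalMin (fun u => ⟪c, S.X u⟫) u₁ := by
    have hball : ball (0 : V2) 1 ∈ 𝓝 u₁ := isOpen_ball.mem_nhds (by simpa using hu₁)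
    filter_upwards [hball] with u hu
    exact h u (by simpa using hu)
  have hD : ∀ a : V2, ⟪c, fderiv ℝ S.X u₁ a⟫ = 0 := by
    intro a
    rw [← fderiv_height S.smooth, hmin.fderiv_eq_zero]
    rfl
  have hL : 0 ≤ ⟪c, Lop S.X S.X u₁⟫ := by
    rw [← lop_height S.smooth]
    exact Lop_nonneg_of_isLocalMin (S.imm u₁ hu₁.le)
      (contDiff_height S.smooth c).contDiffAt hmin
  have hcm := S.cmcN hu₁
  have hpos : 0 < 2 * S.H * ‖nn S.X u₁‖ ^ 2 := by
    have := S.nn_pos hu₁.le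
    have := S.Hpos
    positivity
  rcases S.unit_eq hu₁.le hc hD with h1 | h1
  · exact h1.symm
  · exfalso
    rw [h1, inner_neg_left, real_inner_comm, hcm] at hL
    linarith

theorem max_N (S : Surf) {u₁ : V2} (hu₁ : ‖u₁‖ < 1)
    (h : ∀ u : V2, ‖u‖ < 1 → (S.X u) 2 ≤ (S.X u₁) 2) : S.N u₁ = -E3 := by
  have hE : ‖(E3 : V3)‖ = 1 := by
    have h0 : ‖(E3 : V3)‖ ^ 2 = 1 := by rw [nsq]; simp
    nlinarith [norm_nonneg (E3 : V3)]
  refine EXT_aux S hu₁ (by rw [norm_neg, hE]) fun u hu => ?_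
  have := h u hu
  simp only [ip, PiLp.neg_apply, E3_0, E3_1, E3_2]
  linarith

theorem min_N (S : Surf) {u₁ : V2} (hu₁ : ‖u₁‖ < 1)
    (h : ∀ u : V2, ‖u‖ < 1 → (S.X u₁) 2 ≤ (S.X u) 2) : S.N u₁ = E3 := by
  have hE : ‖(E3 : V3)‖ = 1 := by
    have h0 : ‖(E3 : V3)‖ ^ 2 = 1 := by rw [nsq]; simp
    nlinarith [norm_nonneg (E3 : V3)]
  refine EXT_aux S hu₁ hE fun u hu => ?_
  have := h u hu
  simp only [ip, E3_0, E3_1, E3_2]
  linarith

end Pool.Agent.H99.SC

end S_EXT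

section S_WQS

/-!
# WQS: the support function of a star-shaped surface has constant sign

`P = {y : hit with τ > 1}`, `Q = {y : hit with 0 < τ < 1}` (by interior points): open (`hit_open`), disjoint (`star_unique`).
Local claim at `‖u₀‖ < 1`: box `B` at `u₀`, `e = N u₀`.  For small `ε`: on `B.U ε`: `‖B.b y‖ < 1`, `y ∈ S.Sig ↔ B.f y = 0`
(`box_sig`), and every `y` is hit by an interior point with `τ > 0` (`opr` at `Y₀ = X u₀`, `τ₀ = 1`).  So
`{f > 0} ∩ U ε` and `{f < 0} ∩ U ε` are contained in `P ∪ Q` (`τ = 1` means `y ∈ S.Sig`), and being preconnected each is in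
`P` or in `Q`.  `X u₀ + s (q - X u₀) = q + (1-s)(X u₀ - q)` is in `P` and `X u₀ - s (q - X u₀)` in `Q` for small
`s > 0`; so one side is in `P` and the other in `Q`.
`A = {u : ‖u‖ < 1, ∀ᶠ s in 𝓝[>] 0, X u + s N u ∈ P}`, `A' =` same with `Q`: by the local claim both are open (for `u` near
`u₀` the points `X u + s N u`, small `s > 0`, have `f > 0`), disjoint, and cover the open disc: one of them is everything.
If `A` is everything: suppose `⟪q - X u, N u⟫ < 0`; then `X u - s (q - X u) ∈ Q` has `f > 0` (derivative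
`-⟪g, q - X u⟫ > 0`), but the side `f > 0` is in `P`: contradiction; so `0 ≤ ⟪q - X u, N u⟫` for all `u`.  Same for `A'`.
-/


open scoped RealInnerProductSpace Topology
open Metric Filter Set


namespace Pool.Agent.H99.SC

private def WQS_P (S : Surf) (q : V3) : Set V3 :=
  {y : V3 | ∃ u : V2, ‖u‖ < 1 ∧ ∃ τ : ℝ, 1 < τ ∧ q + τ • (y - q) = S.X u}

private def WQS_Q (S : Surf) (q : V3) : Set V3 :=
  {y : V3 | ∃ u : V2, ‖u‖ < 1 ∧ ∃ τ : ℝ, 0 < τ ∧ τ < 1 ∧ q + τ • (y - q) = S.X u}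

private theorem WQS_disj {S : Surf} {q : V3} (hq : StarAt S q) {y : V3} (h1 : y ∈ WQS_P S q)
    (h2 : y ∈ WQS_Q S q) : False := by
  obtain ⟨u, hu, τ, hτ, h1⟩ := h1
  obtain ⟨v, hv, σ, hσ, hσ1, h2⟩ := h2
  have := (star_unique hq hu.le hv.le (by linarith) hσ h1 h2).1
  linarith

private theorem WQS_deriv {S : Surf} {u₀ : V2} {e : V3} (B : Box S.X u₀ e) {u : V2}
    (hu : ‖u - u₀‖ < B.r) (v : V3) :
    HasDerivAt (fun s : ℝ => B.f (S.X u + s • v)) ⟪B.g (S.X u), v⟫ 0 := by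
  have hyU : S.X u ∈ B.U B.r := ⟨u, 0, hu, by simpa using B.hr, by simp⟩
  have hd : HasFDerivAt B.f (fderiv ℝ B.f (S.X u)) (S.X u) :=
    ((B.smooth_f hyU).differentiableAt (by norm_num)).hasFDerivAt
  have hline : HasDerivAt (fun s : ℝ => S.X u + s • v) v 0 := by
    have := ((hasDerivAt_id (0 : ℝ)).smul_const v).const_add (S.X u)
    simpa using this
  have h1 : HasFDerivAt B.f (fderiv ℝ B.f (S.X u)) (S.X u + (0 : ℝ) • v) := by
    simpa using hd
  have h2 := h1.comp_hasDerivAt (0 : ℝ) hline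
  rw [B.fd S.smooth hyU] at h2
  exact h2

private theorem WQS_pos {S : Surf} {u₀ : V2} {e : V3} (B : Box S.X u₀ e) {u : V2}
    (hu : ‖u - u₀‖ < B.r) {v : V3} (hv : 0 < ⟪S.N u, v⟫) :
    ∀ᶠ s : ℝ in 𝓝[>] 0, 0 < B.f (S.X u + s • v) := by
  have hyU : S.X u ∈ B.U B.r := ⟨u, 0, hu, by simpa using B.hr, by simp⟩
  have hb : B.b (S.X u) = u := B.b_X hu
  have hf0 : B.f (S.X u) = 0 := B.f_X hu
  have hin : 0 < ⟪B.g (S.X u), v⟫ := by
    have h1 := B.g_eq hyU
    have h2 := B.g_pos hyU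
    have h3 : NN S.X u = S.N u := rfl
    rw [h1, hb, h3, real_inner_smul_left]
    exact mul_pos h2 hv
  have hslope := hasDerivAt_iff_tendsto_slope.1 (WQS_deriv B hu v)
  have hev := hslope.eventually (lt_mem_nhds hin)
  have hev2 : ∀ᶠ s : ℝ in 𝓝[>] 0,
      0 < slope (fun s : ℝ => B.f (S.X u + s • v)) 0 s :=
    hev.filter_mono (nhdsWithin_mono _ (fun x hx => ne_of_gt hx))
  have hgt : ∀ᶠ s : ℝ in 𝓝[>] 0, (0:ℝ) < s := self_mem_nhdsWithin
  filter_upwards [hev2, hgt] with s hs hs0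
  have hz : B.f (S.X u + (0 : ℝ) • v) = 0 := by simpa using hf0
  rw [slope_def_field, hz, sub_zero, sub_zero] at hs
  exact (div_pos_iff_of_pos_right hs0).1 hs

/-- points on the segment towards `q` -/
private theorem WQS_memP {S : Surf} {q : V3} {u : V2} (hu : ‖u‖ < 1) {s : ℝ} (hs : 0 < s)
    (hs1 : s < 1) : S.X u + s • (q - S.X u) ∈ WQS_P S q := by
  refine ⟨u, hu, (1 - s)⁻¹, ?_, ?_⟩
  · rw [one_lt_inv₀ (by linarith)]; linarith
  · have h1 : S.X u + s • (q - S.X u) - q = (1 - s) • (S.X u - q) := by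
      rw [sub_smul, one_smul, smul_sub, smul_sub]; abel
    rw [h1, smul_smul, inv_mul_cancel₀ (by linarith), one_smul]
    abel

private theorem WQS_memQ {S : Surf} {q : V3} {u : V2} (hu : ‖u‖ < 1) {s : ℝ} (hs : 0 < s) :
    S.X u + s • (-(q - S.X u)) ∈ WQS_Q S q := by
  refine ⟨u, hu, (1 + s)⁻¹, by positivity, ?_, ?_⟩
  · apply inv_lt_one_of_one_lt₀; linarith
  · have h1 : S.X u + s • (-(q - S.X u)) - q = (1 + s) • (S.X u - q) := by
      rw [add_smul, one_smul, smul_neg, smul_sub, smul_sub]; abel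
    rw [h1, smul_smul, inv_mul_cancel₀ (by linarith), one_smul]
    abel

private theorem WQS_tend (x w : V3) {V : Set V3} (hV : V ∈ 𝓝 x) :
    ∀ᶠ s : ℝ in 𝓝[>] 0, x + s • w ∈ V := (lsig_tend x w).eventually hV

/-- the local claim -/
private theorem WQS_local {S : Surf} {q : V3} (hq : StarAt S q) {u₀ : V2} (hu₀ : ‖u₀‖ < 1) :
    ∃ (B : Box S.X u₀ (S.N u₀)) (ε : ℝ), 0 < ε ∧ ε ≤ B.r ∧ ε ≤ 1 - ‖u₀‖ ∧
      (({y | y ∈ B.U ε ∧ 0 < B.f y} ⊆ WQS_P S q ∧ {y | y ∈ B.U ε ∧ B.f y < 0} ⊆ WQS_Q S q) ∨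
      ({y | y ∈ B.U ε ∧ 0 < B.f y} ⊆ WQS_Q S q ∧ {y | y ∈ B.U ε ∧ B.f y < 0} ⊆ WQS_P S q)) := by
  have hnn : 0 < ⟪nn S.X u₀, S.N u₀⟫ := by
    rw [S.nn_eq hu₀.le, real_inner_smul_left, real_inner_self_eq_norm_sq, S.N_norm hu₀.le]
    have := S.nn_pos hu₀.le
    simpa using this
  obtain ⟨B⟩ := exists_box S.smooth hnn
  obtain ⟨ε₁, hε₁, hε₁r, -, hsig⟩ := box_sig S hu₀.le B
  have hδ : 0 < min (1 - ‖u₀‖) 1 := lt_min (by linarith) one_pos
  have hopr := opr hq hu₀ (Y₀ := S.X u₀) (τ₀ := 1) one_pos (by rw [one_smul]; abel) hδ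
  obtain ⟨ε₂, hε₂, -, hU₂⟩ := B.small S.smooth.continuous hopr
  obtain ⟨ε, hε, he1, he2, he3⟩ : ∃ ε : ℝ, 0 < ε ∧ ε ≤ ε₁ ∧ ε ≤ ε₂ ∧ ε ≤ 1 - ‖u₀‖ :=
    ⟨min ε₁ (min ε₂ (1 - ‖u₀‖)), lt_min hε₁ (lt_min hε₂ (by linarith)),
      min_le_left _ _, (min_le_right _ _).trans (min_le_left _ _),
      (min_le_right _ _).trans (min_le_right _ _)⟩
  have hεr : ε ≤ B.r := he1.trans hε₁r
  have hb : ∀ y ∈ B.U ε, ‖B.b y‖ < 1 := by
    intro y hy
    have h1 := (B.coord hεr hy).1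
    have h2 : ‖B.b y‖ ≤ ‖B.b y - u₀‖ + ‖u₀‖ := by
      simpa using norm_add_le (B.b y - u₀) u₀
    linarith
  have hS : ∀ y ∈ B.U ε, (y ∈ S.Sig ↔ B.f y = 0) := by
    intro y hy
    rw [hsig y (B.U_mono he1 hy)]
    exact ⟨fun h => h.1, fun h => ⟨h, (hb y hy).le⟩⟩
  have hcov : ∀ y ∈ B.U ε, B.f y ≠ 0 → y ∈ WQS_P S q ∪ WQS_Q S q := by
    intro y hy hf
    obtain ⟨u, τ, h1, h2, h3⟩ := hU₂ (B.U_mono he2 hy)
    have hu : ‖u‖ < 1 := by
      have h4 : ‖u‖ ≤ ‖u - u₀‖ + ‖u₀‖ := by simpa using norm_add_le (u - u₀) u₀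
      have h5 := h1.trans_le (min_le_left _ _)
      linarith
    have hτ : 0 < τ := by
      have h4 := (abs_lt.1 (h2.trans_le (min_le_right _ _))).1
      linarith
    rcases lt_trichotomy τ 1 with h4 | h4 | h4
    · exact Or.inr ⟨u, hu, τ, hτ, h4, h3⟩
    · exfalso
      rw [h4, one_smul, add_sub_cancel] at h3
      exact hf ((hS y hy).1 ⟨u, hu.le, h3.symm⟩)
    · exact Or.inl ⟨u, hu, τ, h4, h3⟩
  have hnz : ∀ y ∈ B.U ε, y ∈ WQS_P S q ∪ WQS_Q S q → B.f y ≠ 0 := by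
    intro y hy hPQ hf
    obtain ⟨v, hv, hvy⟩ := (hS y hy).2 hf
    have h1 : q + (1 : ℝ) • (y - q) = S.X v := by rw [one_smul, add_sub_cancel, hvy]
    rcases hPQ with ⟨u, hu, τ, hτ, h2⟩ | ⟨u, hu, τ, hτ, hτ1, h2⟩
    · have := (star_unique hq hu.le hv (by linarith) one_pos h2 h1).1
      linarith
    · have := (star_unique hq hu.le hv hτ one_pos h2 h1).1
      linarith
  have hPo : IsOpen (WQS_P S q) := (hit_open hq).1
  have hQo : IsOpen (WQS_Q S q) := (hit_open hq).2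
  have hPQ : Disjoint (WQS_P S q) (WQS_Q S q) :=
    Set.disjoint_left.2 fun y h1 h2 => WQS_disj hq h1 h2
  have hp := (B.preconn_pos S.smooth.continuous hε hεr).subset_or_subset hPo hQo hPQ
    (fun y hy => hcov y hy.1 hy.2.ne')
  have hn := (B.preconn_neg S.smooth.continuous hε hεr).subset_or_subset hPo hQo hPQ
    (fun y hy => hcov y hy.1 hy.2.ne)
  have hnh : B.U ε ∈ 𝓝 (S.X u₀) := B.U_nhds hε hεr
  -- two test points
  obtain ⟨s, hs1, hs2, hs3, hs4⟩ := ((WQS_tend (S.X u₀) (q - S.X u₀) hnh).and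
    ((WQS_tend (S.X u₀) (-(q - S.X u₀)) hnh).and (lsig_ev one_pos))).exists
  have hyP := WQS_memP (S := S) (q := q) hu₀ hs3 hs4
  have hyQ := WQS_memQ (S := S) (q := q) hu₀ hs3
  have hfP := hnz _ hs1 (Or.inl hyP)
  have hfQ := hnz _ hs2 (Or.inr hyQ)
  refine ⟨B, ε, hε, hεr, he3, ?_⟩
  rcases hp with hp | hp <;> rcases hn with hn | hn
  · exfalso
    rcases lt_or_gt_of_ne hfQ with h | h
    · exact WQS_disj hq (hn ⟨hs2, h⟩) hyQ
    · exact WQS_disj hq (hp ⟨hs2, h⟩) hyQ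
  · exact Or.inl ⟨hp, hn⟩
  · exact Or.inr ⟨hp, hn⟩
  · exfalso
    rcases lt_or_gt_of_ne hfP with h | h
    · exact WQS_disj hq hyP (hn ⟨hs1, h⟩)
    · exact WQS_disj hq hyP (hp ⟨hs1, h⟩)

theorem wq_sign {S : Surf} {q : V3} (hq : StarAt S q) :
    (∀ u : V2, ‖u‖ < 1 → 0 ≤ ⟪q - S.X u, S.N u⟫) ∨
      (∀ u : V2, ‖u‖ < 1 → ⟪q - S.X u, S.N u⟫ ≤ 0) := by
  set A : Set V2 := {u | ‖u‖ < 1 ∧ ∀ᶠ s : ℝ in 𝓝[>] 0, S.X u + s • S.N u ∈ WQS_P S q} with hA
  set A' : Set V2 := {u | ‖u‖ < 1 ∧ ∀ᶠ s : ℝ in 𝓝[>] 0, S.X u + s • S.N u ∈ WQS_Q S q} with hA'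
  -- near `u₀` all the points are on the positive side of the box
  have hside : ∀ (u₀ : V2) (B : Box S.X u₀ (S.N u₀)) (ε : ℝ), 0 < ε → ε ≤ B.r → ε ≤ 1 - ‖u₀‖ →
      ∀ u : V2, ‖u - u₀‖ < ε → ‖u‖ < 1 ∧ ∀ᶠ s : ℝ in 𝓝[>] 0,
        S.X u + s • S.N u ∈ {y | y ∈ B.U ε ∧ 0 < B.f y} := by
    intro u₀ B ε hε hεr he u hu
    have hu1 : ‖u‖ < 1 := by
      have h4 : ‖u‖ ≤ ‖u - u₀‖ + ‖u₀‖ := by simpa using norm_add_le (u - u₀) u₀
      linarith
    have hmem : S.X u ∈ B.U ε := ⟨u, 0, hu, by simpa using hε, by simp⟩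
    have hN : 0 < ⟪S.N u, S.N u⟫ := by
      rw [real_inner_self_eq_norm_sq, S.N_norm hu1.le]; norm_num
    refine ⟨hu1, ?_⟩
    filter_upwards [WQS_tend (S.X u) (S.N u) ((B.U_open hε hεr).mem_nhds hmem),
      WQS_pos B (hu.trans_le hεr) hN] with s h1 h2
    exact ⟨h1, h2⟩
  have hball : ∀ u₀ : V2, ‖u₀‖ < 1 → (∃ ε > 0, ball u₀ ε ⊆ A) ∨ (∃ ε > 0, ball u₀ ε ⊆ A') := by
    intro u₀ hu₀
    obtain ⟨B, ε, hε, hεr, he, h | h⟩ := WQS_local hq hu₀
    · left
      refine ⟨ε, hε, fun u hu => ?_⟩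
      obtain ⟨h1, h2⟩ := hside u₀ B ε hε hεr he u (by simpa [dist_eq_norm] using hu)
      exact ⟨h1, h2.mono fun s hs => h.1 hs⟩
    · right
      refine ⟨ε, hε, fun u hu => ?_⟩
      obtain ⟨h1, h2⟩ := hside u₀ B ε hε hεr he u (by simpa [dist_eq_norm] using hu)
      exact ⟨h1, h2.mono fun s hs => h.1 hs⟩
  have hdisj : ∀ u, u ∈ A → u ∈ A' → False := by
    rintro u ⟨-, h1⟩ ⟨-, h2⟩
    obtain ⟨s, hs1, hs2⟩ := (h1.and h2).exists
    exact WQS_disj hq hs1 hs2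
  have hAo : IsOpen A := by
    rw [Metric.isOpen_iff]
    intro u hu
    rcases hball u hu.1 with h | ⟨ε, hε, h⟩
    · exact h
    · exact (hdisj u hu (h (mem_ball_self hε))).elim
  have hAo' : IsOpen A' := by
    rw [Metric.isOpen_iff]
    intro u hu
    rcases hball u hu.1 with ⟨ε, hε, h⟩ | h
    · exact (hdisj u (h (mem_ball_self hε)) hu).elim
    · exact h
  have hcov : ball (0 : V2) 1 ⊆ A ∪ A' := by
    intro u hu
    have hu1 : ‖u‖ < 1 := by simpa using hu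
    rcases hball u hu1 with ⟨ε, hε, h⟩ | ⟨ε, hε, h⟩
    · exact Or.inl (h (mem_ball_self hε))
    · exact Or.inr (h (mem_ball_self hε))
  have hpre : IsPreconnected (ball (0 : V2) 1) := (convex_ball _ _).isPreconnected
  rcases hpre.subset_or_subset hAo hAo' (Set.disjoint_left.2 fun u h1 h2 => hdisj u h1 h2) hcov
    with hall | hall
  · left
    intro u hu
    by_contra hcon
    push Not at hcon
    obtain ⟨B, ε, hε, hεr, he, hloc⟩ := WQS_local hq hu
    have huA : u ∈ A := hall (by simpa using hu)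
    have hsd := (hside u B ε hε hεr he u (by simpa using hε)).2
    have hP : {y | y ∈ B.U ε ∧ 0 < B.f y} ⊆ WQS_P S q := by
      rcases hloc with h | h
      · exact h.1
      · exfalso
        obtain ⟨s, hs1, hs2⟩ := (huA.2.and hsd).exists
        exact WQS_disj hq hs1 (h.1 hs2)
    have hv : 0 < ⟪S.N u, -(q - S.X u)⟫ := by
      rw [inner_neg_right, real_inner_comm]; linarith
    obtain ⟨s, hs1, hs2, hs3, -⟩ := ((WQS_tend (S.X u) (-(q - S.X u)) (B.U_nhds hε hεr)).and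
      ((WQS_pos B (by simpa using B.hr) hv).and (lsig_ev one_pos))).exists
    exact WQS_disj hq (hP ⟨hs1, hs2⟩) (WQS_memQ hu hs3)
  · right
    intro u hu
    by_contra hcon
    push Not at hcon
    obtain ⟨B, ε, hε, hεr, he, hloc⟩ := WQS_local hq hu
    have huA : u ∈ A' := hall (by simpa using hu)
    have hsd := (hside u B ε hε hεr he u (by simpa using hε)).2
    have hQ : {y | y ∈ B.U ε ∧ 0 < B.f y} ⊆ WQS_Q S q := by
      rcases hloc with h | h
      · exfalso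
        obtain ⟨s, hs1, hs2⟩ := (huA.2.and hsd).exists
        exact WQS_disj hq (h.1 hs2) hs1
      · exact h.1
    have hv : 0 < ⟪S.N u, q - S.X u⟫ := by
      rw [real_inner_comm]; linarith
    obtain ⟨s, hs1, hs2, hs3, hs4⟩ := ((WQS_tend (S.X u) (q - S.X u) (B.U_nhds hε hεr)).and
      ((WQS_pos B (by simpa using B.hr) hv).and (lsig_ev one_pos))).exists
    exact WQS_disj hq (WQS_memP hu hs3 hs4) (hQ ⟨hs1, hs2⟩)

end Pool.Agent.H99.SC

end S_WQS

section S_CAS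

/-!
# CAS: position of the star centre

`q0`: `q 2 = 0`.  `q ∉ S.Sig` (`star_not_mem`), so `q 0^2 + q 1^2 ≠ 1` (`S.bd`).  If `> 1`: with `v = -q`, the points
`q + s v` with `s = 1 - 1/|q|` and `s = 1 + 1/|q|` are both on the circle: contradiction.  So `q` is in the open disc.  If
`‖u‖ < 1` and `(X u) 2 = 0`: `v = X u - q ≠ 0` horizontal; the ray from the point `q` inside the disc meets the circle:
`q + t v`, `t > 0` (quadratic equation / intermediate value), and `q + 1 v = X u`: so `t = 1`, `X u` on the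
circle, `‖u‖ = 1` (`bd2`): contradiction.  So `(X u) 2 ≠ 0` on the open disc (connected): constant sign.
`dich`: `q 2 ≠ 0`, `q ∉ Disc`.  For `‖u‖ < 1`: if `q + τ (X u - q) ∈ Disc` for some `τ > 0`, it is not on the circle (else
`τ = 1` by `star_unique` and `‖u‖ = 1` by `bd2`), so it is in the open disc.  `{u : ∃ τ > 0, q + τ (X u - q) in the open disc}` is
open (`τ = q 2/(q 2 - (X u) 2)` is determined by the third coordinate, continuous in `u`), and
`{u : ∀ τ > 0, q + τ (X u - q) ∉ Disc}` is open (complement closed: `Disc` compact, `X u ≠ q`, the limit of `τ_k` is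
positive as `q ∉ Disc`).  The open disc is connected.
`oneI`: `q 2 < 0` and all interior points are in the open cone: then `(X u) 2 > q 2`:
`0 = q 2 + τ ((X u) 2 - q 2)`.  Suppose some interior `u` has `(X u) 2 ≥ 0` and some interior `v` has `(X v) 2 ≤ 0`.  The maximum
of `(X u) 2` over the closed disc is `≥ 0` and attained at an interior point `u₁` (boundary values are 0; if the maximum is 0
take the given `u`); same for the minimum, `u₂`.  `max_N`: `N u₁ = -E3`, so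
`⟪q - X u₁, N u₁⟫ = (X u₁) 2 - q 2 > 0`; `min_N`: `⟪q - X u₂, N u₂⟫ = q 2 - (X u₂) 2 < 0`: contradicts `wq_sign`.
-/


open scoped RealInnerProductSpace Topology
open Metric Filter Set


namespace Pool.Agent.H99.SC

/-- circle points are on the surface -/
private lemma CAS_circ (S : Surf) {y : V3} (h2 : y 2 = 0) (h : y 0 ^ 2 + y 1 ^ 2 = 1) :
    ∃ u : V2, ‖u‖ = 1 ∧ S.X u = y := (S.bd y).2 ⟨h2, h⟩

private lemma CAS_circ_mem (S : Surf) {y : V3} (h2 : y 2 = 0) (h : y 0 ^ 2 + y 1 ^ 2 = 1) :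
    y ∈ S.Sig := by
  obtain ⟨u, hu, hy⟩ := CAS_circ S h2 h
  exact ⟨u, hu.le, hy⟩

private lemma CAS_ball : IsPreconnected {u : V2 | ‖u‖ < 1} := by
  have h : {u : V2 | ‖u‖ < 1} = ball (0 : V2) 1 := by
    ext u; simp
  rw [h]
  exact (convex_ball _ _).isPreconnected

private lemma CAS_cont (S : Surf) (i : Fin 3) : Continuous (fun u : V2 => (S.X u) i) := by
  have h : Continuous S.X := S.smooth.continuous
  fun_prop

/-- a horizontal ray from inside the unit circle meets it -/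
private lemma CAS_ray {q0 q1 v0 v1 : ℝ} (hq : q0 ^ 2 + q1 ^ 2 < 1) (hv : 0 < v0 ^ 2 + v1 ^ 2) :
    ∃ t : ℝ, 0 < t ∧ (q0 + t * v0) ^ 2 + (q1 + t * v1) ^ 2 = 1 := by
  have hcont : Continuous (fun t : ℝ => (q0 + t * v0) ^ 2 + (q1 + t * v1) ^ 2) := by fun_prop
  obtain ⟨T, hT, hT1⟩ : ∃ T : ℝ, 0 ≤ T ∧ 1 ≤ (q0 + T * v0) ^ 2 + (q1 + T * v1) ^ 2 := by
    refine ⟨(2 + 2 * |q0 * v0 + q1 * v1|) / (v0 ^ 2 + v1 ^ 2) + 1, by positivity, ?_⟩
    set a := v0 ^ 2 + v1 ^ 2 with ha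
    set b := q0 * v0 + q1 * v1 with hb
    set T := (2 + 2 * |b|) / a + 1 with hT
    have h1 : a * T = 2 + 2 * |b| + a := by
      rw [hT]; field_simp
    have h2 : (q0 + T * v0) ^ 2 + (q1 + T * v1) ^ 2
        = (q0 ^ 2 + q1 ^ 2) + 2 * T * b + T * (a * T) := by rw [ha, hb]; ring
    have h3 : 0 ≤ q0 ^ 2 + q1 ^ 2 := by positivity
    have h4 : 1 ≤ T := by
      rw [hT]
      have : 0 ≤ (2 + 2 * |b|) / a := by positivity
      linarith
    have h5 : -|b| ≤ b := neg_abs_le b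
    rw [h2, h1]
    nlinarith [abs_nonneg b]
  have h0 : (fun t : ℝ => (q0 + t * v0) ^ 2 + (q1 + t * v1) ^ 2) 0 ≤ 1 := by
    simp only [zero_mul, add_zero]
    exact hq.le
  obtain ⟨t, ht, hte⟩ := intermediate_value_Icc hT hcont.continuousOn ⟨h0, hT1⟩
  refine ⟨t, lt_of_le_of_ne ht.1 ?_, hte⟩
  rintro rfl
  simp only [zero_mul, add_zero] at hte
  linarith

theorem q0 {S : Surf} {q : V3} (hq : StarAt S q) (hq2 : q 2 = 0) : q 0 ^ 2 + q 1 ^ 2 < 1 ∧
    ((∀ u : V2, ‖u‖ < 1 → (S.X u) 2 < 0) ∨ (∀ u : V2, ‖u‖ < 1 → 0 < (S.X u) 2)) := by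
  have hnm := star_not_mem hq
  have hlt : q 0 ^ 2 + q 1 ^ 2 < 1 := by
    by_contra hge
    push Not at hge
    rcases hge.eq_or_lt with h1 | h1
    · exact hnm (CAS_circ_mem S hq2 h1.symm)
    · set r := Real.sqrt (q 0 ^ 2 + q 1 ^ 2) with hr
      have hr2 : r ^ 2 = q 0 ^ 2 + q 1 ^ 2 := Real.sq_sqrt (by positivity)
      have hr0 : 0 ≤ r := Real.sqrt_nonneg _
      have hr1 : 1 < r := by nlinarith
      have hri : 0 < r⁻¹ := by positivity
      have hri1 : r⁻¹ < 1 := inv_lt_one_of_one_lt₀ hr1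
      have hrr : r⁻¹ ^ 2 * (q 0 ^ 2 + q 1 ^ 2) = 1 := by
        rw [← hr2]; field_simp
      have hqne : -q ≠ 0 := by
        intro h
        have h' : q = 0 := neg_eq_zero.1 h
        rw [h'] at h1
        simp at h1
        linarith
      have hp : q + (1 - r⁻¹) • (-q) = r⁻¹ • q := by
        module
      have hm : q + (1 + r⁻¹) • (-q) = (-r⁻¹) • q := by
        module
      have h1s : q + (1 - r⁻¹) • (-q) ∈ S.Sig := by
        rw [hp]
        apply CAS_circ_mem S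
        · simp [hq2]
        · simp only [PiLp.smul_apply, smul_eq_mul]
          rw [← hrr]; ring
      have h2s : q + (1 + r⁻¹) • (-q) ∈ S.Sig := by
        rw [hm]
        apply CAS_circ_mem S
        · simp [hq2]
        · simp only [PiLp.smul_apply, smul_eq_mul]
          rw [← hrr]; ring
      have := hq (-q) hqne (1 - r⁻¹) (1 + r⁻¹) (by linarith) (by linarith) h1s h2s
      linarith
  refine ⟨hlt, ?_⟩
  have hne : ∀ u : V2, ‖u‖ < 1 → (S.X u) 2 ≠ 0 := by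
    intro u hu h2
    set v := S.X u - q with hv
    have hv0 : v ≠ 0 := by
      intro h
      apply hnm
      refine ⟨u, hu.le, ?_⟩
      exact sub_eq_zero.1 h
    have hv2 : v 2 = 0 := by
      rw [hv]; simp [h2, hq2]
    have hvp : 0 < v 0 ^ 2 + v 1 ^ 2 := by
      rcases lt_or_eq_of_le (show 0 ≤ v 0 ^ 2 + v 1 ^ 2 by positivity) with h | h
      · exact h
      · exfalso
        apply hv0
        apply ext3
        · simp; nlinarith
        · simp; nlinarith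
        · simpa using hv2
    obtain ⟨t, ht, htc⟩ := CAS_ray hlt hvp
    have hmem : q + t • v ∈ S.Sig := by
      apply CAS_circ_mem S
      · simp [hq2, hv2]
      · simpa using htc
    have hmem1 : q + (1 : ℝ) • v ∈ S.Sig := by
      rw [hv, one_smul, add_sub_cancel]
      exact S.mem_Sig hu.le
    have ht1 := hq v hv0 t 1 ht.le zero_le_one hmem hmem1
    rw [ht1] at htc
    have hX0 : (S.X u) 0 = q 0 + 1 * v 0 := by rw [hv]; simp
    have hX1 : (S.X u) 1 = q 1 + 1 * v 1 := by rw [hv]; simp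
    have := S.bd2 hu.le h2 (by rw [hX0, hX1]; exact htc)
    linarith
  by_contra hcon
  push Not at hcon
  obtain ⟨⟨u, hu, hu2⟩, ⟨v, hv, hv2⟩⟩ := hcon
  obtain ⟨w, hw, hw2⟩ := CAS_ball.intermediate_value (a := v) (b := u) hv hu
    (CAS_cont S 2).continuousOn ⟨hv2, hu2⟩
  exact hne w hw hw2

/-- all interior points are in the open cone over the open unit disc with apex `q` -/
def InC (S : Surf) (q : V3) : Prop := ∀ u : V2, ‖u‖ < 1 → ∃ τ : ℝ, 0 < τ ∧
  (q + τ • (S.X u - q)) 2 = 0 ∧ (q + τ • (S.X u - q)) 0 ^ 2 + (q + τ • (S.X u - q)) 1 ^ 2 < 1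

theorem dich {S : Surf} {q : V3} (hq : StarAt S q) (hq2 : q 2 ≠ 0) :
    InC S q ∨ (∀ u : V2, ‖u‖ < 1 → ∀ τ : ℝ, 0 < τ → q + τ • (S.X u - q) ∉ Disc) := by
  have hnm := star_not_mem hq
  set d : V2 → ℝ := fun u => q 2 - (S.X u) 2 with hd
  set P0 : V2 → ℝ := fun u => q 0 * d u + q 2 * ((S.X u) 0 - q 0) with hP0
  set P1 : V2 → ℝ := fun u => q 1 * d u + q 2 * ((S.X u) 1 - q 1) with hP1
  have c0 := CAS_cont S 0
  have c1 := CAS_cont S 1
  have c2 := CAS_cont S 2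
  have cd : Continuous d := continuous_const.sub c2
  have cP0 : Continuous P0 := (continuous_const.mul cd).add (continuous_const.mul (c0.sub continuous_const))
  have cP1 : Continuous P1 := (continuous_const.mul cd).add (continuous_const.mul (c1.sub continuous_const))
  set O : Set V2 := {u | 0 < q 2 * d u ∧ P0 u ^ 2 + P1 u ^ 2 < d u ^ 2} with hO
  set F : Set V2 := {u | 0 ≤ q 2 * d u ∧ P0 u ^ 2 + P1 u ^ 2 ≤ d u ^ 2} with hF
  have hOo : IsOpen O := by
    rw [hO]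
    exact (isOpen_lt continuous_const (continuous_const.mul cd)).inter
      (isOpen_lt ((cP0.pow 2).add (cP1.pow 2)) (cd.pow 2))
  have hFc : IsClosed F := by
    rw [hF]
    exact (isClosed_le continuous_const (continuous_const.mul cd)).inter
      (isClosed_le ((cP0.pow 2).add (cP1.pow 2)) (cd.pow 2))
  have hdisj : Disjoint O Fᶜ := by
    rw [Set.disjoint_compl_right_iff_subset]
    rintro u ⟨h1, h2⟩
    exact ⟨h1.le, h2.le⟩
  have hcov : {u : V2 | ‖u‖ < 1} ⊆ O ∪ Fᶜ := by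
    intro u hu
    by_cases huF : u ∈ F
    · left
      obtain ⟨h1, h2⟩ := huF
      have hd0 : d u ≠ 0 := by
        intro h0
        rw [h0] at h2
        have e0 : P0 u = 0 := by nlinarith [sq_nonneg (P0 u), sq_nonneg (P1 u)]
        have e1 : P1 u = 0 := by nlinarith [sq_nonneg (P0 u), sq_nonneg (P1 u)]
        rw [hP0] at e0
        rw [hP1] at e1
        simp only [h0, mul_zero, zero_add, mul_eq_zero, hq2, false_or] at e0 e1
        apply hnm
        refine ⟨u, (le_of_lt hu), ?_⟩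
        apply ext3
        · linarith
        · linarith
        · have : q 2 - (S.X u) 2 = 0 := h0
          linarith
      have hpos : 0 < q 2 * d u := lt_of_le_of_ne h1 (Ne.symm (mul_ne_zero hq2 hd0))
      refine ⟨hpos, lt_of_le_of_ne h2 ?_⟩
      intro he
      have hτ : 0 < q 2 / d u := by
        have : q 2 / d u = (q 2 * d u) / (d u) ^ 2 := by field_simp
        rw [this]; positivity
      have hy2 : (q + (q 2 / d u) • (S.X u - q)) 2 = 0 := by
        simp only [PiLp.add_apply, PiLp.smul_apply, PiLp.sub_apply, smul_eq_mul]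
        have : (S.X u) 2 - q 2 = - d u := by rw [hd]; ring
        rw [this]; field_simp; ring
      have hy0 : (q + (q 2 / d u) • (S.X u - q)) 0 = P0 u / d u := by
        simp only [PiLp.add_apply, PiLp.smul_apply, PiLp.sub_apply, smul_eq_mul]
        rw [hP0]; field_simp
      have hy1 : (q + (q 2 / d u) • (S.X u - q)) 1 = P1 u / d u := by
        simp only [PiLp.add_apply, PiLp.smul_apply, PiLp.sub_apply, smul_eq_mul]
        rw [hP1]; field_simp
      obtain ⟨u', hu', hX⟩ := CAS_circ S hy2 (by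
        rw [hy0, hy1, div_pow, div_pow, ← add_div, he]
        exact div_self (pow_ne_zero 2 hd0))
      have := star_unique hq (u := u') (v := u) (w := S.X u - q) (τ := q 2 / d u) (σ := 1)
        hu'.le (le_of_lt hu) hτ one_pos hX.symm (by rw [one_smul, add_sub_cancel])
      have hh := this.2
      rw [hh] at hu'
      have hu1 : ‖u‖ < 1 := hu
      linarith
    · right
      exact huF
  rcases CAS_ball.subset_or_subset hOo hFc.isOpen_compl hdisj hcov with h | h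
  · left
    intro u hu
    obtain ⟨h1, h2⟩ := h hu
    have hd0 : d u ≠ 0 := by
      intro h0; rw [h0] at h1; simp at h1
    have hτ : 0 < q 2 / d u := by
      have : q 2 / d u = (q 2 * d u) / (d u) ^ 2 := by field_simp
      rw [this]; positivity
    refine ⟨q 2 / d u, hτ, ?_, ?_⟩
    · simp only [PiLp.add_apply, PiLp.smul_apply, PiLp.sub_apply, smul_eq_mul]
      have : (S.X u) 2 - q 2 = - d u := by rw [hd]; ring
      rw [this]; field_simp; ring
    · have hy0 : (q + (q 2 / d u) • (S.X u - q)) 0 = P0 u / d u := by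
        simp only [PiLp.add_apply, PiLp.smul_apply, PiLp.sub_apply, smul_eq_mul]
        rw [hP0]; field_simp
      have hy1 : (q + (q 2 / d u) • (S.X u - q)) 1 = P1 u / d u := by
        simp only [PiLp.add_apply, PiLp.smul_apply, PiLp.sub_apply, smul_eq_mul]
        rw [hP1]; field_simp
      rw [hy0, hy1, div_pow, div_pow, ← add_div, div_lt_one (by positivity)]
      exact h2
  · right
    intro u hu τ hτ hD
    apply h hu
    obtain ⟨h2, h1⟩ := hD
    simp only [PiLp.add_apply, PiLp.smul_apply, PiLp.sub_apply, smul_eq_mul] at h2 h1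
    have e : q 2 = τ * d u := by rw [hd]; linarith
    have e0 : P0 u = d u * (q 0 + τ * ((S.X u) 0 - q 0)) := by
      show q 0 * d u + q 2 * ((S.X u) 0 - q 0) = _
      rw [e]; ring
    have e1 : P1 u = d u * (q 1 + τ * ((S.X u) 1 - q 1)) := by
      show q 1 * d u + q 2 * ((S.X u) 1 - q 1) = _
      rw [e]; ring
    refine ⟨?_, ?_⟩
    · rw [e]
      have : τ * d u * d u = τ * (d u) ^ 2 := by ring
      rw [this]; positivity
    · rw [e0, e1]
      nlinarith [sq_nonneg (d u)]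

theorem oneI {S : Surf} {q : V3} (hq : StarAt S q) (hq2 : q 2 < 0) (hI : InC S q) :
    (∀ u : V2, ‖u‖ < 1 → (S.X u) 2 < 0) ∨ (∀ u : V2, ‖u‖ < 1 → 0 < (S.X u) 2) := by
  have hgt : ∀ u : V2, ‖u‖ < 1 → q 2 < (S.X u) 2 := by
    intro u hu
    obtain ⟨τ, hτ, h2, _⟩ := hI u hu
    simp only [PiLp.add_apply, PiLp.smul_apply, PiLp.sub_apply, smul_eq_mul] at h2
    by_contra hle
    push Not at hle
    nlinarith
  have hcpt : IsCompact (closedBall (0 : V2) 1) := isCompact_closedBall _ _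
  have hne : (closedBall (0 : V2) 1).Nonempty := ⟨0, by simp⟩
  have hc := (CAS_cont S 2).continuousOn (s := closedBall (0 : V2) 1)
  by_contra hcon
  push Not at hcon
  obtain ⟨⟨u, hu, hu2⟩, ⟨v, hv, hv2⟩⟩ := hcon
  have hcb : ∀ w : V2, ‖w‖ < 1 → w ∈ closedBall (0 : V2) 1 := by
    intro w hw
    simpa using hw.le
  obtain ⟨u₁, hu₁, hmax⟩ : ∃ u₁ : V2, ‖u₁‖ < 1 ∧ ∀ w : V2, ‖w‖ < 1 → (S.X w) 2 ≤ (S.X u₁) 2 := by
    obtain ⟨us, hus, hm⟩ := hcpt.exists_isMaxOn hne hc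
    have hus1 : ‖us‖ ≤ 1 := by simpa using hus
    rcases hus1.lt_or_eq with h | h
    · exact ⟨us, h, fun w hw => hm (hcb w hw)⟩
    · refine ⟨u, hu, fun w hw => le_trans (hm (hcb w hw)) ?_⟩
      have := (S.bd1 h).1
      show (S.X us) 2 ≤ (S.X u) 2
      rw [this]; exact hu2
  obtain ⟨u₂, hu₂, hmin⟩ : ∃ u₂ : V2, ‖u₂‖ < 1 ∧ ∀ w : V2, ‖w‖ < 1 → (S.X u₂) 2 ≤ (S.X w) 2 := by
    obtain ⟨us, hus, hm⟩ := hcpt.exists_isMinOn hne hc
    have hus1 : ‖us‖ ≤ 1 := by simpa using hus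
    rcases hus1.lt_or_eq with h | h
    · exact ⟨us, h, fun w hw => hm (hcb w hw)⟩
    · refine ⟨v, hv, fun w hw => le_trans ?_ (hm (hcb w hw))⟩
      have := (S.bd1 h).1
      show (S.X v) 2 ≤ (S.X us) 2
      rw [this]; exact hv2
  have hN1 := max_N S hu₁ hmax
  have hN2 := min_N S hu₂ hmin
  have g1 := hgt u₁ hu₁
  have g2 := hgt u₂ hu₂
  rcases wq_sign hq with h | h
  · have := h u₂ hu₂
    rw [hN2, ip] at this
    simp at this
    linarith
  · have := h u₁ hu₁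
    rw [hN1, ip] at this
    simp at this
    linarith

end Pool.Agent.H99.SC

end S_CAS

section S_RYN

/-!
# RYN: rays through points just below the disc hit the surface

`ryn`: `d` in the open disc.  Case `q 2 ≠ 0` (with `InC S q`): `K = {y : ∃ τ > 0, q + τ (y - q) in the open disc}` is convex
(`y_i = q + (1/τ_i)(d_i - q)`, a convex combination of positive multiples of `d_i - q` is a positive multiple of
`d' - q` with `d'` a convex combination of the `d_i`), hence preconnected; `q ∉ K`; a ray of `K` meets the plane `y 2 = 0`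
only once (`q 2 ≠ 0`), in the open disc, so it does not hit the circle: `hC`; `hne`: `InC`.  `rays`.  For
small `s > 0`: `y = d - s E3 ∈ K` with `τ = q 2/(q 2 + s)`: `q + τ (y - q)` has third coordinate 0 and tends to `d`
as `s → 0`.
Case `q 2 = 0` (surface below the plane): `K = {y 2 < 0}`: convex; rays of `K` do not meet the plane again.
-/


open scoped RealInnerProductSpace Topology
open Metric Filter Set


namespace Pool.Agent.H99.SC

/-- the open unit disc in the horizontal plane -/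
def RYN_OD : Set V3 := {d : V3 | d 2 = 0} ∩ ball 0 1

theorem RYN_mem {d : V3} : d ∈ RYN_OD ↔ d 2 = 0 ∧ d 0 ^ 2 + d 1 ^ 2 < 1 := by
  unfold RYN_OD
  rw [mem_inter_iff, mem_setOf_eq, mem_ball_zero_iff]
  constructor
  · rintro ⟨h1, h2⟩
    refine ⟨h1, ?_⟩
    have h3 := nsq d
    rw [h1] at h3
    nlinarith [norm_nonneg d]
  · rintro ⟨h1, h2⟩
    refine ⟨h1, ?_⟩
    have h3 := nsq d
    rw [h1] at h3
    by_contra hcon
    push Not at hcon
    nlinarith

theorem RYN_convex : Convex ℝ RYN_OD := by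
  refine Convex.inter ?_ (convex_ball 0 1)
  intro x hx y hy a b _ _ _
  have hx' : x 2 = 0 := hx
  have hy' : y 2 = 0 := hy
  simp [hx', hy']

theorem RYN_conn (q : V3) :
    IsPreconnected ((fun p : ℝ × V3 => q + p.1 • (p.2 - q)) '' (Ioi 0 ×ˢ RYN_OD)) := by
  refine IsPreconnected.image (isPreconnected_Ioi.prod RYN_convex.isPreconnected) _ ?_
  exact (continuous_const.add (continuous_fst.smul
    (continuous_snd.sub continuous_const))).continuousOn

theorem ryn {S : Surf} {q : V3} (hq : StarAt S q) (hI : q 2 ≠ 0 → InC S q)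
    (hos : q 2 = 0 → ∀ u : V2, ‖u‖ < 1 → (S.X u) 2 < 0) {d : V3} (h2 : d 2 = 0)
    (h1 : d 0 ^ 2 + d 1 ^ 2 < 1) : ∃ ε : ℝ, 0 < ε ∧ ∀ s : ℝ, 0 < s → s < ε →
      ∃ u : V2, ‖u‖ < 1 ∧ ∃ τ : ℝ, 0 < τ ∧ q + τ • (d - s • E3 - q) = S.X u := by
  by_cases hq2 : q 2 = 0
  · -- the half space
    have hK : IsPreconnected {y : V3 | y 2 < 0} := by
      apply Convex.isPreconnected
      intro x hx y hy a b ha hb hab
      have hx' : x 2 < 0 := hx
      have hy' : y 2 < 0 := hy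
      show (a • x + b • y) 2 < 0
      simp only [PiLp.add_apply, PiLp.smul_apply, smul_eq_mul]
      rcases ha.eq_or_lt with h | h
      · have hb1 : b = 1 := by linarith
        rw [← h, hb1]
        linarith
      · have h3 := mul_neg_of_pos_of_neg h hx'
        have h4 := mul_nonpos_of_nonneg_of_nonpos hb hy'.le
        linarith
    have hr := rays hq hK (by
      intro h
      have h3 : q 2 < 0 := h
      linarith) (by
      intro y hy τ hτ u hu heq
      have hy' : y 2 < 0 := hy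
      have h3 := congrArg (fun v : V3 => v 2) heq
      simp only [PiLp.add_apply, PiLp.smul_apply, PiLp.sub_apply, smul_eq_mul, hq2,
        (S.bd1 hu).1] at h3
      nlinarith) ⟨0, by simp, hos hq2 0 (by simp)⟩
    refine ⟨1, one_pos, fun s hs _ => ?_⟩
    apply hr (d - s • E3)
    show (d - s • E3) 2 < 0
    simp only [PiLp.smul_apply, PiLp.sub_apply, smul_eq_mul, E3_2, h2]
    linarith
  · have hr := rays hq (RYN_conn q) (by
      rintro ⟨⟨r, x⟩, ⟨hr, hx⟩, heq⟩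
      have hr' : 0 < r := hr
      have hx' : x ∈ RYN_OD := hx
      have hx2 : x 2 = 0 := (RYN_mem.1 hx').1
      have h3 := congrArg (fun v : V3 => v 2) heq
      simp only [PiLp.add_apply, PiLp.smul_apply, PiLp.sub_apply, smul_eq_mul, hx2] at h3
      have h4 : r * q 2 = 0 := by linarith
      exact hq2 ((mul_eq_zero.1 h4).resolve_left hr'.ne')) (by
      rintro y ⟨⟨r, x⟩, ⟨hr, hx⟩, heq⟩ τ hτ u hu hXu
      have hr' : 0 < r := hr
      have hx' : x ∈ RYN_OD := hx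
      obtain ⟨hx2, hx1⟩ := RYN_mem.1 hx'
      obtain ⟨b2, b1⟩ := S.bd1 hu
      simp only at heq
      rw [← heq, add_sub_cancel_left, smul_smul] at hXu
      have h3 := congrArg (fun v : V3 => v 2) hXu
      simp only [PiLp.add_apply, PiLp.smul_apply, PiLp.sub_apply, smul_eq_mul, hx2, b2] at h3
      have h4 : (1 - τ * r) * q 2 = 0 := by linarith
      have h5 : τ * r = 1 := by
        have := (mul_eq_zero.1 h4).resolve_right hq2
        linarith
      rw [h5, one_smul, add_sub_cancel] at hXu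
      rw [← hXu] at b1
      linarith) (by
      obtain ⟨τ, hτ, k1, k2⟩ := hI hq2 0 (by simp)
      refine ⟨0, by simp, ⟨1 / τ, q + τ • (S.X 0 - q)⟩, ⟨?_, RYN_mem.2 ⟨k1, k2⟩⟩, ?_⟩
      · show 0 < 1 / τ
        positivity
      · simp only
        rw [add_sub_cancel_left, smul_smul, one_div, inv_mul_cancel₀ hτ.ne', one_smul,
          add_sub_cancel])
    -- the points just below `d`
    have hφ : ∀ᶠ τ : ℝ in 𝓝 1, 0 < τ ∧
        (q 0 + τ * (d 0 - q 0)) ^ 2 + (q 1 + τ * (d 1 - q 1)) ^ 2 < 1 := by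
      refine (eventually_gt_nhds one_pos).and ?_
      have hc : Continuous fun τ : ℝ =>
          (q 0 + τ * (d 0 - q 0)) ^ 2 + (q 1 + τ * (d 1 - q 1)) ^ 2 := by fun_prop
      have h0 : (fun τ : ℝ =>
          (q 0 + τ * (d 0 - q 0)) ^ 2 + (q 1 + τ * (d 1 - q 1)) ^ 2) 1 < 1 := by
        simp only
        have e : (q 0 + 1 * (d 0 - q 0)) ^ 2 + (q 1 + 1 * (d 1 - q 1)) ^ 2 =
            d 0 ^ 2 + d 1 ^ 2 := by ring
        rw [e]
        exact h1
      exact hc.continuousAt.eventually_lt_const h0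
    have ht : ContinuousAt (fun s : ℝ => q 2 / (q 2 + s)) 0 := by
      refine continuousAt_const.div (continuousAt_const.add continuousAt_id) ?_
      simpa using hq2
    have ht1 : Tendsto (fun s : ℝ => q 2 / (q 2 + s)) (𝓝 0) (𝓝 1) := by
      have := ht.tendsto
      rwa [add_zero, div_self hq2] at this
    have hne : ∀ᶠ s : ℝ in 𝓝 0, q 2 + s ≠ 0 := by
      have hc : ContinuousAt (fun s : ℝ => q 2 + s) 0 := continuousAt_const.add continuousAt_id
      exact hc.eventually_ne (by simpa using hq2)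
    obtain ⟨ε, hε, hball⟩ := Metric.eventually_nhds_iff.1 ((ht1.eventually hφ).and hne)
    refine ⟨ε, hε, fun s hs0 hs => ?_⟩
    obtain ⟨⟨a1, a2⟩, a3⟩ := hball (y := s)
      (by rw [Real.dist_eq, sub_zero, abs_of_pos hs0]; exact hs)
    set τ : ℝ := q 2 / (q 2 + s) with hτ
    apply hr (d - s • E3)
    refine ⟨⟨1 / τ, q + τ • ((d - s • E3) - q)⟩, ⟨?_, RYN_mem.2 ⟨?_, ?_⟩⟩, ?_⟩
    · show 0 < 1 / τ
      positivity
    · simp only [PiLp.add_apply, PiLp.smul_apply, PiLp.sub_apply, smul_eq_mul, E3_2, h2]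
      rw [hτ]
      field_simp
      ring
    · simp only [PiLp.add_apply, PiLp.smul_apply, PiLp.sub_apply, smul_eq_mul, E3_0, E3_1,
        mul_zero, sub_zero]
      exact a2
    · simp only
      rw [add_sub_cancel_left, smul_smul, one_div, inv_mul_cancel₀ a1.ne', one_smul,
        add_sub_cancel]

end Pool.Agent.H99.SC

end S_RYN

section S_STR

/-!
# STR: the domain bounded by a compact set met exactly once by every ray from `q`

`Γ` compact, `q ∉ Γ`, every ray from `q` meets `Γ` exactly once; for `y ≠ q` let `T y > 0` with `q + T y (y - q) ∈ Γ`.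
`W = {y : ∀ s ∈ (0,1], q + s (y - q) ∉ Γ} = {q} ∪ {T > 1}`.
* closed complement: `y_k → y`, `s_k ∈ (0,1]`, `q + s_k (y_k - q) ∈ Γ`; subsequence `s_k → s ∈ [0,1]`, the limit is in `Γ`
  so `s ≠ 0`: `W` is open.  `W` bounded: for `|y - q| > sup |Γ - q|`: `T y < 1`.
* `W' = {q} ∪ {T ≥ 1}` is closed: `y_k → y ≠ q`, `T y_k ≥ 1`, `T y_k |y_k - q| ≤ sup |Γ - q|` bounded; subsequence
  `T y_k → τ ≥ 1`, `q + τ (y - q) ∈ Γ`, `τ = T y` by uniqueness.  So `closure W ⊆ W'`; conversely for `T y = 1`,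
  `y = lim q + s (y - q)`, `s → 1-`, `T = 1/s > 1`: `closure W = W'`.
* frontier: `closure W \ W ⊆ {T = 1} = Γ`.
* `y ∈ closure W`, `0 ≤ s ≤ 1`: `s = 0`: `q ∈ W`; `s > 0`, `y ≠ q`: `T (q + s (y - q)) = T y / s ≥ 1`.
* `y ∈ Γ`: `T (q + s (y - q)) = 1/s`.
-/


open scoped RealInnerProductSpace Topology
open Metric Filter Set


namespace Pool.Agent.H99.SC

/-- points before the hit -/
def strW (Γ : Set V3) (q : V3) : Set V3 := {y | ∀ s : ℝ, 0 < s → s ≤ 1 → q + s • (y - q) ∉ Γ}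

/-- the compact hull -/
def STR_hull (Γ : Set V3) (q : V3) : Set V3 :=
  (fun p : V3 × ℝ => q + p.2 • (p.1 - q)) '' (Γ ×ˢ Icc (0 : ℝ) 1) ∪ {q}

theorem STR_compact {Γ : Set V3} (hΓ : IsCompact Γ) (q : V3) : IsCompact (STR_hull Γ q) := by
  refine IsCompact.union ?_ isCompact_singleton
  refine (hΓ.prod isCompact_Icc).image ?_
  fun_prop

theorem STR_q {Γ : Set V3} {q : V3} (hq : q ∉ Γ) : q ∈ strW Γ q := by
  intro s _ _
  rw [sub_self, smul_zero, add_zero]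
  exact hq

theorem STR_in {Γ : Set V3} {q : V3} (hq : q ∉ Γ)
    (huniq : ∀ y : V3, y ≠ q → ∀ τ σ : ℝ, 0 < τ → 0 < σ → q + τ • (y - q) ∈ Γ →
      q + σ • (y - q) ∈ Γ → τ = σ) {z : V3} (hz : z ∈ Γ) {s : ℝ} (hs0 : 0 < s) (hs1 : s < 1) :
    q + s • (z - q) ∈ strW Γ q := by
  intro s₁ h0 h1 hmem
  have hzq : z ≠ q := fun h => hq (h ▸ hz)
  have e : q + s₁ • (q + s • (z - q) - q) = q + (s₁ * s) • (z - q) := by
    rw [add_sub_cancel_left, smul_smul]
  rw [e] at hmem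
  have h2 := huniq z hzq (s₁ * s) 1 (by positivity) one_pos hmem (by simpa using hz)
  nlinarith

theorem STR_sub {Γ : Set V3} {q : V3}
    (hex : ∀ y : V3, y ≠ q → ∃ τ : ℝ, 0 < τ ∧ q + τ • (y - q) ∈ Γ) :
    strW Γ q ⊆ STR_hull Γ q := by
  intro y hy
  by_cases hyq : y = q
  · right; exact hyq
  · left
    obtain ⟨τ, hτ, hmem⟩ := hex y hyq
    have hτ1 : 1 < τ := by
      by_contra h
      exact hy τ hτ (not_lt.1 h) hmem
    refine ⟨(q + τ • (y - q), τ⁻¹), ⟨hmem, ?_, ?_⟩, ?_⟩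
    · exact inv_nonneg.2 hτ.le
    · exact inv_le_one_of_one_le₀ hτ1.le
    · show q + τ⁻¹ • (q + τ • (y - q) - q) = y
      rw [add_sub_cancel_left, smul_smul, inv_mul_cancel₀ hτ.ne', one_smul, add_sub_cancel]

theorem STR_hull_sub {Γ : Set V3} {q : V3} (hq : q ∉ Γ)
    (huniq : ∀ y : V3, y ≠ q → ∀ τ σ : ℝ, 0 < τ → 0 < σ → q + τ • (y - q) ∈ Γ →
      q + σ • (y - q) ∈ Γ → τ = σ) :
    STR_hull Γ q ⊆ strW Γ q ∪ Γ := by
  rintro y (⟨⟨z, s⟩, ⟨hz, hs0, hs1⟩, rfl⟩ | hy)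
  · show q + s • (z - q) ∈ strW Γ q ∪ Γ
    rcases hs0.eq_or_lt with h0 | h0
    · left
      have h0' : s = 0 := h0.symm
      rw [h0', zero_smul, add_zero]
      exact STR_q hq
    · rcases hs1.eq_or_lt with h1 | h1
      · right
        have h1' : s = 1 := h1
        rw [h1', one_smul, add_sub_cancel]
        exact hz
      · left
        exact STR_in hq huniq hz h0 h1
  · left
    rw [mem_singleton_iff.1 hy]
    exact STR_q hq

theorem STR_closure {Γ : Set V3} (hΓ : IsCompact Γ) {q : V3} (hq : q ∉ Γ)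
    (hex : ∀ y : V3, y ≠ q → ∃ τ : ℝ, 0 < τ ∧ q + τ • (y - q) ∈ Γ)
    (huniq : ∀ y : V3, y ≠ q → ∀ τ σ : ℝ, 0 < τ → 0 < σ → q + τ • (y - q) ∈ Γ →
      q + σ • (y - q) ∈ Γ → τ = σ) :
    closure (strW Γ q) = STR_hull Γ q := by
  apply Subset.antisymm
  · exact closure_minimal (STR_sub hex) (STR_compact hΓ q).isClosed
  · refine (STR_hull_sub hq huniq).trans (union_subset subset_closure ?_)
    intro z hz
    have h1 : Tendsto (fun s : ℝ => q + s • (z - q)) (𝓝[<] 1) (𝓝 z) := by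
      have h2 : Tendsto (fun s : ℝ => q + s • (z - q)) (𝓝 1) (𝓝 (q + (1 : ℝ) • (z - q))) := by
        have : Continuous fun s : ℝ => q + s • (z - q) := by fun_prop
        exact this.tendsto 1
      rw [one_smul, add_sub_cancel] at h2
      exact h2.mono_left nhdsWithin_le_nhds
    refine mem_closure_of_tendsto h1 ?_
    have h3 : ∀ᶠ s : ℝ in 𝓝[<] 1, s ∈ Ioo (0 : ℝ) 1 := Ioo_mem_nhdsLT one_pos
    filter_upwards [h3] with s hs
    exact STR_in hq huniq hz hs.1 hs.2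

theorem STR_open {Γ : Set V3} (hΓ : IsCompact Γ) {q : V3} (hq : q ∉ Γ) : IsOpen (strW Γ q) := by
  rw [← isClosed_compl_iff]
  have h1 : (strW Γ q)ᶜ = Prod.fst '' {p : V3 × Icc (0 : ℝ) 1 | q + (p.2 : ℝ) • (p.1 - q) ∈ Γ} := by
    ext y
    constructor
    · intro hy
      have hy' : ¬ ∀ s : ℝ, 0 < s → s ≤ 1 → q + s • (y - q) ∉ Γ := hy
      push Not at hy'
      obtain ⟨s, h0, h1, h2⟩ := hy'
      exact ⟨(y, ⟨s, h0.le, h1⟩), h2, rfl⟩
    · rintro ⟨⟨y', s⟩, h, rfl⟩ hy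
      have h' : q + (s : ℝ) • (y' - q) ∈ Γ := h
      rcases s.2.1.eq_or_lt with h0 | h0
      · rw [← h0, zero_smul, add_zero] at h'
        exact hq h'
      · exact hy s h0 s.2.2 h'
  rw [h1]
  apply isClosedMap_fst_of_compactSpace
  have h2 : Continuous fun p : V3 × Icc (0 : ℝ) 1 => q + (p.2 : ℝ) • (p.1 - q) := by fun_prop
  exact hΓ.isClosed.preimage h2

theorem str {Γ : Set V3} (hΓ : IsCompact Γ) {q : V3} (hq : q ∉ Γ)
    (hex : ∀ y : V3, y ≠ q → ∃ τ : ℝ, 0 < τ ∧ q + τ • (y - q) ∈ Γ)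
    (huniq : ∀ y : V3, y ≠ q → ∀ τ σ : ℝ, 0 < τ → 0 < σ → q + τ • (y - q) ∈ Γ →
      q + σ • (y - q) ∈ Γ → τ = σ) :
    IsOpen (strW Γ q) ∧ Bornology.IsBounded (strW Γ q) ∧ frontier (strW Γ q) ⊆ Γ ∧
    q ∈ strW Γ q ∧
    (∀ y ∈ closure (strW Γ q), ∀ s : ℝ, 0 ≤ s → s ≤ 1 → q + s • (y - q) ∈ closure (strW Γ q)) ∧
    (∀ y ∈ Γ, ∀ s : ℝ, 0 < s → s < 1 → q + s • (y - q) ∈ strW Γ q) ∧
    (∀ y ∈ Γ, ∀ s : ℝ, 1 < s → q + s • (y - q) ∉ closure (strW Γ q)) := by
  have hcl := STR_closure hΓ hq hex huniq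
  have hop := STR_open hΓ hq
  refine ⟨hop, (STR_compact hΓ q).isBounded.subset (STR_sub hex), ?_, STR_q hq, ?_, ?_, ?_⟩
  · intro y hy
    rw [hop.frontier_eq, hcl] at hy
    rcases STR_hull_sub hq huniq hy.1 with h | h
    · exact absurd h hy.2
    · exact h
  · intro y hy s hs0 hs1
    rw [hcl] at hy ⊢
    rcases hy with ⟨⟨z, s'⟩, ⟨hz, hs'0, hs'1⟩, rfl⟩ | hy
    · left
      refine ⟨(z, s * s'), ⟨hz, mul_nonneg hs0 hs'0, ?_⟩, ?_⟩
      · exact mul_le_one₀ hs1 hs'0 hs'1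
      · show q + (s * s') • (z - q) = q + s • (q + s' • (z - q) - q)
        rw [add_sub_cancel_left, smul_smul]
    · right
      rw [mem_singleton_iff.1 hy, sub_self, smul_zero, add_zero]
      rfl
  · intro y hy s hs0 hs1
    exact STR_in hq huniq hy hs0 hs1
  · intro y hy s hs hmem
    rw [hcl] at hmem
    have hyq : y ≠ q := fun h => hq (h ▸ hy)
    have hs0 : 0 < s := by linarith
    rcases hmem with ⟨⟨z, s'⟩, ⟨hz, hs'0, hs'1⟩, he⟩ | hmem
    · have he' : q + s' • (z - q) = q + s • (y - q) := he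
      have he2 : s' • (z - q) = s • (y - q) := add_left_cancel he'
      have hs'pos : 0 < s' := by
        rcases (show (0 : ℝ) ≤ s' from hs'0).eq_or_lt with h | h
        · exfalso
          rw [← h, zero_smul] at he2
          rcases smul_eq_zero.1 he2.symm with h' | h'
          · linarith
          · exact hyq (sub_eq_zero.1 h')
        · exact h
      have h3 : z = q + (s'⁻¹ * s) • (y - q) := by
        rw [mul_smul, ← he2, smul_smul, inv_mul_cancel₀ hs'pos.ne', one_smul, add_sub_cancel]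
      have h4 := huniq y hyq (s'⁻¹ * s) 1 (by positivity) one_pos (h3 ▸ hz) (by simpa using hy)
      have h5 : s = s' := by
        field_simp at h4
        linarith
      have h6 : s' ≤ 1 := hs'1
      linarith
    · rw [mem_singleton_iff] at hmem
      have h2 : s • (y - q) = 0 := by
        have : q + s • (y - q) = q + 0 := by rw [hmem, add_zero]
        exact add_left_cancel this
      rcases smul_eq_zero.1 h2 with h' | h'
      · linarith
      · exact hyq (sub_eq_zero.1 h')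

end Pool.Agent.H99.SC

end S_STR

section S_MKP

/-!
# MKP: building a `PreDom` (the normal points into `W`)

(1) Local: `‖u₀‖ < 1`, box `B` at `u₀`, `e = N u₀`, `ε` small: `B.U ε` disjoint from `Disc` (`disj`, compact),
`‖B.b y‖ < 1`, `y ∈ S.Sig ↔ B.f y = 0` on it (`box_sig`).  `{f > 0} ∩ U` and `{f < 0} ∩ U` are preconnected and avoid
the frontier: each is in `W` or in `(closure W)ᶜ` (`sep`).  `X u₀ ∈ closure W`: `U ∩ W` is open nonempty and contains a point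
with `f ≠ 0` (move along `e`: `B.f` changes), so one side is in `W`; same with `(closure W)ᶜ`: one side is outside.
(2) `A = {u : ‖u‖ < 1, for small s > 0: X u + s N u ∈ W and X u - s N u ∉ closure W}`, `A'` = the opposite.  By (1) both
are open in the open disc (points `X u ± s N u` for `u` near `u₀` are on the sides `f > 0`, `f < 0`), disjoint, and cover
it: one of them is everything.
(3) The minimum `m` of `(X u) 2` over the closed disc is `< 0` (`hlow`), attained at an interior `u₁` (`bd1`); `min_N`: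
`N u₁ = E3`.  The half space `{y 2 < m}` is convex, disjoint from `S.Sig ∪ Disc`, unbounded, so it is outside the
closure of the bounded set `W` (`sep`).  So `u₁ ∈ A` and `A` is everything: `inS`.
-/


open scoped RealInnerProductSpace Topology
open Metric Filter Set


namespace Pool.Agent.H99.SC

/-- near a point of the box `f` has the sign of the normal displacement -/
theorem MKP_sign {S : Surf} {u₀ : V2} {e : V3} (B : Box S.X u₀ e) {u : V2} (hu : ‖u‖ ≤ 1)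
    (hur : ‖u - u₀‖ < B.r) :
    ∃ δ : ℝ, 0 < δ ∧ ∀ s : ℝ, 0 < s → s < δ →
      0 < B.f (S.X u + s • S.N u) ∧ B.f (S.X u - s • S.N u) < 0 := by
  have hyU : S.X u ∈ B.U B.r := ⟨u, 0, hur, by simpa using B.hr, by simp⟩
  have hb : B.b (S.X u) = u := B.b_X hur
  have hf0 : B.f (S.X u) = 0 := B.f_X hur
  have hNN : (NN S.X u) = S.N u := rfl
  have hin : 0 < ⟪B.g (S.X u), S.N u⟫ := by
    have h1 := B.g_eq hyU
    have h2 := B.g_pos hyU
    have h3 := S.N_norm hu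
    rw [h1, hb, hNN, inner_smul_left, real_inner_self_eq_norm_sq, h3]
    simpa using h2
  have hd : HasFDerivAt B.f (fderiv ℝ B.f (S.X u)) (S.X u) :=
    ((B.smooth_f hyU).differentiableAt (by norm_num)).hasFDerivAt
  have hline : HasDerivAt (fun s : ℝ => S.X u + s • S.N u) (S.N u) 0 := by
    have := ((hasDerivAt_id (0 : ℝ)).smul_const (S.N u)).const_add (S.X u)
    simpa using this
  have hcomp : HasDerivAt (fun s : ℝ => B.f (S.X u + s • S.N u))
      (⟪B.g (S.X u), S.N u⟫) 0 := by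
    have h1 : HasFDerivAt B.f (fderiv ℝ B.f (S.X u)) (S.X u + (0 : ℝ) • S.N u) := by
      simpa using hd
    have h2 := h1.comp_hasDerivAt (0 : ℝ) hline
    rw [B.fd S.smooth hyU] at h2
    exact h2
  have hslope := hasDerivAt_iff_tendsto_slope.1 hcomp
  have hev := hslope.eventually (lt_mem_nhds hin)
  rw [eventually_nhdsWithin_iff, Metric.eventually_nhds_iff] at hev
  obtain ⟨δ, hδ, h⟩ := hev
  refine ⟨δ, hδ, fun s hs hsδ => ?_⟩
  have hz : B.f (S.X u + (0 : ℝ) • S.N u) = 0 := by simpa using hf0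
  constructor
  · have h1 := h (y := s) (by simpa [abs_of_pos hs] using hsδ) hs.ne'
    rw [slope_def_field, hz, sub_zero, sub_zero] at h1
    exact (div_pos_iff_of_pos_right hs).1 h1
  · have h1 := h (y := -s) (by simpa [abs_of_pos hs] using hsδ) (neg_ne_zero.2 hs.ne')
    rw [slope_def_field, hz, sub_zero, sub_zero] at h1
    have h2 : (-s) • S.N u = -(s • S.N u) := neg_smul _ _
    rw [h2, ← sub_eq_add_neg] at h1
    by_contra hcon
    push Not at hcon
    have := div_nonpos_of_nonneg_of_nonpos hcon (neg_nonpos.2 hs.le)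
    linarith

/-- an open set meeting the box neighbourhood contains a point of it off the surface -/
theorem MKP_off {S : Surf} {u₀ : V2} {e : V3} (B : Box S.X u₀ e) {ε : ℝ}
    (hεr : ε ≤ B.r) {O : Set V3} (hO : IsOpen O) (h : (B.U ε ∩ O).Nonempty) :
    ∃ y ∈ B.U ε, y ∈ O ∧ B.f y ≠ 0 := by
  obtain ⟨y, hy, hyO⟩ := h
  by_cases hf : B.f y = 0
  · obtain ⟨h1, h2, h3⟩ := B.coord hεr hy
    have hε : 0 < ε := lt_of_le_of_lt (abs_nonneg _) h2
    rw [hf, zero_smul, add_zero] at h3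
    have h4 : ∀ᶠ s : ℝ in 𝓝[>] 0, y + s • e ∈ O :=
      (lsig_tend y e).eventually (hO.mem_nhds hyO)
    obtain ⟨s, hs, hs1, hs2⟩ := (h4.and (lsig_ev hε)).exists
    have h5 : |s| < ε := by rw [abs_of_pos hs1]; exact hs2
    have h6 : S.X (B.b y) + s • e ∈ B.U ε := B.mk_mem h1 h5
    have h7 := (B.left (B.b y) s (h1.trans_le hεr) (h5.trans_le hεr)).2
    rw [h3] at h6 h7
    exact ⟨_, h6, hs, by rw [h7]; exact hs1.ne'⟩
  · exact ⟨y, hy, hyO, hf⟩

theorem MKP_loc (S : Surf) {W : Set V3} (hO : IsOpen W)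
    (hfr : frontier W ⊆ S.Sig ∪ Disc) (disj : ∀ u : V2, ‖u‖ < 1 → S.X u ∉ Disc)
    (hW : ∀ u : V2, ‖u‖ < 1 → S.X u ∈ closure W)
    (hE : ∀ u : V2, ‖u‖ < 1 → S.X u ∈ closure ((closure W)ᶜ)) {u₀ : V2} (hu₀ : ‖u₀‖ < 1) :
    ∃ ε : ℝ, 0 < ε ∧
      ((∀ u : V2, ‖u - u₀‖ < ε → ‖u‖ < 1 → ∃ η : ℝ, 0 < η ∧ ∀ s : ℝ, 0 < s → s < η →
        S.X u + s • S.N u ∈ W ∧ S.X u - s • S.N u ∉ closure W) ∨
      (∀ u : V2, ‖u - u₀‖ < ε → ‖u‖ < 1 → ∃ η : ℝ, 0 < η ∧ ∀ s : ℝ, 0 < s → s < η →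
        S.X u - s • S.N u ∈ W ∧ S.X u + s • S.N u ∉ closure W)) := by
  have hpos : 0 < ⟪nn S.X u₀, S.N u₀⟫ := by
    have h1 := S.nn_pos hu₀.le
    have h2 := S.nn_eq hu₀.le
    have h3 := S.N_norm hu₀.le
    rw [h2, inner_smul_left, real_inner_self_eq_norm_sq, h3]
    simpa using h1
  obtain ⟨B⟩ := exists_box S.smooth hpos
  obtain ⟨ε₁, hε₁, hε₁r, -, hsig⟩ := box_sig S hu₀.le B
  obtain ⟨ε₂, hε₂, -, hU₂⟩ := B.small S.smooth.continuous
    (isCompact_Disc.isClosed.isOpen_compl.mem_nhds (disj u₀ hu₀))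
  obtain ⟨ε, hε, he1, he2⟩ : ∃ ε : ℝ, 0 < ε ∧ ε ≤ ε₁ ∧ ε ≤ ε₂ :=
    ⟨min ε₁ ε₂, lt_min hε₁ hε₂, min_le_left _ _, min_le_right _ _⟩
  have hεr : ε ≤ B.r := he1.trans hε₁r
  have hD : ∀ y ∈ B.U ε, y ∉ Disc := fun y hy => hU₂ (B.U_mono he2 hy)
  have hS : ∀ y ∈ B.U ε, y ∈ S.Sig → B.f y = 0 := fun y hy h => ((hsig y (B.U_mono he1 hy)).1 h).1
  have hnh : B.U ε ∈ 𝓝 (S.X u₀) := B.U_nhds hε hεr
  have sp := sep hO (B.preconn_pos S.smooth.continuous hε hεr) (by
      rw [Set.disjoint_left]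
      rintro y ⟨hy, hf⟩ hyF
      rcases hfr hyF with h | h
      · exact hf.ne' (hS y hy h)
      · exact hD y hy h)
  have sn := sep hO (B.preconn_neg S.smooth.continuous hε hεr) (by
      rw [Set.disjoint_left]
      rintro y ⟨hy, hf⟩ hyF
      rcases hfr hyF with h | h
      · exact hf.ne (hS y hy h)
      · exact hD y hy h)
  -- points of both kinds off the surface
  obtain ⟨y1, hy1, hy1W, hy1f⟩ := MKP_off B hεr hO (mem_closure_iff_nhds.1 (hW u₀ hu₀) _ hnh)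
  obtain ⟨y2, hy2, hy2W, hy2f⟩ := MKP_off B hεr isClosed_closure.isOpen_compl
    (mem_closure_iff_nhds.1 (hE u₀ hu₀) _ hnh)
  -- the points near the surface
  have hnear : ∀ u : V2, ‖u - u₀‖ < ε → ‖u‖ < 1 → ∃ η : ℝ, 0 < η ∧ ∀ s : ℝ, 0 < s → s < η →
      (S.X u + s • S.N u ∈ B.U ε ∧ 0 < B.f (S.X u + s • S.N u)) ∧
      (S.X u - s • S.N u ∈ B.U ε ∧ B.f (S.X u - s • S.N u) < 0) := by
    intro u hu hu1
    obtain ⟨δ, hδ, hsgn⟩ := MKP_sign B hu1.le (hu.trans_le hεr)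
    have hmem : S.X u ∈ B.U ε := ⟨u, 0, hu, by simpa using hε, by simp⟩
    have hn : B.U ε ∈ 𝓝 (S.X u) := (B.U_open hε hεr).mem_nhds hmem
    have h1 : ∀ᶠ s : ℝ in 𝓝[>] 0, S.X u + s • S.N u ∈ B.U ε :=
      (lsig_tend (S.X u) (S.N u)).eventually hn
    have h2 : ∀ᶠ s : ℝ in 𝓝[>] 0, S.X u - s • S.N u ∈ B.U ε :=
      (lsig_tend' (S.X u) (S.N u)).eventually hn
    have h3 := h1.and h2
    rw [eventually_nhdsWithin_iff, Metric.eventually_nhds_iff] at h3
    obtain ⟨δ', hδ', h4⟩ := h3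
    refine ⟨min δ δ', lt_min hδ hδ', fun s hs hs' => ?_⟩
    have h5 := h4 (y := s) (by
      rw [Real.dist_eq, sub_zero, abs_of_pos hs]
      exact hs'.trans_le (min_le_right _ _)) hs
    have h6 := hsgn s hs (hs'.trans_le (min_le_left _ _))
    exact ⟨⟨h5.1, h6.1⟩, ⟨h5.2, h6.2⟩⟩
  refine ⟨ε, hε, ?_⟩
  rcases sp with sp | sp <;> rcases sn with sn | sn
  · exfalso
    rcases lt_or_gt_of_ne hy2f with h | h
    · exact hy2W (subset_closure (sn ⟨hy2, h⟩))
    · exact hy2W (subset_closure (sp ⟨hy2, h⟩))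
  · left
    intro u hu hu1
    obtain ⟨η, hη, h⟩ := hnear u hu hu1
    exact ⟨η, hη, fun s hs hs' => ⟨sp (h s hs hs').1, sn (h s hs hs').2⟩⟩
  · right
    intro u hu hu1
    obtain ⟨η, hη, h⟩ := hnear u hu hu1
    exact ⟨η, hη, fun s hs hs' => ⟨sn (h s hs hs').2, sp (h s hs hs').1⟩⟩
  · exfalso
    rcases lt_or_gt_of_ne hy1f with h | h
    · exact sn ⟨hy1, h⟩ (subset_closure hy1W)
    · exact sp ⟨hy1, h⟩ (subset_closure hy1W)

theorem mkp (S : Surf) {W : Set V3} (hO : IsOpen W) (hb : Bornology.IsBounded W)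
    (hfr : frontier W ⊆ S.Sig ∪ Disc) (disj : ∀ u : V2, ‖u‖ < 1 → S.X u ∉ Disc)
    (hW : ∀ u : V2, ‖u‖ < 1 → S.X u ∈ closure W)
    (hE : ∀ u : V2, ‖u‖ < 1 → S.X u ∈ closure ((closure W)ᶜ))
    (hD : ∀ d : V3, d 2 = 0 → d 0 ^ 2 + d 1 ^ 2 < 1 → ∃ ε : ℝ, 0 < ε ∧ ∀ s : ℝ, 0 < s → s < ε →
      d - s • E3 ∈ W ∧ d + s • E3 ∉ closure W)
    (hlow : ∃ u : V2, ‖u‖ < 1 ∧ (S.X u) 2 < 0) : ∃ D : PreDom S, D.W = W := by
  set A : Set V2 := {u | ‖u‖ < 1 ∧ ∃ η : ℝ, 0 < η ∧ ∀ s : ℝ, 0 < s → s < η →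
        S.X u + s • S.N u ∈ W ∧ S.X u - s • S.N u ∉ closure W} with hA
  set A' : Set V2 := {u | ‖u‖ < 1 ∧ ∃ η : ℝ, 0 < η ∧ ∀ s : ℝ, 0 < s → s < η →
        S.X u - s • S.N u ∈ W ∧ S.X u + s • S.N u ∉ closure W} with hA'
  have hdj : Disjoint A A' := by
    rw [Set.disjoint_left]
    rintro u ⟨-, η, hη, h⟩ ⟨-, η', hη', h'⟩
    have hs : 0 < min η η' / 2 := by positivity
    have h1 := h (min η η' / 2) hs (by
      have := min_le_left η η'
      have : 0 < min η η' := lt_min hη hη'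
      linarith)
    have h2 := h' (min η η' / 2) hs (by
      have := min_le_right η η'
      have : 0 < min η η' := lt_min hη hη'
      linarith)
    exact h1.2 (subset_closure h2.1)
  have hball : ∀ (u₀ : V2) (r : ℝ), ‖u₀‖ < 1 → 0 < r →
      ∃ δ : ℝ, 0 < δ ∧ δ ≤ r ∧ ∀ u : V2, ‖u - u₀‖ < δ → ‖u‖ < 1 := by
    intro u₀ r h hr
    refine ⟨min r (1 - ‖u₀‖), lt_min hr (by linarith), min_le_left _ _, fun u hu => ?_⟩
    have h1 : ‖u‖ ≤ ‖u - u₀‖ + ‖u₀‖ := by
      simpa using norm_add_le (u - u₀) u₀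
    have h2 := hu.trans_le (min_le_right _ _)
    linarith
  have hloc : ∀ u₀ : V2, ‖u₀‖ < 1 → ∃ δ : ℝ, 0 < δ ∧
      ((∀ u : V2, ‖u - u₀‖ < δ → u ∈ A) ∨ (∀ u : V2, ‖u - u₀‖ < δ → u ∈ A')) := by
    intro u₀ h
    obtain ⟨ε, hε, h1⟩ := MKP_loc S hO hfr disj hW hE h
    obtain ⟨δ, hδ, hδε, h2⟩ := hball u₀ ε h hε
    refine ⟨δ, hδ, ?_⟩
    rcases h1 with h1 | h1
    · left
      intro u hu
      exact ⟨h2 u hu, h1 u (hu.trans_le hδε) (h2 u hu)⟩
    · right
      intro u hu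
      exact ⟨h2 u hu, h1 u (hu.trans_le hδε) (h2 u hu)⟩
  have hAo : IsOpen A := by
    rw [Metric.isOpen_iff]
    intro u₀ hu₀
    obtain ⟨δ, hδ, h⟩ := hloc u₀ hu₀.1
    rcases h with h | h
    · exact ⟨δ, hδ, fun u hu => h u (mem_ball_iff_norm.1 hu)⟩
    · exfalso
      exact Set.disjoint_left.1 hdj hu₀ (h u₀ (by simpa using hδ))
  have hAo' : IsOpen A' := by
    rw [Metric.isOpen_iff]
    intro u₀ hu₀
    obtain ⟨δ, hδ, h⟩ := hloc u₀ hu₀.1
    rcases h with h | h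
    · exfalso
      exact Set.disjoint_left.1 hdj (h u₀ (by simpa using hδ)) hu₀
    · exact ⟨δ, hδ, fun u hu => h u (mem_ball_iff_norm.1 hu)⟩
  have hcov : ball (0 : V2) 1 ⊆ A ∪ A' := by
    intro u hu
    rw [mem_ball_zero_iff] at hu
    obtain ⟨δ, hδ, h⟩ := hloc u hu
    rcases h with h | h
    · exact Or.inl (h u (by simpa using hδ))
    · exact Or.inr (h u (by simpa using hδ))
  -- the lowest point
  obtain ⟨u₂, hu₂, hlow₂⟩ := hlow
  have hcont : Continuous (fun u : V2 => (S.X u) 2) :=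
    (lsig_coord_cont 2).comp S.smooth.continuous
  obtain ⟨u₁, hu₁, hmin⟩ := (isCompact_closedBall (0 : V2) 1).exists_isMinOn
    ⟨0, by simp⟩ hcont.continuousOn
  have hmin' : ∀ u : V2, ‖u‖ ≤ 1 → (S.X u₁) 2 ≤ (S.X u) 2 := by
    intro u hu
    exact hmin (mem_closedBall_zero_iff.2 hu)
  have hm : (S.X u₁) 2 < 0 := (hmin' u₂ hu₂.le).trans_lt hlow₂
  have hu₁' : ‖u₁‖ < 1 := by
    rw [mem_closedBall_zero_iff] at hu₁
    rcases hu₁.eq_or_lt with h | h
    · exfalso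
      have := (S.bd1 h).1
      linarith
    · exact h
  have hN := min_N S hu₁' (fun u hu => hmin' u hu.le)
  set m : ℝ := (S.X u₁) 2 with hmdef
  have hcv : Convex ℝ {y : V3 | y 2 < m} := by
    intro x hx y hy a b ha hb hab
    have hx' : x 2 < m := hx
    have hy' : y 2 < m := hy
    show (a • x + b • y) 2 < m
    simp only [PiLp.add_apply, PiLp.smul_apply, smul_eq_mul]
    rcases ha.eq_or_lt with h | h
    · have hb1 : b = 1 := by linarith
      rw [← h, hb1]; linarith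
    · have h3 := mul_lt_mul_of_pos_left hx' h
      have h4 := mul_le_mul_of_nonneg_left hy'.le hb
      have h5 : a * m + b * m = m := by rw [← add_mul, hab, one_mul]
      linarith
  have hhalf : {y : V3 | y 2 < m} ⊆ (closure W)ᶜ := by
    rcases sep hO hcv.isPreconnected (by
      rw [Set.disjoint_left]
      intro y hy hyF
      have hy' : y 2 < m := hy
      rcases hfr hyF with h | h
      · obtain ⟨v, hv, rfl⟩ := h
        have := hmin' v hv
        linarith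
      · have := h.1
        linarith) with h | h
    · exfalso
      obtain ⟨R, hR⟩ := hb.exists_norm_le
      have h1 : (m - 1 - |R|) • E3 ∈ {y : V3 | y 2 < m} := by
        show ((m - 1 - |R|) • E3) 2 < m
        simp only [PiLp.smul_apply, smul_eq_mul, E3_2, mul_one]
        have := abs_nonneg R
        linarith
      have h2 := hR _ (h h1)
      have h3 : ‖((m - 1 - |R|) • E3 : V3) 2‖ ≤ ‖((m - 1 - |R|) • E3 : V3)‖ :=
        PiLp.norm_apply_le _ _
      simp only [PiLp.smul_apply, smul_eq_mul, E3_2, mul_one, Real.norm_eq_abs] at h3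
      have h4 := le_abs_self R
      have h5 := abs_nonneg R
      rw [abs_of_neg (show m - 1 - |R| < 0 by linarith)] at h3
      linarith
    · exact h
  have hu₁A : u₁ ∈ A := by
    rcases hcov (mem_ball_zero_iff.2 hu₁') with h | h
    · exact h
    · exfalso
      obtain ⟨-, η, hη, h⟩ := h
      have h1 := (h (η / 2) (by positivity) (by linarith)).1
      have h2 : S.X u₁ - (η / 2) • S.N u₁ ∈ {y : V3 | y 2 < m} := by
        show (S.X u₁ - (η / 2) • S.N u₁) 2 < m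
        rw [hN]
        simp only [PiLp.sub_apply, PiLp.smul_apply, smul_eq_mul, E3_2, mul_one]
        linarith
      exact hhalf h2 (subset_closure h1)
  have hall : ball (0 : V2) 1 ⊆ A :=
    (convex_ball (0 : V2) 1).isPreconnected.subset_left_of_subset_union hAo hAo' hdj hcov
      ⟨u₁, mem_ball_zero_iff.2 hu₁', hu₁A⟩
  exact ⟨{ W := W, isOpen := hO, bdd := hb, fr := hfr, disj := disj
           inS := fun u hu => (hall (mem_ball_zero_iff.2 hu)).2
           inD := hD }, rfl⟩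

end Pool.Agent.H99.SC

end S_MKP

section S_DMA

/-!
# DMA: all rays outside the closed cone hit the surface (case O)

`q 2 < 0`, `h = - q 2`.  `K = {y : y ≠ q ∧ ∀ τ > 0, q + τ (y - q) ∉ Disc}`.  With `x = y - q` and
`w = (h x 0 + x 2 q 0, h x 1 + x 2 q 1)`: `q + τ x ∈ Disc` for some `τ > 0` iff `x 2 > 0` and `|w| ≤ x 2` (`τ = h/x 2`).
So `K = {y : x 2 < |w|}` (if `x 2 ≤ 0` and `x ≠ 0` then `x 2 < |w|`: clear for `x 2 < 0`; for `x 2 = 0`, `w = h x' ≠ 0`).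
`cone_compl`: `K` is preconnected: with `v = (q 0/h, q 1/h, -1)`, moving along `y + t v`, `t ≥ 0`, keeps `w` fixed and
decreases `x 2`, so stays in `K` and reaches `{x 2 < 0}`, which is convex and contained in `K`
(`isPreconnected_of_forall` with a base point in `{x 2 < 0}`: union of a segment and a half space).
`rayO`: `rays` for `K`: `hC`: circle points are in `Disc`; `hne`: `hO` for `u = 0` and `star_not_mem`.
-/


open scoped RealInnerProductSpace Topology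
open Metric Filter Set


namespace Pool.Agent.H99.SC

/-- the complement of the closed cone in coordinates -/
theorem DMA_char {q : V3} (hq2 : q 2 < 0) (y : V3) :
    (y ≠ q ∧ ∀ τ : ℝ, 0 < τ → q + τ • (y - q) ∉ Disc) ↔
      (y 2 - q 2 < 0 ∨ (y 2 - q 2) ^ 2 <
        (-q 2 * (y 0 - q 0) + (y 2 - q 2) * q 0) ^ 2 +
        (-q 2 * (y 1 - q 1) + (y 2 - q 2) * q 1) ^ 2) := by
  constructor
  · rintro ⟨hne, h⟩
    by_contra hcon
    push Not at hcon
    obtain ⟨h1, h2⟩ := hcon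
    rcases h1.eq_or_lt with h3 | h3
    · rw [← h3] at h2
      have e0 : (-q 2 * (y 0 - q 0)) ^ 2 + (-q 2 * (y 1 - q 1)) ^ 2 ≤ 0 := by
        simpa using h2
      have a0 : (-q 2 * (y 0 - q 0)) ^ 2 = 0 :=
        le_antisymm (by linarith [sq_nonneg (-q 2 * (y 1 - q 1))]) (sq_nonneg _)
      have a1 : (-q 2 * (y 1 - q 1)) ^ 2 = 0 :=
        le_antisymm (by linarith [sq_nonneg (-q 2 * (y 0 - q 0))]) (sq_nonneg _)
      have b0 : y 0 - q 0 = 0 := by
        rcases mul_eq_zero.1 (pow_eq_zero_iff (two_ne_zero)|>.1 a0) with h | h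
        · linarith
        · exact h
      have b1 : y 1 - q 1 = 0 := by
        rcases mul_eq_zero.1 (pow_eq_zero_iff (two_ne_zero)|>.1 a1) with h | h
        · linarith
        · exact h
      exact hne (ext3 _ _ (by linarith) (by linarith) (by linarith))
    · refine h (-q 2 / (y 2 - q 2)) (div_pos (by linarith) h3) ⟨?_, ?_⟩
      · simp only [PiLp.add_apply, PiLp.smul_apply, PiLp.sub_apply, smul_eq_mul]
        field_simp
        ring
      · simp only [PiLp.add_apply, PiLp.smul_apply, PiLp.sub_apply, smul_eq_mul]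
        have e : (q 0 + -q 2 / (y 2 - q 2) * (y 0 - q 0)) ^ 2 +
            (q 1 + -q 2 / (y 2 - q 2) * (y 1 - q 1)) ^ 2 =
            ((-q 2 * (y 0 - q 0) + (y 2 - q 2) * q 0) ^ 2 +
              (-q 2 * (y 1 - q 1) + (y 2 - q 2) * q 1) ^ 2) / (y 2 - q 2) ^ 2 := by
          field_simp
          ring
        rw [e, div_le_one (by positivity)]
        exact h2
  · rintro (h | h)
    · refine ⟨fun he => ?_, fun τ hτ hD => ?_⟩
      · rw [he] at h
        linarith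
      · have h1 := hD.1
        simp only [PiLp.add_apply, PiLp.smul_apply, PiLp.sub_apply, smul_eq_mul] at h1
        have := mul_neg_of_pos_of_neg hτ h
        linarith
    · refine ⟨fun he => ?_, fun τ hτ hD => ?_⟩
      · rw [he] at h
        simp at h
      · have h1 := hD.1
        have h2 := hD.2
        simp only [PiLp.add_apply, PiLp.smul_apply, PiLp.sub_apply, smul_eq_mul] at h1 h2
        have h3 : τ * (y 2 - q 2) = -q 2 := by linarith
        have h4 := mul_le_mul_of_nonneg_left h2 (sq_nonneg (y 2 - q 2))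
        have e : (y 2 - q 2) ^ 2 * ((q 0 + τ * (y 0 - q 0)) ^ 2 + (q 1 + τ * (y 1 - q 1)) ^ 2) =
            (-q 2 * (y 0 - q 0) + (y 2 - q 2) * q 0) ^ 2 +
              (-q 2 * (y 1 - q 1) + (y 2 - q 2) * q 1) ^ 2 := by
          rw [← h3]
          ring
        rw [e] at h4
        linarith

theorem DMA_half (q : V3) : Convex ℝ {y : V3 | y 2 - q 2 < 0} := by
  intro x hx y hy a b ha hb hab
  have hx' : x 2 < q 2 := by have : x 2 - q 2 < 0 := hx; linarith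
  have hy' : y 2 < q 2 := by have : y 2 - q 2 < 0 := hy; linarith
  show (a • x + b • y) 2 - q 2 < 0
  simp only [PiLp.add_apply, PiLp.smul_apply, smul_eq_mul]
  rcases ha.eq_or_lt with h | h
  · have hb1 : b = 1 := by linarith
    rw [← h, hb1]; linarith
  · have h3 := mul_lt_mul_of_pos_left hx' h
    have h4 := mul_le_mul_of_nonneg_left hy'.le hb
    have h5 : a * q 2 + b * q 2 = q 2 := by rw [← add_mul, hab, one_mul]
    linarith

theorem cone_compl {q : V3} (hq2 : q 2 < 0) :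
    IsPreconnected {y : V3 | y ≠ q ∧ ∀ τ : ℝ, 0 < τ → q + τ • (y - q) ∉ Disc} := by
  have hsub : {y : V3 | y 2 - q 2 < 0} ⊆
      {y : V3 | y ≠ q ∧ ∀ τ : ℝ, 0 < τ → q + τ • (y - q) ∉ Disc} := by
    intro y hy
    exact (DMA_char hq2 y).2 (Or.inl hy)
  set v : V3 := !₂[q 0 / (-q 2), q 1 / (-q 2), -1] with hv
  have v0 : v 0 = q 0 / (-q 2) := by simp [hv]
  have v1 : v 1 = q 1 / (-q 2) := by simp [hv]
  have v2 : v 2 = -1 := by simp [hv]
  have hq2' : -q 2 ≠ 0 := by linarith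
  refine isPreconnected_of_forall (q - E3) (fun y hy => ?_)
  have hy' := (DMA_char hq2 y).1 hy
  set T : ℝ := |y 2 - q 2| + 1 with hT
  have hT0 : 0 ≤ T := by positivity
  have hyT : y + T • v ∈ {y : V3 | y 2 - q 2 < 0} := by
    show (y + T • v) 2 - q 2 < 0
    simp only [PiLp.add_apply, PiLp.smul_apply, smul_eq_mul, v2]
    have := le_abs_self (y 2 - q 2)
    linarith
  refine ⟨(fun t : ℝ => y + t • v) '' Icc 0 T ∪ {y : V3 | y 2 - q 2 < 0}, ?_, ?_, ?_, ?_⟩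
  · refine Set.union_subset ?_ hsub
    rintro _ ⟨t, ⟨ht0, -⟩, rfl⟩
    refine (DMA_char hq2 _).2 ?_
    simp only [PiLp.add_apply, PiLp.smul_apply, smul_eq_mul, v0, v1, v2]
    have e0 : -q 2 * (y 0 + t * (q 0 / -q 2) - q 0) + (y 2 + t * -1 - q 2) * q 0 =
        -q 2 * (y 0 - q 0) + (y 2 - q 2) * q 0 := by
      have h0 : -q 2 * (q 0 / -q 2) = q 0 := mul_div_cancel₀ (q 0) hq2'
      linear_combination t * h0
    have e1 : -q 2 * (y 1 + t * (q 1 / -q 2) - q 1) + (y 2 + t * -1 - q 2) * q 1 =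
        -q 2 * (y 1 - q 1) + (y 2 - q 2) * q 1 := by
      have h0 : -q 2 * (q 1 / -q 2) = q 1 := mul_div_cancel₀ (q 1) hq2'
      linear_combination t * h0
    rw [e0, e1]
    rcases hy' with h | h
    · left; linarith
    · rcases lt_or_ge (y 2 + t * -1 - q 2) 0 with h3 | h3
      · exact Or.inl h3
      · right
        refine lt_of_le_of_lt ?_ h
        exact pow_le_pow_left₀ h3 (by linarith) 2
  · right
    show (q - E3) 2 - q 2 < 0
    simp
  · left
    exact ⟨0, ⟨le_rfl, hT0⟩, by simp⟩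
  · refine IsPreconnected.union (y + T • v) ⟨T, ⟨hT0, le_rfl⟩, rfl⟩ hyT ?_
      (DMA_half q).isPreconnected
    refine isPreconnected_Icc.image _ ?_
    fun_prop

theorem rayO {S : Surf} {q : V3} (hq : StarAt S q) (hq2 : q 2 < 0)
    (hO : ∀ u : V2, ‖u‖ < 1 → ∀ τ : ℝ, 0 < τ → q + τ • (S.X u - q) ∉ Disc) {y : V3}
    (hy : y ≠ q) (h : ∀ τ : ℝ, 0 < τ → q + τ • (y - q) ∉ Disc) :
    ∃ u : V2, ‖u‖ < 1 ∧ ∃ τ : ℝ, 0 < τ ∧ q + τ • (y - q) = S.X u := by
  refine rays hq (cone_compl hq2) (fun hc => hc.1 rfl) ?_ ?_ y ⟨hy, h⟩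
  · rintro z ⟨-, hz⟩ τ hτ u hu he
    obtain ⟨h1, h2⟩ := S.bd1 hu
    exact hz τ hτ (by rw [he]; exact ⟨h1, h2.le⟩)
  · refine ⟨0, by simp, fun he => ?_, fun τ hτ => hO 0 (by simp) τ hτ⟩
    exact star_not_mem hq (by rw [← he]; exact S.mem_Sig (by simp))

end Pool.Agent.H99.SC

end S_DMA

section S_DMO

/-!
# DMO: the domain in case O

`Γ = S.Sig ∪ Disc`, compact, `q ∉ Γ` (`star_not_mem`, `q 2 < 0`).
`hex`: `y ≠ q`: either some `q + τ (y - q) ∈ Disc`, or `rayO`.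
`huniq`: two points in `S.Sig`: `star_unique`; two in `Disc`: third coordinate (`q 2 < 0`) determines `τ`; one `X u` and one `d ∈ Disc`:
if `‖u‖ < 1` this contradicts `hO` (`d = q + τ' (X u - q)` with `τ' = σ/τ > 0`); if `‖u‖ = 1`, `X u ∈ Disc`.
`str` gives `W = strW Γ q`.  `mkp`: `disj`: `hO` with `τ = 1`.  `hW`: `X u = lim q + s (X u - q)`, `s → 1-`; `hE`: `s → 1+`.
`hD`: `d` in the open disc, `h = - q 2`.  For small `s > 0`: `y = d - s E3`: with `τ = h/(h - s) > 1`,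
`q + τ (y - q) ∈ Disc` (third coordinate 0, close to `d`), so by uniqueness no `q + s' (y - q)`, `s' ≤ 1`, is in `Γ`:
`y ∈ W`.  `y = d + s E3`: `τ = h/(h + s) < 1`, `d' = q + τ (y - q) ∈ Disc`, `y = q + (1/τ)(d' - q)`, `1/τ > 1`: last
part of `str`.
`hlow`: `y = q - E3`: no `q + τ (y - q) ∈ Disc` (third coordinate `q 2 - τ < 0`), `rayO`: `X u = q - τ E3`.
So a `PreDom` `D` with `D.W = W`.  `nE`: for `‖u‖ < 1`, `0 ≤ ⟪q - X u, N u⟫`: otherwise, box at `u`, `e = N u`, `lsig`: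
`f (X u + s (q - X u)) < 0` for small `s > 0` (derivative `⟪g, q - X u⟫ < 0`), not in the closure, but
`X u + s (q - X u) = q + (1-s)(X u - q) ∈ closure W`.  For `‖u‖ = 1` by continuity (`N_cont`); `N u = E3` would give
`⟪q - X u, E3⟫ = q 2 < 0`.
-/


open scoped RealInnerProductSpace Topology
open Metric Filter Set


namespace Pool.Agent.H99.SC

theorem DMO_wst1 {S : Surf} (D : PreDom S) {z : V3}
    (hz : ∀ y ∈ closure D.W, ∀ s : ℝ, 0 ≤ s → s ≤ 1 → z + s • (y - z) ∈ closure D.W) {u : V2}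
    (hu : ‖u‖ ≤ 1) : 0 ≤ ⟪z - S.X u, S.N u⟫ := by
  have key : ∀ u : V2, ‖u‖ < 1 → 0 ≤ ⟪z - S.X u, S.N u⟫ := by
    intro u hu
    by_contra hcon
    push Not at hcon
    obtain ⟨B⟩ := exists_box S.smooth (WST_box (S := S) hu.le)
    obtain ⟨ε, hε, hεr, hloc⟩ := lsig D hu B
    have hmemr : S.X u ∈ B.U B.r := B.mem_U B.hr
    have hb : B.b (S.X u) = u := B.b_X (by simpa using B.hr)
    have hf : B.f (S.X u) = 0 := B.f_X (by simpa using B.hr)
    have hfd : fderiv ℝ B.f (S.X u) (z - S.X u) < 0 := by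
      rw [B.fd S.smooth hmemr, B.g_eq hmemr, hb, inner_smul_left]
      have h1 : 0 < ‖B.g (S.X u)‖ := B.g_pos hmemr
      have h2 : ⟪NN S.X u, z - S.X u⟫ < 0 := by
        rw [real_inner_comm]
        exact hcon
      simp only [RCLike.conj_to_real]
      exact mul_neg_of_pos_of_neg h1 h2
    have hline : HasDerivAt (fun s : ℝ => S.X u + s • (z - S.X u)) (z - S.X u) 0 := by
      simpa using ((hasDerivAt_id (0 : ℝ)).smul_const (z - S.X u)).const_add (S.X u)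
    have hfx : HasFDerivAt B.f (fderiv ℝ B.f (S.X u)) (S.X u + (0 : ℝ) • (z - S.X u)) := by
      rw [zero_smul, add_zero]
      exact ((B.smooth_f hmemr).differentiableAt (by norm_num)).hasFDerivAt
    have hcomp : HasDerivAt (fun s : ℝ => B.f (S.X u + s • (z - S.X u)))
        (fderiv ℝ B.f (S.X u) (z - S.X u)) 0 := hfx.comp_hasDerivAt 0 hline
    have h3 := WST_dec hcomp hfd
    have hcontline : Tendsto (fun s : ℝ => S.X u + s • (z - S.X u)) (𝓝[>] 0) (𝓝 (S.X u)) := by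
      have := hline.continuousAt.tendsto
      rw [zero_smul, add_zero] at this
      exact this.mono_left nhdsWithin_le_nhds
    have h4 : ∀ᶠ s in 𝓝[>] (0 : ℝ), S.X u + s • (z - S.X u) ∈ B.U ε :=
      hcontline.eventually (B.U_nhds hε hεr)
    have h5 : ∀ᶠ s in 𝓝[>] (0 : ℝ), s ∈ Ioo (0 : ℝ) 1 := Ioo_mem_nhdsGT one_pos
    obtain ⟨s, hs3, hs4, hs5⟩ := (h3.and (h4.and h5)).exists
    rw [zero_smul, add_zero, hf] at hs3
    have h6 := (hloc _ hs4).2.2.2.2
    have h7 : S.X u + s • (z - S.X u) ∈ closure D.W := by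
      have := hz (S.X u) (sig_closure D (S.mem_Sig hu.le)) (1 - s)
        (by linarith [hs5.2]) (by linarith [hs5.1])
      have e : z + (1 - s) • (S.X u - z) = S.X u + s • (z - S.X u) := by module
      rwa [e] at this
    have := h6.1 h7
    linarith
  by_cases h1 : ‖u‖ < 1
  · exact key u h1
  · have hcont : ContinuousAt (fun x : V2 => ⟪z - S.X x, S.N x⟫) u :=
      (continuousAt_const.sub S.smooth.continuous.continuousAt).inner (𝕜 := ℝ) (S.N_cont hu)
    have hr : Tendsto (fun r : ℝ => r • u) (𝓝[<] 1) (𝓝 u) := by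
      have : Tendsto (fun r : ℝ => r • u) (𝓝 1) (𝓝 ((1 : ℝ) • u)) :=
        (continuous_id.smul continuous_const).continuousAt
      rw [one_smul] at this
      exact this.mono_left nhdsWithin_le_nhds
    have hlim : Tendsto (fun r : ℝ => ⟪z - S.X (r • u), S.N (r • u)⟫) (𝓝[<] 1)
        (𝓝 ⟪z - S.X u, S.N u⟫) := hcont.tendsto.comp hr
    refine ge_of_tendsto hlim ?_
    filter_upwards [Ioo_mem_nhdsLT (show (0 : ℝ) < 1 from one_pos)] with r hr
    refine key _ ?_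
    rw [norm_smul, Real.norm_of_nonneg hr.1.le]
    nlinarith [norm_nonneg u, hr.1, hr.2]

/-- the third coordinate determines the parameter -/
theorem DMO_disc {q w : V3} (hq2 : q 2 < 0) {τ σ : ℝ} (h1 : q + τ • w ∈ Disc)
    (h2 : q + σ • w ∈ Disc) : τ = σ := by
  have e1 : q 2 + τ * w 2 = 0 := by simpa using h1.1
  have e2 : q 2 + σ * w 2 = 0 := by simpa using h2.1
  have hw : w 2 ≠ 0 := by
    intro h0
    rw [h0, mul_zero, add_zero] at e1
    linarith
  have e3 : (τ - σ) * w 2 = 0 := by linear_combination e1 - e2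
  have e4 := (mul_eq_zero.1 e3).resolve_right hw
  linarith

theorem DMO_mix {S : Surf} {q w : V3} (hq2 : q 2 < 0)
    (hO : ∀ u : V2, ‖u‖ < 1 → ∀ τ : ℝ, 0 < τ → q + τ • (S.X u - q) ∉ Disc)
    {τ σ : ℝ} (hτ : 0 < τ) (hσ : 0 < σ) {u : V2} (hu : ‖u‖ ≤ 1) (h1 : S.X u = q + τ • w)
    (h2 : q + σ • w ∈ Disc) : τ = σ := by
  rcases hu.lt_or_eq with hlt | heq
  · exfalso
    apply hO u hlt (σ / τ) (by positivity)
    have e : q + (σ / τ) • (S.X u - q) = q + σ • w := by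
      rw [h1, add_sub_cancel_left, smul_smul]
      congr 2
      field_simp
    rw [e]
    exact h2
  · have h3 : S.X u ∈ Disc := ⟨(S.bd1 heq).1, (S.bd1 heq).2.le⟩
    rw [h1] at h3
    exact DMO_disc hq2 h3 h2

theorem DMO_uniq {S : Surf} {q : V3} (hq : StarAt S q) (hq2 : q 2 < 0)
    (hO : ∀ u : V2, ‖u‖ < 1 → ∀ τ : ℝ, 0 < τ → q + τ • (S.X u - q) ∉ Disc)
    (y : V3) (τ σ : ℝ) (hτ : 0 < τ) (hσ : 0 < σ)
    (h1 : q + τ • (y - q) ∈ S.Sig ∪ Disc) (h2 : q + σ • (y - q) ∈ S.Sig ∪ Disc) : τ = σ := by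
  rcases h1 with ⟨u, hu, h1⟩ | h1
  · rcases h2 with ⟨v, hv, h2⟩ | h2
    · exact (star_unique hq hu hv hτ hσ h1.symm h2.symm).1
    · exact DMO_mix hq2 hO hτ hσ hu h1 h2
  · rcases h2 with ⟨v, hv, h2⟩ | h2
    · exact (DMO_mix hq2 hO hσ hτ hv h2 h1).symm
    · exact DMO_disc hq2 h1 h2

theorem dmo {S : Surf} {q : V3} (hq : StarAt S q) (hq2 : q 2 < 0)
    (hO : ∀ u : V2, ‖u‖ < 1 → ∀ τ : ℝ, 0 < τ → q + τ • (S.X u - q) ∉ Disc) :
    ∃ D : Dom S, WStar D q ∧ q ∈ D.W := by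
  set Γ : Set V3 := S.Sig ∪ Disc with hΓ
  have hΓc : IsCompact Γ := S.isCompact_Sig.union isCompact_Disc
  have hqΓ : q ∉ Γ := by
    rintro (h | h)
    · exact star_not_mem hq h
    · exact hq2.ne h.1
  have hex : ∀ y : V3, y ≠ q → ∃ τ : ℝ, 0 < τ ∧ q + τ • (y - q) ∈ Γ := by
    intro y hy
    by_cases h : ∃ τ : ℝ, 0 < τ ∧ q + τ • (y - q) ∈ Disc
    · obtain ⟨τ, hτ, h⟩ := h
      exact ⟨τ, hτ, Or.inr h⟩
    · push Not at h
      obtain ⟨u, hu, τ, hτ, h2⟩ := rayO hq hq2 hO hy h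
      exact ⟨τ, hτ, Or.inl ⟨u, hu.le, h2.symm⟩⟩
  have huniq : ∀ y : V3, y ≠ q → ∀ τ σ : ℝ, 0 < τ → 0 < σ → q + τ • (y - q) ∈ Γ →
      q + σ • (y - q) ∈ Γ → τ = σ := fun y _ τ σ hτ hσ h1 h2 =>
    DMO_uniq hq hq2 hO y τ σ hτ hσ h1 h2
  obtain ⟨hop, hbd, hfr, hqW, hstar, hin, hout⟩ := str hΓc hqΓ hex huniq
  have hdisj : ∀ u : V2, ‖u‖ < 1 → S.X u ∉ Disc := by
    intro u hu h
    apply hO u hu 1 one_pos
    rw [one_smul, add_sub_cancel]
    exact h
  have hline : ∀ x : V3, Tendsto (fun s : ℝ => q + s • (x - q)) (𝓝 1) (𝓝 x) := by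
    intro x
    have h : Tendsto (fun s : ℝ => q + s • (x - q)) (𝓝 1) (𝓝 (q + (1 : ℝ) • (x - q))) :=
      (continuous_const.add (continuous_id.smul continuous_const)).tendsto 1
    rwa [one_smul, add_sub_cancel] at h
  have hWc : ∀ u : V2, ‖u‖ < 1 → S.X u ∈ closure (strW Γ q) := by
    intro u hu
    refine mem_closure_of_tendsto ((hline (S.X u)).mono_left
      (nhdsWithin_le_nhds (s := Iio 1))) ?_
    filter_upwards [Ioo_mem_nhdsLT (show (0 : ℝ) < 1 from one_pos)] with s hs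
    exact hin _ (Or.inl (S.mem_Sig hu.le)) s hs.1 hs.2
  have hEc : ∀ u : V2, ‖u‖ < 1 → S.X u ∈ closure ((closure (strW Γ q))ᶜ) := by
    intro u hu
    refine mem_closure_of_tendsto ((hline (S.X u)).mono_left
      (nhdsWithin_le_nhds (s := Ioi 1))) ?_
    filter_upwards [self_mem_nhdsWithin] with s hs
    exact hout _ (Or.inl (S.mem_Sig hu.le)) s hs
  have hD : ∀ d : V3, d 2 = 0 → d 0 ^ 2 + d 1 ^ 2 < 1 → ∃ ε : ℝ, 0 < ε ∧ ∀ s : ℝ, 0 < s → s < ε →
      d - s • E3 ∈ strW Γ q ∧ d + s • E3 ∉ closure (strW Γ q) := by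
    intro d hd2 hd1
    -- the radius is `< 1` near `τ = 1`
    have hφ : ∀ᶠ τ : ℝ in 𝓝 1, (q 0 + τ * (d 0 - q 0)) ^ 2 + (q 1 + τ * (d 1 - q 1)) ^ 2 < 1 := by
      have hc : Continuous fun τ : ℝ =>
          (q 0 + τ * (d 0 - q 0)) ^ 2 + (q 1 + τ * (d 1 - q 1)) ^ 2 := by fun_prop
      have h0 : (fun τ : ℝ =>
          (q 0 + τ * (d 0 - q 0)) ^ 2 + (q 1 + τ * (d 1 - q 1)) ^ 2) 1 < 1 := by
        simp only
        have e : (q 0 + 1 * (d 0 - q 0)) ^ 2 + (q 1 + 1 * (d 1 - q 1)) ^ 2 =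
            d 0 ^ 2 + d 1 ^ 2 := by ring
        rw [e]
        exact hd1
      exact hc.continuousAt.eventually_lt_const h0
    have ht1 : Tendsto (fun s : ℝ => -(q 2) / (-(q 2) - s)) (𝓝 0) (𝓝 1) := by
      have hc : ContinuousAt (fun s : ℝ => -(q 2) / (-(q 2) - s)) 0 := by
        refine continuousAt_const.div (continuousAt_const.sub continuousAt_id) ?_
        simp only [id, sub_zero]
        linarith
      have := hc.tendsto
      rwa [sub_zero, div_self (by linarith : -(q 2) ≠ 0)] at this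
    have ht2 : Tendsto (fun s : ℝ => -(q 2) / (-(q 2) + s)) (𝓝 0) (𝓝 1) := by
      have hc : ContinuousAt (fun s : ℝ => -(q 2) / (-(q 2) + s)) 0 := by
        refine continuousAt_const.div (continuousAt_const.add continuousAt_id) ?_
        simp only [id, add_zero]
        linarith
      have := hc.tendsto
      rwa [add_zero, div_self (by linarith : -(q 2) ≠ 0)] at this
    obtain ⟨ε, hε, hball⟩ := Metric.eventually_nhds_iff.1
      ((ht1.eventually hφ).and (ht2.eventually hφ))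
    refine ⟨min ε (-(q 2)), lt_min hε (by linarith), fun s hs0 hs => ?_⟩
    have hs1 : s < ε := hs.trans_le (min_le_left _ _)
    have hs2 : s < -(q 2) := hs.trans_le (min_le_right _ _)
    obtain ⟨a1, a2⟩ := hball (y := s) (by rw [Real.dist_eq, sub_zero, abs_of_pos hs0]; exact hs1)
    have hp1 : 0 < -(q 2) - s := by linarith
    have hp2 : 0 < -(q 2) + s := by linarith
    constructor
    · -- below the disc
      set τ : ℝ := -(q 2) / (-(q 2) - s) with hτ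
      have hτ1 : 1 < τ := by
        rw [hτ, lt_div_iff₀ hp1]
        linarith
      have hmem : q + τ • ((d - s • E3) - q) ∈ Disc := by
        constructor
        · simp only [PiLp.add_apply, PiLp.smul_apply, PiLp.sub_apply, smul_eq_mul, E3_2, hd2]
          rw [hτ]
          field_simp
          ring
        · simp only [PiLp.add_apply, PiLp.smul_apply, PiLp.sub_apply, smul_eq_mul, E3_0, E3_1,
            mul_zero, sub_zero]
          exact a1.le
      intro s' hs' hs'1 hmem'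
      have := DMO_uniq hq hq2 hO _ τ s' (by linarith) hs' (Or.inr hmem) hmem'
      linarith
    · -- above the disc
      set τ : ℝ := -(q 2) / (-(q 2) + s) with hτ
      have hτ0 : 0 < τ := by
        rw [hτ]
        apply div_pos <;> linarith
      have hτ1 : τ < 1 := by
        rw [hτ, div_lt_one hp2]
        linarith
      have hmem : q + τ • ((d + s • E3) - q) ∈ Disc := by
        constructor
        · simp only [PiLp.add_apply, PiLp.smul_apply, PiLp.sub_apply, smul_eq_mul, E3_2, hd2]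
          rw [hτ]
          field_simp
          ring
        · simp only [PiLp.add_apply, PiLp.smul_apply, PiLp.sub_apply, smul_eq_mul, E3_0, E3_1,
            mul_zero, add_zero]
          exact a2.le
      have h3 := hout _ (Or.inr hmem) (1 / τ) (by rw [lt_div_iff₀ hτ0]; linarith)
      have e : q + (1 / τ) • (q + τ • ((d + s • E3) - q) - q) = d + s • E3 := by
        rw [add_sub_cancel_left, smul_smul, one_div, inv_mul_cancel₀ hτ0.ne', one_smul]
        abel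
      rwa [e] at h3
  have hlow : ∃ u : V2, ‖u‖ < 1 ∧ (S.X u) 2 < 0 := by
    have hne : q - E3 ≠ q := by
      intro h
      have := congrArg (fun v : V3 => v 2) h
      simp at this
    have h1 : ∀ τ : ℝ, 0 < τ → q + τ • ((q - E3) - q) ∉ Disc := by
      intro τ hτ h
      have h2 := h.1
      simp only [PiLp.add_apply, PiLp.smul_apply, PiLp.sub_apply, smul_eq_mul, E3_2] at h2
      linarith
    obtain ⟨u, hu, τ, hτ, h3⟩ := rayO hq hq2 hO hne h1
    refine ⟨u, hu, ?_⟩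
    rw [← h3]
    simp only [PiLp.add_apply, PiLp.smul_apply, PiLp.sub_apply, smul_eq_mul, E3_2]
    linarith
  obtain ⟨P, hP⟩ := mkp S hop hbd hfr hdisj hWc hEc hD hlow
  have hst : ∀ y ∈ closure P.W, ∀ s : ℝ, 0 ≤ s → s ≤ 1 → q + s • (y - q) ∈ closure P.W := by
    rw [hP]
    exact hstar
  refine ⟨{ P with
    nE := ?_ }, ⟨hq2, hst⟩, ?_⟩
  · intro u hu hN
    have h1 := DMO_wst1 P hst hu.le
    rw [hN, ip] at h1
    simp only [PiLp.sub_apply, E3_0, E3_1, E3_2, (S.bd1 hu).1] at h1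
    linarith
  · change q ∈ P.W
    rw [hP]
    exact hqW

end Pool.Agent.H99.SC

end S_DMO

section S_DM1

/-!
# DM1: the domain of a surface below the plane, star centre not below the plane

`q 2 ≥ 0`, all interior points have `(X u) 2 < 0`; `InC S q` if `q 2 ≠ 0`, `q` in the open disc if `q 2 = 0`.
`W = {y : y 2 < 0 ∧ ∃ ‖u‖ < 1, ∃ τ > 1, q + τ (y - q) = X u}`: open (`hit_open`), bounded
(`y = q + (1/τ)(X u - q)`).
closedness tool: `y_k ∈ W`, `y_k → y ≠ q`: `ray_lim`: `X u = q + T (y - q)` with `‖u‖ ≤ 1`, `T ≥ 1`, and `y 2 ≤ 0`.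
`frontier W ⊆ S.Sig ∪ Disc`: `y ∈ closure W`, `y ∉ W`.  If `y = q`: `q 2 ≥ 0 ≥ y 2`, so `q 2 = 0` and `q ∈ Disc`.  Else
`X u = q + T (y - q)`, `T ≥ 1`.  `‖u‖ = 1`: `0 = q 2 + T (y 2 - q 2)`, `y 2 = q 2 (1 - 1/T) ≥ 0` so `y 2 = 0` and
`T = 1` (`y = X u ∈ S.Sig`) or `q 2 = 0`: `y = (1-1/T) q + (1/T) X u ∈ Disc` (convexity).  `‖u‖ < 1`: if `y 2 < 0` then
`T > 1` would give `y ∈ W`; so `T = 1`, `y = X u`.  If `y 2 = 0`: `q 2 = 0` is impossible (`(X u) 2 < 0`), and for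
`q 2 > 0` `InC` at `u`: the ray from `q` through `X u` meets the plane only in a point of the open disc: `y ∈ Disc`.
`mkp`: `disj`: `(X u) 2 < 0`.  `hW`: `q + s (X u - q)`, `s → 1-`.  `hE`: `y = q + s (X u - q)`, `s > 1` is not in the closure: else
`X u' = q + T (y - q) = q + T s (X u - q)` with `T ≥ 1`, and `star_unique`: `T s = 1`.
`hD`: `d + s E3 ∉ closure W` (`y 2 ≤ 0` on the closure).  `d - s E3 ∈ W` for small `s`: otherwise `s_k → 0+` with
`d - s_k E3 ∉ W`; `ryn`: `q + τ_k (d - s_k E3 - q) = X u_k`, `‖u_k‖ < 1`, so `τ_k ≤ 1`; `ray_lim` (if `d ≠ q`):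
`X u = q + T (d - q)`, `T ≤ 1`, `‖u‖ ≤ 1`; third coordinate `q 2 (1 - T) ≥ 0 ≥ (X u) 2`, so both are 0, `‖u‖ = 1` (`hos`), and `T = 1`
or `q 2 = 0`: `X u = (1-T) q + T d` is in the open disc (convexity): contradiction with `bd1`.  (`d = q`, so `q 2 = 0`:
`X u_k = q - τ_k s_k E3 → q` as `τ_k ≤ 1`, but `q ∉ S.Sig`, closed.)
`hlow`: any interior point.  `nE`: `one_nE`.
-/


open scoped RealInnerProductSpace Topology
open Metric Filter Set


namespace Pool.Agent.H99.SC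

/-- the domain -/
def DM1_W (S : Surf) (q : V3) : Set V3 :=
  {y | y 2 < 0 ∧ ∃ u : V2, ‖u‖ < 1 ∧ ∃ τ : ℝ, 1 < τ ∧ q + τ • (y - q) = S.X u}

theorem DM1_conv {a0 a1 b0 b1 t : ℝ} (h0 : 0 ≤ t) (h1 : t ≤ 1) :
    (a0 + t * (b0 - a0)) ^ 2 + (a1 + t * (b1 - a1)) ^ 2 ≤
      (1 - t) * (a0 ^ 2 + a1 ^ 2) + t * (b0 ^ 2 + b1 ^ 2) := by
  have h : (1 - t) * (a0 ^ 2 + a1 ^ 2) + t * (b0 ^ 2 + b1 ^ 2) -
      ((a0 + t * (b0 - a0)) ^ 2 + (a1 + t * (b1 - a1)) ^ 2) =
      t * (1 - t) * ((a0 - b0) ^ 2 + (a1 - b1) ^ 2) := by ring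
  have h2 : 0 ≤ t * (1 - t) * ((a0 - b0) ^ 2 + (a1 - b1) ^ 2) := by
    have : 0 ≤ 1 - t := by linarith
    positivity
  linarith

theorem DM1_coord (q y : V3) (τ : ℝ) (i : Fin 3) : (q + τ • (y - q)) i = q i + τ * (y i - q i) := by
  simp

theorem DM1_open {S : Surf} {q : V3} (hq : StarAt S q) : IsOpen (DM1_W S q) := by
  have h1 : IsOpen {y : V3 | y 2 < 0} := by
    apply isOpen_lt _ continuous_const
    fun_prop
  exact h1.inter (hit_open hq).1

theorem DM1_bdd (S : Surf) (q : V3) : Bornology.IsBounded (DM1_W S q) := by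
  obtain ⟨R, hR⟩ := (Metric.isBounded_iff_subset_closedBall q).1 S.isCompact_Sig.isBounded
  refine (Metric.isBounded_iff_subset_closedBall q).2 ⟨R, ?_⟩
  rintro y ⟨-, u, hu, τ, hτ, h⟩
  have h1 := hR (S.mem_Sig hu.le)
  rw [← h, mem_closedBall, dist_eq_norm, add_sub_cancel_left, norm_smul, Real.norm_eq_abs,
    abs_of_pos (by linarith)] at h1
  rw [mem_closedBall, dist_eq_norm]
  have h2 : 0 ≤ ‖y - q‖ := norm_nonneg _
  nlinarith

theorem DM1_cl {S : Surf} {q : V3} (hqS : q ∉ S.Sig) {y : V3} (hy : y ∈ closure (DM1_W S q)) :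
    y 2 ≤ 0 ∧ (y = q ∨ ∃ u : V2, ‖u‖ ≤ 1 ∧ ∃ T : ℝ, 1 ≤ T ∧ q + T • (y - q) = S.X u) := by
  rw [mem_closure_iff_seq_limit] at hy
  obtain ⟨Y, hY, hlim⟩ := hy
  constructor
  · have hc : Continuous (fun y : V3 => y 2) := by fun_prop
    have h1 : Tendsto (fun k => (Y k) 2) atTop (𝓝 (y 2)) := (hc.tendsto y).comp hlim
    exact le_of_tendsto' h1 (fun k => (hY k).1.le)
  · by_cases hyq : y = q
    · exact Or.inl hyq
    · right
      have hY' := fun k => (hY k).2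
      choose uk huk τk hτk hk using hY'
      obtain ⟨φ, u, τ, hφ, hu, hτ, _, hτlim, heq⟩ := ray_lim hqS hlim hyq
        (fun k => (huk k).le) (fun k => by linarith [hτk k]) hk
      exact ⟨u, hu, τ, ge_of_tendsto' hτlim (fun k => (hτk _).le), heq⟩

theorem DM1_fr {S : Surf} {q : V3} (hq : StarAt S q) (hos : ∀ u : V2, ‖u‖ < 1 → (S.X u) 2 < 0)
    (hq2 : 0 ≤ q 2) (hI : q 2 ≠ 0 → InC S q) (hq0 : q 2 = 0 → q 0 ^ 2 + q 1 ^ 2 < 1) :
    frontier (DM1_W S q) ⊆ S.Sig ∪ Disc := by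
  intro y hy
  rw [(DM1_open hq).frontier_eq] at hy
  obtain ⟨hycl, hyW⟩ := hy
  obtain ⟨hy2, hyq | ⟨u, hu, T, hT, hX⟩⟩ := DM1_cl (star_not_mem hq) hycl
  · right
    rw [hyq] at hy2 ⊢
    have h0 : q 2 = 0 := le_antisymm hy2 hq2
    exact ⟨h0, (hq0 h0).le⟩
  · have hT0 : 0 < T := by linarith
    have hc : ∀ i, q i + T * (y i - q i) = (S.X u) i := fun i => by rw [← hX, DM1_coord]
    rcases hu.lt_or_eq with hu1 | hu1
    · -- interior point
      have hneg := hos u hu1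
      rcases hy2.lt_or_eq with hy2 | hy2
      · left
        rcases hT.lt_or_eq with hT1 | hT1
        · exact absurd ⟨hy2, u, hu1, T, hT1, hX⟩ hyW
        · rw [← hT1, one_smul, add_sub_cancel] at hX
          exact ⟨u, hu, hX.symm⟩
      · right
        have h2 := hc 2
        rw [hy2] at h2
        have hq2' : q 2 ≠ 0 := by
          intro h0
          rw [h0] at h2
          linarith
        obtain ⟨τ, hτ, h3, h4⟩ := hI hq2' u hu1
        have h5 : τ * T = 1 := by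
          rw [DM1_coord, ← h2] at h3
          have h6 : q 2 * (1 - τ * T) = 0 := by linarith
          rcases mul_eq_zero.1 h6 with h | h
          · exact absurd h hq2'
          · linarith
        have h6 : q + τ • (S.X u - q) = y := by
          rw [← hX, add_sub_cancel_left, smul_smul, h5, one_smul, add_sub_cancel]
        rw [h6] at h4
        exact ⟨hy2, h4.le⟩
    · obtain ⟨h2, h3⟩ := S.bd1 hu1
      have h4 := hc 2
      rw [h2] at h4
      have h5 : T * y 2 = (T - 1) * q 2 := by linarith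
      have h6 : 0 ≤ (T - 1) * q 2 := mul_nonneg (by linarith) hq2
      have h7 : 0 ≤ y 2 := by
        by_contra hcon
        push Not at hcon
        have := mul_neg_of_pos_of_neg hT0 hcon
        linarith
      have h8 : y 2 = 0 := le_antisymm hy2 h7
      rw [h8, mul_zero] at h5
      rcases mul_eq_zero.1 h5.symm with h | h
      · left
        have hT1 : T = 1 := by linarith
        rw [hT1, one_smul, add_sub_cancel] at hX
        exact ⟨u, hu, hX.symm⟩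
      · right
        refine ⟨h8, ?_⟩
        have hy' : ∀ i, y i = q i + T⁻¹ * ((S.X u) i - q i) := by
          intro i
          rw [← hc i]
          field_simp
          ring
        rw [hy' 0, hy' 1]
        refine (DM1_conv (by positivity) (inv_le_one_of_one_le₀ hT)).trans ?_
        rw [h3]
        have h9 := hq0 h
        have h10 : 0 ≤ 1 - T⁻¹ := by
          have := inv_le_one_of_one_le₀ hT
          linarith
        nlinarith

theorem DM1_hW {S : Surf} {q : V3} (hos : ∀ u : V2, ‖u‖ < 1 → (S.X u) 2 < 0) {u : V2}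
    (hu : ‖u‖ < 1) : S.X u ∈ closure (DM1_W S q) := by
  have hc : Continuous (fun s : ℝ => q + s • (S.X u - q)) := by fun_prop
  have h1 : Tendsto (fun s : ℝ => q + s • (S.X u - q)) (𝓝[<] 1) (𝓝 (S.X u)) := by
    have := (hc.tendsto 1).mono_left (nhdsWithin_le_nhds (s := Iio (1 : ℝ)))
    simpa using this
  refine mem_closure_of_tendsto h1 ?_
  have hc2 : Continuous (fun s : ℝ => (q + s • (S.X u - q)) 2) := by
    have h : Continuous (fun y : V3 => y 2) := by fun_prop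
    exact h.comp hc
  have h2 : ∀ᶠ s : ℝ in 𝓝 1, (q + s • (S.X u - q)) 2 < 0 := by
    apply (hc2.tendsto 1).eventually_lt_const
    simpa using hos u hu
  have h3 : ∀ᶠ s : ℝ in 𝓝 1, 0 < s := lt_mem_nhds one_pos
  filter_upwards [nhdsWithin_le_nhds h2, nhdsWithin_le_nhds h3, self_mem_nhdsWithin] with s hs1 hs2 hs3
  have hs3' : s < 1 := hs3
  refine ⟨hs1, u, hu, s⁻¹, (one_lt_inv₀ hs2).2 hs3', ?_⟩
  rw [add_sub_cancel_left, smul_smul, inv_mul_cancel₀ hs2.ne', one_smul, add_sub_cancel]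

theorem DM1_hE {S : Surf} {q : V3} (hq : StarAt S q) {u : V2} (hu : ‖u‖ < 1) :
    S.X u ∈ closure ((closure (DM1_W S q))ᶜ) := by
  have hqS := star_not_mem hq
  have hc : Continuous (fun s : ℝ => q + s • (S.X u - q)) := by fun_prop
  have h1 : Tendsto (fun s : ℝ => q + s • (S.X u - q)) (𝓝[>] 1) (𝓝 (S.X u)) := by
    have := (hc.tendsto 1).mono_left (nhdsWithin_le_nhds (s := Ioi (1 : ℝ)))
    simpa using this
  refine mem_closure_of_tendsto h1 ?_
  filter_upwards [self_mem_nhdsWithin] with s hs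
  have hs' : (1 : ℝ) < s := hs
  intro hcl
  obtain ⟨-, h2 | ⟨u', hu', T, hT, hX⟩⟩ := DM1_cl hqS hcl
  · rw [add_eq_left, smul_eq_zero] at h2
    rcases h2 with h2 | h2
    · linarith
    · exact hqS (by rw [← sub_eq_zero.1 h2]; exact S.mem_Sig hu.le)
  · rw [add_sub_cancel_left, smul_smul] at hX
    have h3 := star_unique hq hu' hu.le (w := S.X u - q) (τ := T * s) (σ := 1)
      (by nlinarith) one_pos hX (by rw [one_smul, add_sub_cancel])
    have h4 := h3.1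
    nlinarith

theorem DM1_hD {S : Surf} {q : V3} (hq : StarAt S q) (hos : ∀ u : V2, ‖u‖ < 1 → (S.X u) 2 < 0)
    (hq2 : 0 ≤ q 2) (hI : q 2 ≠ 0 → InC S q) (hq0 : q 2 = 0 → q 0 ^ 2 + q 1 ^ 2 < 1)
    {d : V3} (h2 : d 2 = 0) (h1 : d 0 ^ 2 + d 1 ^ 2 < 1) :
    ∃ ε : ℝ, 0 < ε ∧ ∀ s : ℝ, 0 < s → s < ε → d - s • E3 ∈ DM1_W S q := by
  have hqS := star_not_mem hq
  obtain ⟨ε, hε, hr⟩ := ryn hq hI (fun _ => hos) h2 h1
  by_contra hcon
  push Not at hcon
  have hseq : ∀ k : ℕ, ∃ s : ℝ, 0 < s ∧ s < 1 / ((k : ℝ) + 1) ∧ ∃ u : V2, ‖u‖ < 1 ∧ ∃ τ : ℝ,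
      0 < τ ∧ τ ≤ 1 ∧ q + τ • (d - s • E3 - q) = S.X u := by
    intro k
    have hk : (0 : ℝ) < 1 / ((k : ℝ) + 1) := by positivity
    obtain ⟨s, hs0, hs1, hs2⟩ := hcon (min ε (1 / ((k : ℝ) + 1))) (lt_min hε hk)
    obtain ⟨u, hu, τ, hτ, hX⟩ := hr s hs0 (hs1.trans_le (min_le_left _ _))
    refine ⟨s, hs0, hs1.trans_le (min_le_right _ _), u, hu, τ, hτ, ?_, hX⟩
    by_contra hτ1
    push Not at hτ1
    refine hs2 ⟨?_, u, hu, τ, hτ1, hX⟩
    simp [h2, hs0]
  choose s hs0 hs1 u hu τ hτ0 hτ1 hX using hseq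
  have hs : Tendsto s atTop (𝓝 0) := by
    refine squeeze_zero (fun k => (hs0 k).le) (fun k => (hs1 k).le) ?_
    exact tendsto_one_div_add_atTop_nhds_zero_nat
  have hY : Tendsto (fun k => d - s k • E3) atTop (𝓝 d) := by
    have := tendsto_const_nhds (x := d) |>.sub (hs.smul_const E3)
    simpa using this
  by_cases hdq : d = q
  · -- the points of the surface tend to `q`
    have h3 : Tendsto (fun k => S.X (u k)) atTop (𝓝 q) := by
      have h4 : Tendsto (fun k => τ k * s k) atTop (𝓝 0) := by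
        refine squeeze_zero (fun k => mul_nonneg (hτ0 k).le (hs0 k).le) (fun k => ?_) hs
        exact mul_le_of_le_one_left (hs0 k).le (hτ1 k)
      have h5 : Tendsto (fun k => q - (τ k * s k) • E3) atTop (𝓝 q) := by
        have := tendsto_const_nhds (x := q) |>.sub (h4.smul_const E3)
        simpa using this
      refine h5.congr (fun k => ?_)
      rw [← hX k, hdq]
      have : q - s k • E3 - q = -(s k • E3) := by abel
      rw [this, smul_neg, smul_smul, sub_eq_add_neg]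
    exact hqS (S.isCompact_Sig.isClosed.mem_of_tendsto h3
      (Eventually.of_forall fun k => S.mem_Sig (hu k).le))
  · obtain ⟨φ, v, t, hφ, hv, ht, _, htlim, heq⟩ := ray_lim hqS hY hdq
      (fun k => (hu k).le) (fun k => (hτ0 k).le) hX
    have ht1 : t ≤ 1 := le_of_tendsto' htlim (fun k => hτ1 _)
    have hc : ∀ i, q i + t * (d i - q i) = (S.X v) i := fun i => by rw [← heq, DM1_coord]
    have h3 := hc 2
    rw [h2] at h3
    have h4 : 0 ≤ q 2 * (1 - t) := mul_nonneg hq2 (by linarith)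
    have hv1 : ‖v‖ = 1 := by
      rcases hv.lt_or_eq with h | h
      · have := hos v h
        linarith
      · exact h
    obtain ⟨h5, h6⟩ := S.bd1 hv1
    rw [h5] at h3
    have h7 : q 2 * (1 - t) = 0 := by linarith
    rcases mul_eq_zero.1 h7 with h8 | h8
    · have h9 := DM1_conv (a0 := q 0) (a1 := q 1) (b0 := d 0) (b1 := d 1) ht.le ht1
      rw [hc 0, hc 1, h6] at h9
      have h10 := hq0 h8
      have h11 : 0 ≤ 1 - t := by linarith
      nlinarith
    · have ht' : t = 1 := by linarith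
      rw [ht', one_smul, add_sub_cancel] at heq
      rw [← heq] at h6
      linarith

theorem dm1 {S : Surf} {q : V3} (hq : StarAt S q) (hos : ∀ u : V2, ‖u‖ < 1 → (S.X u) 2 < 0)
    (hq2 : 0 ≤ q 2) (hI : q 2 ≠ 0 → InC S q) (hq0 : q 2 = 0 → q 0 ^ 2 + q 1 ^ 2 < 1) :
    Nonempty (Dom S) := by
  have hqS := star_not_mem hq
  obtain ⟨D, -⟩ := mkp S (DM1_open hq) (DM1_bdd S q) (DM1_fr hq hos hq2 hI hq0)
    (fun u hu h => by
      have := hos u hu
      rw [h.1] at this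
      exact lt_irrefl _ this)
    (fun u hu => DM1_hW hos hu) (fun u hu => DM1_hE hq hu)
    (by
      intro d h2 h1
      obtain ⟨ε, hε, h⟩ := DM1_hD hq hos hq2 hI hq0 h2 h1
      refine ⟨ε, hε, fun s hs0 hs1 => ⟨h s hs0 hs1, fun hcl => ?_⟩⟩
      have := (DM1_cl hqS hcl).1
      simp [h2] at this
      linarith)
    ⟨0, by simp, hos 0 (by simp)⟩
  exact ⟨{ toPreDom := D, nE := fun u hu => one_nE S hos hu }⟩

end Pool.Agent.H99.SC

end S_DM1

section S_DM2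

/-!
# DM2: the domain of a surface below the plane, star centre below the surface

`q 2 < 0`, all interior points have `(X u) 2 < 0` and `InC S q` (so `q 2 < (X u) 2` for `‖u‖ ≤ 1`).
`W = {y : y 2 < 0 ∧ ∃ ‖u‖ < 1, ∃ τ ∈ (0,1), q + τ (y - q) = X u}`: open (`hit_open`).  Bounded: `y = q + (1/τ)(X u - q)`,
`y 2 < 0` gives `(1/τ)((X u) 2 - q 2) < - q 2`, and `(X u) 2 - q 2 ≥ m > 0` by compactness.
closedness tool: `y_k ∈ W`, `y_k → y`: `|y_k - q| ≥ |X u_k - q| ≥ dist(q, S.Sig) > 0`, so `y ≠ q`; `ray_lim`: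
`X u = q + T (y - q)` with `‖u‖ ≤ 1`, `0 < T ≤ 1`, and `y 2 ≤ 0`.
`frontier W ⊆ S.Sig ∪ Disc`: `y ∈ closure W`, `y ∉ W`.  `‖u‖ = 1`: `0 = q 2 + T (y 2 - q 2)`,
`y 2 = q 2 (1 - 1/T) ≥ 0` so `y 2 = 0`, `T = 1`, `y = X u`.  `‖u‖ < 1`: if `y 2 < 0`: `T < 1` would give `y ∈ W`; so
`T = 1`, `y = X u`.  If `y 2 = 0`: `InC` at `u`: the ray from `q` through `X u` meets the plane only in a point of the open
disc: `y ∈ Disc`.
`mkp`: `disj`: `(X u) 2 < 0`.  `hW`: `q + s (X u - q)`, `s → 1+`.  `hE`: `y = q + s (X u - q)`, `0 < s < 1`, is not in the closure: else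
`X u' = q + T s (X u - q)` with `T ≤ 1`, and `star_unique`: `T s = 1`.
`hD`: `d + s E3 ∉ closure W` (`y 2 ≤ 0` on the closure).  `d - s E3 ∈ W` for small `s`: otherwise `s_k → 0+` with
`d - s_k E3 ∉ W`; `ryn`: `q + τ_k (d - s_k E3 - q) = X u_k`, `‖u_k‖ < 1`, so `τ_k ≥ 1`; `ray_lim` (`d ≠ q`):
`X u = q + T (d - q)`, `T ≥ 1`; third coordinate `q 2 (1 - T) ≥ 0 ≥ (X u) 2`, so `T = 1`, `X u = d` is in the open disc with
`(X u) 2 = 0`: `‖u‖ = 1` (`hos`), `bd1`: contradiction.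
`hlow`: any interior point.  `nE`: `one_nE`.
-/


open scoped RealInnerProductSpace Topology
open Metric Filter Set


namespace Pool.Agent.H99.SC

/-- the domain -/
private def DM2_W (S : Surf) (q : V3) : Set V3 :=
  {y | y 2 < 0 ∧ ∃ u : V2, ‖u‖ < 1 ∧ ∃ τ : ℝ, 0 < τ ∧ τ < 1 ∧ q + τ • (y - q) = S.X u}

private theorem DM2_c2 : Continuous (fun y : V3 => y 2) := by fun_prop

private theorem DM2_open {S : Surf} {q : V3} (hq : StarAt S q) : IsOpen (DM2_W S q) := by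
  have h1 : DM2_W S q = {y : V3 | y 2 < 0} ∩
      {y : V3 | ∃ u : V2, ‖u‖ < 1 ∧ ∃ τ : ℝ, 0 < τ ∧ τ < 1 ∧ q + τ • (y - q) = S.X u} := rfl
  rw [h1]
  exact (isOpen_lt DM2_c2 continuous_const).inter (hit_open hq).2

private theorem DM2_le {S : Surf} (hos : ∀ u : V2, ‖u‖ < 1 → (S.X u) 2 < 0) {u : V2}
    (hu : ‖u‖ ≤ 1) : (S.X u) 2 ≤ 0 := by
  rcases hu.lt_or_eq with h | h
  · exact (hos u h).le
  · exact (S.bd1 h).1.le

private theorem DM2_gt {S : Surf} {q : V3} (hq2 : q 2 < 0) (hI : InC S q) {u : V2}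
    (hu : ‖u‖ ≤ 1) : q 2 < (S.X u) 2 := by
  rcases hu.lt_or_eq with h | h
  · obtain ⟨τ, hτ, h1, -⟩ := hI u h
    simp only [PiLp.add_apply, PiLp.smul_apply, PiLp.sub_apply, smul_eq_mul] at h1
    by_contra hcon
    push Not at hcon
    nlinarith
  · rw [(S.bd1 h).1]; exact hq2

private theorem DM2_bdd {S : Surf} {q : V3} (hq2 : q 2 < 0) (hI : InC S q) :
    Bornology.IsBounded (DM2_W S q) := by
  have hXc : Continuous S.X := S.smooth.continuous
  obtain ⟨u₁, hu₁, hmin⟩ := (isCompact_closedBall (0 : V2) 1).exists_isMinOn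
    ⟨0, by simp⟩ ((DM2_c2.comp hXc).continuousOn)
  obtain ⟨u₂, hu₂, hmax⟩ := (isCompact_closedBall (0 : V2) 1).exists_isMaxOn
    ⟨0, by simp⟩ ((hXc.sub (continuous_const (y := q))).norm.continuousOn)
  have h1 := DM2_gt hq2 hI (u := u₁) (by simpa using hu₁)
  set m := (S.X u₁) 2 - q 2 with hm
  have hm0 : 0 < m := by rw [hm]; linarith
  rw [Metric.isBounded_iff_subset_closedBall q]
  refine ⟨(-(q 2) / m) * ‖S.X u₂ - q‖, ?_⟩
  rintro y ⟨hy2, u, hu, τ, hτ0, -, hy⟩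
  have hu' : u ∈ closedBall (0 : V2) 1 := by simpa using hu.le
  have h2 : (S.X u₁) 2 ≤ (S.X u) 2 := hmin hu'
  have h3 : ‖S.X u - q‖ ≤ ‖S.X u₂ - q‖ := hmax hu'
  rw [mem_closedBall, dist_eq_norm]
  have h4 : S.X u - q = τ • (y - q) := by rw [← hy]; abel
  have h5 : ‖S.X u - q‖ = τ * ‖y - q‖ := by
    rw [h4, norm_smul, Real.norm_eq_abs, abs_of_pos hτ0]
  have h6 : (S.X u) 2 = q 2 + τ * (y 2 - q 2) := by
    rw [← hy]
    simp only [PiLp.add_apply, PiLp.smul_apply, PiLp.sub_apply, smul_eq_mul]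
  have h7 : m ≤ τ * -(q 2) := by
    rw [hm]; nlinarith
  have h8 : 0 ≤ ‖y - q‖ := norm_nonneg _
  rw [div_mul_eq_mul_div, le_div_iff₀ hm0]
  calc ‖y - q‖ * m ≤ ‖y - q‖ * (τ * -(q 2)) := mul_le_mul_of_nonneg_left h7 h8
    _ = -(q 2) * (τ * ‖y - q‖) := by ring
    _ ≤ -(q 2) * ‖S.X u₂ - q‖ := by
      rw [← h5]
      exact mul_le_mul_of_nonneg_left h3 (by linarith)

private theorem DM2_cl {S : Surf} {q : V3} (hq : StarAt S q) {y : V3}
    (hy : y ∈ closure (DM2_W S q)) : y 2 ≤ 0 ∧ ∃ u : V2, ‖u‖ ≤ 1 ∧ ∃ T : ℝ, 0 < T ∧ T ≤ 1 ∧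
      q + T • (y - q) = S.X u := by
  obtain ⟨Y, hY, hYy⟩ := mem_closure_iff_seq_limit.mp hy
  have hqS := star_not_mem hq
  refine ⟨le_of_tendsto ((DM2_c2.tendsto y).comp hYy)
    (Eventually.of_forall fun k => (hY k).1.le), ?_⟩
  choose u hu τ hτ0 hτ1 hX using fun k => (hY k).2
  obtain ⟨δ, hδ0, hδ⟩ : ∃ δ : ℝ, 0 < δ ∧ ball q δ ⊆ (S.Sig)ᶜ :=
    Metric.mem_nhds_iff.mp (S.isCompact_Sig.isClosed.isOpen_compl.mem_nhds hqS)
  have h1 : ∀ k, δ ≤ ‖Y k - q‖ := by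
    intro k
    have h2 : S.X (u k) - q = τ k • (Y k - q) := by rw [← hX k]; abel
    have h3 : ‖S.X (u k) - q‖ = τ k * ‖Y k - q‖ := by
      rw [h2, norm_smul, Real.norm_eq_abs, abs_of_pos (hτ0 k)]
    have h4 : δ ≤ ‖S.X (u k) - q‖ := by
      by_contra hcon
      push Not at hcon
      exact hδ (by rw [mem_ball, dist_eq_norm]; exact hcon) (S.mem_Sig (hu k).le)
    have h5 := hτ1 k
    have h6 := norm_nonneg (Y k - q)
    nlinarith
  have h2 : δ ≤ ‖y - q‖ :=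
    ge_of_tendsto ((hYy.sub_const q).norm) (Eventually.of_forall h1)
  have hyq : y ≠ q := by
    rintro rfl
    simp at h2
    linarith
  obtain ⟨φ, v, T, -, hv, hT, -, hTl, h3⟩ := ray_lim hqS hYy hyq (fun k => (hu k).le)
    (fun k => (hτ0 k).le) hX
  exact ⟨v, hv, T, hT, le_of_tendsto hTl (Eventually.of_forall fun k => (hτ1 (φ k)).le), h3⟩

private theorem DM2_fr {S : Surf} {q : V3} (hq : StarAt S q)
    (hq2 : q 2 < 0) (hI : InC S q) : frontier (DM2_W S q) ⊆ S.Sig ∪ Disc := by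
  intro y hy
  rw [frontier, (DM2_open hq).interior_eq] at hy
  obtain ⟨hyc, hyW⟩ := hy
  obtain ⟨hy2, u, hu, T, hT0, hT1, hX⟩ := DM2_cl hq hyc
  have h1 : (S.X u) 2 = q 2 + T * (y 2 - q 2) := by
    rw [← hX]
    simp only [PiLp.add_apply, PiLp.smul_apply, PiLp.sub_apply, smul_eq_mul]
  have hone : T = 1 → y ∈ S.Sig := by
    intro h
    rw [h, one_smul, add_sub_cancel] at hX
    rw [hX]
    exact S.mem_Sig hu
  rcases hu.lt_or_eq with hu1 | hu1
  · rcases hT1.lt_or_eq with hT2 | hT2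
    · have hy20 : y 2 = 0 := by
        by_contra hne
        exact hyW ⟨lt_of_le_of_ne hy2 hne, u, hu1, T, hT0, hT2, hX⟩
      right
      obtain ⟨τ, hτ, h2, h3⟩ := hI u hu1
      have h4 : q + τ • (S.X u - q) = q + (τ * T) • (y - q) := by
        rw [← hX, add_sub_cancel_left, smul_smul]
      rw [h4] at h2 h3
      have h5 : τ * T = 1 := by
        simp only [PiLp.add_apply, PiLp.smul_apply, PiLp.sub_apply, smul_eq_mul, hy20] at h2
        have h6 : (-(q 2)) * (τ * T - 1) = 0 := by linarith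
        rcases mul_eq_zero.mp h6 with h7 | h7
        · linarith
        · linarith
      rw [h5, one_smul, add_sub_cancel] at h3
      exact ⟨hy20, h3.le⟩
    · left
      exact hone hT2
  · left
    apply hone
    have h2 := (S.bd1 hu1).1
    rw [h2] at h1
    have h3 : T * (y 2 - q 2) = -(q 2) := by linarith
    have h4 : 0 < y 2 - q 2 := by
      by_contra hcon
      push Not at hcon
      nlinarith
    have h5 : y 2 = 0 := by nlinarith
    rw [h5] at h3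
    have h6 : (-(q 2)) * (T - 1) = 0 := by linarith
    rcases mul_eq_zero.mp h6 with h7 | h7
    · linarith
    · linarith

private theorem DM2_hW {S : Surf} {q : V3} (hos : ∀ u : V2, ‖u‖ < 1 → (S.X u) 2 < 0)
    {u : V2} (hu : ‖u‖ < 1) : S.X u ∈ closure (DM2_W S q) := by
  have hc : Continuous (fun s : ℝ => q + s • (S.X u - q)) := by fun_prop
  have h0 : q + (1 : ℝ) • (S.X u - q) = S.X u := by rw [one_smul]; abel
  have ht : Tendsto (fun s : ℝ => q + s • (S.X u - q)) (𝓝[>] 1) (𝓝 (S.X u)) := by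
    have := (hc.tendsto 1).mono_left (nhdsWithin_le_nhds (s := Ioi (1 : ℝ)))
    rwa [h0] at this
  apply mem_closure_of_tendsto ht
  have h1 : ∀ᶠ s : ℝ in 𝓝[>] 1, (q + s • (S.X u - q)) 2 < 0 :=
    ((DM2_c2.tendsto _).comp ht).eventually (gt_mem_nhds (hos u hu))
  filter_upwards [h1, self_mem_nhdsWithin] with s hs1 hs2
  have hs3 : (1 : ℝ) < s := hs2
  refine ⟨hs1, u, hu, s⁻¹, by positivity, inv_lt_one_of_one_lt₀ hs3, ?_⟩
  rw [add_sub_cancel_left, smul_smul, inv_mul_cancel₀ (by positivity), one_smul]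
  abel

private theorem DM2_hE {S : Surf} {q : V3} (hq : StarAt S q)
    {u : V2} (hu : ‖u‖ < 1) : S.X u ∈ closure ((closure (DM2_W S q))ᶜ) := by
  have hc : Continuous (fun s : ℝ => q + s • (S.X u - q)) := by fun_prop
  have h0 : q + (1 : ℝ) • (S.X u - q) = S.X u := by rw [one_smul]; abel
  have ht : Tendsto (fun s : ℝ => q + s • (S.X u - q)) (𝓝[<] 1) (𝓝 (S.X u)) := by
    have := (hc.tendsto 1).mono_left (nhdsWithin_le_nhds (s := Iio (1 : ℝ)))
    rwa [h0] at this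
  apply mem_closure_of_tendsto ht
  have h1 : ∀ᶠ s : ℝ in 𝓝[<] 1, 0 < s :=
    nhdsWithin_le_nhds (lt_mem_nhds (zero_lt_one))
  filter_upwards [h1, self_mem_nhdsWithin] with s hs1 hs2
  have hs3 : s < 1 := hs2
  intro hmem
  obtain ⟨-, v, hv, T, hT0, hT1, hX⟩ := DM2_cl hq hmem
  rw [add_sub_cancel_left, smul_smul] at hX
  have h2 := (star_unique hq hv hu.le (w := S.X u - q) (mul_pos hT0 hs1) one_pos hX h0).1
  nlinarith

private theorem DM2_hD {S : Surf} {q : V3} (hq : StarAt S q)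
    (hos : ∀ u : V2, ‖u‖ < 1 → (S.X u) 2 < 0) (hq2 : q 2 < 0) (hI : InC S q) {d : V3}
    (hd2 : d 2 = 0) (hd : d 0 ^ 2 + d 1 ^ 2 < 1) : ∃ ε : ℝ, 0 < ε ∧ ∀ s : ℝ, 0 < s → s < ε →
      d - s • E3 ∈ DM2_W S q ∧ d + s • E3 ∉ closure (DM2_W S q) := by
  have hout : ∀ s : ℝ, 0 < s → d + s • E3 ∉ closure (DM2_W S q) := by
    intro s hs hmem
    have h1 := (DM2_cl hq hmem).1
    simp only [PiLp.add_apply, PiLp.smul_apply, smul_eq_mul, E3_2, hd2] at h1
    linarith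
  by_contra hcon
  push Not at hcon
  obtain ⟨ε₀, hε₀, hry⟩ := ryn hq (fun _ => hI) (fun h => absurd h hq2.ne) hd2 hd
  have h1 : ∀ k : ℕ, ∃ s : ℝ, 0 < s ∧ s < min ε₀ (1 / ((k : ℝ) + 1)) ∧
      d - s • E3 ∉ DM2_W S q := by
    intro k
    obtain ⟨s, hs0, hs1, hs2⟩ := hcon (min ε₀ (1 / ((k : ℝ) + 1))) (by positivity)
    refine ⟨s, hs0, hs1, fun hmem => ?_⟩
    exact hout s hs0 (hs2 hmem)
  choose s hs0 hs1 hs2 using h1
  have hs3 : ∀ k, s k < ε₀ := fun k => (hs1 k).trans_le (min_le_left _ _)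
  have hs4 : Tendsto s atTop (𝓝 0) := by
    apply squeeze_zero (fun k => (hs0 k).le) (fun k => ((hs1 k).trans_le (min_le_right _ _)).le)
    exact tendsto_one_div_add_atTop_nhds_zero_nat
  choose u hu τ hτ0 hX using fun k => hry (s k) (hs0 k) (hs3 k)
  have hτ1 : ∀ k, 1 ≤ τ k := by
    intro k
    by_contra hlt
    push Not at hlt
    apply hs2 k
    refine ⟨?_, u k, hu k, τ k, hτ0 k, hlt, hX k⟩
    simp only [PiLp.sub_apply, PiLp.smul_apply, smul_eq_mul, E3_2, hd2]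
    linarith [hs0 k]
  have hYl : Tendsto (fun k => d - s k • E3) atTop (𝓝 d) := by
    have := (tendsto_const_nhds (x := d)).sub (hs4.smul_const E3)
    simpa using this
  have hdq : d ≠ q := by
    rintro rfl
    linarith
  obtain ⟨φ, v, T, -, hv, hT, -, hTl, h3⟩ := ray_lim (star_not_mem hq) hYl hdq
    (fun k => (hu k).le) (fun k => (hτ0 k).le) hX
  have hT1 : 1 ≤ T := ge_of_tendsto hTl (Eventually.of_forall fun k => hτ1 (φ k))
  have h4 : (S.X v) 2 = q 2 + T * (d 2 - q 2) := by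
    rw [← h3]
    simp only [PiLp.add_apply, PiLp.smul_apply, PiLp.sub_apply, smul_eq_mul]
  rw [hd2] at h4
  have h5 := DM2_le hos hv
  have h6 : T = 1 := by
    nlinarith
  rw [h6, one_smul, add_sub_cancel] at h3
  have h7 : ‖v‖ = 1 := by
    rcases hv.lt_or_eq with h | h
    · have := hos v h
      rw [← h3, hd2] at this
      exact absurd this (lt_irrefl _)
    · exact h
  have h8 := (S.bd1 h7).2
  rw [← h3] at h8
  linarith

theorem dm2 {S : Surf} {q : V3} (hq : StarAt S q) (hos : ∀ u : V2, ‖u‖ < 1 → (S.X u) 2 < 0)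
    (hq2 : q 2 < 0) (hI : InC S q) : Nonempty (Dom S) := by
  obtain ⟨D, -⟩ := mkp S (DM2_open hq) (DM2_bdd hq2 hI) (DM2_fr hq hq2 hI)
    (fun u hu h => absurd h.1 (hos u hu).ne) (fun u hu => DM2_hW hos hu)
    (fun u hu => DM2_hE hq hu) (fun d hd2 hd => DM2_hD hq hos hq2 hI hd2 hd)
    ⟨0, by simp, hos 0 (by simp)⟩
  exact ⟨{ toPreDom := D, nE := fun u hu => one_nE S hos hu }⟩

end Pool.Agent.H99.SC

end S_DM2

section S_FLP

/-!
# FLP: turning a surface upside down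

`rx y = (y 0, -y 1, -y 2)` is a rotation: linear, `⟪rx a, rx b⟫ = ⟪a,b⟫`, `cr (rx a) (rx b) = rx (cr a b)`, `rx (rx y) = y`.
`flipS S` has `X u = rx (S.X u)`, same `H`: `fderiv (rx ∘ X) u a = rx (fderiv X u a)`, `D2 (rx ∘ X) u a b = rx (D2 X u a b)`,
so `nn`, `Lop X X` are mapped by `rx`, `cA, cB, cC` are the same.  `bd`: `rx` preserves the circle.
-/


open scoped RealInnerProductSpace Topology
open Metric Filter Set


namespace Pool.Agent.H99.SC

def rx (y : V3) : V3 := !₂[y 0, -(y 1), -(y 2)]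

@[simp] theorem rx_0 (y : V3) : (rx y) 0 = y 0 := by simp [rx]
@[simp] theorem rx_1 (y : V3) : (rx y) 1 = -(y 1) := by simp [rx]
@[simp] theorem rx_2 (y : V3) : (rx y) 2 = -(y 2) := by simp [rx]

theorem rx_rx (y : V3) : rx (rx y) = y := by
  apply ext3 <;> simp

theorem FLP_add (a b : V3) : rx (a + b) = rx a + rx b := by
  apply ext3 <;> simp <;> ring

theorem FLP_smul (c : ℝ) (a : V3) : rx (c • a) = c • rx a := by
  apply ext3 <;> simp

theorem FLP_sub (a b : V3) : rx (a - b) = rx a - rx b := by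
  apply ext3 <;> simp <;> ring

theorem FLP_clm : ∃ R : V3 →L[ℝ] V3, ∀ v, R v = rx v := by
  let R0 : V3 →ₗ[ℝ] V3 :=
    { toFun := rx, map_add' := FLP_add, map_smul' := fun c a => FLP_smul c a }
  exact ⟨LinearMap.toContinuousLinearMap R0, fun v => rfl⟩

theorem FLP_inner (a b : V3) : ⟪rx a, rx b⟫ = ⟪a, b⟫ := by
  simp only [ip, rx_0, rx_1, rx_2]
  ring

theorem FLP_norm (a : V3) : ‖rx a‖ = ‖a‖ := by
  have h : ‖rx a‖ ^ 2 = ‖a‖ ^ 2 := by
    rw [← real_inner_self_eq_norm_sq, FLP_inner, real_inner_self_eq_norm_sq]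
  exact (pow_left_inj₀ (norm_nonneg _) (norm_nonneg _) (by norm_num)).1 h

theorem FLP_cr (a b : V3) : cr (rx a) (rx b) = rx (cr a b) := by
  apply ext3 <;> simp only [cr_0, cr_1, cr_2, rx_0, rx_1, rx_2] <;> ring

theorem FLP_ne {a : V3} (h : a ≠ 0) : rx a ≠ 0 := by
  intro h0
  apply h
  rw [← norm_eq_zero, ← FLP_norm, h0, norm_zero]

theorem FLP_fderiv {X : V2 → V3} (hX : ContDiff ℝ 2 X) (u a : V2) :
    fderiv ℝ (fun x => rx (X x)) u a = rx (fderiv ℝ X u a) := by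
  obtain ⟨R, hR⟩ := FLP_clm
  have h1 : (fun x => rx (X x)) = fun x => R (X x) := by
    funext x; rw [hR]
  rw [h1]
  have h2 : HasFDerivAt (fun x => R (X x)) (R.comp (fderiv ℝ X u)) u :=
    R.hasFDerivAt.comp u (hX.differentiable (by norm_num) u).hasFDerivAt
  rw [h2.fderiv]
  simp [hR]

theorem FLP_D2 {X : V2 → V3} (hX : ContDiff ℝ 2 X) (u a b : V2) :
    D2 (fun x => rx (X x)) u a b = rx (D2 X u a b) := by
  obtain ⟨R, hR⟩ := FLP_clm
  have h1 : (fderiv ℝ fun x => rx (X x)) = fun x => R.comp (fderiv ℝ X x) := by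
    funext x
    ext1 c
    rw [FLP_fderiv hX x c]
    simp [hR]
  have h2 : HasFDerivAt (fun x => R.comp (fderiv ℝ X x))
      (((ContinuousLinearMap.compL ℝ V2 V3 V3) R).comp (fderiv ℝ (fderiv ℝ X) u)) u :=
    ((ContinuousLinearMap.compL ℝ V2 V3 V3) R).hasFDerivAt.comp u
      (CAL_diff_fderiv hX.contDiffAt).hasFDerivAt
  unfold D2
  rw [h1, h2.fderiv]
  simp [hR]

theorem FLP_nn {X : V2 → V3} (hX : ContDiff ℝ 2 X) (u : V2) :
    nn (fun x => rx (X x)) u = rx (nn X u) := by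
  unfold nn
  rw [FLP_fderiv hX, FLP_fderiv hX, FLP_cr]

theorem FLP_Lop {X : V2 → V3} (hX : ContDiff ℝ 2 X) (u : V2) :
    Lop (fun x => rx (X x)) (fun x => rx (X x)) u = rx (Lop X X u) := by
  unfold Lop cA cB cC
  simp only [FLP_fderiv hX, FLP_D2 hX, FLP_inner, FLP_add, FLP_smul]

theorem exists_flip (S : Surf) : ∃ S' : Surf, S'.H = S.H ∧ ∀ u : V2, S'.X u = rx (S.X u) := by
  obtain ⟨R, hR⟩ := FLP_clm
  refine ⟨{
    X := fun u => rx (S.X u)
    H := S.H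
    smooth := ?_
    imm := ?_
    inj := ?_
    Hpos := S.Hpos
    bd := ?_
    cmc := ?_ }, rfl, fun _ => rfl⟩
  · have h1 : (fun x => rx (S.X x)) = fun x => R (S.X x) := by
      funext x; rw [hR]
    rw [h1]
    exact R.contDiff.comp S.smooth
  · intro u hu
    rw [FLP_nn S.smooth]
    exact FLP_ne (S.imm u hu)
  · intro u v hu hv h
    apply S.inj u v hu hv
    rw [← rx_rx (S.X u), h, rx_rx]
  · intro y
    have h1 : (∃ u : V2, ‖u‖ = 1 ∧ rx (S.X u) = y) ↔ ∃ u : V2, ‖u‖ = 1 ∧ S.X u = rx y := by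
      constructor
      · rintro ⟨u, hu, rfl⟩
        exact ⟨u, hu, (rx_rx _).symm⟩
      · rintro ⟨u, hu, h⟩
        exact ⟨u, hu, by rw [h, rx_rx]⟩
    rw [h1, S.bd (rx y)]
    simp
  · intro u hu
    rw [FLP_nn S.smooth, FLP_Lop S.smooth, FLP_inner, FLP_norm]
    exact S.cmc u hu

theorem flip_star {S S' : Surf} (h : ∀ u : V2, S'.X u = rx (S.X u)) {q : V3} (hq : StarAt S q) :
    StarAt S' (rx q) := by
  have key : ∀ (v : V3) (s : ℝ), rx q + s • v ∈ S'.Sig → q + s • rx v ∈ S.Sig := by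
    rintro v s ⟨u, hu, hy⟩
    refine ⟨u, hu, ?_⟩
    rw [h] at hy
    rw [← rx_rx (S.X u), hy, FLP_add, FLP_smul, rx_rx]
  intro v hv s t hs ht h1 h2
  exact hq (rx v) (FLP_ne hv) s t hs ht (key v s h1) (key v t h2)

theorem flip_sphere {S S' : Surf} (hH : S'.H = S.H) (h : ∀ u : V2, S'.X u = rx (S.X u))
    (hs : ∃ c : V3, ∀ u : V2, ‖u‖ ≤ 1 → ‖S'.X u - c‖ = S'.H⁻¹) :
    ∃ c : V3, ∀ u : V2, ‖u‖ ≤ 1 → ‖S.X u - c‖ = S.H⁻¹ := by
  obtain ⟨c, hc⟩ := hs
  refine ⟨rx c, fun u hu => ?_⟩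
  have h1 := hc u hu
  rw [h, hH] at h1
  rw [← h1, ← FLP_norm (S.X u - rx c), FLP_sub, rx_rx]

end Pool.Agent.H99.SC

end S_FLP
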