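import Mathlib
import Pool.Agent.H99.SCM.M1
import Pool.Agent.H99.SCM.M6
import Pool.Agent.H99.SCM.M8
import Pool.Agent.H99.SCM.M9

/-! Star-shaped CMC discs (S14043), file M10: joins several modules to save build time. -/

set_option autoImplicit false

noncomputable section

section S_MSF

/-! # MSF: star-shaped CMC discs spanning the unit circle are spherical -/


open scoped RealInnerProductSpace Topology
open Metric Filter Set


namespace Pool.Agent.H99.SC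


/-- one-sided surface with a domain -/
theorem msf_one {S : Surf} (hD : Nonempty (Dom S)) (hos : ∀ u : V2, ‖u‖ < 1 → (S.X u) 2 < 0) :
    ∃ c : V3, ∀ u : V2, ‖u‖ ≤ 1 → ‖S.X u - c‖ = S.H⁻¹ := by
  obtain ⟨D⟩ := hD
  exact rotsph D fun φ => one D hos (norm_nh φ) (nh_2 φ)

theorem msf_flip {S S' : Surf} (h : ∀ u : V2, S'.X u = rx (S.X u)) {q : V3} (hI : InC S q) :
    InC S' (rx q) := by
  intro u hu
  obtain ⟨τ, h0, h2, h1⟩ := hI u hu
  refine ⟨τ, h0, ?_, ?_⟩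
  · rw [h]
    simp only [PiLp.add_apply, PiLp.smul_apply, PiLp.sub_apply, rx_2, smul_eq_mul] at h2 ⊢
    linarith
  · rw [h]
    simp only [PiLp.add_apply, PiLp.smul_apply, PiLp.sub_apply, rx_0, rx_1, smul_eq_mul] at h1 ⊢
    nlinarith

/-- star centre below the plane -/
theorem msf_neg {S : Surf} {q : V3} (hq : StarAt S q) (hq2 : q 2 < 0) :
    ∃ c : V3, ∀ u : V2, ‖u‖ ≤ 1 → ‖S.X u - c‖ = S.H⁻¹ := by
  rcases dich hq hq2.ne with hI | hO
  · rcases oneI hq hq2 hI with hb | ha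
    · exact msf_one (dm2 hq hb hq2 hI) hb
    · obtain ⟨S', hH, hX⟩ := exists_flip S
      have hos : ∀ u : V2, ‖u‖ < 1 → (S'.X u) 2 < 0 := by
        intro u hu
        rw [hX, rx_2]
        have := ha u hu
        linarith
      refine flip_sphere hH hX (msf_one (dm1 (flip_star hX hq) hos ?_ ?_ ?_) hos)
      · rw [rx_2]; linarith
      · intro _; exact msf_flip hX hI
      · intro h0; rw [rx_2] at h0; linarith
  · obtain ⟨D, hW, hqW⟩ := dmo hq hq2 hO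
    exact rotsph D fun φ => mno D hW hqW φ

theorem msf {S : Surf} {q : V3} (hq : StarAt S q) :
    ∃ c : V3, ∀ u : V2, ‖u‖ ≤ 1 → ‖S.X u - c‖ = S.H⁻¹ := by
  rcases lt_trichotomy (q 2) 0 with h | h | h
  · exact msf_neg hq h
  · obtain ⟨hq1, hb | ha⟩ := q0 hq h
    · exact msf_one (dm1 hq hb h.ge (fun h' => absurd h h') fun _ => hq1) hb
    · obtain ⟨S', hH, hX⟩ := exists_flip S
      have hos : ∀ u : V2, ‖u‖ < 1 → (S'.X u) 2 < 0 := by
        intro u hu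
        rw [hX, rx_2]
        have := ha u hu
        linarith
      refine flip_sphere hH hX (msf_one (dm1 (flip_star hX hq) hos ?_ ?_ ?_) hos)
      · rw [rx_2]; linarith
      · intro h0; rw [rx_2] at h0; exact absurd (by linarith) h0
      · intro _
        rw [rx_0, rx_1]
        nlinarith
  · obtain ⟨S', hH, hX⟩ := exists_flip S
    exact flip_sphere hH hX (msf_neg (flip_star hX hq) (by rw [rx_2]; linarith))

end Pool.Agent.H99.SC

end S_MSF

section S_NRA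

/-!
# NRA: surfaces with unnormalised boundary; parameter swap and similarities

`raw_swap`: `sw u = (u 1, u 0)`, `X' u = X (sw u)`.  `fderiv X' u a = fderiv X (sw u) (sw a)`,
`D2 X' u a b = D2 X (sw u) (sw a) (sw b)`, `sw e0 = e1`, `sw e1 = e0`: `nn X' u = - nn X (sw u)` (`cr_swap`),
`cA X' u = cC X (sw u)`, `cC X' u = cA X (sw u)`, `cB X' u = cB X (sw u)`, `Lop X' X' u = Lop X X (sw u)` (`D2_symm`).
`raw_sim`: `X' u = k Q (X u - c)`, `k > 0`, `Q` a linear isometry with `cr (Q a) (Q b) = Q (cr a b)`: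
`fderiv X' u a = k Q (fderiv X u a)`, `D2 X' u a b = k Q (D2 X u a b)`, so `nn X' = k^2 Q nn`, `cA' = k^2 cA` etc.,
`Lop X' X' = k^3 Q (Lop X X)`, `⟪Lop', nn'⟫ = k^5 · 2 H |nn|^3 = 2 (H/k) |nn'|^3`.
-/


open scoped RealInnerProductSpace Topology
open Metric Filter Set


namespace Pool.Agent.H99.SC

/-- a C^2 immersed and injective disc with constant mean curvature `H` -/
structure Raw (X : V2 → V3) (H : ℝ) : Prop where
  smooth : ContDiff ℝ 2 X
  imm : ∀ u : V2, ‖u‖ ≤ 1 → nn X u ≠ 0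
  inj : ∀ u v : V2, ‖u‖ ≤ 1 → ‖v‖ ≤ 1 → X u = X v → u = v
  cmc : ∀ u : V2, ‖u‖ < 1 → ⟪Lop X X u, nn X u⟫ = 2 * H * ‖nn X u‖ ^ 3

/-- exchange of the parameters -/
def sw (u : V2) : V2 := !₂[u 1, u 0]

@[simp] theorem sw_0 (u : V2) : (sw u) 0 = u 1 := by simp [sw]
@[simp] theorem sw_1 (u : V2) : (sw u) 1 = u 0 := by simp [sw]

theorem sw_sw (u : V2) : sw (sw u) = u := by apply ext2 <;> simp

theorem sw_norm (u : V2) : ‖sw u‖ = ‖u‖ := by
  have h : ‖sw u‖ ^ 2 = ‖u‖ ^ 2 := by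
    rw [nsq2, nsq2, sw_0, sw_1]
    ring
  exact (sq_eq_sq₀ (norm_nonneg _) (norm_nonneg _)).1 h

/-- the exchange of the parameters as a continuous linear map -/
def NRA_swL : V2 →L[ℝ] V2 :=
  LinearMap.toContinuousLinearMap
    { toFun := sw
      map_add' := fun a b => by apply ext2 <;> simp
      map_smul' := fun c a => by apply ext2 <;> simp }

theorem NRA_swL_apply (u : V2) : NRA_swL u = sw u := rfl

theorem NRA_sw_e0 : sw e0 = e1 := by apply ext2 <;> simp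
theorem NRA_sw_e1 : sw e1 = e0 := by apply ext2 <;> simp

theorem NRA_fd {X : V2 → V3} (hX : ContDiff ℝ 2 X) (A : V2 →L[ℝ] V2) (R : V3 →L[ℝ] V3) (c : V3)
    (u : V2) : fderiv ℝ (fun x => R (X (A x)) + c) u = (R.comp (fderiv ℝ X (A u))).comp A := by
  have h1 : HasFDerivAt X (fderiv ℝ X (A u)) (A u) :=
    (hX.differentiable (by norm_num)).differentiableAt.hasFDerivAt
  have h2 : HasFDerivAt (fun x => X (A x)) ((fderiv ℝ X (A u)).comp A) u :=
    h1.comp u A.hasFDerivAt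
  have h3 : HasFDerivAt (fun x => R (X (A x))) (R.comp ((fderiv ℝ X (A u)).comp A)) u :=
    R.hasFDerivAt.comp u h2
  exact (h3.add_const c).fderiv

theorem NRA_D2 {X : V2 → V3} (hX : ContDiff ℝ 2 X) (A : V2 →L[ℝ] V2) (R : V3 →L[ℝ] V3) (c : V3)
    (u a b : V2) : D2 (fun x => R (X (A x)) + c) u a b = R (D2 X (A u) (A a) (A b)) := by
  have h0 : fderiv ℝ (fun x => R (X (A x)) + c) =
      fun u => (R.comp (fderiv ℝ X (A u))).comp A := funext fun u => NRA_fd hX A R c u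
  set Φ : (V2 →L[ℝ] V3) →L[ℝ] (V2 →L[ℝ] V3) :=
    ((ContinuousLinearMap.compL ℝ V2 V2 V3).flip A).comp (ContinuousLinearMap.compL ℝ V2 V3 V3 R)
    with hΦ
  have hX1 : HasFDerivAt (fderiv ℝ X) (fderiv ℝ (fderiv ℝ X) (A u)) (A u) :=
    (CAL_diff_fderiv hX.contDiffAt).hasFDerivAt
  have h1 : HasFDerivAt (fun x => Φ (fderiv ℝ X (A x)))
      (Φ.comp ((fderiv ℝ (fderiv ℝ X) (A u)).comp A)) u :=
    Φ.hasFDerivAt.comp u (hX1.comp u A.hasFDerivAt)
  have h2 : (fun x => Φ (fderiv ℝ X (A x))) = fun u => (R.comp (fderiv ℝ X (A u))).comp A := by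
    funext x
    rfl
  unfold D2
  rw [h0, ← h2, h1.fderiv]
  rfl

theorem raw_swap {X : V2 → V3} {H : ℝ} (h : Raw X H) : Raw (fun u => X (sw u)) (-H) := by
  have hX := h.smooth
  have e : (fun u => X (sw u)) =
      fun x => (ContinuousLinearMap.id ℝ V3) (X (NRA_swL x)) + (0 : V3) := by
    funext u
    simp [NRA_swL_apply]
  have hfd : ∀ u a : V2, fderiv ℝ (fun u => X (sw u)) u a = fderiv ℝ X (sw u) (sw a) := by
    intro u a
    rw [e, NRA_fd hX]
    rfl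
  have hD2 : ∀ u a b : V2, D2 (fun u => X (sw u)) u a b = D2 X (sw u) (sw a) (sw b) := by
    intro u a b
    rw [e, NRA_D2 hX]
    rfl
  have hnn : ∀ u : V2, nn (fun u => X (sw u)) u = -nn X (sw u) := by
    intro u
    unfold nn
    rw [hfd, hfd, NRA_sw_e0, NRA_sw_e1, cr_swap]
  have hL : ∀ u : V2, Lop (fun u => X (sw u)) (fun u => X (sw u)) u = Lop X X (sw u) := by
    intro u
    unfold Lop cA cB cC
    rw [hfd, hfd, hD2, hD2, hD2, NRA_sw_e0, NRA_sw_e1, D2_symm hX.contDiffAt e1 e0,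
      real_inner_comm (fderiv ℝ X (sw u) e0) (fderiv ℝ X (sw u) e1)]
    abel
  refine ⟨?_, ?_, ?_, ?_⟩
  · exact hX.comp NRA_swL.contDiff
  · intro u hu
    rw [hnn, neg_ne_zero]
    exact h.imm _ (by rw [sw_norm]; exact hu)
  · intro u v hu hv huv
    have h1 := h.inj (sw u) (sw v) (by rw [sw_norm]; exact hu) (by rw [sw_norm]; exact hv) huv
    have h2 := congrArg sw h1
    rwa [sw_sw, sw_sw] at h2
  · intro u hu
    rw [hL, hnn, inner_neg_right, norm_neg, h.cmc (sw u) (by rw [sw_norm]; exact hu)]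
    ring

theorem raw_sim {X : V2 → V3} {H : ℝ} (h : Raw X H) {Q : V3 →ₗᵢ[ℝ] V3}
    (hQ : ∀ a b : V3, cr (Q a) (Q b) = Q (cr a b)) {k : ℝ} (hk : 0 < k) (c : V3) :
    Raw (fun u => k • Q (X u - c)) (H / k) := by
  have hX := h.smooth
  have e : (fun u => k • Q (X u - c)) =
      fun x => (k • Q.toContinuousLinearMap) (X ((ContinuousLinearMap.id ℝ V2) x)) +
        (-(k • Q c)) := by
    funext u
    simp only [ContinuousLinearMap.smul_apply, LinearIsometry.coe_toContinuousLinearMap,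
      ContinuousLinearMap.id_apply, map_sub, smul_sub]
    abel
  have hfd : ∀ u a : V2, fderiv ℝ (fun u => k • Q (X u - c)) u a = k • Q (fderiv ℝ X u a) := by
    intro u a
    rw [e, NRA_fd hX]
    rfl
  have hD2 : ∀ u a b : V2, D2 (fun u => k • Q (X u - c)) u a b = k • Q (D2 X u a b) := by
    intro u a b
    rw [e, NRA_D2 hX]
    rfl
  have hnn : ∀ u : V2, nn (fun u => k • Q (X u - c)) u = (k ^ 2) • Q (nn X u) := by
    intro u
    unfold nn
    rw [hfd, hfd, cr_smul_left, cr_smul_right, hQ, smul_smul, sq]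
  have hin : ∀ a b : V3, ⟪k • Q a, k • Q b⟫ = k ^ 2 * ⟪a, b⟫ := by
    intro a b
    rw [real_inner_smul_left, real_inner_smul_right, Q.inner_map_map]
    ring
  have hL : ∀ u : V2, Lop (fun u => k • Q (X u - c)) (fun u => k • Q (X u - c)) u =
      (k ^ 3) • Q (Lop X X u) := by
    intro u
    unfold Lop cA cB cC
    rw [hfd, hfd, hD2, hD2, hD2, hin, hin, hin, map_add, map_add, map_smul, map_smul, map_smul]
    module
  have hnorm : ∀ u : V2, ‖nn (fun u => k • Q (X u - c)) u‖ = k ^ 2 * ‖nn X u‖ := by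
    intro u
    rw [hnn, norm_smul, Q.norm_map, Real.norm_of_nonneg (by positivity)]
  refine ⟨?_, ?_, ?_, ?_⟩
  · rw [e]
    exact ((k • Q.toContinuousLinearMap).contDiff.comp
      (hX.comp (ContinuousLinearMap.id ℝ V2).contDiff)).add contDiff_const
  · intro u hu h0
    have h1 := hnorm u
    rw [h0, norm_zero] at h1
    have h2 : 0 < ‖nn X u‖ := norm_pos_iff.2 (h.imm u hu)
    have h3 : 0 < k ^ 2 * ‖nn X u‖ := by positivity
    linarith
  · intro u v hu hv huv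
    apply h.inj u v hu hv
    have h1 : Q (X u - c) = Q (X v - c) := smul_right_injective V3 hk.ne' huv
    have h2 := Q.injective h1
    exact sub_left_injective h2
  · intro u hu
    rw [hnorm, hL, hnn, real_inner_smul_left, real_inner_smul_right, Q.inner_map_map, h.cmc u hu]
    field_simp

end Pool.Agent.H99.SC

end S_NRA

section S_NRB

/-!
# NRB: a rotation taking a given unit vector to `E3`

`ν` a unit vector.  Choose a unit vector `a` orthogonal to `ν` and `b = cr ν a`; then `cr a b = ν`, `cr b ν = a`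
(`cr_cr`).  `Q y = (⟪a,y⟫, ⟪b,y⟫, ⟪ν,y⟫)`.  `‖Q y‖^2 = ‖y‖^2` (orthonormal basis; or `decomp`), `Q ν = E3`;
`(cr (Q y) (Q z)) 2 = ⟪a,y⟫⟪b,z⟫ - ⟪b,y⟫⟪a,z⟫ = ⟪cr a b, cr y z⟫ = ⟪ν, cr y z⟫` (`cr_lag`), the other coordinates in the same way.
Surjectivity is not needed except `sim_circle`: `Q` is a linear isometry of a finite dimensional space, so bijective.
`sim_circle`: `y` on the circle `{⟪y - c, ν⟫ = 0, ‖y - c‖ = r}` iff `z = r⁻¹ Q (y - c)` has `z 2 = 0` and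
`z 0^2 + z 1^2 = 1` (`z 2 = r⁻¹ ⟪ν, y - c⟫` because `⟪E3, Q x⟫ = ⟪Q ν, Q x⟫ = ⟪ν, x⟫`).
-/


open scoped RealInnerProductSpace Topology
open Metric Filter Set


namespace Pool.Agent.H99.SC

theorem NRB_perp {ν : V3} (hν : ‖ν‖ = 1) : ∃ a : V3, ‖a‖ = 1 ∧ ⟪a, ν⟫ = 0 := by
  have h1 : ∃ a : V3, a ≠ 0 ∧ ⟪a, ν⟫ = 0 := by
    by_cases h : ν 0 ^ 2 + ν 1 ^ 2 = 0
    · have h0 : ν 0 = 0 := by nlinarith [sq_nonneg (ν 0), sq_nonneg (ν 1)]
      refine ⟨!₂[1, 0, 0], ?_, ?_⟩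
      · intro h2
        have h3 := congrArg (fun v : V3 => v 0) h2
        simp at h3
      · rw [ip]
        simp [h0]
    · refine ⟨!₂[ν 1, -ν 0, 0], ?_, ?_⟩
      · intro h2
        have h3 := congrArg (fun v : V3 => v 0) h2
        have h4 := congrArg (fun v : V3 => v 1) h2
        simp at h3 h4
        apply h
        rw [h3, h4]
        norm_num
      · rw [ip]
        simp
        ring
  obtain ⟨a, ha, ha2⟩ := h1
  refine ⟨‖a‖⁻¹ • a, ?_, ?_⟩
  · rw [norm_smul, norm_inv, norm_norm, inv_mul_cancel₀ (norm_ne_zero_iff.2 ha)]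
  · rw [inner_smul_left, ha2, mul_zero]

theorem exists_rot {ν : V3} (hν : ‖ν‖ = 1) : ∃ Q : V3 →ₗᵢ[ℝ] V3, Q ν = E3 ∧
    ∀ a b : V3, cr (Q a) (Q b) = Q (cr a b) := by
  obtain ⟨a, ha, haν⟩ := NRB_perp hν
  obtain ⟨b, hb⟩ : ∃ b, b = cr ν a := ⟨_, rfl⟩
  have hνν : ⟪ν, ν⟫ = 1 := by rw [real_inner_self_eq_norm_sq, hν]; norm_num
  have haa : ⟪a, a⟫ = 1 := by rw [real_inner_self_eq_norm_sq, ha]; norm_num
  have hνa : ⟪ν, a⟫ = 0 := by rw [real_inner_comm]; exact haν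
  have hab : cr a b = ν := by
    rw [hb, cr_cr, haa, haν, one_smul, zero_smul, sub_zero]
  have hbν : cr b ν = a := by
    rw [hb, cr_swap, cr_cr, hνa, hνν, zero_smul, one_smul, zero_sub, neg_neg]
  have hbb : ⟪b, b⟫ = 1 := by
    rw [hb, cr_lag, hνν, haa, hνa, haν]; ring
  have hbν0 : ⟪b, ν⟫ = 0 := by rw [hb]; exact cr_inner_left ν a
  have hab0 : ⟪a, b⟫ = 0 := by rw [hb, real_inner_comm]; exact cr_inner_right ν a
  have hb1 : ‖b‖ ^ 2 = 1 := by rw [← real_inner_self_eq_norm_sq, hbb]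
  have ha1 : ‖a‖ ^ 2 = 1 := by rw [ha]; norm_num
  have hnorm : ∀ y : V3, ‖y‖ ^ 2 = ⟪a, y⟫ ^ 2 + ⟪b, y⟫ ^ 2 + ⟪ν, y⟫ ^ 2 := by
    intro y
    have h1 := decomp a b y
    rw [hab, hν, hb1, ha1, hab0, one_pow, one_smul, zero_mul, zero_mul, sub_zero, sub_zero,
      one_mul, one_mul] at h1
    have h2 : ⟪y, y⟫ = ⟪y, ⟪y, ν⟫ • ν + ⟪y, a⟫ • a + ⟪y, b⟫ • b⟫ := by rw [← h1]
    rw [inner_add_right, inner_add_right, inner_smul_right, inner_smul_right, inner_smul_right,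
      real_inner_self_eq_norm_sq] at h2
    rw [h2, real_inner_comm y a, real_inner_comm y b, real_inner_comm y ν]
    ring
  let L : V3 →ₗ[ℝ] V3 :=
    { toFun := fun y => !₂[⟪a, y⟫, ⟪b, y⟫, ⟪ν, y⟫]
      map_add' := by
        intro x y
        apply ext3 <;> simp [inner_add_right]
      map_smul' := by
        intro c y
        apply ext3 <;> simp [inner_smul_right] }
  have L0 : ∀ y, (L y) 0 = ⟪a, y⟫ := fun y => by simp [L]
  have L1 : ∀ y, (L y) 1 = ⟪b, y⟫ := fun y => by simp [L]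
  have L2 : ∀ y, (L y) 2 = ⟪ν, y⟫ := fun y => by simp [L]
  have hL : ∀ y, ‖L y‖ = ‖y‖ := by
    intro y
    have h1 : ‖L y‖ ^ 2 = ‖y‖ ^ 2 := by rw [nsq, L0, L1, L2, hnorm y]
    exact (sq_eq_sq₀ (norm_nonneg _) (norm_nonneg _)).1 h1
  refine ⟨⟨L, hL⟩, ?_, ?_⟩
  · show L ν = E3
    apply ext3
    · rw [L0, haν]; simp
    · rw [L1, hbν0]; simp
    · rw [L2, hνν]; simp
  · intro x y
    show cr (L x) (L y) = L (cr x y)
    apply ext3
    · rw [cr_0, L0, L1, L2, L1, L2, ← hbν, cr_lag]; ring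
    · rw [cr_1, L1, L0, L2, L0, L2]
      have h3 : ⟪b, cr x y⟫ = ⟪cr ν a, cr x y⟫ := by rw [hb]
      rw [h3, cr_lag]; ring
    · rw [cr_2, L2, L0, L1, L0, L1, ← hab, cr_lag]; ring

theorem sim_circle {ν : V3} {Q : V3 →ₗᵢ[ℝ] V3} (hQ : Q ν = E3) {r : ℝ} (hr : 0 < r) (c y : V3) :
    (⟪y - c, ν⟫ = 0 ∧ ‖y - c‖ = r) ↔
      ((r⁻¹ • Q (y - c)) 2 = 0 ∧ (r⁻¹ • Q (y - c)) 0 ^ 2 + (r⁻¹ • Q (y - c)) 1 ^ 2 = 1) := by
  have h2 : (Q (y - c)) 2 = ⟪y - c, ν⟫ := by
    have h1 : ⟪Q (y - c), Q ν⟫ = ⟪y - c, ν⟫ := Q.inner_map_map _ _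
    rw [← h1, hQ, ip]
    simp
  have hz2 : (r⁻¹ • Q (y - c)) 2 = r⁻¹ * ⟪y - c, ν⟫ := by
    rw [← h2]; simp
  have hn : (r⁻¹ • Q (y - c)) 0 ^ 2 + (r⁻¹ • Q (y - c)) 1 ^ 2 + (r⁻¹ • Q (y - c)) 2 ^ 2
      = (r⁻¹ * ‖y - c‖) ^ 2 := by
    rw [← nsq, norm_smul, Q.norm_map, norm_inv, Real.norm_of_nonneg hr.le]
  have hri : r⁻¹ ≠ 0 := inv_ne_zero hr.ne'
  constructor
  · rintro ⟨h3, h4⟩
    have h5 : (r⁻¹ • Q (y - c)) 2 = 0 := by rw [hz2, h3, mul_zero]
    refine ⟨h5, ?_⟩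
    rw [h5, h4, inv_mul_cancel₀ hr.ne'] at hn
    linarith
  · rintro ⟨h3, h4⟩
    rw [hz2] at h3
    have h5 : ⟪y - c, ν⟫ = 0 := (mul_eq_zero.1 h3).resolve_left hri
    refine ⟨h5, ?_⟩
    rw [h4, hz2, h5, mul_zero] at hn
    have h6 : (r⁻¹ * ‖y - c‖) ^ 2 = 1 := by linarith
    have h7 : 0 ≤ r⁻¹ * ‖y - c‖ := by positivity
    have h8 : r⁻¹ * ‖y - c‖ = 1 := by nlinarith
    calc ‖y - c‖ = r * (r⁻¹ * ‖y - c‖) := by rw [← mul_assoc, mul_inv_cancel₀ hr.ne', one_mul]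
      _ = r := by rw [h8, mul_one]

end Pool.Agent.H99.SC

end S_NRB

section S_NRC

/-!
# NRC: nonzero mean curvature, general circle

`H > 0` first (`nrc_pos`): `Q` from `exists_rot`, `X' u = r⁻¹ Q (X u - c)`; `Raw X' (H / r⁻¹)` (`raw_sim`), `H/r⁻¹ > 0`.  `Surf`: `bd`: a
point `z` with `z 2 = 0`, `z 0^2 + z 1^2 = 1` is `r⁻¹ Q (y - c)` for some `y` (`Q` is surjective: linear isometry in finite
dimension, `LinearIsometry.toLinearIsometryEquiv` or `LinearMap.injective_iff_surjective`), `y` is on the circle (`sim_circle`)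
so `y = X u`, `‖u‖ = 1`; and conversely.  `StarAt` for `q' = r⁻¹ Q (q - c)`: `q' + s v ∈ Sig'` means
`q + s w ∈ X(closed disc)` with `w = r Q⁻¹ v ≠ 0`.  `msf`: `‖X' u - c'‖ = R'`; write `c' = r⁻¹ Q (c'' - c)`, so
`‖X u - c''‖ = r R'`.
`H < 0`: `raw_swap` (`X (sw u)`, mean curvature `-H > 0`; `sw` preserves the closed disc and the circle).
-/


open scoped RealInnerProductSpace Topology
open Metric Filter Set


namespace Pool.Agent.H99.SC

theorem NRC_surj (Q : V3 →ₗᵢ[ℝ] V3) : Function.Surjective Q := by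
  have h : Function.Injective Q.toLinearMap := Q.injective
  exact LinearMap.injective_iff_surjective.1 h

/-- the normalised surface -/
def NRC_surf {X : V2 → V3} {H : ℝ} (h : Raw X H) (hH : 0 < H) {ν c : V3} {r : ℝ}
    (hr : 0 < r) (hb : ∀ y : V3, (∃ u : V2, ‖u‖ = 1 ∧ X u = y) ↔ (⟪y - c, ν⟫ = 0 ∧ ‖y - c‖ = r))
    (Q : V3 →ₗᵢ[ℝ] V3) (hQ : Q ν = E3) (hc : ∀ a b : V3, cr (Q a) (Q b) = Q (cr a b)) : Surf :=
  have hk : 0 < r⁻¹ := inv_pos.2 hr
  have hR := raw_sim h hc hk c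
  { X := fun u => r⁻¹ • Q (X u - c)
    H := H / r⁻¹
    smooth := hR.smooth
    imm := hR.imm
    inj := hR.inj
    Hpos := div_pos hH hk
    bd := by
      intro y
      constructor
      · rintro ⟨u, hu, rfl⟩
        exact (sim_circle hQ hr c (X u)).1 ((hb (X u)).1 ⟨u, hu, rfl⟩)
      · intro hy
        obtain ⟨x, hx⟩ := NRC_surj Q (r • y)
        have hxy : r⁻¹ • Q ((c + x) - c) = y := by
          rw [add_sub_cancel_left, hx, smul_smul, inv_mul_cancel₀ hr.ne', one_smul]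
        have h1 : ⟪(c + x) - c, ν⟫ = 0 ∧ ‖(c + x) - c‖ = r := by
          rw [sim_circle hQ hr c (c + x), hxy]
          exact hy
        obtain ⟨u, hu, hu2⟩ := (hb (c + x)).2 h1
        refine ⟨u, hu, ?_⟩
        show r⁻¹ • Q (X u - c) = y
        rw [hu2, hxy]
    cmc := hR.cmc }

theorem nrc_pos {X : V2 → V3} {H : ℝ} (h : Raw X H) (hH : 0 < H) {ν c : V3} (hν : ‖ν‖ = 1) {r : ℝ}
    (hr : 0 < r) (hb : ∀ y : V3, (∃ u : V2, ‖u‖ = 1 ∧ X u = y) ↔ (⟪y - c, ν⟫ = 0 ∧ ‖y - c‖ = r))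
    {q : V3} (hq : ∀ v : V3, v ≠ 0 → ∀ s t : ℝ, 0 ≤ s → 0 ≤ t →
      (∃ u : V2, ‖u‖ ≤ 1 ∧ X u = q + s • v) → (∃ u : V2, ‖u‖ ≤ 1 ∧ X u = q + t • v) → s = t) :
    ∃ (a : V3) (R : ℝ), 0 < R ∧ ∀ u : V2, ‖u‖ ≤ 1 → ‖X u - a‖ = R := by
  obtain ⟨Q, hQ, hc⟩ := exists_rot hν
  have hk : 0 < r⁻¹ := inv_pos.2 hr
  have hstar : StarAt (NRC_surf h hH hr hb Q hQ hc) (r⁻¹ • Q (q - c)) := by
    intro v hv s t hs ht h1 h2
    obtain ⟨w, hw⟩ := NRC_surj Q (r • v)
    have hw0 : w ≠ 0 := by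
      rintro rfl
      rw [map_zero] at hw
      exact (smul_ne_zero hr.ne' hv) hw.symm
    have key : ∀ a : ℝ, r⁻¹ • Q (q - c) + a • v ∈ (NRC_surf h hH hr hb Q hQ hc).Sig →
        ∃ u : V2, ‖u‖ ≤ 1 ∧ X u = q + a • w := by
      rintro a ⟨u, hu, hu2⟩
      refine ⟨u, hu, ?_⟩
      have h3 : r⁻¹ • Q (X u - c) = r⁻¹ • Q (q - c) + a • v := hu2
      have h4 : Q (X u - c) = Q (q - c + a • w) := by
        have h5 := congrArg (fun z => r • z) h3
        simp only [smul_add, smul_smul, mul_inv_cancel₀ hr.ne', one_smul] at h5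
        rw [h5, map_add, map_smul, hw, smul_smul, mul_comm a r]
      have h6 := Q.injective h4
      have h7 : X u = (q - c + a • w) + c := by rw [← h6]; abel
      rw [h7]; abel
    exact hq w hw0 s t hs ht (key s h1) (key t h2)
  obtain ⟨c', hc'⟩ := msf hstar
  obtain ⟨x, hx⟩ := NRC_surj Q (r • c')
  refine ⟨c + x, r * (H / r⁻¹)⁻¹, by positivity, ?_⟩
  intro u hu
  have h1 : ‖r⁻¹ • Q (X u - c) - c'‖ = (H / r⁻¹)⁻¹ := hc' u hu
  have h2 : r⁻¹ • Q (X u - c) - c' = r⁻¹ • Q (X u - (c + x)) := by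
    have h3 : X u - (c + x) = (X u - c) - x := by abel
    rw [h3, map_sub Q (X u - c) x, hx, smul_sub, smul_smul, inv_mul_cancel₀ hr.ne', one_smul]
  rw [h2, norm_smul, Q.norm_map, Real.norm_eq_abs, abs_of_pos hk] at h1
  rw [← h1, ← mul_assoc, mul_inv_cancel₀ hr.ne', one_mul]

theorem nrc {X : V2 → V3} {H : ℝ} (h : Raw X H) (hH : H ≠ 0) {ν c : V3} (hν : ‖ν‖ = 1) {r : ℝ}
    (hr : 0 < r) (hb : ∀ y : V3, (∃ u : V2, ‖u‖ = 1 ∧ X u = y) ↔ (⟪y - c, ν⟫ = 0 ∧ ‖y - c‖ = r))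
    {q : V3} (hq : ∀ v : V3, v ≠ 0 → ∀ s t : ℝ, 0 ≤ s → 0 ≤ t →
      (∃ u : V2, ‖u‖ ≤ 1 ∧ X u = q + s • v) → (∃ u : V2, ‖u‖ ≤ 1 ∧ X u = q + t • v) → s = t) :
    ∃ (a : V3) (R : ℝ), 0 < R ∧ ∀ u : V2, ‖u‖ ≤ 1 → ‖X u - a‖ = R := by
  rcases lt_or_gt_of_ne hH with hneg | hpos
  · have hraw := raw_swap h
    have hpos : 0 < -H := by linarith
    have hb' : ∀ y : V3, (∃ u : V2, ‖u‖ = 1 ∧ X (sw u) = y) ↔
        (⟪y - c, ν⟫ = 0 ∧ ‖y - c‖ = r) := by
      intro y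
      rw [← hb y]
      constructor
      · rintro ⟨u, hu, h1⟩
        exact ⟨sw u, by rw [sw_norm, hu], h1⟩
      · rintro ⟨u, hu, h1⟩
        exact ⟨sw u, by rw [sw_norm, hu], by rw [sw_sw, h1]⟩
    have hsw : ∀ y : V3, (∃ u : V2, ‖u‖ ≤ 1 ∧ X (sw u) = y) → ∃ u : V2, ‖u‖ ≤ 1 ∧ X u = y := by
      rintro y ⟨u, hu, h1⟩
      exact ⟨sw u, by rw [sw_norm]; exact hu, h1⟩
    obtain ⟨a, R, hR, h1⟩ := nrc_pos hraw hpos hν hr hb'
      (fun v hv s t hs ht h1 h2 => hq v hv s t hs ht (hsw _ h1) (hsw _ h2))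
    refine ⟨a, R, hR, fun u hu => ?_⟩
    have h2 := h1 (sw u) (by rw [sw_norm]; exact hu)
    rwa [sw_sw] at h2
  · exact nrc_pos h hpos hν hr hb hq

end Pool.Agent.H99.SC

end S_NRC

section S_NRD

/-!
# NRD: mean curvature zero

`w u = ⟪ν, X u⟫ - ⟪ν, c⟫` (i.e. `⟪ν, X u⟫` minus a constant) vanishes on the unit circle.  `pln` with `c = ν`: in the open
disc `⟪nn, Lop X X⟫ = 0`, so `|Lop X w| ≤ K |Dw|` (adding a constant does not change derivatives).  `wmp` with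
`A = cA X`, `B = cB X`, `C = cC X` (`contDiff_cA` etc., `cA_pos`, `cB_sq_lt`).
-/


open scoped RealInnerProductSpace Topology
open Metric Filter Set


namespace Pool.Agent.H99.SC

theorem raw_plane {X : V2 → V3} (h : Raw X 0) {ν c : V3}
    (hb : ∀ u : V2, ‖u‖ = 1 → ⟪X u - c, ν⟫ = 0) : ∀ u : V2, ‖u‖ ≤ 1 → ⟪X u - c, ν⟫ = 0 := by
  have hpl : ContDiff ℝ 2 (fun x => ⟪ν, X x⟫) := contDiff_height h.smooth ν
  set w : V2 → ℝ := fun x => ⟪ν, X x⟫ - ⟪ν, c⟫ with hw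
  have hwc : ContDiff ℝ 2 w := hpl.sub contDiff_const
  have hfd : fderiv ℝ w = fderiv ℝ (fun x => ⟪ν, X x⟫) := by
    funext x
    rw [hw, fderiv_sub_const]
  have hD2 : ∀ x a b, D2 w x a b = D2 (fun x => ⟪ν, X x⟫) x a b := by
    intro x a b
    unfold D2
    rw [hfd]
  obtain ⟨K, hK⟩ := pln h.smooth h.imm ν
  have hwX : ∀ u : V2, w u = ⟪X u - c, ν⟫ := by
    intro u
    change ⟪ν, X u⟫ - ⟪ν, c⟫ = _
    rw [← inner_sub_right, real_inner_comm]
  have hmain := wmp (A := cA X) (B := cB X) (C := cC X) (w := w) (K := K) hwc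
    (contDiff_cA h.smooth).continuous (contDiff_cB h.smooth).continuous
    (contDiff_cC h.smooth).continuous (fun x hx => cA_pos (h.imm x hx))
    (fun x hx => cB_sq_lt (h.imm x hx)) (fun x hx => by rw [hwX]; exact hb x hx)
    (fun x hx => by
      have h1 := hK x hx.le
      have h2 := h.cmc x hx
      rw [real_inner_comm, mul_zero, zero_mul] at h2
      rw [h2, mul_zero, zero_div, sub_zero] at h1
      rw [hfd]
      have h3 : Ell (cA X) (cB X) (cC X) w x = Lop X (fun x => ⟪ν, X x⟫) x := by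
        unfold Ell Lop
        rw [hD2, hD2, hD2]
        simp only [smul_eq_mul]
      rw [h3]
      exact h1)
  intro u hu
  rw [← hwX]
  exact hmain u hu

end Pool.Agent.H99.SC

end S_NRD

section S_CNV

/-!
# CNV: from functions with values in `Fin 3 → ℝ` to V3

`Y : V2 → (Fin 3 → ℝ)`, `X u = WithLp.toLp 2 (Y u)`.  `WithLp.toLp 2` is a continuous linear equivalence
(`(EuclideanSpace.equiv (Fin 3) ℝ).symm`, `PiLp.continuousLinearEquiv`), so `fderiv X u a = toLp 2 (fderiv Y u a)` and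
`fderiv (fun p => fderiv Y p b) u a` is the same for `X`: `D2 X u a b = toLp 2 (fderiv (fun p => fderiv Y p b) u a)`
(`D2 X u a b = fderiv (fderiv X) u a b`, evaluation at `b` is linear).
`dotProduct x y = ⟪toLp 2 x, toLp 2 y⟫`, `crossProduct x y` corresponds to `cr`.
`cnv_raw`: from the equation with dot products: `Yuu = fderiv (fderiv Y · e0) · e0` etc.  (`Yuv` is the derivative of `Yu` in the
direction `e1`: `D2 X u e1 e0 = D2 X u e0 e1`, `D2_symm`), `sqrt (n·n) = ‖n‖`, `n·n = ‖n‖^2`.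
-/


open scoped RealInnerProductSpace Topology
open Metric Filter Set


namespace Pool.Agent.H99.SC

theorem cnv_dot (x y : Fin 3 → ℝ) :
    dotProduct x y = ⟪(WithLp.toLp 2 x : V3), (WithLp.toLp 2 y : V3)⟫ := by
  rw [ip]; simp [dotProduct, Fin.sum_univ_three]


/-- the identification of `Fin 3 → ℝ` with `V3` -/
private def CNV_L : (Fin 3 → ℝ) →L[ℝ] V3 :=
  ((EuclideanSpace.equiv (Fin 3) ℝ).symm : (Fin 3 → ℝ) →L[ℝ] V3)

private theorem CNV_L_apply (y : Fin 3 → ℝ) : CNV_L y = (WithLp.toLp 2 y : V3) := rfl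

private theorem CNV_D1 {Y : V2 → (Fin 3 → ℝ)} (hY : ContDiff ℝ 2 Y) (u a : V2) :
    fderiv ℝ (fun u => (WithLp.toLp 2 (Y u) : V3)) u a = WithLp.toLp 2 (fderiv ℝ Y u a) := by
  have h1 : HasFDerivAt Y (fderiv ℝ Y u) u := (hY.differentiable (by norm_num) u).hasFDerivAt
  have h2 : HasFDerivAt (fun u => CNV_L (Y u)) (CNV_L.comp (fderiv ℝ Y u)) u :=
    CNV_L.hasFDerivAt.comp u h1
  have h3 := h2.fderiv
  have h4 : (fun u => CNV_L (Y u)) = fun u => (WithLp.toLp 2 (Y u) : V3) := rfl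
  rw [h4] at h3
  rw [h3]
  rfl

private theorem CNV_D2 {Y : V2 → (Fin 3 → ℝ)} (hY : ContDiff ℝ 2 Y) (u a b : V2) :
    D2 (fun u => (WithLp.toLp 2 (Y u) : V3)) u a b =
      WithLp.toLp 2 (fderiv ℝ (fun p => fderiv ℝ Y p b) u a) := by
  set X : V2 → V3 := fun u => (WithLp.toLp 2 (Y u) : V3) with hX
  have hXs : ContDiff ℝ 2 X := CNV_L.contDiff.comp hY
  have hd : ∀ {F : Type} [NormedAddCommGroup F] [NormedSpace ℝ F] {f : V2 → F},
      ContDiff ℝ 2 f → Differentiable ℝ (fderiv ℝ f) := by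
    intro F _ _ f hf
    exact (hf.fderiv_right (m := 1) (by norm_num)).differentiable (by norm_num)
  have h1 : HasFDerivAt (fderiv ℝ X) (fderiv ℝ (fderiv ℝ X) u) u := (hd hXs u).hasFDerivAt
  have h2 : HasFDerivAt (fun p => fderiv ℝ X p b)
      ((fderiv ℝ (fderiv ℝ X) u).flip b) u := by
    have := h1.clm_apply (hasFDerivAt_const b u)
    simpa using this
  have h3 : HasFDerivAt (fderiv ℝ Y) (fderiv ℝ (fderiv ℝ Y) u) u := (hd hY u).hasFDerivAt
  have h4 : HasFDerivAt (fun p => fderiv ℝ Y p b)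
      ((fderiv ℝ (fderiv ℝ Y) u).flip b) u := by
    have := h3.clm_apply (hasFDerivAt_const b u)
    simpa using this
  have h5 : HasFDerivAt (fun p => CNV_L (fderiv ℝ Y p b))
      (CNV_L.comp ((fderiv ℝ (fderiv ℝ Y) u).flip b)) u := CNV_L.hasFDerivAt.comp u h4
  have h6 : (fun p => fderiv ℝ X p b) = fun p => CNV_L (fderiv ℝ Y p b) := by
    funext p
    rw [CNV_L_apply]
    exact CNV_D1 hY p b
  rw [h6] at h2
  have h7 := h2.unique h5
  have h8 : D2 X u a b = ((fderiv ℝ (fderiv ℝ X) u).flip b) a := rfl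
  rw [h8, h7, h4.fderiv]
  rfl

private theorem CNV_cr (x y : Fin 3 → ℝ) :
    (WithLp.toLp 2 (crossProduct x y) : V3) = cr (WithLp.toLp 2 x) (WithLp.toLp 2 y) := by
  apply ext3
  · rw [cr_0]; simp [cross_apply]
  · rw [cr_1]; simp [cross_apply]
  · rw [cr_2]; simp [cross_apply]

theorem cnv_raw {Y : V2 → (Fin 3 → ℝ)} (hY : ContDiff ℝ 2 Y) {H : ℝ}
    (himm : ∀ p : V2, ‖p‖ ≤ 1 → crossProduct (fderiv ℝ Y p (EuclideanSpace.single 0 1))
      (fderiv ℝ Y p (EuclideanSpace.single 1 1)) ≠ 0)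
    (hinj : Set.InjOn Y (Metric.closedBall (0 : V2) 1))
    (hcmc : ∀ p : V2, ‖p‖ < 1 →
      dotProduct (fderiv ℝ Y p (EuclideanSpace.single 0 1))
          (fderiv ℝ Y p (EuclideanSpace.single 0 1))
        * dotProduct (fderiv ℝ (fun p => fderiv ℝ Y p (EuclideanSpace.single 1 1)) p
            (EuclideanSpace.single 1 1))
          (crossProduct (fderiv ℝ Y p (EuclideanSpace.single 0 1))
            (fderiv ℝ Y p (EuclideanSpace.single 1 1)))
      - 2 * dotProduct (fderiv ℝ Y p (EuclideanSpace.single 0 1))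
          (fderiv ℝ Y p (EuclideanSpace.single 1 1))
        * dotProduct (fderiv ℝ (fun p => fderiv ℝ Y p (EuclideanSpace.single 0 1)) p
            (EuclideanSpace.single 1 1))
          (crossProduct (fderiv ℝ Y p (EuclideanSpace.single 0 1))
            (fderiv ℝ Y p (EuclideanSpace.single 1 1)))
      + dotProduct (fderiv ℝ Y p (EuclideanSpace.single 1 1))
          (fderiv ℝ Y p (EuclideanSpace.single 1 1))
        * dotProduct (fderiv ℝ (fun p => fderiv ℝ Y p (EuclideanSpace.single 0 1)) p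
            (EuclideanSpace.single 0 1))
          (crossProduct (fderiv ℝ Y p (EuclideanSpace.single 0 1))
            (fderiv ℝ Y p (EuclideanSpace.single 1 1)))
      = 2 * H * dotProduct (crossProduct (fderiv ℝ Y p (EuclideanSpace.single 0 1))
            (fderiv ℝ Y p (EuclideanSpace.single 1 1)))
          (crossProduct (fderiv ℝ Y p (EuclideanSpace.single 0 1))
            (fderiv ℝ Y p (EuclideanSpace.single 1 1)))
        * Real.sqrt (dotProduct (crossProduct (fderiv ℝ Y p (EuclideanSpace.single 0 1))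
            (fderiv ℝ Y p (EuclideanSpace.single 1 1)))
          (crossProduct (fderiv ℝ Y p (EuclideanSpace.single 0 1))
            (fderiv ℝ Y p (EuclideanSpace.single 1 1))))) :
    Raw (fun u => (WithLp.toLp 2 (Y u) : V3)) H := by
  have he0 : (EuclideanSpace.single 0 1 : V2) = e0 := rfl
  have he1 : (EuclideanSpace.single 1 1 : V2) = e1 := rfl
  simp only [he0, he1] at himm hcmc
  set X : V2 → V3 := fun u => (WithLp.toLp 2 (Y u) : V3) with hX
  have hXs : ContDiff ℝ 2 X := CNV_L.contDiff.comp hY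
  have hnn : ∀ u, nn X u = WithLp.toLp 2 (crossProduct (fderiv ℝ Y u e0) (fderiv ℝ Y u e1)) := by
    intro u
    rw [CNV_cr]
    unfold nn
    rw [CNV_D1 hY u e0, CNV_D1 hY u e1]
  refine ⟨hXs, ?_, ?_, ?_⟩
  · intro u hu h0
    rw [hnn] at h0
    exact himm u hu ((WithLp.toLp_injective 2) h0)
  · intro u v hu hv huv
    exact hinj (by simpa using hu) (by simpa using hv) ((WithLp.toLp_injective 2) huv)
  · intro u hu
    have h1 := hcmc u hu
    simp only [cnv_dot] at h1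
    rw [← hnn u, ← CNV_D1 hY u e0, ← CNV_D1 hY u e1, ← CNV_D2 hY u e1 e1, ← CNV_D2 hY u e1 e0,
      ← CNV_D2 hY u e0 e0] at h1
    have h2 : D2 X u e1 e0 = D2 X u e0 e1 := D2_symm hXs.contDiffAt _ _
    have h3 : ⟪nn X u, nn X u⟫ = ‖nn X u‖ ^ 2 := real_inner_self_eq_norm_sq _
    change ⟪fderiv ℝ X u e0, fderiv ℝ X u e0⟫ * ⟪D2 X u e1 e1, nn X u⟫
      - 2 * ⟪fderiv ℝ X u e0, fderiv ℝ X u e1⟫ * ⟪D2 X u e1 e0, nn X u⟫
      + ⟪fderiv ℝ X u e1, fderiv ℝ X u e1⟫ * ⟪D2 X u e0 e0, nn X u⟫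
      = 2 * H * ⟪nn X u, nn X u⟫ * Real.sqrt ⟪nn X u, nn X u⟫ at h1
    rw [h2, h3, Real.sqrt_sq (norm_nonneg _)] at h1
    unfold Lop cA cB cC
    rw [inner_add_left, inner_add_left, real_inner_smul_left, real_inner_smul_left,
      real_inner_smul_left]
    linear_combination h1

end Pool.Agent.H99.SC

end S_CNV
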